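import Pool.Agent.Lib.TB.SpecK
import Pool.Agent.Lib.MP_640417_ag.All.Divisor

/-!
MP_00e23e_nt, Lib/TB, module Tauk (helper16): the divisor bound.
-/

namespace Pool.Agent.Lib.TB

open Finset Pool.Agent.Lib.EH3

theorem tTauk : TaukStmt := by
  intro ε hε
  obtain ⟨C, _, hC⟩ := Pool.Agent.Lib.MP_640417_ag.All.divisor_bound ε hε
  refine ⟨max C 1, le_max_right _ _, fun n hn => (hC n hn).trans ?_⟩
  exact mul_le_mul_of_nonneg_right (le_max_left _ _) (Real.rpow_nonneg (Nat.cast_nonneg _) _)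

end Pool.Agent.Lib.TB
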