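import Pool.Agent.Lib.TB.SpecK
import Pool.Agent.Lib.EH3.LS2

/-!
MP_00e23e_nt, directory Lib/TB, module Cmp: completing an incomplete sum of a periodic function.
-/

namespace Pool.Agent.Lib.TB

open Finset Pool.Agent.Lib.EH3

private lemma Cmp_per {f : ℕ → ℂ} {b : ℕ} (hf : ∀ t, f (t + b) = f t) (t : ℕ) :
    f t = f (t % b) := by
  have h : ∀ k s : ℕ, f (s + b * k) = f s := by
    intro k
    induction k with
    | zero => intro s; simp
    | succ k ih =>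
      intro s
      rw [Nat.mul_succ, ← add_assoc, hf, ih]
  conv_lhs => rw [← Nat.mod_add_div t b]
  exact h _ _

private lemma Cmp_inv {f : ℕ → ℂ} {b : ℕ} (hb : 1 ≤ b) (hf : ∀ t, f (t + b) = f t) (t : ℕ) :
    (b : ℂ) * f t = ∑ j ∈ range b, (∑ x ∈ range b, f x * ee ((j : ℝ) * x / b)) *
      ee (-((j : ℝ) * t) / b) := by
  have h1 : ∀ j ∈ range b, (∑ x ∈ range b, f x * ee ((j : ℝ) * x / b)) *
      ee (-((j : ℝ) * t) / b) =
      ∑ x ∈ range b, f x * ee ((j : ℝ) * ((((x : ℤ) - t : ℤ) : ℝ) / b)) := by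
    intro j _
    rw [sum_mul]
    refine sum_congr rfl fun x _ => ?_
    rw [mul_assoc, ← ee_add]
    congr 2
    push_cast
    ring
  rw [sum_congr rfl h1, sum_comm]
  have h2 : ∀ x ∈ range b, ∑ j ∈ range b, f x * ee ((j : ℝ) * ((((x : ℤ) - t : ℤ) : ℝ) / b)) =
      if x = t % b then f x * b else 0 := by
    intro x hx
    rw [← mul_sum, orth (by omega : 0 < b)]
    have hx' := mem_range.1 hx
    have h3 : ((b : ℤ) ∣ (x : ℤ) - t) ↔ x = t % b := by
      rw [← Nat.modEq_iff_dvd]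
      constructor
      · intro h
        have h4 : t % b = x % b := h
        rw [h4, Nat.mod_eq_of_lt hx']
      · intro h
        change t % b = x % b
        rw [h, Nat.mod_mod]
    by_cases h : x = t % b
    · rw [if_pos h, if_pos (h3.2 h)]
    · rw [if_neg h, if_neg (fun h4 => h (h3.1 h4)), mul_zero]
  rw [sum_congr rfl h2, sum_ite_eq' (range b) (t % b) fun x => f x * (b : ℂ),
    if_pos (mem_range.2 (Nat.mod_lt _ (by omega))), ← Cmp_per hf t, mul_comm]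

theorem tCmp (h1 : GeoStmt) : CmpStmt := by
  intro f b T1 T2 K hb hT hf hK
  have hb0 : (0 : ℝ) < b := by exact_mod_cast hb
  have hK0 : 0 ≤ K := (norm_nonneg _).trans (hK 0 (mem_range.2 (by omega)))
  have h2 : (b : ℂ) * ∑ t ∈ Ico T1 T2, f t = ∑ j ∈ range b,
      (∑ x ∈ range b, f x * ee ((j : ℝ) * x / b)) * ∑ t ∈ Ico T1 T2, ee (-((j : ℝ) * t) / b) := by
    rw [mul_sum, sum_congr rfl fun t _ => Cmp_inv hb hf t, sum_comm]
    refine sum_congr rfl fun j _ => ?_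
    rw [mul_sum]
  have h3 : (b : ℝ) * ‖∑ t ∈ Ico T1 T2, f t‖ ≤
      K * (((T2 : ℝ) - T1) + b * (1 + Real.log b)) := by
    have h4 : (b : ℝ) * ‖∑ t ∈ Ico T1 T2, f t‖ = ‖(b : ℂ) * ∑ t ∈ Ico T1 T2, f t‖ := by
      rw [norm_mul, Complex.norm_natCast]
    rw [h4, h2]
    calc ‖∑ j ∈ range b, (∑ x ∈ range b, f x * ee ((j : ℝ) * x / b)) *
          ∑ t ∈ Ico T1 T2, ee (-((j : ℝ) * t) / b)‖
        ≤ ∑ j ∈ range b, ‖(∑ x ∈ range b, f x * ee ((j : ℝ) * x / b)) *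
          ∑ t ∈ Ico T1 T2, ee (-((j : ℝ) * t) / b)‖ := norm_sum_le _ _
      _ ≤ ∑ j ∈ range b, K * ‖∑ t ∈ Ico T1 T2, ee (-((j : ℝ) * t) / b)‖ := by
          refine sum_le_sum fun j hj => ?_
          rw [norm_mul]
          exact mul_le_mul_of_nonneg_right (hK j hj) (norm_nonneg _)
      _ = K * ∑ j ∈ range b, ‖∑ t ∈ Ico T1 T2, ee (-((j : ℝ) * t) / b)‖ := by rw [mul_sum]
      _ ≤ K * (((T2 : ℝ) - T1) + b * (1 + Real.log b)) :=
          mul_le_mul_of_nonneg_left (h1 b T1 T2 hb hT) hK0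
  have h5 : (b : ℝ) * (K * (((T2 : ℝ) - T1) / b + 1 + Real.log b)) =
      K * (((T2 : ℝ) - T1) + b * (1 + Real.log b)) := by
    field_simp
    ring
  rw [← h5] at h3
  exact le_of_mul_le_mul_left h3 hb0

end Pool.Agent.Lib.TB
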