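import Pool.Agent.Lib.TB.SpecK

/-!
MP_00e23e_nt, directory Lib/TB: sums of norms of geometric series
-/

namespace Pool.Agent.Lib.TB

open Finset Pool.Agent.Lib.EH3

private lemma Geo_inner (b j T1 T2 : ℕ) (_hT : T1 ≤ T2) :
    ‖∑ t ∈ Ico T1 T2, ee (-((j : ℝ) * t) / b)‖ = ‖GG (T2 - T1) (-(j : ℝ) / b)‖ := by
  rw [Finset.sum_Ico_eq_sum_range]
  have h1 : ∀ k ∈ range (T2 - T1), ee (-((j : ℝ) * ((T1 + k : ℕ) : ℝ)) / b) =
      ee (-((j : ℝ) * T1) / b) * ee (k * (-(j : ℝ) / b)) := by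
    intro k _
    rw [← ee_add]
    apply congrArg
    push_cast
    ring
  rw [Finset.sum_congr rfl h1, ← Finset.mul_sum, norm_mul, norm_ee, one_mul]
  rfl

private lemma Geo_bd (b j N : ℕ) (hj : 1 ≤ j) (hjb : j < b) :
    ‖GG N (-(j : ℝ) / b)‖ ≤ (b : ℝ) / 2 * (1 / (j : ℝ) + 1 / ((b : ℝ) - j)) := by
  have hb : (0 : ℝ) < b := by
    have : 0 < b := by omega
    exact_mod_cast this
  have hj' : (1 : ℝ) ≤ j := by exact_mod_cast hj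
  have hjb' : (1 : ℝ) ≤ (b : ℝ) - j := by
    have : (j : ℝ) + 1 ≤ b := by exact_mod_cast hjb
    linarith
  have h1 := norm_GG_mul_le N (-(j : ℝ) / b)
  set n : ℤ := round (-(j : ℝ) / b) with hn
  have h2 : |-(j : ℝ) / b - n| = |(j : ℝ) + b * n| / b := by
    have e : -(j : ℝ) / b - n = -(((j : ℝ) + b * n) / b) := by
      field_simp
      ring
    rw [e, abs_neg, abs_div, abs_of_pos hb]
  have hG := norm_nonneg (GG N (-(j : ℝ) / b))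
  rw [h2] at h1
  have h3 : ‖GG N (-(j : ℝ) / b)‖ * |(j : ℝ) + b * n| ≤ (b : ℝ) / 2 := by
    have e : ‖GG N (-(j : ℝ) / b)‖ * (2 * (|(j : ℝ) + b * n| / b)) =
        ‖GG N (-(j : ℝ) / b)‖ * |(j : ℝ) + b * n| * (2 / b) := by ring
    rw [e] at h1
    have := mul_le_mul_of_nonneg_right h1 (by positivity : (0 : ℝ) ≤ b / 2)
    calc ‖GG N (-(j : ℝ) / b)‖ * |(j : ℝ) + b * n| =
        ‖GG N (-(j : ℝ) / b)‖ * |(j : ℝ) + b * n| * (2 / b) * (b / 2) := by field_simp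
      _ ≤ 1 * (b / 2) := this
      _ = b / 2 := one_mul _
  rcases le_or_gt 0 n with h4 | h4
  · have h5 : (j : ℝ) ≤ |(j : ℝ) + b * n| := by
      have h6 : (0 : ℝ) ≤ b * n := mul_nonneg hb.le (by exact_mod_cast h4)
      rw [abs_of_nonneg (by linarith)]
      linarith
    have h7 : ‖GG N (-(j : ℝ) / b)‖ * j ≤ (b : ℝ) / 2 :=
      (mul_le_mul_of_nonneg_left h5 hG).trans h3
    have h8 : ‖GG N (-(j : ℝ) / b)‖ ≤ (b : ℝ) / 2 / j := by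
      rw [le_div_iff₀ (by linarith)]
      exact h7
    have h9 : (0 : ℝ) ≤ (b : ℝ) / 2 * (1 / ((b : ℝ) - j)) := by positivity
    calc ‖GG N (-(j : ℝ) / b)‖ ≤ (b : ℝ) / 2 / j := h8
      _ ≤ (b : ℝ) / 2 * (1 / (j : ℝ)) + (b : ℝ) / 2 * (1 / ((b : ℝ) - j)) := by
        rw [mul_one_div]
        linarith
      _ = _ := by ring
  · have h5 : (b : ℝ) - j ≤ |(j : ℝ) + b * n| := by
      have h6 : (n : ℝ) ≤ -1 := by
        have : n ≤ -1 := by omega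
        exact_mod_cast this
      have h7 : (b : ℝ) * n ≤ b * (-1) := mul_le_mul_of_nonneg_left h6 hb.le
      rw [abs_of_nonpos (by linarith)]
      linarith
    have h7 : ‖GG N (-(j : ℝ) / b)‖ * ((b : ℝ) - j) ≤ (b : ℝ) / 2 :=
      (mul_le_mul_of_nonneg_left h5 hG).trans h3
    have h8 : ‖GG N (-(j : ℝ) / b)‖ ≤ (b : ℝ) / 2 / ((b : ℝ) - j) := by
      rw [le_div_iff₀ (by linarith)]
      exact h7
    have h9 : (0 : ℝ) ≤ (b : ℝ) / 2 * (1 / (j : ℝ)) := by positivity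
    calc ‖GG N (-(j : ℝ) / b)‖ ≤ (b : ℝ) / 2 / ((b : ℝ) - j) := h8
      _ ≤ (b : ℝ) / 2 * (1 / (j : ℝ)) + (b : ℝ) / 2 * (1 / ((b : ℝ) - j)) := by
        rw [mul_one_div ((b : ℝ) / 2) ((b : ℝ) - j)]
        linarith
      _ = _ := by ring

theorem tGeo : GeoStmt := by
  intro b T1 T2 hb hT
  obtain ⟨c, rfl⟩ : ∃ c, b = c + 1 := ⟨b - 1, by omega⟩
  rw [Finset.sum_congr rfl fun j _ => Geo_inner (c + 1) j T1 T2 hT, Finset.sum_range_succ']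
  have h0 : ‖GG (T2 - T1) (-((0 : ℕ) : ℝ) / ((c + 1 : ℕ) : ℝ))‖ ≤ (T2 : ℝ) - T1 := by
    have := norm_GG_le (T2 - T1) (-((0 : ℕ) : ℝ) / ((c + 1 : ℕ) : ℝ))
    rwa [Nat.cast_sub hT] at this
  have h1 : ∀ j ∈ range c, ‖GG (T2 - T1) (-((j + 1 : ℕ) : ℝ) / ((c + 1 : ℕ) : ℝ))‖ ≤
      ((c + 1 : ℕ) : ℝ) / 2 * (1 / ((j + 1 : ℕ) : ℝ)) +
        ((c + 1 : ℕ) : ℝ) / 2 * (1 / (((c - 1 - j : ℕ) + 1 : ℕ) : ℝ)) := by
    intro j hj
    have hj' := mem_range.1 hj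
    have h2 := Geo_bd (c + 1) (j + 1) (T2 - T1) (by omega) (by omega)
    have e : ((c + 1 : ℕ) : ℝ) - ((j + 1 : ℕ) : ℝ) = (((c - 1 - j : ℕ) + 1 : ℕ) : ℝ) := by
      rw [← Nat.cast_sub (by omega)]
      apply congrArg
      omega
    rw [e] at h2
    linarith
  have hsum : ∑ j ∈ range c, (1 / (((c - 1 - j : ℕ) + 1 : ℕ) : ℝ)) =
      ∑ j ∈ range c, (1 / ((j + 1 : ℕ) : ℝ)) :=
    Finset.sum_range_reflect (fun j => 1 / ((j + 1 : ℕ) : ℝ)) c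
  have hharm : ∑ j ∈ range c, (1 / ((j + 1 : ℕ) : ℝ)) ≤ 1 + Real.log ((c + 1 : ℕ) : ℝ) := by
    have h3 := harmonic_le_one_add_log c
    have h4 : ((harmonic c : ℚ) : ℝ) = ∑ j ∈ range c, (1 / ((j + 1 : ℕ) : ℝ)) := by
      unfold harmonic
      push_cast
      exact Finset.sum_congr rfl fun j _ => by rw [one_div]
    rw [← h4]
    refine h3.trans ?_
    rcases Nat.eq_zero_or_pos c with hc | hc
    · subst hc
      simp
    · have : Real.log (c : ℝ) ≤ Real.log ((c + 1 : ℕ) : ℝ) :=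
        Real.log_le_log (by exact_mod_cast hc) (by exact_mod_cast Nat.le_succ c)
      linarith
  have h5 := Finset.sum_le_sum h1
  rw [Finset.sum_add_distrib, ← Finset.mul_sum, ← Finset.mul_sum, hsum] at h5
  have h6 : (0 : ℝ) ≤ ((c + 1 : ℕ) : ℝ) := by positivity
  have h7 := mul_le_mul_of_nonneg_left hharm h6
  calc _ ≤ (((c + 1 : ℕ) : ℝ) / 2 * ∑ j ∈ range c, (1 / ((j + 1 : ℕ) : ℝ)) +
        ((c + 1 : ℕ) : ℝ) / 2 * ∑ j ∈ range c, (1 / ((j + 1 : ℕ) : ℝ))) + ((T2 : ℝ) - T1) :=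
        add_le_add h5 h0
    _ = ((c + 1 : ℕ) : ℝ) * ∑ j ∈ range c, (1 / ((j + 1 : ℕ) : ℝ)) + ((T2 : ℝ) - T1) := by ring
    _ ≤ ((c + 1 : ℕ) : ℝ) * (1 + Real.log ((c + 1 : ℕ) : ℝ)) + ((T2 : ℝ) - T1) := by linarith
    _ = _ := by ring

end Pool.Agent.Lib.TB
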