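import Pool.Agent.Lib.TB.SpecK
import Pool.Agent.Lib.KF.Kbound

namespace Pool.Agent.Lib.TB

open Finset Pool.Agent.Lib.EH3

theorem Kl_ee_char {q : ℕ} [NeZero q] (j : ℤ) : ee ((j : ℝ) / (q : ℝ)) = Pool.Lib.KF.ps (j : ZMod q) := by
  unfold Pool.Lib.KF.ps ee
  rw [ZMod.stdAddChar_coe]
  congr 1
  push_cast
  ring

theorem Kl_eq (c h : ℤ) {q : ℕ} [NeZero q] : kl c h q = Pool.Lib.KF.Kl (c : ZMod q) (h : ZMod q) := by
  unfold kl Pool.Lib.KF.Kl
  refine Finset.sum_bij' (fun x hx => ZMod.unitOfCoprime x (mem_filter.1 hx).2) (fun u _ => (u : ZMod q).val)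
    (fun x hx => mem_univ _) (fun u _ => ?_) (fun x hx => ?_) (fun u _ => ?_) (fun x hx => ?_)
  · rw [mem_filter, mem_range]
    exact ⟨ZMod.val_lt _, ZMod.val_coe_unit_coprime u⟩
  · show ((ZMod.unitOfCoprime x (mem_filter.1 hx).2 : (ZMod q)ˣ) : ZMod q).val = x
    rw [ZMod.coe_unitOfCoprime, ZMod.val_natCast, Nat.mod_eq_of_lt (mem_range.1 (mem_filter.1 hx).1)]
  · apply Units.ext
    show ((ZMod.unitOfCoprime (u : ZMod q).val _ : (ZMod q)ˣ) : ZMod q) = (u : ZMod q)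
    rw [ZMod.coe_unitOfCoprime, ZMod.natCast_zmod_val]
  · have e1 : ((c : ℝ) * (iv x q : ℝ) + (h : ℝ) * (x : ℝ)) = (((c * (iv x q : ℤ) + h * (x : ℤ)) : ℤ) : ℝ) := by
      push_cast; ring
    rw [e1, Kl_ee_char]
    congr 1
    push_cast
    have e2 : ((iv x q : ℕ) : ZMod q) = ((x : ZMod q))⁻¹ := by
      unfold iv
      rw [ZMod.natCast_zmod_val]
    have e3 : Pool.Lib.KF.iv (ZMod.unitOfCoprime x (mem_filter.1 hx).2) = ((x : ZMod q))⁻¹ := by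
      unfold Pool.Lib.KF.iv
      rw [← ZMod.inv_coe_unit, ZMod.coe_unitOfCoprime]
    rw [e2, e3, ZMod.coe_unitOfCoprime]

/-- Kloosterman's bound -/
theorem tKl : KlStmt := by
  intro q c h hq
  have : NeZero q := ⟨by omega⟩
  have h1 := Pool.Lib.KF.kl_bound (c : ZMod q) (h : ZMod q)
  rw [← Kl_eq] at h1
  have h2 : Nat.gcd (c : ZMod q).val q = Int.gcd c q := by
    have h3 : (((c : ZMod q).val : ℕ) : ℤ) = c % (q : ℤ) := ZMod.val_intCast c
    have h4 : Nat.gcd (c : ZMod q).val q = Int.gcd (((c : ZMod q).val : ℕ) : ℤ) (q : ℤ) := by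
      rw [Int.gcd_natCast_natCast]
    rw [h4, h3, Int.gcd_emod]
  rwa [h2] at h1

end Pool.Agent.Lib.TB
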