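import Pool.Agent.Lib.TB.Basic

/-!
MP_00e23e_nt, directory Lib/TB, part K (helper19): the Kloosterman part of the bilinear form in Kloosterman
fractions (paper proof: step 4 of note 2212). Final statement of this part: KStmt.

RULES. Module X: file Pool/Agent/Lib/TB/X.lean, first line `import Pool.Agent.Lib.TB.SpecK`, then
`namespace Pool.Agent.Lib.TB` and `open Finset Pool.Agent.Lib.EH3`, private lemmas with names starting with X_,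
final theorem `theorem tX (h1 : AStmt) ... : XStmt`; the statements listed under Uses are hypotheses of your
theorem, in this order. The docstring contains a complete proof. Basic lemmas: iv_mul, iv_dvd, iv_congr,
iv_unique, ee_congr, ee_add_int in TB/Basic.lean, ee_add, ee_int, norm_ee, conj_ee in EH3/LS1.lean.
Never use congr!. Every module below 60 s.
-/

namespace Pool.Agent.Lib.TB

open Finset Pool.Agent.Lib.EH3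

/-! ### Kloosterman sums and incomplete sums -/

/-- the Kloosterman sum S(c, h; q) = ∑ e((c x⁻¹ + h x)/q) over x < q coprime to q -/
noncomputable def kl (c h : ℤ) (q : ℕ) : ℂ :=
  ∑ x ∈ (range q).filter (fun x => x.Coprime q),
    ee (((c : ℝ) * (iv x q : ℝ) + (h : ℝ) * (x : ℝ)) / (q : ℝ))

/-- the bound for Kloosterman sums -/
noncomputable def Kb (c : ℤ) (q : ℕ) : ℝ :=
  2 * (q.divisors.card : ℝ) ^ (1 / 2 : ℝ) * (Int.gcd c q : ℝ) ^ (1 / 4 : ℝ) * (q : ℝ) ^ (3 / 4 : ℝ)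

/-- Kloosterman's bound (theorem tKl, helper63). -/
def KlStmt : Prop :=
  ∀ (q : ℕ) (c h : ℤ), 1 ≤ q →
    ‖kl c h q‖ ^ 4 ≤ 2 * (Int.gcd c q : ℝ) * (q.divisors.card : ℝ) ^ 2 * (q : ℝ) ^ 3

/-- Module Klb (theorem tKlb). Uses: Kl.
Proof. If ‖kl‖ ≤ 0 trivial (Kb ≥ 0). ‖kl‖^4 ≤ 2 g τ^2 q^3 ≤ (2 τ^(1/2) g^(1/4) q^(3/4))^4 = 16 g τ^2 q^3, and t ↦ t^4 is monotone on t ≥ 0
(pow_le_pow_left₀ / lt_of_pow_lt_pow_left₀). -/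
def KlbStmt : Prop := ∀ (q : ℕ) (c h : ℤ), 1 ≤ q → ‖kl c h q‖ ≤ Kb c q

/-- Module Geo (theorem tGeo; sums of geometric series). Uses: nothing.
Proof. j = 0: the inner sum has norm T2 - T1. For 1 ≤ j < b: ∑_{t ∈ Ico T1 T2} ee(-j t/b) is a geometric series with ratio
z = ee(-j/b) ≠ 1, norm ≤ 2/‖z - 1‖. With δ = min(j, b - j)/b ≤ 1/2: ee(-j/b) = ee(±δ) (change j by b), and
‖z - 1‖ ≥ 4 δ (EH3.norm_ee_sub_one), so norm ≤ 1/(2δ) = b/(2 min(j, b-j)) ≤ (b/2)(1/j + 1/(b-j)). Sum over 1 ≤ j < b: ≤ b ∑_{1 ≤ j < b} 1/j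
≤ b (1 + log b) (harmonic sum: harmonic_le_one_add_log). -/
def GeoStmt : Prop :=
  ∀ b T1 T2 : ℕ, 1 ≤ b → T1 ≤ T2 →
    ∑ j ∈ range b, ‖∑ t ∈ Ico T1 T2, ee (-((j : ℝ) * t) / b)‖ ≤
      ((T2 : ℝ) - T1) + b * (1 + Real.log b)

/-- Module Cmp (theorem tCmp; completing). Uses: Geo.
Proof. For every t: f t = (1/b) ∑_{j < b} (∑_{x < b} f x ee(j x/b)) ee(-j t/b): the sum over j of ee(j (x - t)/b) is b if x ≡ t mod b and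
0 otherwise (geometric series, the ratio ee((x-t)/b) is 1 iff b | x - t), exactly one x < b is ≡ t, namely t % b, and f (t % b) = f t by
periodicity. Hence ‖∑_{t ∈ Ico T1 T2} f t‖ ≤ (1/b) ∑_j K ‖∑_t ee(-j t/b)‖ ≤ K ((T2 - T1)/b + 1 + log b) by Geo. -/
def CmpStmt : Prop :=
  ∀ (f : ℕ → ℂ) (b T1 T2 : ℕ) (K : ℝ), 1 ≤ b → T1 ≤ T2 → (∀ t, f (t + b) = f t) →
    (∀ j ∈ range b, ‖∑ x ∈ range b, f x * ee ((j : ℝ) * x / b)‖ ≤ K) →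
    ‖∑ t ∈ Ico T1 T2, f t‖ ≤ K * (((T2 : ℝ) - T1) / b + 1 + Real.log b)

/-- Module Apk (theorem tApk; complete sums over a progression are Kloosterman sums). Uses: nothing.
Proof. Let r = iv q b, so r q ≡ 1 mod b. The map x ↦ (s + q x) % b is a bijection of range b (q coprime to b), y = (s + q x) % b,
(s + q x) coprime to b iff y coprime to b, iv (s + q x) b = iv y b, and x ≡ r (y - s) mod b. So the summand is
ee(c iv y b/b) ee(j r (y - s)/b) = ee(-j r s/b) ee((c iv y b + (j r) y)/b) (ee_congr) and the sum is ee(-j r s/b) kl c (j r) b. -/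
def ApkStmt : Prop :=
  ∀ (b s q j : ℕ) (c : ℤ), 1 ≤ b → q.Coprime b →
    ∃ h : ℤ, ‖∑ x ∈ range b, (if (s + q * x).Coprime b then ee ((c : ℝ) * (iv (s + q * x) b : ℝ) / b) else 0) *
      ee ((j : ℝ) * x / b)‖ = ‖kl c h b‖

/-- Module Inc (theorem tInc; incomplete Kloosterman sums over progressions). Uses: Klb, Cmp, Apk.
Proof. Cmp with f t = if (s + q t).Coprime b then ee(c iv (s + q t) b/b) else 0, which has period b (iv_congr, coprimality depends on the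
class), and K = Kb c b by Apk and Klb. -/
def IncStmt : Prop :=
  ∀ (b s q T1 T2 : ℕ) (c : ℤ), 1 ≤ b → q.Coprime b → T1 ≤ T2 →
    ‖∑ t ∈ Ico T1 T2, (if (s + q * t).Coprime b then ee ((c : ℝ) * (iv (s + q * t) b : ℝ) / b) else 0)‖ ≤
      Kb c b * (((T2 : ℝ) - T1) / b + 1 + Real.log b)

/-! ### Smooth phases -/

/-- Module Psm (theorem tPsm; partial summation). Uses: nothing.
Proof. If T1 = T2 both sides are fine (B ≥ 0 from T = T1). Otherwise with F(T) = ∑_{t ∈ Ico T1 T} f t (F(T1) = 0):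
∑_{t ∈ Ico T1 T2} f t g t = F(T2) g(T2 - 1) - ∑_{t ∈ Ico T1 (T2 - 1)} F(t+1) (g(t+1) - g t) (induction on T2), and |F| ≤ B on [T1, T2],
‖g(T2-1)‖ ≤ 1. -/
def PsmStmt : Prop :=
  ∀ (f g : ℕ → ℂ) (T1 T2 : ℕ) (B : ℝ), T1 ≤ T2 → (∀ T, T1 ≤ T → T ≤ T2 → ‖∑ t ∈ Ico T1 T, f t‖ ≤ B) →
    (∀ t, ‖g t‖ ≤ 1) →
    ‖∑ t ∈ Ico T1 T2, f t * g t‖ ≤ B * (1 + ∑ t ∈ Ico T1 (T2 - 1), ‖g (t + 1) - g t‖)

/-- Module Wt (theorem tWt; partial summation with the phases). Uses: Psm.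
Proof. Psm with g t = ee(ψ t), ψ t = A u + ϑ u v - (A' u' + ϑ u' v): ‖ee x - ee y‖ ≤ 2π |x - y| (‖ee(x-y) - 1‖ ≤ 2π|x-y|, e.g.
Complex.norm_exp_I_mul_ofReal_sub_one / Real.abs_sin_le). For t, t + 1 ∈ [T1, T2): |ψ(t+1) - ψ(t)| ≤ |A| Δu + |A'| Δu' +
|ϑ| (Δu |v(t+1)| + |u(t)| Δv + Δu' |v(t+1)| + |u'(t)| Δv), Δu = u(t+1) - u(t) ≥ 0 etc. The sums of Δu, Δu', Δv telescope and are ≤ 2/Q.
Total variation of ψ ≤ (3|θ|/Q)(2/Q) 2 + |ϑ| (4 * (1/Q)(2/Q)) = (12 |θ| + 8 |ϑ|)/Q^2; 2π * 12 ≤ 84. Finally 1 + 84 w ≤ 84 (1 + w). -/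
def WtStmt : Prop :=
  ∀ (f : ℕ → ℂ) (u u' v : ℕ → ℝ) (T1 T2 : ℕ) (A A' θ ϑ Q B : ℝ), 0 < Q → T1 ≤ T2 →
    (∀ T, T1 ≤ T → T ≤ T2 → ‖∑ t ∈ Ico T1 T, f t‖ ≤ B) →
    (∀ t, T1 ≤ t → t + 1 < T2 → u t ≤ u (t + 1) ∧ u' t ≤ u' (t + 1) ∧ v t ≤ v (t + 1)) →
    (∀ t, T1 ≤ t → t < T2 → |u t| ≤ 1 / Q ∧ |u' t| ≤ 1 / Q ∧ |v t| ≤ 1 / Q) →
    |A| ≤ 3 * |θ| / Q → |A'| ≤ 3 * |θ| / Q →
    ‖∑ t ∈ Ico T1 T2, f t * ee ((A * u t + ϑ * (u t * v t)) - (A' * u' t + ϑ * (u' t * v t)))‖ ≤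
      B * (84 * (1 + (|θ| + |ϑ|) / Q ^ 2))

/-! ### The phases on residue classes -/

/-- Module Rec (theorem tRec; reciprocity with three moduli). Uses: nothing.
Proof. N = α A b + β b n + γ A n - 1 is divisible by n, by A and by b, hence (pairwise coprime) by A b n: N = z A b n. Divide by A b n. -/
def RecStmt : Prop :=
  ∀ (A b n : ℕ) (α β γ : ℤ), 1 ≤ A → 1 ≤ b → 1 ≤ n → A.Coprime b → A.Coprime n → b.Coprime n →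
    (n : ℤ) ∣ α * (A * b) - 1 → (A : ℤ) ∣ β * (b * n) - 1 → (b : ℤ) ∣ γ * (A * n) - 1 →
    ∃ z : ℤ, (α : ℝ) / n + (β : ℝ) / A + (γ : ℝ) / b = 1 / ((A : ℝ) * b * n) + z

/-- the real phase of a triple -/
noncomputable def ps (θ : ℤ) (ϑ : ℝ) (k l1 l2 m1 m2 : ℕ) : ℝ :=
  (θ : ℝ) * ((l1 : ℝ) - l2) / ((l1 : ℝ) * m1) * ((k : ℝ) / ((l1 : ℝ) * m1 - (l2 : ℝ) * m2)) +
    ϑ * ((k : ℝ) / ((l1 : ℝ) * m1 - (l2 : ℝ) * m2) * (1 / (m1 : ℝ) - 1 / (m2 : ℝ)))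

/-- the window k Q < l1 m1 - l2 m2 ≤ 2 k Q -/
def Win (Q k l1 l2 m1 m2 : ℕ) : Prop :=
  k * Q + l2 * m2 < l1 * m1 ∧ l1 * m1 ≤ 2 * k * Q + l2 * m2

instance (Q k l1 l2 m1 m2 : ℕ) : Decidable (Win Q k l1 l2 m1 m2) := by unfold Win; infer_instance

/-- Module Phs (theorem tPhs; one phase on a residue class). Uses: Rec.
Proof. m1 = a b, n = nn k l1 l2 m1 m2. For m2 in the class with Win: k | l1 m1 - l2 m2 (k ∣ l1 * m1 - l2 * m2) depends only on the class of m2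
mod k; if it holds then k n = l1 m1 - l2 m2 and Q < n ≤ 2Q. Call m2 active if m2 ≥ 1, m2 ≡ r, Win, k | l1 m1 - l2 m2, and n coprime to l1 a.
If there is no active m2 take c = 0: ph ≠ 0 implies Win, k | .., n coprime to l1 a b, i.e. active. Otherwise let m0 be active with n0, and
c = ee(-θ (l1 - l2) iv (b n0) (l1 a)/(l1 a)). Let m2 ≥ 1, m2 ≡ r.
(i) not Win: ph = 0 (Q < n ≤ 2Q and k | .. give Win). (ii) m2 not coprime to b, p | m2, p | b prime: p does not divide k, p | l1 m1 and p | l2 m2, so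
p | k n, p | n, n is not coprime to l1 m1, ph = 0 (if k does not divide.. ph = 0 anyway). (iii) Win and m2 coprime to b: l2 (m2 - m0) is divisible by
k l1 a, so k | l1 m1 - l2 m2 and n ≡ n0 mod l1 a (k (n - n0) = l2 (m0 - m2)). So n is coprime to l1 a; n is coprime to b: p | n, p | b give
p | l2 m2, p | m2, contradiction. Hence ph = ee(θ (l1 - l2) iv (l1 m1) n/n) ee(ϑ/n (1/m1 - 1/m2)). Rec with A = l1 a, α = iv (l1 m1) n,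
β = iv (b n) (l1 a) = iv (b n0) (l1 a) (iv_congr), γ = -k iv (l1 l2 a m2) b (b | γ A n - 1 since k n ≡ -l2 m2 mod b): times θ (l1 - l2) gives
θ (l1-l2) iv (l1 m1) n/n ≡ θ (l1-l2)/(l1 m1 n) - θ (l1-l2) β/(l1 a) + θ (l1-l2) k iv (l1 l2 a m2) b/b mod 1, and 1/n = k/(l1 m1 - l2 m2). -/
def PhsStmt : Prop :=
  ∀ (θ : ℤ) (ϑ : ℝ) (Q k l1 l2 a b r : ℕ), 1 ≤ k → 1 ≤ l1 → 1 ≤ l2 → 1 ≤ a → 1 ≤ b →
    b.Coprime (k * l1 * l2 * a) → ∃ c : ℂ, ‖c‖ ≤ 1 ∧ ∀ m2 : ℕ, 1 ≤ m2 → m2 ≡ r [MOD k * l1 * a] →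
      ph θ ϑ Q k l1 l2 (a * b) m2 =
        if Win Q k l1 l2 (a * b) m2 ∧ m2.Coprime b then
          c * ee (((θ * ((l1 : ℤ) - l2) * k * (iv (l1 * l2 * a * m2) b : ℤ) : ℤ) : ℝ) / b) *
            ee (ps θ ϑ k l1 l2 (a * b) m2)
        else 0

/-- Module Cpr (theorem tCpr; the product of two phases on a residue class). Uses: Phs.
Proof. A class mod k k' l1 l1' a is contained in a class mod k l1 a and in a class mod k' l1' a. Multiply the two formulas of Phs (c = c1 conj c2,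
conj_ee). With w = l1 l2 l1' l2' a and i = iv (w m2) b (m2 coprime to b): iv (l1 l2 a m2) b ≡ l1' l2' i and iv (l1' l2' a m2) b ≡ l1 l2 i mod b
(iv_unique), so θ (l1-l2) k iv(..) - θ (l1'-l2') k' iv(..) ≡ θ Dt i mod b (ee_congr). -/
def CprStmt : Prop :=
  ∀ (θ : ℤ) (ϑ : ℝ) (Q k l1 l2 k' l1' l2' a b r : ℕ), 1 ≤ k → 1 ≤ l1 → 1 ≤ l2 → 1 ≤ k' → 1 ≤ l1' → 1 ≤ l2' →
    1 ≤ a → 1 ≤ b → b.Coprime (k * l1 * l2 * a) → b.Coprime (k' * l1' * l2' * a) →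
    ∃ c : ℂ, ‖c‖ ≤ 1 ∧ ∀ m2 : ℕ, 1 ≤ m2 → m2 ≡ r [MOD k * k' * l1 * l1' * a] →
      ph θ ϑ Q k l1 l2 (a * b) m2 * (starRingEnd ℂ) (ph θ ϑ Q k' l1' l2' (a * b) m2) =
        if (Win Q k l1 l2 (a * b) m2 ∧ Win Q k' l1' l2' (a * b) m2) ∧ m2.Coprime b then
          c * ee (((θ * Dt k l1 l2 k' l1' l2' : ℤ) : ℝ) * (iv (l1 * l2 * l1' * l2' * a * m2) b : ℝ) / b) *
            ee (ps θ ϑ k l1 l2 (a * b) m2 - ps θ ϑ k' l1' l2' (a * b) m2)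
        else 0

/-- Module Itv (theorem tItv; the m2 of a class in the windows form an interval of t). Uses: nothing.
Proof. For r < q the m ≡ r mod q are the m = r + q t. All the conditions are inequalities, each monotone in t, so the set S of t ≥ 0 with
Q < r + q t ≤ 2Q, Win, Win' is order-convex and bounded (t ≤ 2Q since q ≥ 1): S = Ico T1 T2 with T1 = min S, T2 = max S + 1 if S is nonempty, and
T1 = T2 = 0 otherwise. Length: q (max S - min S) < Q, so T2 - T1 ≤ Q/q + 1. -/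
def ItvStmt : Prop :=
  ∀ (Q k l1 l2 k' l1' l2' m1 q r : ℕ), 1 ≤ q → r < q → ∃ T1 T2 : ℕ, T1 ≤ T2 ∧
    ((T2 : ℝ) - T1 ≤ (Q : ℝ) / q + 1) ∧
    ∀ t : ℕ, (T1 ≤ t ∧ t < T2) ↔
      (Q < r + q * t ∧ r + q * t ≤ 2 * Q ∧ Win Q k l1 l2 m1 (r + q * t) ∧ Win Q k' l1' l2' m1 (r + q * t))

/-- Module Cin (theorem tCin; the sum over one class). Uses: Inc, Wt, Cpr, Itv.
Proof. m1 = a b, q = k k' l1 l1' a (coprime to b), w = l1 l2 l1' l2' a, D = Dt. By Cpr (c) and Itv (T1, T2), with m2 = r + q t, the sum is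
c ∑_{t ∈ Ico T1 T2} f t ee(ps - ps'), f t = if (w r + w q t).Coprime b then ee(θ D iv (w r + w q t) b/b) else 0 (w coprime to b, so
(w m2).Coprime b iff m2.Coprime b). Inc with s = w r, q := w q: every sum over Ico T1 T, T ≤ T2, is ≤ Kb (θ D) b ((T2 - T1)/b + 1 + log b)
≤ Kb (3 + log b), since (T2 - T1)/b ≤ Q/(q b) + 1/b ≤ 1 + 1 (q b ≥ a b > Q). Wt with u t = k/(l1 m1 - l2 m2), u' t = k'/(l1' m1 - l2' m2),
v t = 1/m1 - 1/m2, A = θ (l1 - l2)/(l1 m1), A' similarly: in the window 0 < u < 1/Q, u increasing in m2 (same for u'), |v| ≤ 1/Q and v increasing,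
|l1 - l2| ≤ 3 l1 (l2 ≤ 4 l1), |A| ≤ 3|θ|/m1 ≤ 3|θ|/Q. -/
def CinStmt : Prop :=
  ∀ (θ : ℤ) (ϑ : ℝ) (Q k l1 l2 k' l1' l2' a b r : ℕ), 1 ≤ Q → 1 ≤ k → 1 ≤ l1 → 1 ≤ l2 → 1 ≤ k' → 1 ≤ l1' →
    1 ≤ l2' → 1 ≤ a → 1 ≤ b → l2 ≤ 4 * l1 → l2' ≤ 4 * l1' → b.Coprime (k * l1 * l2 * a) →
    b.Coprime (k' * l1' * l2' * a) → Q < a * b → r < k * k' * l1 * l1' * a →
    ‖∑ m2 ∈ (Ioc Q (2 * Q)).filter (fun m2 => m2 ≡ r [MOD k * k' * l1 * l1' * a]),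
      ph θ ϑ Q k l1 l2 (a * b) m2 * (starRingEnd ℂ) (ph θ ϑ Q k' l1' l2' (a * b) m2)‖ ≤
      Kb (θ * Dt k l1 l2 k' l1' l2') b * (3 + Real.log b) * (84 * (1 + (|(θ : ℝ)| + |ϑ|) / (Q : ℝ) ^ 2))

/-- the part of m composed of the primes dividing P -/
def pa (P m : ℕ) : ℕ := ∏ p ∈ P.primeFactors, p ^ m.factorization p

/-- Module Pad (theorem tPad). Uses: nothing.
Proof. pa P m ∣ m: Nat.factorization_prod_pow_eq_self and products over a subset of the primes (p ∉ m.primeFactors contributes 1). A prime p | P, p | m/pa P m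
would have factorization p (m/pa) = factorization p m - factorization p (pa) = 0, contradiction. The primes of pa P m divide P. -/
def PadStmt : Prop :=
  ∀ P m : ℕ, 1 ≤ P → 1 ≤ m → 1 ≤ pa P m ∧ pa P m ∣ m ∧ (m / pa P m).Coprime P ∧ (m / pa P m).Coprime (pa P m) ∧
    ∀ p : ℕ, p.Prime → p ∣ pa P m → p ∣ P

/-- Module Row (theorem tRow; fixed m1). Uses: Cin, Pad.
Proof. a = pa P m1, b = m1/a, P = k l1 l2 k' l1' l2': b is coprime to P and to a, a b = m1. Split the m2 into the q = k k' l1 l1' a classes r < q and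
apply Cin: the norm is ≤ q Kb (θ D) b (3 + log b) 84 V, Kb = 2 τ(b)^(1/2) gcd(θ D, b)^(1/4) b^(3/4) with τ(b) ≤ τ(m1) (b | m1), gcd(θ D, b) ≤ gcd(θ D, m1)
(divides it, m1 ≥ 1), log b ≤ log m1, and a b^(3/4) = a^(1/4) m1^(3/4) ≤ a^(1/4) (2Q)^(3/4) ≤ 1.7 a^(1/4) Q^(3/4). 84 * 2 * 1.7 ≤ 400. -/
def RowStmt : Prop :=
  ∀ (θ : ℤ) (ϑ : ℝ) (Q k l1 l2 k' l1' l2' m1 : ℕ), 1 ≤ Q → 1 ≤ k → 1 ≤ l1 → 1 ≤ l2 → 1 ≤ k' → 1 ≤ l1' →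
    1 ≤ l2' → l2 ≤ 4 * l1 → l2' ≤ 4 * l1' → Q < m1 → m1 ≤ 2 * Q →
    ‖∑ m2 ∈ Ioc Q (2 * Q),
      ph θ ϑ Q k l1 l2 m1 m2 * (starRingEnd ℂ) (ph θ ϑ Q k' l1' l2' m1 m2)‖ ≤
      400 * (1 + (|(θ : ℝ)| + |ϑ|) / (Q : ℝ) ^ 2) * ((k : ℝ) * k' * l1 * l1') *
        (pa (k * l1 * l2 * k' * l1' * l2') m1 : ℝ) ^ (1 / 4 : ℝ) *
        (Int.gcd (θ * Dt k l1 l2 k' l1' l2') m1 : ℝ) ^ (1 / 4 : ℝ) *
        (m1.divisors.card : ℝ) ^ (1 / 2 : ℝ) * (3 + Real.log (2 * Q)) * (Q : ℝ) ^ (3 / 4 : ℝ)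

/-! ### Sums over m1 and the final statement -/

/-- Module Sma (theorem tSma). Uses: Pad.
Proof. Group the m ∈ Icc 1 N by a = pa P m, which is ≤ N and lies in Nat.factoredNumbers P.primeFactors: at most N/a values of m are divisible by a, so the sum
is ≤ N ∑_{a ≤ N, a ∈ factoredNumbers} a^(-1/2) ≤ N ∏_{p | P} (1 - p^(-1/2))⁻¹ (EulerProduct.summable_and_hasSum_factoredNumbers_prod_filter_prime_geometric
for the completely multiplicative a ↦ a^(-1/2); or by induction on the primes), and each factor is ≤ (1 - 2^(-1/2))⁻¹ ≤ 4. -/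
def SmaStmt : Prop :=
  ∀ P N : ℕ, 1 ≤ P → ∑ m ∈ Icc 1 N, (pa P m : ℝ) ^ (1 / 2 : ℝ) ≤ 4 ^ P.primeFactors.card * (N : ℝ)

/-- Module Smg (theorem tSmg). Uses: nothing.
Proof. Group by g = gcd(D, m), a divisor of |D|, at most N/g values of m are divisible by g: the sum is ≤ ∑_{g | |D|} g^(1/2) N/g ≤ τ(|D|) N. -/
def SmgStmt : Prop :=
  ∀ (D : ℤ) (N : ℕ), D ≠ 0 → ∑ m ∈ Icc 1 N, (Int.gcd D m : ℝ) ^ (1 / 2 : ℝ) ≤ (D.natAbs.divisors.card : ℝ) * N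

/-- Module Tauk (theorem tTauk; divisor bound). Uses: nothing (exists: MP_640417_ag.All.divisor_bound in Lib/MP_640417_ag/All/Divisor.lean).
Proof. For ε > 0: n = ∏ p^e, τ(n)/n^ε = ∏ (e + 1)/p^(ε e). For p ≥ 2^(1/ε): p^(ε e) ≥ 2^e ≥ e + 1, factor ≤ 1. For the finitely many p < 2^(1/ε): e + 1 ≤ C0 2^(ε e)
≤ C0 p^(ε e) with C0 = C0(ε) ≥ 1 (for example e + 1 ≤ (1 + 1/(ε log 2)) 2^(ε e)). So τ(n) ≤ C0^(2^(1/ε) + 1) n^ε. -/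
def TaukStmt : Prop :=
  ∀ ε : ℝ, 0 < ε → ∃ C : ℝ, 1 ≤ C ∧ ∀ n : ℕ, 1 ≤ n → (n.divisors.card : ℝ) ≤ C * (n : ℝ) ^ ε

/-- Module Kas (theorem tKas; FINAL STATEMENT of part K, used by SpecA of helper14). Uses: Row, Sma, Smg, Tauk.
Proof. P = k l1 l2 k' l1' l2', D = Dt, θ D ≠ 0, η = ε/8. Row and sum over m1 ∈ Ioc Q 2Q (⊆ Icc 1 (2Q)): τ(m1)^(1/2) ≤ C (2Q)^η, 3 + log(2Q) ≤ C Q^η (Q ≥ 1),
and by Cauchy ∑ a^(1/4) g^(1/4) ≤ (∑ a^(1/2))^(1/2) (∑ g^(1/2))^(1/2) ≤ (4^(ω(P)) 2Q)^(1/2) (τ(|θ D|) 2Q)^(1/2); 4^(ω(P)) ≤ τ(P)^2 ≤ C P^(2η)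
(2^ω(P) ≤ τ(P)), τ(|θ D|) ≤ C |θ D|^η ≤ C (2 |θ| P)^η since |D| ≤ 2 P (|l1 - l2| ≤ l1 l2, same for the other). All together
C kk'l1l1' V Q^(3/4) Q (Q^(2η)) (P)^(2η) |θ|^η, and each of Q, P, |θ| is ≥ 1, so the powers are ≤ (|θ| P Q)^ε. -/
def KStmt : Prop :=
  ∀ ε : ℝ, 0 < ε → ∃ C : ℝ, 0 < C ∧ ∀ (θ : ℤ) (ϑ : ℝ) (Q k l1 l2 k' l1' l2' : ℕ), θ ≠ 0 → 1 ≤ Q → 1 ≤ k →
    1 ≤ l1 → 1 ≤ l2 → 1 ≤ k' → 1 ≤ l1' → 1 ≤ l2' → l2 ≤ 4 * l1 → l2' ≤ 4 * l1' → Dt k l1 l2 k' l1' l2' ≠ 0 →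
    ∑ m1 ∈ Ioc Q (2 * Q), ‖∑ m2 ∈ Ioc Q (2 * Q),
      ph θ ϑ Q k l1 l2 m1 m2 * (starRingEnd ℂ) (ph θ ϑ Q k' l1' l2' m1 m2)‖ ≤
      C * ((k : ℝ) * k' * l1 * l1') * (|(θ : ℝ)| * (k * l1 * l2 * k' * l1' * l2') * Q) ^ ε *
        (Q : ℝ) ^ (7 / 4 : ℝ) * (1 + (|(θ : ℝ)| + |ϑ|) / (Q : ℝ) ^ 2)

end Pool.Agent.Lib.TB
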