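import Pool.Agent.Lib.TB.Defs

/-!
MP_00e23e_nt, directory Lib/TB: basic lemmas about the inverses iv and about ee.
-/

namespace Pool.Agent.Lib.TB

open Finset Pool.Agent.Lib.EH3

lemma iv_mul {a n : ℕ} (h : a.Coprime n) (hn : 1 ≤ n) : iv a n * a ≡ 1 [MOD n] := by
  have : NeZero n := ⟨by omega⟩
  unfold iv
  rw [← ZMod.natCast_eq_natCast_iff]
  push_cast
  rw [ZMod.natCast_zmod_val, mul_comm]
  exact ZMod.coe_mul_inv_eq_one a h

lemma iv_lt {a n : ℕ} (hn : 1 ≤ n) : iv a n < n := by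
  have : NeZero n := ⟨by omega⟩
  exact ZMod.val_lt _

lemma iv_congr {a a' n : ℕ} (h : a ≡ a' [MOD n]) : iv a n = iv a' n := by
  unfold iv
  rw [(ZMod.natCast_eq_natCast_iff a a' n).2 h]

/-- an inverse is unique modulo n -/
lemma iv_unique {a n : ℕ} {u : ℤ} (h : a.Coprime n) (hn : 1 ≤ n) (hu : (n : ℤ) ∣ u * a - 1) :
    (n : ℤ) ∣ u - iv a n := by
  have h1 : (n : ℤ) ∣ (iv a n : ℤ) * a - 1 := by
    have h2 := (Nat.modEq_iff_dvd.1 (iv_mul h hn).symm)
    push_cast at h2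
    exact h2
  have h3 : (n : ℤ) ∣ (u - iv a n) * a := by
    have h4 := dvd_sub hu h1
    have h5 : (u * a - 1) - ((iv a n : ℤ) * a - 1) = (u - iv a n) * a := by ring
    rwa [h5] at h4
  have h6 : IsCoprime (n : ℤ) (a : ℤ) := (Nat.isCoprime_iff_coprime.2 h).symm
  exact h6.dvd_of_dvd_mul_right h3

/-- the defining property of iv in terms of integers -/
lemma iv_dvd {a n : ℕ} (h : a.Coprime n) (hn : 1 ≤ n) : (n : ℤ) ∣ (iv a n : ℤ) * a - 1 := by
  have h2 := (Nat.modEq_iff_dvd.1 (iv_mul h hn).symm)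
  push_cast at h2
  exact h2

/-- ee (u / b) depends only on the integer u modulo b -/
lemma ee_congr {u v : ℤ} {b : ℕ} (h : (b : ℤ) ∣ u - v) : ee ((u : ℝ) / b) = ee ((v : ℝ) / b) := by
  obtain ⟨z, hz⟩ := h
  rcases Nat.eq_zero_or_pos b with hb | hb
  · subst hb
    simp
  have hb' : (b : ℝ) ≠ 0 := by positivity
  have h1 : (u : ℝ) = v + b * z := by
    have : u = v + b * z := by linarith
    exact_mod_cast this
  have h2 : (u : ℝ) / b = (v : ℝ) / b + (z : ℤ) := by
    rw [h1]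
    field_simp
  rw [h2, ee_add, ee_int, mul_one]

/-- values of ee at numbers which differ by an integer are equal -/
lemma ee_add_int (t : ℝ) (z : ℤ) : ee (t + z) = ee t := by
  rw [ee_add, ee_int, mul_one]

end Pool.Agent.Lib.TB
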