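import Pool.Agent.Lib.TB.SpecA
import Pool.Agent.Lib.TB.Basic

/-! MP_00e23e_nt, directory Lib/TB, module A0: the additive character. -/

namespace Pool.Agent.Lib.TB

open Finset ComplexConjugate Pool.Agent.Lib.EH3

theorem tA0 : SA0 := by
  refine ⟨norm_ee, ee_add, ?_, conj_ee, ee_zero⟩
  intro a b n _ h
  have h1 : ((a - b : ℤ) : ZMod n) = 0 := by
    rw [Int.cast_sub, h, sub_self]
  exact ee_congr ((ZMod.intCast_zmod_eq_zero_iff_dvd _ _).1 h1)

end Pool.Agent.Lib.TB
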