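import Pool.Agent.Lib.TB.SpecA

/-! MP_00e23e_nt, Lib/TB, module A1: the Cauchy inequality over `n` -/

namespace Pool.Agent.Lib.TB

open Finset ComplexConjugate Pool.Agent.Lib.EH3

theorem tA1 : SA1 := by
  intro θ vt α β Q hβ
  have h1 : ‖BF θ vt α β Q‖ ≤ ∑ n ∈ Ioc Q (2 * Q), ‖An θ vt α Q n‖ := by
    unfold BF
    refine (norm_sum_le _ _).trans (Finset.sum_le_sum fun n _ => ?_)
    rw [norm_mul]
    exact mul_le_of_le_one_left (norm_nonneg _) (hβ n)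
  have h2 : (∑ n ∈ Ioc Q (2 * Q), ‖An θ vt α Q n‖) ^ 2 ≤
      ((Ioc Q (2 * Q)).card : ℝ) * ∑ n ∈ Ioc Q (2 * Q), ‖An θ vt α Q n‖ ^ 2 :=
    sq_sum_le_card_mul_sum_sq
  have h3 : (Ioc Q (2 * Q)).card = Q := by
    rw [Nat.card_Ioc]
    omega
  rw [h3] at h2
  exact (pow_le_pow_left₀ (norm_nonneg _) h1 2).trans h2

end Pool.Agent.Lib.TB
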