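import Pool.Agent.Lib.TB.SpecA

/-!
MP_00e23e_nt, Lib/TB, module A10: the amplified inequality.
-/

namespace Pool.Agent.Lib.TB

open Finset ComplexConjugate Pool.Agent.Lib.EH3

theorem tA10 (h1 : SA1) (h2 : SA2) (h3 : SA3) (h4 : SA4) (h5 : SA5) : SA10 := by
  intro θ vt α β Q L Ls hα hβ hP hL hLQ hc hn
  set N : ℝ := (Ls.card : ℝ) with hN
  have hN0 : 0 ≤ N := by positivity
  have hQ0 : (0 : ℝ) ≤ Q := by positivity
  have e1 := h1 θ vt α β Q hβ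
  have e2 : ∀ n ∈ Ioc Q (2 * Q), N ^ 2 * ‖An θ vt α Q n‖ ^ 2 ≤
      8 * Q * (Tn θ vt α Q (Ls.filter fun l => ¬ l ∣ n) n).re := by
    intro n hnn
    have hn1 := mem_Ioc.1 hnn
    obtain ⟨a1, a2⟩ := h2 θ vt α Q n (Ls.filter fun l => ¬ l ∣ n) (by omega) (by
      intro l hl
      rw [mem_filter] at hl
      exact ((hP l hl.1).1.coprime_iff_not_dvd).2 hl.2)
    have a3 : N ≤ 2 * (((Ls.filter fun l => ¬ l ∣ n).card : ℕ) : ℝ) := by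
      rw [hN]; exact_mod_cast hn n hnn
    have a4 : N ^ 2 ≤ 4 * (((Ls.filter fun l => ¬ l ∣ n).card : ℕ) : ℝ) ^ 2 := by nlinarith
    have a5 : (n : ℝ) ≤ 2 * Q := by exact_mod_cast hn1.2
    have a6 : N ^ 2 * ‖An θ vt α Q n‖ ^ 2 ≤
        4 * (((Ls.filter fun l => ¬ l ∣ n).card : ℕ) : ℝ) ^ 2 * ‖An θ vt α Q n‖ ^ 2 :=
      mul_le_mul_of_nonneg_right a4 (by positivity)
    have a7 := mul_le_mul_of_nonneg_right a5 a2
    linarith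
  have e3 : N ^ 2 * ∑ n ∈ Ioc Q (2 * Q), ‖An θ vt α Q n‖ ^ 2 ≤
      8 * Q * (∑ n ∈ Ioc Q (2 * Q), Tn θ vt α Q (Ls.filter fun l => ¬ l ∣ n) n).re := by
    rw [Finset.mul_sum, Complex.re_sum, Finset.mul_sum]
    exact Finset.sum_le_sum e2
  have e4 := h4 θ vt α Q L Ls hα hP hL hLQ
  have e5 := h5 θ vt α Q L Ls hα hP hL hLQ
  have e6 : ((((Ls ×ˢ Ls ×ˢ Ioc Q (2 * Q) ×ˢ Ioc Q (2 * Q)).filter fun x =>
        x.1 * x.2.2.1 = x.2.1 * x.2.2.2).card : ℕ) : ℝ) ≤ 7 * N * Q := by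
    have := h3 Q L Ls hP hL hLQ
    rw [hN]
    exact_mod_cast this
  have e7 : (∑ n ∈ Ioc Q (2 * Q), Tn θ vt α Q (Ls.filter fun l => ¬ l ∣ n) n).re ≤
      175 * N * (Q : ℝ) ^ 2 + 2 * ‖Tq θ vt α Q L Ls‖ := by
    have e8 := mul_le_mul_of_nonneg_left e6 hQ0
    have e9 : 84 * (Ls.card : ℝ) * (Q : ℝ) ^ 2 = 84 * N * (Q : ℝ) ^ 2 := rfl
    rw [e9] at e5
    nlinarith
  have e8 : N ^ 2 * ‖BF θ vt α β Q‖ ^ 2 ≤ Q * (N ^ 2 * ∑ n ∈ Ioc Q (2 * Q), ‖An θ vt α Q n‖ ^ 2) := by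
    have := mul_le_mul_of_nonneg_left e1 (by positivity : 0 ≤ N ^ 2)
    nlinarith
  refine e8.trans ?_
  have e9 := mul_le_mul_of_nonneg_left e3 hQ0
  have e10 := mul_le_mul_of_nonneg_left e7 (by positivity : (0 : ℝ) ≤ 8 * (Q : ℝ) ^ 2)
  refine e9.trans (le_trans (le_of_eq ?_) e10)
  ring

end Pool.Agent.Lib.TB
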