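import Pool.Agent.Lib.TB.SpecA

/-!
MP_00e23e_nt, directory Lib/TB: many primes in `(L, 4 L]`.
-/

namespace Pool.Agent.Lib.TB

open Finset ComplexConjugate Pool.Agent.Lib.EH3

/-- The primes in `(L, 4 L]` and the Chebyshev function. -/
theorem a11_theta (L : ℕ) :
    Chebyshev.theta ((4 * L : ℕ) : ℝ) ≤ Chebyshev.theta (L : ℝ) +
      (((Ioc L (4 * L)).filter Nat.Prime).card : ℝ) * Real.log ((4 * L : ℕ) : ℝ) := by
  have h1 : (Ioc 0 (4 * L)).filter Nat.Prime =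
      (Ioc 0 L).filter Nat.Prime ∪ (Ioc L (4 * L)).filter Nat.Prime := by
    rw [← Finset.filter_union]
    congr 1
    ext x
    simp only [mem_Ioc, mem_union]
    omega
  have h2 : Disjoint ((Ioc 0 L).filter Nat.Prime) ((Ioc L (4 * L)).filter Nat.Prime) := by
    rw [Finset.disjoint_left]
    intro x hx hy
    simp only [mem_filter, mem_Ioc] at hx hy
    omega
  unfold Chebyshev.theta
  rw [Nat.floor_natCast, Nat.floor_natCast, h1, Finset.sum_union h2]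
  gcongr
  rw [← nsmul_eq_mul]
  apply Finset.sum_le_card_nsmul
  intro p hp
  simp only [mem_filter, mem_Ioc] at hp
  apply Real.log_le_log
  · exact_mod_cast hp.2.pos
  · exact_mod_cast hp.1.2

theorem tA11 : SA11 := by
  intro ε hε
  set δ : ℝ := min ε (1 / 2) with hδ
  have hδ0 : 0 < δ := lt_min hε (by norm_num)
  have hδ1 : δ ≤ ε := min_le_left _ _
  have hδ2 : δ ≤ 1 / 2 := min_le_right _ _
  have hlog : ∀ r : ℝ, 0 < r → ∃ A : ℝ, ∀ x : ℝ, A ≤ x → Real.log x ≤ 1 / 20 * x ^ r := by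
    intro r hr
    have h1 := (isLittleO_log_rpow_atTop hr).bound (by norm_num : (0 : ℝ) < 1 / 20)
    rw [Filter.eventually_atTop] at h1
    obtain ⟨A, hA⟩ := h1
    refine ⟨max A 1, fun x hx => ?_⟩
    have h2 := hA x ((le_max_left _ _).trans hx)
    have h3 : (1 : ℝ) ≤ x := (le_max_right _ _).trans hx
    rw [Real.norm_of_nonneg (Real.rpow_nonneg (by linarith) r)] at h2
    exact (le_abs_self _).trans h2
  obtain ⟨A1, hA1⟩ := hlog δ hδ0
  obtain ⟨A2, hA2⟩ := hlog (1 / 2) (by norm_num)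
  obtain ⟨A3, hA3⟩ := hlog 1 one_pos
  refine ⟨⌈A1⌉₊ + ⌈A2⌉₊ + ⌈A3⌉₊ + 1, ?_⟩
  intro L hL
  refine ⟨(Ioc L (4 * L)).filter Nat.Prime, ?_, ?_⟩
  · intro l hl
    simp only [mem_filter, mem_Ioc] at hl
    exact ⟨hl.2, hl.1.1, hl.1.2⟩
  have hL1 : 1 ≤ L := by omega
  have hL1' : (1 : ℝ) ≤ L := by exact_mod_cast hL1
  have hx1 : A1 ≤ 4 * (L : ℝ) := by
    have h1 := Nat.le_ceil A1
    have h2 : ((⌈A1⌉₊ : ℕ) : ℝ) ≤ L := by exact_mod_cast (by omega : ⌈A1⌉₊ ≤ L)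
    linarith
  have hx2 : A2 ≤ 4 * (L : ℝ) := by
    have h1 := Nat.le_ceil A2
    have h2 : ((⌈A2⌉₊ : ℕ) : ℝ) ≤ L := by exact_mod_cast (by omega : ⌈A2⌉₊ ≤ L)
    linarith
  have hx3 : A3 ≤ 4 * (L : ℝ) + 1 := by
    have h1 := Nat.le_ceil A3
    have h2 : ((⌈A3⌉₊ : ℕ) : ℝ) ≤ L := by exact_mod_cast (by omega : ⌈A3⌉₊ ≤ L)
    linarith
  have e1 := hA1 _ hx1
  have e2 := hA2 _ hx2
  have e3 := hA3 _ hx3
  rw [Real.rpow_one] at e3
  rw [← Real.sqrt_eq_rpow] at e2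
  have h1 := a11_theta L
  have h2 := Chebyshev.theta_ge (4 * L)
  have h3 := Chebyshev.theta_le_log4_mul_x (x := (L : ℝ)) (by linarith)
  have h4 : Real.log 4 = 2 * Real.log 2 := by
    rw [show (4 : ℝ) = 2 ^ 2 by norm_num, Real.log_pow]
    norm_num
  rw [h4] at h3
  push_cast at h1 h2
  set N : ℝ := (((Ioc L (4 * L)).filter Nat.Prime).card : ℝ) with hN
  have h5 := Real.log_two_gt_d9
  -- the square root
  have h6 : √(4 * (L : ℝ)) * Real.log (4 * L) ≤ 1 / 20 * (4 * L) := by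
    calc √(4 * (L : ℝ)) * Real.log (4 * L) ≤ √(4 * (L : ℝ)) * (1 / 20 * √(4 * (L : ℝ))) :=
          mul_le_mul_of_nonneg_left e2 (Real.sqrt_nonneg _)
      _ = 1 / 20 * (√(4 * (L : ℝ)) * √(4 * (L : ℝ))) := by ring
      _ = 1 / 20 * (4 * L) := by rw [Real.mul_self_sqrt (by linarith)]
  have h7 : (L : ℝ) / 5 ≤ N * Real.log (4 * L) := by
    nlinarith
  -- the power
  have hlogpos : 0 < Real.log (4 * (L : ℝ)) := Real.log_pos (by linarith)
  have h8 : (L : ℝ) ^ (1 - ε) * Real.log (4 * L) ≤ L / 5 := by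
    have h9 : (L : ℝ) ^ (1 - ε) ≤ (4 * (L : ℝ)) ^ (1 - δ) := by
      calc (L : ℝ) ^ (1 - ε) ≤ (L : ℝ) ^ (1 - δ) :=
            Real.rpow_le_rpow_of_exponent_le hL1' (by linarith)
        _ ≤ (4 * (L : ℝ)) ^ (1 - δ) :=
            Real.rpow_le_rpow (by linarith) (by linarith) (by linarith)
    calc (L : ℝ) ^ (1 - ε) * Real.log (4 * L)
        ≤ (4 * (L : ℝ)) ^ (1 - δ) * (1 / 20 * (4 * (L : ℝ)) ^ δ) :=
          mul_le_mul h9 e1 hlogpos.le (Real.rpow_nonneg (by linarith) _)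
      _ = 1 / 20 * ((4 * (L : ℝ)) ^ (1 - δ) * (4 * (L : ℝ)) ^ δ) := by ring
      _ = 1 / 20 * (4 * L) := by
          rw [← Real.rpow_add (by linarith)]
          norm_num
      _ = L / 5 := by ring
  exact le_of_mul_le_mul_right (h8.trans h7) hlogpos

end Pool.Agent.Lib.TB
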