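import Pool.Agent.Lib.TB.SpecA

/-!
MP_00e23e_nt, directory Lib/TB: few primes divide `n`.
-/

namespace Pool.Agent.Lib.TB

open Finset ComplexConjugate Pool.Agent.Lib.EH3

theorem tA12 : SA12 := by
  intro Q L Ls hP hL hQ hc n hn
  rw [mem_Ioc] at hn
  set R := Ls.filter fun l => l ∣ n with hR
  have h1 : (∏ l ∈ R, l) ∣ n := by
    apply Finset.prod_primes_dvd
    · intro l hl
      exact (hP l (Finset.mem_filter.1 hl).1).1.prime
    · intro l hl
      exact (Finset.mem_filter.1 hl).2
  have h2 : L ^ R.card ≤ ∏ l ∈ R, l := by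
    rw [← Finset.prod_const]
    apply Finset.prod_le_prod'
    intro l hl
    exact (hP l (Finset.mem_filter.1 hl).1).2.1.le
  have h3 : ∏ l ∈ R, l ≤ n := Nat.le_of_dvd (by omega) h1
  have h4 : L ^ R.card < L ^ 34 := by omega
  have h5 : R.card < 34 := (Nat.pow_lt_pow_iff_right (by omega)).1 h4
  have h6 : R.card + (Ls.filter fun l => ¬ l ∣ n).card = Ls.card :=
    Finset.card_filter_add_card_filter_not _
  omega

end Pool.Agent.Lib.TB
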