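import Pool.Agent.Lib.TB.SpecA

/-!
# Part A, module A13: the choice of `L`
-/

namespace Pool.Agent.Lib.TB

open Finset ComplexConjugate Pool.Agent.Lib.EH3

theorem a13_sq_le {a b : ℝ} (ha : 0 ≤ a) (hb : 0 ≤ b) (h : a ^ 2 ≤ b ^ 2) : a ≤ b :=
  (pow_le_pow_iff_left₀ ha hb two_ne_zero).1 h

theorem a13_rsq {x : ℝ} (hx : 0 ≤ x) (a : ℝ) : (x ^ a) ^ 2 = x ^ (2 * a) := by
  rw [← Real.rpow_natCast, ← Real.rpow_mul hx]
  congr 1
  push_cast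
  ring

theorem a13_T {C D q l V N T X Y W Z Y2 : ℝ} (hD : C ≤ D ^ 2) (hD0 : 0 ≤ D) (hq : 1 ≤ q) (hl : 1 ≤ l)
    (hN0 : 0 < N) (hT : 0 ≤ T) (hX : 0 ≤ X) (hY : 0 ≤ Y) (hW : 0 ≤ W)
    (hX2 : X ^ 2 = Z) (hY2 : Y ^ 2 = Y2) (hW2 : W ^ 2 = V)
    (h9 : T ^ 2 ≤ q ^ 2 * (16 * N ^ 2 * q ^ 2 + C * l ^ 6 * N ^ 4 * Z * Y2 * V)) :
    T ≤ q * (4 * N * q + D * l ^ 3 * N ^ 2 * X * Y * W) := by
  have hq0 : 0 ≤ q := by linarith
  have hl0 : 0 ≤ l := by linarith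
  have hN : 0 ≤ N := hN0.le
  apply a13_sq_le hT (by positivity)
  refine h9.trans ?_
  rw [← hX2, ← hY2, ← hW2, mul_pow]
  apply mul_le_mul_of_nonneg_left _ (by positivity)
  have h1 : C * l ^ 6 * N ^ 4 * X ^ 2 * Y ^ 2 * W ^ 2 ≤ D ^ 2 * l ^ 6 * N ^ 4 * X ^ 2 * Y ^ 2 * W ^ 2 := by
    gcongr
  have h2 : 0 ≤ 2 * (4 * N * q) * (D * l ^ 3 * N ^ 2 * X * Y * W) := by positivity
  nlinarith [h1, h2]

theorem a13_core {C D e q l t V N T B : ℝ} (hD : C ≤ D ^ 2) (hD0 : 0 ≤ D)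
    (he : 0 < e) (he1 : e ≤ 1 / 10 ^ 5)
    (hq : 1 ≤ q) (hl : 1 ≤ l) (ht : 1 ≤ t) (hV : 1 ≤ V) (hN0 : 0 < N) (hT : 0 ≤ T)
    (hl1 : l ≤ q ^ (1 / 32 : ℝ)) (hl2 : q ^ (1 / 32 : ℝ) ≤ 2 * l) (hN : l ^ (1 - e) ≤ N)
    (h9 : T ^ 2 ≤ q ^ 2 * (16 * N ^ 2 * q ^ 2 +
      C * l ^ 6 * N ^ 4 * (t * l ^ 6 * q) ^ e * q ^ (7 / 4 : ℝ) * V))
    (h10 : N ^ 2 * B ^ 2 ≤ 8 * q ^ 2 * (175 * N * q ^ 2 + 2 * T)) :
    B ^ 2 ≤ 8 * (366 + 2 * D) * (t ^ e * q ^ (4 - 2 / 65 : ℝ) * V ^ (1 / 2 : ℝ)) := by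
  have hq0 : 0 < q := by linarith
  have hl0 : 0 < l := by linarith
  have ht0 : 0 < t := by linarith
  have hV0 : 0 < V := by linarith
  have hTle := a13_T (X := (t * l ^ 6 * q) ^ (e / 2)) (Y := q ^ (7 / 8 : ℝ)) (W := V ^ (1 / 2 : ℝ))
    hD hD0 hq hl hN0 hT (by positivity) (by positivity) (by positivity)
    (by rw [← Real.rpow_natCast, ← Real.rpow_mul (by positivity)]; congr 1; push_cast; ring)
    (by rw [← Real.rpow_natCast, ← Real.rpow_mul (by positivity)]; congr 1; push_cast; ring)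
    (by rw [← Real.rpow_natCast, ← Real.rpow_mul (by positivity)]; norm_num) h9
  -- the bound for `X`
  have hl6 : l ^ 6 * q ≤ q ^ (2 : ℝ) := by
    have h1 : l ^ 6 ≤ (q ^ (1 / 32 : ℝ)) ^ 6 := by gcongr
    have h2 : (q ^ (1 / 32 : ℝ)) ^ 6 ≤ q := by
      rw [← Real.rpow_natCast, ← Real.rpow_mul hq0.le]
      calc q ^ ((1 / 32 : ℝ) * ((6 : ℕ) : ℝ)) ≤ q ^ (1 : ℝ) :=
            Real.rpow_le_rpow_of_exponent_le hq (by norm_num)
        _ = q := Real.rpow_one q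
    have h3 : q ^ (2 : ℝ) = q * q := by
      rw [show (2 : ℝ) = ((2 : ℕ) : ℝ) by norm_num, Real.rpow_natCast]; ring
    rw [h3]
    exact mul_le_mul_of_nonneg_right (h1.trans h2) hq0.le
  have hX : (t * l ^ 6 * q) ^ (e / 2) ≤ t ^ e * q ^ e := by
    rw [mul_assoc, Real.mul_rpow ht0.le (by positivity)]
    have h1 : t ^ (e / 2) ≤ t ^ e := Real.rpow_le_rpow_of_exponent_le ht (by linarith)
    have h2 : (l ^ 6 * q) ^ (e / 2) ≤ q ^ e := by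
      calc (l ^ 6 * q) ^ (e / 2) ≤ (q ^ (2 : ℝ)) ^ (e / 2) :=
            Real.rpow_le_rpow (by positivity) hl6 (by linarith)
        _ = q ^ e := by rw [← Real.rpow_mul hq0.le]; congr 1; ring
    exact mul_le_mul h1 h2 (by positivity) (by positivity)
  have hl3 : l ^ 3 ≤ q ^ (3 / 32 : ℝ) := by
    calc l ^ 3 ≤ (q ^ (1 / 32 : ℝ)) ^ 3 := by gcongr
      _ = q ^ (3 / 32 : ℝ) := by
        rw [← Real.rpow_natCast, ← Real.rpow_mul hq0.le]; congr 1; push_cast; ring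
  have hP : q * (l ^ 3 * (t * l ^ 6 * q) ^ (e / 2) * q ^ (7 / 8 : ℝ)) ≤
      t ^ e * q ^ (63 / 32 + e : ℝ) := by
    calc q * (l ^ 3 * (t * l ^ 6 * q) ^ (e / 2) * q ^ (7 / 8 : ℝ))
        ≤ q * (q ^ (3 / 32 : ℝ) * (t ^ e * q ^ e) * q ^ (7 / 8 : ℝ)) := by gcongr
      _ = t ^ e * (q ^ (1 : ℝ) * q ^ (3 / 32 : ℝ) * q ^ e * q ^ (7 / 8 : ℝ)) := by
        rw [Real.rpow_one]; ring
      _ = t ^ e * q ^ (63 / 32 + e : ℝ) := by
        rw [← Real.rpow_add hq0, ← Real.rpow_add hq0, ← Real.rpow_add hq0]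
        congr 2; ring
  -- the bound for `N`
  have hNq : q ^ 2 ≤ 2 * N * q ^ (63 / 32 + e : ℝ) := by
    have h1 : l ≤ N * q ^ e := by
      have h2 : l = l ^ (1 - e) * l ^ e := by
        rw [← Real.rpow_add hl0, sub_add_cancel, Real.rpow_one]
      have h3 : l ≤ q := by
        refine hl1.trans ?_
        calc q ^ (1 / 32 : ℝ) ≤ q ^ (1 : ℝ) :=
              Real.rpow_le_rpow_of_exponent_le hq (by norm_num)
          _ = q := Real.rpow_one q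
      have h4 : l ^ e ≤ q ^ e := Real.rpow_le_rpow hl0.le h3 he.le
      calc l = l ^ (1 - e) * l ^ e := h2
        _ ≤ N * q ^ e := mul_le_mul hN h4 (by positivity) hN0.le
    have h5 : q ^ (1 / 32 : ℝ) ≤ 2 * (N * q ^ e) := hl2.trans (by linarith)
    calc q ^ 2 = q ^ (1 / 32 : ℝ) * q ^ (63 / 32 : ℝ) := by
          rw [← Real.rpow_add hq0, ← Real.rpow_natCast]; congr 1; norm_num
      _ ≤ 2 * (N * q ^ e) * q ^ (63 / 32 : ℝ) := by gcongr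
      _ = 2 * N * q ^ (63 / 32 + e : ℝ) := by
        rw [Real.rpow_add hq0]; ring
  set P : ℝ := q ^ (63 / 32 + e : ℝ) with hPdef
  set W : ℝ := V ^ (1 / 2 : ℝ) with hWdef
  set X : ℝ := (t * l ^ 6 * q) ^ (e / 2) with hXdef
  have hP0 : 0 < P := by positivity
  have hW1 : 1 ≤ W := Real.one_le_rpow hV (by norm_num)
  have hte : 1 ≤ t ^ e := Real.one_le_rpow ht he.le
  have hW0 : 0 < W := by linarith
  have hX0 : 0 ≤ X := by positivity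
  have hmain : N ^ 2 * B ^ 2 ≤ N ^ 2 * (8 * q ^ 2 * (366 * P + 2 * D * (t ^ e * P) * W)) := by
    refine h10.trans ?_
    have h1 : 183 * N * q ^ 2 ≤ 366 * N ^ 2 * P := by
      nlinarith [mul_le_mul_of_nonneg_left hNq (by positivity : 0 ≤ 183 * N)]
    have h2 : q * (D * l ^ 3 * N ^ 2 * X * q ^ (7 / 8 : ℝ) * W) ≤ D * N ^ 2 * (t ^ e * P) * W := by
      calc q * (D * l ^ 3 * N ^ 2 * X * q ^ (7 / 8 : ℝ) * W)
          = D * N ^ 2 * (q * (l ^ 3 * X * q ^ (7 / 8 : ℝ))) * W := by ring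
        _ ≤ D * N ^ 2 * (t ^ e * P) * W := by gcongr
    have h3 : 175 * N * q ^ 2 + 2 * T ≤ N ^ 2 * (366 * P + 2 * D * (t ^ e * P) * W) := by
      nlinarith [hTle, h1, h2]
    calc 8 * q ^ 2 * (175 * N * q ^ 2 + 2 * T)
        ≤ 8 * q ^ 2 * (N ^ 2 * (366 * P + 2 * D * (t ^ e * P) * W)) := by gcongr
      _ = N ^ 2 * (8 * q ^ 2 * (366 * P + 2 * D * (t ^ e * P) * W)) := by ring
  have hB : B ^ 2 ≤ 8 * q ^ 2 * (366 * P + 2 * D * (t ^ e * P) * W) :=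
    le_of_mul_le_mul_left hmain (by positivity)
  have hPle : q ^ 2 * P ≤ q ^ (4 - 2 / 65 : ℝ) := by
    calc q ^ 2 * P = q ^ (2 + (63 / 32 + e) : ℝ) := by
          rw [Real.rpow_add hq0, hPdef, ← Real.rpow_natCast]; norm_num
      _ ≤ q ^ (4 - 2 / 65 : ℝ) := by
        apply Real.rpow_le_rpow_of_exponent_le hq
        norm_num at he1 ⊢
        linarith
  refine hB.trans ?_
  have h6 : 366 * P ≤ 366 * (t ^ e * P * W) := by
    have : P ≤ t ^ e * P * W := by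
      calc P = 1 * P * 1 := by ring
        _ ≤ t ^ e * P * W := by gcongr
    linarith
  calc 8 * q ^ 2 * (366 * P + 2 * D * (t ^ e * P) * W)
      ≤ 8 * q ^ 2 * (366 * (t ^ e * P * W) + 2 * D * (t ^ e * P) * W) := by gcongr
    _ = 8 * (366 + 2 * D) * (t ^ e * (q ^ 2 * P) * W) := by ring
    _ ≤ 8 * (366 + 2 * D) * (t ^ e * q ^ (4 - 2 / 65 : ℝ) * W) := by gcongr

theorem a13_triv (θ : ℤ) (vt : ℝ) (α β : ℕ → ℂ) (Q : ℕ) (hα : ∀ m, ‖α m‖ ≤ 1)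
    (hβ : ∀ n, ‖β n‖ ≤ 1) : ‖BF θ vt α β Q‖ ≤ (Q : ℝ) ^ 2 := by
  have hA : ∀ n, ‖An θ vt α Q n‖ ≤ (Q : ℝ) := by
    intro n
    unfold An
    refine (norm_sum_le _ _).trans ?_
    have h1 : ∀ m ∈ (Ioc Q (2 * Q)).filter (fun m => m.Coprime n), ‖α m * e1 θ vt m n‖ ≤ 1 := by
      intro m _
      rw [norm_mul]
      have : ‖e1 θ vt m n‖ = 1 := by
        unfold e1 ee
        rw [mul_comm]
        exact Complex.norm_exp_ofReal_mul_I _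
      rw [this, mul_one]
      exact hα m
    refine (Finset.sum_le_card_nsmul _ _ 1 h1).trans ?_
    rw [nsmul_eq_mul, mul_one]
    have h2 : ((Ioc Q (2 * Q)).filter (fun m => m.Coprime n)).card ≤ Q := by
      refine (Finset.card_filter_le _ _).trans ?_
      rw [Nat.card_Ioc]
      omega
    exact_mod_cast h2
  unfold BF
  refine (norm_sum_le _ _).trans ?_
  have h1 : ∀ n ∈ Ioc Q (2 * Q), ‖β n * An θ vt α Q n‖ ≤ (Q : ℝ) := by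
    intro n _
    rw [norm_mul]
    calc ‖β n‖ * ‖An θ vt α Q n‖ ≤ 1 * (Q : ℝ) :=
          mul_le_mul (hβ n) (hA n) (norm_nonneg _) zero_le_one
      _ = Q := one_mul _
  refine (Finset.sum_le_card_nsmul _ _ _ h1).trans ?_
  rw [nsmul_eq_mul, Nat.card_Ioc]
  have : 2 * Q - Q = Q := by omega
  rw [this]
  nlinarith

theorem tA13 (h9 : SA9) (h10 : SA10) (h11 : SA11) (h12 : SA12) : SA13 := by
  intro ε hε
  set e : ℝ := min ε (1 / 10 ^ 5) with hedef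
  have he : 0 < e := lt_min hε (by norm_num)
  have heε : e ≤ ε := min_le_left _ _
  have he1 : e ≤ 1 / 10 ^ 5 := min_le_right _ _
  obtain ⟨C9, hC9, H9⟩ := h9 e he
  obtain ⟨L₀, H11⟩ := h11 e he
  set D : ℝ := 1 + C9 with hD
  set K : ℝ := 8 * (366 + 2 * D) with hK
  set M : ℕ := max L₀ (2 ^ 17) with hM
  refine ⟨K + ((M : ℝ) ^ 32) ^ 2, by positivity, ?_⟩
  intro θ vt α β Q hQ hα hβ hθ
  have hQ1 : (1 : ℝ) ≤ Q := by exact_mod_cast hQ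
  have hQ0 : (0 : ℝ) < Q := by linarith
  have hθ1 : (1 : ℝ) ≤ |(θ : ℝ)| := by
    have : (1 : ℤ) ≤ |θ| := Int.one_le_abs hθ
    exact_mod_cast this
  set V : ℝ := 1 + (|(θ : ℝ)| + |vt|) / (Q : ℝ) ^ 2 with hVdef
  have hV : 1 ≤ V := by
    have : 0 ≤ (|(θ : ℝ)| + |vt|) / (Q : ℝ) ^ 2 := by positivity
    linarith
  have hV0 : 0 < V := by linarith
  have hK1 : 1 ≤ K := by
    rw [hK, hD]; linarith
  have ht1 : 1 ≤ |(θ : ℝ)| ^ ε := Real.one_le_rpow hθ1 hε.le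
  have hq1 : 1 ≤ (Q : ℝ) ^ (2 - 1 / 65 : ℝ) := Real.one_le_rpow hQ1 (by norm_num)
  have hv1 : 1 ≤ V ^ (1 / 4 : ℝ) := Real.one_le_rpow hV (by norm_num)
  have hprod : 1 ≤ |(θ : ℝ)| ^ ε * (Q : ℝ) ^ (2 - 1 / 65 : ℝ) * V ^ (1 / 4 : ℝ) := by
    have := one_le_mul_of_one_le_of_one_le (one_le_mul_of_one_le_of_one_le ht1 hq1) hv1
    exact this
  by_cases hbig : Q < M ^ 32
  · -- small `Q`
    refine (a13_triv θ vt α β Q hα hβ).trans ?_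
    have h1 : (Q : ℝ) ≤ (M : ℝ) ^ 32 := by exact_mod_cast hbig.le
    have h2 : (Q : ℝ) ^ 2 ≤ ((M : ℝ) ^ 32) ^ 2 := by gcongr
    calc (Q : ℝ) ^ 2 ≤ ((M : ℝ) ^ 32) ^ 2 := h2
      _ ≤ K + ((M : ℝ) ^ 32) ^ 2 := by linarith
      _ = (K + ((M : ℝ) ^ 32) ^ 2) * 1 := by ring
      _ ≤ (K + ((M : ℝ) ^ 32) ^ 2) *
          (|(θ : ℝ)| ^ ε * (Q : ℝ) ^ (2 - 1 / 65 : ℝ) * V ^ (1 / 4 : ℝ)) := by
            apply mul_le_mul_of_nonneg_left hprod (by positivity)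
      _ = _ := by ring
  · push Not at hbig
    set y : ℝ := (Q : ℝ) ^ (1 / 32 : ℝ) with hy
    have hy32 : y ^ 32 = Q := by
      rw [hy, ← Real.rpow_natCast, ← Real.rpow_mul hQ0.le]
      norm_num
    have hy0 : 0 ≤ y := by positivity
    set L : ℕ := ⌊y⌋₊ with hL
    have hMy : (M : ℝ) ≤ y := by
      have h1 : (M : ℝ) ^ 32 ≤ y ^ 32 := by
        rw [hy32]; exact_mod_cast hbig
      exact (pow_le_pow_iff_left₀ (by positivity) hy0 (by norm_num)).1 h1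
    have hML : M ≤ L := Nat.le_floor hMy
    have hL17 : 2 ^ 17 ≤ L := (le_max_right _ _).trans hML
    have hL0 : L₀ ≤ L := (le_max_left _ _).trans hML
    have hLy : (L : ℝ) ≤ y := Nat.floor_le hy0
    have hyL : y < L + 1 := Nat.lt_floor_add_one y
    have hL1 : (1 : ℝ) ≤ L := by
      have : 1 ≤ L := le_trans (by norm_num) hL17
      exact_mod_cast this
    have hy2L : y ≤ 2 * L := by linarith
    have hLQ : L ≤ Q := by
      have h1 : (L : ℝ) ^ 32 ≤ Q := by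
        rw [← hy32]; gcongr
      have h2 : L ^ 32 ≤ Q := by exact_mod_cast h1
      exact (Nat.le_self_pow (by norm_num) L).trans h2
    have hQL : 2 * Q < L ^ 34 := by
      have h1 : (Q : ℝ) < ((L : ℝ) + 1) ^ 32 := by
        rw [← hy32]; gcongr
      have h2 : Q < (L + 1) ^ 32 := by exact_mod_cast h1
      have h3 : (L + 1) ^ 32 ≤ (2 * L) ^ 32 := Nat.pow_le_pow_left (by omega) 32
      have h4 : (2 ^ 17) ^ 2 ≤ L ^ 2 := Nat.pow_le_pow_left hL17 2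
      calc 2 * Q < 2 * (2 * L) ^ 32 := by omega
        _ = 2 ^ 33 * L ^ 32 := by rw [mul_pow]; ring
        _ ≤ L ^ 2 * L ^ 32 := Nat.mul_le_mul_right _ ((by norm_num : 2 ^ 33 ≤ (2 ^ 17) ^ 2).trans h4)
        _ = L ^ 34 := by rw [← pow_add]
    obtain ⟨Ls, hPr, hN⟩ := H11 L hL0
    have hN66 : (66 : ℝ) ≤ Ls.card := by
      refine le_trans ?_ hN
      have h1 : (66 : ℝ) ≤ ((2 : ℝ) ^ 17) ^ (1 / 2 : ℝ) := by
        rw [← Real.sqrt_eq_rpow]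
        apply Real.le_sqrt_of_sq_le
        norm_num
      refine h1.trans ?_
      calc ((2 : ℝ) ^ 17) ^ (1 / 2 : ℝ) ≤ (L : ℝ) ^ (1 / 2 : ℝ) := by
            apply Real.rpow_le_rpow (by positivity) _ (by norm_num)
            exact_mod_cast hL17
        _ ≤ (L : ℝ) ^ (1 - e) := by
            apply Real.rpow_le_rpow_of_exponent_le hL1
            norm_num at he1 ⊢
            linarith
    have hN66' : 66 ≤ Ls.card := by exact_mod_cast hN66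
    have hLnat : 1 ≤ L := by exact_mod_cast hL1
    have hA12 := h12 Q L Ls hPr (by omega) hQL hN66'
    have hA9 := H9 θ vt α Q L Ls hα hPr hLnat hLQ hθ
    have hA10 := h10 θ vt α β Q L Ls hα hβ hPr hLnat hLQ (by omega) hA12
    have hcore := a13_core (C := C9) (D := D) (e := e) (q := (Q : ℝ)) (l := (L : ℝ))
      (t := |(θ : ℝ)|) (V := V) (N := (Ls.card : ℝ)) (T := ‖Tq θ vt α Q L Ls‖)
      (B := ‖BF θ vt α β Q‖) (by rw [hD]; nlinarith) (by positivity) he he1 hQ1 hL1 hθ1 hV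
      (by linarith) (norm_nonneg _) hLy hy2L hN hA9 hA10
    have hfin : ‖BF θ vt α β Q‖ ≤
        K * (|(θ : ℝ)| ^ ε * (Q : ℝ) ^ (2 - 1 / 65 : ℝ) * V ^ (1 / 4 : ℝ)) := by
      apply a13_sq_le (norm_nonneg _) (by positivity)
      refine hcore.trans ?_
      have e1 : (|(θ : ℝ)| ^ ε * (Q : ℝ) ^ (2 - 1 / 65 : ℝ) * V ^ (1 / 4 : ℝ)) ^ 2 =
          |(θ : ℝ)| ^ (2 * ε) * (Q : ℝ) ^ (4 - 2 / 65 : ℝ) * V ^ (1 / 2 : ℝ) := by
        rw [mul_pow, mul_pow, a13_rsq (abs_nonneg _), a13_rsq hQ0.le, a13_rsq hV0.le]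
        norm_num
      rw [mul_pow, e1]
      have h1 : |(θ : ℝ)| ^ e ≤ |(θ : ℝ)| ^ (2 * ε) :=
        Real.rpow_le_rpow_of_exponent_le hθ1 (by linarith)
      have h2 : K ≤ K ^ 2 := by nlinarith
      calc 8 * (366 + 2 * D) * (|(θ : ℝ)| ^ e * (Q : ℝ) ^ (4 - 2 / 65 : ℝ) * V ^ (1 / 2 : ℝ))
          = K * (|(θ : ℝ)| ^ e * (Q : ℝ) ^ (4 - 2 / 65 : ℝ) * V ^ (1 / 2 : ℝ)) := by rw [hK]
        _ ≤ K ^ 2 * (|(θ : ℝ)| ^ (2 * ε) * (Q : ℝ) ^ (4 - 2 / 65 : ℝ) * V ^ (1 / 2 : ℝ)) := by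
            gcongr
    refine hfin.trans ?_
    have h3 : 0 ≤ ((M : ℝ) ^ 32) ^ 2 := by positivity
    calc K * (|(θ : ℝ)| ^ ε * (Q : ℝ) ^ (2 - 1 / 65 : ℝ) * V ^ (1 / 4 : ℝ))
        ≤ (K + ((M : ℝ) ^ 32) ^ 2) *
          (|(θ : ℝ)| ^ ε * (Q : ℝ) ^ (2 - 1 / 65 : ℝ) * V ^ (1 / 4 : ℝ)) := by
            apply mul_le_mul_of_nonneg_right _ (by positivity)
            linarith
      _ = _ := by ring

end Pool.Agent.Lib.TB
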