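import Pool.Agent.Lib.TB.SpecA

/-!
MP_00e23e_nt, directory Lib/TB: the final form of the bilinear estimate.
-/

namespace Pool.Agent.Lib.TB

open Finset ComplexConjugate Pool.Agent.Lib.EH3

theorem tA14 : SA14 := by
  intro h ε hε
  obtain ⟨C, _, hC⟩ := h ε hε
  refine ⟨C, ?_⟩
  intro Q α β θ vt hQ hα hβ hθ
  have h1 := hC θ vt α β Q hQ hα hβ hθ
  have h2 : BF θ vt α β Q = ∑ m ∈ Ioc Q (2 * Q),
      ∑ n ∈ (Ioc Q (2 * Q)).filter (fun n => m.Coprime n),
        α m * β n * ee ((θ : ℝ) * (iv m n : ℝ) / (n : ℝ) + vt / ((m : ℝ) * n)) := by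
    unfold BF An e1
    simp_rw [Finset.mul_sum, Finset.sum_filter]
    rw [Finset.sum_comm]
    refine Finset.sum_congr rfl fun m _ => Finset.sum_congr rfl fun n _ => ?_
    split_ifs
    · ring
    · rfl
  rw [← h2]
  exact h1

end Pool.Agent.Lib.TB
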