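import Pool.Agent.Lib.TB.SpecA

/-! MP_00e23e_nt, directory Lib/TB, module A2: amplification. -/

namespace Pool.Agent.Lib.TB

open Finset ComplexConjugate Pool.Agent.Lib.EH3

/-- The phase of a class. -/
private noncomputable def a2_E (θ : ℤ) (vt : ℝ) (n : ℕ) (c : ZMod n) (l m : ℕ) : ℂ :=
  ee ((θ : ℝ) * (l : ℝ) * ((c⁻¹ : ZMod n).val : ℝ) / (n : ℝ)) * ee (vt / ((m : ℝ) * n))

/-- One summand. -/
private noncomputable def a2_G (θ : ℤ) (vt : ℝ) (α : ℕ → ℂ) (n : ℕ) (c : ZMod n) (l m : ℕ) : ℂ :=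
  if m.Coprime n ∧ ((l * m : ℕ) : ZMod n) = c then α m * a2_E θ vt n c l m else 0

/-- The sum for one class. -/
private noncomputable def a2_g (θ : ℤ) (vt : ℝ) (α : ℕ → ℂ) (Q : ℕ) (Ls : Finset ℕ) (n : ℕ)
    (c : ZMod n) : ℂ :=
  ∑ l ∈ Ls, ∑ m ∈ Ioc Q (2 * Q), a2_G θ vt α n c l m

private theorem a2_phase (h0 : SA0) (θ : ℤ) (vt : ℝ) {n l m : ℕ} (hn : 0 < n) (hl : l.Coprime n)
    (hm : m.Coprime n) : a2_E θ vt n ((l * m : ℕ) : ZMod n) l m = e1 θ vt m n := by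
  have : NeZero n := ⟨hn.ne'⟩
  unfold a2_E e1
  rw [h0.2.1]
  congr 1
  have h1 := h0.2.2.1 (θ * l * ((((l * m : ℕ) : ZMod n))⁻¹ : ZMod n).val) (θ * iv m n) n hn (by
    have e1 : ((l * m : ℕ) : ZMod n) * (((l * m : ℕ) : ZMod n))⁻¹ = 1 :=
      ZMod.coe_mul_inv_eq_one _ (Nat.Coprime.mul_left hl hm)
    have e2 : (m : ZMod n) * ((m : ZMod n))⁻¹ = 1 := ZMod.coe_mul_inv_eq_one _ hm
    have e3 : (l : ZMod n) * (((l * m : ℕ) : ZMod n))⁻¹ = ((m : ZMod n))⁻¹ := by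
      calc (l : ZMod n) * (((l * m : ℕ) : ZMod n))⁻¹
          = (l : ZMod n) * (((l * m : ℕ) : ZMod n))⁻¹ * ((m : ZMod n) * ((m : ZMod n))⁻¹) := by
            rw [e2, mul_one]
        _ = (((l * m : ℕ) : ZMod n) * (((l * m : ℕ) : ZMod n))⁻¹) * ((m : ZMod n))⁻¹ := by
            rw [Nat.cast_mul]
            ring
        _ = _ := by rw [e1, one_mul]
    unfold iv
    rw [Int.cast_mul, Int.cast_mul, Int.cast_mul, Int.cast_natCast, Int.cast_natCast,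
      Int.cast_natCast, ZMod.natCast_zmod_val, ZMod.natCast_zmod_val, mul_assoc, e3])
  rw [← Int.cast_natCast (R := ℝ) (((((l * m : ℕ) : ZMod n))⁻¹ : ZMod n).val),
    ← Int.cast_natCast (R := ℝ) l, ← Int.cast_mul, ← Int.cast_mul, h1]
  push_cast
  rfl

private theorem a2_sum (h0 : SA0) (θ : ℤ) (vt : ℝ) (α : ℕ → ℂ) (Q : ℕ) (Ls : Finset ℕ) (n : ℕ)
    [NeZero n] (hLs : ∀ l ∈ Ls, l.Coprime n) :
    ∑ c, a2_g θ vt α Q Ls n c = (Ls.card : ℂ) * An θ vt α Q n := by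
  have hn : 0 < n := Nat.pos_of_ne_zero (NeZero.ne n)
  unfold a2_g
  rw [Finset.sum_comm]
  have h1 : ∀ l ∈ Ls, ∑ c, ∑ m ∈ Ioc Q (2 * Q), a2_G θ vt α n c l m = An θ vt α Q n := by
    intro l hl
    rw [Finset.sum_comm]
    unfold An
    rw [Finset.sum_filter]
    refine Finset.sum_congr rfl fun m _ => ?_
    rw [Finset.sum_eq_single (((l * m : ℕ) : ZMod n))]
    · unfold a2_G
      by_cases hm : m.Coprime n
      · rw [if_pos ⟨hm, rfl⟩, if_pos hm, a2_phase h0 θ vt hn (hLs l hl) hm]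
      · rw [if_neg fun h => hm h.1, if_neg hm]
    · intro c _ hc
      unfold a2_G
      rw [if_neg fun h => hc h.2.symm]
    · intro h
      exact absurd (Finset.mem_univ _) h
  rw [Finset.sum_congr rfl h1, Finset.sum_const, nsmul_eq_mul]

private theorem a2_term (h0 : SA0) (θ : ℤ) (vt : ℝ) (α : ℕ → ℂ) (n : ℕ) [NeZero n]
    (l1 l2 m1 m2 : ℕ) :
    ∑ c, a2_G θ vt α n c l1 m1 * conj (a2_G θ vt α n c l2 m2) =
      if m1.Coprime n ∧ m2.Coprime n ∧ ((l1 * m1 : ℕ) : ZMod n) = ((l2 * m2 : ℕ) : ZMod n) then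
        α m1 * conj (α m2) * e2 θ vt l1 l2 m1 m2 n else 0 := by
  rw [Finset.sum_eq_single (((l1 * m1 : ℕ) : ZMod n))]
  · unfold a2_G
    by_cases hm1 : m1.Coprime n
    · by_cases hm2 : m2.Coprime n
      · by_cases h : ((l1 * m1 : ℕ) : ZMod n) = ((l2 * m2 : ℕ) : ZMod n)
        · rw [if_pos ⟨hm1, rfl⟩, if_pos ⟨hm2, h.symm⟩, if_pos ⟨hm1, hm2, h⟩]
          unfold a2_E e2 iv
          rw [map_mul, map_mul, h0.2.2.2.1, h0.2.2.2.1]
          generalize ((((((l1 * m1 : ℕ) : ZMod n))⁻¹ : ZMod n).val : ℕ) : ℝ) = v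
          have e3 : ee ((θ : ℝ) * ((l1 : ℝ) - l2) * v / (n : ℝ)) =
              ee ((θ : ℝ) * (l1 : ℝ) * v / (n : ℝ)) * ee (-((θ : ℝ) * (l2 : ℝ) * v / (n : ℝ))) := by
            rw [← h0.2.1]
            congr 1
            ring
          have e4 : ee (vt / (n : ℝ) * (1 / (m1 : ℝ) - 1 / (m2 : ℝ))) =
              ee (vt / ((m1 : ℝ) * n)) * ee (-(vt / ((m2 : ℝ) * n))) := by
            rw [← h0.2.1]
            congr 1
            rw [div_mul_eq_div_div, div_mul_eq_div_div]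
            ring
          rw [e3, e4]
          ring
        · rw [if_neg (show ¬ (m1.Coprime n ∧ m2.Coprime n ∧
              ((l1 * m1 : ℕ) : ZMod n) = ((l2 * m2 : ℕ) : ZMod n)) from fun h' => h h'.2.2),
            if_neg (show ¬ (m2.Coprime n ∧
              ((l2 * m2 : ℕ) : ZMod n) = ((l1 * m1 : ℕ) : ZMod n)) from fun h' => h h'.2.symm),
            map_zero, mul_zero]
      · rw [if_neg (show ¬ (m1.Coprime n ∧ m2.Coprime n ∧
              ((l1 * m1 : ℕ) : ZMod n) = ((l2 * m2 : ℕ) : ZMod n)) from fun h' => hm2 h'.2.1),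
            if_neg (show ¬ (m2.Coprime n ∧
              ((l2 * m2 : ℕ) : ZMod n) = ((l1 * m1 : ℕ) : ZMod n)) from fun h' => hm2 h'.1),
            map_zero, mul_zero]
    · rw [if_neg (show ¬ (m1.Coprime n ∧ m2.Coprime n ∧
              ((l1 * m1 : ℕ) : ZMod n) = ((l2 * m2 : ℕ) : ZMod n)) from fun h' => hm1 h'.1),
            if_neg (show ¬ (m1.Coprime n ∧
              ((l1 * m1 : ℕ) : ZMod n) = ((l1 * m1 : ℕ) : ZMod n)) from fun h' => hm1 h'.1),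
            zero_mul]
  · intro c _ hc
    unfold a2_G
    rw [if_neg (fun h : m1.Coprime n ∧ ((l1 * m1 : ℕ) : ZMod n) = c => hc h.2.symm), zero_mul]
  · intro h
    exact absurd (Finset.mem_univ _) h

private theorem a2_Tn (h0 : SA0) (θ : ℤ) (vt : ℝ) (α : ℕ → ℂ) (Q : ℕ) (Ls : Finset ℕ) (n : ℕ)
    [NeZero n] :
    ∑ c, a2_g θ vt α Q Ls n c * conj (a2_g θ vt α Q Ls n c) = Tn θ vt α Q Ls n := by
  have h1 : ∀ c : ZMod n, a2_g θ vt α Q Ls n c * conj (a2_g θ vt α Q Ls n c) =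
      ∑ l1 ∈ Ls, ∑ l2 ∈ Ls, ∑ m1 ∈ Ioc Q (2 * Q), ∑ m2 ∈ Ioc Q (2 * Q),
        a2_G θ vt α n c l1 m1 * conj (a2_G θ vt α n c l2 m2) := by
    intro c
    unfold a2_g
    rw [map_sum, Finset.sum_mul_sum]
    refine Finset.sum_congr rfl fun l1 _ => Finset.sum_congr rfl fun l2 _ => ?_
    rw [map_sum, Finset.sum_mul_sum]
  rw [Finset.sum_congr rfl fun c _ => h1 c]
  unfold Tn
  rw [Finset.sum_comm]
  refine Finset.sum_congr rfl fun l1 _ => ?_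
  rw [Finset.sum_comm]
  refine Finset.sum_congr rfl fun l2 _ => ?_
  rw [Finset.sum_comm]
  refine Finset.sum_congr rfl fun m1 _ => ?_
  rw [Finset.sum_comm]
  refine Finset.sum_congr rfl fun m2 _ => ?_
  exact a2_term h0 θ vt α n l1 l2 m1 m2

theorem tA2 (h0 : SA0) : SA2 := by
  intro θ vt α Q n Ls hn hLs
  have : NeZero n := ⟨hn.ne'⟩
  have h1 := a2_sum h0 θ vt α Q Ls n hLs
  have h2 : (Tn θ vt α Q Ls n).re = ∑ c, ‖a2_g θ vt α Q Ls n c‖ ^ 2 := by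
    rw [← a2_Tn h0 θ vt α Q Ls n, Complex.re_sum]
    refine Finset.sum_congr rfl fun c _ => ?_
    rw [Complex.mul_conj']
    norm_cast
  rw [h2]
  refine ⟨?_, Finset.sum_nonneg fun c _ => by positivity⟩
  have h3 : (Ls.card : ℝ) * ‖An θ vt α Q n‖ = ‖∑ c, a2_g θ vt α Q Ls n c‖ := by
    rw [h1, norm_mul, Complex.norm_natCast]
  have h4 : ‖∑ c, a2_g θ vt α Q Ls n c‖ ≤ ∑ c, ‖a2_g θ vt α Q Ls n c‖ := norm_sum_le _ _
  calc (Ls.card : ℝ) ^ 2 * ‖An θ vt α Q n‖ ^ 2 = ‖∑ c, a2_g θ vt α Q Ls n c‖ ^ 2 := by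
        rw [← mul_pow, h3]
    _ ≤ (∑ c, ‖a2_g θ vt α Q Ls n c‖) ^ 2 := pow_le_pow_left₀ (norm_nonneg _) h4 2
    _ ≤ (Finset.univ : Finset (ZMod n)).card * ∑ c, ‖a2_g θ vt α Q Ls n c‖ ^ 2 :=
        sq_sum_le_card_mul_sum_sq
    _ = n * ∑ c, ‖a2_g θ vt α Q Ls n c‖ ^ 2 := by
        rw [Finset.card_univ, ZMod.card]

end Pool.Agent.Lib.TB
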