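import Pool.Agent.Lib.TB.SpecA

/-! MP_00e23e_nt, directory Lib/TB, module A3: the diagonal. -/

namespace Pool.Agent.Lib.TB

open Finset ComplexConjugate Pool.Agent.Lib.EH3

private theorem a3_mult (Q L l : ℕ) (hl : L < l) (hL : L ≤ Q) :
    L * ((Ioc Q (2 * Q)).filter fun m => l ∣ m).card ≤ 2 * Q := by
  have hl0 : 0 < l := by omega
  have h1 : ((Ioc Q (2 * Q)).filter fun m => l ∣ m).card ≤ (Ioc (Q / l) (2 * Q / l)).card := by
    refine Finset.card_le_card_of_injOn (fun m => m / l) ?_ ?_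
    · intro m hm
      obtain ⟨h2, y, rfl⟩ := Finset.mem_filter.1 hm
      rw [Finset.mem_Ioc] at h2
      simp only [Finset.coe_Ioc, Set.mem_Ioc]
      rw [Nat.mul_div_cancel_left y hl0, Nat.div_lt_iff_lt_mul hl0, Nat.le_div_iff_mul_le hl0,
        mul_comm y l]
      exact h2
    · intro m hm m' hm' h
      obtain ⟨_, y, rfl⟩ := Finset.mem_filter.1 hm
      obtain ⟨_, y', rfl⟩ := Finset.mem_filter.1 hm'
      simp only [Nat.mul_div_cancel_left _ hl0] at h
      rw [h]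
  rw [Nat.card_Ioc] at h1
  have h2 : 2 * Q / l ≤ Q / l + Q / l + 1 := by
    rw [← Nat.lt_succ_iff, Nat.div_lt_iff_lt_mul hl0]
    have h3 := Nat.lt_div_mul_add hl0 (a := Q)
    have h4 : (Q / l + Q / l + 1).succ * l = 2 * (Q / l * l) + 2 * l := by
      rw [Nat.succ_eq_add_one]
      ring
    rw [h4]
    omega
  have h5 : ((Ioc Q (2 * Q)).filter fun m => l ∣ m).card ≤ Q / l + 1 :=
    h1.trans (Nat.sub_le_iff_le_add.2 (by rw [add_right_comm]; exact h2))
  calc L * ((Ioc Q (2 * Q)).filter fun m => l ∣ m).card ≤ L * (Q / l + 1) :=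
        Nat.mul_le_mul_left _ h5
    _ = L * (Q / l) + L := by ring
    _ ≤ l * (Q / l) + L := by gcongr
    _ ≤ Q + Q := Nat.add_le_add (Nat.mul_div_le _ _) hL
    _ = 2 * Q := by ring

private theorem a3_card (L : ℕ) (Ls : Finset ℕ) (h : PrL L Ls) : Ls.card ≤ 3 * L := by
  have h1 : Ls ⊆ Ioc L (4 * L) := fun l hl => Finset.mem_Ioc.2 (h l hl).2
  have h2 := Finset.card_le_card h1
  rw [Nat.card_Ioc] at h2
  omega

theorem tA3 : SA3 := by
  intro Q L Ls hP hL1 hLQ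
  set S := ((Ls ×ˢ Ls ×ˢ Ioc Q (2 * Q) ×ˢ Ioc Q (2 * Q)).filter fun x =>
      x.1 * x.2.2.1 = x.2.1 * x.2.2.2) with hS
  have hmem : ∀ x ∈ S, x.1 ∈ Ls ∧ x.2.1 ∈ Ls ∧ x.2.2.1 ∈ Ioc Q (2 * Q) ∧
      x.2.2.2 ∈ Ioc Q (2 * Q) ∧ x.1 * x.2.2.1 = x.2.1 * x.2.2.2 := by
    intro x hx
    rw [hS, Finset.mem_filter, Finset.mem_product, Finset.mem_product, Finset.mem_product] at hx
    tauto
  have hIoc : (Ioc Q (2 * Q)).card = Q := by
    rw [Nat.card_Ioc]
    omega
  -- equal primes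
  have h1 : (S.filter fun x => x.1 = x.2.1).card ≤ Ls.card * Q := by
    have h2 : (S.filter fun x => x.1 = x.2.1).card ≤ (Ls ×ˢ Ioc Q (2 * Q)).card := by
      refine Finset.card_le_card_of_injOn (fun x => (x.1, x.2.2.1)) ?_ ?_
      · intro x hx
        have hx1 := hmem x (Finset.mem_filter.1 hx).1
        exact Finset.mem_coe.2 (Finset.mem_product.2 ⟨hx1.1, hx1.2.2.1⟩)
      · rintro ⟨a, b, c, d⟩ hx ⟨a', b', c', d'⟩ hx' h
        obtain ⟨hx1, hx2⟩ := Finset.mem_filter.1 hx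
        obtain ⟨hx1', hx2'⟩ := Finset.mem_filter.1 hx'
        have hy := hmem _ hx1
        have hy' := hmem _ hx1'
        simp only at hx2 hx2' hy hy' h
        obtain ⟨h3, h4⟩ := Prod.mk.inj h
        subst h3 h4 hx2 hx2'
        have h0 : 0 < a := (hP a hy.1).1.pos
        have h5 : c = d := Nat.eq_of_mul_eq_mul_left h0 hy.2.2.2.2
        have h6 : c = d' := Nat.eq_of_mul_eq_mul_left h0 hy'.2.2.2.2
        rw [← h5, ← h6]
    rwa [Finset.card_product, hIoc] at h2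
  -- different primes
  have h2 : (S.filter fun x => ¬ x.1 = x.2.1).card ≤
      ∑ _l1 ∈ Ls, ∑ l2 ∈ Ls, ((Ioc Q (2 * Q)).filter fun m => l2 ∣ m).card := by
    have h3 : (S.filter fun x => ¬ x.1 = x.2.1).card ≤
        (Ls ×ˢ (Ls.sigma fun l2 => (Ioc Q (2 * Q)).filter fun m => l2 ∣ m)).card := by
      refine Finset.card_le_card_of_injOn (fun x => (x.1, ⟨x.2.1, x.2.2.1⟩)) ?_ ?_
      · intro x hx
        obtain ⟨hx1, hx2⟩ := Finset.mem_filter.1 hx
        have hy := hmem x hx1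
        refine Finset.mem_coe.2 (Finset.mem_product.2 ⟨hy.1, Finset.mem_sigma.2 ⟨hy.2.1,
          Finset.mem_filter.2 ⟨hy.2.2.1, ?_⟩⟩⟩)
        have h4 : x.2.1 ∣ x.1 * x.2.2.1 := by
          rw [hy.2.2.2.2]
          exact Nat.dvd_mul_right _ _
        rcases (hP _ hy.2.1).1.dvd_mul.1 h4 with h5 | h5
        · exact absurd ((Nat.prime_dvd_prime_iff_eq (hP _ hy.2.1).1 (hP _ hy.1).1).1 h5).symm hx2
        · exact h5
      · rintro ⟨a, b, c, d⟩ hx ⟨a', b', c', d'⟩ hx' h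
        obtain ⟨hx1, hx2⟩ := Finset.mem_filter.1 hx
        obtain ⟨hx1', hx2'⟩ := Finset.mem_filter.1 hx'
        have hy := hmem _ hx1
        have hy' := hmem _ hx1'
        simp only at hx2 hx2' hy hy' h
        obtain ⟨h3, h4⟩ := Prod.mk.inj h
        subst h3
        obtain ⟨h5, h6⟩ := Sigma.mk.inj h4
        have h6 := eq_of_heq h6
        subst h5 h6
        have h0 : 0 < b := (hP b hy.2.1).1.pos
        have h7 : d = d' := Nat.eq_of_mul_eq_mul_left h0 (hy.2.2.2.2.symm.trans hy'.2.2.2.2)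
        rw [h7]
    rwa [Finset.card_product, Finset.card_sigma, ← smul_eq_mul, ← Finset.sum_const] at h3
  have h3 : L * (S.filter fun x => ¬ x.1 = x.2.1).card ≤ L * (6 * Ls.card * Q) := by
    calc L * (S.filter fun x => ¬ x.1 = x.2.1).card
        ≤ L * ∑ _l1 ∈ Ls, ∑ l2 ∈ Ls, ((Ioc Q (2 * Q)).filter fun m => l2 ∣ m).card :=
          Nat.mul_le_mul_left _ h2
      _ = ∑ _l1 ∈ Ls, ∑ l2 ∈ Ls, L * ((Ioc Q (2 * Q)).filter fun m => l2 ∣ m).card := by
          simp only [Finset.mul_sum]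
      _ ≤ ∑ _l1 ∈ Ls, ∑ _l2 ∈ Ls, 2 * Q :=
          Finset.sum_le_sum fun l1 _ => Finset.sum_le_sum fun l2 hl2 =>
            a3_mult Q L l2 (hP l2 hl2).2.1 hLQ
      _ = Ls.card * (Ls.card * (2 * Q)) := by
          rw [Finset.sum_const, Finset.sum_const, smul_eq_mul, smul_eq_mul]
      _ ≤ (3 * L) * (Ls.card * (2 * Q)) := Nat.mul_le_mul_right _ (a3_card L Ls hP)
      _ = L * (6 * Ls.card * Q) := by ring
  have h4 := Nat.le_of_mul_le_mul_left h3 hL1
  have h5 := Finset.card_filter_add_card_filter_not (s := S) (fun x => x.1 = x.2.1)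
  calc S.card = (S.filter fun x => x.1 = x.2.1).card + (S.filter fun x => ¬ x.1 = x.2.1).card :=
        h5.symm
    _ ≤ Ls.card * Q + 6 * Ls.card * Q := Nat.add_le_add h1 h4
    _ = 7 * Ls.card * Q := by ring

end Pool.Agent.Lib.TB
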