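import Pool.Agent.Lib.TB.SpecA

/-!
# Module A4: from `n` to the complementary divisor `k`
-/

namespace Pool.Agent.Lib.TB

open Finset ComplexConjugate Pool.Agent.Lib.EH3

/-- The summand. -/
private noncomputable def a4_g (θ : ℤ) (vt : ℝ) (α : ℕ → ℂ) (l1 l2 m1 m2 n : ℕ) : ℂ :=
  if (¬ l1 ∣ n ∧ ¬ l2 ∣ n) ∧ m1.Coprime n ∧ m2.Coprime n ∧
      ((l1 * m1 : ℕ) : ZMod n) = ((l2 * m2 : ℕ) : ZMod n) then
    α m1 * conj (α m2) * e2 θ vt l1 l2 m1 m2 n else 0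

private lemma a4_norm_e2 (θ : ℤ) (vt : ℝ) (l1 l2 m1 m2 n : ℕ) :
    ‖e2 θ vt l1 l2 m1 m2 n‖ = 1 := by
  unfold e2
  rw [norm_mul, norm_ee, norm_ee, one_mul]

private lemma a4_norm_g {θ : ℤ} {vt : ℝ} {α : ℕ → ℂ} (hα : ∀ m, ‖α m‖ ≤ 1)
    (l1 l2 m1 m2 n : ℕ) : ‖a4_g θ vt α l1 l2 m1 m2 n‖ ≤ 1 := by
  unfold a4_g
  split_ifs
  · rw [norm_mul, norm_mul, a4_norm_e2, mul_one, RCLike.norm_conj]
    exact mul_le_one₀ (hα m1) (norm_nonneg _) (hα m2)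
  · rw [norm_zero]
    exact zero_le_one

private lemma a4_Tn (θ : ℤ) (vt : ℝ) (α : ℕ → ℂ) (Q : ℕ) (Ls : Finset ℕ) (n : ℕ) :
    Tn θ vt α Q (Ls.filter fun l => ¬ l ∣ n) n =
      ∑ x ∈ Ls ×ˢ Ls ×ˢ Ioc Q (2 * Q) ×ˢ Ioc Q (2 * Q),
        a4_g θ vt α x.1 x.2.1 x.2.2.1 x.2.2.2 n := by
  simp only [Finset.sum_product]
  unfold Tn
  rw [Finset.sum_filter]
  refine Finset.sum_congr rfl fun l1 _ => ?_
  rw [Finset.sum_filter]
  by_cases h1 : l1 ∣ n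
  · rw [if_neg (not_not.2 h1)]
    symm
    refine Finset.sum_eq_zero fun l2 _ => Finset.sum_eq_zero fun m1 _ =>
      Finset.sum_eq_zero fun m2 _ => ?_
    unfold a4_g
    rw [if_neg (fun h => h.1.1 h1)]
  · rw [if_pos h1]
    refine Finset.sum_congr rfl fun l2 _ => ?_
    by_cases h2 : l2 ∣ n
    · rw [if_neg (not_not.2 h2)]
      symm
      refine Finset.sum_eq_zero fun m1 _ => Finset.sum_eq_zero fun m2 _ => ?_
      unfold a4_g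
      rw [if_neg (fun h => h.1.2 h2)]
    · rw [if_pos h2]
      refine Finset.sum_congr rfl fun m1 _ => Finset.sum_congr rfl fun m2 _ => ?_
      unfold a4_g
      by_cases h3 : m1.Coprime n ∧ m2.Coprime n ∧
        ((l1 * m1 : ℕ) : ZMod n) = ((l2 * m2 : ℕ) : ZMod n)
      · rw [if_pos h3, if_pos ⟨⟨h1, h2⟩, h3⟩]
      · rw [if_neg h3, if_neg (fun h => h3 h.2)]

/-- the condition in terms of the difference -/
private lemma a4_cond {l1 l2 m1 m2 n : ℕ} (hp1 : l1.Prime) (hp2 : l2.Prime)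
    (h : l2 * m2 < l1 * m1) :
    ((¬ l1 ∣ n ∧ ¬ l2 ∣ n) ∧ m1.Coprime n ∧ m2.Coprime n ∧
      ((l1 * m1 : ℕ) : ZMod n) = ((l2 * m2 : ℕ) : ZMod n)) ↔
    (n ∣ l1 * m1 - l2 * m2 ∧ n.Coprime (l1 * m1)) := by
  have hz : ((l1 * m1 : ℕ) : ZMod n) = ((l2 * m2 : ℕ) : ZMod n) ↔ n ∣ l1 * m1 - l2 * m2 := by
    rw [ZMod.natCast_eq_natCast_iff, ← Nat.modEq_iff_dvd' h.le]
    exact ⟨fun g => g.symm, fun g => g.symm⟩
  rw [hz]
  constructor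
  · rintro ⟨⟨g1, g2⟩, g3, g4, g5⟩
    exact ⟨g5, Nat.Coprime.mul_right ((Nat.Prime.coprime_iff_not_dvd hp1).2 g1).symm g3.symm⟩
  · rintro ⟨g5, g6⟩
    have g7 : n.Coprime (l2 * m2) := by
      obtain ⟨c, hc⟩ := g5
      have e : l1 * m1 = l2 * m2 + n * c := by omega
      rw [e] at g6
      exact (Nat.coprime_add_mul_left_right _ _ _).1 g6
    refine ⟨⟨?_, ?_⟩, ?_, ?_, g5⟩
    · exact (Nat.Prime.coprime_iff_not_dvd hp1).1 (Nat.Coprime.coprime_mul_right_right g6).symm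
    · exact (Nat.Prime.coprime_iff_not_dvd hp2).1 (Nat.Coprime.coprime_mul_right_right g7).symm
    · exact (Nat.Coprime.coprime_mul_left_right g6).symm
    · exact (Nat.Coprime.coprime_mul_left_right g7).symm

private lemma a4_pos {θ : ℤ} {vt : ℝ} {α : ℕ → ℂ} {Q L l1 l2 m1 m2 : ℕ} (hp1 : l1.Prime)
    (hp2 : l2.Prime) (hl1 : l1 ≤ 4 * L) (hm1 : m1 ≤ 2 * Q) (h : l2 * m2 < l1 * m1) :
    ∑ n ∈ Ioc Q (2 * Q), a4_g θ vt α l1 l2 m1 m2 n =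
      ∑ k ∈ Ico 1 (8 * L), α m1 * conj (α m2) * ph θ vt Q k l1 l2 m1 m2 := by
  obtain ⟨D, hD⟩ : ∃ D, D = l1 * m1 - l2 * m2 := ⟨_, rfl⟩
  have hD0 : 0 < D := by omega
  have hDle : D ≤ 8 * L * Q := by
    have h1 : l1 * m1 ≤ 4 * L * (2 * Q) := Nat.mul_le_mul hl1 hm1
    have h2 : 4 * L * (2 * Q) = 8 * L * Q := by ring
    omega
  have hL : ∑ n ∈ Ioc Q (2 * Q), a4_g θ vt α l1 l2 m1 m2 n =
      ∑ n ∈ (Ioc Q (2 * Q)).filter (fun n => n ∣ D ∧ n.Coprime (l1 * m1)),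
        α m1 * conj (α m2) * e2 θ vt l1 l2 m1 m2 n := by
    rw [Finset.sum_filter]
    refine Finset.sum_congr rfl fun n _ => ?_
    unfold a4_g
    rw [hD]
    by_cases hc : n ∣ l1 * m1 - l2 * m2 ∧ n.Coprime (l1 * m1)
    · rw [if_pos hc, if_pos ((a4_cond hp1 hp2 h).2 hc)]
    · rw [if_neg hc, if_neg (fun g => hc ((a4_cond hp1 hp2 h).1 g))]
  have hR : ∑ k ∈ Ico 1 (8 * L), α m1 * conj (α m2) * ph θ vt Q k l1 l2 m1 m2 =
      ∑ k ∈ (Ico 1 (8 * L)).filter (fun k => k ∣ D ∧ Q < D / k ∧ D / k ≤ 2 * Q ∧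
        (D / k).Coprime (l1 * m1)), α m1 * conj (α m2) * e2 θ vt l1 l2 m1 m2 (D / k) := by
    rw [Finset.sum_filter]
    refine Finset.sum_congr rfl fun k _ => ?_
    unfold ph nn e2
    rw [← hD]
    by_cases hc : k ∣ D ∧ Q < D / k ∧ D / k ≤ 2 * Q ∧ (D / k).Coprime (l1 * m1)
    · rw [if_pos hc, if_pos ⟨h, hc⟩]
    · rw [if_neg hc, if_neg (fun g => hc g.2), mul_zero]
  rw [hL, hR]
  refine Finset.sum_nbij' (fun n => D / n) (fun k => D / k) ?_ ?_ ?_ ?_ ?_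
  · intro n hn
    rw [mem_filter, mem_Ioc] at hn
    obtain ⟨⟨g1, g2⟩, g3, g4⟩ := hn
    have g5 : D / (D / n) = n := Nat.div_div_self g3 hD0.ne'
    have g6 : D / n * n = D := Nat.div_mul_cancel g3
    have g7 : 0 < D / n := Nat.div_pos (Nat.le_of_dvd hD0 g3) (by omega)
    change D / n ∈ _
    rw [mem_filter, mem_Ico, g5]
    refine ⟨⟨g7, ?_⟩, Nat.div_dvd_of_dvd g3, g1, g2, g4⟩
    by_contra hc
    push Not at hc
    have g8 : 8 * L * (Q + 1) ≤ D / n * n := Nat.mul_le_mul hc g1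
    rw [g6, mul_add, mul_one] at g8
    have g9 : 0 < L := by
      rcases Nat.eq_zero_or_pos L with h0 | h0
      · subst h0
        have := hp1.pos
        omega
      · exact h0
    omega
  · intro k hk
    rw [mem_filter, mem_Ico] at hk
    obtain ⟨⟨g1, g2⟩, g3, g4, g5, g6⟩ := hk
    change D / k ∈ _
    rw [mem_filter, mem_Ioc]
    exact ⟨⟨g4, g5⟩, Nat.div_dvd_of_dvd g3, g6⟩
  · intro n hn
    rw [mem_filter] at hn
    exact Nat.div_div_self hn.2.1 hD0.ne'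
  · intro k hk
    rw [mem_filter] at hk
    exact Nat.div_div_self hk.2.1 hD0.ne'
  · intro n hn
    rw [mem_filter] at hn
    have g5 : D / (D / n) = n := Nat.div_div_self hn.2.1 hD0.ne'
    change _ = α m1 * conj (α m2) * e2 θ vt l1 l2 m1 m2 (D / (D / n))
    rw [g5]

private lemma a4_ph_zero {θ : ℤ} {vt : ℝ} {Q k l1 l2 m1 m2 : ℕ} (h : ¬ l2 * m2 < l1 * m1) :
    ph θ vt Q k l1 l2 m1 m2 = 0 := by
  unfold ph
  rw [if_neg (fun g => h g.1)]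

private lemma a4_conj {θ : ℤ} {vt : ℝ} {α : ℕ → ℂ} (l1 l2 m1 m2 n : ℕ) :
    a4_g θ vt α l1 l2 m1 m2 n = conj (a4_g θ vt α l2 l1 m2 m1 n) := by
  unfold a4_g
  by_cases hc : (¬ l1 ∣ n ∧ ¬ l2 ∣ n) ∧ m1.Coprime n ∧ m2.Coprime n ∧
      ((l1 * m1 : ℕ) : ZMod n) = ((l2 * m2 : ℕ) : ZMod n)
  · obtain ⟨⟨g1, g2⟩, g3, g4, g5⟩ := hc
    rw [if_pos ⟨⟨g1, g2⟩, g3, g4, g5⟩, if_pos ⟨⟨g2, g1⟩, g4, g3, g5.symm⟩]
    have hiv : iv (l1 * m1) n = iv (l2 * m2) n := by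
      unfold iv
      rw [g5]
    unfold e2
    rw [map_mul, map_mul, map_mul, conj_ee, conj_ee, Complex.conj_conj, hiv]
    have e1 : -((θ : ℝ) * ((l2 : ℝ) - l1) * (iv (l2 * m2) n : ℝ) / (n : ℝ)) =
        (θ : ℝ) * ((l1 : ℝ) - l2) * (iv (l2 * m2) n : ℝ) / (n : ℝ) := by ring
    have e2' : -(vt / (n : ℝ) * (1 / (m2 : ℝ) - 1 / (m1 : ℝ))) =
        vt / (n : ℝ) * (1 / (m1 : ℝ) - 1 / (m2 : ℝ)) := by ring
    rw [e1, e2']
    ring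
  · rw [if_neg hc, if_neg, map_zero]
    rintro ⟨⟨g2, g1⟩, g4, g3, g5⟩
    exact hc ⟨⟨g1, g2⟩, g3, g4, g5.symm⟩

theorem tA4 (_h0 : SA0) : SA4 := by
  intro θ vt α Q L Ls hα hPr hL hLQ
  obtain ⟨X, hX⟩ : ∃ X, X = Ls ×ˢ Ls ×ˢ Ioc Q (2 * Q) ×ˢ Ioc Q (2 * Q) := ⟨_, rfl⟩
  rw [← hX]
  obtain ⟨F, hF⟩ : ∃ F : ℕ × ℕ × ℕ × ℕ → ℂ, F = fun x =>
    ∑ n ∈ Ioc Q (2 * Q), a4_g θ vt α x.1 x.2.1 x.2.2.1 x.2.2.2 n := ⟨_, rfl⟩
  have hmem : ∀ x ∈ X, x.1 ∈ Ls ∧ x.2.1 ∈ Ls ∧ x.2.2.1 ∈ Ioc Q (2 * Q) ∧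
      x.2.2.2 ∈ Ioc Q (2 * Q) := by
    intro x hx
    rw [hX] at hx
    simpa only [mem_product] using hx
  have hmem' : ∀ x, x.1 ∈ Ls ∧ x.2.1 ∈ Ls ∧ x.2.2.1 ∈ Ioc Q (2 * Q) ∧
      x.2.2.2 ∈ Ioc Q (2 * Q) → x ∈ X := by
    intro x hx
    rw [hX]
    simpa only [mem_product] using hx
  have htot : ∑ n ∈ Ioc Q (2 * Q), Tn θ vt α Q (Ls.filter fun l => ¬ l ∣ n) n =
      ∑ x ∈ X, F x := by
    rw [hF]
    change _ = ∑ x ∈ X, ∑ n ∈ Ioc Q (2 * Q), a4_g θ vt α x.1 x.2.1 x.2.2.1 x.2.2.2 n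
    rw [Finset.sum_comm]
    refine Finset.sum_congr rfl fun n _ => ?_
    rw [a4_Tn, hX]
  -- the positive part
  have hpos : ∑ x ∈ X.filter (fun x => x.2.1 * x.2.2.2 < x.1 * x.2.2.1), F x =
      Tp θ vt α Q L Ls := by
    have h1 : ∀ x ∈ X.filter (fun x => x.2.1 * x.2.2.2 < x.1 * x.2.2.1), F x =
        ∑ k ∈ Ico 1 (8 * L), α x.2.2.1 * conj (α x.2.2.2) *
          ph θ vt Q k x.1 x.2.1 x.2.2.1 x.2.2.2 := by
      intro x hx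
      rw [mem_filter] at hx
      obtain ⟨hx1, hx2⟩ := hx
      obtain ⟨g1, g2, g3, g4⟩ := hmem x hx1
      rw [hF]
      exact a4_pos (hPr _ g1).1 (hPr _ g2).1 (hPr _ g1).2.2 (mem_Ioc.1 g3).2 hx2
    rw [Finset.sum_congr rfl h1, Finset.sum_filter]
    have h2 : ∀ x ∈ X, (if x.2.1 * x.2.2.2 < x.1 * x.2.2.1 then
        ∑ k ∈ Ico 1 (8 * L), α x.2.2.1 * conj (α x.2.2.2) *
          ph θ vt Q k x.1 x.2.1 x.2.2.1 x.2.2.2 else 0) =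
        ∑ k ∈ Ico 1 (8 * L), α x.2.2.1 * conj (α x.2.2.2) *
          ph θ vt Q k x.1 x.2.1 x.2.2.1 x.2.2.2 := by
      intro x _
      by_cases hc : x.2.1 * x.2.2.2 < x.1 * x.2.2.1
      · rw [if_pos hc]
      · rw [if_neg hc]
        symm
        refine Finset.sum_eq_zero fun k _ => ?_
        rw [a4_ph_zero hc, mul_zero]
    rw [Finset.sum_congr rfl h2, Finset.sum_comm]
    unfold Tp
    refine Finset.sum_congr rfl fun k _ => ?_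
    rw [hX]
    simp only [Finset.sum_product]
  -- the negative part
  have hneg : ∑ x ∈ X.filter (fun x => x.1 * x.2.2.1 < x.2.1 * x.2.2.2), F x =
      conj (Tp θ vt α Q L Ls) := by
    rw [← hpos, map_sum]
    refine Finset.sum_nbij' (fun x => (x.2.1, x.1, x.2.2.2, x.2.2.1))
      (fun x => (x.2.1, x.1, x.2.2.2, x.2.2.1)) ?_ ?_ ?_ ?_ ?_
    · intro x hx
      rw [mem_filter] at hx ⊢
      obtain ⟨g1, g2, g3, g4⟩ := hmem x hx.1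
      exact ⟨hmem' _ ⟨g2, g1, g4, g3⟩, hx.2⟩
    · intro x hx
      rw [mem_filter] at hx ⊢
      obtain ⟨g1, g2, g3, g4⟩ := hmem x hx.1
      exact ⟨hmem' _ ⟨g2, g1, g4, g3⟩, hx.2⟩
    · intro x _
      rfl
    · intro x _
      rfl
    · intro x _
      rw [hF]
      change ∑ n ∈ Ioc Q (2 * Q), a4_g θ vt α x.1 x.2.1 x.2.2.1 x.2.2.2 n =
        conj (∑ n ∈ Ioc Q (2 * Q), a4_g θ vt α x.2.1 x.1 x.2.2.2 x.2.2.1 n)
      rw [map_sum]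
      exact Finset.sum_congr rfl fun n _ => a4_conj _ _ _ _ _
  -- the diagonal
  have hdiag : ‖∑ x ∈ X.filter (fun x => x.1 * x.2.2.1 = x.2.1 * x.2.2.2), F x‖ ≤
      Q * ((X.filter (fun x => x.1 * x.2.2.1 = x.2.1 * x.2.2.2)).card : ℝ) := by
    refine (norm_sum_le _ _).trans ?_
    have h1 : ∀ x ∈ X.filter (fun x => x.1 * x.2.2.1 = x.2.1 * x.2.2.2), ‖F x‖ ≤ (Q : ℝ) := by
      intro x _
      rw [hF]
      change ‖∑ n ∈ Ioc Q (2 * Q), a4_g θ vt α x.1 x.2.1 x.2.2.1 x.2.2.2 n‖ ≤ (Q : ℝ)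
      refine (norm_sum_le _ _).trans ?_
      refine (Finset.sum_le_card_nsmul _ _ 1 fun n _ => a4_norm_g hα _ _ _ _ _).trans ?_
      rw [Nat.card_Ioc, nsmul_eq_mul, mul_one]
      have : 2 * Q - Q = Q := by omega
      rw [this]
    refine (Finset.sum_le_card_nsmul _ _ (Q : ℝ) h1).trans ?_
    rw [nsmul_eq_mul, mul_comm]
  -- the decomposition
  have hdec : ∑ x ∈ X, F x =
      ∑ x ∈ X.filter (fun x => x.1 * x.2.2.1 = x.2.1 * x.2.2.2), F x +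
      ∑ x ∈ X.filter (fun x => x.2.1 * x.2.2.2 < x.1 * x.2.2.1), F x +
      ∑ x ∈ X.filter (fun x => x.1 * x.2.2.1 < x.2.1 * x.2.2.2), F x := by
    rw [Finset.sum_filter, Finset.sum_filter, Finset.sum_filter, ← Finset.sum_add_distrib,
      ← Finset.sum_add_distrib]
    refine Finset.sum_congr rfl fun x _ => ?_
    rcases lt_trichotomy (x.1 * x.2.2.1) (x.2.1 * x.2.2.2) with hc | hc | hc
    · rw [if_neg hc.ne, if_neg (by omega), if_pos hc, zero_add, zero_add]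
    · rw [if_pos hc, if_neg (by omega), if_neg (by omega), add_zero, add_zero]
    · rw [if_neg hc.ne', if_pos hc, if_neg (by omega), zero_add, add_zero]
  rw [htot, hdec, hpos, hneg, Complex.add_re, Complex.add_re, Complex.conj_re]
  have h1 := Complex.re_le_norm (∑ x ∈ X.filter (fun x => x.1 * x.2.2.1 = x.2.1 * x.2.2.2), F x)
  have h2 := Complex.re_le_norm (Tp θ vt α Q L Ls)
  linarith

end Pool.Agent.Lib.TB
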