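import Pool.Agent.Lib.TB.SpecA

/-! MP_00e23e_nt, directory Lib/TB, module A5: the terms with l1 | k or l2 | k. -/

namespace Pool.Agent.Lib.TB

open Finset ComplexConjugate Pool.Agent.Lib.EH3

private theorem a5_mult (Q L l : ℕ) (hl : L < l) (hL : L ≤ Q) :
    L * ((Ioc Q (2 * Q)).filter fun m => l ∣ m).card ≤ 2 * Q := by
  have hl0 : 0 < l := by omega
  have h1 : ((Ioc Q (2 * Q)).filter fun m => l ∣ m).card ≤ (Ioc (Q / l) (2 * Q / l)).card := by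
    refine Finset.card_le_card_of_injOn (fun m => m / l) ?_ ?_
    · intro m hm
      obtain ⟨h2, y, rfl⟩ := Finset.mem_filter.1 hm
      rw [Finset.mem_Ioc] at h2
      simp only [Finset.coe_Ioc, Set.mem_Ioc]
      rw [Nat.mul_div_cancel_left y hl0, Nat.div_lt_iff_lt_mul hl0, Nat.le_div_iff_mul_le hl0,
        mul_comm y l]
      exact h2
    · intro m hm m' hm' h
      obtain ⟨_, y, rfl⟩ := Finset.mem_filter.1 hm
      obtain ⟨_, y', rfl⟩ := Finset.mem_filter.1 hm'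
      simp only [Nat.mul_div_cancel_left _ hl0] at h
      rw [h]
  rw [Nat.card_Ioc] at h1
  have h2 : 2 * Q / l ≤ Q / l + Q / l + 1 := by
    rw [← Nat.lt_succ_iff, Nat.div_lt_iff_lt_mul hl0]
    have h3 := Nat.lt_div_mul_add hl0 (a := Q)
    have h4 : (Q / l + Q / l + 1).succ * l = 2 * (Q / l * l) + 2 * l := by
      rw [Nat.succ_eq_add_one]
      ring
    rw [h4]
    omega
  have h5 : ((Ioc Q (2 * Q)).filter fun m => l ∣ m).card ≤ Q / l + 1 :=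
    h1.trans (Nat.sub_le_iff_le_add.2 (by rw [add_right_comm]; exact h2))
  calc L * ((Ioc Q (2 * Q)).filter fun m => l ∣ m).card ≤ L * (Q / l + 1) :=
        Nat.mul_le_mul_left _ h5
    _ = L * (Q / l) + L := by ring
    _ ≤ l * (Q / l) + L := by gcongr
    _ ≤ Q + Q := Nat.add_le_add (Nat.mul_div_le _ _) hL
    _ = 2 * Q := by ring

private theorem a5_card (L : ℕ) (Ls : Finset ℕ) (h : PrL L Ls) : Ls.card ≤ 3 * L := by
  have h1 : Ls ⊆ Ioc L (4 * L) := fun l hl => Finset.mem_Ioc.2 (h l hl).2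
  have h2 := Finset.card_le_card h1
  rw [Nat.card_Ioc] at h2
  omega

/-- The multiples of a prime `> L` in `[1, 8 L)`. -/
private theorem a5_seven (L l : ℕ) (hl : L < l) :
    ((Ico 1 (8 * L)).filter fun k => l ∣ k).card ≤ 7 := by
  have hl0 : 0 < l := by omega
  have h1 : ((Ico 1 (8 * L)).filter fun k => l ∣ k).card ≤ (Ico 1 8).card := by
    refine Finset.card_le_card_of_injOn (fun m => m / l) ?_ ?_
    · intro m hm
      obtain ⟨h2, y, rfl⟩ := Finset.mem_filter.1 hm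
      rw [Finset.mem_Ico] at h2
      simp only [Finset.coe_Ico, Set.mem_Ico]
      rw [Nat.mul_div_cancel_left y hl0]
      refine ⟨Nat.one_le_iff_ne_zero.2 ?_, ?_⟩
      · rintro rfl
        simp at h2
      · by_contra h
        have h3 : l * 8 ≤ l * y := Nat.mul_le_mul_left _ (by omega)
        omega
    · intro m hm m' hm' h
      obtain ⟨_, y, rfl⟩ := Finset.mem_filter.1 hm
      obtain ⟨_, y', rfl⟩ := Finset.mem_filter.1 hm'
      simp only [Nat.mul_div_cancel_left _ hl0] at h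
      rw [h]
  exact h1

/-- The pairs with a nonzero phase. -/
private noncomputable def a5_c (θ : ℤ) (vt : ℝ) (Q : ℕ) (κ : ℕ × ℕ × ℕ) : ℕ := by
  classical
  exact ((Ioc Q (2 * Q) ×ˢ Ioc Q (2 * Q)).filter fun x =>
    ph θ vt Q κ.1 κ.2.1 κ.2.2 x.1 x.2 ≠ 0).card

/-- A nonzero phase. -/
private theorem a5_ph {θ : ℤ} {vt : ℝ} {Q k l1 l2 m1 m2 : ℕ}
    (h : ph θ vt Q k l1 l2 m1 m2 ≠ 0) :
    ∃ n, n ∈ Ioc Q (2 * Q) ∧ n = nn k l1 l2 m1 m2 ∧ l1 * m1 = l2 * m2 + k * n ∧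
      n.Coprime (l1 * m1) := by
  unfold ph at h
  by_cases hc : l2 * m2 < l1 * m1 ∧ k ∣ l1 * m1 - l2 * m2 ∧ Q < nn k l1 l2 m1 m2 ∧
      nn k l1 l2 m1 m2 ≤ 2 * Q ∧ (nn k l1 l2 m1 m2).Coprime (l1 * m1)
  · refine ⟨nn k l1 l2 m1 m2, Finset.mem_Ioc.2 ⟨hc.2.2.1, hc.2.2.2.1⟩, rfl, ?_, hc.2.2.2.2⟩
    have h1 : k * nn k l1 l2 m1 m2 = l1 * m1 - l2 * m2 := by
      unfold nn
      exact Nat.mul_div_cancel' hc.2.1
    have := hc.1
    omega
  · rw [if_neg hc] at h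
    exact absurd rfl h

private theorem a5_norm (h0 : SA0) (θ : ℤ) (vt : ℝ) (Q k l1 l2 m1 m2 : ℕ) :
    ‖ph θ vt Q k l1 l2 m1 m2‖ ≤ 1 := by
  unfold ph
  split_ifs
  · rw [norm_mul, h0.1, h0.1, one_mul]
  · rw [norm_zero]
    exact zero_le_one

/-- Equal primes. -/
private theorem a5_eq (θ : ℤ) (vt : ℝ) (Q k l : ℕ) : a5_c θ vt Q (k, l, l) = 0 := by
  classical
  unfold a5_c
  rw [Finset.card_eq_zero, Finset.filter_eq_empty_iff]
  intro x hx h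
  obtain ⟨n, hn, -, h1, h2⟩ := a5_ph h
  simp only at h1 h2
  rw [Finset.mem_product, Finset.mem_Ioc, Finset.mem_Ioc] at hx
  rw [Finset.mem_Ioc] at hn
  have h3 : x.2 ≤ x.1 := by
    by_contra h4
    have h5 : l * x.1 ≤ l * x.2 := Nat.mul_le_mul_left _ (by omega)
    have h6 : k * n = 0 := by omega
    have h7 : k = 0 := by
      rcases Nat.mul_eq_zero.1 h6 with h7 | h7
      · exact h7
      · omega
    unfold ph at h
    rw [if_neg] at h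
    · exact h rfl
    · rintro ⟨h8, -⟩
      simp only at h8
      omega
  have h4 : n ∣ l * (x.1 - x.2) := ⟨k, by rw [Nat.mul_sub, mul_comm n k]; omega⟩
  have h5 : n.Coprime l := Nat.Coprime.coprime_dvd_right (Nat.dvd_mul_right _ _) h2
  have h6 : n ∣ x.1 - x.2 := h5.dvd_of_dvd_mul_left h4
  have h7 : x.1 - x.2 = 0 := Nat.eq_zero_of_dvd_of_lt h6 (by omega)
  have h8 : x.1 = x.2 := by omega
  unfold ph at h
  rw [if_neg] at h
  · exact h rfl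
  · rintro ⟨h9, -⟩
    simp only [h8] at h9
    exact lt_irrefl _ h9

/-- The first prime divides `k`. -/
private theorem a5_one (θ : ℤ) (vt : ℝ) (Q k l1 l2 : ℕ) (hl1 : l1.Prime) (hl2 : l2.Prime)
    (hne : l1 ≠ l2) (hk : l1 ∣ k) :
    a5_c θ vt Q (k, l1, l2) ≤ ((Ioc Q (2 * Q)).filter fun m => l1 ∣ m).card * Q := by
  classical
  have hIoc : (Ioc Q (2 * Q)).card = Q := by
    rw [Nat.card_Ioc]
    omega
  unfold a5_c
  have h1 : ((Ioc Q (2 * Q) ×ˢ Ioc Q (2 * Q)).filter fun x =>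
      ph θ vt Q (k, l1, l2).1 (k, l1, l2).2.1 (k, l1, l2).2.2 x.1 x.2 ≠ 0).card ≤
      (((Ioc Q (2 * Q)).filter fun m => l1 ∣ m) ×ˢ Ioc Q (2 * Q)).card := by
    refine Finset.card_le_card_of_injOn (fun x => (x.2, nn k l1 l2 x.1 x.2)) ?_ ?_
    · intro x hx
      obtain ⟨hx1, hx2⟩ := Finset.mem_filter.1 hx
      obtain ⟨n, hn, hn', h2, -⟩ := a5_ph hx2
      refine Finset.mem_coe.2 (Finset.mem_product.2 ⟨Finset.mem_filter.2
        ⟨(Finset.mem_product.1 hx1).2, ?_⟩, ?_⟩)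
      · have h3 : l1 ∣ l2 * x.2 := by
          have h4 : l1 ∣ l2 * x.2 + k * n := by
            rw [← h2]
            exact Nat.dvd_mul_right _ _
          exact (Nat.dvd_add_left (hk.trans (Nat.dvd_mul_right _ _))).1 h4
        rcases hl1.dvd_mul.1 h3 with h5 | h5
        · exact absurd ((Nat.prime_dvd_prime_iff_eq hl1 hl2).1 h5) hne
        · exact h5
      · rw [hn'] at hn
        exact hn
    · rintro ⟨a, b⟩ hx ⟨a', b'⟩ hx' h
      obtain ⟨hx1, hx2⟩ := Finset.mem_filter.1 hx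
      obtain ⟨hx1', hx2'⟩ := Finset.mem_filter.1 hx'
      obtain ⟨n, hn, hn', h2, -⟩ := a5_ph hx2
      obtain ⟨n', hn2, hn2', h2', -⟩ := a5_ph hx2'
      obtain ⟨h3, h4⟩ := Prod.mk.inj h
      simp only at h2 h2' hn' hn2' h3 h4
      subst h3
      rw [← hn', ← hn2'] at h4
      subst h4
      have h5 : a = a' := Nat.eq_of_mul_eq_mul_left hl1.pos (h2.trans h2'.symm)
      rw [h5]
  rwa [Finset.card_product, hIoc] at h1

/-- The second prime divides `k`. -/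
private theorem a5_two (θ : ℤ) (vt : ℝ) (Q k l1 l2 : ℕ) (hl1 : l1.Prime) (hl2 : l2.Prime)
    (hne : l1 ≠ l2) (hk : l2 ∣ k) :
    a5_c θ vt Q (k, l1, l2) ≤ ((Ioc Q (2 * Q)).filter fun m => l2 ∣ m).card * Q := by
  classical
  have hIoc : (Ioc Q (2 * Q)).card = Q := by
    rw [Nat.card_Ioc]
    omega
  unfold a5_c
  have h1 : ((Ioc Q (2 * Q) ×ˢ Ioc Q (2 * Q)).filter fun x =>
      ph θ vt Q (k, l1, l2).1 (k, l1, l2).2.1 (k, l1, l2).2.2 x.1 x.2 ≠ 0).card ≤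
      (((Ioc Q (2 * Q)).filter fun m => l2 ∣ m) ×ˢ Ioc Q (2 * Q)).card := by
    refine Finset.card_le_card_of_injOn (fun x => (x.1, nn k l1 l2 x.1 x.2)) ?_ ?_
    · intro x hx
      obtain ⟨hx1, hx2⟩ := Finset.mem_filter.1 hx
      obtain ⟨n, hn, hn', h2, -⟩ := a5_ph hx2
      refine Finset.mem_coe.2 (Finset.mem_product.2 ⟨Finset.mem_filter.2
        ⟨(Finset.mem_product.1 hx1).1, ?_⟩, ?_⟩)
      · have h3 : l2 ∣ l1 * x.1 := by
          have h4 : l1 * x.1 = l2 * x.2 + k * n := h2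
          rw [h4]
          exact Nat.dvd_add (Nat.dvd_mul_right _ _) (hk.trans (Nat.dvd_mul_right _ _))
        rcases hl2.dvd_mul.1 h3 with h5 | h5
        · exact absurd ((Nat.prime_dvd_prime_iff_eq hl2 hl1).1 h5).symm hne
        · exact h5
      · rw [hn'] at hn
        exact hn
    · rintro ⟨a, b⟩ hx ⟨a', b'⟩ hx' h
      obtain ⟨hx1, hx2⟩ := Finset.mem_filter.1 hx
      obtain ⟨hx1', hx2'⟩ := Finset.mem_filter.1 hx'
      obtain ⟨n, hn, hn', h2, -⟩ := a5_ph hx2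
      obtain ⟨n', hn2, hn2', h2', -⟩ := a5_ph hx2'
      obtain ⟨h3, h4⟩ := Prod.mk.inj h
      simp only at h2 h2' hn' hn2' h3 h4
      subst h3
      rw [← hn', ← hn2'] at h4
      subst h4
      have h5 : b = b' := Nat.eq_of_mul_eq_mul_left hl2.pos
        (Nat.add_right_cancel (h2.symm.trans h2'))
      rw [h5]
  rwa [Finset.card_product, hIoc] at h1

/-- All together, for one triple. -/
private theorem a5_triple (θ : ℤ) (vt : ℝ) (Q L : ℕ) (Ls : Finset ℕ) (hP : PrL L Ls) (hLQ : L ≤ Q)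
    (κ : ℕ × ℕ × ℕ) (h1 : κ.2.1 ∈ Ls) (h2 : κ.2.2 ∈ Ls)
    (h : ¬ (κ.2.1 ≠ κ.2.2 ∧ ¬ κ.2.1 ∣ κ.1 ∧ ¬ κ.2.2 ∣ κ.1)) :
    L * a5_c θ vt Q κ ≤ (if κ.2.1 ∣ κ.1 then 2 * Q * Q else 0) +
      (if κ.2.2 ∣ κ.1 then 2 * Q * Q else 0) := by
  obtain ⟨k, l1, l2⟩ := κ
  simp only at h1 h2 h ⊢
  by_cases hne : l1 = l2
  · subst hne
    rw [a5_eq, mul_zero]
    exact Nat.zero_le _
  · by_cases hk1 : l1 ∣ k
    · rw [if_pos hk1]
      refine le_trans ?_ (Nat.le_add_right _ _)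
      calc L * a5_c θ vt Q (k, l1, l2)
          ≤ L * (((Ioc Q (2 * Q)).filter fun m => l1 ∣ m).card * Q) :=
            Nat.mul_le_mul_left _ (a5_one θ vt Q k l1 l2 (hP l1 h1).1 (hP l2 h2).1 hne hk1)
        _ = L * ((Ioc Q (2 * Q)).filter fun m => l1 ∣ m).card * Q := by ring
        _ ≤ 2 * Q * Q := Nat.mul_le_mul_right _ (a5_mult Q L l1 (hP l1 h1).2.1 hLQ)
    · by_cases hk2 : l2 ∣ k
      · rw [if_pos hk2]
        refine le_trans ?_ (Nat.le_add_left _ _)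
        calc L * a5_c θ vt Q (k, l1, l2)
            ≤ L * (((Ioc Q (2 * Q)).filter fun m => l2 ∣ m).card * Q) :=
              Nat.mul_le_mul_left _ (a5_two θ vt Q k l1 l2 (hP l1 h1).1 (hP l2 h2).1 hne hk2)
          _ = L * ((Ioc Q (2 * Q)).filter fun m => l2 ∣ m).card * Q := by ring
          _ ≤ 2 * Q * Q := Nat.mul_le_mul_right _ (a5_mult Q L l2 (hP l2 h2).2.1 hLQ)
      · exact absurd ⟨hne, hk1, hk2⟩ h

/-- The number of the terms. -/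
private theorem a5_total (θ : ℤ) (vt : ℝ) (Q L : ℕ) (Ls : Finset ℕ) (hP : PrL L Ls) (hL1 : 1 ≤ L)
    (hLQ : L ≤ Q) :
    ∑ κ ∈ (Ico 1 (8 * L) ×ˢ Ls ×ˢ Ls).filter
      (fun κ => ¬ (κ.2.1 ≠ κ.2.2 ∧ ¬ κ.2.1 ∣ κ.1 ∧ ¬ κ.2.2 ∣ κ.1)), a5_c θ vt Q κ ≤
      84 * Ls.card * Q ^ 2 := by
  have h1 : ∀ l ∈ Ls, ∑ k ∈ Ico 1 (8 * L), (if l ∣ k then 2 * Q * Q else 0) ≤ 7 * (2 * Q * Q) := by
    intro l hl
    rw [← Finset.sum_filter, Finset.sum_const, smul_eq_mul]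
    exact Nat.mul_le_mul_right _ (a5_seven L l (hP l hl).2.1)
  have h2 : L * ∑ κ ∈ (Ico 1 (8 * L) ×ˢ Ls ×ˢ Ls).filter
      (fun κ => ¬ (κ.2.1 ≠ κ.2.2 ∧ ¬ κ.2.1 ∣ κ.1 ∧ ¬ κ.2.2 ∣ κ.1)), a5_c θ vt Q κ ≤
      L * (84 * Ls.card * Q ^ 2) := by
    rw [Finset.mul_sum]
    calc ∑ κ ∈ (Ico 1 (8 * L) ×ˢ Ls ×ˢ Ls).filter
          (fun κ => ¬ (κ.2.1 ≠ κ.2.2 ∧ ¬ κ.2.1 ∣ κ.1 ∧ ¬ κ.2.2 ∣ κ.1)), L * a5_c θ vt Q κ
        ≤ ∑ κ ∈ (Ico 1 (8 * L) ×ˢ Ls ×ˢ Ls).filter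
          (fun κ => ¬ (κ.2.1 ≠ κ.2.2 ∧ ¬ κ.2.1 ∣ κ.1 ∧ ¬ κ.2.2 ∣ κ.1)),
            ((if κ.2.1 ∣ κ.1 then 2 * Q * Q else 0) + (if κ.2.2 ∣ κ.1 then 2 * Q * Q else 0)) := by
          refine Finset.sum_le_sum fun κ hκ => ?_
          obtain ⟨h3, h4⟩ := Finset.mem_filter.1 hκ
          rw [Finset.mem_product, Finset.mem_product] at h3
          exact a5_triple θ vt Q L Ls hP hLQ κ h3.2.1 h3.2.2 h4
      _ ≤ ∑ κ ∈ Ico 1 (8 * L) ×ˢ Ls ×ˢ Ls,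
            ((if κ.2.1 ∣ κ.1 then 2 * Q * Q else 0) + (if κ.2.2 ∣ κ.1 then 2 * Q * Q else 0)) :=
          Finset.sum_le_sum_of_subset (Finset.filter_subset _ _)
      _ = ∑ l1 ∈ Ls, ∑ l2 ∈ Ls, ∑ k ∈ Ico 1 (8 * L),
            ((if l1 ∣ k then 2 * Q * Q else 0) + (if l2 ∣ k then 2 * Q * Q else 0)) := by
          rw [Finset.sum_product, Finset.sum_comm, Finset.sum_product]
      _ ≤ ∑ _l1 ∈ Ls, ∑ _l2 ∈ Ls, 14 * (2 * Q * Q) := by
          refine Finset.sum_le_sum fun l1 hl1 => Finset.sum_le_sum fun l2 hl2 => ?_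
          rw [Finset.sum_add_distrib]
          have := Nat.add_le_add (h1 l1 hl1) (h1 l2 hl2)
          omega
      _ = Ls.card * (Ls.card * (14 * (2 * Q * Q))) := by
          rw [Finset.sum_const, Finset.sum_const, smul_eq_mul, smul_eq_mul]
      _ ≤ (3 * L) * (Ls.card * (14 * (2 * Q * Q))) := Nat.mul_le_mul_right _ (a5_card L Ls hP)
      _ = L * (84 * Ls.card * Q ^ 2) := by ring
  exact Nat.le_of_mul_le_mul_left h2 hL1

theorem tA5 (h0 : SA0) : SA5 := by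
  classical
  intro θ vt α Q L Ls hα hP hL1 hLQ
  set P3 := Ico 1 (8 * L) ×ˢ Ls ×ˢ Ls with hP3
  let F : ℕ × ℕ × ℕ → ℂ := fun κ => ∑ m1 ∈ Ioc Q (2 * Q), ∑ m2 ∈ Ioc Q (2 * Q),
    α m1 * conj (α m2) * ph θ vt Q κ.1 κ.2.1 κ.2.2 m1 m2
  have hTp : Tp θ vt α Q L Ls = ∑ κ ∈ P3, F κ := by
    unfold Tp
    rw [hP3, Finset.sum_product]
    refine Finset.sum_congr rfl fun k _ => ?_
    rw [Finset.sum_product]
  have hTq : Tq θ vt α Q L Ls = ∑ κ ∈ Ks L Ls, F κ := by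
    unfold Tq
    simp only [Finset.mul_sum]
    symm
    rw [Finset.sum_comm]
    refine Finset.sum_congr rfl fun m1 _ => ?_
    rw [Finset.sum_comm]
  have hsplit : Tp θ vt α Q L Ls = Tq θ vt α Q L Ls +
      ∑ κ ∈ P3.filter (fun κ => ¬ (κ.2.1 ≠ κ.2.2 ∧ ¬ κ.2.1 ∣ κ.1 ∧ ¬ κ.2.2 ∣ κ.1)), F κ := by
    rw [hTp, hTq]
    exact (Finset.sum_filter_add_sum_filter_not P3 _ F).symm
  have hF : ∀ κ, ‖F κ‖ ≤ a5_c θ vt Q κ := by
    intro κ
    have h1 : ‖F κ‖ ≤ ∑ m1 ∈ Ioc Q (2 * Q), ∑ m2 ∈ Ioc Q (2 * Q),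
        (if ph θ vt Q κ.1 κ.2.1 κ.2.2 m1 m2 ≠ 0 then (1 : ℝ) else 0) := by
      refine (norm_sum_le _ _).trans (Finset.sum_le_sum fun m1 _ => ?_)
      refine (norm_sum_le _ _).trans (Finset.sum_le_sum fun m2 _ => ?_)
      rw [norm_mul, norm_mul, RCLike.norm_conj]
      split_ifs with h
      · calc ‖α m1‖ * ‖α m2‖ * ‖ph θ vt Q κ.1 κ.2.1 κ.2.2 m1 m2‖ ≤ 1 * 1 * 1 := by
              gcongr
              · exact hα m1
              · exact hα m2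
              · exact a5_norm h0 θ vt Q _ _ _ m1 m2
          _ = 1 := by norm_num
      · rw [not_not] at h
        rw [h, norm_zero, mul_zero]
    refine h1.trans (le_of_eq ?_)
    unfold a5_c
    rw [← Finset.sum_product', ← Finset.sum_filter, Finset.sum_const, nsmul_eq_mul, mul_one]
  have h2 : ‖∑ κ ∈ P3.filter (fun κ => ¬ (κ.2.1 ≠ κ.2.2 ∧ ¬ κ.2.1 ∣ κ.1 ∧ ¬ κ.2.2 ∣ κ.1)), F κ‖ ≤
      84 * Ls.card * (Q : ℝ) ^ 2 := by
    refine (norm_sum_le _ _).trans ((Finset.sum_le_sum fun κ _ => hF κ).trans ?_)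
    have h3 := a5_total θ vt Q L Ls hP hL1 hLQ
    calc ∑ κ ∈ P3.filter (fun κ => ¬ (κ.2.1 ≠ κ.2.2 ∧ ¬ κ.2.1 ∣ κ.1 ∧ ¬ κ.2.2 ∣ κ.1)),
          (a5_c θ vt Q κ : ℝ) = ((∑ κ ∈ P3.filter (fun κ => ¬ (κ.2.1 ≠ κ.2.2 ∧ ¬ κ.2.1 ∣ κ.1 ∧
            ¬ κ.2.2 ∣ κ.1)), a5_c θ vt Q κ : ℕ) : ℝ) := by
          push_cast
          rfl
      _ ≤ ((84 * Ls.card * Q ^ 2 : ℕ) : ℝ) := by
          rw [Nat.cast_le]
          exact h3
      _ = 84 * Ls.card * (Q : ℝ) ^ 2 := by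
          push_cast
          ring
  rw [hsplit]
  refine (norm_add_le _ _).trans ?_
  linarith

end Pool.Agent.Lib.TB
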