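import Pool.Agent.Lib.TB.SpecA

/-! MP_00e23e_nt, Lib/TB, module A6: the Cauchy inequality over `m1`, `m2` -/

namespace Pool.Agent.Lib.TB

open Finset ComplexConjugate Pool.Agent.Lib.EH3

private theorem a6_sum {κ : Type} [DecidableEq κ] (I : Finset ℕ) (K : Finset κ)
    (p : κ → ℕ → ℕ → ℂ) :
    ∑ x ∈ I ×ˢ I, ‖∑ a ∈ K, p a x.1 x.2‖ ^ 2 ≤
      ∑ a ∈ K, ∑ m1 ∈ I, ∑ m2 ∈ I, ‖p a m1 m2‖ ^ 2 +
        ∑ a ∈ K, ∑ b ∈ K.erase a, ∑ m1 ∈ I, ‖∑ m2 ∈ I, p a m1 m2 * conj (p b m1 m2)‖ := by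
  have e2 : ((∑ x ∈ I ×ˢ I, ‖∑ a ∈ K, p a x.1 x.2‖ ^ 2 : ℝ) : ℂ) =
      ∑ a ∈ K, ∑ b ∈ K, ∑ m1 ∈ I, ∑ m2 ∈ I, p a m1 m2 * conj (p b m1 m2) := by
    rw [Finset.sum_product]
    push_cast
    have h : ∀ m1 m2 : ℕ, ((‖∑ a ∈ K, p a m1 m2‖ : ℝ) : ℂ) ^ 2 =
        ∑ a ∈ K, ∑ b ∈ K, p a m1 m2 * conj (p b m1 m2) := by
      intro m1 m2
      rw [← Complex.mul_conj', map_sum, Finset.sum_mul_sum]
    calc ∑ m1 ∈ I, ∑ m2 ∈ I, ((‖∑ a ∈ K, p a m1 m2‖ : ℝ) : ℂ) ^ 2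
        = ∑ m1 ∈ I, ∑ m2 ∈ I, ∑ a ∈ K, ∑ b ∈ K, p a m1 m2 * conj (p b m1 m2) :=
          sum_congr rfl fun m1 _ => sum_congr rfl fun m2 _ => h m1 m2
      _ = ∑ m1 ∈ I, ∑ a ∈ K, ∑ b ∈ K, ∑ m2 ∈ I, p a m1 m2 * conj (p b m1 m2) := by
          refine sum_congr rfl fun m1 _ => ?_
          rw [sum_comm]
          refine sum_congr rfl fun a _ => ?_
          rw [sum_comm]
      _ = ∑ a ∈ K, ∑ b ∈ K, ∑ m1 ∈ I, ∑ m2 ∈ I, p a m1 m2 * conj (p b m1 m2) := by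
          rw [sum_comm]
          refine sum_congr rfl fun a _ => ?_
          rw [sum_comm]
  have e3 : ∑ x ∈ I ×ˢ I, ‖∑ a ∈ K, p a x.1 x.2‖ ^ 2 =
      ‖∑ a ∈ K, ∑ b ∈ K, ∑ m1 ∈ I, ∑ m2 ∈ I, p a m1 m2 * conj (p b m1 m2)‖ := by
    rw [← e2, Complex.norm_real, Real.norm_of_nonneg]
    exact sum_nonneg fun x _ => by positivity
  rw [e3]
  refine (norm_sum_le _ _).trans ?_
  rw [← sum_add_distrib]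
  refine sum_le_sum fun a ha => (norm_sum_le _ _).trans ?_
  rw [← add_sum_erase K _ ha]
  refine add_le_add ?_ (sum_le_sum fun b _ => norm_sum_le _ _)
  refine (norm_sum_le _ _).trans (sum_le_sum fun m1 _ => (norm_sum_le _ _).trans
    (sum_le_sum fun m2 _ => ?_))
  rw [norm_mul, RCLike.norm_conj, sq]

theorem tA6 : SA6 := by
  intro θ vt α Q L Ls hα
  have hcard : (Ioc Q (2 * Q) ×ˢ Ioc Q (2 * Q)).card = Q ^ 2 := by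
    rw [card_product, Nat.card_Ioc, sq]
    congr 1 <;> omega
  have h1 : ‖Tq θ vt α Q L Ls‖ ≤ ∑ x ∈ Ioc Q (2 * Q) ×ˢ Ioc Q (2 * Q),
      ‖∑ κ ∈ Ks L Ls, ph θ vt Q κ.1 κ.2.1 κ.2.2 x.1 x.2‖ := by
    unfold Tq
    rw [Finset.sum_product]
    refine (norm_sum_le _ _).trans (sum_le_sum fun m1 _ => (norm_sum_le _ _).trans
      (sum_le_sum fun m2 _ => ?_))
    rw [norm_mul, norm_mul, RCLike.norm_conj]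
    exact mul_le_of_le_one_left (norm_nonneg _) (mul_le_one₀ (hα _) (norm_nonneg _) (hα _))
  have h2 : (∑ x ∈ Ioc Q (2 * Q) ×ˢ Ioc Q (2 * Q),
      ‖∑ κ ∈ Ks L Ls, ph θ vt Q κ.1 κ.2.1 κ.2.2 x.1 x.2‖) ^ 2 ≤
      (Q : ℝ) ^ 2 * ∑ x ∈ Ioc Q (2 * Q) ×ˢ Ioc Q (2 * Q),
        ‖∑ κ ∈ Ks L Ls, ph θ vt Q κ.1 κ.2.1 κ.2.2 x.1 x.2‖ ^ 2 := by
    have h := sq_sum_le_card_mul_sum_sq (s := Ioc Q (2 * Q) ×ˢ Ioc Q (2 * Q))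
      (f := fun x => ‖∑ κ ∈ Ks L Ls, ph θ vt Q κ.1 κ.2.1 κ.2.2 x.1 x.2‖)
    rwa [hcard, Nat.cast_pow] at h
  refine (pow_le_pow_left₀ (norm_nonneg _) h1 2).trans (h2.trans ?_)
  exact mul_le_mul_of_nonneg_left (a6_sum (Ioc Q (2 * Q)) (Ks L Ls)
    (fun κ m1 m2 => ph θ vt Q κ.1 κ.2.1 κ.2.2 m1 m2)) (by positivity)

end Pool.Agent.Lib.TB
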