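import Pool.Agent.Lib.TB.SpecA

/-! MP_00e23e_nt, Lib/TB, module A7: the determinant is not zero -/

namespace Pool.Agent.Lib.TB

open Finset ComplexConjugate Pool.Agent.Lib.EH3

/-- a prime `p` which divides `(p - q) k a b` up to sign and not `k` is `a` or `b` -/
private theorem a7_mem {p q k a b : ℕ} (hp : p.Prime) (hq : q.Prime) (ha : a.Prime) (hb : b.Prime)
    (hpq : p ≠ q) (hk : ¬ p ∣ k) {c : ℤ} (h : ((p : ℤ) - q) * k * a * b = p * c) :
    p = a ∨ p = b := by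
  have hp' : Prime (p : ℤ) := Nat.prime_iff_prime_int.1 hp
  have h1 : (p : ℤ) ∣ ((p : ℤ) - q) * k * a * b := ⟨c, h⟩
  rcases hp'.dvd_or_dvd h1 with h2 | h2
  · rcases hp'.dvd_or_dvd h2 with h3 | h3
    · rcases hp'.dvd_or_dvd h3 with h4 | h4
      · exfalso
        have h5 : (p : ℤ) ∣ q := by
          have h6 := dvd_sub (dvd_refl (p : ℤ)) h4
          rwa [sub_sub_cancel] at h6
        exact hpq ((Nat.prime_dvd_prime_iff_eq hp hq).1 (by exact_mod_cast h5))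
      · exact absurd (by exact_mod_cast h4) hk
    · left
      exact (Nat.prime_dvd_prime_iff_eq hp ha).1 (by exact_mod_cast h3)
  · right
    exact (Nat.prime_dvd_prime_iff_eq hp hb).1 (by exact_mod_cast h2)

theorem tA7 : SA7 := by
  rintro L Ls hLs ⟨k, l1, l2⟩ ⟨k', l1', l2'⟩ hκ hκ' hne hD
  simp only [Ks, mem_filter, mem_product, mem_Ico] at hκ hκ'
  obtain ⟨⟨⟨hk1, -⟩, hl1, hl2⟩, hll, hd1, hd2⟩ := hκ
  obtain ⟨⟨⟨hk1', -⟩, hl1', hl2'⟩, hll', hd1', hd2'⟩ := hκ'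
  have hp1 := (hLs l1 hl1).1
  have hp2 := (hLs l2 hl2).1
  have hp1' := (hLs l1' hl1').1
  have hp2' := (hLs l2' hl2').1
  have hD' : ((l1 : ℤ) - l2) * k * l1' * l2' = ((l1' : ℤ) - l2') * k' * l1 * l2 := by
    simp only [Dt] at hD
    linarith
  have h1 := a7_mem hp1 hp2 hp1' hp2' hll hd1 (c := ((l1' : ℤ) - l2') * k' * l2)
    (by rw [hD']; ring)
  have h2 := a7_mem hp2 hp1 hp1' hp2' (Ne.symm hll) hd2 (c := -(((l1' : ℤ) - l2') * k' * l1))
    (by linear_combination -hD')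
  have hz1 : (l1 : ℤ) ≠ 0 := by exact_mod_cast hp1.ne_zero
  have hz2 : (l2 : ℤ) ≠ 0 := by exact_mod_cast hp2.ne_zero
  have hz : (l1 : ℤ) - l2 ≠ 0 := by
    rw [sub_ne_zero]
    exact_mod_cast hll
  have hzz : ((l1 : ℤ) - l2) * l1 * l2 ≠ 0 := mul_ne_zero (mul_ne_zero hz hz1) hz2
  rcases h1 with h1 | h1 <;> rcases h2 with h2 | h2
  · exact hll (h1.trans h2.symm)
  · apply hne
    subst h1
    subst h2
    have h3 : (((l1 : ℤ) - l2) * l1 * l2) * (k : ℤ) = (((l1 : ℤ) - l2) * l1 * l2) * (k' : ℤ) := by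
      linear_combination hD'
    have h4 : (k : ℤ) = k' := mul_left_cancel₀ hzz h3
    have h5 : k = k' := by exact_mod_cast h4
    rw [h5]
  · subst h1
    subst h2
    have h3 : (((l1 : ℤ) - l2) * l1 * l2) * (k : ℤ) = (((l1 : ℤ) - l2) * l1 * l2) * (-(k' : ℤ)) := by
      linear_combination hD'
    have h4 : (k : ℤ) = -(k' : ℤ) := mul_left_cancel₀ hzz h3
    omega
  · exact hll (h1.trans h2.symm)

end Pool.Agent.Lib.TB
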