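import Pool.Agent.Lib.TB.SpecA

/-!
MP_00e23e_nt, directory Lib/TB: the diagonal terms after the second Cauchy inequality.
-/

namespace Pool.Agent.Lib.TB

open Finset ComplexConjugate Pool.Agent.Lib.EH3

/-- The integers of one residue class in `(Q, 2 Q]`. -/
theorem a8_class (Q l : ℕ) (S : Finset ℕ) (h1 : ∀ m ∈ S, Q < m ∧ m ≤ 2 * Q)
    (h2 : ∀ m ∈ S, ∀ m' ∈ S, (l : ℤ) ∣ (m : ℤ) - m') : S.card ≤ Q / l + 1 := by
  have h3 : S.card ≤ (Finset.range (Q / l + 1)).card := by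
    apply Finset.card_le_card_of_injOn (fun m => (m - Q) / l)
    · intro m hm
      have h4 := h1 m hm
      rw [Finset.mem_coe, Finset.mem_range]
      exact Nat.lt_succ_of_le (Nat.div_le_div_right (by omega))
    · intro m hm m' hm' h
      have h4 := h1 m hm
      have h5 := h1 m' hm'
      have h6 : m' - Q ≡ m - Q [MOD l] := by
        rw [Nat.modEq_iff_dvd]
        have h7 := h2 m hm m' hm'
        have h8 : ((m - Q : ℕ) : ℤ) - ((m' - Q : ℕ) : ℤ) = (m : ℤ) - m' := by omega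
        rw [h8]
        exact h7
      have h7 : (m - Q) / l = (m' - Q) / l := h
      have h8 := Nat.div_add_mod (m - Q) l
      have h9 := Nat.div_add_mod (m' - Q) l
      have h10 : (m' - Q) % l = (m - Q) % l := h6
      rw [h7] at h8
      omega
  rwa [Finset.card_range] at h3

/-- The number of the pairs for one `n`. -/
theorem a8_pairs (Q k l1 l2 n : ℕ) (h1 : l1.Prime) (h2 : l2.Prime) (hne : l1 ≠ l2) :
    ((Ioc Q (2 * Q) ×ˢ Ioc Q (2 * Q)).filter fun x => l1 * x.1 = l2 * x.2 + k * n).card ≤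
      Q / l2 + 1 := by
  set S := (Ioc Q (2 * Q) ×ˢ Ioc Q (2 * Q)).filter fun x => l1 * x.1 = l2 * x.2 + k * n with hS
  have h3 : (S.image Prod.fst).card = S.card := by
    apply Finset.card_image_of_injOn
    intro x hx y hy hxy
    have hx2 := (Finset.mem_filter.1 (Finset.mem_coe.1 hx)).2
    have hy2 := (Finset.mem_filter.1 (Finset.mem_coe.1 hy)).2
    have h4 : l2 * x.2 = l2 * y.2 := by
      have h5 : x.1 = y.1 := hxy
      rw [h5] at hx2
      omega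
    exact Prod.ext hxy (Nat.eq_of_mul_eq_mul_left h2.pos h4)
  rw [← h3]
  apply a8_class
  · intro m hm
    obtain ⟨x, hx, rfl⟩ := Finset.mem_image.1 hm
    have hx1 := (Finset.mem_filter.1 hx).1
    rw [Finset.mem_product, mem_Ioc] at hx1
    exact hx1.1
  · intro m hm m' hm'
    obtain ⟨x, hx, rfl⟩ := Finset.mem_image.1 hm
    obtain ⟨y, hy, rfl⟩ := Finset.mem_image.1 hm'
    have hx2 := (Finset.mem_filter.1 hx).2
    have hy2 := (Finset.mem_filter.1 hy).2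
    have h4 : IsCoprime (l2 : ℤ) (l1 : ℤ) :=
      Nat.isCoprime_iff_coprime.2 ((Nat.coprime_primes h2 h1).2 (Ne.symm hne))
    apply h4.dvd_of_dvd_mul_left
    refine ⟨(x.2 : ℤ) - y.2, ?_⟩
    have hx3 : (l1 : ℤ) * x.1 = l2 * x.2 + k * n := by exact_mod_cast hx2
    have hy3 : (l1 : ℤ) * y.1 = l2 * y.2 + k * n := by exact_mod_cast hy2
    linear_combination hx3 - hy3

/-- The phase is zero or there is exactly one complementary divisor. -/
theorem a8_ph (h0 : SA0) (θ : ℤ) (vt : ℝ) (Q k l1 l2 m1 m2 : ℕ) :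
    ‖ph θ vt Q k l1 l2 m1 m2‖ ^ 2 ≤
      ∑ n ∈ Ioc Q (2 * Q), if l1 * m1 = l2 * m2 + k * n then (1 : ℝ) else 0 := by
  unfold ph
  split_ifs with h
  · obtain ⟨ha, hb, hc, hd, -⟩ := h
    rw [norm_mul, h0.1, h0.1, mul_one, one_pow]
    have h1 : l1 * m1 = l2 * m2 + k * nn k l1 l2 m1 m2 := by
      unfold nn
      rw [Nat.mul_div_cancel' hb]
      omega
    have h2 : (1 : ℝ) = if l1 * m1 = l2 * m2 + k * nn k l1 l2 m1 m2 then (1 : ℝ) else 0 := by
      rw [if_pos h1]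
    calc (1 : ℝ) = if l1 * m1 = l2 * m2 + k * nn k l1 l2 m1 m2 then (1 : ℝ) else 0 := h2
      _ ≤ _ := Finset.single_le_sum
          (f := fun n => if l1 * m1 = l2 * m2 + k * n then (1 : ℝ) else 0)
          (fun n _ => by split_ifs <;> norm_num) (mem_Ioc.2 ⟨hc, hd⟩)
  · rw [norm_zero]
    have : (0 : ℝ) ^ 2 = 0 := by norm_num
    rw [this]
    exact Finset.sum_nonneg fun n _ => by split_ifs <;> norm_num

theorem tA8 (h0 : SA0) : SA8 := by
  intro θ vt Q L Ls hP hL hQ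
  have hL0 : (0 : ℝ) < L := by exact_mod_cast hL
  have hQ0 : (L : ℝ) ≤ Q := by exact_mod_cast hQ
  have h1 : ∀ κ ∈ Ks L Ls, ∑ m1 ∈ Ioc Q (2 * Q), ∑ m2 ∈ Ioc Q (2 * Q),
      ‖ph θ vt Q κ.1 κ.2.1 κ.2.2 m1 m2‖ ^ 2 ≤ (Q : ℝ) * (2 * Q / L) := by
    rintro ⟨k, l1, l2⟩ hκ
    unfold Ks at hκ
    rw [Finset.mem_filter, Finset.mem_product, Finset.mem_product] at hκ
    obtain ⟨⟨hk, hl1, hl2⟩, hne, -, -⟩ := hκ
    obtain ⟨p1, q1, r1⟩ := hP l1 hl1
    obtain ⟨p2, q2, r2⟩ := hP l2 hl2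
    calc ∑ m1 ∈ Ioc Q (2 * Q), ∑ m2 ∈ Ioc Q (2 * Q), ‖ph θ vt Q k l1 l2 m1 m2‖ ^ 2
        ≤ ∑ m1 ∈ Ioc Q (2 * Q), ∑ m2 ∈ Ioc Q (2 * Q),
            ∑ n ∈ Ioc Q (2 * Q), if l1 * m1 = l2 * m2 + k * n then (1 : ℝ) else 0 :=
          Finset.sum_le_sum fun m1 _ => Finset.sum_le_sum fun m2 _ => a8_ph h0 θ vt Q k l1 l2 m1 m2
      _ = ∑ n ∈ Ioc Q (2 * Q), ∑ x ∈ Ioc Q (2 * Q) ×ˢ Ioc Q (2 * Q),
            if l1 * x.1 = l2 * x.2 + k * n then (1 : ℝ) else 0 := by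
          rw [← Finset.sum_product', Finset.sum_comm]
      _ ≤ ∑ n ∈ Ioc Q (2 * Q), (2 * Q / L : ℝ) := by
          apply Finset.sum_le_sum
          intro n _
          rw [Finset.sum_boole]
          calc _ ≤ ((Q / l2 + 1 : ℕ) : ℝ) := by
                exact_mod_cast a8_pairs Q k l1 l2 n p1 p2 hne
            _ = ((Q / l2 : ℕ) : ℝ) + 1 := by push_cast; ring
            _ ≤ (Q : ℝ) / l2 + 1 := by gcongr; exact Nat.cast_div_le
            _ ≤ (Q : ℝ) / L + Q / L := by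
                apply add_le_add
                · apply div_le_div_of_nonneg_left (by positivity) hL0
                  exact_mod_cast q2.le
                · rw [le_div_iff₀ hL0, one_mul]
                  exact hQ0
            _ = 2 * Q / L := by ring
      _ = (Q : ℝ) * (2 * Q / L) := by
          rw [Finset.sum_const, Nat.card_Ioc, nsmul_eq_mul]
          congr 2
          omega
  have h2 : ((Ks L Ls).card : ℝ) ≤ 8 * L * (Ls.card : ℝ) ^ 2 := by
    have h3 : (Ks L Ls).card ≤ 8 * L * (Ls.card * Ls.card) := by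
      unfold Ks
      refine (Finset.card_filter_le _ _).trans ?_
      rw [Finset.card_product, Finset.card_product, Nat.card_Ico]
      exact Nat.mul_le_mul_right _ (by omega)
    calc ((Ks L Ls).card : ℝ) ≤ ((8 * L * (Ls.card * Ls.card) : ℕ) : ℝ) := by exact_mod_cast h3
      _ = 8 * L * (Ls.card : ℝ) ^ 2 := by push_cast; ring
  calc ∑ κ ∈ Ks L Ls, ∑ m1 ∈ Ioc Q (2 * Q), ∑ m2 ∈ Ioc Q (2 * Q),
      ‖ph θ vt Q κ.1 κ.2.1 κ.2.2 m1 m2‖ ^ 2
      ≤ ∑ κ ∈ Ks L Ls, (Q : ℝ) * (2 * Q / L) := Finset.sum_le_sum h1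
    _ = ((Ks L Ls).card : ℝ) * ((Q : ℝ) * (2 * Q / L)) := by
        rw [Finset.sum_const, nsmul_eq_mul]
    _ ≤ (8 * L * (Ls.card : ℝ) ^ 2) * ((Q : ℝ) * (2 * Q / L)) := by gcongr
    _ = 16 * (Ls.card : ℝ) ^ 2 * (Q : ℝ) ^ 2 := by
        field_simp
        ring

end Pool.Agent.Lib.TB
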