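import Pool.Agent.Lib.TB.SpecA

/-!
MP_00e23e_nt, Lib/TB, module A9: the bound for Tq.
-/

namespace Pool.Agent.Lib.TB

open Finset ComplexConjugate Pool.Agent.Lib.EH3

theorem A9_card (L : ℕ) (Ls : Finset ℕ) : ((Ks L Ls).card : ℝ) ≤ 8 * (L : ℝ) * (Ls.card : ℝ) ^ 2 := by
  have h1 : (Ks L Ls).card ≤ (8 * L) * (Ls.card * Ls.card) := by
    unfold Ks
    refine (Finset.card_filter_le _ _).trans ?_
    rw [Finset.card_product, Finset.card_product, Nat.card_Ico]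
    exact Nat.mul_le_mul_right _ (Nat.sub_le _ _)
  have h2 : ((Ks L Ls).card : ℝ) ≤ (((8 * L) * (Ls.card * Ls.card) : ℕ) : ℝ) := by exact_mod_cast h1
  refine h2.trans (le_of_eq ?_)
  push_cast
  ring

theorem A9_mem {L : ℕ} {Ls : Finset ℕ} (hP : PrL L Ls) {κ : ℕ × ℕ × ℕ} (hκ : κ ∈ Ks L Ls) :
    1 ≤ κ.1 ∧ κ.1 ≤ 8 * L ∧ 1 ≤ κ.2.1 ∧ κ.2.1 ≤ 4 * L ∧ 1 ≤ κ.2.2 ∧ κ.2.2 ≤ 4 * L ∧ κ.2.2 ≤ 4 * κ.2.1 := by
  unfold Ks at hκ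
  rw [mem_filter, mem_product, mem_product, mem_Ico] at hκ
  obtain ⟨⟨⟨h1, h2⟩, h3, h4⟩, _⟩ := hκ
  obtain ⟨_, h5, h6⟩ := hP _ h3
  obtain ⟨_, h7, h8⟩ := hP _ h4
  refine ⟨h1, h2.le, by omega, h6, by omega, h8, by omega⟩

theorem tA9 (h6 : SA6) (h7 : SA7) (h8 : SA8) (hK : StK) : SA9 := by
  intro ε hε
  obtain ⟨C0, hC0, hC⟩ := hK ε hε
  refine ⟨65536 * (16384 : ℝ) ^ ε * C0, by positivity, ?_⟩
  intro θ vt α Q L Ls hα hP hL hLQ hθ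
  refine (h6 θ vt α Q L Ls hα).trans ?_
  refine mul_le_mul_of_nonneg_left ?_ (by positivity)
  refine add_le_add (h8 θ vt Q L Ls hP hL hLQ) ?_
  have hL1 : (1 : ℝ) ≤ L := by exact_mod_cast hL
  have hQ1 : (1 : ℝ) ≤ Q := by exact_mod_cast (hL.trans hLQ)
  have hV : 0 ≤ 1 + (|(θ : ℝ)| + |vt|) / (Q : ℝ) ^ 2 := by positivity
  set V := 1 + (|(θ : ℝ)| + |vt|) / (Q : ℝ) ^ 2 with hVdef
  set N : ℝ := (Ls.card : ℝ) with hN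
  have hN0 : 0 ≤ N := by positivity
  -- the bound for one pair
  set B : ℝ := C0 * (1024 * (L : ℝ) ^ 4) * (|(θ : ℝ)| * (16384 * (L : ℝ) ^ 6) * Q) ^ ε * (Q : ℝ) ^ (7 / 4 : ℝ) * V with hB
  have hB0 : 0 ≤ B := by positivity
  have h1 : ∀ κ ∈ Ks L Ls, ∀ κ' ∈ (Ks L Ls).erase κ, ∑ m1 ∈ Ioc Q (2 * Q),
      ‖∑ m2 ∈ Ioc Q (2 * Q), ph θ vt Q κ.1 κ.2.1 κ.2.2 m1 m2 *
        conj (ph θ vt Q κ'.1 κ'.2.1 κ'.2.2 m1 m2)‖ ≤ B := by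
    intro κ hκ κ' hκ'
    rw [mem_erase] at hκ'
    obtain ⟨a1, a2, a3, a4, a5, a6, a7⟩ := A9_mem hP hκ
    obtain ⟨b1, b2, b3, b4, b5, b6, b7⟩ := A9_mem hP hκ'.2
    have hD := h7 L Ls hP κ κ' hκ hκ'.2 (Ne.symm hκ'.1)
    refine (hC Q κ.1 κ.2.1 κ.2.2 κ'.1 κ'.2.1 κ'.2.2 θ vt (hL.trans hLQ) a1 a3 a5 b1 b3 b5 a7 b7 hθ hD).trans ?_
    have a2' : (κ.1 : ℝ) ≤ 8 * L := by exact_mod_cast a2
    have a4' : (κ.2.1 : ℝ) ≤ 4 * L := by exact_mod_cast a4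
    have a6' : (κ.2.2 : ℝ) ≤ 4 * L := by exact_mod_cast a6
    have b2' : (κ'.1 : ℝ) ≤ 8 * L := by exact_mod_cast b2
    have b4' : (κ'.2.1 : ℝ) ≤ 4 * L := by exact_mod_cast b4
    have b6' : (κ'.2.2 : ℝ) ≤ 4 * L := by exact_mod_cast b6
    have c1 : (κ.1 : ℝ) * κ'.1 * κ.2.1 * κ'.2.1 ≤ 1024 * (L : ℝ) ^ 4 := by
      calc (κ.1 : ℝ) * κ'.1 * κ.2.1 * κ'.2.1 ≤ (8 * L) * (8 * L) * (4 * L) * (4 * L) := by gcongr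
        _ = 1024 * (L : ℝ) ^ 4 := by ring
    have c2 : ((κ.1 : ℝ) * κ'.1 * κ.2.1 * κ.2.2 * κ'.2.1 * κ'.2.2 : ℝ) ≤ 16384 * (L : ℝ) ^ 6 := by
      calc (κ.1 : ℝ) * κ'.1 * κ.2.1 * κ.2.2 * κ'.2.1 * κ'.2.2 ≤
          (8 * L) * (8 * L) * (4 * L) * (4 * L) * (4 * L) * (4 * L) := by gcongr
        _ = 16384 * (L : ℝ) ^ 6 := by ring
    rw [hB]
    refine mul_le_mul_of_nonneg_right ?_ hV
    refine mul_le_mul_of_nonneg_right ?_ (by positivity)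
    refine mul_le_mul (mul_le_mul_of_nonneg_left c1 hC0.le) ?_ (by positivity) (by positivity)
    refine Real.rpow_le_rpow (by positivity) ?_ hε.le
    refine mul_le_mul_of_nonneg_right ?_ (by positivity)
    exact mul_le_mul_of_nonneg_left c2 (abs_nonneg _)
  have h2 : ∑ κ ∈ Ks L Ls, ∑ κ' ∈ (Ks L Ls).erase κ, ∑ m1 ∈ Ioc Q (2 * Q),
      ‖∑ m2 ∈ Ioc Q (2 * Q), ph θ vt Q κ.1 κ.2.1 κ.2.2 m1 m2 *
        conj (ph θ vt Q κ'.1 κ'.2.1 κ'.2.2 m1 m2)‖ ≤ ((Ks L Ls).card : ℝ) * (((Ks L Ls).card : ℝ) * B) := by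
    have h3 : ∀ κ ∈ Ks L Ls, ∑ κ' ∈ (Ks L Ls).erase κ, ∑ m1 ∈ Ioc Q (2 * Q),
      ‖∑ m2 ∈ Ioc Q (2 * Q), ph θ vt Q κ.1 κ.2.1 κ.2.2 m1 m2 *
        conj (ph θ vt Q κ'.1 κ'.2.1 κ'.2.2 m1 m2)‖ ≤ ((Ks L Ls).card : ℝ) * B := by
      intro κ hκ
      have h4 := Finset.sum_le_card_nsmul _ _ B (h1 κ hκ)
      rw [nsmul_eq_mul] at h4
      refine h4.trans (mul_le_mul_of_nonneg_right ?_ hB0)
      exact_mod_cast Finset.card_le_card (Finset.erase_subset _ _)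
    have h5 := Finset.sum_le_card_nsmul _ _ _ h3
    rw [nsmul_eq_mul] at h5
    exact h5
  refine h2.trans ?_
  have hcard := A9_card L Ls
  have h3 : ((Ks L Ls).card : ℝ) * (((Ks L Ls).card : ℝ) * B) ≤
      (8 * (L : ℝ) * N ^ 2) * ((8 * (L : ℝ) * N ^ 2) * B) := by
    refine mul_le_mul hcard (mul_le_mul_of_nonneg_right hcard hB0) (by positivity) (by positivity)
  refine h3.trans (le_of_eq ?_)
  have h4 : (|(θ : ℝ)| * (16384 * (L : ℝ) ^ 6) * Q) ^ ε =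
      (16384 : ℝ) ^ ε * (|(θ : ℝ)| * (L : ℝ) ^ 6 * Q) ^ ε := by
    rw [← Real.mul_rpow (by norm_num) (by positivity)]
    congr 1
    ring
  rw [hB, h4]
  ring

end Pool.Agent.Lib.TB
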