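import Pool.Agent.Lib.TB.SpecK

/-! MP_00e23e_nt, Lib/TB: module Apk (complete sums over a progression are Kloosterman sums). -/

namespace Pool.Agent.Lib.TB

open Finset Pool.Agent.Lib.EH3

private lemma Apk_term {b s q j x : ℕ} {c : ℤ} (hb : 1 ≤ b) (hq : q.Coprime b) :
    (if (s + q * x).Coprime b then ee ((c : ℝ) * (iv (s + q * x) b : ℝ) / b) else 0) *
      ee ((j : ℝ) * x / b) =
    ee ((((-((j : ℤ) * iv q b * s)) : ℤ) : ℝ) / b) *
      (if ((s + q * x) % b).Coprime b then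
        ee (((c : ℝ) * (iv ((s + q * x) % b) b : ℝ) +
          (((j : ℤ) * iv q b : ℤ) : ℝ) * (((s + q * x) % b : ℕ) : ℝ)) / (b : ℝ)) else 0) := by
  have hy : (s + q * x) % b ≡ s + q * x [MOD b] := Nat.mod_modEq _ _
  generalize (s + q * x) % b = y at hy ⊢
  have hc : y.Coprime b ↔ (s + q * x).Coprime b := by
    unfold Nat.Coprime
    rw [hy.gcd_eq]
  rw [iv_congr hy]
  by_cases h : (s + q * x).Coprime b
  · rw [if_pos h, if_pos (hc.2 h), ← ee_add, ← ee_add]
    have e1 : (c : ℝ) * (iv (s + q * x) b : ℝ) / b + (j : ℝ) * x / b =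
        (((c * (iv (s + q * x) b : ℤ) + (j : ℤ) * x : ℤ)) : ℝ) / b := by
      push_cast
      ring
    have e2 : (((-((j : ℤ) * iv q b * s)) : ℤ) : ℝ) / b +
        ((c : ℝ) * (iv (s + q * x) b : ℝ) +
          (((j : ℤ) * iv q b : ℤ) : ℝ) * (y : ℝ)) / (b : ℝ) =
        (((-((j : ℤ) * iv q b * s) + (c * (iv (s + q * x) b : ℤ) +
          ((j : ℤ) * iv q b) * (y : ℤ)) : ℤ)) : ℝ) / b := by
      push_cast
      ring
    rw [e1, e2]
    apply ee_congr
    obtain ⟨u, hu⟩ := iv_dvd hq hb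
    obtain ⟨v, hv⟩ := Nat.modEq_iff_dvd.1 hy
    refine ⟨(j : ℤ) * (iv q b * v - u * x), ?_⟩
    have hv' : (y : ℤ) = ((s + q * x : ℕ) : ℤ) - b * v := by linarith
    rw [hv']
    push_cast
    linear_combination (-(j : ℤ) * x) * hu
  · rw [if_neg h, if_neg (fun h' => h (hc.1 h')), zero_mul, mul_zero]

theorem tApk : ApkStmt := by
  intro b s q j c hb hq
  refine ⟨(j : ℤ) * iv q b, ?_⟩
  have hsum : ∑ x ∈ range b, (if (s + q * x).Coprime b then
        ee ((c : ℝ) * (iv (s + q * x) b : ℝ) / b) else 0) * ee ((j : ℝ) * x / b) =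
      ∑ y ∈ range b, ee ((((-((j : ℤ) * iv q b * s)) : ℤ) : ℝ) / b) *
        (if y.Coprime b then
          ee (((c : ℝ) * (iv y b : ℝ) + (((j : ℤ) * iv q b : ℤ) : ℝ) * ((y : ℕ) : ℝ)) /
            (b : ℝ)) else 0) := by
    have hmap : ∀ x ∈ range b, (s + q * x) % b ∈ range b := fun x _ =>
      mem_range.2 (Nat.mod_lt _ (by omega))
    have hinj : Set.InjOn (fun x => (s + q * x) % b) (range b : Set ℕ) := by
      intro x hx y hy hxy
      have h1 : s + q * x ≡ s + q * y [MOD b] := hxy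
      have h2 : q * x ≡ q * y [MOD b] := Nat.ModEq.add_left_cancel' s h1
      have h3 : x ≡ y [MOD b] := Nat.ModEq.cancel_left_of_coprime
        (by rw [Nat.gcd_comm]; exact hq) h2
      exact h3.eq_of_lt_of_lt (mem_range.1 hx) (mem_range.1 hy)
    refine Finset.sum_nbij (fun x => (s + q * x) % b) hmap hinj
      (Finset.surjOn_of_injOn_of_card_le _ hmap hinj le_rfl) ?_
    intro x _
    exact Apk_term hb hq
  rw [hsum, ← Finset.mul_sum, norm_mul, norm_ee, one_mul, kl, Finset.sum_filter]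

end Pool.Agent.Lib.TB
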