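import Pool.Agent.Lib.TB.SpecK

/-!
MP_00e23e_nt, directory Lib/TB, module Cin: the sum over one class.
-/

namespace Pool.Agent.Lib.TB

open Finset Pool.Agent.Lib.EH3

/-- bounds for u in the window -/
private lemma Cin_u {Q k l1 l2 m1 m2 : ℕ} (hQ : 1 ≤ Q) (hk : 1 ≤ k) (h : Win Q k l1 l2 m1 m2) :
    0 < (l1 : ℝ) * m1 - (l2 : ℝ) * m2 ∧
      |(k : ℝ) / ((l1 : ℝ) * m1 - (l2 : ℝ) * m2)| ≤ 1 / Q := by
  have h1 : (k : ℝ) * Q + l2 * m2 < l1 * m1 := by exact_mod_cast h.1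
  have hQ' : (1 : ℝ) ≤ Q := by exact_mod_cast hQ
  have hk' : (1 : ℝ) ≤ k := by exact_mod_cast hk
  have h2 : (0 : ℝ) < k * Q := by positivity
  have h3 : 0 < (l1 : ℝ) * m1 - (l2 : ℝ) * m2 := by linarith
  refine ⟨h3, ?_⟩
  rw [abs_of_pos (by positivity), div_le_div_iff₀ h3 (by positivity)]
  linarith

private lemma Cin_A {θ : ℤ} {Q l1 l2 m1 : ℕ} (hQ : 1 ≤ Q) (hl1 : 1 ≤ l1) (h4 : l2 ≤ 4 * l1)
    (hm : Q < m1) : |(θ : ℝ) * ((l1 : ℝ) - l2) / ((l1 : ℝ) * m1)| ≤ 3 * |(θ : ℝ)| / Q := by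
  have hQ' : (0 : ℝ) < Q := by exact_mod_cast hQ
  have hl' : (0 : ℝ) < l1 := by exact_mod_cast hl1
  have hm' : (Q : ℝ) ≤ m1 := by exact_mod_cast hm.le
  have hm0 : (0 : ℝ) < m1 := by linarith
  have h4' : (l2 : ℝ) ≤ 4 * l1 := by exact_mod_cast h4
  have h20 : (0 : ℝ) ≤ l2 := by positivity
  have h5 : |(l1 : ℝ) - l2| ≤ 3 * l1 := by
    rw [abs_le]
    constructor <;> linarith
  rw [abs_div, abs_mul, abs_of_pos (show (0 : ℝ) < (l1 : ℝ) * m1 by positivity)]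
  rw [div_le_div_iff₀ (by positivity) hQ']
  have h6 : |(θ : ℝ)| * |(l1 : ℝ) - l2| ≤ |(θ : ℝ)| * (3 * l1) :=
    mul_le_mul_of_nonneg_left h5 (abs_nonneg _)
  have h7 : 0 ≤ |(θ : ℝ)| * (3 * l1) := by positivity
  calc |(θ : ℝ)| * |(l1 : ℝ) - l2| * Q ≤ |(θ : ℝ)| * (3 * l1) * m1 :=
        mul_le_mul h6 hm' hQ'.le h7
    _ = 3 * |(θ : ℝ)| * ((l1 : ℝ) * m1) := by ring

private lemma Cin_Kb (c : ℤ) (q : ℕ) : 0 ≤ Kb c q := by
  unfold Kb
  positivity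

theorem tCin (h1 : IncStmt) (h2 : WtStmt) (h3 : CprStmt) (h4 : ItvStmt) : CinStmt := by
  intro θ ϑ Q k l1 l2 k' l1' l2' a b r hQ hk hl1 hl2 hk' hl1' hl2' ha hb h41 h41' hc1 hc2 hQab hr
  obtain ⟨c, hc, hph⟩ := h3 θ ϑ Q k l1 l2 k' l1' l2' a b r hk hl1 hl2 hk' hl1' hl2' ha hb hc1 hc2
  have hbk : b.Coprime k := Nat.Coprime.coprime_dvd_right ⟨l1 * l2 * a, by ring⟩ hc1
  have hbl1 : b.Coprime l1 := Nat.Coprime.coprime_dvd_right ⟨k * l2 * a, by ring⟩ hc1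
  have hbl2 : b.Coprime l2 := Nat.Coprime.coprime_dvd_right ⟨k * l1 * a, by ring⟩ hc1
  have hba : b.Coprime a := Nat.Coprime.coprime_dvd_right ⟨k * l1 * l2, by ring⟩ hc1
  have hbk' : b.Coprime k' := Nat.Coprime.coprime_dvd_right ⟨l1' * l2' * a, by ring⟩ hc2
  have hbl1' : b.Coprime l1' := Nat.Coprime.coprime_dvd_right ⟨k' * l2' * a, by ring⟩ hc2
  have hbl2' : b.Coprime l2' := Nat.Coprime.coprime_dvd_right ⟨k' * l1' * a, by ring⟩ hc2
  obtain ⟨q, hq⟩ : ∃ q, q = k * k' * l1 * l1' * a := ⟨_, rfl⟩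
  obtain ⟨w, hw⟩ : ∃ w, w = l1 * l2 * l1' * l2' * a := ⟨_, rfl⟩
  rw [← hq] at hr hph ⊢
  rw [← hw] at hph
  have hpos : 1 ≤ k * k' * l1 * l1' := Nat.mul_pos (Nat.mul_pos (Nat.mul_pos hk hk') hl1) hl1'
  have hqa : a ≤ q := by
    rw [hq]
    exact Nat.le_mul_of_pos_left a hpos
  have hq1 : 1 ≤ q := le_trans ha hqa
  have hqb : q.Coprime b := by
    rw [hq]
    exact (Nat.Coprime.mul_right (Nat.Coprime.mul_right (Nat.Coprime.mul_right
      (Nat.Coprime.mul_right hbk hbk') hbl1) hbl1') hba).symm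
  have hwb : w.Coprime b := by
    rw [hw]
    exact (Nat.Coprime.mul_right (Nat.Coprime.mul_right (Nat.Coprime.mul_right
      (Nat.Coprime.mul_right hbl1 hbl2) hbl1') hbl2') hba).symm
  obtain ⟨m1, hm1⟩ : ∃ m1, m1 = a * b := ⟨_, rfl⟩
  rw [← hm1] at hQab hph ⊢
  obtain ⟨T1, T2, hT, hlen, hiff⟩ := h4 Q k l1 l2 k' l1' l2' m1 q r hq1 hr
  -- the sum over t
  have hmod : ∀ t : ℕ, r + q * t ≡ r [MOD q] := by
    intro t
    have h5 : r + q * t ≡ r + 0 [MOD q] :=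
      Nat.ModEq.add_left r ((Nat.modEq_zero_iff_dvd).2 (dvd_mul_right q t))
    simpa using h5
  have himg : (Ico T1 T2).image (fun t => r + q * t) ⊆
      (Ioc Q (2 * Q)).filter (fun m2 => m2 ≡ r [MOD q]) := by
    intro x hx
    rw [mem_image] at hx
    obtain ⟨t, ht, rfl⟩ := hx
    rw [mem_Ico] at ht
    obtain ⟨g1, g2, -, -⟩ := (hiff t).1 ht
    rw [mem_filter, mem_Ioc]
    exact ⟨⟨g1, g2⟩, hmod t⟩
  have hrest : ∀ x ∈ (Ioc Q (2 * Q)).filter (fun m2 => m2 ≡ r [MOD q]),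
      x ∉ (Ico T1 T2).image (fun t => r + q * t) →
      ph θ ϑ Q k l1 l2 m1 x * (starRingEnd ℂ) (ph θ ϑ Q k' l1' l2' m1 x) = 0 := by
    intro x hx hx2
    rw [mem_filter, mem_Ioc] at hx
    obtain ⟨⟨g1, g2⟩, g3⟩ := hx
    rw [hph x (by omega) g3, if_neg]
    rintro ⟨⟨g4, g5⟩, -⟩
    apply hx2
    have g6 : x % q = r := by
      have g7 : x % q = r % q := g3
      rwa [Nat.mod_eq_of_lt hr] at g7
    have g8 : r + q * (x / q) = x := by
      rw [← g6]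
      exact Nat.mod_add_div x q
    rw [mem_image]
    refine ⟨x / q, ?_, g8⟩
    rw [mem_Ico]
    apply (hiff (x / q)).2
    rw [g8]
    exact ⟨g1, g2, g4, g5⟩
  rw [← Finset.sum_subset himg hrest, Finset.sum_image (by
    intro x _ y _ hxy
    have hxy' : r + q * x = r + q * y := hxy
    exact Nat.eq_of_mul_eq_mul_left (by omega) (Nat.add_left_cancel hxy'))]
  -- the functions
  obtain ⟨f, hf⟩ : ∃ f : ℕ → ℂ, f = fun t => if (w * r + w * q * t).Coprime b then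
      ee (((θ * Dt k l1 l2 k' l1' l2' : ℤ) : ℝ) * (iv (w * r + w * q * t) b : ℝ) / b) else 0 :=
    ⟨_, rfl⟩
  obtain ⟨u, hu⟩ : ∃ u : ℕ → ℝ, u = fun t => (k : ℝ) / ((l1 : ℝ) * m1 -
    (l2 : ℝ) * ((r + q * t : ℕ) : ℝ)) := ⟨_, rfl⟩
  obtain ⟨u', hu'⟩ : ∃ u' : ℕ → ℝ, u' = fun t => (k' : ℝ) / ((l1' : ℝ) * m1 -
    (l2' : ℝ) * ((r + q * t : ℕ) : ℝ)) := ⟨_, rfl⟩
  obtain ⟨v, hv⟩ : ∃ v : ℕ → ℝ, v = fun t => 1 / (m1 : ℝ) - 1 / ((r + q * t : ℕ) : ℝ) :=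
    ⟨_, rfl⟩
  have hterm : ∀ t ∈ Ico T1 T2,
      ph θ ϑ Q k l1 l2 m1 (r + q * t) * (starRingEnd ℂ) (ph θ ϑ Q k' l1' l2' m1 (r + q * t)) =
      c * (f t * ee (((θ : ℝ) * ((l1 : ℝ) - l2) / ((l1 : ℝ) * m1) * u t + ϑ * (u t * v t)) -
        ((θ : ℝ) * ((l1' : ℝ) - l2') / ((l1' : ℝ) * m1) * u' t + ϑ * (u' t * v t)))) := by
    intro t ht
    rw [mem_Ico] at ht
    obtain ⟨g1, g2, g3, g4⟩ := (hiff t).1 ht
    rw [hph (r + q * t) (by omega) (hmod t)]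
    have e1 : w * r + w * q * t = w * (r + q * t) := by ring
    have e2 : (w * r + w * q * t).Coprime b ↔ (r + q * t).Coprime b := by
      rw [e1, Nat.coprime_mul_iff_left]
      exact ⟨fun h => h.2, fun h => ⟨hwb, h⟩⟩
    by_cases hcb : (r + q * t).Coprime b
    · rw [if_pos ⟨⟨g3, g4⟩, hcb⟩]
      have e3 : f t = ee (((θ * Dt k l1 l2 k' l1' l2' : ℤ) : ℝ) *
          (iv (w * (r + q * t)) b : ℝ) / b) := by
        rw [hf]
        change (if (w * r + w * q * t).Coprime b then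
          ee (((θ * Dt k l1 l2 k' l1' l2' : ℤ) : ℝ) * (iv (w * r + w * q * t) b : ℝ) / b)
          else 0) = _
        rw [if_pos (e2.2 hcb), e1]
      rw [e3, hu, hu', hv, mul_assoc]
      rfl
    · rw [if_neg (fun h => hcb h.2)]
      have e3 : f t = 0 := by
        rw [hf]
        change (if (w * r + w * q * t).Coprime b then
          ee (((θ * Dt k l1 l2 k' l1' l2' : ℤ) : ℝ) * (iv (w * r + w * q * t) b : ℝ) / b)
          else 0) = _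
        rw [if_neg (fun h => hcb (e2.1 h))]
      rw [e3, zero_mul, mul_zero]
  rw [Finset.sum_congr rfl hterm, ← Finset.mul_sum, norm_mul]
  have hQ0 : (0 : ℝ) < Q := by exact_mod_cast hQ
  have hb0 : (0 : ℝ) < b := by exact_mod_cast hb
  have hq0 : (0 : ℝ) < q := by exact_mod_cast hq1
  have hlen2 : (T2 : ℝ) - T1 ≤ b + 1 := by
    have g1 : (Q : ℝ) / q ≤ b := by
      rw [div_le_iff₀ hq0]
      have g2 : Q ≤ b * q := by
        have g3 : a * b ≤ q * b := Nat.mul_le_mul_right b hqa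
        rw [hm1] at hQab
        rw [mul_comm b q]
        omega
      exact_mod_cast g2
    linarith
  have hb1 : (1 : ℝ) ≤ b := by exact_mod_cast hb
  have hlogb : 0 ≤ Real.log b := Real.log_nonneg hb1
  have hB : ∀ T, T1 ≤ T → T ≤ T2 → ‖∑ t ∈ Ico T1 T, f t‖ ≤
      Kb (θ * Dt k l1 l2 k' l1' l2') b * (3 + Real.log b) := by
    intro T hT1 hT2
    have g1 := h1 b (w * r) (w * q) T1 T (θ * Dt k l1 l2 k' l1' l2') hb
      (Nat.Coprime.mul_left hwb hqb) hT1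
    rw [hf]
    refine g1.trans (mul_le_mul_of_nonneg_left ?_ (Cin_Kb _ _))
    have g2 : (T : ℝ) ≤ T2 := by exact_mod_cast hT2
    have g3 : ((T : ℝ) - T1) / b ≤ 2 := by
      rw [div_le_iff₀ hb0]
      linarith
    linarith
  have hmain := h2 f u u' v T1 T2 ((θ : ℝ) * ((l1 : ℝ) - l2) / ((l1 : ℝ) * m1))
    ((θ : ℝ) * ((l1' : ℝ) - l2') / ((l1' : ℝ) * m1)) θ ϑ Q
    (Kb (θ * Dt k l1 l2 k' l1' l2') b * (3 + Real.log b)) hQ0 hT hB
    (by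
      intro t ht1 ht2
      obtain ⟨g1, g2, g3, g4⟩ := (hiff t).1 ⟨ht1, by omega⟩
      obtain ⟨i1, i2, i3, i4⟩ := (hiff (t + 1)).1 ⟨by omega, ht2⟩
      obtain ⟨p1, -⟩ := Cin_u hQ hk g3
      obtain ⟨p2, -⟩ := Cin_u hQ hk i3
      obtain ⟨p3, -⟩ := Cin_u hQ hk' g4
      obtain ⟨p4, -⟩ := Cin_u hQ hk' i4
      have s1 : ((r + q * t : ℕ) : ℝ) ≤ ((r + q * (t + 1) : ℕ) : ℝ) := by
        have : r + q * t ≤ r + q * (t + 1) := by
          rw [mul_add]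
          omega
        exact_mod_cast this
      have s2 : (0 : ℝ) < ((r + q * t : ℕ) : ℝ) := by
        have : 0 < r + q * t := by omega
        exact_mod_cast this
      have s3 : (0 : ℝ) ≤ (l2 : ℝ) := by positivity
      have s4 : (0 : ℝ) ≤ (l2' : ℝ) := by positivity
      rw [hu, hu', hv]
      refine ⟨?_, ?_, ?_⟩
      · change (k : ℝ) / ((l1 : ℝ) * m1 - (l2 : ℝ) * ((r + q * t : ℕ) : ℝ)) ≤
          (k : ℝ) / ((l1 : ℝ) * m1 - (l2 : ℝ) * ((r + q * (t + 1) : ℕ) : ℝ))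
        apply div_le_div_of_nonneg_left (by positivity) p2
        have := mul_le_mul_of_nonneg_left s1 s3
        linarith
      · change (k' : ℝ) / ((l1' : ℝ) * m1 - (l2' : ℝ) * ((r + q * t : ℕ) : ℝ)) ≤
          (k' : ℝ) / ((l1' : ℝ) * m1 - (l2' : ℝ) * ((r + q * (t + 1) : ℕ) : ℝ))
        apply div_le_div_of_nonneg_left (by positivity) p4
        have := mul_le_mul_of_nonneg_left s1 s4
        linarith
      · change 1 / (m1 : ℝ) - 1 / ((r + q * t : ℕ) : ℝ) ≤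
          1 / (m1 : ℝ) - 1 / ((r + q * (t + 1) : ℕ) : ℝ)
        have := one_div_le_one_div_of_le s2 s1
        linarith)
    (by
      intro t ht1 ht2
      obtain ⟨g1, g2, g3, g4⟩ := (hiff t).1 ⟨ht1, ht2⟩
      obtain ⟨-, p1⟩ := Cin_u hQ hk g3
      obtain ⟨-, p3⟩ := Cin_u hQ hk' g4
      rw [hu, hu', hv]
      refine ⟨p1, p3, ?_⟩
      change |1 / (m1 : ℝ) - 1 / ((r + q * t : ℕ) : ℝ)| ≤ 1 / (Q : ℝ)
      have s1 : (Q : ℝ) ≤ m1 := by exact_mod_cast hQab.le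
      have s2 : (Q : ℝ) ≤ ((r + q * t : ℕ) : ℝ) := by exact_mod_cast g1.le
      have s3 := one_div_le_one_div_of_le hQ0 s1
      have s4 := one_div_le_one_div_of_le hQ0 s2
      have s5 : (0 : ℝ) < 1 / (m1 : ℝ) := by
        have : (0 : ℝ) < m1 := by linarith
        positivity
      have s6 : (0 : ℝ) < 1 / ((r + q * t : ℕ) : ℝ) := by
        have : (0 : ℝ) < ((r + q * t : ℕ) : ℝ) := by linarith
        positivity
      rw [abs_le]
      constructor <;> linarith)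
    (Cin_A hQ hl1 h41 hQab) (Cin_A hQ hl1' h41' hQab)
  calc ‖c‖ * _ ≤ 1 * _ := mul_le_mul_of_nonneg_right hc (norm_nonneg _)
    _ ≤ _ := by
      rw [one_mul]
      exact hmain

end Pool.Agent.Lib.TB
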