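import Pool.Agent.Lib.TB.SpecK

/-!
MP_00e23e_nt, Lib/TB: the product of two phases on a residue class.
-/

namespace Pool.Agent.Lib.TB

open Finset Pool.Agent.Lib.EH3

lemma Cpr_cop {k l1 l2 a b m2 : ℕ} (h : b.Coprime (k * l1 * l2 * a)) (hm : m2.Coprime b) :
    (l1 * l2 * a * m2).Coprime b := by
  have h1 : (l1 * l2 * a).Coprime b := by
    refine Nat.Coprime.symm (Nat.Coprime.coprime_dvd_right ⟨k, by ring⟩ h)
  exact Nat.Coprime.mul_left h1 hm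

theorem tCpr (hP : PhsStmt) : CprStmt := by
  intro θ ϑ Q k l1 l2 k' l1' l2' a b r hk hl1 hl2 hk' hl1' hl2' ha hb hc hc'
  obtain ⟨c1, hc1, h1⟩ := hP θ ϑ Q k l1 l2 a b r hk hl1 hl2 ha hb hc
  obtain ⟨c2, hc2, h2⟩ := hP θ ϑ Q k' l1' l2' a b r hk' hl1' hl2' ha hb hc'
  refine ⟨c1 * (starRingEnd ℂ) c2, ?_, fun m2 hm2 hmod => ?_⟩
  · rw [norm_mul, Complex.norm_conj]
    exact mul_le_one₀ hc1 (norm_nonneg _) hc2
  have hmod1 : m2 ≡ r [MOD k * l1 * a] := hmod.of_dvd ⟨k' * l1', by ring⟩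
  have hmod2 : m2 ≡ r [MOD k' * l1' * a] := hmod.of_dvd ⟨k * l1, by ring⟩
  rw [h1 m2 hm2 hmod1, h2 m2 hm2 hmod2]
  by_cases hW : (Win Q k l1 l2 (a * b) m2 ∧ Win Q k' l1' l2' (a * b) m2) ∧ m2.Coprime b
  · obtain ⟨⟨hW1, hW2⟩, hcop⟩ := hW
    rw [if_pos ⟨hW1, hcop⟩, if_pos ⟨hW2, hcop⟩, if_pos ⟨⟨hW1, hW2⟩, hcop⟩]
    have hco1 := Cpr_cop hc hcop
    have hco2 := Cpr_cop hc' hcop
    have hco : (l1 * l2 * l1' * l2' * a * m2).Coprime b := by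
      have e : l1 * l2 * l1' * l2' * a * m2 = (l1' * l2') * (l1 * l2 * a * m2) := by ring
      rw [e]
      refine Nat.Coprime.mul_left ?_ hco1
      exact Nat.Coprime.coprime_dvd_left ⟨a * m2, by ring⟩ hco2
    set i : ℤ := (iv (l1 * l2 * l1' * l2' * a * m2) b : ℤ) with hi
    have hid : (b : ℤ) ∣ i * ((l1 * l2 * l1' * l2' * a * m2 : ℕ) : ℤ) - 1 := iv_dvd hco hb
    have hu1 : (b : ℤ) ∣ (l1' * l2' * i) - iv (l1 * l2 * a * m2) b := by
      refine iv_unique hco1 hb ?_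
      convert hid using 2
      push_cast
      ring
    have hu2 : (b : ℤ) ∣ (l1 * l2 * i) - iv (l1' * l2' * a * m2) b := by
      refine iv_unique hco2 hb ?_
      convert hid using 2
      push_cast
      ring
    have hconj : ∀ t : ℝ, (starRingEnd ℂ) (ee t) = ee (-t) := conj_ee
    rw [map_mul, map_mul, hconj, hconj]
    have e1 : ee (((θ * ((l1 : ℤ) - l2) * k * (iv (l1 * l2 * a * m2) b : ℤ) : ℤ) : ℝ) / b) *
        ee (-(((θ * ((l1' : ℤ) - l2') * k' * (iv (l1' * l2' * a * m2) b : ℤ) : ℤ) : ℝ) / b)) =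
        ee (((θ * Dt k l1 l2 k' l1' l2' : ℤ) : ℝ) * (iv (l1 * l2 * l1' * l2' * a * m2) b : ℝ) / b) := by
      rw [← ee_add]
      have e2 : (((θ * ((l1 : ℤ) - l2) * k * (iv (l1 * l2 * a * m2) b : ℤ) : ℤ) : ℝ) / b) +
          (-(((θ * ((l1' : ℤ) - l2') * k' * (iv (l1' * l2' * a * m2) b : ℤ) : ℤ) : ℝ) / b)) =
          ((θ * ((l1 : ℤ) - l2) * k * (iv (l1 * l2 * a * m2) b : ℤ) -
            θ * ((l1' : ℤ) - l2') * k' * (iv (l1' * l2' * a * m2) b : ℤ) : ℤ) : ℝ) / b := by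
        push_cast
        ring
      have e3 : ((θ * Dt k l1 l2 k' l1' l2' : ℤ) : ℝ) *
          (iv (l1 * l2 * l1' * l2' * a * m2) b : ℝ) / b =
          ((θ * Dt k l1 l2 k' l1' l2' * i : ℤ) : ℝ) / b := by
        rw [hi]
        push_cast
        ring
      rw [e2, e3]
      apply ee_congr
      obtain ⟨z1, hz1⟩ := hu1
      obtain ⟨z2, hz2⟩ := hu2
      have f1 : (iv (l1 * l2 * a * m2) b : ℤ) = l1' * l2' * i - b * z1 := by linarith
      have f2 : (iv (l1' * l2' * a * m2) b : ℤ) = l1 * l2 * i - b * z2 := by linarith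
      rw [f1, f2]
      unfold Dt
      exact ⟨-(θ * ((l1 : ℤ) - l2) * k * z1) + θ * ((l1' : ℤ) - l2') * k' * z2, by ring⟩
    have e4 : ee (ps θ ϑ k l1 l2 (a * b) m2) * ee (-ps θ ϑ k' l1' l2' (a * b) m2) =
        ee (ps θ ϑ k l1 l2 (a * b) m2 - ps θ ϑ k' l1' l2' (a * b) m2) := by
      rw [← ee_add, sub_eq_add_neg]
    rw [← e1, ← e4]
    ring
  · rw [if_neg hW]
    by_cases hA : Win Q k l1 l2 (a * b) m2 ∧ m2.Coprime b
    · by_cases hB : Win Q k' l1' l2' (a * b) m2 ∧ m2.Coprime b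
      · exact absurd ⟨⟨hA.1, hB.1⟩, hA.2⟩ hW
      · rw [if_neg hB, map_zero, mul_zero]
    · rw [if_neg hA, zero_mul]

end Pool.Agent.Lib.TB
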