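import Pool.Agent.Lib.TB.SpecK

/-! MP_00e23e_nt, Lib/TB: module Inc (incomplete Kloosterman sums over progressions). -/

namespace Pool.Agent.Lib.TB

open Finset Pool.Agent.Lib.EH3

theorem tInc (h1 : KlbStmt) (h2 : CmpStmt) (h3 : ApkStmt) : IncStmt := by
  intro b s q T1 T2 c hb hq hT
  refine h2 (fun t => if (s + q * t).Coprime b then
    ee ((c : ℝ) * (iv (s + q * t) b : ℝ) / b) else 0) b T1 T2 (Kb c b) hb hT ?_ ?_
  · intro t
    have e : s + q * (t + b) ≡ s + q * t [MOD b] := by
      have h : s + q * (t + b) = s + q * t + q * b := by ring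
      rw [h]
      exact (Nat.modEq_zero_iff_dvd.2 (Dvd.intro_left q rfl)).add_left _
    have hc : (s + q * (t + b)).Coprime b ↔ (s + q * t).Coprime b := by
      unfold Nat.Coprime
      rw [e.gcd_eq]
    change (if (s + q * (t + b)).Coprime b then
      ee ((c : ℝ) * (iv (s + q * (t + b)) b : ℝ) / b) else 0) =
      if (s + q * t).Coprime b then ee ((c : ℝ) * (iv (s + q * t) b : ℝ) / b) else 0
    rw [iv_congr e]
    by_cases h : (s + q * t).Coprime b
    · rw [if_pos h, if_pos (hc.2 h)]
    · rw [if_neg h, if_neg (fun h' => h (hc.1 h'))]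
  · intro j _
    obtain ⟨h, hh⟩ := h3 b s q j c hb hq
    rw [hh]
    exact h1 b c h hb

end Pool.Agent.Lib.TB
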