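import Pool.Agent.Lib.TB.SpecK

/-! MP_00e23e_nt, Lib/TB, module Itv: the parameters `t` form an interval -/

namespace Pool.Agent.Lib.TB

open Finset Pool.Agent.Lib.EH3

private theorem Itv_gen (P : ℕ → Prop) (Q q r : ℕ) (hq : 1 ≤ q)
    (hconv : ∀ a b c, a ≤ b → b ≤ c → P a → P c → P b)
    (hP : ∀ t, P t → Q < r + q * t ∧ r + q * t ≤ 2 * Q) :
    ∃ T1 T2 : ℕ, T1 ≤ T2 ∧ ((T2 : ℝ) - T1 ≤ (Q : ℝ) / q + 1) ∧
      ∀ t : ℕ, (T1 ≤ t ∧ t < T2) ↔ P t := by
  classical
  have hb : ∀ t, P t → t ≤ 2 * Q := by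
    intro t ht
    have h1 := (hP t ht).2
    have h2 : t ≤ q * t := Nat.le_mul_of_pos_left t hq
    omega
  by_cases hne : ((range (2 * Q + 1)).filter P).Nonempty
  · obtain ⟨S, hS⟩ : ∃ S, S = (range (2 * Q + 1)).filter P := ⟨_, rfl⟩
    rw [← hS] at hne
    have hmem : ∀ t, t ∈ S ↔ P t := by
      intro t
      rw [hS, mem_filter, mem_range]
      exact ⟨fun h => h.2, fun h => ⟨by have := hb t h; omega, h⟩⟩
    have h1 : P (S.min' hne) := (hmem _).1 (S.min'_mem hne)
    have h2 : P (S.max' hne) := (hmem _).1 (S.max'_mem hne)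
    have h3 : S.min' hne ≤ S.max' hne := S.min'_le _ (S.max'_mem hne)
    refine ⟨S.min' hne, S.max' hne + 1, by omega, ?_, ?_⟩
    · have h4 := (hP _ h1).1
      have h5 := (hP _ h2).2
      have hq0 : (0 : ℝ) < q := by exact_mod_cast hq
      have h6 : (q : ℝ) * ((S.max' hne : ℕ) - (S.min' hne : ℕ) : ℝ) ≤ Q := by
        have h4' : (Q : ℝ) < r + q * (S.min' hne : ℕ) := by exact_mod_cast h4
        have h5' : (r : ℝ) + q * (S.max' hne : ℕ) ≤ 2 * Q := by exact_mod_cast h5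
        rw [mul_sub]
        linarith
      have h7 : ((S.max' hne : ℕ) : ℝ) - (S.min' hne : ℕ) ≤ (Q : ℝ) / q := by
        rw [le_div_iff₀ hq0]
        linarith
      push_cast
      linarith
    · intro t
      constructor
      · rintro ⟨h4, h5⟩
        exact hconv _ t _ h4 (by omega) h1 h2
      · intro ht
        have h4 := S.min'_le t ((hmem t).2 ht)
        have h5 := S.le_max' t ((hmem t).2 ht)
        omega
  · refine ⟨0, 0, le_rfl, by simp; positivity, fun t => ⟨fun h => by omega, fun h => ?_⟩⟩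
    exfalso
    apply hne
    exact ⟨t, mem_filter.2 ⟨mem_range.2 (by have := hb t h; omega), h⟩⟩

theorem tItv : ItvStmt := by
  intro Q k l1 l2 k' l1' l2' m1 q r hq _
  apply Itv_gen _ Q q r hq
  · rintro a b c hab hbc ⟨a1, a2, ⟨a3, a4⟩, a5, a6⟩ ⟨c1, c2, ⟨c3, c4⟩, c5, c6⟩
    have h1 : r + q * a ≤ r + q * b := by
      have := Nat.mul_le_mul_left q hab
      omega
    have h2 : r + q * b ≤ r + q * c := by
      have := Nat.mul_le_mul_left q hbc
      omega
    have h3 := Nat.mul_le_mul_left l2 h1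
    have h4 := Nat.mul_le_mul_left l2 h2
    have h5 := Nat.mul_le_mul_left l2' h1
    have h6 := Nat.mul_le_mul_left l2' h2
    exact ⟨by omega, by omega, ⟨by omega, by omega⟩, ⟨by omega, by omega⟩⟩
  · rintro t ⟨h1, h2, -⟩
    exact ⟨h1, h2⟩

end Pool.Agent.Lib.TB
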