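import Pool.Agent.Lib.TB.SpecK

/-!
MP_00e23e_nt, Lib/TB, part K, module Kas: assembly of the final statement KStmt.
-/

namespace Pool.Agent.Lib.TB

open Finset Pool.Agent.Lib.EH3

private lemma Kas_omega (P : ℕ) (hP : 1 ≤ P) :
    (2 : ℝ) ^ P.primeFactors.card ≤ (P.divisors.card : ℝ) := by
  have h : 2 ^ P.primeFactors.card ≤ P.divisors.card := by
    rw [Nat.card_divisors (by omega)]
    refine Finset.pow_card_le_prod _ _ _ fun p hp => ?_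
    have hp' := Nat.mem_primeFactors.mp hp
    have := (hp'.1.dvd_iff_one_le_factorization (by omega)).mp hp'.2.1
    omega
  exact_mod_cast h

private lemma Kas_abs (x y : ℕ) (hx : 1 ≤ x) (hy : 1 ≤ y) : |(x : ℤ) - y| ≤ (x : ℤ) * y := by
  have h1 : (x : ℤ) ≤ (x : ℤ) * y := by
    exact_mod_cast Nat.le_mul_of_pos_right x hy
  have h2 : (y : ℤ) ≤ (x : ℤ) * y := by
    exact_mod_cast Nat.le_mul_of_pos_left y hx
  rw [abs_le]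
  constructor
  · have : (0 : ℤ) ≤ x := by positivity
    linarith
  · have : (0 : ℤ) ≤ y := by positivity
    linarith

private lemma Kas_half (k l1 l2 k' l1' l2' : ℕ) (hl1 : 1 ≤ l1) (hl2 : 1 ≤ l2) (hk' : 1 ≤ k') :
    |((l1 : ℤ) - l2) * k * l1' * l2'| ≤ ((k * l1 * l2 * k' * l1' * l2' : ℕ) : ℤ) := by
  have h1 := Kas_abs l1 l2 hl1 hl2
  have h3 : |((l1 : ℤ) - l2) * k * l1' * l2'| = |(l1 : ℤ) - l2| * ((k : ℤ) * l1' * l2') := by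
    have : ((l1 : ℤ) - l2) * k * l1' * l2' = ((l1 : ℤ) - l2) * ((k : ℤ) * l1' * l2') := by ring
    rw [this, abs_mul]
    congr 1
    exact abs_of_nonneg (by positivity)
  rw [h3]
  calc |(l1 : ℤ) - l2| * ((k : ℤ) * l1' * l2')
      ≤ ((l1 : ℤ) * l2) * ((k : ℤ) * l1' * l2') :=
        mul_le_mul_of_nonneg_right h1 (by positivity)
    _ = 1 * ((l1 : ℤ) * l2 * ((k : ℤ) * l1' * l2')) := by ring
    _ ≤ (k' : ℤ) * ((l1 : ℤ) * l2 * ((k : ℤ) * l1' * l2')) := by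
        refine mul_le_mul_of_nonneg_right ?_ (by positivity)
        exact_mod_cast hk'
    _ = ((k * l1 * l2 * k' * l1' * l2' : ℕ) : ℤ) := by push_cast; ring

private lemma Kas_D (k l1 l2 k' l1' l2' : ℕ) (hk : 1 ≤ k) (hl1 : 1 ≤ l1) (hl2 : 1 ≤ l2)
    (hk' : 1 ≤ k') (hl1' : 1 ≤ l1') (hl2' : 1 ≤ l2') :
    |Dt k l1 l2 k' l1' l2'| ≤ 2 * ((k * l1 * l2 * k' * l1' * l2' : ℕ) : ℤ) := by
  have h1 := Kas_half k l1 l2 k' l1' l2' hl1 hl2 hk'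
  have h2 := Kas_half k' l1' l2' k l1 l2 hl1' hl2' hk
  have h3 : ((k' * l1' * l2' * k * l1 * l2 : ℕ) : ℤ) = ((k * l1 * l2 * k' * l1' * l2' : ℕ) : ℤ) := by
    push_cast; ring
  rw [h3] at h2
  unfold Dt
  calc _ ≤ |((l1 : ℤ) - l2) * k * l1' * l2'| + |((l1' : ℤ) - l2') * k' * l1 * l2| := abs_sub _ _
    _ ≤ _ := by linarith

private lemma Kas_cs (s : Finset ℕ) (A G : ℕ → ℕ) (X Y : ℝ)
    (hX : ∑ m ∈ s, (A m : ℝ) ^ (1 / 2 : ℝ) ≤ X) (hY : ∑ m ∈ s, (G m : ℝ) ^ (1 / 2 : ℝ) ≤ Y) :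
    ∑ m ∈ s, (A m : ℝ) ^ (1 / 4 : ℝ) * (G m : ℝ) ^ (1 / 4 : ℝ) ≤ √X * √Y := by
  have hsq : ∀ n : ℕ, ((n : ℝ) ^ (1 / 4 : ℝ)) ^ 2 = (n : ℝ) ^ (1 / 2 : ℝ) := by
    intro n
    rw [← Real.rpow_natCast, ← Real.rpow_mul (by positivity)]
    norm_num
  refine (Real.sum_mul_le_sqrt_mul_sqrt s (fun m => (A m : ℝ) ^ (1 / 4 : ℝ))
    (fun m => (G m : ℝ) ^ (1 / 4 : ℝ))).trans ?_
  simp only [hsq]
  exact mul_le_mul (Real.sqrt_le_sqrt hX) (Real.sqrt_le_sqrt hY) (Real.sqrt_nonneg _)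
    (Real.sqrt_nonneg _)

private lemma Kas_sq (w : ℕ) (t Q T : ℝ) (hQ : 0 ≤ Q) (hT : (2 : ℝ) ^ w ≤ T) (ht : 1 ≤ t) :
    √(4 ^ w * (2 * Q)) * √(t * (2 * Q)) ≤ T * t * (2 * Q) := by
  have h4 : (4 : ℝ) ^ w = (2 ^ w) ^ 2 := by
    rw [← pow_mul, mul_comm w 2, pow_mul]
    norm_num
  have h1 : √(4 ^ w * (2 * Q)) = 2 ^ w * √(2 * Q) := by
    rw [Real.sqrt_mul (by positivity), h4, Real.sqrt_sq (by positivity)]
  have h2 : √(t * (2 * Q)) = √t * √(2 * Q) := Real.sqrt_mul (by linarith) _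
  have h3 : √t ≤ t := by
    rw [Real.sqrt_le_left (by linarith)]
    nlinarith
  have h5 : √(2 * Q) * √(2 * Q) = 2 * Q := Real.mul_self_sqrt (by linarith)
  have h2w : (0 : ℝ) < 2 ^ w := by positivity
  calc √(4 ^ w * (2 * Q)) * √(t * (2 * Q)) = (2 ^ w * √t) * (√(2 * Q) * √(2 * Q)) := by
        rw [h1, h2]; ring
    _ = (2 ^ w * √t) * (2 * Q) := by rw [h5]
    _ ≤ (T * t) * (2 * Q) := by
        refine mul_le_mul_of_nonneg_right ?_ (by linarith)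
        exact mul_le_mul hT h3 (Real.sqrt_nonneg _) (by linarith)

private lemma Kas_log (η : ℝ) (hη : 0 < η) (Q : ℕ) (hQ : 1 ≤ Q) :
    3 + Real.log (2 * Q) ≤ (3 + 2 ^ η / η) * (Q : ℝ) ^ η := by
  have hQ1 : (1 : ℝ) ≤ Q := by exact_mod_cast hQ
  have h1 : Real.log (2 * Q) ≤ (2 * (Q : ℝ)) ^ η / η := Real.log_le_rpow_div (by positivity) hη
  have h2 : (2 * (Q : ℝ)) ^ η = 2 ^ η * (Q : ℝ) ^ η := Real.mul_rpow (by norm_num) (by positivity)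
  have h3 : (1 : ℝ) ≤ (Q : ℝ) ^ η := Real.one_le_rpow hQ1 hη.le
  rw [h2] at h1
  calc 3 + Real.log (2 * Q) ≤ 3 * (Q : ℝ) ^ η + 2 ^ η * (Q : ℝ) ^ η / η := by linarith
    _ = (3 + 2 ^ η / η) * (Q : ℝ) ^ η := by ring

/-- the final numerical step: everything except the powers -/
private lemma Kas_num (V K T L Q3 S C1 e Qη Pη θη Pη' : ℝ) (C2 Q Qε : ℝ)
    (hV : 0 ≤ V) (hK : 0 ≤ K) (hQ3 : 0 ≤ Q3) (hS : 0 ≤ S) (hL0 : 0 ≤ L) (hT0 : 0 ≤ T)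
    (hT : T ≤ C1 * (e * Qη)) (hL : L ≤ C2 * Qη)
    (hS2 : S ≤ (C1 * Pη) * (C1 * (e * θη * Pη')) * (2 * Q))
    (hQε : Qη * Qη = Qε) :
    400 * V * K * T * L * Q3 * S ≤
      (800 * C1 ^ 3 * e ^ 2 * C2) * K * (θη * (Pη * Pη') * Qε) * (Q3 * Q) * V := by
  have h0 : 0 ≤ 400 * V * K * Q3 := by positivity
  have h1 : T * L ≤ (C1 * (e * Qη)) * (C2 * Qη) := mul_le_mul hT hL hL0 (hT0.trans hT)
  have h2 : T * L * S ≤ ((C1 * (e * Qη)) * (C2 * Qη)) *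
      ((C1 * Pη) * (C1 * (e * θη * Pη')) * (2 * Q)) :=
    mul_le_mul h1 hS2 hS ((mul_nonneg hT0 hL0).trans h1)
  calc 400 * V * K * T * L * Q3 * S = 400 * V * K * Q3 * (T * L * S) := by ring
    _ ≤ 400 * V * K * Q3 * (((C1 * (e * Qη)) * (C2 * Qη)) *
      ((C1 * Pη) * (C1 * (e * θη * Pη')) * (2 * Q))) := mul_le_mul_of_nonneg_left h2 h0
    _ = (800 * C1 ^ 3 * e ^ 2 * C2) * K * (θη * (Pη * Pη') * (Qη * Qη)) * (Q3 * Q) * V := by ring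
    _ = _ := by rw [hQε]

/-- Module Kas: the final statement of part K. -/
theorem tKas (h1 : RowStmt) (h2 : SmaStmt) (h3 : SmgStmt) (h4 : TaukStmt) : KStmt := by
  intro ε hε
  have hη : 0 < ε / 2 := by linarith
  obtain ⟨C1, hC1, hτ⟩ := h4 (ε / 2) hη
  refine ⟨800 * C1 ^ 3 * ((2 : ℝ) ^ (ε / 2)) ^ 2 * (3 + 2 ^ (ε / 2) / (ε / 2)), by positivity, ?_⟩
  intro θ ϑ Q k l1 l2 k' l1' l2' hθ hQ hk hl1 hl2 hk' hl1' hl2' hr hr' hD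
  have hQ1 : (1 : ℝ) ≤ Q := by exact_mod_cast hQ
  have hP : 1 ≤ k * l1 * l2 * k' * l1' * l2' :=
    Nat.mul_pos (Nat.mul_pos (Nat.mul_pos (Nat.mul_pos (Nat.mul_pos hk hl1) hl2) hk') hl1') hl2'
  have hP1 : (1 : ℝ) ≤ ((k * l1 * l2 * k' * l1' * l2' : ℕ) : ℝ) := by exact_mod_cast hP
  have hθ1 : (1 : ℝ) ≤ |(θ : ℝ)| := by
    have : 1 ≤ |θ| := Int.one_le_abs hθ
    have h' : ((1 : ℤ) : ℝ) ≤ ((|θ| : ℤ) : ℝ) := by exact_mod_cast this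
    simpa using h'
  have hθD : θ * Dt k l1 l2 k' l1' l2' ≠ 0 := mul_ne_zero hθ hD
  -- the number of divisors of θ D
  have hd1 : 1 ≤ (θ * Dt k l1 l2 k' l1' l2').natAbs := Int.natAbs_pos.mpr hθD
  have hd2 : ((θ * Dt k l1 l2 k' l1' l2').natAbs : ℝ) ≤
      2 * |(θ : ℝ)| * ((k * l1 * l2 * k' * l1' * l2' : ℕ) : ℝ) := by
    have hDb := Kas_D k l1 l2 k' l1' l2' hk hl1 hl2 hk' hl1' hl2'
    have e1 : ((θ * Dt k l1 l2 k' l1' l2').natAbs : ℝ) =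
        |(θ : ℝ)| * |((Dt k l1 l2 k' l1' l2' : ℤ) : ℝ)| := by
      rw [Nat.cast_natAbs, Int.cast_abs, Int.cast_mul, abs_mul]
    have e2 : |((Dt k l1 l2 k' l1' l2' : ℤ) : ℝ)| ≤
        2 * ((k * l1 * l2 * k' * l1' * l2' : ℕ) : ℝ) := by
      have := (Int.cast_le (R := ℝ)).mpr hDb
      rw [Int.cast_abs] at this
      refine this.trans (le_of_eq ?_)
      push_cast; ring
    rw [e1]
    calc |(θ : ℝ)| * |((Dt k l1 l2 k' l1' l2' : ℤ) : ℝ)|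
        ≤ |(θ : ℝ)| * (2 * ((k * l1 * l2 * k' * l1' * l2' : ℕ) : ℝ)) :=
          mul_le_mul_of_nonneg_left e2 (abs_nonneg _)
      _ = _ := by ring
  have hdτ : ((θ * Dt k l1 l2 k' l1' l2').natAbs.divisors.card : ℝ) ≤
      C1 * ((2 : ℝ) ^ (ε / 2) * |(θ : ℝ)| ^ (ε / 2) *
        ((k * l1 * l2 * k' * l1' * l2' : ℕ) : ℝ) ^ (ε / 2)) := by
    refine (hτ _ hd1).trans ?_
    refine mul_le_mul_of_nonneg_left ?_ (by linarith)
    calc ((θ * Dt k l1 l2 k' l1' l2').natAbs : ℝ) ^ (ε / 2)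
        ≤ (2 * |(θ : ℝ)| * ((k * l1 * l2 * k' * l1' * l2' : ℕ) : ℝ)) ^ (ε / 2) :=
          Real.rpow_le_rpow (by positivity) hd2 hη.le
      _ = _ := by
          rw [Real.mul_rpow (by positivity) (by positivity), Real.mul_rpow (by norm_num)
            (by positivity)]
  have hPτ : ((k * l1 * l2 * k' * l1' * l2').divisors.card : ℝ) ≤
      C1 * ((k * l1 * l2 * k' * l1' * l2' : ℕ) : ℝ) ^ (ε / 2) := hτ _ hP
  -- the sum over m1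
  have hsub : Ioc Q (2 * Q) ⊆ Icc 1 (2 * Q) := by
    intro m hm
    rw [mem_Ioc] at hm
    rw [mem_Icc]
    omega
  have hSA : ∑ m ∈ Ioc Q (2 * Q), (pa (k * l1 * l2 * k' * l1' * l2') m : ℝ) ^ (1 / 2 : ℝ) ≤
      4 ^ (k * l1 * l2 * k' * l1' * l2').primeFactors.card * (2 * (Q : ℝ)) := by
    refine (sum_le_sum_of_subset_of_nonneg hsub fun m _ _ => by positivity).trans ?_
    have := h2 (k * l1 * l2 * k' * l1' * l2') (2 * Q) hP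
    push_cast at this ⊢
    exact this
  have hSG : ∑ m ∈ Ioc Q (2 * Q), (Int.gcd (θ * Dt k l1 l2 k' l1' l2') m : ℝ) ^ (1 / 2 : ℝ) ≤
      ((θ * Dt k l1 l2 k' l1' l2').natAbs.divisors.card : ℝ) * (2 * (Q : ℝ)) := by
    refine (sum_le_sum_of_subset_of_nonneg hsub fun m _ _ => by positivity).trans ?_
    have := h3 (θ * Dt k l1 l2 k' l1' l2') (2 * Q) hθD
    push_cast at this ⊢
    exact this
  have hdcard : (1 : ℝ) ≤ ((θ * Dt k l1 l2 k' l1' l2').natAbs.divisors.card : ℝ) := by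
    have : 0 < (θ * Dt k l1 l2 k' l1' l2').natAbs.divisors.card :=
      card_pos.mpr ⟨1, Nat.one_mem_divisors.mpr (by omega)⟩
    exact_mod_cast this
  have hS := (Kas_cs (Ioc Q (2 * Q)) (fun m => pa (k * l1 * l2 * k' * l1' * l2') m)
    (fun m => Int.gcd (θ * Dt k l1 l2 k' l1' l2') m) _ _ hSA hSG).trans
    (Kas_sq _ _ _ _ (by positivity) (Kas_omega _ hP) hdcard)
  have hS2 : ∑ m ∈ Ioc Q (2 * Q), (pa (k * l1 * l2 * k' * l1' * l2') m : ℝ) ^ (1 / 4 : ℝ) *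
      (Int.gcd (θ * Dt k l1 l2 k' l1' l2') m : ℝ) ^ (1 / 4 : ℝ) ≤
      (C1 * ((k * l1 * l2 * k' * l1' * l2' : ℕ) : ℝ) ^ (ε / 2)) *
        (C1 * ((2 : ℝ) ^ (ε / 2) * |(θ : ℝ)| ^ (ε / 2) *
        ((k * l1 * l2 * k' * l1' * l2' : ℕ) : ℝ) ^ (ε / 2))) * (2 * (Q : ℝ)) := by
    refine hS.trans ?_
    refine mul_le_mul_of_nonneg_right ?_ (by positivity)
    exact mul_le_mul hPτ hdτ (by positivity) (by positivity)
  -- the divisor function of m1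
  have hmτ : ∀ m ∈ Ioc Q (2 * Q), (m.divisors.card : ℝ) ^ (1 / 2 : ℝ) ≤
      C1 * ((2 : ℝ) ^ (ε / 2) * (Q : ℝ) ^ (ε / 2)) := by
    intro m hm
    rw [mem_Ioc] at hm
    have hm1 : (1 : ℝ) ≤ (m.divisors.card : ℝ) := by
      have : 0 < m.divisors.card := card_pos.mpr ⟨1, Nat.one_mem_divisors.mpr (by omega)⟩
      exact_mod_cast this
    calc (m.divisors.card : ℝ) ^ (1 / 2 : ℝ) ≤ (m.divisors.card : ℝ) ^ (1 : ℝ) :=
          Real.rpow_le_rpow_of_exponent_le hm1 (by norm_num)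
      _ = (m.divisors.card : ℝ) := Real.rpow_one _
      _ ≤ C1 * (m : ℝ) ^ (ε / 2) := hτ m (by omega)
      _ ≤ C1 * (2 * (Q : ℝ)) ^ (ε / 2) := by
          refine mul_le_mul_of_nonneg_left ?_ (by linarith)
          refine Real.rpow_le_rpow (by positivity) ?_ hη.le
          exact_mod_cast hm.2
      _ = _ := by rw [Real.mul_rpow (by norm_num) (by positivity)]
  have hL := Kas_log (ε / 2) hη Q hQ
  have hlog0 : 0 ≤ Real.log (2 * (Q : ℝ)) := Real.log_nonneg (by linarith)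
  have hQe : (Q : ℝ) ^ (ε / 2) * (Q : ℝ) ^ (ε / 2) = (Q : ℝ) ^ ε := by
    rw [← Real.rpow_add (by linarith)]; congr 1; ring
  have hPe : ((k * l1 * l2 * k' * l1' * l2' : ℕ) : ℝ) ^ (ε / 2) *
      ((k * l1 * l2 * k' * l1' * l2' : ℕ) : ℝ) ^ (ε / 2) =
      ((k * l1 * l2 * k' * l1' * l2' : ℕ) : ℝ) ^ ε := by
    rw [← Real.rpow_add (by linarith)]; congr 1; ring
  have hQ7 : (Q : ℝ) ^ (3 / 4 : ℝ) * (Q : ℝ) = (Q : ℝ) ^ (7 / 4 : ℝ) := by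
    nth_rewrite 2 [← Real.rpow_one (Q : ℝ)]
    rw [← Real.rpow_add (by linarith)]
    norm_num
  have hV : (0 : ℝ) ≤ 1 + (|(θ : ℝ)| + |ϑ|) / (Q : ℝ) ^ 2 := by positivity
  -- sum the bound of Row
  have hsum : ∑ m1 ∈ Ioc Q (2 * Q), ‖∑ m2 ∈ Ioc Q (2 * Q),
      ph θ ϑ Q k l1 l2 m1 m2 * (starRingEnd ℂ) (ph θ ϑ Q k' l1' l2' m1 m2)‖ ≤
      400 * (1 + (|(θ : ℝ)| + |ϑ|) / (Q : ℝ) ^ 2) * ((k : ℝ) * k' * l1 * l1') *
        (C1 * ((2 : ℝ) ^ (ε / 2) * (Q : ℝ) ^ (ε / 2))) * (3 + Real.log (2 * Q)) *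
        (Q : ℝ) ^ (3 / 4 : ℝ) *
        ∑ m ∈ Ioc Q (2 * Q), (pa (k * l1 * l2 * k' * l1' * l2') m : ℝ) ^ (1 / 4 : ℝ) *
      (Int.gcd (θ * Dt k l1 l2 k' l1' l2') m : ℝ) ^ (1 / 4 : ℝ) := by
    rw [mul_sum]
    refine sum_le_sum fun m hm => ?_
    have hm' := mem_Ioc.mp hm
    refine (h1 θ ϑ Q k l1 l2 k' l1' l2' m hQ hk hl1 hl2 hk' hl1' hl2' hr hr' hm'.1 hm'.2).trans ?_
    have hmm := hmτ m hm
    have hnn : 0 ≤ 400 * (1 + (|(θ : ℝ)| + |ϑ|) / (Q : ℝ) ^ 2) * ((k : ℝ) * k' * l1 * l1') *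
        (3 + Real.log (2 * Q)) * (Q : ℝ) ^ (3 / 4 : ℝ) *
        ((pa (k * l1 * l2 * k' * l1' * l2') m : ℝ) ^ (1 / 4 : ℝ) *
        (Int.gcd (θ * Dt k l1 l2 k' l1' l2') m : ℝ) ^ (1 / 4 : ℝ)) := by
      have : 0 ≤ 3 + Real.log (2 * (Q : ℝ)) := by linarith
      positivity
    have := mul_le_mul_of_nonneg_left hmm hnn
    refine le_trans (le_of_eq ?_) (this.trans (le_of_eq ?_))
    · ring
    · ring
  refine hsum.trans ?_
  have hfin := Kas_num (1 + (|(θ : ℝ)| + |ϑ|) / (Q : ℝ) ^ 2) ((k : ℝ) * k' * l1 * l1')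
    (C1 * ((2 : ℝ) ^ (ε / 2) * (Q : ℝ) ^ (ε / 2))) (3 + Real.log (2 * Q))
    ((Q : ℝ) ^ (3 / 4 : ℝ)) _ C1 ((2 : ℝ) ^ (ε / 2)) ((Q : ℝ) ^ (ε / 2))
    (((k * l1 * l2 * k' * l1' * l2' : ℕ) : ℝ) ^ (ε / 2)) (|(θ : ℝ)| ^ (ε / 2))
    (((k * l1 * l2 * k' * l1' * l2' : ℕ) : ℝ) ^ (ε / 2)) (3 + 2 ^ (ε / 2) / (ε / 2)) (Q : ℝ)
    ((Q : ℝ) ^ ε) hV (by positivity) (by positivity) (sum_nonneg fun m _ => by positivity)
    (by linarith) (by positivity) le_rfl hL hS2 hQe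
  refine hfin.trans ?_
  rw [hPe, hQ7]
  refine mul_le_mul_of_nonneg_right ?_ hV
  refine mul_le_mul_of_nonneg_right ?_ (by positivity)
  refine mul_le_mul_of_nonneg_left ?_ (by positivity)
  have hcast : (k : ℝ) * l1 * l2 * k' * l1' * l2' = ((k * l1 * l2 * k' * l1' * l2' : ℕ) : ℝ) := by
    push_cast; ring
  rw [hcast, Real.mul_rpow (by positivity) (by positivity), Real.mul_rpow (by positivity)
    (by positivity)]
  refine mul_le_mul_of_nonneg_right ?_ (by positivity)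
  refine mul_le_mul_of_nonneg_right ?_ (by positivity)
  exact Real.rpow_le_rpow_of_exponent_le hθ1 (by linarith)

end Pool.Agent.Lib.TB
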