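import Pool.Agent.Lib.TB.SpecK

namespace Pool.Agent.Lib.TB

open Finset Pool.Agent.Lib.EH3

/-- fourth power of a root -/
private lemma Klb_r1 (x : ℝ) (hx : 0 ≤ x) : (x ^ (1 / 2 : ℝ)) ^ 4 = x ^ 2 := by
  rw [← Real.rpow_natCast (x ^ (1 / 2 : ℝ)) 4, ← Real.rpow_mul hx, ← Real.rpow_natCast x 2]
  norm_num

private lemma Klb_r2 (x : ℝ) (hx : 0 ≤ x) : (x ^ (1 / 4 : ℝ)) ^ 4 = x := by
  rw [← Real.rpow_natCast (x ^ (1 / 4 : ℝ)) 4, ← Real.rpow_mul hx]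
  norm_num

private lemma Klb_r3 (x : ℝ) (hx : 0 ≤ x) : (x ^ (3 / 4 : ℝ)) ^ 4 = x ^ 3 := by
  rw [← Real.rpow_natCast (x ^ (3 / 4 : ℝ)) 4, ← Real.rpow_mul hx, ← Real.rpow_natCast x 3]
  norm_num

/-- Kloosterman bound, fourth root. -/
theorem tKlb (h1 : KlStmt) : KlbStmt := by
  intro q c h hq
  have h2 := h1 q c h hq
  have ht : (0 : ℝ) ≤ (q.divisors.card : ℝ) := Nat.cast_nonneg _
  have hg : (0 : ℝ) ≤ (Int.gcd c q : ℝ) := Nat.cast_nonneg _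
  have hq0 : (0 : ℝ) ≤ (q : ℝ) := Nat.cast_nonneg _
  have hK : 0 ≤ Kb c q := by
    unfold Kb
    positivity
  have hK4 : Kb c q ^ 4 = 16 * (q.divisors.card : ℝ) ^ 2 * (Int.gcd c q : ℝ) * (q : ℝ) ^ 3 := by
    unfold Kb
    rw [mul_pow, mul_pow, mul_pow, Klb_r1 _ ht, Klb_r2 _ hg, Klb_r3 _ hq0]
    norm_num
  refine le_of_pow_le_pow_left₀ (by norm_num : (4 : ℕ) ≠ 0) hK ?_
  rw [hK4]
  have hnn : 0 ≤ (Int.gcd c q : ℝ) * (q.divisors.card : ℝ) ^ 2 * (q : ℝ) ^ 3 := by positivity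
  calc ‖kl c h q‖ ^ 4 ≤ 2 * (Int.gcd c q : ℝ) * (q.divisors.card : ℝ) ^ 2 * (q : ℝ) ^ 3 := h2
    _ ≤ 16 * (q.divisors.card : ℝ) ^ 2 * (Int.gcd c q : ℝ) * (q : ℝ) ^ 3 := by nlinarith [hnn]

end Pool.Agent.Lib.TB
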