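import Pool.Agent.Lib.TB.SpecK

/-! MP_00e23e_nt, Lib/TB, module Pad: the `P`-part of `m` -/

namespace Pool.Agent.Lib.TB

open Finset Pool.Agent.Lib.EH3

private theorem Pad_dvd (P m : ℕ) (hm : 1 ≤ m) : pa P m ∣ m := by
  unfold pa
  have h1 : ∏ p ∈ P.primeFactors, p ^ m.factorization p =
      ∏ p ∈ P.primeFactors ∩ m.primeFactors, p ^ m.factorization p := by
    symm
    apply prod_subset inter_subset_left
    intro p hp hp2
    have h2 : p ∉ m.primeFactors := fun h => hp2 (mem_inter.2 ⟨hp, h⟩)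
    have h3 : m.factorization p = 0 := by
      rw [← Nat.support_factorization, Finsupp.notMem_support_iff] at h2
      exact h2
    rw [h3, pow_zero]
  rw [h1]
  have h4 : ∏ p ∈ m.primeFactors, p ^ m.factorization p = m := by
    have h5 := Nat.prod_factorization_pow_eq_self (n := m) (by omega)
    rwa [Finsupp.prod, Nat.support_factorization] at h5
  calc ∏ p ∈ P.primeFactors ∩ m.primeFactors, p ^ m.factorization p
      ∣ ∏ p ∈ m.primeFactors, p ^ m.factorization p :=
        prod_dvd_prod_of_subset _ _ _ inter_subset_right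
    _ = m := h4

private theorem Pad_pos (P m : ℕ) : 1 ≤ pa P m := by
  unfold pa
  exact prod_pos fun p hp => pow_pos (Nat.prime_of_mem_primeFactors hp).pos _

private theorem Pad_prime (P m p : ℕ) (hp : p.Prime) (h : p ∣ pa P m) : p ∣ P := by
  unfold pa at h
  obtain ⟨q, hq, hpq⟩ := (hp.prime.dvd_finset_prod_iff _).1 h
  have h1 := hp.dvd_of_dvd_pow hpq
  rw [Nat.prime_dvd_prime_iff_eq hp (Nat.prime_of_mem_primeFactors hq)] at h1
  rw [h1]
  exact Nat.dvd_of_mem_primeFactors hq

private theorem Pad_not (P m p : ℕ) (hP : 1 ≤ P) (hm : 1 ≤ m) (hp : p.Prime) (hpP : p ∣ P) :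
    ¬ p ∣ m / pa P m := by
  intro h
  apply Nat.pow_succ_factorization_not_dvd (n := m) (by omega) hp
  have h1 : p ^ m.factorization p ∣ pa P m := by
    unfold pa
    exact dvd_prod_of_mem (fun p => p ^ m.factorization p)
      (Nat.mem_primeFactors.2 ⟨hp, hpP, by omega⟩)
  have h2 := mul_dvd_mul h1 h
  rw [Nat.mul_div_cancel' (Pad_dvd P m hm)] at h2
  rwa [pow_succ]

theorem tPad : PadStmt := by
  intro P m hP hm
  refine ⟨Pad_pos P m, Pad_dvd P m hm, ?_, ?_, Pad_prime P m⟩
  · apply Nat.coprime_of_dvd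
    intro p hp h1 h2
    exact Pad_not P m p hP hm hp h2 h1
  · apply Nat.coprime_of_dvd
    intro p hp h1 h2
    exact Pad_not P m p hP hm hp (Pad_prime P m p hp h2) h1

end Pool.Agent.Lib.TB
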