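import Pool.Agent.Lib.TB.SpecK

/-!
MP_00e23e_nt, directory Lib/TB, module Phs: one phase on a residue class.
-/

namespace Pool.Agent.Lib.TB

open Finset Pool.Agent.Lib.EH3

private lemma Phs_kn {k l1 l2 m1 m2 : ℕ} (h1 : l2 * m2 < l1 * m1)
    (h2 : k ∣ l1 * m1 - l2 * m2) : k * nn k l1 l2 m1 m2 + l2 * m2 = l1 * m1 := by
  unfold nn
  rw [Nat.mul_div_cancel' h2]
  omega

private lemma Phs_win {Q k l1 l2 m1 m2 n : ℕ} (hk : 1 ≤ k) (h : k * n + l2 * m2 = l1 * m1) :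
    Win Q k l1 l2 m1 m2 ↔ (Q < n ∧ n ≤ 2 * Q) := by
  unfold Win
  rw [← h, Nat.add_lt_add_iff_right, Nat.add_le_add_iff_right, mul_comm 2 k, mul_assoc,
    Nat.mul_lt_mul_left (by omega), Nat.mul_le_mul_left_iff (by omega)]

theorem tPhs (h1 : RecStmt) : PhsStmt := by
  intro θ ϑ Q k l1 l2 a b r hk hl1 hl2 ha hb hcop
  have hbk : b.Coprime k := Nat.Coprime.coprime_dvd_right ⟨l1 * l2 * a, by ring⟩ hcop
  have hbl1 : b.Coprime l1 := Nat.Coprime.coprime_dvd_right ⟨k * l2 * a, by ring⟩ hcop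
  have hbl2 : b.Coprime l2 := Nat.Coprime.coprime_dvd_right ⟨k * l1 * a, by ring⟩ hcop
  have hba : b.Coprime a := Nat.Coprime.coprime_dvd_right ⟨k * l1 * l2, by ring⟩ hcop
  have hm1 : 1 ≤ a * b := Nat.mul_pos ha hb
  -- the condition of ph gives Win and coprimality
  have hcond : ∀ m2 : ℕ, (l2 * m2 < l1 * (a * b) ∧ k ∣ l1 * (a * b) - l2 * m2 ∧
      Q < nn k l1 l2 (a * b) m2 ∧ nn k l1 l2 (a * b) m2 ≤ 2 * Q ∧
      (nn k l1 l2 (a * b) m2).Coprime (l1 * (a * b))) →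
      Win Q k l1 l2 (a * b) m2 ∧ m2.Coprime b ∧ (nn k l1 l2 (a * b) m2).Coprime (l1 * a) := by
    rintro m2 ⟨c1, c2, c3, c4, c5⟩
    have e := Phs_kn c1 c2
    refine ⟨(Phs_win hk e).2 ⟨c3, c4⟩, ?_, ?_⟩
    · by_contra hn
      obtain ⟨p, hp, hp1, hp2⟩ := Nat.Prime.not_coprime_iff_dvd.1 hn
      have h2 : p ∣ l1 * (a * b) := Dvd.dvd.mul_left (Dvd.dvd.mul_left hp2 _) _
      have h3 : p ∣ k * nn k l1 l2 (a * b) m2 := by
        have h4 : p ∣ l2 * m2 := Dvd.dvd.mul_left hp1 _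
        rw [← e] at h2
        exact (Nat.dvd_add_left h4).1 h2
      rcases (hp.dvd_mul).1 h3 with h5 | h5
      · exact Nat.not_coprime_of_dvd_of_dvd hp.one_lt hp2 h5 hbk
      · exact Nat.not_coprime_of_dvd_of_dvd hp.one_lt h5 h2 c5
    · exact Nat.Coprime.coprime_dvd_right ⟨b, by ring⟩ c5
  by_cases hact : ∃ m0 : ℕ, m0 ≡ r [MOD k * l1 * a] ∧ Win Q k l1 l2 (a * b) m0 ∧
      k ∣ l1 * (a * b) - l2 * m0 ∧ (nn k l1 l2 (a * b) m0).Coprime (l1 * a)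
  · obtain ⟨m0, hm0, hw0, hk0, hc0⟩ := hact
    have hlt0 : l2 * m0 < l1 * (a * b) := lt_of_le_of_lt (Nat.le_add_left _ _) hw0.1
    have e0 := Phs_kn hlt0 hk0
    refine ⟨ee (-((θ : ℝ) * ((l1 : ℝ) - l2) *
      (iv (b * nn k l1 l2 (a * b) m0) (l1 * a) : ℝ) / ((l1 * a : ℕ) : ℝ))), ?_, ?_⟩
    · rw [norm_ee]
    intro m2 hm2 hmr
    by_cases hW : Win Q k l1 l2 (a * b) m2 ∧ m2.Coprime b
    · rw [if_pos hW]
      obtain ⟨hw, hcb⟩ := hW
      have hlt : l2 * m2 < l1 * (a * b) := lt_of_le_of_lt (Nat.le_add_left _ _) hw.1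
      -- divisibility
      have hd : ((k * l1 * a : ℕ) : ℤ) ∣ (m0 : ℤ) - m2 := Nat.modEq_iff_dvd.1 (hmr.trans hm0.symm)
      obtain ⟨z, hz⟩ := hd
      have hk2 : k ∣ l1 * (a * b) - l2 * m2 := by
        have h2 : (k : ℤ) ∣ ((l1 * (a * b) - l2 * m2 : ℕ) : ℤ) := by
          rw [Nat.cast_sub hlt.le]
          have e0' : (k : ℤ) * (nn k l1 l2 (a * b) m0 : ℤ) + l2 * m0 = l1 * (a * b) := by
            exact_mod_cast e0
          refine ⟨(nn k l1 l2 (a * b) m0 : ℤ) + l2 * (l1 * a * z), ?_⟩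
          push_cast at hz ⊢
          linear_combination (-1 : ℤ) * e0' + (l2 : ℤ) * hz
        exact_mod_cast h2
      have e := Phs_kn hlt hk2
      have hwin := (Phs_win (Q := Q) hk e).1 hw
      -- congruence of the n
      have eZ : (k : ℤ) * (nn k l1 l2 (a * b) m2 : ℤ) + l2 * m2 = l1 * (a * b) := by
        exact_mod_cast e
      have e0Z : (k : ℤ) * (nn k l1 l2 (a * b) m0 : ℤ) + l2 * m0 = l1 * (a * b) := by
        exact_mod_cast e0
      obtain ⟨n, hn⟩ : ∃ n, n = nn k l1 l2 (a * b) m2 := ⟨_, rfl⟩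
      obtain ⟨n0, hn0⟩ : ∃ n0, n0 = nn k l1 l2 (a * b) m0 := ⟨_, rfl⟩
      rw [← hn] at e hwin eZ
      rw [← hn0] at e0 e0Z hc0
      have hkz : (k : ℤ) ≠ 0 := by exact_mod_cast (by omega : k ≠ 0)
      have hnn : (n : ℤ) - n0 = ((l1 * a : ℕ) : ℤ) * (l2 * z) := by
        apply mul_left_cancel₀ hkz
        push_cast at hz ⊢
        linear_combination eZ - e0Z + (l2 : ℤ) * hz
      have hmod : n0 ≡ n [MOD l1 * a] := Nat.modEq_iff_dvd.2 ⟨_, hnn⟩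
      have hcA : n.Coprime (l1 * a) := by
        have h2 : Nat.gcd n (l1 * a) = Nat.gcd n0 (l1 * a) := by
          exact (Nat.ModEq.gcd_eq hmod).symm
        unfold Nat.Coprime
        rw [h2]
        exact hc0
      have hcbn : n.Coprime b := by
        by_contra hnc
        obtain ⟨p, hp, hp1, hp2⟩ := Nat.Prime.not_coprime_iff_dvd.1 hnc
        have h2 : p ∣ l1 * (a * b) := Dvd.dvd.mul_left (Dvd.dvd.mul_left hp2 _) _
        rw [← e] at h2
        have h3 : p ∣ l2 * m2 := (Nat.dvd_add_right (Dvd.dvd.mul_left hp1 k)).1 h2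
        rcases (hp.dvd_mul).1 h3 with h5 | h5
        · exact Nat.not_coprime_of_dvd_of_dvd hp.one_lt hp2 h5 hbl2
        · exact Nat.not_coprime_of_dvd_of_dvd hp.one_lt h5 hp2 hcb
      have hcm : n.Coprime (l1 * (a * b)) := by
        rw [← mul_assoc]
        exact Nat.Coprime.mul_right hcA hcbn
      have hn1 : 1 ≤ n := by omega
      -- reciprocity
      have hA1 : 1 ≤ l1 * a := Nat.mul_pos hl1 ha
      have hbA : b.Coprime (l1 * a) := Nat.Coprime.mul_right hbl1 hba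
      have hwc : (l1 * l2 * a * m2).Coprime b :=
        Nat.Coprime.mul_left (Nat.Coprime.mul_left (Nat.Coprime.mul_left hbl1.symm hbl2.symm)
          hba.symm) hcb
      have d1 : (n : ℤ) ∣ (iv (l1 * (a * b)) n : ℤ) * (((l1 * a : ℕ) : ℤ) * b) - 1 := by
        have h2 := iv_dvd hcm.symm hn1
        have h3 : ((l1 * (a * b) : ℕ) : ℤ) = ((l1 * a : ℕ) : ℤ) * b := by push_cast; ring
        rwa [h3] at h2
      have d2 : ((l1 * a : ℕ) : ℤ) ∣ (iv (b * n) (l1 * a) : ℤ) * ((b : ℤ) * n) - 1 := by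
        have h2 := iv_dvd (Nat.Coprime.mul_left hbA hcA) hA1
        push_cast at h2 ⊢
        exact h2
      have d3 : (b : ℤ) ∣ (-(k : ℤ) * (iv (l1 * l2 * a * m2) b : ℤ)) *
          (((l1 * a : ℕ) : ℤ) * n) - 1 := by
        have h2 := iv_dvd hwc hb
        have h3 : (-(k : ℤ) * (iv (l1 * l2 * a * m2) b : ℤ)) * (((l1 * a : ℕ) : ℤ) * n) - 1 =
            ((iv (l1 * l2 * a * m2) b : ℤ) * ((l1 * l2 * a * m2 : ℕ) : ℤ) - 1) -
              b * ((iv (l1 * l2 * a * m2) b : ℤ) * (l1 * a) * (l1 * a)) := by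
          push_cast
          linear_combination (-(iv (l1 * l2 * a * m2) b : ℤ) * l1 * a) * eZ
        rw [h3]
        exact dvd_sub h2 (dvd_mul_right _ _)
      obtain ⟨z1, hz1⟩ := h1 (l1 * a) b n (iv (l1 * (a * b)) n) (iv (b * n) (l1 * a))
        (-(k : ℤ) * (iv (l1 * l2 * a * m2) b : ℤ)) hA1 hb hn1 hbA.symm hcA.symm hcbn.symm d1 d2 d3
      have hivc : iv (b * n0) (l1 * a) = iv (b * n) (l1 * a) :=
        iv_congr (Nat.ModEq.mul_left b hmod)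
      have hph : ph θ ϑ Q k l1 l2 (a * b) m2 =
          ee ((θ : ℝ) * ((l1 : ℝ) - l2) * (iv (l1 * (a * b)) n : ℝ) / (n : ℝ)) *
          ee (ϑ / (n : ℝ) * (1 / ((a * b : ℕ) : ℝ) - 1 / (m2 : ℝ))) := by
        unfold ph
        rw [← hn, if_pos ⟨hlt, hk2, hwin.1, hwin.2, hcm⟩]
      rw [hph, ← hn0, hivc, ← ee_add, ← ee_add, ← ee_add]
      have hkR : (k : ℝ) ≠ 0 := by exact_mod_cast (by omega : k ≠ 0)
      have hnR : (n : ℝ) ≠ 0 := by exact_mod_cast (by omega : n ≠ 0)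
      have hAR : (l1 : ℝ) ≠ 0 := by exact_mod_cast (by omega : l1 ≠ 0)
      have haR : (a : ℝ) ≠ 0 := by exact_mod_cast (by omega : a ≠ 0)
      have hbR : (b : ℝ) ≠ 0 := by exact_mod_cast (by omega : b ≠ 0)
      have eR : (l1 : ℝ) * ((a * b : ℕ) : ℝ) - (l2 : ℝ) * m2 = k * n := by
        have h2 : (k : ℝ) * n + l2 * m2 = l1 * ((a * b : ℕ) : ℝ) := by
          exact_mod_cast e
        linarith
      have hkn : (k : ℝ) / ((l1 : ℝ) * ((a * b : ℕ) : ℝ) - (l2 : ℝ) * m2) = 1 / n := by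
        rw [eR]
        field_simp
      have key : (θ : ℝ) * ((l1 : ℝ) - l2) * (iv (l1 * (a * b)) n : ℝ) / (n : ℝ) +
          ϑ / (n : ℝ) * (1 / ((a * b : ℕ) : ℝ) - 1 / (m2 : ℝ)) =
          -((θ : ℝ) * ((l1 : ℝ) - l2) * (iv (b * n) (l1 * a) : ℝ) / ((l1 * a : ℕ) : ℝ)) +
          (((θ * ((l1 : ℤ) - l2) * k * (iv (l1 * l2 * a * m2) b : ℤ) : ℤ) : ℝ) / b) +
          ps θ ϑ k l1 l2 (a * b) m2 + ((θ * ((l1 : ℤ) - l2) * z1 : ℤ) : ℝ) := by
        unfold ps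
        rw [hkn]
        have hz2 : (iv (l1 * (a * b)) n : ℝ) / n = 1 / (((l1 * a : ℕ) : ℝ) * b * n) + z1 -
            (iv (b * n) (l1 * a) : ℝ) / ((l1 * a : ℕ) : ℝ) +
            (k : ℝ) * (iv (l1 * l2 * a * m2) b : ℝ) / b := by
          have h2 := hz1
          push_cast at h2 ⊢
          linear_combination h2
        have hz3 : (θ : ℝ) * ((l1 : ℝ) - l2) * (iv (l1 * (a * b)) n : ℝ) / (n : ℝ) =
            (θ : ℝ) * ((l1 : ℝ) - l2) * ((iv (l1 * (a * b)) n : ℝ) / (n : ℝ)) := by ring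
        rw [hz3, hz2]
        push_cast
        field_simp
        ring
      rw [key, ee_add_int]
    · rw [if_neg hW]
      unfold ph
      rw [if_neg]
      intro hc
      obtain ⟨g1, g2, -⟩ := hcond m2 hc
      exact hW ⟨g1, g2⟩
  · refine ⟨0, by simp, ?_⟩
    intro m2 hm2 hmr
    have h2 : ph θ ϑ Q k l1 l2 (a * b) m2 = 0 := by
      unfold ph
      rw [if_neg]
      intro hc
      obtain ⟨g1, g2, g3⟩ := hcond m2 hc
      exact hact ⟨m2, hmr, g1, hc.2.1, g3⟩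
    rw [h2, zero_mul, zero_mul, ite_self]

end Pool.Agent.Lib.TB
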