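import Pool.Agent.Lib.TB.SpecK

/-! MP_00e23e_nt, Lib/TB: module Psm (partial summation). -/

namespace Pool.Agent.Lib.TB

open Finset Pool.Agent.Lib.EH3

private lemma Psm_id (f g : ℕ → ℂ) (T1 T : ℕ) (h : T1 ≤ T) :
    ∑ t ∈ Ico T1 (T + 1), f t * g t =
      (∑ t ∈ Ico T1 (T + 1), f t) * g T -
        ∑ t ∈ Ico T1 T, (∑ u ∈ Ico T1 (t + 1), f u) * (g (t + 1) - g t) := by
  induction T, h using Nat.le_induction with
  | base => simp
  | succ T hT ih =>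
    rw [Finset.sum_Ico_succ_top (by omega : T1 ≤ T + 1) (fun t => f t * g t), ih,
      Finset.sum_Ico_succ_top (by omega : T1 ≤ T + 1) f,
      Finset.sum_Ico_succ_top hT
        (fun t => (∑ u ∈ Ico T1 (t + 1), f u) * (g (t + 1) - g t))]
    ring

theorem tPsm : PsmStmt := by
  intro f g T1 T2 B hT hf hg
  have hB : 0 ≤ B := (norm_nonneg _).trans (hf T1 le_rfl hT)
  rcases Nat.eq_or_lt_of_le hT with h | h
  · subst h
    have h1 : 0 ≤ ∑ t ∈ Ico T1 (T1 - 1), ‖g (t + 1) - g t‖ :=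
      Finset.sum_nonneg fun _ _ => norm_nonneg _
    rw [Finset.Ico_self, Finset.sum_empty, norm_zero]
    positivity
  · obtain ⟨T, rfl⟩ : ∃ T, T2 = T + 1 := ⟨T2 - 1, by omega⟩
    rw [Psm_id f g T1 T (by omega), Nat.add_sub_cancel]
    have h1 : ‖(∑ t ∈ Ico T1 (T + 1), f t) * g T‖ ≤ B := by
      rw [norm_mul]
      calc _ ≤ B * 1 := mul_le_mul (hf (T + 1) (by omega) le_rfl) (hg T) (norm_nonneg _) hB
        _ = B := mul_one B
    have h2 : ‖∑ t ∈ Ico T1 T, (∑ u ∈ Ico T1 (t + 1), f u) * (g (t + 1) - g t)‖ ≤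
        B * ∑ t ∈ Ico T1 T, ‖g (t + 1) - g t‖ := by
      rw [Finset.mul_sum]
      refine (norm_sum_le _ _).trans (Finset.sum_le_sum fun t ht => ?_)
      rw [Finset.mem_Ico] at ht
      rw [norm_mul]
      exact mul_le_mul_of_nonneg_right (hf (t + 1) (by omega) (by omega)) (norm_nonneg _)
    calc _ ≤ ‖(∑ t ∈ Ico T1 (T + 1), f t) * g T‖ +
          ‖∑ t ∈ Ico T1 T, (∑ u ∈ Ico T1 (t + 1), f u) * (g (t + 1) - g t)‖ := norm_sub_le _ _
      _ ≤ B + B * ∑ t ∈ Ico T1 T, ‖g (t + 1) - g t‖ := add_le_add h1 h2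
      _ = _ := by ring

end Pool.Agent.Lib.TB
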