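import Pool.Agent.Lib.TB.SpecK
set_option autoImplicit false

namespace Pool.Agent.Lib.TB

open Finset Pool.Agent.Lib.EH3

theorem tRec : RecStmt := by
  intro A b n α β γ hA hb hn hAb hAn hbn h1 h2 h3
  have d1 : (n : ℤ) ∣ α * (A * b) + β * (b * n) + γ * (A * n) - 1 := by
    have e : α * (A * b) + β * (b * n) + γ * (A * n) - 1 =
        (α * (A * b) - 1) + (n : ℤ) * (β * b + γ * A) := by ring
    rw [e]
    exact dvd_add h1 (dvd_mul_right _ _)
  have d2 : (A : ℤ) ∣ α * (A * b) + β * (b * n) + γ * (A * n) - 1 := by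
    have e : α * (A * b) + β * (b * n) + γ * (A * n) - 1 =
        (β * (b * n) - 1) + (A : ℤ) * (α * b + γ * n) := by ring
    rw [e]
    exact dvd_add h2 (dvd_mul_right _ _)
  have d3 : (b : ℤ) ∣ α * (A * b) + β * (b * n) + γ * (A * n) - 1 := by
    have e : α * (A * b) + β * (b * n) + γ * (A * n) - 1 =
        (γ * (A * n) - 1) + (b : ℤ) * (α * A + β * n) := by ring
    rw [e]
    exact dvd_add h3 (dvd_mul_right _ _)
  have c1 : IsCoprime (A : ℤ) (b : ℤ) := Nat.isCoprime_iff_coprime.mpr hAb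
  have c2 : IsCoprime (A : ℤ) (n : ℤ) := Nat.isCoprime_iff_coprime.mpr hAn
  have c3 : IsCoprime (b : ℤ) (n : ℤ) := Nat.isCoprime_iff_coprime.mpr hbn
  have d4 : (A : ℤ) * b * n ∣ α * (A * b) + β * (b * n) + γ * (A * n) - 1 :=
    (c2.mul_left c3).mul_dvd (c1.mul_dvd d2 d3) d1
  obtain ⟨z, hz⟩ := d4
  refine ⟨z, ?_⟩
  have hz' : (α : ℝ) * (A * b) + β * (b * n) + γ * (A * n) - 1 = A * b * n * z := by
    exact_mod_cast hz
  have hA' : (A : ℝ) ≠ 0 := by positivity
  have hb' : (b : ℝ) ≠ 0 := by positivity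
  have hn' : (n : ℝ) ≠ 0 := by positivity
  field_simp
  linarith

end Pool.Agent.Lib.TB
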