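import Pool.Agent.Lib.TB.SpecK

/-!
MP_00e23e_nt, Lib/TB, module Sma (helper16): the sum of the square roots of the P-parts.
-/

namespace Pool.Agent.Lib.TB

open Finset Pool.Agent.Lib.EH3

private lemma Sma_not_dvd (p m : ℕ) (S : Finset ℕ) (hpS : p ∉ S) (h : ¬ p ∣ m) :
    (∏ q ∈ insert p S, q ^ m.factorization q) = ∏ q ∈ S, q ^ m.factorization q := by
  rw [Finset.prod_insert hpS, Nat.factorization_eq_zero_of_not_dvd h, pow_zero, one_mul]

private lemma Sma_mul (p m : ℕ) (S : Finset ℕ) (hp : p.Prime) (hm : m ≠ 0) (hpS : p ∉ S) :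
    (∏ q ∈ insert p S, q ^ (p * m).factorization q) =
      p * ∏ q ∈ insert p S, q ^ m.factorization q := by
  have h1 : ∀ q, (p * m).factorization q = (if q = p then 1 else 0) + m.factorization q := by
    intro q
    rw [Nat.factorization_mul hp.ne_zero hm, Finsupp.add_apply, Nat.Prime.factorization hp,
      Finsupp.single_apply]
    congr 1
    by_cases h : p = q
    · rw [if_pos h, if_pos h.symm]
    · rw [if_neg h, if_neg (fun h' => h h'.symm)]
  rw [Finset.prod_insert hpS, Finset.prod_insert hpS, h1 p, if_pos rfl, pow_add, pow_one, mul_assoc]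
  congr 2
  refine Finset.prod_congr rfl fun q hq => ?_
  have h2 : q ≠ p := fun h => hpS (h ▸ hq)
  rw [h1 q, if_neg h2, zero_add]

private lemma Sma_main (S : Finset ℕ) (hS : ∀ p ∈ S, p.Prime) : ∀ N : ℕ,
    ∑ m ∈ Icc 1 N, ((∏ p ∈ S, p ^ m.factorization p : ℕ) : ℝ) ^ (1 / 2 : ℝ) ≤
      4 ^ S.card * (N : ℝ) := by
  induction S using Finset.induction_on with
  | empty =>
    intro N
    simp
  | insert p S hpS ih =>
    have ih' := ih (fun q hq => hS q (Finset.mem_insert_of_mem hq))
    have hp : p.Prime := hS p (Finset.mem_insert_self _ _)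
    intro N
    induction N using Nat.strong_induction_on with
    | _ N ihN =>
      rcases Nat.eq_zero_or_pos N with hN | hN
      · subst hN
        simp
      · have hlt : N / p < N := Nat.div_lt_self hN hp.one_lt
        have h1 := ihN (N / p) hlt
        have hpp : (0 : ℝ) < p := by exact_mod_cast hp.pos
        set f : ℕ → ℝ := fun m =>
          ((∏ q ∈ insert p S, q ^ m.factorization q : ℕ) : ℝ) ^ (1 / 2 : ℝ) with hf
        set g : ℕ → ℝ := fun m =>
          ((∏ q ∈ S, q ^ m.factorization q : ℕ) : ℝ) ^ (1 / 2 : ℝ) with hg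
        have hfm : ∀ m, m ≠ 0 → f (p * m) = Real.sqrt p * f m := by
          intro m hm
          simp only [hf]
          rw [Sma_mul p m S hp hm hpS, Nat.cast_mul,
            Real.mul_rpow (Nat.cast_nonneg _) (Nat.cast_nonneg _), Real.sqrt_eq_rpow]
        have hsplit := Finset.sum_filter_add_sum_filter_not (Icc 1 N) (fun m => p ∣ m) f
        have hA : ∑ m ∈ (Icc 1 N).filter (fun m => p ∣ m), f m =
            Real.sqrt p * ∑ m ∈ Icc 1 (N / p), f m := by
          rw [Finset.mul_sum]
          refine Finset.sum_nbij' (fun m => m / p) (fun m => p * m) ?_ ?_ ?_ ?_ ?_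
          · intro m hm
            rw [Finset.mem_filter, Finset.mem_Icc] at hm
            rw [Finset.mem_Icc]
            exact ⟨Nat.div_pos (Nat.le_of_dvd hm.1.1 hm.2) hp.pos, Nat.div_le_div_right hm.1.2⟩
          · intro m hm
            rw [Finset.mem_Icc] at hm
            rw [Finset.mem_filter, Finset.mem_Icc]
            refine ⟨⟨Nat.mul_pos hp.pos hm.1, ?_⟩, dvd_mul_right _ _⟩
            calc p * m ≤ p * (N / p) := Nat.mul_le_mul_left _ hm.2
              _ ≤ N := Nat.mul_div_le _ _
          · intro m hm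
            rw [Finset.mem_filter] at hm
            exact Nat.mul_div_cancel' hm.2
          · intro m _
            exact Nat.mul_div_cancel_left _ hp.pos
          · intro m hm
            rw [Finset.mem_filter, Finset.mem_Icc] at hm
            have h2 : m / p ≠ 0 := (Nat.div_pos (Nat.le_of_dvd hm.1.1 hm.2) hp.pos).ne'
            rw [← hfm (m / p) h2, Nat.mul_div_cancel' hm.2]
        have hB : ∑ m ∈ (Icc 1 N).filter (fun m => ¬ p ∣ m), f m ≤ 4 ^ S.card * (N : ℝ) := by
          refine le_trans ?_ (ih' N)
          calc ∑ m ∈ (Icc 1 N).filter (fun m => ¬ p ∣ m), f m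
              = ∑ m ∈ (Icc 1 N).filter (fun m => ¬ p ∣ m), g m := by
                refine Finset.sum_congr rfl fun m hm => ?_
                rw [Finset.mem_filter] at hm
                simp only [hf, hg]
                rw [Sma_not_dvd p m S hpS hm.2]
            _ ≤ ∑ m ∈ Icc 1 N, g m :=
                Finset.sum_le_sum_of_subset_of_nonneg (Finset.filter_subset _ _)
                  (fun m _ _ => Real.rpow_nonneg (Nat.cast_nonneg _) _)
        have hcard : (insert p S).card = S.card + 1 := Finset.card_insert_of_notMem hpS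
        rw [← hsplit, hA, hcard]
        rw [hcard] at h1
        have h3 : ((N / p : ℕ) : ℝ) ≤ (N : ℝ) / p := Nat.cast_div_le
        have hs2 : (4 / 3 : ℝ) ≤ Real.sqrt p := by
          rw [show (4 / 3 : ℝ) = Real.sqrt (16 / 9) by
            rw [show (16 / 9 : ℝ) = (4 / 3) ^ 2 by norm_num, Real.sqrt_sq (by norm_num)]]
          refine Real.sqrt_le_sqrt ?_
          have : (2 : ℝ) ≤ p := by exact_mod_cast hp.two_le
          linarith
        have hs0 : 0 < Real.sqrt p := by positivity
        have hsq : Real.sqrt p * Real.sqrt p = p := Real.mul_self_sqrt hpp.le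
        have hc : (0 : ℝ) < 4 ^ S.card := by positivity
        have hN0 : (0 : ℝ) ≤ N := Nat.cast_nonneg _
        have h4 : Real.sqrt p * ∑ m ∈ Icc 1 (N / p), f m ≤
            3 * (4 ^ S.card * (N : ℝ)) := by
          calc Real.sqrt p * ∑ m ∈ Icc 1 (N / p), f m
              ≤ Real.sqrt p * (4 ^ (S.card + 1) * ((N : ℝ) / p)) := by
                refine mul_le_mul_of_nonneg_left (h1.trans ?_) hs0.le
                exact mul_le_mul_of_nonneg_left h3 (by positivity)
            _ = 4 / Real.sqrt p * (4 ^ S.card * (N : ℝ)) := by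
                rw [pow_succ]
                nth_rewrite 2 [← hsq]
                field_simp
            _ ≤ 3 * (4 ^ S.card * (N : ℝ)) := by
                refine mul_le_mul_of_nonneg_right ?_ (by positivity)
                rw [div_le_iff₀ hs0]
                linarith
        calc Real.sqrt p * ∑ m ∈ Icc 1 (N / p), f m + ∑ m ∈ (Icc 1 N).filter (fun m => ¬ p ∣ m), f m
            ≤ 3 * (4 ^ S.card * (N : ℝ)) + 4 ^ S.card * (N : ℝ) := add_le_add h4 hB
          _ = 4 ^ (S.card + 1) * (N : ℝ) := by ring

theorem tSma (_hPad : PadStmt) : SmaStmt := by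
  intro P N _
  exact Sma_main P.primeFactors (fun p hp => Nat.prime_of_mem_primeFactors hp) N

end Pool.Agent.Lib.TB
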