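import Pool.Agent.Lib.TB.SpecK

/-! MP_00e23e_nt, directory Lib/TB, module Smg: the sum of gcd(D, m)^(1/2). -/

namespace Pool.Agent.Lib.TB

open Finset Pool.Agent.Lib.EH3

private theorem Smg_one (D : ℤ) (hD : D ≠ 0) (m : ℕ) :
    (Int.gcd D m : ℝ) ^ (1 / 2 : ℝ) ≤
      ∑ d ∈ D.natAbs.divisors, if d ∣ m then (d : ℝ) ^ (1 / 2 : ℝ) else 0 := by
  have h1 : Int.gcd D m ∈ D.natAbs.divisors := by
    rw [Nat.mem_divisors]
    exact ⟨Int.gcd_dvd_natAbs_left D m, Int.natAbs_ne_zero.2 hD⟩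
  have h2 : Int.gcd D m ∣ m := by
    have := Int.gcd_dvd_natAbs_right D m
    simpa using this
  have h3 := Finset.single_le_sum (f := fun d : ℕ => if d ∣ m then (d : ℝ) ^ (1 / 2 : ℝ) else 0)
    (fun d _ => by
      split_ifs
      · positivity
      · exact le_refl _) h1
  simp only [h2, if_true] at h3
  exact h3

theorem tSmg : SmgStmt := by
  intro D N hD
  calc ∑ m ∈ Icc 1 N, (Int.gcd D m : ℝ) ^ (1 / 2 : ℝ)
      ≤ ∑ m ∈ Icc 1 N, ∑ d ∈ D.natAbs.divisors, (if d ∣ m then (d : ℝ) ^ (1 / 2 : ℝ) else 0) :=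
        Finset.sum_le_sum fun m _ => Smg_one D hD m
    _ = ∑ d ∈ D.natAbs.divisors, ∑ m ∈ Icc 1 N, (if d ∣ m then (d : ℝ) ^ (1 / 2 : ℝ) else 0) :=
        Finset.sum_comm
    _ ≤ ∑ _d ∈ D.natAbs.divisors, (N : ℝ) := by
        refine Finset.sum_le_sum fun d hd => ?_
        have hd0 : 0 < d := Nat.pos_of_mem_divisors hd
        rw [← Finset.sum_filter, Finset.sum_const, nsmul_eq_mul]
        have h1 : ((Icc 1 N).filter fun m => d ∣ m).card = N / d := by
          rw [← Nat.Ioc_filter_dvd_card_eq_div]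
          rfl
        rw [h1]
        have h2 : ((N / d : ℕ) : ℝ) ≤ (N : ℝ) / d := Nat.cast_div_le
        have h3 : (d : ℝ) ^ (1 / 2 : ℝ) ≤ (d : ℝ) := by
          have h4 : (1 : ℝ) ≤ d := by exact_mod_cast hd0
          calc (d : ℝ) ^ (1 / 2 : ℝ) ≤ (d : ℝ) ^ (1 : ℝ) :=
                Real.rpow_le_rpow_of_exponent_le h4 (by norm_num)
            _ = d := Real.rpow_one _
        have h5 : (0 : ℝ) < d := by exact_mod_cast hd0
        calc ((N / d : ℕ) : ℝ) * (d : ℝ) ^ (1 / 2 : ℝ) ≤ ((N : ℝ) / d) * d :=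
              mul_le_mul h2 h3 (by positivity) (by positivity)
          _ = N := by field_simp
    _ = (D.natAbs.divisors.card : ℝ) * N := by
        rw [Finset.sum_const, nsmul_eq_mul]

end Pool.Agent.Lib.TB
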