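import Pool.Agent.Lib.TB.SpecK

/-! MP_00e23e_nt, Lib/TB: module Wt (Abel summation with the phases). -/

namespace Pool.Agent.Lib.TB

open Finset Pool.Agent.Lib.EH3

private lemma Wt_ee (x y : ℝ) : ‖ee x - ee y‖ ≤ 7 * |x - y| := by
  have h1 : ee x - ee y = ee y * (ee (x - y) - 1) := by
    rw [mul_sub, ← ee_add, mul_one]
    congr 2
    ring
  rw [h1, norm_mul, norm_ee, one_mul]
  have h2 : ‖ee (x - y) - 1‖ ≤ ‖2 * Real.pi * (x - y)‖ := by
    unfold ee
    exact Real.norm_exp_I_mul_ofReal_sub_one_le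
  refine h2.trans ?_
  rw [Real.norm_eq_abs, abs_mul, abs_of_pos Real.two_pi_pos]
  refine mul_le_mul_of_nonneg_right ?_ (abs_nonneg _)
  have := Real.pi_lt_d2
  linarith

/-- telescoping for a bounded monotone sequence -/
private lemma Wt_tel (u : ℕ → ℝ) (T1 T : ℕ) (h : T1 ≤ T) :
    ∑ t ∈ Ico T1 T, (u (t + 1) - u t) = u T - u T1 := by
  induction T, h using Nat.le_induction with
  | base => simp
  | succ T hT ih =>
    rw [Finset.sum_Ico_succ_top hT, ih]
    ring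

private lemma Wt_prod {u0 u1 v0 v1 q : ℝ} (hu : u0 ≤ u1) (hv : v0 ≤ v1) (h1 : |v1| ≤ q)
    (h0 : |u0| ≤ q) : |u1 * v1 - u0 * v0| ≤ q * (u1 - u0) + q * (v1 - v0) := by
  have e : u1 * v1 - u0 * v0 = v1 * (u1 - u0) + u0 * (v1 - v0) := by ring
  rw [e]
  refine (abs_add_le _ _).trans ?_
  rw [abs_mul, abs_mul, abs_of_nonneg (sub_nonneg.2 hu), abs_of_nonneg (sub_nonneg.2 hv)]
  exact add_le_add (mul_le_mul_of_nonneg_right h1 (sub_nonneg.2 hu))
    (mul_le_mul_of_nonneg_right h0 (sub_nonneg.2 hv))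

theorem tWt (h1 : PsmStmt) : WtStmt := by
  intro f u u' v T1 T2 A A' θ ϑ Q B hQ hT hf hmono hbd hA hA'
  have hB : 0 ≤ B := (norm_nonneg _).trans (hf T1 le_rfl hT)
  obtain ⟨ψ, hψ⟩ : ∃ ψ : ℕ → ℝ, ∀ t, ψ t =
      (A * u t + ϑ * (u t * v t)) - (A' * u' t + ϑ * (u' t * v t)) := ⟨_, fun t => rfl⟩
  have hkey := h1 f (fun t => ee (ψ t)) T1 T2 B hT hf (fun t => (norm_ee _).le)
  have hq : (0 : ℝ) ≤ 1 / Q := by positivity
  have hsum : ∑ t ∈ Ico T1 (T2 - 1), ‖ee (ψ (t + 1)) - ee (ψ t)‖ ≤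
      84 * ((|θ| + |ϑ|) / Q ^ 2) := by
    rcases Nat.eq_or_lt_of_le hT with h | h
    · subst h
      rw [Finset.Ico_eq_empty (by omega), Finset.sum_empty]
      positivity
    obtain ⟨T, rfl⟩ : ∃ T, T2 = T + 1 := ⟨T2 - 1, by omega⟩
    rw [Nat.add_sub_cancel]
    have hTT : T1 ≤ T := by omega
    have hterm : ∀ t ∈ Ico T1 T, ‖ee (ψ (t + 1)) - ee (ψ t)‖ ≤
        7 * (3 * |θ| / Q * ((u (t + 1) - u t) + (u' (t + 1) - u' t)) +
          |ϑ| * (1 / Q * (u (t + 1) - u t) + 1 / Q * (v (t + 1) - v t) +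
            (1 / Q * (u' (t + 1) - u' t) + 1 / Q * (v (t + 1) - v t)))) := by
      intro t ht
      rw [Finset.mem_Ico] at ht
      obtain ⟨m1, m2, m3⟩ := hmono t ht.1 (by omega)
      obtain ⟨b1, b2, b3⟩ := hbd t ht.1 (by omega)
      obtain ⟨c1, c2, c3⟩ := hbd (t + 1) (by omega) (by omega)
      refine (Wt_ee _ _).trans ?_
      refine mul_le_mul_of_nonneg_left ?_ (by norm_num)
      have e : ψ (t + 1) - ψ t = (A * (u (t + 1) - u t) +
          ϑ * (u (t + 1) * v (t + 1) - u t * v t)) - (A' * (u' (t + 1) - u' t) +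
          ϑ * (u' (t + 1) * v (t + 1) - u' t * v t)) := by
        rw [hψ, hψ]
        ring
      have k1 : |A * (u (t + 1) - u t)| ≤ 3 * |θ| / Q * (u (t + 1) - u t) := by
        rw [abs_mul, abs_of_nonneg (sub_nonneg.2 m1)]
        exact mul_le_mul_of_nonneg_right hA (sub_nonneg.2 m1)
      have k2 : |A' * (u' (t + 1) - u' t)| ≤ 3 * |θ| / Q * (u' (t + 1) - u' t) := by
        rw [abs_mul, abs_of_nonneg (sub_nonneg.2 m2)]
        exact mul_le_mul_of_nonneg_right hA' (sub_nonneg.2 m2)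
      have k3 : |ϑ * (u (t + 1) * v (t + 1) - u t * v t)| ≤
          |ϑ| * (1 / Q * (u (t + 1) - u t) + 1 / Q * (v (t + 1) - v t)) := by
        rw [abs_mul]
        exact mul_le_mul_of_nonneg_left (Wt_prod m1 m3 c3 b1) (abs_nonneg _)
      have k4 : |ϑ * (u' (t + 1) * v (t + 1) - u' t * v t)| ≤
          |ϑ| * (1 / Q * (u' (t + 1) - u' t) + 1 / Q * (v (t + 1) - v t)) := by
        rw [abs_mul]
        exact mul_le_mul_of_nonneg_left (Wt_prod m2 m3 c3 b2) (abs_nonneg _)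
      rw [e]
      have k5 := abs_sub (A * (u (t + 1) - u t) +
          ϑ * (u (t + 1) * v (t + 1) - u t * v t)) (A' * (u' (t + 1) - u' t) +
          ϑ * (u' (t + 1) * v (t + 1) - u' t * v t))
      have k6 := abs_add_le (A * (u (t + 1) - u t)) (ϑ * (u (t + 1) * v (t + 1) - u t * v t))
      have k7 := abs_add_le (A' * (u' (t + 1) - u' t)) (ϑ * (u' (t + 1) * v (t + 1) - u' t * v t))
      linarith
    refine (Finset.sum_le_sum hterm).trans ?_
    rw [← Finset.mul_sum, Finset.sum_add_distrib, ← Finset.mul_sum, ← Finset.mul_sum,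
      Finset.sum_add_distrib, Finset.sum_add_distrib, Finset.sum_add_distrib,
      Finset.sum_add_distrib, ← Finset.mul_sum, ← Finset.mul_sum, ← Finset.mul_sum,
      Wt_tel u T1 T hTT, Wt_tel u' T1 T hTT, Wt_tel v T1 T hTT]
    obtain ⟨b1, b2, b3⟩ := hbd T hTT (by omega)
    obtain ⟨c1, c2, c3⟩ := hbd T1 le_rfl (by omega)
    have d1 : u T - u T1 ≤ 2 * (1 / Q) := by
      have := (abs_le.1 b1).2
      have := (abs_le.1 c1).1
      linarith
    have d2 : u' T - u' T1 ≤ 2 * (1 / Q) := by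
      have := (abs_le.1 b2).2
      have := (abs_le.1 c2).1
      linarith
    have d3 : v T - v T1 ≤ 2 * (1 / Q) := by
      have := (abs_le.1 b3).2
      have := (abs_le.1 c3).1
      linarith
    have s1 : 3 * |θ| / Q * (u T - u T1 + (u' T - u' T1)) ≤ 3 * |θ| / Q * (4 * (1 / Q)) :=
      mul_le_mul_of_nonneg_left (by linarith) (by positivity)
    have s2 : |ϑ| * (1 / Q * (u T - u T1) + 1 / Q * (v T - v T1) +
        (1 / Q * (u' T - u' T1) + 1 / Q * (v T - v T1))) ≤ |ϑ| * (1 / Q * (8 * (1 / Q))) := by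
      refine mul_le_mul_of_nonneg_left ?_ (abs_nonneg _)
      have : 1 / Q * (u T - u T1) + 1 / Q * (v T - v T1) +
        (1 / Q * (u' T - u' T1) + 1 / Q * (v T - v T1)) =
        1 / Q * (u T - u T1 + (v T - v T1) + (u' T - u' T1) + (v T - v T1)) := by ring
      rw [this]
      exact mul_le_mul_of_nonneg_left (by linarith) hq
    have s3 : 7 * (3 * |θ| / Q * (4 * (1 / Q)) + |ϑ| * (1 / Q * (8 * (1 / Q)))) ≤
        84 * ((|θ| + |ϑ|) / Q ^ 2) := by
      have e1 : 7 * (3 * |θ| / Q * (4 * (1 / Q)) + |ϑ| * (1 / Q * (8 * (1 / Q)))) =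
          (84 * |θ| + 56 * |ϑ|) / Q ^ 2 := by
        field_simp
        ring
      rw [e1, ← mul_div_assoc]
      refine div_le_div_of_nonneg_right ?_ (by positivity)
      have := abs_nonneg ϑ
      linarith
    linarith
  have hfin : B * (1 + ∑ t ∈ Ico T1 (T2 - 1), ‖ee (ψ (t + 1)) - ee (ψ t)‖) ≤
      B * (84 * (1 + (|θ| + |ϑ|) / Q ^ 2)) := by
    refine mul_le_mul_of_nonneg_left ?_ hB
    linarith
  refine le_trans (le_of_eq ?_) (hkey.trans hfin)
  congr 1
  refine Finset.sum_congr rfl fun t _ => ?_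
  rw [hψ]

end Pool.Agent.Lib.TB
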