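import Pool.Agent.Lib.TB.GlueK
import Pool.Agent.Lib.TB.Kl
import Pool.Agent.Lib.TB.Klb
import Pool.Agent.Lib.TB.Geo
import Pool.Agent.Lib.TB.Cmp
import Pool.Agent.Lib.TB.Apk
import Pool.Agent.Lib.TB.Inc
import Pool.Agent.Lib.TB.Psm
import Pool.Agent.Lib.TB.Wt
import Pool.Agent.Lib.TB.Rec
import Pool.Agent.Lib.TB.Phs
import Pool.Agent.Lib.TB.Cpr
import Pool.Agent.Lib.TB.Itv
import Pool.Agent.Lib.TB.Cin
import Pool.Agent.Lib.TB.Pad
import Pool.Agent.Lib.TB.Row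
import Pool.Agent.Lib.TB.Sma
import Pool.Agent.Lib.TB.Smg
import Pool.Agent.Lib.TB.Tauk
import Pool.Agent.Lib.TB.Kas
import Pool.Agent.Lib.TB.A0
import Pool.Agent.Lib.TB.A1
import Pool.Agent.Lib.TB.A2
import Pool.Agent.Lib.TB.A3
import Pool.Agent.Lib.TB.A4
import Pool.Agent.Lib.TB.A5
import Pool.Agent.Lib.TB.A6
import Pool.Agent.Lib.TB.A7
import Pool.Agent.Lib.TB.A8
import Pool.Agent.Lib.TB.A9
import Pool.Agent.Lib.TB.A10
import Pool.Agent.Lib.TB.A11
import Pool.Agent.Lib.TB.A12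
import Pool.Agent.Lib.TB.A13
import Pool.Agent.Lib.TB.A14

/-!
MP_00e23e_nt, directory Lib/TB, module AllA: bilinear forms in Kloosterman fractions (parts K and A
put together).
-/

namespace Pool.Agent.Lib.TB

/-- the estimate of part K -/
theorem tKfin : KStmt := by
  have hklb : KlbStmt := tKlb tKl
  have hcmp : CmpStmt := tCmp tGeo
  have hinc : IncStmt := tInc hklb hcmp tApk
  have hcin : CinStmt := tCin hinc (tWt tPsm) (tCpr (tPhs tRec)) tItv
  exact tKas (tRow hcin tPad) (tSma tPad) tSmg tTauk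

/-- the bound for bilinear forms in Kloosterman fractions -/
theorem tBil : BilStmt := by
  have h9 : SA9 := tA9 tA6 tA7 (tA8 tA0) (tStK tKfin)
  have h10 : SA10 := tA10 tA1 (tA2 tA0) tA3 (tA4 tA0) (tA5 tA0)
  exact tA14 (tA13 h9 h10 tA11 tA12)

end Pool.Agent.Lib.TB
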