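import Pool.Agent.Lib.TB.SpecG

/-!
MP_00e23e_nt, directory Lib/TB: module G2, the trivial bound for one greatest common divisor.
-/

namespace Pool.Agent.Lib.TB

open Finset Pool.Agent.Lib.EH3

/-- one pair: the error term is at most `4 N g / Q ^ 2 + 1` -/
private lemma G2_pair (h : SsbdStmt) (N Q g : ℕ) (c c' : ℕ → ℝ) (a b : ℤ) (hN : 1 ≤ N) (hQ : 1 ≤ Q)
    (hg : 1 ≤ g) (hc : ∀ d, |c d| ≤ 1) (hc' : ∀ d, |c' d| ≤ 1) {m n : ℕ} (hm : Q / g < m)
    (hn : Q / g < n) (hmn : m.Coprime n) :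
    ‖fE N g c c' a b m n‖ ≤ 4 * (N : ℝ) * g / (Q : ℝ) ^ 2 + 1 := by
  have hgR : (0 : ℝ) < g := by exact_mod_cast hg
  have hQR : (0 : ℝ) < Q := by exact_mod_cast hQ
  have hNR : (0 : ℝ) < N := by exact_mod_cast hN
  have hm1 : Q < g * m := by
    have := (Nat.div_lt_iff_lt_mul hg).1 hm
    rwa [mul_comm] at this
  have hn1 : Q < g * n := by
    have := (Nat.div_lt_iff_lt_mul hg).1 hn
    rwa [mul_comm] at this
  have hl : Nat.lcm (g * m) (g * n) = g * (m * n) := by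
    rw [Nat.lcm_mul_left, hmn.lcm_eq_mul]
  have h2 := (h N (g * m) (g * n) a b hN (by omega) (by omega)).2
  rw [hl] at h2
  have hmR : (Q : ℝ) < g * m := by exact_mod_cast hm1
  have hnR : (Q : ℝ) < g * n := by exact_mod_cast hn1
  have hlow : (Q : ℝ) ^ 2 / g ≤ ((g * (m * n) : ℕ) : ℝ) := by
    rw [div_le_iff₀ hgR]
    push_cast
    have h3 : (Q : ℝ) * Q ≤ (g * m) * (g * n) :=
      mul_le_mul hmR.le hnR.le hQR.le (hQR.trans hmR).le
    nlinarith [h3]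
  have hpos : (0 : ℝ) < (Q : ℝ) ^ 2 / g := by positivity
  have h4 : 4 * (N : ℝ) / ((g * (m * n) : ℕ) : ℝ) ≤ 4 * (N : ℝ) * g / (Q : ℝ) ^ 2 := by
    have h5 : 4 * (N : ℝ) / ((g * (m * n) : ℕ) : ℝ) ≤ 4 * (N : ℝ) / ((Q : ℝ) ^ 2 / g) :=
      div_le_div_of_nonneg_left (by positivity) hpos hlow
    refine h5.trans (le_of_eq ?_)
    field_simp
  unfold fE
  rw [Complex.norm_real, Real.norm_eq_abs, abs_mul, abs_mul]
  have h6 : |c (g * m)| * |c' (g * n)| ≤ 1 := mul_le_one₀ (hc _) (abs_nonneg _) (hc' _)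
  calc |c (g * m)| * |c' (g * n)| * |SS N (g * m) (g * n) a b - MM N (g * m) (g * n) a b|
      ≤ 1 * |SS N (g * m) (g * n) a b - MM N (g * m) (g * n) a b| :=
        mul_le_mul_of_nonneg_right h6 (abs_nonneg _)
    _ ≤ 4 * (N : ℝ) * g / (Q : ℝ) ^ 2 + 1 := by
        rw [one_mul]
        linarith

/-- the number of indices -/
private lemma G2_card (Q g : ℕ) : (((Ioc (Q / g) (2 * Q / g)).card : ℕ) : ℝ) ≤ 2 * (Q : ℝ) / g := by
  rw [Nat.card_Ioc]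
  have h1 : (((2 * Q / g - Q / g : ℕ)) : ℝ) ≤ ((2 * Q / g : ℕ) : ℝ) := by
    exact_mod_cast Nat.sub_le _ _
  have h2 : ((2 * Q / g : ℕ) : ℝ) ≤ ((2 * Q : ℕ) : ℝ) / g := Nat.cast_div_le
  push_cast at h2
  exact h1.trans h2

theorem tG2 (h : SsbdStmt) : SG2 := by
  intro N Q g c c' a b hN hQ hg hc hc'
  have hgR : (0 : ℝ) < g := by exact_mod_cast hg
  have hQR : (0 : ℝ) < Q := by exact_mod_cast hQ
  set B : ℝ := 4 * (N : ℝ) * g / (Q : ℝ) ^ 2 + 1 with hB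
  have hB0 : 0 ≤ B := by positivity
  have hcard := G2_card Q g
  have hcard0 : (0 : ℝ) ≤ (((Ioc (Q / g) (2 * Q / g)).card : ℕ) : ℝ) := Nat.cast_nonneg _
  unfold pg
  have h1 : ∀ m ∈ Ioc (Q / g) (2 * Q / g),
      ‖∑ n ∈ (Ioc (Q / g) (2 * Q / g)).filter (fun n => m.Coprime n), fE N g c c' a b m n‖ ≤
        2 * (Q : ℝ) / g * B := by
    intro m hm
    refine (norm_sum_le _ _).trans ?_
    have h2 : ∀ n ∈ (Ioc (Q / g) (2 * Q / g)).filter (fun n => m.Coprime n),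
        ‖fE N g c c' a b m n‖ ≤ B := by
      intro n hn
      rw [mem_filter, mem_Ioc] at hn
      exact G2_pair h N Q g c c' a b hN hQ hg hc hc' (mem_Ioc.1 hm).1 hn.1.1 hn.2
    refine (sum_le_card_nsmul _ _ _ h2).trans ?_
    rw [nsmul_eq_mul]
    refine mul_le_mul_of_nonneg_right ?_ hB0
    refine le_trans ?_ hcard
    exact_mod_cast card_filter_le _ _
  refine (norm_sum_le _ _).trans ((sum_le_card_nsmul _ _ _ h1).trans ?_)
  rw [nsmul_eq_mul]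
  have h3 : (((Ioc (Q / g) (2 * Q / g)).card : ℕ) : ℝ) * (2 * (Q : ℝ) / g * B) ≤
      2 * (Q : ℝ) / g * (2 * (Q : ℝ) / g * B) :=
    mul_le_mul_of_nonneg_right hcard (by positivity)
  refine h3.trans (le_of_eq ?_)
  rw [hB]
  field_simp
  ring

end Pool.Agent.Lib.TB
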