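import Pool.Agent.Lib.TB.SpecG

/-!
MP_00e23e_nt, Lib/TB, module G5: the bilinear form with weights 1/(mn).
-/

namespace Pool.Agent.Lib.TB

open Finset Pool.Agent.Lib.EH3

/-- the coefficient c(g m) P / m for m > P -/
noncomputable def G5_co (P g : ℕ) (c : ℕ → ℝ) (m : ℕ) : ℂ :=
  if P < m then ((c (g * m) * ((P : ℝ) / m) : ℝ) : ℂ) else 0

theorem G5_co_le (P g : ℕ) (c : ℕ → ℝ) (hc : ∀ d, |c d| ≤ 1) (m : ℕ) : ‖G5_co P g c m‖ ≤ 1 := by
  unfold G5_co
  split_ifs with h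
  · rw [Complex.norm_real, Real.norm_eq_abs, abs_mul]
    have h1 : |(P : ℝ) / m| ≤ 1 := by
      have hm : (0 : ℝ) < m := by exact_mod_cast (by omega : 0 < m)
      rw [abs_of_nonneg (by positivity), div_le_one hm]
      exact_mod_cast h.le
    calc |c (g * m)| * |(P : ℝ) / m| ≤ 1 * 1 := mul_le_mul (hc _) h1 (abs_nonneg _) zero_le_one
      _ = 1 := by norm_num
  · simp

theorem G5_eB (th : ℤ) (vt : ℝ) (m n : ℕ) : ‖eB th vt m n‖ = 1 := norm_ee _

/-- a double sum over a block with one more element -/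
theorem G5_ins (A B : Finset ℕ) (M : ℕ) (F : ℕ → ℕ → ℂ) (hM : M ∉ B) (hA : A = insert M B) :
    ∑ m ∈ A, ∑ n ∈ A, F m n = (∑ m ∈ B, ∑ n ∈ B, F m n) + (∑ n ∈ A, F M n + ∑ m ∈ B, F m M) := by
  have h1 : ∑ m ∈ A, ∑ n ∈ A, F m n = ∑ n ∈ A, F M n + ∑ m ∈ B, ∑ n ∈ A, F m n := by
    conv_lhs => rw [hA, Finset.sum_insert hM]
    rw [hA]
  have h2 : ∑ m ∈ B, ∑ n ∈ A, F m n = ∑ m ∈ B, F m M + ∑ m ∈ B, ∑ n ∈ B, F m n := by
    rw [← Finset.sum_add_distrib]
    refine Finset.sum_congr rfl fun m _ => ?_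
    rw [hA, Finset.sum_insert hM]
  rw [h1, h2]
  ring

theorem tG5 (h : BilStmt) : SG5 := by
  intro ε hε
  obtain ⟨C0, hC0⟩ := h ε hε
  refine ⟨max C0 0, le_max_right _ _, ?_⟩
  intro Q g c c' th vt hg hgQ hc hc' hth
  set P : ℕ := Q / g with hP
  have hP1 : 1 ≤ P := by
    rw [hP]
    exact (Nat.one_le_div_iff (by omega)).2 hgQ
  have hP0 : (0 : ℝ) < P := by exact_mod_cast hP1
  set M : ℕ := 2 * Q / g with hM
  have hM1 : M = 2 * P ∨ M = 2 * P + 1 := by
    have h1 : Q = g * P + Q % g := (Nat.div_add_mod Q g).symm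
    have h2 : Q % g < g := Nat.mod_lt _ (by omega)
    have h3 : 2 * P ≤ M := by
      rw [hM, Nat.le_div_iff_mul_le (by omega)]
      have h5 : 2 * P * g = 2 * (g * P) := by ring
      rw [h5]
      omega
    have h4 : M < 2 * P + 2 := by
      rw [hM, Nat.div_lt_iff_lt_mul (by omega)]
      have h5 : (2 * P + 2) * g = 2 * (g * P) + 2 * g := by ring
      rw [h5]
      omega
    omega
  -- the summand
  set f : ℕ → ℕ → ℂ := fun m n => ((c (g * m) * c' (g * n) : ℝ) : ℂ) * (1 / ((m : ℂ) * n)) * eB th vt m n with hf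
  set F : ℕ → ℕ → ℂ := fun m n => if m.Coprime n then f m n else 0 with hF
  have hpg : pg Q g f = ∑ m ∈ Ioc P M, ∑ n ∈ Ioc P M, F m n := by
    unfold pg
    refine Finset.sum_congr rfl fun m _ => ?_
    rw [Finset.sum_filter]
  -- the bound for a single term
  have hfle : ∀ m n : ℕ, 1 ≤ m → 1 ≤ n → ‖F m n‖ ≤ 1 / ((m : ℝ) * n) := by
    intro m n hm hn
    have hm0 : (0 : ℝ) < m := by exact_mod_cast hm
    have hn0 : (0 : ℝ) < n := by exact_mod_cast hn
    rw [hF]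
    dsimp only
    split_ifs
    · rw [hf]
      dsimp only
      rw [norm_mul, norm_mul, G5_eB, mul_one, Complex.norm_real, Real.norm_eq_abs, abs_mul]
      have h1 : ‖(1 : ℂ) / ((m : ℂ) * n)‖ = 1 / ((m : ℝ) * n) := by
        rw [norm_div, norm_mul, norm_one, Complex.norm_natCast, Complex.norm_natCast]
      rw [h1]
      have h2 : |c (g * m)| * |c' (g * n)| ≤ 1 := by
        calc |c (g * m)| * |c' (g * n)| ≤ 1 * 1 := mul_le_mul (hc _) (hc' _) (abs_nonneg _) zero_le_one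
          _ = 1 := by norm_num
      calc |c (g * m)| * |c' (g * n)| * (1 / ((m : ℝ) * n)) ≤ 1 * (1 / ((m : ℝ) * n)) :=
            mul_le_mul_of_nonneg_right h2 (by positivity)
        _ = 1 / ((m : ℝ) * n) := one_mul _
    · rw [norm_zero]; positivity
  -- the main part
  have hmain : ‖∑ m ∈ Ioc P (2 * P), ∑ n ∈ Ioc P (2 * P), F m n‖ ≤
      max C0 0 * |(th : ℝ)| ^ ε * (P : ℝ) ^ (-((1 : ℝ) / 65)) *
        (1 + (|(th : ℝ)| + |vt|) / (P : ℝ) ^ 2) ^ ((1 : ℝ) / 4) := by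
    have h1 := hC0 P (G5_co P g c) (G5_co P g c') th vt hP1 (G5_co_le P g c hc) (G5_co_le P g c' hc') hth
    have h2 : ∑ m ∈ Ioc P (2 * P), ∑ n ∈ (Ioc P (2 * P)).filter (fun n => m.Coprime n),
        G5_co P g c m * G5_co P g c' n * ee ((th : ℝ) * (iv m n : ℝ) / (n : ℝ) + vt / ((m : ℝ) * n)) =
        ((P : ℂ) ^ 2) * ∑ m ∈ Ioc P (2 * P), ∑ n ∈ Ioc P (2 * P), F m n := by
      rw [Finset.mul_sum]
      refine Finset.sum_congr rfl fun m hm => ?_
      rw [Finset.sum_filter, Finset.mul_sum]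
      refine Finset.sum_congr rfl fun n hn => ?_
      rw [mem_Ioc] at hm hn
      rw [hF]
      dsimp only
      split_ifs
      · rw [hf]
        dsimp only
        unfold G5_co eB
        rw [if_pos hm.1, if_pos hn.1]
        have hm0 : (m : ℂ) ≠ 0 := by
          have : (0 : ℕ) < m := by omega
          exact_mod_cast this.ne'
        have hn0 : (n : ℂ) ≠ 0 := by
          have : (0 : ℕ) < n := by omega
          exact_mod_cast this.ne'
        push_cast
        field_simp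
      · rw [mul_zero]
    rw [h2, norm_mul, norm_pow, Complex.norm_natCast] at h1
    have h3 : C0 * |(th : ℝ)| ^ ε * (P : ℝ) ^ ((2 : ℝ) - 1 / 65) *
        (1 + (|(th : ℝ)| + |vt|) / (P : ℝ) ^ 2) ^ ((1 : ℝ) / 4) ≤
        max C0 0 * |(th : ℝ)| ^ ε * (P : ℝ) ^ ((2 : ℝ) - 1 / 65) *
        (1 + (|(th : ℝ)| + |vt|) / (P : ℝ) ^ 2) ^ ((1 : ℝ) / 4) := by
      refine mul_le_mul_of_nonneg_right ?_ (by positivity)
      refine mul_le_mul_of_nonneg_right ?_ (by positivity)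
      exact mul_le_mul_of_nonneg_right (le_max_left _ _) (by positivity)
    have h4 : (P : ℝ) ^ ((2 : ℝ) - 1 / 65) = (P : ℝ) ^ 2 * (P : ℝ) ^ (-((1 : ℝ) / 65)) := by
      rw [show (2 : ℝ) - 1 / 65 = 2 + (-((1 : ℝ) / 65)) by ring, Real.rpow_add hP0]
      norm_num
    rw [h4] at h3 h1
    have h5 := h1.trans h3
    have h6 : (P : ℝ) ^ 2 * ‖∑ m ∈ Ioc P (2 * P), ∑ n ∈ Ioc P (2 * P), F m n‖ ≤
        (P : ℝ) ^ 2 * (max C0 0 * |(th : ℝ)| ^ ε * (P : ℝ) ^ (-((1 : ℝ) / 65)) *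
        (1 + (|(th : ℝ)| + |vt|) / (P : ℝ) ^ 2) ^ ((1 : ℝ) / 4)) := by
      refine h5.trans (le_of_eq ?_)
      ring
    exact le_of_mul_le_mul_left h6 (by positivity)
  rw [hpg]
  rcases hM1 with hM1 | hM1
  · rw [hM1]
    refine hmain.trans ?_
    have : (0 : ℝ) ≤ 4 / P := by positivity
    linarith
  · have hA : Ioc P M = insert M (Ioc P (2 * P)) := by
      ext x
      simp only [mem_insert, mem_Ioc]
      omega
    have hMn : M ∉ Ioc P (2 * P) := by
      rw [mem_Ioc]; omega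
    rw [G5_ins (Ioc P M) (Ioc P (2 * P)) M F hMn hA]
    refine (norm_add_le _ _).trans (add_le_add hmain ?_)
    have hM0 : (0 : ℝ) < M := by exact_mod_cast (by omega : 0 < M)
    have hMR : (M : ℝ) = 2 * P + 1 := by rw [hM1]; push_cast; ring
    have hb1 : ∀ n ∈ Ioc P M, ‖F M n‖ ≤ 1 / ((M : ℝ) * P) := by
      intro n hn
      rw [mem_Ioc] at hn
      refine (hfle M n (by omega) (by omega)).trans ?_
      have hPn : (P : ℝ) ≤ n := by exact_mod_cast hn.1.le
      exact one_div_le_one_div_of_le (by positivity) (mul_le_mul_of_nonneg_left hPn hM0.le)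
    have hb2 : ∀ m ∈ Ioc P (2 * P), ‖F m M‖ ≤ 1 / ((M : ℝ) * P) := by
      intro m hm
      rw [mem_Ioc] at hm
      refine (hfle m M (by omega) (by omega)).trans ?_
      have hPn : (P : ℝ) ≤ m := by exact_mod_cast hm.1.le
      refine one_div_le_one_div_of_le (by positivity) ?_
      rw [mul_comm (m : ℝ)]
      exact mul_le_mul_of_nonneg_left hPn hM0.le
    have hc1 : ‖∑ n ∈ Ioc P M, F M n‖ ≤ (P + 1 : ℝ) * (1 / ((M : ℝ) * P)) := by
      refine (norm_sum_le _ _).trans ?_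
      have h1 := Finset.sum_le_card_nsmul _ _ _ hb1
      rw [nsmul_eq_mul, Nat.card_Ioc] at h1
      have h2 : ((M - P : ℕ) : ℝ) = P + 1 := by
        rw [hM1]
        have : 2 * P + 1 - P = P + 1 := by omega
        rw [this]; push_cast; ring
      rwa [h2] at h1
    have hc2 : ‖∑ m ∈ Ioc P (2 * P), F m M‖ ≤ (P : ℝ) * (1 / ((M : ℝ) * P)) := by
      refine (norm_sum_le _ _).trans ?_
      have h1 := Finset.sum_le_card_nsmul _ _ _ hb2
      rw [nsmul_eq_mul, Nat.card_Ioc] at h1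
      have h2 : ((2 * P - P : ℕ) : ℝ) = P := by
        have : 2 * P - P = P := by omega
        rw [this]
      rwa [h2] at h1
    refine (norm_add_le _ _).trans ((add_le_add hc1 hc2).trans ?_)
    have h5 : (P + 1 : ℝ) * (1 / ((M : ℝ) * P)) + (P : ℝ) * (1 / ((M : ℝ) * P)) = 1 / P := by
      rw [hMR]
      have : (2 * (P : ℝ) + 1) ≠ 0 := by positivity
      field_simp
      ring
    rw [h5]
    exact div_le_div_of_nonneg_right (by norm_num) hP0.le

end Pool.Agent.Lib.TB
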