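import Pool.Agent.Lib.TB.SpecG
set_option autoImplicit false

namespace Pool.Agent.Lib.TB

open Finset Pool.Agent.Lib.EH3

/-- the main part of the term of a pair -/
private noncomputable def G6_W (N H g : ℕ) (c c' : ℕ → ℝ) (a b : ℤ) (m n : ℕ) : ℂ :=
  ((c (g * m) * c' (g * n) : ℝ) : ℂ) * ((1 / ((g : ℂ) * m * n)) * ∑ h ∈ Icc 1 H,
    ∑ t ∈ Icc (-(N : ℤ)) N, ((tri N t : ℝ) : ℂ) *
      (eB (-((h : ℤ) * ((b - a) / g))) ((h : ℝ) * ((t : ℝ) - a) / g) m n +
        eB ((h : ℤ) * ((b - a) / g)) (-((h : ℝ) * ((t : ℝ) - a) / g)) m n))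

/-- the summands of the bilinear forms -/
private noncomputable def G6_v (g : ℕ) (c c' : ℕ → ℝ) (th : ℤ) (vt : ℝ) (m n : ℕ) : ℂ :=
  ((c (g * m) * c' (g * n) : ℝ) : ℂ) * (1 / ((m : ℂ) * n)) * eB th vt m n

private lemma G6_pg_sub (Q g : ℕ) (f f' : ℕ → ℕ → ℂ) :
    pg Q g f - pg Q g f' = pg Q g (fun m n => f m n - f' m n) := by
  unfold pg
  rw [← sum_sub_distrib]
  apply sum_congr rfl
  intro m _
  rw [← sum_sub_distrib]

private lemma G6_pg_add (Q g : ℕ) (f f' : ℕ → ℕ → ℂ) :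
    pg Q g (fun m n => f m n + f' m n) = pg Q g f + pg Q g f' := by
  unfold pg
  rw [← sum_add_distrib]
  apply sum_congr rfl
  intro m _
  rw [← sum_add_distrib]

private lemma G6_pg_mul (Q g : ℕ) (z : ℂ) (f : ℕ → ℕ → ℂ) :
    pg Q g (fun m n => z * f m n) = z * pg Q g f := by
  unfold pg
  rw [mul_sum]
  apply sum_congr rfl
  intro m _
  rw [mul_sum]

private lemma G6_pg_sum {ι : Type} (s : Finset ι) (Q g : ℕ) (f : ι → ℕ → ℕ → ℂ) :
    pg Q g (fun m n => ∑ i ∈ s, f i m n) = ∑ i ∈ s, pg Q g (f i) := by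
  classical
  induction s using Finset.induction_on with
  | empty =>
    simp only [sum_empty]
    unfold pg
    simp
  | insert i s hi ih =>
    simp only [sum_insert hi]
    rw [G6_pg_add, ih]

private lemma G6_pg_congr (Q g : ℕ) (f f' : ℕ → ℕ → ℂ)
    (h : ∀ m n, m ∈ Ioc (Q / g) (2 * Q / g) → n ∈ Ioc (Q / g) (2 * Q / g) → m.Coprime n →
      f m n = f' m n) : pg Q g f = pg Q g f' := by
  unfold pg
  apply sum_congr rfl
  intro m hm
  apply sum_congr rfl
  intro n hn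
  rw [mem_filter] at hn
  exact h m n hm hn.1 hn.2

private lemma G6_pg_norm (Q g : ℕ) (f : ℕ → ℕ → ℂ) (B : ℝ) (hB : 0 ≤ B)
    (h : ∀ m n, m ∈ Ioc (Q / g) (2 * Q / g) → n ∈ Ioc (Q / g) (2 * Q / g) → m.Coprime n →
      ‖f m n‖ ≤ B) : ‖pg Q g f‖ ≤ (2 * (Q : ℝ)) ^ 2 * B := by
  have hc : ((Ioc (Q / g) (2 * Q / g)).card : ℝ) ≤ 2 * (Q : ℝ) := by
    rw [Nat.card_Ioc]
    have : 2 * Q / g - Q / g ≤ 2 * Q := by
      refine (Nat.sub_le _ _).trans (Nat.div_le_self _ _)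
    exact_mod_cast this
  unfold pg
  calc ‖∑ m ∈ Ioc (Q / g) (2 * Q / g),
        ∑ n ∈ (Ioc (Q / g) (2 * Q / g)).filter (fun n => m.Coprime n), f m n‖
      ≤ ∑ m ∈ Ioc (Q / g) (2 * Q / g),
        ‖∑ n ∈ (Ioc (Q / g) (2 * Q / g)).filter (fun n => m.Coprime n), f m n‖ := norm_sum_le _ _
    _ ≤ ∑ _m ∈ Ioc (Q / g) (2 * Q / g), (2 * (Q : ℝ)) * B := by
        apply sum_le_sum
        intro m hm
        calc ‖∑ n ∈ (Ioc (Q / g) (2 * Q / g)).filter (fun n => m.Coprime n), f m n‖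
            ≤ ∑ n ∈ (Ioc (Q / g) (2 * Q / g)).filter (fun n => m.Coprime n), ‖f m n‖ :=
              norm_sum_le _ _
          _ ≤ ∑ _n ∈ (Ioc (Q / g) (2 * Q / g)).filter (fun n => m.Coprime n), B := by
              apply sum_le_sum
              intro n hn
              rw [mem_filter] at hn
              exact h m n hm hn.1 hn.2
          _ = (((Ioc (Q / g) (2 * Q / g)).filter (fun n => m.Coprime n)).card : ℝ) * B := by
              rw [sum_const, nsmul_eq_mul]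
          _ ≤ (2 * (Q : ℝ)) * B := by
              apply mul_le_mul_of_nonneg_right _ hB
              refine le_trans ?_ hc
              exact_mod_cast card_filter_le _ _
    _ = ((Ioc (Q / g) (2 * Q / g)).card : ℝ) * ((2 * (Q : ℝ)) * B) := by
        rw [sum_const, nsmul_eq_mul]
    _ ≤ (2 * (Q : ℝ)) * ((2 * (Q : ℝ)) * B) := by
        apply mul_le_mul_of_nonneg_right hc (by positivity)
    _ = (2 * (Q : ℝ)) ^ 2 * B := by ring

theorem tG6 (h4 : SG4) (h5 : SG5) : SG6 := by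
  intro ε hε
  obtain ⟨C, hC, hC5⟩ := h5 ε hε
  refine ⟨C, hC, ?_⟩
  intro N Q H g c c' a b hN hH hg hgQ hHg hc hc' hab ha hb hdvd
  have hN' : (1 : ℝ) ≤ N := by exact_mod_cast hN
  have hH' : (1 : ℝ) ≤ H := by exact_mod_cast hH
  have hg' : (1 : ℝ) ≤ g := by exact_mod_cast hg
  have hg0 : (g : ℂ) ≠ 0 := by
    have : g ≠ 0 := by omega
    exact_mod_cast this
  have hP1 : 1 ≤ Q / g := (Nat.one_le_div_iff (by omega)).mpr hgQ
  have hP : (1 : ℝ) ≤ ((Q / g : ℕ) : ℝ) := by exact_mod_cast hP1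
  obtain ⟨K, hK⟩ := hdvd
  have hK1 : (b - a) / (g : ℤ) = K := by
    rw [hK]
    exact Int.mul_ediv_cancel_left K (by omega)
  have hK0 : K ≠ 0 := by
    rintro rfl
    apply hab
    rw [mul_zero] at hK
    omega
  have hcc : ∀ m n : ℕ, ‖((c (g * m) * c' (g * n) : ℝ) : ℂ)‖ ≤ 1 := by
    intro m n
    rw [Complex.norm_real, Real.norm_eq_abs, abs_mul]
    have := mul_le_mul (hc (g * m)) (hc' (g * n)) (abs_nonneg _) zero_le_one
    linarith
  -- bounds for the pairs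
  have hmem : ∀ m, m ∈ Ioc (Q / g) (2 * Q / g) → 1 ≤ m ∧ Q < g * m ∧ g * m ≤ 2 * Q := by
    intro m hm
    rw [mem_Ioc] at hm
    refine ⟨by omega, ?_, ?_⟩
    · have := (Nat.div_lt_iff_lt_mul (by omega : 0 < g)).mp hm.1
      rw [mul_comm]
      exact this
    · have := (Nat.le_div_iff_mul_le (by omega : 0 < g)).mp hm.2
      rw [mul_comm]
      exact this
  -- the error part
  have e1 : ‖pg Q g (fE N g c c' a b) - pg Q g (G6_W N H g c c' a b)‖ ≤
      16 * (Q : ℝ) ^ 4 / ((N : ℝ) * H) := by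
    rw [G6_pg_sub]
    refine (G6_pg_norm Q g _ (4 * (Q : ℝ) ^ 2 / ((N : ℝ) * H)) (by positivity) ?_).trans ?_
    · intro m n hm hn hmn
      obtain ⟨m1, m2, m3⟩ := hmem m hm
      obtain ⟨n1, n2, n3⟩ := hmem n hn
      have hgmn : (g * m) * (g * n) = g * (g * m * n) := by ring
      have hlow : 2 * H < g * m * n := by
        have h1 : Q * Q < (g * m) * (g * n) := Nat.mul_lt_mul'' m2 n2
        rw [hgmn] at h1
        by_contra hcon
        push Not at hcon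
        have h2 : g * (g * m * n) ≤ g * (2 * H) := Nat.mul_le_mul_left g hcon
        have h3 : Q * Q < g * (2 * H) := lt_of_lt_of_le h1 h2
        have h4 : 2 * H * g = g * (2 * H) := by ring
        rw [pow_two, h4] at hHg
        omega
      have hup : (g : ℝ) * m * n ≤ 4 * (Q : ℝ) ^ 2 := by
        have h1 : g * m * n ≤ (g * m) * (g * n) := by
          calc g * m * n = (g * m) * (1 * n) := by ring
            _ ≤ (g * m) * (g * n) := Nat.mul_le_mul_left _ (Nat.mul_le_mul_right _ hg)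
        have h2 : (g * m) * (g * n) ≤ (2 * Q) * (2 * Q) := Nat.mul_le_mul m3 n3
        have h3 : g * m * n ≤ 4 * Q ^ 2 := by
          calc g * m * n ≤ (2 * Q) * (2 * Q) := h1.trans h2
            _ = 4 * Q ^ 2 := by ring
        exact_mod_cast h3
      have h4' := h4 N H g m n a b hN hH hg m1 n1 hmn ⟨K, hK⟩ hlow
      have e : fE N g c c' a b m n - G6_W N H g c c' a b m n =
          ((c (g * m) * c' (g * n) : ℝ) : ℂ) *
          (((SS N (g * m) (g * n) a b - MM N (g * m) (g * n) a b : ℝ) : ℂ) -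
            (1 / ((g : ℂ) * m * n)) * ∑ h ∈ Icc 1 H, ∑ t ∈ Icc (-(N : ℤ)) N,
            ((tri N t : ℝ) : ℂ) *
        (eB (-((h : ℤ) * ((b - a) / g))) ((h : ℝ) * ((t : ℝ) - a) / g) m n +
          eB ((h : ℤ) * ((b - a) / g)) (-((h : ℝ) * ((t : ℝ) - a) / g)) m n)) := by
        unfold fE G6_W
        push_cast
        ring
      rw [e, norm_mul]
      calc _ ≤ 1 * ((g : ℝ) * m * n / ((N : ℝ) * H)) :=
            mul_le_mul (hcc m n) h4' (norm_nonneg _) zero_le_one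
        _ = (g : ℝ) * m * n / ((N : ℝ) * H) := one_mul _
        _ ≤ 4 * (Q : ℝ) ^ 2 / ((N : ℝ) * H) := by
            apply div_le_div_of_nonneg_right hup (by positivity)
    · apply le_of_eq
      ring
  -- the main part
  have e2 : pg Q g (G6_W N H g c c' a b) = ∑ h ∈ Icc 1 H, ∑ t ∈ Icc (-(N : ℤ)) N,
      (((tri N t : ℝ) : ℂ) * (1 / (g : ℂ))) *
      (pg Q g (G6_v g c c' (-((h : ℤ) * ((b - a) / g))) ((h : ℝ) * ((t : ℝ) - a) / g)) +
        pg Q g (G6_v g c c' ((h : ℤ) * ((b - a) / g)) (-((h : ℝ) * ((t : ℝ) - a) / g)))) := by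
    have s1 : ∀ m n : ℕ, G6_W N H g c c' a b m n = ∑ h ∈ Icc 1 H, ∑ t ∈ Icc (-(N : ℤ)) N,
        (((tri N t : ℝ) : ℂ) * (1 / (g : ℂ))) *
        (G6_v g c c' (-((h : ℤ) * ((b - a) / g))) ((h : ℝ) * ((t : ℝ) - a) / g) m n +
          G6_v g c c' ((h : ℤ) * ((b - a) / g)) (-((h : ℝ) * ((t : ℝ) - a) / g)) m n) := by
      intro m n
      have hinv : (1 / ((g : ℂ) * m * n)) = (1 / (g : ℂ)) * (1 / ((m : ℂ) * n)) := by
        rw [mul_assoc, one_div_mul_one_div]
      unfold G6_W G6_v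
      rw [hinv, mul_sum, mul_sum]
      apply sum_congr rfl
      intro h _
      rw [mul_sum, mul_sum]
      apply sum_congr rfl
      intro t _
      ring
    rw [G6_pg_congr Q g _ _ (fun m n _ _ _ => s1 m n), G6_pg_sum]
    apply sum_congr rfl
    intro h _
    rw [G6_pg_sum]
    apply sum_congr rfl
    intro t _
    rw [G6_pg_mul, G6_pg_add]
  set B : ℝ := C * (2 * (H : ℝ) * N) ^ ε * ((Q / g : ℕ) : ℝ) ^ (-((1 : ℝ) / 65)) *
      (1 + 4 * (H : ℝ) * N / ((Q / g : ℕ) : ℝ) ^ 2) ^ ((1 : ℝ) / 4) + 4 / ((Q / g : ℕ) : ℝ) with hBdef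
  have hP0 : (0 : ℝ) < ((Q / g : ℕ) : ℝ) := by linarith
  have hB0 : 0 ≤ B := by positivity
  have hHN : (0 : ℝ) < 2 * (H : ℝ) * N := by positivity
  -- the bilinear forms
  have e3 : ∀ (th : ℤ) (vt : ℝ), th ≠ 0 → |(th : ℝ)| ≤ 2 * (H : ℝ) * N → |vt| ≤ 2 * (H : ℝ) * N →
      ‖pg Q g (G6_v g c c' th vt)‖ ≤ B := by
    intro th vt hth hth1 hvt
    have h5' := hC5 Q g c c' th vt hg hgQ hc hc' hth
    refine le_trans h5' ?_
    rw [hBdef]
    have b1 : |(th : ℝ)| ^ ε ≤ (2 * (H : ℝ) * N) ^ ε :=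
      Real.rpow_le_rpow (abs_nonneg _) hth1 hε.le
    have b2 : (1 + (|(th : ℝ)| + |vt|) / ((Q / g : ℕ) : ℝ) ^ 2) ^ ((1 : ℝ) / 4) ≤
        (1 + 4 * (H : ℝ) * N / ((Q / g : ℕ) : ℝ) ^ 2) ^ ((1 : ℝ) / 4) := by
      apply Real.rpow_le_rpow (by positivity) _ (by norm_num)
      have : (|(th : ℝ)| + |vt|) / ((Q / g : ℕ) : ℝ) ^ 2 ≤
          4 * (H : ℝ) * N / ((Q / g : ℕ) : ℝ) ^ 2 := by
        apply div_le_div_of_nonneg_right _ (by positivity)
        linarith
      linarith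
    have b3 : C * |(th : ℝ)| ^ ε * ((Q / g : ℕ) : ℝ) ^ (-((1 : ℝ) / 65)) *
        (1 + (|(th : ℝ)| + |vt|) / ((Q / g : ℕ) : ℝ) ^ 2) ^ ((1 : ℝ) / 4) ≤
        C * (2 * (H : ℝ) * N) ^ ε * ((Q / g : ℕ) : ℝ) ^ (-((1 : ℝ) / 65)) *
        (1 + 4 * (H : ℝ) * N / ((Q / g : ℕ) : ℝ) ^ 2) ^ ((1 : ℝ) / 4) := by
      apply mul_le_mul _ b2 (by positivity) (by positivity)
      apply mul_le_mul_of_nonneg_right _ (by positivity)
      exact mul_le_mul_of_nonneg_left b1 hC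
    linarith
  have hKabs : |(K : ℝ)| ≤ 2 * (N : ℝ) := by
    have h1 : |K| ≤ |b - a| := by
      rw [hK, abs_mul]
      have : (1 : ℤ) ≤ |(g : ℤ)| := by
        rw [abs_of_nonneg (by positivity)]
        exact_mod_cast hg
      calc |K| = 1 * |K| := (one_mul _).symm
        _ ≤ |(g : ℤ)| * |K| := mul_le_mul_of_nonneg_right this (abs_nonneg _)
    have h2 : |b - a| ≤ 2 * (N : ℤ) := by
      have := abs_sub b a
      linarith
    have h3 : |K| ≤ 2 * (N : ℤ) := h1.trans h2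
    exact_mod_cast h3
  have haR : |(a : ℝ)| ≤ N := by exact_mod_cast ha
  have e4 : ‖pg Q g (G6_W N H g c c' a b)‖ ≤ 6 * (H : ℝ) * N * B := by
    rw [e2]
    have hterm : ∀ h ∈ Icc 1 H, ∀ t ∈ Icc (-(N : ℤ)) N,
        ‖(((tri N t : ℝ) : ℂ) * (1 / (g : ℂ))) *
        (pg Q g (G6_v g c c' (-((h : ℤ) * ((b - a) / g))) ((h : ℝ) * ((t : ℝ) - a) / g)) +
        pg Q g (G6_v g c c' ((h : ℤ) * ((b - a) / g)) (-((h : ℝ) * ((t : ℝ) - a) / g))))‖ ≤
        2 * B := by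
      intro h hh t ht
      rw [mem_Icc] at hh ht
      rw [hK1]
      have hh1 : (1 : ℝ) ≤ h := by exact_mod_cast hh.1
      have hh2 : (h : ℝ) ≤ H := by exact_mod_cast hh.2
      have htR : |(t : ℝ)| ≤ N := by
        have : |t| ≤ (N : ℤ) := abs_le.mpr ht
        exact_mod_cast this
      have hv : |(h : ℝ) * ((t : ℝ) - a) / g| ≤ 2 * (H : ℝ) * N := by
        rw [abs_div, abs_mul, abs_of_nonneg (by linarith : (0 : ℝ) ≤ h),
          abs_of_nonneg (by linarith : (0 : ℝ) ≤ g), div_le_iff₀ (by linarith)]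
        have g1 : |(t : ℝ) - a| ≤ 2 * N := by
          have := abs_sub (t : ℝ) (a : ℝ)
          linarith
        have g2 : (h : ℝ) * |(t : ℝ) - a| ≤ H * (2 * N) :=
          mul_le_mul hh2 g1 (abs_nonneg _) (by linarith)
        have g3 : (H : ℝ) * (2 * N) ≤ 2 * H * N * g := by
          have : 2 * (H : ℝ) * N * 1 ≤ 2 * H * N * g :=
            mul_le_mul_of_nonneg_left hg' (by positivity)
          linarith
        linarith
      have ht1 : |(((h : ℤ) * K : ℤ) : ℝ)| ≤ 2 * (H : ℝ) * N := by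
        push_cast
        rw [abs_mul, abs_of_nonneg (by linarith : (0 : ℝ) ≤ h)]
        calc (h : ℝ) * |(K : ℝ)| ≤ H * (2 * N) :=
              mul_le_mul hh2 hKabs (abs_nonneg _) (by linarith)
          _ = 2 * (H : ℝ) * N := by ring
      have hth0 : (h : ℤ) * K ≠ 0 := mul_ne_zero (by omega) hK0
      have p1 := e3 ((h : ℤ) * K) (-((h : ℝ) * ((t : ℝ) - a) / g)) hth0 ht1 (by rw [abs_neg]; exact hv)
      have p2 := e3 (-((h : ℤ) * K)) ((h : ℝ) * ((t : ℝ) - a) / g) (neg_ne_zero.mpr hth0)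
        (by push_cast at ht1 ⊢; rw [abs_neg]; exact ht1) hv
      have q1 : ‖((tri N t : ℝ) : ℂ) * (1 / (g : ℂ))‖ ≤ 1 := by
        rw [norm_mul, Complex.norm_real, Real.norm_eq_abs, norm_div, norm_one, Complex.norm_natCast]
        have r1 : |tri N t| ≤ 1 := by
          unfold tri
          rw [abs_of_nonneg (le_max_left _ _)]
          apply max_le (by norm_num)
          have : 0 ≤ |(t : ℝ)| / (N : ℝ) := by positivity
          linarith
        have r2 : 1 / (g : ℝ) ≤ 1 := by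
          rw [div_le_one (by linarith)]
          exact hg'
        have := mul_le_mul r1 r2 (by positivity) zero_le_one
        linarith
      rw [norm_mul]
      calc _ ≤ 1 * (B + B) := by
            apply mul_le_mul q1 _ (norm_nonneg _) zero_le_one
            exact (norm_add_le _ _).trans (add_le_add p2 p1)
        _ = 2 * B := by ring
    calc _ ≤ ∑ h ∈ Icc 1 H, ‖∑ t ∈ Icc (-(N : ℤ)) N, (((tri N t : ℝ) : ℂ) * (1 / (g : ℂ))) *
        (pg Q g (G6_v g c c' (-((h : ℤ) * ((b - a) / g))) ((h : ℝ) * ((t : ℝ) - a) / g)) +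
        pg Q g (G6_v g c c' ((h : ℤ) * ((b - a) / g)) (-((h : ℝ) * ((t : ℝ) - a) / g))))‖ :=
          norm_sum_le _ _
      _ ≤ ∑ _h ∈ Icc 1 H, (3 * (N : ℝ)) * (2 * B) := by
          apply sum_le_sum
          intro h hh
          calc _ ≤ ∑ t ∈ Icc (-(N : ℤ)) N, ‖(((tri N t : ℝ) : ℂ) * (1 / (g : ℂ))) *
              (pg Q g (G6_v g c c' (-((h : ℤ) * ((b - a) / g))) ((h : ℝ) * ((t : ℝ) - a) / g)) +
              pg Q g (G6_v g c c' ((h : ℤ) * ((b - a) / g))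
                (-((h : ℝ) * ((t : ℝ) - a) / g))))‖ := norm_sum_le _ _
            _ ≤ ∑ _t ∈ Icc (-(N : ℤ)) N, 2 * B := sum_le_sum (fun t ht => hterm h hh t ht)
            _ = ((Icc (-(N : ℤ)) N).card : ℝ) * (2 * B) := by rw [sum_const, nsmul_eq_mul]
            _ ≤ (3 * (N : ℝ)) * (2 * B) := by
                apply mul_le_mul_of_nonneg_right _ (by positivity)
                rw [Int.card_Icc]
                have : ((N : ℤ) + 1 - -(N : ℤ)).toNat = 2 * N + 1 := by omega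
                rw [this]
                push_cast
                linarith
      _ = (H : ℝ) * ((3 * (N : ℝ)) * (2 * B)) := by
          rw [sum_const, nsmul_eq_mul, Nat.card_Icc]
          simp
      _ = 6 * (H : ℝ) * N * B := by ring
  calc ‖pg Q g (fE N g c c' a b)‖
      = ‖(pg Q g (fE N g c c' a b) - pg Q g (G6_W N H g c c' a b)) +
        pg Q g (G6_W N H g c c' a b)‖ := by rw [sub_add_cancel]
    _ ≤ 16 * (Q : ℝ) ^ 4 / ((N : ℝ) * H) + 6 * (H : ℝ) * N * B :=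
        (norm_add_le _ _).trans (add_le_add e1 e4)

end Pool.Agent.Lib.TB
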