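import Pool.Agent.Lib.TB.SpecG
set_option autoImplicit false

namespace Pool.Agent.Lib.TB

open Finset Pool.Agent.Lib.EH3

/-- comparison of powers -/
private lemma G7_mono {x a b : ℝ} (hx : 1 ≤ x) (h : a ≤ b) : x ^ a ≤ x ^ b :=
  Real.rpow_le_rpow_of_exponent_le hx h

/-- a floor is at least half of the number -/
private lemma G7_floor {t : ℝ} (ht : 1 ≤ t) : t / 2 ≤ (⌊t⌋₊ : ℝ) := by
  have h1 : t < (⌊t⌋₊ : ℝ) + 1 := Nat.lt_floor_add_one t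
  have h2 : (1 : ℝ) ≤ (⌊t⌋₊ : ℝ) := by
    have : 1 ≤ ⌊t⌋₊ := (Nat.one_le_floor_iff t).mpr ht
    exact_mod_cast this
  linarith

/-- a quotient with floor is at least half of the quotient -/
private lemma G7_div {Q g : ℕ} (hg : 1 ≤ g) (h : g ≤ Q) : (Q : ℝ) / (2 * g) ≤ ((Q / g : ℕ) : ℝ) := by
  have hg' : (0 : ℝ) < g := by exact_mod_cast hg
  have h1 : (1 : ℝ) ≤ (Q : ℝ) / g := by
    rw [one_le_div hg']
    exact_mod_cast h
  have h2 := G7_floor h1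
  rw [Nat.floor_div_eq_div] at h2
  have e : (Q : ℝ) / (2 * g) = (Q : ℝ) / g / 2 := by
    field_simp
  rw [e]
  exact h2

/-- the constants: small powers of four -/
private lemma G7_four {a : ℝ} (h1 : a ≤ 1) : (4 : ℝ) ^ a ≤ 4 := by
  calc (4 : ℝ) ^ a ≤ (4 : ℝ) ^ (1 : ℝ) := G7_mono (by norm_num) h1
    _ = 4 := Real.rpow_one 4

/-- the final inequality as an inequality between real numbers -/
private lemma G7_real {x H P q C : ℝ} (hx : 1 ≤ x) (hC : 0 ≤ C) (hH1 : x ^ ((17 : ℝ) / 4000) ≤ H)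
    (hH2 : H ≤ 2 * x ^ ((17 : ℝ) / 4000)) (hq0 : 0 ≤ q)
    (hq : q ≤ 2 * x ^ ((1 : ℝ) / 2 + 1 / 1000))
    (hP : x ^ ((1987 : ℝ) / 4000) / 4 ≤ P) :
    16 * q ^ 4 / (x * H) + 6 * H * x * (C * (2 * H * x) ^ ((1 : ℝ) / 10000) *
      P ^ (-((1 : ℝ) / 65)) * (1 + 4 * H * x / P ^ 2) ^ ((1 : ℝ) / 4) + 4 / P) ≤
    (256 + 768 * C + 192) * x ^ ((1 : ℝ) - 1 / 4000) := by
  have hx0 : 0 < x := by linarith
  have hH0 : 0 < H := lt_of_lt_of_le (Real.rpow_pos_of_pos hx0 _) hH1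
  have hp0 : 0 < x ^ ((1987 : ℝ) / 4000) / 4 := by positivity
  have hP0 : 0 < P := lt_of_lt_of_le hp0 hP
  -- the first term
  have t1 : 16 * q ^ 4 / (x * H) ≤ 256 * x ^ ((1 : ℝ) - 1 / 4000) := by
    rw [div_le_iff₀ (by positivity)]
    have a1 : q ^ 4 ≤ (2 * x ^ ((1 : ℝ) / 2 + 1 / 1000)) ^ 4 := pow_le_pow_left₀ hq0 hq 4
    have a2 : (2 * x ^ ((1 : ℝ) / 2 + 1 / 1000)) ^ 4 = 16 * x ^ ((2004 : ℝ) / 1000) := by
      rw [mul_pow, ← Real.rpow_natCast (x ^ ((1 : ℝ) / 2 + 1 / 1000)) 4, ← Real.rpow_mul hx0.le]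
      norm_num
    have a3 : 256 * x ^ ((2004 : ℝ) / 1000) =
        256 * x ^ ((1 : ℝ) - 1 / 4000) * (x * x ^ ((17 : ℝ) / 4000)) := by
      have : x * x ^ ((17 : ℝ) / 4000) = x ^ ((4017 : ℝ) / 4000) := by
        nth_rewrite 1 [← Real.rpow_one x]
        rw [← Real.rpow_add hx0]
        norm_num
      rw [this, mul_assoc, ← Real.rpow_add hx0]
      norm_num
    calc 16 * q ^ 4 ≤ 16 * (16 * x ^ ((2004 : ℝ) / 1000)) := by
          rw [← a2]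
          linarith
      _ = 256 * x ^ ((2004 : ℝ) / 1000) := by ring
      _ = 256 * x ^ ((1 : ℝ) - 1 / 4000) * (x * x ^ ((17 : ℝ) / 4000)) := a3
      _ ≤ 256 * x ^ ((1 : ℝ) - 1 / 4000) * (x * H) := by
          apply mul_le_mul_of_nonneg_left _ (by positivity)
          exact mul_le_mul_of_nonneg_left hH1 hx0.le
  have hHx : H * x ≤ 2 * x ^ ((4017 : ℝ) / 4000) := by
    have : x ^ ((4017 : ℝ) / 4000) = x ^ ((17 : ℝ) / 4000) * x := by
      nth_rewrite 3 [← Real.rpow_one x]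
      rw [← Real.rpow_add hx0]
      norm_num
    rw [this]
    have := mul_le_mul_of_nonneg_right hH2 hx0.le
    linarith
  have hHx0 : 0 < H * x := by positivity
  -- the factors
  have f1 : (2 * H * x) ^ ((1 : ℝ) / 10000) ≤ 4 * x ^ ((11 : ℝ) / 100000) := by
    have b1 : 2 * H * x ≤ 4 * x ^ ((4017 : ℝ) / 4000) := by linarith
    calc (2 * H * x) ^ ((1 : ℝ) / 10000) ≤ (4 * x ^ ((4017 : ℝ) / 4000)) ^ ((1 : ℝ) / 10000) :=
          Real.rpow_le_rpow (by positivity) b1 (by norm_num)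
      _ = (4 : ℝ) ^ ((1 : ℝ) / 10000) * x ^ ((4017 : ℝ) / 4000 * ((1 : ℝ) / 10000)) := by
          rw [Real.mul_rpow (by norm_num) (by positivity), ← Real.rpow_mul hx0.le]
      _ ≤ 4 * x ^ ((11 : ℝ) / 100000) := by
          apply mul_le_mul (G7_four (by norm_num)) (G7_mono hx (by norm_num))
            (by positivity) (by norm_num)
  have f2 : P ^ (-((1 : ℝ) / 65)) ≤ 4 * x ^ (-((1987 : ℝ) / 260000)) := by
    calc P ^ (-((1 : ℝ) / 65)) ≤ (x ^ ((1987 : ℝ) / 4000) / 4) ^ (-((1 : ℝ) / 65)) :=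
          Real.rpow_le_rpow_of_nonpos hp0 hP (by norm_num)
      _ = (4 : ℝ) ^ ((1 : ℝ) / 65) * x ^ (-((1987 : ℝ) / 260000)) := by
          rw [div_eq_mul_inv, Real.mul_rpow (by positivity) (by norm_num), ← Real.rpow_mul hx0.le,
            mul_comm]
          congr 1
          · rw [Real.inv_rpow (by norm_num), Real.rpow_neg (by norm_num), inv_inv]
          · norm_num
      _ ≤ 4 * x ^ (-((1987 : ℝ) / 260000)) := by
          apply mul_le_mul_of_nonneg_right (G7_four (by norm_num)) (by positivity)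
  have f3 : (1 + 4 * H * x / P ^ 2) ^ ((1 : ℝ) / 4) ≤ 4 * x ^ ((43 : ℝ) / 16000) := by
    have b1 : 4 * H * x / P ^ 2 ≤ 128 * x ^ ((43 : ℝ) / 4000) := by
      rw [div_le_iff₀ (by positivity)]
      have c1 : (x ^ ((1987 : ℝ) / 4000) / 4) ^ 2 ≤ P ^ 2 := pow_le_pow_left₀ hp0.le hP 2
      have c2 : (x ^ ((1987 : ℝ) / 4000) / 4) ^ 2 = x ^ ((3974 : ℝ) / 4000) / 16 := by
        rw [div_pow, ← Real.rpow_natCast (x ^ ((1987 : ℝ) / 4000)) 2, ← Real.rpow_mul hx0.le]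
        norm_num
      have c3 : 128 * x ^ ((43 : ℝ) / 4000) * (x ^ ((3974 : ℝ) / 4000) / 16) =
          8 * x ^ ((4017 : ℝ) / 4000) := by
        have : x ^ ((43 : ℝ) / 4000) * x ^ ((3974 : ℝ) / 4000) = x ^ ((4017 : ℝ) / 4000) := by
          rw [← Real.rpow_add hx0]
          norm_num
        rw [← this]
        ring
      calc 4 * H * x = 4 * (H * x) := by ring
        _ ≤ 4 * (2 * x ^ ((4017 : ℝ) / 4000)) := by linarith
        _ = 8 * x ^ ((4017 : ℝ) / 4000) := by ring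
        _ = 128 * x ^ ((43 : ℝ) / 4000) * (x ^ ((3974 : ℝ) / 4000) / 16) := c3.symm
        _ ≤ 128 * x ^ ((43 : ℝ) / 4000) * P ^ 2 := by
            apply mul_le_mul_of_nonneg_left _ (by positivity)
            rw [← c2]
            exact c1
    have b2 : 1 ≤ x ^ ((43 : ℝ) / 4000) := Real.one_le_rpow hx (by norm_num)
    have b3 : 1 + 4 * H * x / P ^ 2 ≤ 256 * x ^ ((43 : ℝ) / 4000) := by linarith
    calc (1 + 4 * H * x / P ^ 2) ^ ((1 : ℝ) / 4)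
        ≤ (256 * x ^ ((43 : ℝ) / 4000)) ^ ((1 : ℝ) / 4) :=
          Real.rpow_le_rpow (by positivity) b3 (by norm_num)
      _ = (256 : ℝ) ^ ((1 : ℝ) / 4) * x ^ ((43 : ℝ) / 16000) := by
          rw [Real.mul_rpow (by norm_num) (by positivity), ← Real.rpow_mul hx0.le]
          norm_num
      _ = 4 * x ^ ((43 : ℝ) / 16000) := by
          congr 1
          rw [show (256 : ℝ) = 4 ^ (4 : ℝ) by norm_num, ← Real.rpow_mul (by norm_num)]
          norm_num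
  -- the second term
  have t2 : 6 * H * x * (C * (2 * H * x) ^ ((1 : ℝ) / 10000) *
      P ^ (-((1 : ℝ) / 65)) * (1 + 4 * H * x / P ^ 2) ^ ((1 : ℝ) / 4)) ≤
      768 * C * x ^ ((1 : ℝ) - 1 / 4000) := by
    have g1 : C * (2 * H * x) ^ ((1 : ℝ) / 10000) * P ^ (-((1 : ℝ) / 65)) *
        (1 + 4 * H * x / P ^ 2) ^ ((1 : ℝ) / 4) ≤
        C * (4 * x ^ ((11 : ℝ) / 100000)) * (4 * x ^ (-((1987 : ℝ) / 260000))) *
          (4 * x ^ ((43 : ℝ) / 16000)) := by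
      apply mul_le_mul _ f3 (by positivity) (by positivity)
      apply mul_le_mul _ f2 (by positivity) (by positivity)
      exact mul_le_mul_of_nonneg_left f1 hC
    have g2 : C * (4 * x ^ ((11 : ℝ) / 100000)) * (4 * x ^ (-((1987 : ℝ) / 260000))) *
          (4 * x ^ ((43 : ℝ) / 16000)) =
        64 * C * x ^ ((11 : ℝ) / 100000 + -((1987 : ℝ) / 260000) + (43 : ℝ) / 16000) := by
      rw [Real.rpow_add hx0, Real.rpow_add hx0]
      ring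
    calc 6 * H * x * (C * (2 * H * x) ^ ((1 : ℝ) / 10000) *
      P ^ (-((1 : ℝ) / 65)) * (1 + 4 * H * x / P ^ 2) ^ ((1 : ℝ) / 4))
        = 6 * (H * x) * (C * (2 * H * x) ^ ((1 : ℝ) / 10000) *
      P ^ (-((1 : ℝ) / 65)) * (1 + 4 * H * x / P ^ 2) ^ ((1 : ℝ) / 4)) := by ring
      _ ≤ 6 * (2 * x ^ ((4017 : ℝ) / 4000)) *
          (64 * C * x ^ ((11 : ℝ) / 100000 + -((1987 : ℝ) / 260000) + (43 : ℝ) / 16000)) := by
          rw [← g2]
          apply mul_le_mul _ g1 (by positivity) (by positivity)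
          linarith
      _ = 768 * C * x ^ ((4017 : ℝ) / 4000 +
          ((11 : ℝ) / 100000 + -((1987 : ℝ) / 260000) + (43 : ℝ) / 16000)) := by
          rw [Real.rpow_add hx0 ((4017 : ℝ) / 4000)]
          ring
      _ ≤ 768 * C * x ^ ((1 : ℝ) - 1 / 4000) := by
          apply mul_le_mul_of_nonneg_left _ (by positivity)
          exact G7_mono hx (by norm_num)
  have t3 : 6 * H * x * (4 / P) ≤ 192 * x ^ ((1 : ℝ) - 1 / 4000) := by
    have d1 : 4 / P ≤ 16 * x ^ (-((1987 : ℝ) / 4000)) := by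
      rw [div_le_iff₀ hP0, Real.rpow_neg hx0.le]
      have : 16 * (x ^ ((1987 : ℝ) / 4000))⁻¹ * (x ^ ((1987 : ℝ) / 4000) / 4) = 4 := by
        have : x ^ ((1987 : ℝ) / 4000) ≠ 0 := by positivity
        field_simp
        norm_num
      calc (4 : ℝ) = 16 * (x ^ ((1987 : ℝ) / 4000))⁻¹ * (x ^ ((1987 : ℝ) / 4000) / 4) := this.symm
        _ ≤ 16 * (x ^ ((1987 : ℝ) / 4000))⁻¹ * P := by
          apply mul_le_mul_of_nonneg_left hP (by positivity)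
    calc 6 * H * x * (4 / P) = 6 * (H * x) * (4 / P) := by ring
      _ ≤ 6 * (2 * x ^ ((4017 : ℝ) / 4000)) * (16 * x ^ (-((1987 : ℝ) / 4000))) := by
          apply mul_le_mul _ d1 (by positivity) (by positivity)
          linarith
      _ = 192 * x ^ ((4017 : ℝ) / 4000 + -((1987 : ℝ) / 4000)) := by
          rw [Real.rpow_add hx0 ((4017 : ℝ) / 4000)]
          ring
      _ ≤ 192 * x ^ ((1 : ℝ) - 1 / 4000) := by
          apply mul_le_mul_of_nonneg_left _ (by positivity)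
          exact G7_mono hx (by norm_num)
  have e : 6 * H * x * (C * (2 * H * x) ^ ((1 : ℝ) / 10000) *
      P ^ (-((1 : ℝ) / 65)) * (1 + 4 * H * x / P ^ 2) ^ ((1 : ℝ) / 4) + 4 / P) =
      6 * H * x * (C * (2 * H * x) ^ ((1 : ℝ) / 10000) *
      P ^ (-((1 : ℝ) / 65)) * (1 + 4 * H * x / P ^ 2) ^ ((1 : ℝ) / 4)) +
      6 * H * x * (4 / P) := by ring
  rw [e]
  have e2 : (256 + 768 * C + 192) * x ^ ((1 : ℝ) - 1 / 4000) =
      256 * x ^ ((1 : ℝ) - 1 / 4000) + 768 * C * x ^ ((1 : ℝ) - 1 / 4000) +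
        192 * x ^ ((1 : ℝ) - 1 / 4000) := by ring
  rw [e2]
  linarith

theorem tG7 : SG7 := by
  intro C hC
  refine ⟨256 + 768 * C + 192, 256, by positivity, ?_⟩
  intro N Q hN0 hN1 hRQ hQ
  have hx : (1 : ℝ) ≤ N := by exact_mod_cast hN1
  have hx256 : (256 : ℝ) ≤ N := by exact_mod_cast hN0
  have hx0 : (0 : ℝ) < N := by linarith
  have hquart : (4 : ℝ) ≤ (N : ℝ) ^ ((1 : ℝ) / 4) := by
    calc (4 : ℝ) = (256 : ℝ) ^ ((1 : ℝ) / 4) := by
          rw [show (256 : ℝ) = 4 ^ (4 : ℝ) by norm_num, ← Real.rpow_mul (by norm_num)]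
          norm_num
      _ ≤ (N : ℝ) ^ ((1 : ℝ) / 4) := Real.rpow_le_rpow (by norm_num) hx256 (by norm_num)
  have hRR : (N : ℝ) ^ ((1 : ℝ) / 2 - 1 / 500) / 2 ≤ (RR N : ℝ) :=
    G7_floor (Real.one_le_rpow hx (by norm_num))
  have hQlow : (N : ℝ) ^ ((1 : ℝ) / 2 - 1 / 500) / 2 ≤ (Q : ℝ) :=
    hRR.trans (by exact_mod_cast hRQ)
  have hQ1 : 1 ≤ Q := by
    have : (0 : ℝ) < Q := lt_of_lt_of_le (by positivity) hQlow
    exact_mod_cast this
  refine ⟨hQ1, ⌊(N : ℝ) ^ ((17 : ℝ) / 4000)⌋₊ + 1, by omega, ?_⟩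
  intro g hg hgN
  have hg0 : (0 : ℝ) < g := by exact_mod_cast hg
  have hH1 : (N : ℝ) ^ ((17 : ℝ) / 4000) ≤ ((⌊(N : ℝ) ^ ((17 : ℝ) / 4000)⌋₊ + 1 : ℕ) : ℝ) := by
    push_cast
    exact (Nat.lt_floor_add_one _).le
  have hH2 : ((⌊(N : ℝ) ^ ((17 : ℝ) / 4000)⌋₊ + 1 : ℕ) : ℝ) ≤ 2 * (N : ℝ) ^ ((17 : ℝ) / 4000) := by
    push_cast
    have h1 : (⌊(N : ℝ) ^ ((17 : ℝ) / 4000)⌋₊ : ℝ) ≤ (N : ℝ) ^ ((17 : ℝ) / 4000) :=
      Nat.floor_le (by positivity)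
    have h2 : 1 ≤ (N : ℝ) ^ ((17 : ℝ) / 4000) := Real.one_le_rpow hx (by norm_num)
    linarith
  generalize hHdef : ⌊(N : ℝ) ^ ((17 : ℝ) / 4000)⌋₊ + 1 = H at hH1 hH2 ⊢
  -- g is at most Q / 2
  have hg2 : 2 * (g : ℝ) ≤ (Q : ℝ) := by
    refine le_trans ?_ hQlow
    have h1 : (N : ℝ) ^ ((1 : ℝ) / 2 - 1 / 500) =
        (N : ℝ) ^ ((1 : ℝ) / 800) * (N : ℝ) ^ ((1 : ℝ) / 2 - 1 / 500 - 1 / 800) := by
      rw [← Real.rpow_add hx0]
      norm_num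
    have h2 : (4 : ℝ) ≤ (N : ℝ) ^ ((1 : ℝ) / 2 - 1 / 500 - 1 / 800) :=
      hquart.trans (G7_mono hx (by norm_num))
    rw [h1]
    have h3 : (N : ℝ) ^ ((1 : ℝ) / 800) * 4 ≤
        (N : ℝ) ^ ((1 : ℝ) / 800) * (N : ℝ) ^ ((1 : ℝ) / 2 - 1 / 500 - 1 / 800) :=
      mul_le_mul_of_nonneg_left h2 (by positivity)
    linarith
  have hgQ : g ≤ Q := by
    have : (g : ℝ) ≤ Q := by linarith
    exact_mod_cast this
  refine ⟨hgQ, ?_, ?_⟩
  · have h1 : 2 * (H : ℝ) * g ≤ (Q : ℝ) ^ 2 := by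
      have a1 : 2 * (H : ℝ) * g ≤ 2 * (2 * (N : ℝ) ^ ((17 : ℝ) / 4000)) * (N : ℝ) ^ ((1 : ℝ) / 800) := by
        apply mul_le_mul _ hgN hg0.le (by positivity)
        linarith
      have a2 : (N : ℝ) ^ ((17 : ℝ) / 4000) * (N : ℝ) ^ ((1 : ℝ) / 800) =
          (N : ℝ) ^ ((22 : ℝ) / 4000) := by
        rw [← Real.rpow_add hx0]
        norm_num
      have a3 : ((N : ℝ) ^ ((1 : ℝ) / 2 - 1 / 500) / 2) ^ 2 ≤ (Q : ℝ) ^ 2 :=
        pow_le_pow_left₀ (by positivity) hQlow 2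
      have a4 : ((N : ℝ) ^ ((1 : ℝ) / 2 - 1 / 500) / 2) ^ 2 =
          (N : ℝ) ^ ((996 : ℝ) / 1000) / 4 := by
        rw [div_pow, ← Real.rpow_natCast ((N : ℝ) ^ ((1 : ℝ) / 2 - 1 / 500)) 2,
          ← Real.rpow_mul hx0.le]
        norm_num
      have a5 : (N : ℝ) ^ ((996 : ℝ) / 1000) =
          (N : ℝ) ^ ((22 : ℝ) / 4000) * (N : ℝ) ^ ((996 : ℝ) / 1000 - 22 / 4000) := by
        rw [← Real.rpow_add hx0]
        norm_num
      have a6 : (16 : ℝ) ≤ (N : ℝ) ^ ((996 : ℝ) / 1000 - 22 / 4000) := by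
        calc (16 : ℝ) = 4 * 4 := by norm_num
          _ ≤ (N : ℝ) ^ ((1 : ℝ) / 4) * (N : ℝ) ^ ((1 : ℝ) / 4) :=
            mul_le_mul hquart hquart (by norm_num) (by positivity)
          _ = (N : ℝ) ^ ((1 : ℝ) / 2) := by
            rw [← Real.rpow_add hx0]
            norm_num
          _ ≤ _ := G7_mono hx (by norm_num)
      have a7 : (N : ℝ) ^ ((22 : ℝ) / 4000) * 16 ≤ (N : ℝ) ^ ((996 : ℝ) / 1000) := by
        rw [a5]
        exact mul_le_mul_of_nonneg_left a6 (by positivity)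
      rw [a4] at a3
      have a8 : 2 * (2 * (N : ℝ) ^ ((17 : ℝ) / 4000)) * (N : ℝ) ^ ((1 : ℝ) / 800) =
          4 * (N : ℝ) ^ ((22 : ℝ) / 4000) := by
        rw [← a2]
        ring
      linarith
    exact_mod_cast h1
  · have hP : (N : ℝ) ^ ((1987 : ℝ) / 4000) / 4 ≤ ((Q / g : ℕ) : ℝ) := by
      refine le_trans ?_ (G7_div hg hgQ)
      rw [le_div_iff₀ (by positivity)]
      have h1 : (N : ℝ) ^ ((1 : ℝ) / 2 - 1 / 500) =
          (N : ℝ) ^ ((1987 : ℝ) / 4000) * (N : ℝ) ^ ((1 : ℝ) / 800) := by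
        rw [← Real.rpow_add hx0]
        norm_num
      have h2 : (N : ℝ) ^ ((1987 : ℝ) / 4000) * g ≤
          (N : ℝ) ^ ((1987 : ℝ) / 4000) * (N : ℝ) ^ ((1 : ℝ) / 800) :=
        mul_le_mul_of_nonneg_left hgN (by positivity)
      rw [← h1] at h2
      calc (N : ℝ) ^ ((1987 : ℝ) / 4000) / 4 * (2 * g) =
            (N : ℝ) ^ ((1987 : ℝ) / 4000) * g / 2 := by ring
        _ ≤ (N : ℝ) ^ ((1 : ℝ) / 2 - 1 / 500) / 2 := by linarith
        _ ≤ Q := hQlow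
    have := G7_real (q := (Q : ℝ)) hx hC hH1 hH2 (by positivity) hQ hP
    have e1 : (N : ℝ) * H = N * (H : ℝ) := rfl
    calc 16 * (Q : ℝ) ^ 4 / ((N : ℝ) * H) +
      6 * (H : ℝ) * N * (C * (2 * (H : ℝ) * N) ^ ((1 : ℝ) / 10000) *
        ((Q / g : ℕ) : ℝ) ^ (-((1 : ℝ) / 65)) *
        (1 + 4 * (H : ℝ) * N / ((Q / g : ℕ) : ℝ) ^ 2) ^ ((1 : ℝ) / 4) + 4 / ((Q / g : ℕ) : ℝ))
        ≤ _ := this

end Pool.Agent.Lib.TB
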