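import Pool.Agent.Lib.TB.SpecG

namespace Pool.Agent.Lib.TB

open Finset Pool.Agent.Lib.EH3

theorem tG8 (h1 : SG1) (h2 : SG2) (h3 : SG3) (h6 : SG6) (h7 : SG7) (hT : TauMStmt) : SG8 := by
  obtain ⟨C, hC0, hC⟩ := h6 (1 / 10000) (by norm_num)
  obtain ⟨C1, N0, hC10, hC1⟩ := h7 C hC0
  obtain ⟨Ct, hCt0, hCt⟩ := hT (1 / 10000) (by norm_num)
  refine ⟨2 * Ct * (C1 + 32), 1 / 10000, N0, by norm_num, ?_⟩
  intro N Q c c' a b hN hN1 hQ1 hQ2 hc hc' hab ha hb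
  obtain ⟨hQ, H, hH, hg⟩ := hC1 N Q hN hN1 hQ1 hQ2
  have hNr : (1 : ℝ) ≤ N := by exact_mod_cast hN1
  have hN0 : (0 : ℝ) < N := by linarith
  have hQr : (1 : ℝ) ≤ Q := by exact_mod_cast hQ
  -- the sum as a complex number
  have e1 : |∑ d ∈ Ioc Q (2 * Q), ∑ d' ∈ Ioc Q (2 * Q), c d * c' d' * (SS N d d' a b - MM N d d' a b)| =
      ‖∑ g ∈ Icc 1 (2 * Q), pg Q g (fE N g c c' a b)‖ := by
    rw [← Real.norm_eq_abs, ← Complex.norm_real]
    congr 1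
    push_cast
    have := h1 Q (fun d d' => (((c d * c' d' * (SS N d d' a b - MM N d d' a b) : ℝ)) : ℂ))
    push_cast at this
    rw [this]
    refine Finset.sum_congr rfl fun g _ => ?_
    unfold pg fE
    push_cast
    rfl
  rw [e1]
  -- the divisors
  set k : ℕ := (b - a).natAbs with hk
  have hk1 : 1 ≤ k := by
    have : b - a ≠ 0 := sub_ne_zero.2 (Ne.symm hab)
    exact Nat.one_le_iff_ne_zero.2 (Int.natAbs_ne_zero.2 this)
  have hk2 : k ≤ 2 * N := by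
    have h5 : |b - a| ≤ 2 * N := by
      have := abs_sub b a
      linarith
    have h6 : (k : ℤ) = |b - a| := by rw [hk]; exact Int.natCast_natAbs _
    have : (k : ℤ) ≤ 2 * N := by rw [h6]; exact h5
    exact_mod_cast this
  have e2 : ∑ g ∈ Icc 1 (2 * Q), pg Q g (fE N g c c' a b) =
      ∑ g ∈ (Icc 1 (2 * Q)).filter (fun g => g ∈ k.divisors), pg Q g (fE N g c c' a b) := by
    rw [Finset.sum_filter]
    refine Finset.sum_congr rfl fun g _ => ?_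
    split_ifs with h
    · rfl
    · refine h3 N Q g c c' a b fun hd => h ?_
      rw [Nat.mem_divisors]
      exact ⟨Int.natCast_dvd.1 hd, by omega⟩
  rw [e2]
  have hlam : (N : ℝ) ^ ((1 : ℝ) - 1 / 4000) > 0 := Real.rpow_pos_of_pos hN0 _
  have e3 : ∀ g ∈ (Icc 1 (2 * Q)).filter (fun g => g ∈ k.divisors),
      ‖pg Q g (fE N g c c' a b)‖ ≤ (C1 + 32) * (N : ℝ) ^ ((1 : ℝ) - 1 / 4000) := by
    intro g hg'
    rw [mem_filter, mem_Icc, Nat.mem_divisors] at hg'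
    obtain ⟨⟨g1, g2⟩, g3, g4⟩ := hg'
    have hdv : (g : ℤ) ∣ b - a := Int.natCast_dvd.2 g3
    have g1r : (1 : ℝ) ≤ g := by exact_mod_cast g1
    rcases le_or_gt (g : ℝ) ((N : ℝ) ^ ((1 : ℝ) / 800)) with hs | hs
    · obtain ⟨i1, i2, i3⟩ := hg g g1 hs
      have := hC N Q H g c c' a b hN1 hH g1 i1 i2 hc hc' hab ha hb hdv
      refine this.trans (i3.trans ?_)
      have : C1 * (N : ℝ) ^ ((1 : ℝ) - 1 / 4000) ≤ (C1 + 32) * (N : ℝ) ^ ((1 : ℝ) - 1 / 4000) := by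
        apply mul_le_mul_of_nonneg_right (by linarith) hlam.le
      exact this
    · have hL := h2 N Q g c c' a b hN1 hQ g1 hc hc'
      have hG : (0 : ℝ) < (N : ℝ) ^ ((1 : ℝ) / 800) := Real.rpow_pos_of_pos hN0 _
      have j1 : 16 * (N : ℝ) / g ≤ 16 * (N : ℝ) ^ ((1 : ℝ) - 1 / 4000) := by
        have : 16 * (N : ℝ) / g ≤ 16 * (N : ℝ) / (N : ℝ) ^ ((1 : ℝ) / 800) := by
          apply div_le_div_of_nonneg_left (by positivity) hG hs.le
        refine this.trans ?_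
        have : 16 * (N : ℝ) / (N : ℝ) ^ ((1 : ℝ) / 800) = 16 * (N : ℝ) ^ ((1 : ℝ) - 1 / 800) := by
          rw [Real.rpow_sub hN0, Real.rpow_one]; ring
        rw [this]
        have := Real.rpow_le_rpow_of_exponent_le hNr (by norm_num : (1 : ℝ) - 1 / 800 ≤ 1 - 1 / 4000)
        linarith
      have j2 : 4 * (Q : ℝ) ^ 2 / (g : ℝ) ^ 2 ≤ 16 * (N : ℝ) ^ ((1 : ℝ) - 1 / 4000) := by
        have k1 : (Q : ℝ) ^ 2 ≤ 4 * (N : ℝ) ^ ((1 : ℝ) + 2 / 1000) := by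
          have : (Q : ℝ) ^ 2 ≤ (2 * (N : ℝ) ^ ((1 : ℝ) / 2 + 1 / 1000)) ^ 2 := by
            apply pow_le_pow_left₀ (by positivity) hQ2
          refine this.trans (le_of_eq ?_)
          rw [mul_pow, ← Real.rpow_natCast ((N : ℝ) ^ ((1 : ℝ) / 2 + 1 / 1000)) 2, ← Real.rpow_mul hN0.le]
          norm_num
        have k2 : (N : ℝ) ^ ((2 : ℝ) / 800) ≤ (g : ℝ) ^ 2 := by
          have : ((N : ℝ) ^ ((1 : ℝ) / 800)) ^ 2 ≤ (g : ℝ) ^ 2 := by
            apply pow_le_pow_left₀ hG.le hs.le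
          refine le_trans (le_of_eq ?_) this
          rw [← Real.rpow_natCast ((N : ℝ) ^ ((1 : ℝ) / 800)) 2, ← Real.rpow_mul hN0.le]
          norm_num
        have hG2 : (0 : ℝ) < (N : ℝ) ^ ((2 : ℝ) / 800) := Real.rpow_pos_of_pos hN0 _
        have k3 : 4 * (Q : ℝ) ^ 2 / (g : ℝ) ^ 2 ≤
            4 * (4 * (N : ℝ) ^ ((1 : ℝ) + 2 / 1000)) / (N : ℝ) ^ ((2 : ℝ) / 800) := by
          apply div_le_div₀ (by positivity) _ hG2 k2
          linarith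
        refine k3.trans ?_
        have k4 : 4 * (4 * (N : ℝ) ^ ((1 : ℝ) + 2 / 1000)) / (N : ℝ) ^ ((2 : ℝ) / 800) =
            16 * (N : ℝ) ^ (((1 : ℝ) + 2 / 1000) - 2 / 800) := by
          rw [Real.rpow_sub hN0]; ring
        rw [k4]
        have := Real.rpow_le_rpow_of_exponent_le hNr
          (by norm_num : ((1 : ℝ) + 2 / 1000) - 2 / 800 ≤ 1 - 1 / 4000)
        linarith
      have : 16 * (N : ℝ) ^ ((1 : ℝ) - 1 / 4000) + 16 * (N : ℝ) ^ ((1 : ℝ) - 1 / 4000) ≤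
          (C1 + 32) * (N : ℝ) ^ ((1 : ℝ) - 1 / 4000) := by nlinarith
      linarith
  have e4 : (((Icc 1 (2 * Q)).filter (fun g => g ∈ k.divisors)).card : ℝ) ≤
      2 * Ct * (N : ℝ) ^ ((1 : ℝ) / 10000) := by
    have l1 : ((Icc 1 (2 * Q)).filter (fun g => g ∈ k.divisors)).card ≤ k.divisors.card := by
      apply Finset.card_le_card
      intro g hg'
      exact (mem_filter.1 hg').2
    have l2 : (((Icc 1 (2 * Q)).filter (fun g => g ∈ k.divisors)).card : ℝ) ≤ (k.divisors.card : ℝ) := by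
      exact_mod_cast l1
    refine l2.trans ((hCt k hk1).trans ?_)
    have l3 : (k : ℝ) ^ ((1 : ℝ) / 10000) ≤ (2 * (N : ℝ)) ^ ((1 : ℝ) / 10000) := by
      apply Real.rpow_le_rpow (by positivity) _ (by norm_num)
      exact_mod_cast hk2
    have l4 : (2 * (N : ℝ)) ^ ((1 : ℝ) / 10000) ≤ 2 * (N : ℝ) ^ ((1 : ℝ) / 10000) := by
      rw [Real.mul_rpow (by norm_num) hN0.le]
      apply mul_le_mul_of_nonneg_right _ (by positivity)
      calc (2 : ℝ) ^ ((1 : ℝ) / 10000) ≤ (2 : ℝ) ^ (1 : ℝ) :=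
            Real.rpow_le_rpow_of_exponent_le (by norm_num) (by norm_num)
        _ = 2 := by norm_num
    calc Ct * (k : ℝ) ^ ((1 : ℝ) / 10000) ≤ Ct * (2 * (N : ℝ) ^ ((1 : ℝ) / 10000)) :=
          mul_le_mul_of_nonneg_left (l3.trans l4) hCt0.le
      _ = 2 * Ct * (N : ℝ) ^ ((1 : ℝ) / 10000) := by ring
  calc ‖∑ g ∈ (Icc 1 (2 * Q)).filter (fun g => g ∈ k.divisors), pg Q g (fE N g c c' a b)‖
      ≤ ∑ g ∈ (Icc 1 (2 * Q)).filter (fun g => g ∈ k.divisors), ‖pg Q g (fE N g c c' a b)‖ :=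
        norm_sum_le _ _
    _ ≤ ∑ g ∈ (Icc 1 (2 * Q)).filter (fun g => g ∈ k.divisors),
          (C1 + 32) * (N : ℝ) ^ ((1 : ℝ) - 1 / 4000) := Finset.sum_le_sum e3
    _ = (((Icc 1 (2 * Q)).filter (fun g => g ∈ k.divisors)).card : ℝ) *
          ((C1 + 32) * (N : ℝ) ^ ((1 : ℝ) - 1 / 4000)) := by rw [sum_const, nsmul_eq_mul]
    _ ≤ (2 * Ct * (N : ℝ) ^ ((1 : ℝ) / 10000)) * ((C1 + 32) * (N : ℝ) ^ ((1 : ℝ) - 1 / 4000)) := by
        apply mul_le_mul_of_nonneg_right e4 (by positivity)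
    _ = (2 * Ct * (C1 + 32)) * (N : ℝ) ^ ((1 : ℝ) / 10000 + (1 - 1 / 4000)) := by
        rw [Real.rpow_add hN0]; ring
    _ ≤ (2 * Ct * (C1 + 32)) * (N : ℝ) ^ ((1 : ℝ) - 1 / 10000) := by
        apply mul_le_mul_of_nonneg_left _ (by positivity)
        exact Real.rpow_le_rpow_of_exponent_le hNr (by norm_num)

end Pool.Agent.Lib.TB
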