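import Pool.Agent.Lib.TB.SpecM

/-!
MP_00e23e_nt, directory Lib/TB, module Mbg: the assembly with exponents for large N.
-/

namespace Pool.Agent.Lib.TB

open Finset Pool.Agent.Lib.EH3

private lemma Mbg_pow {x p q : ℝ} (hx : 1 ≤ x) (h : p ≤ q) : x ^ p ≤ x ^ q :=
  Real.rpow_le_rpow_of_exponent_le hx h

/-- facts on RR -/
private lemma Mbg_RR {N : ℕ} (hN : 1 ≤ N) : 1 ≤ RR N ∧
    (RR N : ℝ) ≤ (N : ℝ) ^ (249 / 500 : ℝ) ∧ (N : ℝ) ^ (249 / 500 : ℝ) ≤ 2 * (RR N : ℝ) := by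
  have hx : (1 : ℝ) ≤ N := by exact_mod_cast hN
  have e : ((1 : ℝ) / 2 - 1 / 500) = 249 / 500 := by norm_num
  have h1 : (1 : ℝ) ≤ (N : ℝ) ^ (249 / 500 : ℝ) := Real.one_le_rpow hx (by norm_num)
  unfold RR
  rw [e]
  have h2 : 1 ≤ ⌊(N : ℝ) ^ (249 / 500 : ℝ)⌋₊ := by
    rw [Nat.le_floor_iff (by linarith)]
    exact_mod_cast h1
  have h3 := Nat.floor_le (show (0 : ℝ) ≤ (N : ℝ) ^ (249 / 500 : ℝ) by linarith)
  have h4 := Nat.lt_floor_add_one ((N : ℝ) ^ (249 / 500 : ℝ))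
  have h5 : (1 : ℝ) ≤ (⌊(N : ℝ) ^ (249 / 500 : ℝ)⌋₊ : ℝ) := by exact_mod_cast h2
  exact ⟨h2, h3, by linarith⟩

theorem tMbg (h1 : EEStmt) (h2 : TauMStmt) (h3 : MmiStmt) (h4 : MmbStmt) (h5 : McrStmt)
    (h6 : MfuStmt) (h7 : MxcStmt) : MbgStmt := by
  obtain ⟨C1, η1, N1, hη1, hEE⟩ := h1
  obtain ⟨Ce, hCe0, hCe⟩ := h2 (1 / 8000) (by norm_num)
  refine ⟨|C1| + 192032 * Ce + 72 * Ce + 5120 * Ce ^ 4, min η1 (1 / 1000), N1,
    lt_min hη1 (by norm_num), ?_⟩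
  intro N Q c c' a b hN1 hN hRQ hQ hc hc' hab ha hb
  obtain ⟨hR1, hR2, hR3⟩ := Mbg_RR hN
  obtain ⟨R, hR⟩ : ∃ R, R = RR N := ⟨_, rfl⟩
  rw [← hR] at hR1 hR2 hR3 hRQ ⊢
  obtain ⟨x, hxN⟩ : ∃ x : ℝ, x = (N : ℝ) := ⟨_, rfl⟩
  have hx : (1 : ℝ) ≤ x := by
    rw [hxN]
    exact_mod_cast hN
  have hx0 : (0 : ℝ) < x := by linarith
  have hQx : (Q : ℝ) ≤ 2 * x ^ (501 / 1000 : ℝ) := by
    rw [hxN]
    have e : ((1 : ℝ) / 2 + 1 / 1000) = 501 / 1000 := by norm_num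
    rw [← e]
    exact hQ
  have hR2' : (R : ℝ) ≤ x ^ (249 / 500 : ℝ) := by
    rw [hxN]
    exact hR2
  have hR3' : x ^ (249 / 500 : ℝ) ≤ 2 * (R : ℝ) := by
    rw [hxN]
    exact hR3
  have hR0 : (1 : ℝ) ≤ R := by exact_mod_cast hR1
  -- divisor bounds
  have hxe1 : (1 : ℝ) ≤ x ^ (1 / 8000 : ℝ) := Real.one_le_rpow hx (by norm_num)
  have htau : ∀ n : ℕ, 1 ≤ n → (n : ℝ) ≤ 2 * x → (n.divisors.card : ℝ) ≤
      2 * Ce * x ^ (1 / 8000 : ℝ) := by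
    intro n hn hnx
    have g1 := hCe n hn
    have g2 : (n : ℝ) ^ (1 / 8000 : ℝ) ≤ (2 * x) ^ (1 / 8000 : ℝ) :=
      Real.rpow_le_rpow (by positivity) hnx (by norm_num)
    have g3 : (2 * x) ^ (1 / 8000 : ℝ) ≤ 2 * x ^ (1 / 8000 : ℝ) := by
      rw [Real.mul_rpow (by norm_num) hx0.le]
      have g4 : (2 : ℝ) ^ (1 / 8000 : ℝ) ≤ (2 : ℝ) ^ (1 : ℝ) := Mbg_pow (by norm_num) (by norm_num)
      rw [Real.rpow_one] at g4
      exact mul_le_mul_of_nonneg_right g4 (by linarith)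
    calc (n.divisors.card : ℝ) ≤ Ce * (n : ℝ) ^ (1 / 8000 : ℝ) := g1
      _ ≤ Ce * (2 * x ^ (1 / 8000 : ℝ)) := mul_le_mul_of_nonneg_left (g2.trans g3) hCe0.le
      _ = 2 * Ce * x ^ (1 / 8000 : ℝ) := by ring
  have htau4 : ∀ n ∈ Ioc Q (2 * Q), (n.divisors.card : ℝ) ≤ 4 * Ce * x ^ (1 / 8000 : ℝ) := by
    intro n hn
    rw [mem_Ioc] at hn
    have g0 : (n : ℝ) ≤ 4 * x := by
      have g1 : (n : ℝ) ≤ 2 * Q := by exact_mod_cast hn.2
      have g2 : x ^ (501 / 1000 : ℝ) ≤ x ^ (1 : ℝ) := Mbg_pow hx (by norm_num)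
      rw [Real.rpow_one] at g2
      linarith
    have g1 := hCe n (by omega)
    have g2 : (n : ℝ) ^ (1 / 8000 : ℝ) ≤ (4 * x) ^ (1 / 8000 : ℝ) :=
      Real.rpow_le_rpow (by positivity) g0 (by norm_num)
    have g3 : (4 * x) ^ (1 / 8000 : ℝ) ≤ 4 * x ^ (1 / 8000 : ℝ) := by
      rw [Real.mul_rpow (by norm_num) hx0.le]
      have g4 : (4 : ℝ) ^ (1 / 8000 : ℝ) ≤ (4 : ℝ) ^ (1 : ℝ) := Mbg_pow (by norm_num) (by norm_num)
      rw [Real.rpow_one] at g4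
      exact mul_le_mul_of_nonneg_right g4 (by linarith)
    calc (n.divisors.card : ℝ) ≤ Ce * (n : ℝ) ^ (1 / 8000 : ℝ) := g1
      _ ≤ Ce * (4 * x ^ (1 / 8000 : ℝ)) := mul_le_mul_of_nonneg_left (g2.trans g3) hCe0.le
      _ = 4 * Ce * x ^ (1 / 8000 : ℝ) := by ring
  obtain ⟨m, hm⟩ : ∃ m : ℤ, m = a - b := ⟨_, rfl⟩
  have hm0 : m ≠ 0 := by
    rw [hm]
    exact sub_ne_zero.2 hab
  have htm : (m.natAbs.divisors.card : ℝ) ≤ 2 * Ce * x ^ (1 / 8000 : ℝ) := by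
    apply htau _ (Int.natAbs_pos.2 hm0)
    have g1 : m.natAbs ≤ 2 * N := by
      rw [hm]
      rw [abs_le] at ha hb
      omega
    rw [hxN]
    exact_mod_cast g1
  -- the exchange
  have hX := h7 N R Q c c' a b hR1 hc hc' hab
  rw [← hm] at hX
  have hXb : 2 * (Q : ℝ) * ((m.natAbs.divisors.card : ℝ) * (4 + 3 * Real.log R)) ≤
      192032 * Ce * x ^ (999 / 1000 : ℝ) := by
    have g1 : Real.log R ≤ 8000 * x ^ (1 / 8000 : ℝ) := by
      have g2 : Real.log R ≤ Real.log x := by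
        apply Real.log_le_log (by linarith)
        have g3 : x ^ (249 / 500 : ℝ) ≤ x ^ (1 : ℝ) := Mbg_pow hx (by norm_num)
        rw [Real.rpow_one] at g3
        linarith
      have g4 := Real.log_le_rpow_div hx0.le (show (0 : ℝ) < 1 / 8000 by norm_num)
      have g5 : x ^ (1 / 8000 : ℝ) / (1 / 8000) = 8000 * x ^ (1 / 8000 : ℝ) := by ring
      rw [g5] at g4
      linarith
    have g6 : 4 + 3 * Real.log R ≤ 24004 * x ^ (1 / 8000 : ℝ) := by linarith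
    have g7 : 0 ≤ Real.log R := Real.log_nonneg hR0
    have g8 : (m.natAbs.divisors.card : ℝ) * (4 + 3 * Real.log R) ≤
        (2 * Ce * x ^ (1 / 8000 : ℝ)) * (24004 * x ^ (1 / 8000 : ℝ)) :=
      mul_le_mul htm g6 (by linarith) (by positivity)
    have g9 : 2 * (Q : ℝ) * ((m.natAbs.divisors.card : ℝ) * (4 + 3 * Real.log R)) ≤
        (2 * (2 * x ^ (501 / 1000 : ℝ))) *
          ((2 * Ce * x ^ (1 / 8000 : ℝ)) * (24004 * x ^ (1 / 8000 : ℝ))) :=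
      mul_le_mul (by linarith) g8 (by positivity) (by positivity)
    have g10 : (2 * (2 * x ^ (501 / 1000 : ℝ))) *
          ((2 * Ce * x ^ (1 / 8000 : ℝ)) * (24004 * x ^ (1 / 8000 : ℝ))) =
        192032 * Ce * x ^ (501 / 1000 + 1 / 8000 + 1 / 8000 : ℝ) := by
      rw [Real.rpow_add hx0, Real.rpow_add hx0]
      ring
    rw [g10] at g9
    refine g9.trans (mul_le_mul_of_nonneg_left (Mbg_pow hx (by norm_num)) (by positivity))
  -- the expansion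
  have hpos : ∀ d ∈ Ioc Q (2 * Q), 1 ≤ d := fun d hd => by
    rw [mem_Ioc] at hd
    omega
  have hexp : ∑ n ∈ Icc (-(N : ℤ)) N, tri N n * ((∑ d ∈ Ioc Q (2 * Q), c d * dd R d (n - a)) *
      (∑ d' ∈ Ioc Q (2 * Q), c' d' * dd R d' (n - b))) =
      ∑ d ∈ Ioc Q (2 * Q), ∑ d' ∈ Ioc Q (2 * Q), c d * c' d' *
        (((N : ℝ) / ((d : ℝ) * d')) *
          ∑ s ∈ (Nat.gcd d d').divisors.filter (fun s => R < s), rs s m) +
      ∑ d ∈ Ioc Q (2 * Q), ∑ d' ∈ Ioc Q (2 * Q), c d * c' d' * (SS N d d' a b - MM N d d' a b) +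
      ∑ d ∈ Ioc Q (2 * Q), ∑ d' ∈ Ioc Q (2 * Q), c d * c' d' *
        (∑ u ∈ d.divisors, ∑ w ∈ d'.divisors, kap R d u * kap R d' w *
          (SS N u w a b - MM N u w a b) - (SS N d d' a b - MM N d d' a b)) := by
    rw [h6, ← Finset.sum_add_distrib, ← Finset.sum_add_distrib]
    refine Finset.sum_congr rfl fun d hd => ?_
    rw [← Finset.sum_add_distrib, ← Finset.sum_add_distrib]
    refine Finset.sum_congr rfl fun d' hd' => ?_
    rw [hm, ← h3 N R d d' a b (hpos d hd) (hpos d' hd')]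
    have g1 : ∑ u ∈ d.divisors, ∑ w ∈ d'.divisors, kap R d u * kap R d' w * SS N u w a b =
        ∑ u ∈ d.divisors, ∑ w ∈ d'.divisors, kap R d u * kap R d' w * MM N u w a b +
        ∑ u ∈ d.divisors, ∑ w ∈ d'.divisors, kap R d u * kap R d' w *
          (SS N u w a b - MM N u w a b) := by
      rw [← Finset.sum_add_distrib]
      refine Finset.sum_congr rfl fun u _ => ?_
      rw [← Finset.sum_add_distrib]
      refine Finset.sum_congr rfl fun w _ => ?_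
      ring
    rw [g1]
    ring
  have hcc : ∀ (d d' : ℕ) (z : ℝ), |c d * c' d' * z| ≤ |z| := by
    intro d d' z
    rw [abs_mul, abs_mul]
    have g1 : |c d| * |c' d'| ≤ 1 := mul_le_one₀ (hc d) (abs_nonneg _) (hc' d')
    calc |c d| * |c' d'| * |z| ≤ 1 * |z| := mul_le_mul_of_nonneg_right g1 (abs_nonneg _)
      _ = |z| := one_mul _
  -- main terms
  have hA : |∑ d ∈ Ioc Q (2 * Q), ∑ d' ∈ Ioc Q (2 * Q), c d * c' d' *
        (((N : ℝ) / ((d : ℝ) * d')) *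
          ∑ s ∈ (Nat.gcd d d').divisors.filter (fun s => R < s), rs s m)| ≤
      72 * Ce * x ^ (999 / 1000 : ℝ) := by
    have g1 : |∑ d ∈ Ioc Q (2 * Q), ∑ d' ∈ Ioc Q (2 * Q), c d * c' d' *
        (((N : ℝ) / ((d : ℝ) * d')) *
          ∑ s ∈ (Nat.gcd d d').divisors.filter (fun s => R < s), rs s m)| ≤
        18 * (N : ℝ) * (m.natAbs.divisors.card : ℝ) / R := by
      refine le_trans ?_ (h4 N R Q m hR1 hm0)
      refine (Finset.abs_sum_le_sum_abs _ _).trans (Finset.sum_le_sum fun d _ => ?_)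
      refine (Finset.abs_sum_le_sum_abs _ _).trans (Finset.sum_le_sum fun d' _ => ?_)
      exact hcc d d' _
    refine g1.trans ?_
    rw [← hxN, div_le_iff₀ (by linarith)]
    have g2 : 18 * x * (m.natAbs.divisors.card : ℝ) ≤ 18 * x * (2 * Ce * x ^ (1 / 8000 : ℝ)) :=
      mul_le_mul_of_nonneg_left htm (by positivity)
    have g3 : 72 * Ce * x ^ (999 / 1000 : ℝ) * (x ^ (249 / 500 : ℝ) / 2) ≤
        72 * Ce * x ^ (999 / 1000 : ℝ) * R :=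
      mul_le_mul_of_nonneg_left (by linarith) (by positivity)
    have g4 : 72 * Ce * x ^ (999 / 1000 : ℝ) * (x ^ (249 / 500 : ℝ) / 2) =
        36 * Ce * x ^ (999 / 1000 + 249 / 500 : ℝ) := by
      rw [Real.rpow_add hx0]
      ring
    have g5 : 18 * x * (2 * Ce * x ^ (1 / 8000 : ℝ)) = 36 * Ce * x ^ (1 + 1 / 8000 : ℝ) := by
      rw [Real.rpow_add hx0, Real.rpow_one]
      ring
    have g6 : 36 * Ce * x ^ (1 + 1 / 8000 : ℝ) ≤ 36 * Ce * x ^ (999 / 1000 + 249 / 500 : ℝ) :=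
      mul_le_mul_of_nonneg_left (Mbg_pow hx (by norm_num)) (by positivity)
    linarith
  -- cross terms
  have hE : |∑ d ∈ Ioc Q (2 * Q), ∑ d' ∈ Ioc Q (2 * Q), c d * c' d' *
        (∑ u ∈ d.divisors, ∑ w ∈ d'.divisors, kap R d u * kap R d' w *
          (SS N u w a b - MM N u w a b) - (SS N d d' a b - MM N d d' a b))| ≤
      5120 * Ce ^ 4 * x ^ (999 / 1000 : ℝ) := by
    obtain ⟨T, hT⟩ : ∃ T : ℝ, T = 4 * Ce * x ^ (1 / 8000 : ℝ) := ⟨_, rfl⟩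
    have hT0 : 0 ≤ T := by
      rw [hT]
      positivity
    have g0 : ∀ d ∈ Ioc Q (2 * Q), (d.divisors.card : ℝ) ^ 2 ≤ T ^ 2 := by
      intro d hd
      rw [hT]
      exact pow_le_pow_left₀ (by positivity) (htau4 d hd) 2
    have g1 : |∑ d ∈ Ioc Q (2 * Q), ∑ d' ∈ Ioc Q (2 * Q), c d * c' d' *
        (∑ u ∈ d.divisors, ∑ w ∈ d'.divisors, kap R d u * kap R d' w *
          (SS N u w a b - MM N u w a b) - (SS N d d' a b - MM N d d' a b))| ≤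
        ∑ d ∈ Ioc Q (2 * Q), ∑ d' ∈ Ioc Q (2 * Q), 5 * (R : ℝ) ^ 2 / N * (T ^ 2 * T ^ 2) := by
      refine (Finset.abs_sum_le_sum_abs _ _).trans (Finset.sum_le_sum fun d hd => ?_)
      refine (Finset.abs_sum_le_sum_abs _ _).trans (Finset.sum_le_sum fun d' hd' => ?_)
      refine (hcc d d' _).trans ((h5 N R Q d d' a b hN hR1 hRQ hd hd').trans ?_)
      exact mul_le_mul_of_nonneg_left
        (mul_le_mul (g0 d hd) (g0 d' hd') (by positivity) (by positivity)) (by positivity)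
    refine g1.trans ?_
    rw [Finset.sum_const, Finset.sum_const, Nat.card_Ioc, nsmul_eq_mul, nsmul_eq_mul]
    have e0 : 2 * Q - Q = Q := by omega
    rw [e0, ← hxN]
    have g2 : (Q : ℝ) * (Q * (5 * (R : ℝ) ^ 2 / x * (T ^ 2 * T ^ 2))) =
        ((Q : ℝ) * Q) * ((R : ℝ) * R) * (5 * (T ^ 2 * T ^ 2) / x) := by ring
    rw [g2]
    have g3 : (Q : ℝ) * Q ≤ (2 * x ^ (501 / 1000 : ℝ)) * (2 * x ^ (501 / 1000 : ℝ)) :=
      mul_le_mul hQx hQx (by positivity) (by positivity)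
    have g4 : (R : ℝ) * R ≤ x ^ (249 / 500 : ℝ) * x ^ (249 / 500 : ℝ) :=
      mul_le_mul hR2' hR2' (by positivity) (by positivity)
    have g5 : ((Q : ℝ) * Q) * ((R : ℝ) * R) ≤
        ((2 * x ^ (501 / 1000 : ℝ)) * (2 * x ^ (501 / 1000 : ℝ))) *
          (x ^ (249 / 500 : ℝ) * x ^ (249 / 500 : ℝ)) :=
      mul_le_mul g3 g4 (by positivity) (by positivity)
    have g6 : ((Q : ℝ) * Q) * ((R : ℝ) * R) * (5 * (T ^ 2 * T ^ 2) / x) ≤
        ((2 * x ^ (501 / 1000 : ℝ)) * (2 * x ^ (501 / 1000 : ℝ))) *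
          (x ^ (249 / 500 : ℝ) * x ^ (249 / 500 : ℝ)) * (5 * (T ^ 2 * T ^ 2) / x) :=
      mul_le_mul_of_nonneg_right g5 (by positivity)
    refine g6.trans ?_
    have g7 : ((2 * x ^ (501 / 1000 : ℝ)) * (2 * x ^ (501 / 1000 : ℝ))) *
          (x ^ (249 / 500 : ℝ) * x ^ (249 / 500 : ℝ)) * (5 * (T ^ 2 * T ^ 2) / x) =
        5120 * Ce ^ 4 * x ^ (501 / 1000 + 501 / 1000 + 249 / 500 + 249 / 500 + 1 / 8000 +
          1 / 8000 + 1 / 8000 + 1 / 8000 - 1 : ℝ) := by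
      rw [hT, Real.rpow_sub hx0, Real.rpow_one, Real.rpow_add hx0, Real.rpow_add hx0,
        Real.rpow_add hx0, Real.rpow_add hx0, Real.rpow_add hx0, Real.rpow_add hx0,
        Real.rpow_add hx0]
      ring
    rw [g7]
    exact mul_le_mul_of_nonneg_left (Mbg_pow hx (by norm_num)) (by positivity)
  -- the error terms
  have hB := hEE N Q c c' a b hN1 hN (by rw [← hR]; exact hRQ) hQ hc hc' hab ha hb
  have hη : x ^ (999 / 1000 : ℝ) ≤ x ^ (1 - min η1 (1 / 1000)) := by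
    apply Mbg_pow hx
    have := min_le_right η1 (1 / 1000 : ℝ)
    linarith
  have hη' : x ^ (1 - η1) ≤ x ^ (1 - min η1 (1 / 1000)) := by
    apply Mbg_pow hx
    have := min_le_left η1 (1 / 1000 : ℝ)
    linarith
  rw [← hxN] at hB ⊢
  have hB' : |∑ d ∈ Ioc Q (2 * Q), ∑ d' ∈ Ioc Q (2 * Q),
      c d * c' d' * (SS N d d' a b - MM N d d' a b)| ≤ |C1| * x ^ (1 - min η1 (1 / 1000)) := by
    refine hB.trans ?_
    calc C1 * x ^ (1 - η1) ≤ |C1| * x ^ (1 - η1) :=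
          mul_le_mul_of_nonneg_right (le_abs_self _) (by positivity)
      _ ≤ _ := mul_le_mul_of_nonneg_left hη' (abs_nonneg _)
  obtain ⟨Y, hY⟩ : ∃ Y, Y = x ^ (1 - min η1 (1 / 1000)) := ⟨_, rfl⟩
  rw [← hY] at hη hB' ⊢
  have k1 : 192032 * Ce * x ^ (999 / 1000 : ℝ) ≤ 192032 * Ce * Y :=
    mul_le_mul_of_nonneg_left hη (by positivity)
  have k2 : 72 * Ce * x ^ (999 / 1000 : ℝ) ≤ 72 * Ce * Y :=
    mul_le_mul_of_nonneg_left hη (by positivity)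
  have k3 : 5120 * Ce ^ 4 * x ^ (999 / 1000 : ℝ) ≤ 5120 * Ce ^ 4 * Y :=
    mul_le_mul_of_nonneg_left hη (by positivity)
  rw [hexp] at hX
  have hX' := hX.trans hXb
  rw [abs_le] at hX' hA hE hB' ⊢
  constructor
  · linarith [hX'.1, hA.1, hE.1, hB'.1]
  · linarith [hX'.2, hA.2, hE.2, hB'.2]

end Pool.Agent.Lib.TB
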