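import Pool.Agent.Lib.TB.SpecM

/-!
MP_00e23e_nt, Lib/TB, module Mdy: reciprocals of multiples in a dyadic block.
-/

namespace Pool.Agent.Lib.TB

open Finset Pool.Agent.Lib.EH3

private lemma Mdy_card (Q s : ℕ) (hs : 1 ≤ s) :
    #((Ioc Q (2 * Q)).filter (fun d => s ∣ d)) ≤ Q / s + 1 := by
  have h1 : #((Ioc Q (2 * Q)).filter (fun d => s ∣ d)) ≤ #(Ioc (Q / s) (2 * Q / s)) := by
    refine card_le_card_of_injOn (fun d => d / s) ?_ ?_
    · intro d hd
      rw [mem_coe, mem_filter, mem_Ioc] at hd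
      obtain ⟨⟨h1, h2⟩, k, rfl⟩ := hd
      rw [coe_Ioc, Set.mem_Ioc]
      change Q / s < s * k / s ∧ s * k / s ≤ 2 * Q / s
      rw [Nat.mul_div_cancel_left _ (by omega)]
      exact ⟨(Nat.div_lt_iff_lt_mul (by omega)).2 (by rwa [mul_comm]),
        (Nat.le_div_iff_mul_le (by omega)).2 (by rwa [mul_comm])⟩
    · intro d hd d' hd' h
      rw [mem_coe, mem_filter] at hd hd'
      obtain ⟨-, k, rfl⟩ := hd
      obtain ⟨-, k', rfl⟩ := hd'
      change s * k / s = s * k' / s at h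
      rw [Nat.mul_div_cancel_left _ (by omega), Nat.mul_div_cancel_left _ (by omega)] at h
      rw [h]
  rw [Nat.card_Ioc] at h1
  have h2 : 2 * Q / s < 2 * (Q / s + 1) := by
    rw [Nat.div_lt_iff_lt_mul (by omega)]
    have h3 := Nat.lt_mul_div_succ Q (show 0 < s by omega)
    nlinarith
  omega

theorem tMdy : MdyStmt := by
  intro Q s hs
  have hs0 : (0 : ℝ) < s := by exact_mod_cast hs
  have hK : (0 : ℝ) < ((Q / s : ℕ) : ℝ) + 1 := by positivity
  have h1 : ∀ d ∈ (Ioc Q (2 * Q)).filter (fun d => s ∣ d),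
      1 / (d : ℝ) ≤ 1 / ((s : ℝ) * (((Q / s : ℕ) : ℝ) + 1)) := by
    intro d hd
    rw [mem_filter, mem_Ioc] at hd
    obtain ⟨⟨h1, h2⟩, k, rfl⟩ := hd
    have h3 : Q / s + 1 ≤ k := (Nat.div_lt_iff_lt_mul (by omega)).2 (by rwa [mul_comm])
    have h4 : ((Q / s : ℕ) : ℝ) + 1 ≤ k := by exact_mod_cast h3
    refine one_div_le_one_div_of_le (by positivity) ?_
    push_cast
    exact mul_le_mul_of_nonneg_left h4 hs0.le
  have h2 := sum_le_card_nsmul _ _ _ h1
  have h3 : (#((Ioc Q (2 * Q)).filter (fun d => s ∣ d)) : ℝ) ≤ ((Q / s : ℕ) : ℝ) + 1 := by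
    exact_mod_cast Mdy_card Q s hs
  rw [nsmul_eq_mul] at h2
  refine h2.trans ((mul_le_mul_of_nonneg_right h3 (by positivity)).trans ?_)
  have h4 : (((Q / s : ℕ) : ℝ) + 1) * (1 / ((s : ℝ) * (((Q / s : ℕ) : ℝ) + 1))) = 1 / s := by
    field_simp
  rw [h4]
  exact div_le_div_of_nonneg_right one_le_two hs0.le

end Pool.Agent.Lib.TB
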