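import Pool.Agent.Lib.TB.SpecM

namespace Pool.Agent.Lib.TB

open Finset Pool.Agent.Lib.EH3

private theorem Mex_one {t : ℝ} (h : ee t = 1) : ∃ n : ℤ, t = n := by
  unfold ee at h
  rw [Complex.exp_eq_one_iff] at h
  obtain ⟨n, hn⟩ := h
  refine ⟨n, ?_⟩
  have hpi : (2 * Real.pi : ℂ) ≠ 0 := by
    have := Real.pi_ne_zero
    simp [this]
  have h2 : Complex.I * ((2 * Real.pi * t : ℝ) : ℂ) = Complex.I * (2 * Real.pi * (n : ℂ)) := by
    rw [hn]; ring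
  have h3 := mul_left_cancel₀ Complex.I_ne_zero h2
  push_cast at h3
  have h4 := mul_left_cancel₀ hpi h3
  exact_mod_cast h4

private theorem Mex_ind (q : ℕ) (hq : 1 ≤ q) (m : ℤ) :
    (1 / (q : ℂ)) * ∑ h ∈ range q, ee ((h : ℝ) * ((m : ℝ) / (q : ℝ))) =
      if (q : ℤ) ∣ m then 1 else 0 := by
  have hq0 : (q : ℝ) ≠ 0 := by positivity
  have hqc : (q : ℂ) ≠ 0 := by
    have : (q : ℕ) ≠ 0 := by omega
    exact_mod_cast this
  simp only [ee_nat_mul]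
  split_ifs with hd
  · obtain ⟨k, rfl⟩ := hd
    have h1 : (((q : ℤ) * k : ℤ) : ℝ) / (q : ℝ) = (k : ℝ) := by
      push_cast
      field_simp
    rw [h1, ee_int]
    simp [hqc]
  · have hz : ee ((m : ℝ) / (q : ℝ)) ≠ 1 := by
      intro h
      obtain ⟨n, hn⟩ := Mex_one h
      apply hd
      refine ⟨n, ?_⟩
      have h2 : (m : ℝ) = q * n := by
        rw [← hn]
        field_simp
      exact_mod_cast h2
    have hzq : ee ((m : ℝ) / (q : ℝ)) ^ q = 1 := by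
      rw [← ee_nat_mul]
      have : (q : ℝ) * ((m : ℝ) / (q : ℝ)) = (m : ℝ) := by field_simp
      rw [this, ee_int]
    rw [geom_sum_eq hz, hzq, sub_self, zero_div, mul_zero]

theorem tMex (h1 : MftStmt) : MexStmt := by
  intro N q b hN hq
  have hq0 : (q : ℝ) ≠ 0 := by positivity
  have e1 : ((cl N q b : ℝ) : ℂ) = ∑ n ∈ Icc (-(N : ℤ)) N, ((tri N n : ℝ) : ℂ) *
      ((1 / (q : ℂ)) * ∑ h ∈ range q, ee ((h : ℝ) * (((n - b : ℤ) : ℝ) / (q : ℝ)))) := by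
    unfold cl
    push_cast
    refine Finset.sum_congr rfl fun n _ => ?_
    have := Mex_ind q hq (n - b)
    push_cast at this
    rw [this]
    split_ifs <;> simp
  rw [e1]
  have e2 : ∀ n ∈ Icc (-(N : ℤ)) N, ((tri N n : ℝ) : ℂ) *
      ((1 / (q : ℂ)) * ∑ h ∈ range q, ee ((h : ℝ) * (((n - b : ℤ) : ℝ) / (q : ℝ)))) =
      ∑ h ∈ range q, (1 / (q : ℂ)) * (ee (-((h : ℝ) * (b : ℝ) / (q : ℝ))) *
        (((tri N n : ℝ) : ℂ) * ee ((n : ℝ) * ((h : ℝ) / (q : ℝ))))) := by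
    intro n _
    rw [Finset.mul_sum, Finset.mul_sum]
    refine Finset.sum_congr rfl fun h _ => ?_
    have : (h : ℝ) * (((n - b : ℤ) : ℝ) / (q : ℝ)) =
        -((h : ℝ) * (b : ℝ) / (q : ℝ)) + (n : ℝ) * ((h : ℝ) / (q : ℝ)) := by
      push_cast
      ring
    rw [this, ee_add]
    ring
  rw [Finset.sum_congr rfl e2, Finset.sum_comm, Finset.mul_sum]
  refine Finset.sum_congr rfl fun h _ => ?_
  rw [← Finset.mul_sum, ← Finset.mul_sum, h1 N ((h : ℝ) / (q : ℝ)) hN]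

end Pool.Agent.Lib.TB
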