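import Pool.Agent.Lib.TB.SpecM

/-! MP_00e23e_nt, Lib/TB: module Mka (the coefficients kap). -/

namespace Pool.Agent.Lib.TB

open Finset Pool.Agent.Lib.EH3

private lemma Mka_mu (n : ℕ) :
    ∑ k ∈ n.divisors, ((ArithmeticFunction.moebius k : ℤ) : ℝ) = if n = 1 then 1 else 0 := by
  have h1 := ArithmeticFunction.coe_mul_zeta_apply (f := ArithmeticFunction.moebius) (x := n)
  rw [ArithmeticFunction.moebius_mul_coe_zeta, ArithmeticFunction.one_apply] at h1
  have h2 : ((∑ k ∈ n.divisors, ArithmeticFunction.moebius k : ℤ) : ℝ) =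
      ((if n = 1 then 1 else 0 : ℤ) : ℝ) := by rw [h1]
  push_cast at h2
  exact h2

private lemma Mka_in {r s : ℕ} (hr : 1 ≤ r) (hs : s ∣ r) :
    ∑ u ∈ r.divisors.filter (fun u => s ∣ u), ((ArithmeticFunction.moebius (r / u) : ℤ) : ℝ) =
      if r = s then 1 else 0 := by
  obtain ⟨n, rfl⟩ := hs
  have hs0 : 0 < s := Nat.pos_of_ne_zero fun h => by
    rw [h] at hr
    omega
  have hn0 : 0 < n := Nat.pos_of_ne_zero fun h => by
    rw [h] at hr
    omega
  have h1 : ∑ u ∈ (s * n).divisors.filter (fun u => s ∣ u),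
      ((ArithmeticFunction.moebius (s * n / u) : ℤ) : ℝ) =
      ∑ k ∈ n.divisors, ((ArithmeticFunction.moebius k : ℤ) : ℝ) := by
    refine Finset.sum_nbij' (fun u => s * n / u) (fun k => s * (n / k)) ?_ ?_ ?_ ?_ ?_
    · intro u hu
      obtain ⟨h1, k, rfl⟩ := Finset.mem_filter.1 hu
      rw [Nat.mul_div_mul_left _ _ hs0, Nat.mem_divisors]
      exact ⟨Nat.div_dvd_of_dvd (Nat.dvd_of_mul_dvd_mul_left hs0 (Nat.mem_divisors.1 h1).1),
        hn0.ne'⟩
    · intro k hk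
      refine Finset.mem_filter.2 ⟨Nat.mem_divisors.2 ⟨?_, by positivity⟩, Dvd.intro _ rfl⟩
      exact Nat.mul_dvd_mul_left s (Nat.div_dvd_of_dvd (Nat.mem_divisors.1 hk).1)
    · intro u hu
      obtain ⟨h1, k, rfl⟩ := Finset.mem_filter.1 hu
      have h2 : k ∣ n := Nat.dvd_of_mul_dvd_mul_left hs0 (Nat.mem_divisors.1 h1).1
      rw [Nat.mul_div_mul_left _ _ hs0, Nat.div_div_self h2 hn0.ne']
    · intro k hk
      have h2 : k ∣ n := (Nat.mem_divisors.1 hk).1
      rw [Nat.mul_div_mul_left _ _ hs0, Nat.div_div_self h2 hn0.ne']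
    · intro u _
      rfl
  rw [h1, Mka_mu]
  have h2 : n = 1 ↔ s * n = s := by
    constructor
    · rintro rfl
      exact mul_one s
    · intro h
      exact Nat.eq_of_mul_eq_mul_left hs0 (by rw [h, mul_one])
  simp only [h2]

private lemma Mka_one (R d : ℕ) (m : ℤ) (hd : 1 ≤ d) :
    dd R d m = ∑ e ∈ d.divisors, kap R d e * (if (e : ℤ) ∣ m then 1 else 0) := by
  have h1 : ∑ r ∈ d.divisors.filter (fun r => r ≤ R), rs r m = ∑ e ∈ d.divisors,
      ∑ r ∈ d.divisors.filter (fun r => r ≤ R ∧ e ∣ r), (if (e : ℤ) ∣ m then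
        (e : ℝ) * ((ArithmeticFunction.moebius (r / e) : ℤ) : ℝ) else 0) := by
    unfold rs
    apply Finset.sum_comm'
    intro r e
    rw [Finset.mem_filter, Finset.mem_filter, Nat.mem_divisors, Nat.mem_divisors,
      Nat.mem_divisors]
    constructor
    · rintro ⟨⟨⟨h1, h2⟩, h3⟩, h4, h5⟩
      exact ⟨⟨⟨h1, h2⟩, h3, h4⟩, h4.trans h1, h2⟩
    · rintro ⟨⟨⟨h1, h2⟩, h3, h4⟩, h5, h6⟩
      exact ⟨⟨⟨h1, h2⟩, h3⟩, h4, fun h => h2 (by rw [h] at h1; exact Nat.eq_zero_of_zero_dvd h1)⟩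
  have h2 : ld R d m = ∑ e ∈ d.divisors, lam R d e * (if (e : ℤ) ∣ m then 1 else 0) := by
    rw [ld, h1, Finset.mul_sum]
    refine Finset.sum_congr rfl fun e _ => ?_
    by_cases hm : (e : ℤ) ∣ m
    · simp only [if_pos hm]
      rw [← Finset.mul_sum, lam]
      ring
    · simp only [if_neg hm]
      simp
  have h3 : (if (d : ℤ) ∣ m then (1 : ℝ) else 0) =
      ∑ e ∈ d.divisors, (if e = d then 1 else 0) * (if (e : ℤ) ∣ m then (1 : ℝ) else 0) := by
    simp only [ite_mul, one_mul, zero_mul]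
    rw [Finset.sum_ite_eq' d.divisors d (fun e => if (e : ℤ) ∣ m then (1 : ℝ) else 0),
      if_pos (Nat.mem_divisors_self d (by omega))]
  rw [dd, h2, h3, ← Finset.sum_sub_distrib]
  refine Finset.sum_congr rfl fun e _ => ?_
  rw [kap]
  ring

private lemma Mka_two (R d s : ℕ) (hd : 1 ≤ d) (hs : s ∣ d) :
    ∑ u ∈ d.divisors.filter (fun u => s ∣ u), kap R d u / (u : ℝ) =
      if R < s then 1 / (d : ℝ) else 0 := by
  have h0 : ∀ u ∈ d.divisors.filter (fun u => s ∣ u), kap R d u / (u : ℝ) =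
      (if u = d then 1 / (d : ℝ) else 0) - (1 / (d : ℝ)) *
        ∑ r ∈ d.divisors.filter (fun r => r ≤ R ∧ u ∣ r),
          ((ArithmeticFunction.moebius (r / u) : ℤ) : ℝ) := by
    intro u hu
    have hu0 : (u : ℝ) ≠ 0 := by
      have h1 := Nat.pos_of_mem_divisors (Finset.mem_filter.1 hu).1
      positivity
    have hd0 : (d : ℝ) ≠ 0 := by positivity
    rw [kap, lam]
    by_cases h : u = d
    · subst h
      rw [if_pos rfl, if_pos rfl]
      field_simp
    · rw [if_neg h, if_neg h]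
      field_simp
      ring
  have h1 : ∑ u ∈ d.divisors.filter (fun u => s ∣ u),
      ∑ r ∈ d.divisors.filter (fun r => r ≤ R ∧ u ∣ r),
        ((ArithmeticFunction.moebius (r / u) : ℤ) : ℝ) =
      ∑ r ∈ d.divisors.filter (fun r => r ≤ R ∧ s ∣ r),
        ∑ u ∈ r.divisors.filter (fun u => s ∣ u),
          ((ArithmeticFunction.moebius (r / u) : ℤ) : ℝ) := by
    apply Finset.sum_comm'
    intro u r
    rw [Finset.mem_filter, Finset.mem_filter, Finset.mem_filter, Finset.mem_filter,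
      Nat.mem_divisors, Nat.mem_divisors, Nat.mem_divisors]
    constructor
    · rintro ⟨⟨⟨h1, h2⟩, h3⟩, ⟨h4, h5⟩, h6, h7⟩
      exact ⟨⟨⟨h7, fun h => h5 (by rw [h] at h4; exact Nat.eq_zero_of_zero_dvd h4)⟩, h3⟩,
        ⟨h4, h5⟩, h6, h3.trans h7⟩
    · rintro ⟨⟨⟨h1, h2⟩, h3⟩, ⟨h4, h5⟩, h6, h7⟩
      exact ⟨⟨⟨h1.trans h4, h5⟩, h3⟩, ⟨h4, h5⟩, h6, h1⟩
  have h2 : ∑ r ∈ d.divisors.filter (fun r => r ≤ R ∧ s ∣ r),
        ∑ u ∈ r.divisors.filter (fun u => s ∣ u),
          ((ArithmeticFunction.moebius (r / u) : ℤ) : ℝ) = if s ≤ R then 1 else 0 := by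
    have h3 : ∀ r ∈ d.divisors.filter (fun r => r ≤ R ∧ s ∣ r),
        ∑ u ∈ r.divisors.filter (fun u => s ∣ u),
          ((ArithmeticFunction.moebius (r / u) : ℤ) : ℝ) = if r = s then 1 else 0 := by
      intro r hr
      obtain ⟨h4, h5, h6⟩ := Finset.mem_filter.1 hr
      exact Mka_in (Nat.pos_of_mem_divisors h4) h6
    rw [Finset.sum_congr rfl h3, Finset.sum_ite_eq']
    by_cases h : s ≤ R
    · rw [if_pos h, if_pos]
      exact Finset.mem_filter.2 ⟨Nat.mem_divisors.2 ⟨hs, by omega⟩, h, dvd_rfl⟩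
    · rw [if_neg h, if_neg]
      intro h'
      exact h (Finset.mem_filter.1 h').2.1
  rw [Finset.sum_congr rfl h0, Finset.sum_sub_distrib, ← Finset.mul_sum, h1, h2,
    Finset.sum_ite_eq', if_pos (Finset.mem_filter.2 ⟨Nat.mem_divisors_self d (by omega), hs⟩)]
  by_cases h : R < s
  · rw [if_pos h, if_neg (by omega)]
    ring
  · rw [if_neg h, if_pos (by omega)]
    ring

private lemma Mka_empty {R d e : ℕ} (h : R < e) :
    lam R d e = 0 := by
  have h1 : d.divisors.filter (fun r => r ≤ R ∧ e ∣ r) = ∅ := by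
    apply Finset.filter_eq_empty_iff.2
    rintro r hr ⟨h2, h3⟩
    have h4 := Nat.le_of_dvd (Nat.pos_of_mem_divisors hr) h3
    omega
  rw [lam, h1, Finset.sum_empty, mul_zero]

theorem tMka : MkaStmt := by
  refine ⟨Mka_one, Mka_two, ?_, ?_, ?_⟩
  · intro R d h
    rw [kap, Mka_empty h, if_pos rfl, sub_zero]
  · intro R d e h he hne
    rw [kap, if_neg hne, zero_sub, abs_neg, lam, abs_mul, abs_of_nonneg (by positivity)]
    refine mul_le_mul_of_nonneg_left ?_ (by positivity)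
    refine (Finset.abs_sum_le_sum_abs _ _).trans ?_
    have h1 : ∀ r ∈ d.divisors.filter (fun r => r ≤ R ∧ e ∣ r),
        |((ArithmeticFunction.moebius (r / e) : ℤ) : ℝ)| ≤ 1 := by
      intro r _
      exact_mod_cast ArithmeticFunction.abs_moebius_le_one (n := r / e)
    refine (Finset.sum_le_sum h1).trans ?_
    rw [Finset.sum_const, nsmul_eq_mul, mul_one]
    exact_mod_cast Finset.card_filter_le _ _
  · intro R d e _ _ hne h
    rw [kap, Mka_empty h, if_neg hne, sub_zero]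

end Pool.Agent.Lib.TB
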