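import Pool.Agent.Lib.TB.SpecM

/-!
MP_00e23e_nt, directory Lib/TB, module Mmi: the main terms.
-/

namespace Pool.Agent.Lib.TB

open Finset Pool.Agent.Lib.EH3

private lemma Mmi_div (d d' u w : ℕ) (hd : 1 ≤ d) (hd' : 1 ≤ d') (hu : u ∈ d.divisors)
    (hw : w ∈ d'.divisors) : (Nat.gcd u w).divisors =
      (Nat.gcd d d').divisors.filter (fun s => s ∣ u ∧ s ∣ w) := by
  have hu' : u ∣ d := Nat.dvd_of_mem_divisors hu
  have hw' : w ∣ d' := Nat.dvd_of_mem_divisors hw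
  have hu0 : 0 < u := Nat.pos_of_mem_divisors hu
  ext s
  rw [Nat.mem_divisors, Finset.mem_filter, Nat.mem_divisors, Nat.dvd_gcd_iff, Nat.dvd_gcd_iff]
  constructor
  · rintro ⟨⟨h1, h2⟩, _⟩
    exact ⟨⟨⟨h1.trans hu', h2.trans hw'⟩, (Nat.gcd_pos_of_pos_left d' hd).ne'⟩, h1, h2⟩
  · rintro ⟨_, h1, h2⟩
    exact ⟨⟨h1, h2⟩, (Nat.gcd_pos_of_pos_left w hu0).ne'⟩

private lemma Mmi_MM (h1 : MrsStmt) (N d d' u w : ℕ) (a b : ℤ) (hd : 1 ≤ d) (hd' : 1 ≤ d')
    (hu : u ∈ d.divisors) (hw : w ∈ d'.divisors) : MM N u w a b =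
      ∑ s ∈ (Nat.gcd d d').divisors, (N : ℝ) * rs s (a - b) *
        ((if s ∣ u then 1 / (u : ℝ) else 0) * (if s ∣ w then 1 / (w : ℝ) else 0)) := by
  have hu0 : 0 < u := Nat.pos_of_mem_divisors hu
  have hg : 1 ≤ Nat.gcd u w := Nat.gcd_pos_of_pos_left w hu0
  have e1 : MM N u w a b = (N : ℝ) / ((u : ℝ) * w) *
      ∑ s ∈ (Nat.gcd u w).divisors, rs s (a - b) := by
    rw [h1 (Nat.gcd u w) (a - b) hg]
    unfold MM
    split_ifs <;> ring
  rw [e1, Mmi_div d d' u w hd hd' hu hw, Finset.sum_filter, Finset.mul_sum]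
  refine Finset.sum_congr rfl fun s _ => ?_
  by_cases hs : s ∣ u
  · by_cases hs' : s ∣ w
    · rw [if_pos ⟨hs, hs'⟩, if_pos hs, if_pos hs']
      ring
    · rw [if_neg (fun h => hs' h.2), if_neg hs']
      ring
  · rw [if_neg (fun h => hs h.1), if_neg hs]
    ring

/-- **Module Mmi: the main terms.** -/
theorem tMmi (h1 : MrsStmt) (h2 : MkaStmt) : MmiStmt := by
  intro N R d d' a b hd hd'
  have e1 : ∀ u ∈ d.divisors, ∀ w ∈ d'.divisors, kap R d u * kap R d' w * MM N u w a b =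
      ∑ s ∈ (Nat.gcd d d').divisors, (N : ℝ) * rs s (a - b) *
        ((if s ∣ u then kap R d u / (u : ℝ) else 0) *
          (if s ∣ w then kap R d' w / (w : ℝ) else 0)) := by
    intro u hu w hw
    rw [Mmi_MM h1 N d d' u w a b hd hd' hu hw, Finset.mul_sum]
    refine Finset.sum_congr rfl fun s _ => ?_
    split_ifs <;> ring
  rw [Finset.sum_congr rfl fun u hu => Finset.sum_congr rfl fun w hw => e1 u hu w hw]
  rw [Finset.sum_congr rfl fun u _ => Finset.sum_comm, Finset.sum_comm, Finset.sum_filter,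
    Finset.mul_sum]
  refine Finset.sum_congr rfl fun s hs => ?_
  have hs1 : s ∣ d := (Nat.dvd_of_mem_divisors hs).trans (Nat.gcd_dvd_left d d')
  have hs2 : s ∣ d' := (Nat.dvd_of_mem_divisors hs).trans (Nat.gcd_dvd_right d d')
  have e2 : ∑ u ∈ d.divisors, ∑ w ∈ d'.divisors, (N : ℝ) * rs s (a - b) *
      ((if s ∣ u then kap R d u / (u : ℝ) else 0) *
        (if s ∣ w then kap R d' w / (w : ℝ) else 0)) =
      (N : ℝ) * rs s (a - b) * ((∑ u ∈ d.divisors, if s ∣ u then kap R d u / (u : ℝ) else 0) *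
        ∑ w ∈ d'.divisors, if s ∣ w then kap R d' w / (w : ℝ) else 0) := by
    rw [Finset.sum_mul_sum, Finset.mul_sum]
    refine Finset.sum_congr rfl fun u _ => ?_
    rw [Finset.mul_sum]
  rw [e2, ← Finset.sum_filter, ← Finset.sum_filter, h2.2.1 R d s hd hs1, h2.2.1 R d' s hd' hs2]
  by_cases hR : R < s
  · rw [if_pos hR, if_pos hR, if_pos hR]
    have hd0 : (d : ℝ) ≠ 0 := by positivity
    have hd0' : (d' : ℝ) ≠ 0 := by positivity
    field_simp
  · rw [if_neg hR, if_neg hR, if_neg hR]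
    simp

end Pool.Agent.Lib.TB
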