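import Pool.Agent.Lib.TB.SpecM

/-!
MP_00e23e_nt, module Mof: small N and conclusion of the off-diagonal estimate.
-/

namespace Pool.Agent.Lib.TB

open Finset Pool.Agent.Lib.EH3

private lemma Mof_tri (N : ℕ) (n : ℤ) : |tri N n| ≤ 1 := by
  unfold tri
  have h0 : 0 ≤ |(n : ℝ)| / (N : ℝ) := div_nonneg (abs_nonneg _) (Nat.cast_nonneg _)
  rw [abs_of_nonneg (le_max_left _ _)]
  exact max_le zero_le_one (by linarith)

private lemma Mof_RR_pos (N : ℕ) (hN : 1 ≤ N) : 1 ≤ RR N := by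
  unfold RR
  apply Nat.le_floor
  rw [Nat.cast_one]
  exact Real.one_le_rpow (by exact_mod_cast hN) (by norm_num)

private lemma Mof_RR_le (N : ℕ) (hN : 1 ≤ N) : (RR N : ℝ) ≤ N := by
  unfold RR
  have h1 : (1 : ℝ) ≤ N := by exact_mod_cast hN
  refine (Nat.floor_le (Real.rpow_nonneg (by linarith) _)).trans ?_
  calc (N : ℝ) ^ ((1 : ℝ) / 2 - 1 / 500) ≤ (N : ℝ) ^ (1 : ℝ) :=
        Real.rpow_le_rpow_of_exponent_le h1 (by norm_num)
    _ = N := Real.rpow_one _

private lemma Mof_FF (h1 : MabStmt) (N Q : ℕ) (c : ℕ → ℝ) (m : ℤ) (hN : 1 ≤ N)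
    (hc : ∀ d, |c d| ≤ 1) (hm : |m| ≤ 2 * (N : ℤ)) :
    |FF (RR N) Q c m| ≤ 2 * (N : ℝ) * (4 + 3 * N) := by
  have hN1 : (1 : ℝ) ≤ N := by exact_mod_cast hN
  unfold FF
  by_cases h0 : m = 0
  · rw [if_pos h0, abs_zero]
    positivity
  · rw [if_neg h0]
    have hR := Mof_RR_pos N hN
    have hR1 : (1 : ℝ) ≤ RR N := by exact_mod_cast hR
    have h2 : |∑ d ∈ Ioc Q (2 * Q), c d * dd (RR N) d m| ≤
        ∑ d ∈ Ioc Q (2 * Q), |dd (RR N) d m| := by
      refine (Finset.abs_sum_le_sum_abs _ _).trans (Finset.sum_le_sum fun d _ => ?_)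
      rw [abs_mul]
      calc |c d| * |dd (RR N) d m| ≤ 1 * |dd (RR N) d m| :=
            mul_le_mul_of_nonneg_right (hc d) (abs_nonneg _)
        _ = |dd (RR N) d m| := one_mul _
    have h3 := h1.1 (RR N) Q m hR h0
    have h4 : (m.natAbs.divisors.card : ℝ) ≤ 2 * N := by
      have h5 : m.natAbs.divisors.card ≤ m.natAbs := Nat.card_divisors_le_self _
      have h6 : m.natAbs ≤ 2 * N := by
        have : (m.natAbs : ℤ) ≤ 2 * (N : ℤ) := by rw [Int.natCast_natAbs]; exact hm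
        exact_mod_cast this
      exact_mod_cast h5.trans h6
    have h7 : Real.log (RR N) ≤ N := by
      have h8 := Real.log_le_sub_one_of_pos (show (0 : ℝ) < RR N by linarith)
      have h9 := Mof_RR_le N hN
      linarith
    have h10 : 0 ≤ Real.log (RR N) := Real.log_nonneg hR1
    refine (h2.trans h3).trans ?_
    exact mul_le_mul h4 (by linarith) (by linarith) (by linarith)

theorem tMof (h1 : MabStmt) (h2 : MbgStmt) : OffStmt := by
  obtain ⟨C, η, N0, hη, hB⟩ := h2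
  set B : ℝ := 2 * (N0 : ℝ) * (4 + 3 * N0) with hBdef
  set C1 : ℝ := (2 * (N0 : ℝ) + 1) * (B * B) with hC1
  refine ⟨max (max C 0) C1, min η 1, lt_min hη one_pos, ?_⟩
  intro N Q c c' a b hN hQ1 hQ2 hc hc' hab ha hb
  have hN1 : (1 : ℝ) ≤ N := by exact_mod_cast hN
  have hC0 : 0 ≤ max (max C 0) C1 := (le_max_right C 0).trans (le_max_left _ _)
  by_cases hcase : N0 ≤ N
  · have h3 := hB N Q c c' a b hcase hN hQ1 hQ2 hc hc' hab ha hb
    refine h3.trans ?_
    have h4 : (N : ℝ) ^ (1 - η) ≤ (N : ℝ) ^ (1 - min η 1) :=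
      Real.rpow_le_rpow_of_exponent_le hN1 (by linarith [min_le_left η 1])
    have h5 : 0 ≤ (N : ℝ) ^ (1 - η) := Real.rpow_nonneg (by linarith) _
    calc C * (N : ℝ) ^ (1 - η) ≤ max (max C 0) C1 * (N : ℝ) ^ (1 - η) :=
          mul_le_mul_of_nonneg_right ((le_max_left C 0).trans (le_max_left _ _)) h5
      _ ≤ max (max C 0) C1 * (N : ℝ) ^ (1 - min η 1) := mul_le_mul_of_nonneg_left h4 hC0
  · push Not at hcase
    have hNN0 : (N : ℝ) ≤ N0 := by exact_mod_cast hcase.le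
    have hN00 : (0 : ℝ) ≤ N0 := Nat.cast_nonneg _
    have hFB : ∀ (c : ℕ → ℝ) (m : ℤ), (∀ d, |c d| ≤ 1) → |m| ≤ 2 * (N : ℤ) →
        |FF (RR N) Q c m| ≤ B := by
      intro c m hc hm
      refine (Mof_FF h1 N Q c m hN hc hm).trans ?_
      rw [hBdef]
      exact mul_le_mul (by linarith) (by linarith) (by linarith) (by linarith)
    have hB0 : 0 ≤ B := by rw [hBdef]; positivity
    have hsum : |∑ n ∈ Icc (-(N : ℤ)) N, tri N n * (FF (RR N) Q c (n - a) *
        FF (RR N) Q c' (n - b))| ≤ ∑ n ∈ Icc (-(N : ℤ)) (N : ℤ), B * B := by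
      refine (Finset.abs_sum_le_sum_abs _ _).trans (Finset.sum_le_sum fun n hn => ?_)
      obtain ⟨hn1, hn2⟩ := Finset.mem_Icc.1 hn
      rw [abs_mul, abs_mul]
      have hn3 : |n| ≤ (N : ℤ) := abs_le.2 ⟨hn1, hn2⟩
      have h6 : |FF (RR N) Q c (n - a)| ≤ B := by
        apply hFB c _ hc
        have := abs_sub n a
        omega
      have h7 : |FF (RR N) Q c' (n - b)| ≤ B := by
        apply hFB c' _ hc'
        have := abs_sub n b
        omega
      calc |tri N n| * (|FF (RR N) Q c (n - a)| * |FF (RR N) Q c' (n - b)|) ≤ 1 * (B * B) :=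
            mul_le_mul (Mof_tri N n) (mul_le_mul h6 h7 (abs_nonneg _) hB0)
              (mul_nonneg (abs_nonneg _) (abs_nonneg _)) zero_le_one
        _ = B * B := one_mul _
    have hcard : ∑ n ∈ Icc (-(N : ℤ)) (N : ℤ), B * B = (2 * (N : ℝ) + 1) * (B * B) := by
      rw [Finset.sum_const, Int.card_Icc, nsmul_eq_mul]
      congr 1
      have : ((N : ℤ) + 1 - -(N : ℤ)).toNat = 2 * N + 1 := by omega
      rw [this]
      push_cast
      ring
    rw [hcard] at hsum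
    have h8 : (2 * (N : ℝ) + 1) * (B * B) ≤ C1 := by
      rw [hC1]
      exact mul_le_mul_of_nonneg_right (by linarith) (mul_nonneg hB0 hB0)
    have h9 : (1 : ℝ) ≤ (N : ℝ) ^ (1 - min η 1) :=
      Real.one_le_rpow hN1 (by linarith [min_le_right η 1])
    calc _ ≤ C1 := hsum.trans h8
      _ ≤ max (max C 0) C1 := le_max_right _ _
      _ = max (max C 0) C1 * 1 := (mul_one _).symm
      _ ≤ max (max C 0) C1 * (N : ℝ) ^ (1 - min η 1) := mul_le_mul_of_nonneg_left h9 hC0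

end Pool.Agent.Lib.TB
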