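import Pool.Agent.Lib.TB.SpecM

/-! MP_00e23e_nt, Lib/TB: module Mrs (sum of Ramanujan sums). -/

namespace Pool.Agent.Lib.TB

open Finset Pool.Agent.Lib.EH3

private lemma Mrs_mu (n : ℕ) :
    ∑ k ∈ n.divisors, ((ArithmeticFunction.moebius k : ℤ) : ℝ) = if n = 1 then 1 else 0 := by
  have h1 := ArithmeticFunction.coe_mul_zeta_apply (f := ArithmeticFunction.moebius) (x := n)
  rw [ArithmeticFunction.moebius_mul_coe_zeta, ArithmeticFunction.one_apply] at h1
  have h2 : ((∑ k ∈ n.divisors, ArithmeticFunction.moebius k : ℤ) : ℝ) =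
      ((if n = 1 then 1 else 0 : ℤ) : ℝ) := by rw [h1]
  push_cast at h2
  exact h2

private lemma Mrs_in {g e : ℕ} (hg : 1 ≤ g) (he : e ∣ g) :
    ∑ s ∈ g.divisors.filter (fun s => e ∣ s), ((ArithmeticFunction.moebius (s / e) : ℤ) : ℝ) =
      if g = e then 1 else 0 := by
  obtain ⟨n, rfl⟩ := he
  have he0 : 0 < e := Nat.pos_of_ne_zero fun h => by
    rw [h] at hg
    omega
  have hn0 : 0 < n := Nat.pos_of_ne_zero fun h => by
    rw [h] at hg
    omega
  have h1 : ∑ s ∈ (e * n).divisors.filter (fun s => e ∣ s),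
      ((ArithmeticFunction.moebius (s / e) : ℤ) : ℝ) =
      ∑ k ∈ n.divisors, ((ArithmeticFunction.moebius k : ℤ) : ℝ) := by
    refine Finset.sum_nbij' (fun s => s / e) (fun k => e * k) ?_ ?_ ?_ ?_ ?_
    · intro s hs
      obtain ⟨h1, k, rfl⟩ := Finset.mem_filter.1 hs
      rw [Nat.mul_div_cancel_left k he0, Nat.mem_divisors]
      exact ⟨Nat.dvd_of_mul_dvd_mul_left he0 (Nat.mem_divisors.1 h1).1, hn0.ne'⟩
    · intro k hk
      refine Finset.mem_filter.2 ⟨Nat.mem_divisors.2 ⟨?_, by positivity⟩, Dvd.intro k rfl⟩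
      exact Nat.mul_dvd_mul_left e (Nat.mem_divisors.1 hk).1
    · intro s hs
      exact Nat.mul_div_cancel' (Finset.mem_filter.1 hs).2
    · intro k _
      exact Nat.mul_div_cancel_left k he0
    · intro s _
      rfl
  rw [h1, Mrs_mu]
  have h2 : n = 1 ↔ e * n = e := by
    constructor
    · rintro rfl
      exact mul_one e
    · intro h
      exact Nat.eq_of_mul_eq_mul_left he0 (by rw [h, mul_one])
  simp only [h2]

theorem tMrs : MrsStmt := by
  intro g m hg
  have h1 : ∑ s ∈ g.divisors, rs s m = ∑ e ∈ g.divisors,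
      ∑ s ∈ g.divisors.filter (fun s => e ∣ s), (if (e : ℤ) ∣ m then
        (e : ℝ) * ((ArithmeticFunction.moebius (s / e) : ℤ) : ℝ) else 0) := by
    unfold rs
    apply Finset.sum_comm'
    intro s e
    rw [Finset.mem_filter, Nat.mem_divisors, Nat.mem_divisors, Nat.mem_divisors]
    constructor
    · rintro ⟨⟨h1, h2⟩, h3, h4⟩
      exact ⟨⟨⟨h1, h2⟩, h3⟩, h3.trans h1, h2⟩
    · rintro ⟨⟨⟨h1, h2⟩, h3⟩, h4, h5⟩
      exact ⟨⟨h1, h2⟩, h3, fun h => h2 (by rw [h] at h1; exact Nat.eq_zero_of_zero_dvd h1)⟩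
  rw [h1]
  have h2 : ∀ e ∈ g.divisors, ∑ s ∈ g.divisors.filter (fun s => e ∣ s), (if (e : ℤ) ∣ m then
        (e : ℝ) * ((ArithmeticFunction.moebius (s / e) : ℤ) : ℝ) else 0) =
      if g = e then (if (e : ℤ) ∣ m then (e : ℝ) else 0) else 0 := by
    intro e he
    by_cases hm : (e : ℤ) ∣ m
    · simp only [if_pos hm]
      rw [← Finset.mul_sum, Mrs_in hg (Nat.mem_divisors.1 he).1]
      split_ifs <;> simp
    · simp only [if_neg hm]
      simp
  rw [Finset.sum_congr rfl h2, Finset.sum_ite_eq, if_pos (Nat.mem_divisors_self g (by omega))]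

end Pool.Agent.Lib.TB
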