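import Pool.Agent.Lib.TB.SpecM

/-!
MP_00e23e_nt, directory Lib/TB, module Msb: trivial bounds of the error term of a pair of congruences.
-/

namespace Pool.Agent.Lib.TB

open Finset Pool.Agent.Lib.EH3

private lemma Msb_tri (N : ℕ) (n : ℤ) : 0 ≤ tri N n ∧ tri N n ≤ 1 := by
  unfold tri
  refine ⟨le_max_left _ _, max_le zero_le_one ?_⟩
  have : 0 ≤ |(n : ℝ)| / (N : ℝ) := by positivity
  linarith

private lemma Msb_cl_nonneg (N q : ℕ) (ν : ℤ) : 0 ≤ cl N q ν := by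
  unfold cl
  refine Finset.sum_nonneg fun n _ => mul_nonneg (Msb_tri N n).1 ?_
  split_ifs <;> norm_num

private lemma Msb_count (N q : ℕ) (ν : ℤ) (hq : 1 ≤ q) :
    (((Icc (-(N : ℤ)) N).filter (fun n => (q : ℤ) ∣ n - ν)).card : ℝ) ≤ (2 * (N : ℝ) + 1) / q + 1 := by
  have hq0 : (0 : ℤ) < (q : ℤ) := by exact_mod_cast hq
  have hsub : (Icc (-(N : ℤ)) N).filter (fun n => (q : ℤ) ∣ n - ν) ⊆
      (Ioc (-(N : ℤ) - 1) N).filter (fun n => n ≡ ν [ZMOD (q : ℤ)]) := by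
    intro n hn
    rw [mem_filter, mem_Icc] at hn
    rw [mem_filter, mem_Ioc]
    refine ⟨⟨by omega, hn.1.2⟩, ?_⟩
    exact (Int.modEq_iff_dvd.2 (by
      have h := hn.2
      rwa [← dvd_neg, neg_sub] at h))
  have h1 := Finset.card_le_card hsub
  have h2 := Int.Ioc_filter_modEq_card (-(N : ℤ) - 1) (N : ℤ) hq0 ν
  have h3 : (((Ioc (-(N : ℤ) - 1) (N : ℤ)).filter (fun n => n ≡ ν [ZMOD (q : ℤ)])).card : ℤ) ≤
      max (⌊(((N : ℤ) : ℚ) - ν) / (q : ℤ)⌋ - ⌊((((-(N : ℤ) - 1 : ℤ)) : ℚ) - ν) / (q : ℤ)⌋) 0 := by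
    rw [h2]
  have hqQ : (0 : ℚ) < (q : ℚ) := by exact_mod_cast hq
  have h4 : (((Ioc (-(N : ℤ) - 1) (N : ℤ)).filter (fun n => n ≡ ν [ZMOD (q : ℤ)])).card : ℚ) ≤
      (2 * (N : ℚ) + 1) / q + 1 := by
    have h5 : (((Ioc (-(N : ℤ) - 1) (N : ℤ)).filter (fun n => n ≡ ν [ZMOD (q : ℤ)])).card : ℚ) ≤
        ((max (⌊(((N : ℤ) : ℚ) - ν) / (q : ℤ)⌋ - ⌊((((-(N : ℤ) - 1 : ℤ)) : ℚ) - ν) / (q : ℤ)⌋) 0 : ℤ) : ℚ) := by
      exact_mod_cast h3
    refine h5.trans ?_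
    rw [Int.cast_max]
    refine max_le ?_ ?_
    · rw [Int.cast_sub]
      have a1 := Int.floor_le ((((N : ℤ) : ℚ) - ν) / (q : ℤ))
      have a2 := Int.lt_floor_add_one (((((-(N : ℤ) - 1 : ℤ)) : ℚ) - ν) / (q : ℤ))
      have a3 : (((N : ℤ) : ℚ) - ν) / (q : ℤ) - ((((-(N : ℤ) - 1 : ℤ)) : ℚ) - ν) / (q : ℤ) =
          (2 * (N : ℚ) + 1) / q := by
        push_cast
        field_simp
        ring
      linarith
    · rw [Int.cast_zero]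
      positivity
  have h6 : (((Icc (-(N : ℤ)) N).filter (fun n => (q : ℤ) ∣ n - ν)).card : ℚ) ≤
      (2 * (N : ℚ) + 1) / q + 1 := le_trans (by exact_mod_cast h1) h4
  have h7 : ((((Icc (-(N : ℤ)) N).filter (fun n => (q : ℤ) ∣ n - ν)).card : ℚ) : ℝ) ≤
      (((2 * (N : ℚ) + 1) / q + 1 : ℚ) : ℝ) := by exact_mod_cast h6
  simpa using h7

private lemma Msb_cl_le (N q : ℕ) (ν : ℤ) (hq : 1 ≤ q) : cl N q ν ≤ (2 * (N : ℝ) + 1) / q + 1 := by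
  refine le_trans ?_ (Msb_count N q ν hq)
  unfold cl
  rw [← Finset.sum_boole]
  refine Finset.sum_le_sum fun n _ => ?_
  have h := Msb_tri N n
  split_ifs
  · simpa using h.2
  · simp

/-- trivial bounds of the error term of a pair of congruences -/
theorem tMsb (h1 : SsclStmt) (h2 : SszeStmt) (h3 : McbStmt) : SsbdStmt := by
  intro N u w a b hN hu hw
  have hN0 : (0 : ℝ) < N := by exact_mod_cast hN
  have hN1 : (1 : ℝ) ≤ N := by exact_mod_cast hN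
  have hl : 1 ≤ Nat.lcm u w := Nat.lcm_pos hu hw
  have hl0 : (0 : ℝ) < (Nat.lcm u w : ℝ) := by exact_mod_cast hl
  by_cases hg : ((Nat.gcd u w : ℕ) : ℤ) ∣ a - b
  · have hg' : ((Int.gcd (u : ℤ) (w : ℤ) : ℕ) : ℤ) ∣ a - b := by
      rwa [Int.gcd_natCast_natCast]
    obtain ⟨x, y, hxy⟩ : ∃ x y : ℤ, a - b = (u : ℤ) * x + (w : ℤ) * y := by
      obtain ⟨k, hk⟩ := hg'
      refine ⟨Int.gcdA u w * k, Int.gcdB u w * k, ?_⟩
      rw [hk, Int.gcd_eq_gcd_ab]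
      ring
    obtain ⟨hS, hM⟩ := h1 N u w a b (a - u * x) hu hw ⟨-x, by ring⟩ ⟨y, by linarith⟩
    rw [hS, hM]
    refine ⟨h3 N _ _ hN hl, ?_⟩
    have c1 := Msb_cl_nonneg N (Nat.lcm u w) (a - u * x)
    have c2 := Msb_cl_le N (Nat.lcm u w) (a - u * x) hl
    have c3 : (0 : ℝ) ≤ (N : ℝ) / (Nat.lcm u w : ℝ) := by positivity
    have c4 : (2 * (N : ℝ) + 1) / (Nat.lcm u w : ℝ) ≤ 4 * (N : ℝ) / (Nat.lcm u w : ℝ) := by
      apply div_le_div_of_nonneg_right _ hl0.le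
      linarith
    have c5 : (N : ℝ) / (Nat.lcm u w : ℝ) ≤ 4 * (N : ℝ) / (Nat.lcm u w : ℝ) := by
      apply div_le_div_of_nonneg_right _ hl0.le
      linarith
    rw [abs_le]
    constructor <;> linarith
  · obtain ⟨hS, hM⟩ := h2 N u w a b hg
    rw [hS, hM, sub_zero, abs_zero]
    constructor <;> positivity

end Pool.Agent.Lib.TB
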