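import Pool.Agent.Lib.TB.SpecM

/-!
MP_00e23e_nt, directory Lib/TB, module Msm: sums of the kernel.
-/

namespace Pool.Agent.Lib.TB

open Finset Pool.Agent.Lib.EH3

private lemma Msm_pt {N q h : ℕ} (h0 : 1 ≤ h) (h1 : h < q) :
    ‖GG N ((h : ℝ) / (q : ℝ))‖ ^ 2 ≤
      (q : ℝ) ^ 2 / 4 * (1 / (h : ℝ) ^ 2 + 1 / ((q - h : ℕ) : ℝ) ^ 2) := by
  have hq : (0 : ℝ) < q := by exact_mod_cast (by omega : 0 < q)
  have hh : (0 : ℝ) < h := by exact_mod_cast (by omega : 0 < h)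
  have hhq : (h : ℝ) < q := by exact_mod_cast h1
  have hs : ((q - h : ℕ) : ℝ) = (q : ℝ) - h := by
    rw [Nat.cast_sub h1.le]
  rw [hs]
  have hqh : (0 : ℝ) < (q : ℝ) - h := by linarith
  set t : ℝ := (h : ℝ) / q with ht
  have ht0 : 0 < t := div_pos hh hq
  have ht1 : t < 1 := (div_lt_one hq).2 hhq
  have hfr : Int.fract t = t := Int.fract_eq_self.2 ⟨ht0.le, ht1⟩
  have h2 : |t - round t| = min t (1 - t) := by
    rw [abs_sub_round_eq_min, hfr]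
  have h3 : 0 < |t - round t| := by
    rw [h2]
    exact lt_min ht0 (by linarith)
  have h4 := norm_GG_sq_le (N := N) (abs_pos.1 h3)
  have h5 : (t - round t) ^ 2 = (min t (1 - t)) ^ 2 := by rw [← h2, sq_abs]
  rw [h5] at h4
  refine h4.trans ?_
  have ha : (q : ℝ) ^ 2 / 4 * (1 / (h : ℝ) ^ 2) = 1 / (4 * t ^ 2) := by
    rw [ht]; field_simp
  have hb : (q : ℝ) ^ 2 / 4 * (1 / ((q : ℝ) - h) ^ 2) = 1 / (4 * (1 - t) ^ 2) := by
    have : 1 - t = ((q : ℝ) - h) / q := by rw [ht]; field_simp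
    rw [this]; field_simp
  rw [mul_add, ha, hb]
  have hp1 : 0 ≤ 1 / (4 * t ^ 2) := by positivity
  have hp2 : 0 ≤ 1 / (4 * (1 - t) ^ 2) := by positivity
  rcases min_choice t (1 - t) with h6 | h6
  · rw [h6]; linarith
  · rw [h6]; linarith

private lemma Msm_tel {H : ℕ} (hH : 1 ≤ H) (n : ℕ) :
    ∑ h ∈ Ico (H + 1) (H + 1 + n), 1 / (h : ℝ) ^ 2 ≤ 1 / (H : ℝ) - 1 / ((H : ℝ) + n) := by
  have hH' : (0 : ℝ) < H := by exact_mod_cast hH
  induction n with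
  | zero => simp
  | succ n ih =>
    rw [← add_assoc, sum_Ico_succ_top (by omega)]
    push_cast
    have h1 : (0 : ℝ) < (H : ℝ) + n := by positivity
    have h3 : 1 / ((H : ℝ) + 1 + n) ^ 2 ≤ 1 / ((H : ℝ) + n) - 1 / ((H : ℝ) + (n + 1)) := by
      have h4 : 1 / ((H : ℝ) + n) - 1 / ((H : ℝ) + (n + 1)) =
          1 / (((H : ℝ) + n) * ((H : ℝ) + (n + 1))) := by
        field_simp; ring
      rw [h4]
      apply one_div_le_one_div_of_le (by positivity)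
      nlinarith
    linarith

private lemma Msm_tail {H m : ℕ} (hH : 1 ≤ H) :
    ∑ h ∈ Ioo H m, 1 / (h : ℝ) ^ 2 ≤ 1 / (H : ℝ) := by
  have hH' : (0 : ℝ) < H := by exact_mod_cast hH
  have h1 : ∑ h ∈ Ioo H m, 1 / (h : ℝ) ^ 2 ≤ ∑ h ∈ Ico (H + 1) (H + 1 + m), 1 / (h : ℝ) ^ 2 := by
    apply sum_le_sum_of_subset_of_nonneg
    · intro h hh
      rw [mem_Ioo] at hh
      rw [mem_Ico]
      omega
    · intro h _ _
      positivity
  have h2 := Msm_tel hH m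
  have h3 : (0 : ℝ) ≤ 1 / ((H : ℝ) + m) := by positivity
  linarith

private lemma Msm_refl (g : ℕ → ℝ) {q a b : ℕ} (hab : ∀ h ∈ Ico a b, h < q ∧ q - h ∈ Ico a b) :
    ∑ h ∈ Ico a b, g (q - h) = ∑ h ∈ Ico a b, g h := by
  refine sum_nbij' (fun h => q - h) (fun h => q - h) (fun h hh => (hab h hh).2)
    (fun h hh => (hab h hh).2) ?_ ?_ ?_
  · intro h hh
    have := (hab h hh).1
    omega
  · intro h hh
    have := (hab h hh).1
    omega
  · intro h _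
    rfl

theorem tMsm : MsmStmt := by
  intro N q _ hq
  have hq' : (0 : ℝ) < q := by exact_mod_cast hq
  constructor
  · intro H hH h2H
    have hH' : (0 : ℝ) < H := by exact_mod_cast hH
    have hI : Ioo H (q - H) = Ico (H + 1) (q - H) := by
      ext h
      rw [mem_Ioo, mem_Ico]
      omega
    have h1 : ∑ h ∈ Ioo H (q - H), ‖GG N ((h : ℝ) / (q : ℝ))‖ ^ 2 ≤
        ∑ h ∈ Ioo H (q - H), (q : ℝ) ^ 2 / 4 *
          (1 / (h : ℝ) ^ 2 + 1 / ((q - h : ℕ) : ℝ) ^ 2) := by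
      refine sum_le_sum fun h hh => Msm_pt ?_ ?_
      · rw [mem_Ioo] at hh; omega
      · rw [mem_Ioo] at hh; omega
    refine h1.trans ?_
    rw [← mul_sum, sum_add_distrib]
    have h3 := Msm_tail (m := q - H) hH
    have h4 : ∑ h ∈ Ioo H (q - H), 1 / ((q - h : ℕ) : ℝ) ^ 2 =
        ∑ h ∈ Ioo H (q - H), 1 / (h : ℝ) ^ 2 := by
      rw [hI]
      refine Msm_refl (fun k => 1 / (k : ℝ) ^ 2) ?_
      intro h hh
      rw [mem_Ico] at hh
      rw [mem_Ico]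
      omega
    rw [h4]
    calc (q : ℝ) ^ 2 / 4 * (∑ h ∈ Ioo H (q - H), 1 / (h : ℝ) ^ 2 +
          ∑ h ∈ Ioo H (q - H), 1 / (h : ℝ) ^ 2)
        ≤ (q : ℝ) ^ 2 / 4 * (1 / (H : ℝ) + 1 / (H : ℝ)) :=
          mul_le_mul_of_nonneg_left (by linarith) (by positivity)
      _ = (q : ℝ) ^ 2 / (2 * (H : ℝ)) := by field_simp; ring
  · have h1 : ∑ h ∈ Ico 1 q, ‖GG N ((h : ℝ) / (q : ℝ))‖ ^ 2 ≤
        ∑ h ∈ Ico 1 q, (q : ℝ) ^ 2 / 4 *
          (1 / (h : ℝ) ^ 2 + 1 / ((q - h : ℕ) : ℝ) ^ 2) := by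
      refine sum_le_sum fun h hh => Msm_pt ?_ ?_
      · rw [mem_Ico] at hh; omega
      · rw [mem_Ico] at hh; omega
    refine h1.trans ?_
    rw [← mul_sum, sum_add_distrib]
    have h3 : ∑ h ∈ Ico 1 q, 1 / (h : ℝ) ^ 2 ≤ 2 := by
      refine le_trans ?_ (sum_sq_inv_nat q)
      apply sum_le_sum_of_subset_of_nonneg
      · intro h hh
        rw [mem_Ico] at hh
        rw [mem_Icc]
        omega
      · intro h _ _
        positivity
    have h4 : ∑ h ∈ Ico 1 q, 1 / ((q - h : ℕ) : ℝ) ^ 2 = ∑ h ∈ Ico 1 q, 1 / (h : ℝ) ^ 2 := by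
      refine Msm_refl (fun k => 1 / (k : ℝ) ^ 2) ?_
      intro h hh
      rw [mem_Ico] at hh
      rw [mem_Ico]
      omega
    rw [h4]
    calc (q : ℝ) ^ 2 / 4 * (∑ h ∈ Ico 1 q, 1 / (h : ℝ) ^ 2 + ∑ h ∈ Ico 1 q, 1 / (h : ℝ) ^ 2)
        ≤ (q : ℝ) ^ 2 / 4 * (2 + 2) :=
          mul_le_mul_of_nonneg_left (by linarith) (by positivity)
      _ = (q : ℝ) ^ 2 := by ring

end Pool.Agent.Lib.TB
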