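import Pool.Agent.Lib.TB.SpecM
import Pool.Agent.Lib.MP_640417_ag.All.Divisor

/-!
MP_00e23e_nt, directory Lib/TB, module Mta: the divisor bound.
-/

namespace Pool.Agent.Lib.TB

open Finset Pool.Agent.Lib.EH3

/-- the divisor bound tau(n) <= C n^ε -/
theorem tMta : TauMStmt := by
  intro ε hε
  obtain ⟨C, hC, h⟩ := Pool.Agent.Lib.MP_640417_ag.All.divisor_bound ε hε
  exact ⟨C, hC, fun n hn => h n hn⟩

end Pool.Agent.Lib.TB
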