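import Pool.Agent.Lib.TB.SpecM

/-!
MP_00e23e_nt, directory Lib/TB: the truncated Fourier expansion
-/

namespace Pool.Agent.Lib.TB

open Finset Pool.Agent.Lib.EH3

/-- the term of the Fourier expansion -/
private noncomputable def Mtr_F (N q : ℕ) (b : ℤ) (h : ℕ) : ℂ :=
  ee (-((h : ℝ) * (b : ℝ) / (q : ℝ))) *
    (((1 / (N : ℝ)) * ‖GG N ((h : ℝ) / (q : ℝ))‖ ^ 2 : ℝ) : ℂ)

private lemma Mtr_zero (N q : ℕ) (b : ℤ) (hN : 1 ≤ N) : Mtr_F N q b 0 = (N : ℂ) := by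
  have h1 : GG N (((0 : ℕ) : ℝ) / (q : ℝ)) = (N : ℂ) := by
    unfold GG
    have : ∀ k ∈ range N, ee ((k : ℝ) * (((0 : ℕ) : ℝ) / (q : ℝ))) = 1 := by
      intro k _
      rw [Nat.cast_zero, zero_div, mul_zero, ee_zero]
    rw [Finset.sum_congr rfl this]
    simp
  have h2 : (N : ℝ) ≠ 0 := by
    have : 0 < N := by omega
    positivity
  unfold Mtr_F
  rw [h1, Nat.cast_zero, zero_mul, zero_div, neg_zero, ee_zero, one_mul, Complex.norm_natCast]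
  have : (1 / (N : ℝ)) * (N : ℝ) ^ 2 = N := by field_simp
  rw [this]
  simp

private lemma Mtr_pos (h1 : MftStmt) (N q : ℕ) (b : ℤ) (hN : 1 ≤ N) (h : ℕ) :
    Mtr_F N q b h = ∑ t ∈ Icc (-(N : ℤ)) N, ((tri N t : ℝ) : ℂ) *
      ee ((h : ℝ) * ((t : ℝ) - (b : ℝ)) / (q : ℝ)) := by
  unfold Mtr_F
  rw [← h1 N _ hN, Finset.mul_sum]
  refine Finset.sum_congr rfl fun t _ => ?_
  have e : (h : ℝ) * ((t : ℝ) - (b : ℝ)) / (q : ℝ) =
      -((h : ℝ) * (b : ℝ) / (q : ℝ)) + (t : ℝ) * ((h : ℝ) / (q : ℝ)) := by ring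
  rw [e, ee_add]
  ring

private lemma Mtr_neg (h1 : MftStmt) (N q : ℕ) (b : ℤ) (hN : 1 ≤ N) (hq : 1 ≤ q) (h : ℕ)
    (hh : h ≤ q) :
    Mtr_F N q b (q - h) = ∑ t ∈ Icc (-(N : ℤ)) N, ((tri N t : ℝ) : ℂ) *
      ee (-((h : ℝ) * ((t : ℝ) - (b : ℝ)) / (q : ℝ))) := by
  rw [Mtr_pos h1 N q b hN]
  refine Finset.sum_congr rfl fun t _ => ?_
  have hq' : (q : ℝ) ≠ 0 := by
    have : 0 < q := by omega
    positivity
  have e : ((q - h : ℕ) : ℝ) * ((t : ℝ) - (b : ℝ)) / (q : ℝ) =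
      -((h : ℝ) * ((t : ℝ) - (b : ℝ)) / (q : ℝ)) + ((t - b : ℤ) : ℝ) := by
    rw [Nat.cast_sub hh]
    push_cast
    field_simp
    ring
  rw [e, ee_add, ee_int, mul_one]

theorem tMtr (h1 : MftStmt) (h2 : MexStmt) (h3 : MsmStmt) : TruncStmt := by
  intro N q H b hN hq hH hHq
  have hq0 : (0 : ℝ) < q := by
    have : 0 < q := by omega
    exact_mod_cast this
  have hN0 : (0 : ℝ) < N := by
    have : 0 < N := by omega
    exact_mod_cast this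
  have hH0 : (0 : ℝ) < H := by
    have : 0 < H := by omega
    exact_mod_cast this
  have hex : ((cl N q b : ℝ) : ℂ) = (1 / (q : ℂ)) * ∑ h ∈ range q, Mtr_F N q b h := h2 N q b hN hq
  -- the splitting
  have hsplit : ∑ h ∈ range q, Mtr_F N q b h = (N : ℂ) + (∑ h ∈ Icc 1 H,
      ∑ t ∈ Icc (-(N : ℤ)) N, ((tri N t : ℝ) : ℂ) *
        (ee ((h : ℝ) * ((t : ℝ) - (b : ℝ)) / (q : ℝ)) +
          ee (-((h : ℝ) * ((t : ℝ) - (b : ℝ)) / (q : ℝ))))) +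
      ∑ h ∈ Ioo H (q - H), Mtr_F N q b h := by
    rw [Finset.range_eq_Ico, ← Finset.sum_Ico_consecutive _ (Nat.zero_le 1) (by omega : 1 ≤ q),
      ← Finset.sum_Ico_consecutive _ (by omega : 1 ≤ H + 1) (by omega : H + 1 ≤ q),
      ← Finset.sum_Ico_consecutive _ (by omega : H + 1 ≤ q - H) (by omega : q - H ≤ q)]
    have e0 : ∑ i ∈ Ico 0 1, Mtr_F N q b i = (N : ℂ) := by
      rw [Finset.sum_Ico_eq_sum_range]
      simp [Mtr_zero N q b hN]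
    have e1 : Ico 1 (H + 1) = Icc 1 H := by
      ext x
      simp only [mem_Ico, mem_Icc]
      omega
    have e2 : Ico (H + 1) (q - H) = Ioo H (q - H) := by
      ext x
      simp only [mem_Ico, mem_Ioo]
      omega
    have e3 : ∑ i ∈ Ico (q - H) q, Mtr_F N q b i = ∑ h ∈ Icc 1 H, Mtr_F N q b (q - h) := by
      symm
      refine Finset.sum_nbij' (fun h => q - h) (fun i => q - i) ?_ ?_ ?_ ?_ ?_
      · intro h hh
        rw [mem_Icc] at hh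
        rw [mem_Ico]
        omega
      · intro i hi
        rw [mem_Ico] at hi
        rw [mem_Icc]
        omega
      · intro h hh
        rw [mem_Icc] at hh
        omega
      · intro i hi
        rw [mem_Ico] at hi
        omega
      · intro h _
        rfl
    rw [e0, e1, e2, e3]
    have e4 : ∑ h ∈ Icc 1 H, ∑ t ∈ Icc (-(N : ℤ)) N, ((tri N t : ℝ) : ℂ) *
        (ee ((h : ℝ) * ((t : ℝ) - (b : ℝ)) / (q : ℝ)) +
          ee (-((h : ℝ) * ((t : ℝ) - (b : ℝ)) / (q : ℝ)))) =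
        ∑ h ∈ Icc 1 H, Mtr_F N q b h + ∑ h ∈ Icc 1 H, Mtr_F N q b (q - h) := by
      rw [← Finset.sum_add_distrib]
      refine Finset.sum_congr rfl fun h hh => ?_
      rw [mem_Icc] at hh
      rw [Mtr_pos h1 N q b hN h, Mtr_neg h1 N q b hN hq h (by omega), ← Finset.sum_add_distrib]
      exact Finset.sum_congr rfl fun t _ => by ring
    rw [e4]
    ring
  -- the middle part
  have hmid : ‖∑ h ∈ Ioo H (q - H), Mtr_F N q b h‖ ≤ (1 / (N : ℝ)) * ((q : ℝ) ^ 2 / (2 * (H : ℝ))) := by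
    refine (norm_sum_le _ _).trans ?_
    have e : ∀ h ∈ Ioo H (q - H), ‖Mtr_F N q b h‖ =
        (1 / (N : ℝ)) * ‖GG N ((h : ℝ) / (q : ℝ))‖ ^ 2 := by
      intro h _
      unfold Mtr_F
      rw [norm_mul, norm_ee, one_mul, Complex.norm_real, Real.norm_of_nonneg (by positivity)]
    rw [Finset.sum_congr rfl e, ← Finset.mul_sum]
    exact mul_le_mul_of_nonneg_left ((h3 N q hN hq).1 H hH hHq) (by positivity)
  rw [hex, hsplit]
  have e5 : (1 / (q : ℂ)) * ((N : ℂ) + (∑ h ∈ Icc 1 H,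
      ∑ t ∈ Icc (-(N : ℤ)) N, ((tri N t : ℝ) : ℂ) *
        (ee ((h : ℝ) * ((t : ℝ) - (b : ℝ)) / (q : ℝ)) +
          ee (-((h : ℝ) * ((t : ℝ) - (b : ℝ)) / (q : ℝ))))) +
      ∑ h ∈ Ioo H (q - H), Mtr_F N q b h) - (N : ℂ) / (q : ℂ) - (1 / (q : ℂ)) * ∑ h ∈ Icc 1 H,
      ∑ t ∈ Icc (-(N : ℤ)) N, ((tri N t : ℝ) : ℂ) *
        (ee ((h : ℝ) * ((t : ℝ) - (b : ℝ)) / (q : ℝ)) +
          ee (-((h : ℝ) * ((t : ℝ) - (b : ℝ)) / (q : ℝ)))) =
      (1 / (q : ℂ)) * ∑ h ∈ Ioo H (q - H), Mtr_F N q b h := by ring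
  rw [e5, norm_mul]
  have e6 : ‖(1 / (q : ℂ))‖ = 1 / (q : ℝ) := by
    rw [norm_div, norm_one, Complex.norm_natCast]
  rw [e6]
  calc 1 / (q : ℝ) * ‖∑ h ∈ Ioo H (q - H), Mtr_F N q b h‖ ≤
      1 / (q : ℝ) * ((1 / (N : ℝ)) * ((q : ℝ) ^ 2 / (2 * (H : ℝ)))) :=
        mul_le_mul_of_nonneg_left hmid (by positivity)
    _ = ((q : ℝ) / ((N : ℝ) * H)) * (1 / 2) := by
      field_simp
    _ ≤ (q : ℝ) / ((N : ℝ) * H) := by
      have : (0 : ℝ) ≤ (q : ℝ) / ((N : ℝ) * H) := by positivity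
      linarith

end Pool.Agent.Lib.TB
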