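import Pool.Agent.Lib.TB.AllA
import Pool.Agent.Lib.TB.G1
import Pool.Agent.Lib.TB.G2
import Pool.Agent.Lib.TB.G3
import Pool.Agent.Lib.TB.G4
import Pool.Agent.Lib.TB.G5
import Pool.Agent.Lib.TB.G6
import Pool.Agent.Lib.TB.G7
import Pool.Agent.Lib.TB.G8
import Pool.Agent.Lib.TB.Mab
import Pool.Agent.Lib.TB.Mbg
import Pool.Agent.Lib.TB.Mcb
import Pool.Agent.Lib.TB.Mcr
import Pool.Agent.Lib.TB.Mdy
import Pool.Agent.Lib.TB.Mex
import Pool.Agent.Lib.TB.Mft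
import Pool.Agent.Lib.TB.Mfu
import Pool.Agent.Lib.TB.Mka
import Pool.Agent.Lib.TB.Mmb
import Pool.Agent.Lib.TB.Mmi
import Pool.Agent.Lib.TB.Mof
import Pool.Agent.Lib.TB.Mrs
import Pool.Agent.Lib.TB.Msb
import Pool.Agent.Lib.TB.Msc
import Pool.Agent.Lib.TB.Msm
import Pool.Agent.Lib.TB.Mta
import Pool.Agent.Lib.TB.Mtr
import Pool.Agent.Lib.TB.Mxc

/-!
MP_00e23e_nt, directory Lib/TB: the estimate (OFF) without hypotheses.
-/

namespace Pool.Agent.Lib.TB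

/-- the truncated Fourier expansion -/
theorem tTrunc : TruncStmt := tMtr tMft (tMex tMft) tMsm

/-- the bounds for the error terms -/
theorem tSsbd : SsbdStmt := tMsb tMsc.1 tMsc.2 (tMcb (tMex tMft) tMsm)

/-- the sum of the error terms of all pairs of moduli -/
theorem tEE : EEStmt :=
  tG8 tG1 (tG2 tSsbd) (tG3 tMsc.2) (tG6 (tG4 tTrunc tMsc.1) (tG5 tBil)) tG7 tMta

/-- (OFF): almost orthogonality for different integers -/
theorem tOff : OffStmt :=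
  tMof (tMab tMdy)
    (tMbg tEE tMta (tMmi tMrs tMka) (tMmb tMdy) (tMcr tMka tSsbd) (tMfu tMka) (tMxc (tMab tMdy)))

end Pool.Agent.Lib.TB
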