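import Pool.Agent.Lib.TB.LdB

/-!
MP_00e23e_nt, directory Lib/TB: the diagonal moment (DIA).
-/

namespace Pool.Agent.Lib.TB

open Finset Pool.Agent.Lib.EH3 Pool.Agent.Results.MP_00e23e_nt

lemma Dia_rs_le (r : ℕ) (m : ℤ) :
    |rs r m| ≤ ∑ e ∈ r.divisors, (e : ℝ) * (if (e : ℤ) ∣ m then 1 else 0) := by
  unfold rs
  refine (Finset.abs_sum_le_sum_abs _ _).trans (Finset.sum_le_sum fun e _ => ?_)
  split_ifs with h
  · rw [abs_mul, Nat.abs_cast, mul_one]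
    have h1 : |((ArithmeticFunction.moebius (r / e) : ℤ) : ℝ)| ≤ 1 := by
      have := ArithmeticFunction.abs_moebius_le_one (n := r / e)
      exact_mod_cast this
    calc (e : ℝ) * |((ArithmeticFunction.moebius (r / e) : ℤ) : ℝ)| ≤ (e : ℝ) * 1 :=
          mul_le_mul_of_nonneg_left h1 (by positivity)
      _ = e := mul_one _
  · simp

/-- the sum over d ≤ D of |ld R d m| -/
lemma Dia_ld (R D : ℕ) (m : ℤ) (hm : m ≠ 0) :
    ∑ d ∈ Icc 1 D, |ld R d m| ≤ (∑ k ∈ Icc 1 D, 1 / (k : ℝ)) * ((∑ k ∈ Icc 1 R, 1 / (k : ℝ)) *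
      (m.natAbs.divisors.card : ℝ)) := by
  have h1 : ∀ d ∈ Icc 1 D, |ld R d m| ≤ (1 / (d : ℝ)) * ∑ r ∈ d.divisors.filter (fun r => r ≤ R),
      ∑ e ∈ r.divisors, (e : ℝ) * (if (e : ℤ) ∣ m then 1 else 0) := by
    intro d _
    unfold ld
    rw [abs_mul, abs_of_nonneg (by positivity : (0 : ℝ) ≤ 1 / (d : ℝ))]
    refine mul_le_mul_of_nonneg_left ?_ (by positivity)
    exact (Finset.abs_sum_le_sum_abs _ _).trans (Finset.sum_le_sum fun r _ => Dia_rs_le r m)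
  refine (Finset.sum_le_sum h1).trans ((LdB_two R D (fun e => if (e : ℤ) ∣ m then 1 else 0)
    (fun e => by split_ifs <;> norm_num)).trans ?_)
  refine mul_le_mul_of_nonneg_left ?_ (LdB_harm0 D)
  refine mul_le_mul_of_nonneg_left ?_ (LdB_harm0 R)
  rw [← Finset.sum_filter, Finset.sum_const, nsmul_eq_mul, mul_one]
  have h2 : ((Icc 1 R).filter (fun e : ℕ => (e : ℤ) ∣ m)).card ≤ m.natAbs.divisors.card := by
    refine Finset.card_le_card ?_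
    intro e he
    rw [mem_filter] at he
    rw [Nat.mem_divisors]
    exact ⟨Int.natCast_dvd.1 he.2, Int.natAbs_ne_zero.2 hm⟩
  exact_mod_cast h2

/-- the bound for FF -/
lemma Dia_FF (R Q : ℕ) (c : ℕ → ℝ) (hc : ∀ d, |c d| ≤ 1) (m : ℤ) :
    |FF R Q c m| ≤ (1 + (∑ k ∈ Icc 1 (2 * Q), 1 / (k : ℝ)) * ∑ k ∈ Icc 1 R, 1 / (k : ℝ)) *
      (m.natAbs.divisors.card : ℝ) := by
  unfold FF
  split_ifs with hm
  · rw [hm]
    simp
  have h1 : ∀ d ∈ Ioc Q (2 * Q), |c d * dd R d m| ≤ (if (d : ℤ) ∣ m then 1 else 0) + |ld R d m| := by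
    intro d _
    rw [abs_mul]
    have h2 : |dd R d m| ≤ (if (d : ℤ) ∣ m then 1 else 0) + |ld R d m| := by
      unfold dd
      refine (abs_sub _ _).trans ?_
      have h3 : |(if (d : ℤ) ∣ m then (1 : ℝ) else 0)| = if (d : ℤ) ∣ m then (1 : ℝ) else 0 := by
        split_ifs <;> simp
      rw [h3]
    calc |c d| * |dd R d m| ≤ 1 * |dd R d m| := mul_le_mul_of_nonneg_right (hc d) (abs_nonneg _)
      _ = |dd R d m| := one_mul _
      _ ≤ _ := h2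
  have hsub : Ioc Q (2 * Q) ⊆ Icc 1 (2 * Q) := by
    intro d hd
    rw [mem_Ioc] at hd
    rw [mem_Icc]
    omega
  have h4 : ∑ d ∈ Ioc Q (2 * Q), (if (d : ℤ) ∣ m then (1 : ℝ) else 0) ≤ m.natAbs.divisors.card := by
    rw [← Finset.sum_filter, Finset.sum_const, nsmul_eq_mul, mul_one]
    have h2 : ((Ioc Q (2 * Q)).filter (fun e : ℕ => (e : ℤ) ∣ m)).card ≤ m.natAbs.divisors.card := by
      refine Finset.card_le_card ?_
      intro e he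
      rw [mem_filter] at he
      rw [Nat.mem_divisors]
      exact ⟨Int.natCast_dvd.1 he.2, Int.natAbs_ne_zero.2 hm⟩
    exact_mod_cast h2
  have h5 : ∑ d ∈ Ioc Q (2 * Q), |ld R d m| ≤ (∑ k ∈ Icc 1 (2 * Q), 1 / (k : ℝ)) *
      ((∑ k ∈ Icc 1 R, 1 / (k : ℝ)) * (m.natAbs.divisors.card : ℝ)) :=
    (Finset.sum_le_sum_of_subset_of_nonneg hsub fun d _ _ => abs_nonneg _).trans (Dia_ld R (2 * Q) m hm)
  calc |∑ d ∈ Ioc Q (2 * Q), c d * dd R d m| ≤ ∑ d ∈ Ioc Q (2 * Q), |c d * dd R d m| :=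
        Finset.abs_sum_le_sum_abs _ _
    _ ≤ ∑ d ∈ Ioc Q (2 * Q), ((if (d : ℤ) ∣ m then (1 : ℝ) else 0) + |ld R d m|) := Finset.sum_le_sum h1
    _ = ∑ d ∈ Ioc Q (2 * Q), (if (d : ℤ) ∣ m then (1 : ℝ) else 0) + ∑ d ∈ Ioc Q (2 * Q), |ld R d m| :=
        Finset.sum_add_distrib
    _ ≤ (m.natAbs.divisors.card : ℝ) + (∑ k ∈ Icc 1 (2 * Q), 1 / (k : ℝ)) *
      ((∑ k ∈ Icc 1 R, 1 / (k : ℝ)) * (m.natAbs.divisors.card : ℝ)) := add_le_add h4 h5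
    _ = _ := by ring

lemma Dia_tri (N : ℕ) (n : ℤ) : 0 ≤ tri N n ∧ tri N n ≤ 1 := by
  unfold tri
  refine ⟨le_max_left _ _, max_le zero_le_one ?_⟩
  have : 0 ≤ |(n : ℝ)| / (N : ℝ) := by positivity
  linarith

/-- the sum of τ(|m|)² over |m| ≤ M -/
lemma Dia_tausum (M : ℕ) : ∑ m ∈ Icc (-(M : ℤ)) M, ((m.natAbs.divisors.card : ℝ)) ^ 2 ≤
    2 * ∑ m ∈ Icc 1 M, (m.divisors.card : ℝ) ^ 2 := by
  have h1 : Icc (-(M : ℤ)) M ⊆ ((Icc 1 M).image (fun k : ℕ => (k : ℤ))) ∪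
      (((Icc 1 M).image (fun k : ℕ => -(k : ℤ))) ∪ {0}) := by
    intro m hm
    rw [mem_Icc] at hm
    simp only [mem_union, mem_image, mem_Icc, mem_singleton]
    rcases lt_trichotomy m 0 with h | h | h
    · right; left
      exact ⟨m.natAbs, by omega, by omega⟩
    · right; right; exact h
    · left
      exact ⟨m.natAbs, by omega, by omega⟩
  have hi1 : ∑ m ∈ (Icc 1 M).image (fun k : ℕ => (k : ℤ)), ((m.natAbs.divisors.card : ℝ)) ^ 2 =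
      ∑ m ∈ Icc 1 M, (m.divisors.card : ℝ) ^ 2 := by
    rw [Finset.sum_image (fun a _ b _ h => by simpa using h)]
    simp
  have hi2 : ∑ m ∈ (Icc 1 M).image (fun k : ℕ => -(k : ℤ)), ((m.natAbs.divisors.card : ℝ)) ^ 2 =
      ∑ m ∈ Icc 1 M, (m.divisors.card : ℝ) ^ 2 := by
    rw [Finset.sum_image (fun a _ b _ h => by simpa using h)]
    simp
  have hun : ∀ A B : Finset ℤ, ∑ m ∈ A ∪ B, ((m.natAbs.divisors.card : ℝ)) ^ 2 ≤
      ∑ m ∈ A, ((m.natAbs.divisors.card : ℝ)) ^ 2 + ∑ m ∈ B, ((m.natAbs.divisors.card : ℝ)) ^ 2 := by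
    intro A B
    rw [← Finset.sum_union_inter]
    have : 0 ≤ ∑ m ∈ A ∩ B, ((m.natAbs.divisors.card : ℝ)) ^ 2 :=
      Finset.sum_nonneg fun m _ => by positivity
    linarith
  calc ∑ m ∈ Icc (-(M : ℤ)) M, ((m.natAbs.divisors.card : ℝ)) ^ 2 ≤
      ∑ m ∈ ((Icc 1 M).image (fun k : ℕ => (k : ℤ))) ∪
      (((Icc 1 M).image (fun k : ℕ => -(k : ℤ))) ∪ {0}), ((m.natAbs.divisors.card : ℝ)) ^ 2 :=
        Finset.sum_le_sum_of_subset_of_nonneg h1 fun m _ _ => by positivity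
    _ ≤ ∑ m ∈ (Icc 1 M).image (fun k : ℕ => (k : ℤ)), ((m.natAbs.divisors.card : ℝ)) ^ 2 +
        (∑ m ∈ (Icc 1 M).image (fun k : ℕ => -(k : ℤ)), ((m.natAbs.divisors.card : ℝ)) ^ 2 +
        ∑ m ∈ ({0} : Finset ℤ), ((m.natAbs.divisors.card : ℝ)) ^ 2) :=
        (hun _ _).trans (add_le_add le_rfl (hun _ _))
    _ = _ := by
        rw [hi1, hi2]
        simp
        ring

/-- (DIA) -/
theorem tDia : DiaStmt := by
  refine ⟨200000, fun N R Q c a hN hR hQ hc ha => ?_⟩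
  have hNr : (2 : ℝ) ≤ N := by exact_mod_cast hN
  have hL2 : (0.69 : ℝ) < Real.log 2 := by
    have := Real.log_two_gt_d9
    linarith
  have hL2' : Real.log 2 < 0.7 := by
    have := Real.log_two_lt_d9
    linarith
  have hL : Real.log 2 ≤ Real.log N := Real.log_le_log (by norm_num) hNr
  set L := Real.log N with hLdef
  have hL0 : 0.69 < L := lt_of_lt_of_le hL2 hL
  have hH2 : ∑ k ∈ Icc 1 (2 * N), 1 / (k : ℝ) ≤ 4 * L := by
    refine (LdB_harm (2 * N)).trans ?_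
    push_cast
    rw [Real.log_mul (by norm_num) (by positivity)]
    linarith
  have hH1 : ∑ k ∈ Icc 1 N, 1 / (k : ℝ) ≤ 3 * L := by
    refine (LdB_harm N).trans ?_
    linarith
  have hHQ : ∑ k ∈ Icc 1 (2 * Q), 1 / (k : ℝ) ≤ 4 * L := (LdB_harm_mono (by omega)).trans hH2
  have hHR : ∑ k ∈ Icc 1 R, 1 / (k : ℝ) ≤ 3 * L := (LdB_harm_mono hR).trans hH1
  have hK : 1 + (∑ k ∈ Icc 1 (2 * Q), 1 / (k : ℝ)) * ∑ k ∈ Icc 1 R, 1 / (k : ℝ) ≤ 15 * L ^ 2 := by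
    have h1 : (∑ k ∈ Icc 1 (2 * Q), 1 / (k : ℝ)) * ∑ k ∈ Icc 1 R, 1 / (k : ℝ) ≤ (4 * L) * (3 * L) :=
      mul_le_mul hHQ hHR (LdB_harm0 R) (by positivity)
    nlinarith
  have hK0 : 0 ≤ 1 + (∑ k ∈ Icc 1 (2 * Q), 1 / (k : ℝ)) * ∑ k ∈ Icc 1 R, 1 / (k : ℝ) :=
    add_nonneg zero_le_one (mul_nonneg (LdB_harm0 _) (LdB_harm0 _))
  have hterm : ∀ n ∈ Icc (-(N : ℤ)) N, tri N n * (FF R Q c (n - a)) ^ 2 ≤
      225 * L ^ 4 * (((n - a).natAbs.divisors.card : ℝ)) ^ 2 := by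
    intro n _
    have h1 := Dia_FF R Q c hc (n - a)
    have h2 : |FF R Q c (n - a)| ≤ 15 * L ^ 2 * ((n - a).natAbs.divisors.card : ℝ) :=
      h1.trans (mul_le_mul_of_nonneg_right hK (by positivity))
    have h3 : (FF R Q c (n - a)) ^ 2 ≤ (15 * L ^ 2 * ((n - a).natAbs.divisors.card : ℝ)) ^ 2 := by
      rw [← sq_abs]
      exact pow_le_pow_left₀ (abs_nonneg _) h2 2
    have h4 := Dia_tri N n
    calc tri N n * (FF R Q c (n - a)) ^ 2 ≤ 1 * (FF R Q c (n - a)) ^ 2 :=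
          mul_le_mul_of_nonneg_right h4.2 (sq_nonneg _)
      _ = (FF R Q c (n - a)) ^ 2 := one_mul _
      _ ≤ (15 * L ^ 2 * ((n - a).natAbs.divisors.card : ℝ)) ^ 2 := h3
      _ = _ := by ring
  have hshift : ∑ n ∈ Icc (-(N : ℤ)) N, (((n - a).natAbs.divisors.card : ℝ)) ^ 2 ≤
      ∑ m ∈ Icc (-((2 * N : ℕ) : ℤ)) ((2 * N : ℕ) : ℤ), ((m.natAbs.divisors.card : ℝ)) ^ 2 := by
    have h1 : ∑ n ∈ Icc (-(N : ℤ)) N, (((n - a).natAbs.divisors.card : ℝ)) ^ 2 =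
        ∑ m ∈ (Icc (-(N : ℤ)) N).image (fun n => n - a), ((m.natAbs.divisors.card : ℝ)) ^ 2 := by
      rw [Finset.sum_image (fun x _ y _ h => by simpa using h)]
    rw [h1]
    refine Finset.sum_le_sum_of_subset_of_nonneg ?_ fun m _ _ => by positivity
    intro m hm
    rw [mem_image] at hm
    obtain ⟨n, hn, rfl⟩ := hm
    rw [mem_Icc] at hn ⊢
    rw [abs_le] at ha
    push_cast
    constructor <;> omega
  have htau := (Dia_tausum (2 * N)).trans (mul_le_mul_of_nonneg_left (LdB_tau2 (2 * N))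
    (by norm_num : (0 : ℝ) ≤ 2))
  have hcube : (∑ k ∈ Icc 1 (2 * N), 1 / (k : ℝ)) ^ 3 ≤ (4 * L) ^ 3 :=
    pow_le_pow_left₀ (LdB_harm0 _) hH2 3
  calc ∑ n ∈ Icc (-(N : ℤ)) N, tri N n * (FF R Q c (n - a)) ^ 2 ≤
      ∑ n ∈ Icc (-(N : ℤ)) N, 225 * L ^ 4 * (((n - a).natAbs.divisors.card : ℝ)) ^ 2 :=
        Finset.sum_le_sum hterm
    _ = 225 * L ^ 4 * ∑ n ∈ Icc (-(N : ℤ)) N, (((n - a).natAbs.divisors.card : ℝ)) ^ 2 := by
        rw [Finset.mul_sum]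
    _ ≤ 225 * L ^ 4 * (2 * (((2 * N : ℕ) : ℝ) * (4 * L) ^ 3)) := by
        refine mul_le_mul_of_nonneg_left ?_ (by positivity)
        refine hshift.trans (htau.trans ?_)
        exact mul_le_mul_of_nonneg_left (mul_le_mul_of_nonneg_left hcube (by positivity)) (by norm_num)
    _ = 57600 * (N : ℝ) * L ^ 7 := by
        push_cast
        ring
    _ ≤ 200000 * (N : ℝ) * L ^ 7 := by
        have : 0 ≤ (N : ℝ) * L ^ 7 := by positivity
        nlinarith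

end Pool.Agent.Lib.TB
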