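import Pool.Agent.Lib.TB.StmK
import Pool.Agent.Lib.TB.Dia

/-!
MP_00e23e_nt, directory Lib/TB: the diagonal moment for coefficients with ∑_a |c_a(d)| ≤ K (DIA#).
-/

namespace Pool.Agent.Lib.TB

open Finset Pool.Agent.Results.MP_00e23e_nt

/-- `1_{d | m} + |l_d(m)|` -/
private noncomputable def DiaK_g (R d : ℕ) (m : ℤ) : ℝ := (if (d : ℤ) ∣ m then 1 else 0) + |ld R d m|

private lemma DiaK_g_nonneg (R d : ℕ) (m : ℤ) : 0 ≤ DiaK_g R d m := by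
  unfold DiaK_g
  have : (0 : ℝ) ≤ if (d : ℤ) ∣ m then (1 : ℝ) else 0 := by split_ifs <;> norm_num
  have := abs_nonneg (ld R d m)
  linarith

private lemma DiaK_dd (R d : ℕ) (m : ℤ) : |dd R d m| ≤ DiaK_g R d m := by
  unfold dd DiaK_g
  refine (abs_sub _ _).trans ?_
  have h3 : |(if (d : ℤ) ∣ m then (1 : ℝ) else 0)| = if (d : ℤ) ∣ m then (1 : ℝ) else 0 := by
    split_ifs <;> simp
  rw [h3]

/-- the sum of `DiaK_g` over the block -/
private lemma DiaK_sum (R Q : ℕ) (m : ℤ) (hm : m ≠ 0) :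
    ∑ d ∈ Ioc Q (2 * Q), DiaK_g R d m ≤
      (1 + (∑ k ∈ Icc 1 (2 * Q), 1 / (k : ℝ)) * ∑ k ∈ Icc 1 R, 1 / (k : ℝ)) *
      (m.natAbs.divisors.card : ℝ) := by
  have hsub : Ioc Q (2 * Q) ⊆ Icc 1 (2 * Q) := by
    intro d hd
    rw [mem_Ioc] at hd
    rw [mem_Icc]
    omega
  have h4 : ∑ d ∈ Ioc Q (2 * Q), (if (d : ℤ) ∣ m then (1 : ℝ) else 0) ≤ m.natAbs.divisors.card := by
    rw [← Finset.sum_filter, Finset.sum_const, nsmul_eq_mul, mul_one]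
    have h2 : ((Ioc Q (2 * Q)).filter (fun e : ℕ => (e : ℤ) ∣ m)).card ≤ m.natAbs.divisors.card := by
      refine Finset.card_le_card ?_
      intro e he
      rw [mem_filter] at he
      rw [Nat.mem_divisors]
      exact ⟨Int.natCast_dvd.1 he.2, Int.natAbs_ne_zero.2 hm⟩
    exact_mod_cast h2
  have h5 : ∑ d ∈ Ioc Q (2 * Q), |ld R d m| ≤ (∑ k ∈ Icc 1 (2 * Q), 1 / (k : ℝ)) *
      ((∑ k ∈ Icc 1 R, 1 / (k : ℝ)) * (m.natAbs.divisors.card : ℝ)) :=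
    (Finset.sum_le_sum_of_subset_of_nonneg hsub fun d _ _ => abs_nonneg _).trans (Dia_ld R (2 * Q) m hm)
  unfold DiaK_g
  rw [Finset.sum_add_distrib]
  calc _ ≤ (m.natAbs.divisors.card : ℝ) + (∑ k ∈ Icc 1 (2 * Q), 1 / (k : ℝ)) *
      ((∑ k ∈ Icc 1 R, 1 / (k : ℝ)) * (m.natAbs.divisors.card : ℝ)) := add_le_add h4 h5
    _ = _ := by ring

/-- (DIA#) -/
theorem tDiaK : DiaKStmt := by
  classical
  refine ⟨200000, 7, fun N R Q c A K hN hR hQ hc1 hc ha => ?_⟩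
  have hNr : (2 : ℝ) ≤ N := by exact_mod_cast hN
  have hL2 : (0.69 : ℝ) < Real.log 2 := by
    have := Real.log_two_gt_d9
    linarith
  have hL2' : Real.log 2 < 0.7 := by
    have := Real.log_two_lt_d9
    linarith
  have hL : Real.log 2 ≤ Real.log N := Real.log_le_log (by norm_num) hNr
  set L := Real.log N with hLdef
  have hL0 : 0.69 < L := lt_of_lt_of_le hL2 hL
  have hH2 : ∑ k ∈ Icc 1 (2 * N), 1 / (k : ℝ) ≤ 4 * L := by
    refine (LdB_harm (2 * N)).trans ?_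
    push_cast
    rw [Real.log_mul (by norm_num) (by positivity)]
    linarith
  have hH1 : ∑ k ∈ Icc 1 N, 1 / (k : ℝ) ≤ 3 * L := by
    refine (LdB_harm N).trans ?_
    linarith
  have hHQ : ∑ k ∈ Icc 1 (2 * Q), 1 / (k : ℝ) ≤ 4 * L := (LdB_harm_mono (by omega)).trans hH2
  have hHR : ∑ k ∈ Icc 1 R, 1 / (k : ℝ) ≤ 3 * L := (LdB_harm_mono hR).trans hH1
  have hK : 1 + (∑ k ∈ Icc 1 (2 * Q), 1 / (k : ℝ)) * ∑ k ∈ Icc 1 R, 1 / (k : ℝ) ≤ 15 * L ^ 2 := by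
    have h1 : (∑ k ∈ Icc 1 (2 * Q), 1 / (k : ℝ)) * ∑ k ∈ Icc 1 R, 1 / (k : ℝ) ≤ (4 * L) * (3 * L) :=
      mul_le_mul hHQ hHR (LdB_harm0 R) (by positivity)
    nlinarith
  have hK0 : 0 ≤ K := (Finset.sum_nonneg fun a _ => abs_nonneg _).trans (hc 0)
  -- one term
  have hterm : ∀ a ∈ A, ∀ n ∈ Icc (-(N : ℤ)) N, tri N n * (FF R Q (c a) (n - a)) ^ 2 ≤
      15 * L ^ 2 * ((n - a).natAbs.divisors.card : ℝ) *
        ∑ d ∈ Ioc Q (2 * Q), |c a d| * DiaK_g R d (n - a) := by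
    intro a haA n _
    have h1 := Dia_FF R Q (c a) (hc1 a haA) (n - a)
    have h2 : |FF R Q (c a) (n - a)| ≤ 15 * L ^ 2 * ((n - a).natAbs.divisors.card : ℝ) :=
      h1.trans (mul_le_mul_of_nonneg_right hK (by positivity))
    have h3 : |FF R Q (c a) (n - a)| ≤ ∑ d ∈ Ioc Q (2 * Q), |c a d| * DiaK_g R d (n - a) := by
      have h0 : 0 ≤ ∑ d ∈ Ioc Q (2 * Q), |c a d| * DiaK_g R d (n - a) :=
        Finset.sum_nonneg fun d _ => mul_nonneg (abs_nonneg _) (DiaK_g_nonneg _ _ _)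
      unfold FF
      split_ifs with hm
      · rw [abs_zero]
        exact h0
      · refine (Finset.abs_sum_le_sum_abs _ _).trans (Finset.sum_le_sum fun d _ => ?_)
        rw [abs_mul]
        exact mul_le_mul_of_nonneg_left (DiaK_dd _ _ _) (abs_nonneg _)
    have h4 := Dia_tri N n
    calc tri N n * (FF R Q (c a) (n - a)) ^ 2 ≤ 1 * (FF R Q (c a) (n - a)) ^ 2 :=
          mul_le_mul_of_nonneg_right h4.2 (sq_nonneg _)
      _ = |FF R Q (c a) (n - a)| * |FF R Q (c a) (n - a)| := by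
          rw [one_mul, abs_mul_abs_self, sq]
      _ ≤ (15 * L ^ 2 * ((n - a).natAbs.divisors.card : ℝ)) *
          ∑ d ∈ Ioc Q (2 * Q), |c a d| * DiaK_g R d (n - a) :=
          mul_le_mul h2 h3 (abs_nonneg _) (by positivity)
  -- shift of the variable
  have hshift : ∀ a ∈ A, ∑ n ∈ Icc (-(N : ℤ)) N, 15 * L ^ 2 * ((n - a).natAbs.divisors.card : ℝ) *
        ∑ d ∈ Ioc Q (2 * Q), |c a d| * DiaK_g R d (n - a) ≤
      ∑ m ∈ Icc (-((2 * N : ℕ) : ℤ)) ((2 * N : ℕ) : ℤ), 15 * L ^ 2 * (m.natAbs.divisors.card : ℝ) *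
        ∑ d ∈ Ioc Q (2 * Q), |c a d| * DiaK_g R d m := by
    intro a haA
    have h1 : ∑ n ∈ Icc (-(N : ℤ)) N, 15 * L ^ 2 * ((n - a).natAbs.divisors.card : ℝ) *
        ∑ d ∈ Ioc Q (2 * Q), |c a d| * DiaK_g R d (n - a) =
        ∑ m ∈ (Icc (-(N : ℤ)) N).image (fun n => n - a), 15 * L ^ 2 * (m.natAbs.divisors.card : ℝ) *
        ∑ d ∈ Ioc Q (2 * Q), |c a d| * DiaK_g R d m := by
      rw [Finset.sum_image (fun x _ y _ h => by simpa using h)]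
    rw [h1]
    refine Finset.sum_le_sum_of_subset_of_nonneg ?_ fun m _ _ => ?_
    · intro m hm
      rw [mem_image] at hm
      obtain ⟨n, hn, rfl⟩ := hm
      have ha1 := ha a haA
      rw [mem_Icc] at hn ⊢
      rw [abs_le] at ha1
      push_cast
      constructor <;> omega
    · exact mul_nonneg (by positivity)
        (Finset.sum_nonneg fun d _ => mul_nonneg (abs_nonneg _) (DiaK_g_nonneg _ _ _))
  -- the sum over a
  have hsum : ∀ m : ℤ, ∑ a ∈ A, 15 * L ^ 2 * (m.natAbs.divisors.card : ℝ) *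
        ∑ d ∈ Ioc Q (2 * Q), |c a d| * DiaK_g R d m ≤
        225 * K * L ^ 4 * ((m.natAbs.divisors.card : ℝ)) ^ 2 := by
    intro m
    rcases eq_or_ne m 0 with hm | hm
    · rw [hm]
      simp
    have h1 : ∑ a ∈ A, ∑ d ∈ Ioc Q (2 * Q), |c a d| * DiaK_g R d m ≤
        K * ∑ d ∈ Ioc Q (2 * Q), DiaK_g R d m := by
      rw [Finset.sum_comm, Finset.mul_sum]
      refine Finset.sum_le_sum fun d _ => ?_
      rw [← Finset.sum_mul]
      exact mul_le_mul_of_nonneg_right (hc d) (DiaK_g_nonneg _ _ _)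
    have h2 : ∑ d ∈ Ioc Q (2 * Q), DiaK_g R d m ≤ 15 * L ^ 2 * (m.natAbs.divisors.card : ℝ) :=
      (DiaK_sum R Q m hm).trans (mul_le_mul_of_nonneg_right hK (by positivity))
    rw [← Finset.mul_sum]
    calc 15 * L ^ 2 * (m.natAbs.divisors.card : ℝ) *
          ∑ a ∈ A, ∑ d ∈ Ioc Q (2 * Q), |c a d| * DiaK_g R d m ≤
          15 * L ^ 2 * (m.natAbs.divisors.card : ℝ) * (K * (15 * L ^ 2 * (m.natAbs.divisors.card : ℝ))) :=
          mul_le_mul_of_nonneg_left (h1.trans (mul_le_mul_of_nonneg_left h2 hK0)) (by positivity)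
      _ = _ := by ring
  have htau := (Dia_tausum (2 * N)).trans (mul_le_mul_of_nonneg_left (LdB_tau2 (2 * N))
    (by norm_num : (0 : ℝ) ≤ 2))
  have hcube : (∑ k ∈ Icc 1 (2 * N), 1 / (k : ℝ)) ^ 3 ≤ (4 * L) ^ 3 :=
    pow_le_pow_left₀ (LdB_harm0 _) hH2 3
  calc ∑ a ∈ A, ∑ n ∈ Icc (-(N : ℤ)) N, tri N n * (FF R Q (c a) (n - a)) ^ 2 ≤
      ∑ a ∈ A, ∑ m ∈ Icc (-((2 * N : ℕ) : ℤ)) ((2 * N : ℕ) : ℤ), 15 * L ^ 2 *
        (m.natAbs.divisors.card : ℝ) * ∑ d ∈ Ioc Q (2 * Q), |c a d| * DiaK_g R d m :=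
        Finset.sum_le_sum fun a haA => (Finset.sum_le_sum (hterm a haA)).trans (hshift a haA)
    _ = ∑ m ∈ Icc (-((2 * N : ℕ) : ℤ)) ((2 * N : ℕ) : ℤ), ∑ a ∈ A, 15 * L ^ 2 *
        (m.natAbs.divisors.card : ℝ) * ∑ d ∈ Ioc Q (2 * Q), |c a d| * DiaK_g R d m :=
        Finset.sum_comm
    _ ≤ ∑ m ∈ Icc (-((2 * N : ℕ) : ℤ)) ((2 * N : ℕ) : ℤ),
        225 * K * L ^ 4 * ((m.natAbs.divisors.card : ℝ)) ^ 2 := Finset.sum_le_sum fun m _ => hsum m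
    _ = 225 * K * L ^ 4 * ∑ m ∈ Icc (-((2 * N : ℕ) : ℤ)) ((2 * N : ℕ) : ℤ),
        ((m.natAbs.divisors.card : ℝ)) ^ 2 := by rw [Finset.mul_sum]
    _ ≤ 225 * K * L ^ 4 * (2 * (((2 * N : ℕ) : ℝ) * (4 * L) ^ 3)) := by
        refine mul_le_mul_of_nonneg_left ?_ (by positivity)
        refine htau.trans ?_
        exact mul_le_mul_of_nonneg_left (mul_le_mul_of_nonneg_left hcube (by positivity)) (by norm_num)
    _ = 57600 * (K * (N : ℝ) * L ^ 7) := by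
        push_cast
        ring
    _ ≤ 200000 * (K * (N : ℝ) * L ^ 7) := by
        have : 0 ≤ K * (N : ℝ) * L ^ 7 := by positivity
        linarith
    _ = 200000 * K * (N : ℝ) * L ^ 7 := by ring

end Pool.Agent.Lib.TB
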