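import Pool.Agent.Lib.TB.LdB

/-!
MP_00e23e_nt, directory Lib/TB: the sums over primes (LP).
-/

namespace Pool.Agent.Lib.TB

open Finset Pool.Agent.Lib.EH3 Pool.Agent.Lib.EH Pool.Agent.Results.MP_00e23e_nt

/-- μ(r)²/φ(r) -/
noncomputable def LpG : ArithmeticFunction ℝ :=
  ⟨fun r => ((ArithmeticFunction.moebius r : ℤ) : ℝ) ^ 2 / (r.totient : ℝ), by simp⟩

/-- n/φ(n) -/
noncomputable def LpF : ArithmeticFunction ℝ := ⟨fun n => (n : ℝ) / (n.totient : ℝ), by simp⟩

lemma LpG_apply (r : ℕ) : LpG r = ((ArithmeticFunction.moebius r : ℤ) : ℝ) ^ 2 / (r.totient : ℝ) := rfl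

lemma LpF_apply (r : ℕ) : LpF r = (r : ℝ) / (r.totient : ℝ) := rfl

lemma LpG_mult : LpG.IsMultiplicative := by
  refine ⟨by simp [LpG_apply], fun {m n} h => ?_⟩
  rw [LpG_apply, LpG_apply, LpG_apply,
    ArithmeticFunction.isMultiplicative_moebius.map_mul_of_coprime h, Nat.totient_mul h]
  push_cast
  rw [mul_pow, div_mul_div_comm]

lemma LpF_mult : LpF.IsMultiplicative := by
  refine ⟨by simp [LpF_apply], fun {m n} h => ?_⟩
  rw [LpF_apply, LpF_apply, LpF_apply, Nat.totient_mul h]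
  push_cast
  rw [div_mul_div_comm]

lemma LpG_zeta : LpG * (ArithmeticFunction.zeta : ArithmeticFunction ℝ) = LpF := by
  have h1 : (LpG * (ArithmeticFunction.zeta : ArithmeticFunction ℝ)).IsMultiplicative :=
    LpG_mult.mul ArithmeticFunction.isMultiplicative_zeta.natCast
  rw [ArithmeticFunction.IsMultiplicative.eq_iff_eq_on_prime_powers _ h1 _ LpF_mult]
  intro p k hp
  rw [ArithmeticFunction.coe_mul_zeta_apply, Nat.sum_divisors_prime_pow hp]
  rcases Nat.eq_zero_or_pos k with hk | hk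
  · subst hk
    simp [LpG_apply, LpF_apply]
  obtain ⟨j, rfl⟩ : ∃ j, k = j + 1 := ⟨k - 1, by omega⟩
  have hp1 : (1 : ℝ) < p := by exact_mod_cast hp.one_lt
  have hpc : ((p - 1 : ℕ) : ℝ) = (p : ℝ) - 1 := by
    rw [Nat.cast_sub hp.one_lt.le]
    simp
  have h2 : ∑ i ∈ range (j + 1 + 1), LpG (p ^ i) = 1 + 1 / ((p : ℝ) - 1) := by
    rw [Finset.sum_range_succ', Finset.sum_range_succ']
    have h3 : ∑ i ∈ range j, LpG (p ^ (i + 1 + 1)) = 0 := by
      refine Finset.sum_eq_zero fun i _ => ?_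
      rw [LpG_apply]
      have h4 : ArithmeticFunction.moebius (p ^ (i + 1 + 1)) = 0 := by
        rw [ArithmeticFunction.moebius_apply_prime_pow hp (by omega)]
        simp
      rw [h4]
      simp
    rw [h3]
    simp only [zero_add, pow_one, pow_zero]
    rw [LpG_apply, LpG_apply, ArithmeticFunction.moebius_apply_prime hp, Nat.totient_prime hp, hpc]
    simp
    ring
  rw [h2, LpF_apply, Nat.totient_prime_pow hp hk]
  push_cast
  rw [hpc]
  have hp2 : (p : ℝ) - 1 ≠ 0 := by linarith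
  have hp0 : (p : ℝ) ≠ 0 := by linarith
  field_simp
  ring

/-- ∑_{r | n} μ(r)²/φ(r) = n/φ(n) -/
lemma Lp_sumG (n : ℕ) (_hn : 0 < n) : ∑ r ∈ n.divisors, LpG r = LpF n := by
  have h := congrArg (fun f : ArithmeticFunction ℝ => f n) LpG_zeta
  rw [ArithmeticFunction.coe_mul_zeta_apply] at h
  exact h

/-- ∑_{e | r} e μ(r/e)/φ(e) = μ(r)²/φ(r) -/
lemma Lp_inv (r : ℕ) (hr : 0 < r) :
    ∑ e ∈ r.divisors, (e : ℝ) * ((ArithmeticFunction.moebius (r / e) : ℤ) : ℝ) / (e.totient : ℝ) =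
      LpG r := by
  have h := (ArithmeticFunction.sum_eq_iff_sum_mul_moebius_eq (f := fun r => LpG r)
    (g := fun n => LpF n)).1 Lp_sumG r hr
  rw [← h, Nat.sum_divisorsAntidiagonal' (n := r)
    (f := fun a b => ((ArithmeticFunction.moebius a : ℤ) : ℝ) * LpF b)]
  refine Finset.sum_congr rfl fun e _ => ?_
  rw [LpF_apply]
  ring

lemma LpG_nonneg (r : ℕ) : 0 ≤ LpG r := by
  rw [LpG_apply]
  positivity

lemma LpG_le (r : ℕ) : LpG r ≤ 1 / (r.totient : ℝ) := by
  rw [LpG_apply]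
  refine div_le_div_of_nonneg_right ?_ (by positivity)
  have h1 : |((ArithmeticFunction.moebius r : ℤ) : ℝ)| ≤ 1 := by
    have := ArithmeticFunction.abs_moebius_le_one (n := r)
    exact_mod_cast this
  rw [← sq_abs]
  exact pow_le_one₀ (abs_nonneg _) h1

/-- the representative of the class of a modulo e in [1, e] -/
noncomputable def Lprep (a : ℤ) (e : ℕ) : ℕ := ((a - 1) % e + 1).toNat

lemma Lprep_spec (a : ℤ) (e : ℕ) (he : 1 ≤ e) : 1 ≤ Lprep a e ∧ Lprep a e ≤ e ∧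
    (e : ℤ) ∣ (Lprep a e : ℤ) - a := by
  have he0 : (0 : ℤ) < e := by exact_mod_cast he
  have h1 := Int.emod_nonneg (a - 1) he0.ne'
  have h2 := Int.emod_lt_of_pos (a - 1) he0
  have h3 : ((Lprep a e : ℕ) : ℤ) = (a - 1) % e + 1 := by
    unfold Lprep
    rw [Int.toNat_of_nonneg (by omega)]
  refine ⟨by omega, by omega, ?_⟩
  rw [h3]
  have h4 := Int.emod_add_mul_ediv (a - 1) e
  exact ⟨-((a - 1) / e), by linarith⟩

lemma Lprep_coprime (a : ℤ) (e : ℕ) (he : 1 ≤ e) (h : IsCoprime (e : ℤ) a) : (Lprep a e).Coprime e := by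
  obtain ⟨_, _, z, hz⟩ := Lprep_spec a e he
  rw [← Nat.isCoprime_iff_coprime]
  have h1 : ((Lprep a e : ℕ) : ℤ) = a + e * z := by linarith
  rw [h1]
  exact IsCoprime.add_mul_left_left h.symm z

/-- the number of primes p ≤ y with e | p - a -/
lemma Lp_count (y : ℝ) (a : ℤ) (e : ℕ) (he : 1 ≤ e) :
    ∑ p ∈ (Icc 1 ⌊y⌋₊).filter Nat.Prime, (if (e : ℤ) ∣ (p : ℤ) - a then (1 : ℝ) else 0) =
      (primeCount y e (Lprep a e) : ℝ) := by
  obtain ⟨_, _, h3⟩ := Lprep_spec a e he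
  unfold primeCount
  rw [← Finset.sum_filter, Finset.sum_const, nsmul_eq_mul, mul_one, Finset.filter_filter]
  congr 2
  ext p
  simp only [mem_filter]
  have h4 : (e : ℤ) ∣ (p : ℤ) - a ↔ p ≡ Lprep a e [MOD e] := by
    constructor
    · intro h
      have h5 := dvd_sub h3 h
      rw [Nat.modEq_iff_dvd]
      have h6 : ((Lprep a e : ℕ) : ℤ) - a - ((p : ℤ) - a) = ((Lprep a e : ℕ) : ℤ) - p := by ring
      rwa [h6] at h5
    · intro h
      have h5 := dvd_sub h3 (Nat.modEq_iff_dvd.1 h)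
      have h6 : ((Lprep a e : ℕ) : ℤ) - a - (((Lprep a e : ℕ) : ℤ) - p) = (p : ℤ) - a := by ring
      rwa [h6] at h5
  rw [h4]

/-- the sum over the primes of l_d(p - a) for one d -/
lemma Lp_one (y : ℝ) (R d : ℕ) (a : ℤ) (hd : 1 ≤ d) (hy : 2 ≤ y) (hda : IsCoprime (d : ℤ) a) :
    |∑ p ∈ (Icc 1 ⌊y⌋₊).filter Nat.Prime, ld R d ((p : ℤ) - a) - li y / (d.totient : ℝ)| ≤
      (1 / (d : ℝ)) * ∑ r ∈ d.divisors.filter (fun r => r ≤ R), ∑ e ∈ r.divisors, (e : ℝ) * maxErr y e +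
      li y * ((1 / (d : ℝ)) * ∑ r ∈ d.divisors, if R < r then LpG r else 0) := by
  have hd0 : (d : ℝ) ≠ 0 := by
    have : d ≠ 0 := by omega
    exact_mod_cast this
  have hli := li_nonneg hy
  set P := (Icc 1 ⌊y⌋₊).filter Nat.Prime with hP
  have h1 : ∑ p ∈ P, ld R d ((p : ℤ) - a) = (1 / (d : ℝ)) * ∑ r ∈ d.divisors.filter (fun r => r ≤ R),
      ∑ e ∈ r.divisors, (e : ℝ) * ((ArithmeticFunction.moebius (r / e) : ℤ) : ℝ) *
        (primeCount y e (Lprep a e) : ℝ) := by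
    unfold ld
    rw [← Finset.mul_sum, Finset.sum_comm]
    congr 1
    refine Finset.sum_congr rfl fun r hr => ?_
    unfold rs
    rw [Finset.sum_comm]
    refine Finset.sum_congr rfl fun e he => ?_
    have he1 : 1 ≤ e := Nat.pos_of_mem_divisors he
    rw [← Lp_count y a e he1, Finset.mul_sum]
    refine Finset.sum_congr rfl fun p _ => ?_
    split_ifs
    · rw [mul_one]
    · rw [mul_zero]
  have h2 : ∑ p ∈ P, ld R d ((p : ℤ) - a) =
      (1 / (d : ℝ)) * ∑ r ∈ d.divisors.filter (fun r => r ≤ R), li y * LpG r +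
      (1 / (d : ℝ)) * ∑ r ∈ d.divisors.filter (fun r => r ≤ R), ∑ e ∈ r.divisors,
        (e : ℝ) * ((ArithmeticFunction.moebius (r / e) : ℤ) : ℝ) * err y e (Lprep a e) := by
    rw [h1, ← mul_add, ← Finset.sum_add_distrib]
    congr 1
    refine Finset.sum_congr rfl fun r hr => ?_
    have hr0 : 0 < r := Nat.pos_of_mem_divisors (Finset.mem_filter.1 hr).1
    rw [← Lp_inv r hr0, Finset.mul_sum, ← Finset.sum_add_distrib]
    refine Finset.sum_congr rfl fun e _ => ?_
    unfold err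
    ring
  have h3 : li y / (d.totient : ℝ) = (1 / (d : ℝ)) * ∑ r ∈ d.divisors.filter (fun r => r ≤ R), li y * LpG r +
      li y * ((1 / (d : ℝ)) * ∑ r ∈ d.divisors, if R < r then LpG r else 0) := by
    have h4 := Lp_sumG d (by omega)
    rw [LpF_apply] at h4
    have h5 : ∑ r ∈ d.divisors, LpG r = ∑ r ∈ d.divisors.filter (fun r => r ≤ R), LpG r +
        ∑ r ∈ d.divisors, if R < r then LpG r else 0 := by
      rw [Finset.sum_filter, ← Finset.sum_add_distrib]
      refine Finset.sum_congr rfl fun r _ => ?_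
      by_cases h : r ≤ R
      · rw [if_pos h, if_neg (by omega), add_zero]
      · rw [if_neg h, if_pos (by omega), zero_add]
    rw [← Finset.mul_sum]
    have h6 : (1 / (d : ℝ)) * (li y * ∑ r ∈ d.divisors.filter (fun r => r ≤ R), LpG r) +
        li y * ((1 / (d : ℝ)) * ∑ r ∈ d.divisors, if R < r then LpG r else 0) =
        li y * ((1 / (d : ℝ)) * ∑ r ∈ d.divisors, LpG r) := by
      rw [h5]
      ring
    rw [h6, h4]
    field_simp
  rw [h2, h3]
  have h7 : ∀ A B C : ℝ, A + B - (A + C) = B - C := fun A B C => by ring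
  rw [h7]
  have h8 : |(1 / (d : ℝ)) * ∑ r ∈ d.divisors.filter (fun r => r ≤ R), ∑ e ∈ r.divisors,
        (e : ℝ) * ((ArithmeticFunction.moebius (r / e) : ℤ) : ℝ) * err y e (Lprep a e)| ≤
      (1 / (d : ℝ)) * ∑ r ∈ d.divisors.filter (fun r => r ≤ R), ∑ e ∈ r.divisors, (e : ℝ) * maxErr y e := by
    rw [abs_mul, abs_of_nonneg (by positivity : (0 : ℝ) ≤ 1 / (d : ℝ))]
    refine mul_le_mul_of_nonneg_left ?_ (by positivity)
    refine (Finset.abs_sum_le_sum_abs _ _).trans (Finset.sum_le_sum fun r hr => ?_)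
    refine (Finset.abs_sum_le_sum_abs _ _).trans (Finset.sum_le_sum fun e he => ?_)
    have he1 : 1 ≤ e := Nat.pos_of_mem_divisors he
    have hed : e ∣ d := (Nat.dvd_of_mem_divisors he).trans
      (Nat.dvd_of_mem_divisors (Finset.mem_filter.1 hr).1)
    have hea : IsCoprime (e : ℤ) a := hda.of_isCoprime_of_dvd_left (Int.natCast_dvd_natCast.2 hed)
    obtain ⟨h9, h10, _⟩ := Lprep_spec a e he1
    have h11 := le_maxErr y e (Lprep a e) h9 h10 (Lprep_coprime a e he1 hea)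
    have h12 : |((ArithmeticFunction.moebius (r / e) : ℤ) : ℝ)| ≤ 1 := by
      have := ArithmeticFunction.abs_moebius_le_one (n := r / e)
      exact_mod_cast this
    rw [abs_mul, abs_mul, Nat.abs_cast, mul_assoc]
    refine mul_le_mul_of_nonneg_left ?_ (by positivity)
    calc |((ArithmeticFunction.moebius (r / e) : ℤ) : ℝ)| * |err y e (Lprep a e)| ≤
        1 * |err y e (Lprep a e)| := mul_le_mul_of_nonneg_right h12 (abs_nonneg _)
      _ = |err y e (Lprep a e)| := one_mul _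
      _ ≤ maxErr y e := h11
  have h13 : 0 ≤ li y * ((1 / (d : ℝ)) * ∑ r ∈ d.divisors, if R < r then LpG r else 0) := by
    refine mul_nonneg hli (mul_nonneg (by positivity) (Finset.sum_nonneg fun r _ => ?_))
    split_ifs
    · exact LpG_nonneg r
    · exact le_rfl
  refine (abs_sub _ _).trans ?_
  rw [abs_of_nonneg h13]
  exact add_le_add h8 le_rfl

/-- ∑_{R < r ≤ D} 1/r² ≤ 1/R -/
lemma Lp_tail (R D : ℕ) (hR : 1 ≤ R) :
    ∑ r ∈ (Icc 1 D).filter (fun r => R < r), 1 / (r : ℝ) ^ 2 ≤ 1 / (R : ℝ) := by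
  have h1 : ∀ D : ℕ, R ≤ D → ∑ r ∈ (Icc 1 D).filter (fun r => R < r), 1 / (r : ℝ) ^ 2 ≤
      1 / (R : ℝ) - 1 / (D : ℝ) := by
    intro D hD
    induction D, hD using Nat.le_induction with
    | base =>
      rw [Finset.filter_false_of_mem (fun r hr => by rw [mem_Icc] at hr; omega)]
      simp
    | succ D hD ih =>
      have h2 : (Icc 1 (D + 1)).filter (fun r => R < r) = insert (D + 1) ((Icc 1 D).filter (fun r => R < r)) := by
        ext r
        simp only [mem_filter, mem_Icc, mem_insert]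
        omega
      rw [h2, Finset.sum_insert (by simp)]
      have hD0 : (0 : ℝ) < D := by exact_mod_cast (by omega : 0 < D)
      have h3 : 1 / ((D + 1 : ℕ) : ℝ) ^ 2 ≤ 1 / (D : ℝ) - 1 / ((D + 1 : ℕ) : ℝ) := by
        push_cast
        rw [div_sub_div _ _ hD0.ne' (by positivity), div_le_div_iff₀ (by positivity) (by positivity)]
        nlinarith
      linarith
  rcases le_total R D with h | h
  · refine (h1 D h).trans ?_
    have : 0 ≤ 1 / (D : ℝ) := by positivity
    linarith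
  · rw [Finset.filter_false_of_mem (fun r hr => by rw [mem_Icc] at hr; omega)]
    simp

/-- general form of (LP), with the sum over the primes p ≤ y, moduli d ≤ D ≤ x -/
theorem tLpGen : ∃ C : ℝ, ∀ (x y : ℝ) (R D : ℕ) (a : ℤ), 3 ≤ x → 2 ≤ y → 1 ≤ R → (R : ℝ) ≤ x →
    (D : ℝ) ≤ x →
    ∑ d ∈ (Icc 1 D).filter (fun d : ℕ => IsCoprime (d : ℤ) a),
      |∑ p ∈ (Icc 1 ⌊y⌋₊).filter Nat.Prime, ld R d ((p : ℤ) - a) - li y / (d.totient : ℝ)| ≤
        C * (Real.log x) ^ 3 * (∑ e ∈ Icc 1 R, maxErr y e + y / R) := by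
  refine ⟨12, fun x y R D a hx hy hR hRx hDx => ?_⟩
  have hL1 : 1 ≤ Real.log x := by
    rw [Real.le_log_iff_exp_le (by linarith)]
    have := Real.exp_one_lt_d9
    linarith
  set L := Real.log x with hL
  have hH : ∀ D : ℕ, (D : ℝ) ≤ x → ∑ k ∈ Icc 1 D, 1 / (k : ℝ) ≤ 2 * L := by
    intro D hDx
    refine (LdB_harm D).trans ?_
    rcases Nat.eq_zero_or_pos D with h | h
    · subst h
      simp
      linarith
    · have : Real.log D ≤ L := Real.log_le_log (by exact_mod_cast h) hDx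
      linarith
  have hli := li_nonneg hy
  have hli2 := li_le hy
  have hR0 : (0 : ℝ) < R := by exact_mod_cast hR
  have hM0 : 0 ≤ ∑ e ∈ Icc 1 R, maxErr y e := Finset.sum_nonneg fun e _ => maxErr_nonneg y e
  have hind : ∀ r : ℕ, 0 ≤ if R < r then LpG r else 0 := fun r => by
    split_ifs
    · exact LpG_nonneg r
    · exact le_rfl
  have hstep1 : ∑ d ∈ (Icc 1 D).filter (fun d : ℕ => IsCoprime (d : ℤ) a),
      |∑ p ∈ (Icc 1 ⌊y⌋₊).filter Nat.Prime, ld R d ((p : ℤ) - a) - li y / (d.totient : ℝ)| ≤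
      ∑ d ∈ Icc 1 D, ((1 / (d : ℝ)) * ∑ r ∈ d.divisors.filter (fun r => r ≤ R), ∑ e ∈ r.divisors,
        (e : ℝ) * maxErr y e + li y * ((1 / (d : ℝ)) * ∑ r ∈ d.divisors, if R < r then LpG r else 0)) := by
    refine (Finset.sum_le_sum fun d hd => ?_).trans
      (Finset.sum_le_sum_of_subset_of_nonneg (Finset.filter_subset _ _) fun d _ _ => ?_)
    · rw [mem_filter, mem_Icc] at hd
      exact Lp_one y R d a hd.1.1 hy hd.2
    · refine add_nonneg (mul_nonneg (by positivity) (Finset.sum_nonneg fun r _ =>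
        Finset.sum_nonneg fun e _ => mul_nonneg (by positivity) (maxErr_nonneg y e))) ?_
      exact mul_nonneg hli (mul_nonneg (by positivity) (Finset.sum_nonneg fun r _ => hind r))
  have hA : ∑ d ∈ Icc 1 D, (1 / (d : ℝ)) * ∑ r ∈ d.divisors.filter (fun r => r ≤ R), ∑ e ∈ r.divisors,
        (e : ℝ) * maxErr y e ≤ (2 * L) * ((2 * L) * ∑ e ∈ Icc 1 R, maxErr y e) := by
    refine (LdB_two R D (fun e => maxErr y e) (fun e => maxErr_nonneg y e)).trans ?_
    refine mul_le_mul (hH D hDx) ?_ (mul_nonneg (LdB_harm0 R) hM0) (by positivity)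
    exact mul_le_mul_of_nonneg_right (hH R hRx) hM0
  have hB : ∑ d ∈ Icc 1 D, (1 / (d : ℝ)) * ∑ r ∈ d.divisors, (if R < r then LpG r else 0) ≤
      (2 * L) * ((3 * L) * (1 / (R : ℝ))) := by
    refine (LdB_swap D (fun r => if R < r then LpG r else 0) hind).trans ?_
    have h0 : 0 ≤ ∑ r ∈ Icc 1 D, (if R < r then LpG r else 0) / (r : ℝ) :=
      Finset.sum_nonneg fun r _ => div_nonneg (hind r) (by positivity)
    refine mul_le_mul (hH D hDx) ?_ h0 (by positivity)
    have h1 : ∑ r ∈ Icc 1 D, (if R < r then LpG r else 0) / (r : ℝ) ≤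
        ∑ r ∈ (Icc 1 D).filter (fun r => R < r), (3 * L) * (1 / (r : ℝ) ^ 2) := by
      rw [Finset.sum_filter]
      refine Finset.sum_le_sum fun r hr => ?_
      rw [mem_Icc] at hr
      split_ifs with h
      · have hr0 : (0 : ℝ) < r := by exact_mod_cast hr.1
        have hphi : (0 : ℝ) < r.totient := by exact_mod_cast Nat.totient_pos.2 hr.1
        have h3 := le_totient r
        have h4 := card_primeFactors_le hr.1
        have h5 : Real.log r ≤ L := Real.log_le_log hr0 (le_trans (by exact_mod_cast hr.2) hDx)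
        have h6 : (r : ℝ) ≤ 3 * L * r.totient :=
          h3.trans (mul_le_mul_of_nonneg_right (by linarith) hphi.le)
        have h7 : LpG r ≤ 3 * L * (1 / (r : ℝ)) := by
          refine (LpG_le r).trans ?_
          rw [mul_one_div, div_le_div_iff₀ hphi hr0]
          linarith
        calc LpG r / (r : ℝ) ≤ 3 * L * (1 / (r : ℝ)) / (r : ℝ) :=
              div_le_div_of_nonneg_right h7 hr0.le
          _ = _ := by ring
      · simp
    refine h1.trans ?_
    rw [← Finset.mul_sum]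
    exact mul_le_mul_of_nonneg_left (Lp_tail R D hR) (by positivity)
  refine hstep1.trans ?_
  rw [Finset.sum_add_distrib, ← Finset.mul_sum]
  have hB2 : li y * ∑ d ∈ Icc 1 D, (1 / (d : ℝ)) * ∑ r ∈ d.divisors, (if R < r then LpG r else 0) ≤
      (2 * y) * ((2 * L) * ((3 * L) * (1 / (R : ℝ)))) := by
    have h0 : 0 ≤ (2 * L) * ((3 * L) * (1 / (R : ℝ))) := by positivity
    exact (mul_le_mul_of_nonneg_left hB hli).trans (mul_le_mul_of_nonneg_right hli2 h0)
  have hLL : L ^ 2 ≤ L ^ 3 := by nlinarith [sq_nonneg L]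
  have hyR : 0 ≤ y / R := by positivity
  calc ∑ d ∈ Icc 1 D, (1 / (d : ℝ)) * ∑ r ∈ d.divisors.filter (fun r => r ≤ R), ∑ e ∈ r.divisors,
        (e : ℝ) * maxErr y e +
        li y * ∑ d ∈ Icc 1 D, (1 / (d : ℝ)) * ∑ r ∈ d.divisors, (if R < r then LpG r else 0) ≤
      (2 * L) * ((2 * L) * ∑ e ∈ Icc 1 R, maxErr y e) + (2 * y) * ((2 * L) * ((3 * L) * (1 / (R : ℝ)))) :=
        add_le_add hA hB2
    _ = L ^ 2 * (4 * ∑ e ∈ Icc 1 R, maxErr y e + 12 * (y / R)) := by ring
    _ ≤ L ^ 2 * (12 * ∑ e ∈ Icc 1 R, maxErr y e + 12 * (y / R)) := by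
        refine mul_le_mul_of_nonneg_left ?_ (sq_nonneg L)
        linarith
    _ ≤ L ^ 3 * (12 * ∑ e ∈ Icc 1 R, maxErr y e + 12 * (y / R)) :=
        mul_le_mul_of_nonneg_right hLL (by positivity)
    _ = _ := by ring

/-- (LP) -/
theorem tLp : LpStmt := by
  obtain ⟨C, hC⟩ := tLpGen
  exact ⟨C, fun x R D a hx hR hRx hDx => hC x x R D a hx (by linarith) hR hRx hDx⟩

end Pool.Agent.Lib.TB
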