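import Pool.Agent.Lib.TB.StmS
import Pool.Agent.Lib.TB.Lp

/-!
MP_00e23e_nt, directory Lib/TB: the sums over primes (LP') with a residue which depends on the modulus.
-/

namespace Pool.Agent.Lib.TB

open Finset Pool.Agent.Lib.EH3 Pool.Agent.Lib.EH Pool.Agent.Results.MP_00e23e_nt

/-- (LP') -/
theorem tLpS : LpSStmt := by
  refine ⟨12, fun x y R D s hx hy hR hRx hDx => ?_⟩
  have hL1 : 1 ≤ Real.log x := by
    rw [Real.le_log_iff_exp_le (by linarith)]
    have := Real.exp_one_lt_d9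
    linarith
  set L := Real.log x with hL
  have hH : ∀ D : ℕ, (D : ℝ) ≤ x → ∑ k ∈ Icc 1 D, 1 / (k : ℝ) ≤ 2 * L := by
    intro D hDx
    refine (LdB_harm D).trans ?_
    rcases Nat.eq_zero_or_pos D with h | h
    · subst h
      simp
      linarith
    · have : Real.log D ≤ L := Real.log_le_log (by exact_mod_cast h) hDx
      linarith
  have hli := li_nonneg hy
  have hli2 := li_le hy
  have hR0 : (0 : ℝ) < R := by exact_mod_cast hR
  have hM0 : 0 ≤ ∑ e ∈ Icc 1 R, maxErr y e := Finset.sum_nonneg fun e _ => maxErr_nonneg y e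
  have hind : ∀ r : ℕ, 0 ≤ if R < r then LpG r else 0 := fun r => by
    split_ifs
    · exact LpG_nonneg r
    · exact le_rfl
  have hstep1 : ∑ d ∈ (Icc 1 D).filter (fun d : ℕ => IsCoprime (d : ℤ) (s d)),
      |∑ p ∈ (Icc 1 ⌊y⌋₊).filter Nat.Prime, ld R d ((p : ℤ) - s d) - li y / (d.totient : ℝ)| ≤
      ∑ d ∈ Icc 1 D, ((1 / (d : ℝ)) * ∑ r ∈ d.divisors.filter (fun r => r ≤ R), ∑ e ∈ r.divisors,
        (e : ℝ) * maxErr y e + li y * ((1 / (d : ℝ)) * ∑ r ∈ d.divisors, if R < r then LpG r else 0)) := by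
    refine (Finset.sum_le_sum fun d hd => ?_).trans
      (Finset.sum_le_sum_of_subset_of_nonneg (Finset.filter_subset _ _) fun d _ _ => ?_)
    · rw [mem_filter, mem_Icc] at hd
      exact Lp_one y R d (s d) hd.1.1 hy hd.2
    · refine add_nonneg (mul_nonneg (by positivity) (Finset.sum_nonneg fun r _ =>
        Finset.sum_nonneg fun e _ => mul_nonneg (by positivity) (maxErr_nonneg y e))) ?_
      exact mul_nonneg hli (mul_nonneg (by positivity) (Finset.sum_nonneg fun r _ => hind r))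
  have hA : ∑ d ∈ Icc 1 D, (1 / (d : ℝ)) * ∑ r ∈ d.divisors.filter (fun r => r ≤ R), ∑ e ∈ r.divisors,
        (e : ℝ) * maxErr y e ≤ (2 * L) * ((2 * L) * ∑ e ∈ Icc 1 R, maxErr y e) := by
    refine (LdB_two R D (fun e => maxErr y e) (fun e => maxErr_nonneg y e)).trans ?_
    refine mul_le_mul (hH D hDx) ?_ (mul_nonneg (LdB_harm0 R) hM0) (by positivity)
    exact mul_le_mul_of_nonneg_right (hH R hRx) hM0
  have hB : ∑ d ∈ Icc 1 D, (1 / (d : ℝ)) * ∑ r ∈ d.divisors, (if R < r then LpG r else 0) ≤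
      (2 * L) * ((3 * L) * (1 / (R : ℝ))) := by
    refine (LdB_swap D (fun r => if R < r then LpG r else 0) hind).trans ?_
    have h0 : 0 ≤ ∑ r ∈ Icc 1 D, (if R < r then LpG r else 0) / (r : ℝ) :=
      Finset.sum_nonneg fun r _ => div_nonneg (hind r) (by positivity)
    refine mul_le_mul (hH D hDx) ?_ h0 (by positivity)
    have h1 : ∑ r ∈ Icc 1 D, (if R < r then LpG r else 0) / (r : ℝ) ≤
        ∑ r ∈ (Icc 1 D).filter (fun r => R < r), (3 * L) * (1 / (r : ℝ) ^ 2) := by
      rw [Finset.sum_filter]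
      refine Finset.sum_le_sum fun r hr => ?_
      rw [mem_Icc] at hr
      split_ifs with h
      · have hr0 : (0 : ℝ) < r := by exact_mod_cast hr.1
        have hphi : (0 : ℝ) < r.totient := by exact_mod_cast Nat.totient_pos.2 hr.1
        have h3 := le_totient r
        have h4 := card_primeFactors_le hr.1
        have h5 : Real.log r ≤ L := Real.log_le_log hr0 (le_trans (by exact_mod_cast hr.2) hDx)
        have h6 : (r : ℝ) ≤ 3 * L * r.totient :=
          h3.trans (mul_le_mul_of_nonneg_right (by linarith) hphi.le)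
        have h7 : LpG r ≤ 3 * L * (1 / (r : ℝ)) := by
          refine (LpG_le r).trans ?_
          rw [mul_one_div, div_le_div_iff₀ hphi hr0]
          linarith
        calc LpG r / (r : ℝ) ≤ 3 * L * (1 / (r : ℝ)) / (r : ℝ) :=
              div_le_div_of_nonneg_right h7 hr0.le
          _ = _ := by ring
      · simp
    refine h1.trans ?_
    rw [← Finset.mul_sum]
    exact mul_le_mul_of_nonneg_left (Lp_tail R D hR) (by positivity)
  refine hstep1.trans ?_
  rw [Finset.sum_add_distrib, ← Finset.mul_sum]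
  have hB2 : li y * ∑ d ∈ Icc 1 D, (1 / (d : ℝ)) * ∑ r ∈ d.divisors, (if R < r then LpG r else 0) ≤
      (2 * y) * ((2 * L) * ((3 * L) * (1 / (R : ℝ)))) := by
    have h0 : 0 ≤ (2 * L) * ((3 * L) * (1 / (R : ℝ))) := by positivity
    exact (mul_le_mul_of_nonneg_left hB hli).trans (mul_le_mul_of_nonneg_right hli2 h0)
  have hLL : L ^ 2 ≤ L ^ 3 := by nlinarith [sq_nonneg L]
  have hyR : 0 ≤ y / R := by positivity
  calc ∑ d ∈ Icc 1 D, (1 / (d : ℝ)) * ∑ r ∈ d.divisors.filter (fun r => r ≤ R), ∑ e ∈ r.divisors,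
        (e : ℝ) * maxErr y e +
        li y * ∑ d ∈ Icc 1 D, (1 / (d : ℝ)) * ∑ r ∈ d.divisors, (if R < r then LpG r else 0) ≤
      (2 * L) * ((2 * L) * ∑ e ∈ Icc 1 R, maxErr y e) + (2 * y) * ((2 * L) * ((3 * L) * (1 / (R : ℝ)))) :=
        add_le_add hA hB2
    _ = L ^ 2 * (4 * ∑ e ∈ Icc 1 R, maxErr y e + 12 * (y / R)) := by ring
    _ ≤ L ^ 2 * (12 * ∑ e ∈ Icc 1 R, maxErr y e + 12 * (y / R)) := by
        refine mul_le_mul_of_nonneg_left ?_ (sq_nonneg L)
        linarith
    _ ≤ L ^ 3 * (12 * ∑ e ∈ Icc 1 R, maxErr y e + 12 * (y / R)) :=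
        mul_le_mul_of_nonneg_right hLL (by positivity)
    _ = _ := by ring

end Pool.Agent.Lib.TB
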