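import Pool.Agent.Lib.TB.FinK
import Pool.Agent.Lib.TB.AllM
import Pool.Agent.Lib.TB.DiaK
import Pool.Agent.Lib.TB.LpS
import Pool.Agent.Lib.BV.All

/-!
# TB: theorem T#, without hypotheses
-/

namespace Pool.Agent.Lib.TB

/-- **T#**. -/
theorem tTK : TKStmt := tTK_of tOff tDiaK tLpS Pool.Agent.Lib.BV.aExt

end Pool.Agent.Lib.TB
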