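import Mathlib

/-!
# TB: asymptotic inequalities
-/

namespace Pool.Agent.Lib.TB

open Filter

/-- `c x^θ (log x)^k ≤ x` for large `x`, if `θ < 1`. -/
theorem Asy_pow (c k θ : ℝ) (hθ : θ < 1) : ∀ᶠ x : ℝ in atTop, c * x ^ θ * (Real.log x) ^ k ≤ x := by
  have h1 := (isLittleO_log_rpow_rpow_atTop k (sub_pos.2 hθ)).bound
    (show (0 : ℝ) < 1 / (|c| + 1) by positivity)
  filter_upwards [h1, eventually_gt_atTop (1 : ℝ)] with x h2 hx
  have hx0 : 0 < x := by linarith
  have hlog : 0 < Real.log x := Real.log_pos hx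
  have h3 : 0 ≤ (Real.log x) ^ k := Real.rpow_nonneg hlog.le k
  have h4 : 0 ≤ x ^ (1 - θ) := Real.rpow_nonneg hx0.le _
  rw [Real.norm_of_nonneg h3, Real.norm_of_nonneg h4] at h2
  have h5 : 0 ≤ x ^ θ := Real.rpow_nonneg hx0.le _
  have h6 : (|c| + 1) * (Real.log x) ^ k ≤ x ^ (1 - θ) := by
    rw [one_div, inv_mul_eq_div, le_div_iff₀ (by positivity)] at h2
    linarith
  calc c * x ^ θ * (Real.log x) ^ k ≤ (|c| + 1) * x ^ θ * (Real.log x) ^ k := by
        apply mul_le_mul_of_nonneg_right _ h3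
        apply mul_le_mul_of_nonneg_right _ h5
        linarith [le_abs_self c]
    _ = x ^ θ * ((|c| + 1) * (Real.log x) ^ k) := by ring
    _ ≤ x ^ θ * x ^ (1 - θ) := mul_le_mul_of_nonneg_left h6 h5
    _ = x := by rw [← Real.rpow_add hx0]; simp

/-- The same with a power of `log x` in the denominator. -/
theorem Asy_div (c k U θ : ℝ) (hθ : θ < 1) :
    ∀ᶠ x : ℝ in atTop, c * x ^ θ * (Real.log x) ^ k ≤ x / (Real.log x) ^ U := by
  filter_upwards [Asy_pow c (k + U) θ hθ, eventually_gt_atTop (1 : ℝ)] with x h1 hx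
  have hlog : 0 < Real.log x := Real.log_pos hx
  rw [le_div_iff₀ (Real.rpow_pos_of_pos hlog U)]
  rw [Real.rpow_add hlog] at h1
  linarith

end Pool.Agent.Lib.TB
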