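import Pool.Agent.Lib.TB.Cnt
import Pool.Agent.Lib.TB.Asy
import Pool.Agent.Lib.BV.SpecE

/-!
# TB: assembly at one point `y`
-/

namespace Pool.Agent.Lib.TB

open Finset Filter Pool.Agent.Results.MP_00e23e_nt

/-- the number of primes p ≤ y with p ≡ a mod d, for an integer a -/
noncomputable def pcz (y : ℝ) (d : ℕ) (a : ℤ) : ℕ :=
  ((Icc 1 ⌊y⌋₊).filter (fun p : ℕ => p.Prime ∧ (p : ℤ) ≡ a [ZMOD d])).card

/-- `pcz` as a sum over primes. -/
theorem Asm_pcz (R : ℕ) (y : ℝ) (d : ℕ) (a : ℤ) :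
    (pcz y d a : ℝ) = ∑ p ∈ (Icc 1 ⌊y⌋₊).filter Nat.Prime, (dd R d ((p : ℤ) - a) + ld R d ((p : ℤ) - a)) := by
  classical
  unfold pcz dd
  rw [← Finset.filter_filter, Finset.card_filter]
  push_cast
  apply Finset.sum_congr rfl
  intro p _
  have h : ((p : ℤ) ≡ a [ZMOD d]) ↔ ((d : ℤ) ∣ (p : ℤ) - a) := by
    rw [Int.modEq_comm, Int.modEq_iff_dvd]
  by_cases h1 : (d : ℤ) ∣ (p : ℤ) - a
  · rw [if_pos (h.2 h1), if_pos h1]
    ring
  · rw [if_neg (fun h2 => h1 (h.1 h2)), if_neg h1]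
    ring

/-- The sum of `dd` over the primes, including a possible term `p = a`. -/
theorem Asm_gg (R d : ℕ) (hd : 0 < d) (P : Finset ℕ) (a : ℤ) :
    |∑ p ∈ P, dd R d ((p : ℤ) - a)| ≤ |gg R P a d| + 1 := by
  classical
  have h1 : ∑ p ∈ P, dd R d ((p : ℤ) - a) = gg R P a d +
      ∑ p ∈ P.filter (fun p : ℕ => (p : ℤ) - a = 0), dd R d ((p : ℤ) - a) := by
    unfold gg
    rw [Finset.sum_filter, ← Finset.sum_add_distrib]
    apply Finset.sum_congr rfl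
    intro p _
    split_ifs <;> ring
  rw [h1]
  refine (abs_add_le _ _).trans (add_le_add_right ?_ _)
  have h2 : (P.filter (fun p : ℕ => (p : ℤ) - a = 0)).card ≤ 1 := by
    rw [Finset.card_le_one]
    intro p hp q hq
    rw [Finset.mem_filter] at hp hq
    omega
  calc |∑ p ∈ P.filter (fun p : ℕ => (p : ℤ) - a = 0), dd R d ((p : ℤ) - a)|
      ≤ ∑ p ∈ P.filter (fun p : ℕ => (p : ℤ) - a = 0), |dd R d ((p : ℤ) - a)| :=
        Finset.abs_sum_le_sum_abs _ _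
    _ ≤ ∑ p ∈ P.filter (fun p : ℕ => (p : ℤ) - a = 0), (1 : ℝ) := by
        apply Finset.sum_le_sum
        intro p hp
        rw [(Finset.mem_filter.1 hp).2]
        exact Hf_dd_at_zero R d hd
    _ ≤ 1 := by
        rw [Finset.sum_const, nsmul_eq_mul, mul_one]
        exact_mod_cast h2

/-- The error of one modulus. -/
theorem Asm_one (R d : ℕ) (hd : 0 < d) (y : ℝ) (a : ℤ) :
    |(pcz y d a : ℝ) - li y / (d.totient : ℝ)| ≤ |gg R ((Icc 1 ⌊y⌋₊).filter Nat.Prime) a d| + 1 +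
      |∑ p ∈ (Icc 1 ⌊y⌋₊).filter Nat.Prime, ld R d ((p : ℤ) - a) - li y / (d.totient : ℝ)| := by
  rw [Asm_pcz R y d a, Finset.sum_add_distrib]
  have h1 := Asm_gg R d hd ((Icc 1 ⌊y⌋₊).filter Nat.Prime) a
  calc |∑ p ∈ (Icc 1 ⌊y⌋₊).filter Nat.Prime, dd R d ((p : ℤ) - a) +
        ∑ p ∈ (Icc 1 ⌊y⌋₊).filter Nat.Prime, ld R d ((p : ℤ) - a) - li y / (d.totient : ℝ)|
      = |∑ p ∈ (Icc 1 ⌊y⌋₊).filter Nat.Prime, dd R d ((p : ℤ) - a) +
        (∑ p ∈ (Icc 1 ⌊y⌋₊).filter Nat.Prime, ld R d ((p : ℤ) - a) - li y / (d.totient : ℝ))| := by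
        congr 1; ring
    _ ≤ _ := (abs_add_le _ _).trans (add_le_add_left h1 _)

/-- The error of all moduli `d ≤ D`. -/
theorem Asm_all (R D : ℕ) (y : ℝ) (a : ℤ) :
    ∑ d ∈ (Icc 1 D).filter (fun d : ℕ => IsCoprime (d : ℤ) a), |(pcz y d a : ℝ) - li y / (d.totient : ℝ)| ≤
      ∑ d ∈ (Icc 1 D).filter (fun d : ℕ => IsCoprime (d : ℤ) a),
        |gg R ((Icc 1 ⌊y⌋₊).filter Nat.Prime) a d| + D +
      ∑ d ∈ (Icc 1 D).filter (fun d : ℕ => IsCoprime (d : ℤ) a),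
        |∑ p ∈ (Icc 1 ⌊y⌋₊).filter Nat.Prime, ld R d ((p : ℤ) - a) - li y / (d.totient : ℝ)| := by
  classical
  have h1 : ∑ d ∈ (Icc 1 D).filter (fun d : ℕ => IsCoprime (d : ℤ) a),
      |(pcz y d a : ℝ) - li y / (d.totient : ℝ)| ≤
      ∑ d ∈ (Icc 1 D).filter (fun d : ℕ => IsCoprime (d : ℤ) a),
        (|gg R ((Icc 1 ⌊y⌋₊).filter Nat.Prime) a d| + 1 +
        |∑ p ∈ (Icc 1 ⌊y⌋₊).filter Nat.Prime, ld R d ((p : ℤ) - a) - li y / (d.totient : ℝ)|) := by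
    apply Finset.sum_le_sum
    intro d hd
    rw [Finset.mem_filter, Finset.mem_Icc] at hd
    exact Asm_one R d hd.1.1 y a
  refine h1.trans ?_
  rw [Finset.sum_add_distrib, Finset.sum_add_distrib]
  apply add_le_add_left
  apply add_le_add_right
  rw [Finset.sum_const, nsmul_eq_mul, mul_one]
  have h2 : ((Icc 1 D).filter (fun d : ℕ => IsCoprime (d : ℤ) a)).card ≤ D := by
    refine (Finset.card_filter_le _ _).trans ?_
    rw [Nat.card_Icc]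
    omega
  exact_mod_cast h2

end Pool.Agent.Lib.TB
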