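import Pool.Agent.Lib.TB.Asm

/-!
# TB: assembly at one point `y`: the parameters
-/

namespace Pool.Agent.Lib.TB

open Finset Filter Pool.Agent.Results.MP_00e23e_nt

/-- The number `N = 2 ⌈x⌉` and its relatives, for `x ≥ 16`. -/
theorem Asn_N {x : ℝ} (hx : 16 ≤ x) :
    x ≤ ((2 * ⌈x⌉₊ : ℕ) : ℝ) ∧ ((2 * ⌈x⌉₊ : ℕ) : ℝ) ≤ 4 * x ∧ 2 * ⌊x⌋₊ ≤ 2 * ⌈x⌉₊ ∧ 2 ≤ 2 * ⌈x⌉₊ := by
  have h1 : x ≤ (⌈x⌉₊ : ℝ) := Nat.le_ceil x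
  have h2 : (⌈x⌉₊ : ℝ) < x + 1 := Nat.ceil_lt_add_one (by linarith)
  refine ⟨?_, ?_, ?_, ?_⟩
  · push_cast; linarith
  · push_cast; linarith
  · have := Nat.floor_le_ceil x
    omega
  · have : 0 < ⌈x⌉₊ := Nat.ceil_pos.2 (by linarith)
    omega

theorem Asn_log {x : ℝ} (hx : 16 ≤ x) : Real.log ((2 * ⌈x⌉₊ : ℕ) : ℝ) ≤ 2 * Real.log x := by
  obtain ⟨h1, h2, -, -⟩ := Asn_N hx
  have hx0 : 0 < x := by linarith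
  calc Real.log ((2 * ⌈x⌉₊ : ℕ) : ℝ) ≤ Real.log (x ^ 2) := by
        apply Real.log_le_log (by linarith)
        nlinarith
    _ = 2 * Real.log x := by rw [Real.log_pow]; push_cast; ring

/-- `RR N` is about `x ^ (498/1000)`. -/
theorem Asn_RR {x : ℝ} (hx : 16 ≤ x) :
    1 ≤ RR (2 * ⌈x⌉₊) ∧ (RR (2 * ⌈x⌉₊) : ℝ) ≤ 4 * x ^ ((498 : ℝ) / 1000) ∧
      x ^ ((498 : ℝ) / 1000) ≤ 2 * (RR (2 * ⌈x⌉₊) : ℝ) := by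
  obtain ⟨h1, h2, -, -⟩ := Asn_N hx
  have hx0 : 0 < x := by linarith
  have he : (1 : ℝ) / 2 - 1 / 500 = 498 / 1000 := by norm_num
  have h3 : x ^ ((498 : ℝ) / 1000) ≤ ((2 * ⌈x⌉₊ : ℕ) : ℝ) ^ ((498 : ℝ) / 1000) :=
    Real.rpow_le_rpow hx0.le h1 (by norm_num)
  have h4 : ((2 * ⌈x⌉₊ : ℕ) : ℝ) ^ ((498 : ℝ) / 1000) ≤ 4 * x ^ ((498 : ℝ) / 1000) := by
    calc ((2 * ⌈x⌉₊ : ℕ) : ℝ) ^ ((498 : ℝ) / 1000) ≤ (4 * x) ^ ((498 : ℝ) / 1000) :=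
          Real.rpow_le_rpow (by positivity) h2 (by norm_num)
      _ = 4 ^ ((498 : ℝ) / 1000) * x ^ ((498 : ℝ) / 1000) := Real.mul_rpow (by norm_num) hx0.le
      _ ≤ 4 * x ^ ((498 : ℝ) / 1000) := by
          apply mul_le_mul_of_nonneg_right _ (Real.rpow_nonneg hx0.le _)
          calc (4 : ℝ) ^ ((498 : ℝ) / 1000) ≤ 4 ^ (1 : ℝ) :=
                Real.rpow_le_rpow_of_exponent_le (by norm_num) (by norm_num)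
            _ = 4 := Real.rpow_one 4
  have h5 : (1 : ℝ) ≤ x ^ ((498 : ℝ) / 1000) := Real.one_le_rpow (by linarith) (by norm_num)
  have h6 : (RR (2 * ⌈x⌉₊) : ℝ) ≤ ((2 * ⌈x⌉₊ : ℕ) : ℝ) ^ ((498 : ℝ) / 1000) := by
    unfold RR
    rw [he]
    exact Nat.floor_le (by positivity)
  have h7 : ((2 * ⌈x⌉₊ : ℕ) : ℝ) ^ ((498 : ℝ) / 1000) < (RR (2 * ⌈x⌉₊) : ℝ) + 1 := by
    unfold RR
    rw [he]
    exact Nat.lt_floor_add_one _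
  have h8 : 1 ≤ RR (2 * ⌈x⌉₊) := by
    unfold RR
    rw [he, Nat.one_le_floor_iff]
    linarith
  have h9 : (1 : ℝ) ≤ (RR (2 * ⌈x⌉₊) : ℝ) := by exact_mod_cast h8
  exact ⟨h8, h6.trans h4, by linarith⟩

/-- The number of dyadic blocks. -/
theorem Asn_J {x : ℝ} (hx : 16 ≤ x) :
    1 ≤ Nat.clog 2 (2 * ⌈x⌉₊) ∧ (Nat.clog 2 (2 * ⌈x⌉₊) : ℝ) ≤ 5 * Real.log x := by
  obtain ⟨h1, h2, -, -⟩ := Asn_N hx
  have hx0 : 0 < x := by linarith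
  have hN : 1 < 2 * ⌈x⌉₊ := by
    have : (1 : ℝ) < ((2 * ⌈x⌉₊ : ℕ) : ℝ) := by linarith
    exact_mod_cast this
  have h3 : 0 < Nat.clog 2 (2 * ⌈x⌉₊) := Nat.clog_pos (by norm_num) (by omega)
  refine ⟨h3, ?_⟩
  have h4 := Nat.pow_pred_clog_lt_self (b := 2) (by norm_num) hN
  obtain ⟨J, hJ⟩ : ∃ J, Nat.clog 2 (2 * ⌈x⌉₊) = J + 1 := ⟨Nat.clog 2 (2 * ⌈x⌉₊) - 1, by omega⟩
  rw [hJ] at h4 ⊢
  rw [Nat.pred_succ] at h4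
  have h5 : ((2 : ℝ)) ^ J ≤ ((2 * ⌈x⌉₊ : ℕ) : ℝ) := by exact_mod_cast h4.le
  have h6 : (J : ℝ) * Real.log 2 ≤ 2 * Real.log x := by
    rw [← Real.log_pow]
    exact (Real.log_le_log (by positivity) h5).trans (Asn_log hx)
  have h7 : (0.6931471803 : ℝ) < Real.log 2 := Real.log_two_gt_d9
  have h8 : 1 ≤ Real.log x := by
    rw [Real.le_log_iff_exp_le hx0]
    have := Real.exp_one_lt_d9
    linarith
  have h9 : (0 : ℝ) ≤ J := Nat.cast_nonneg _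
  push_cast
  nlinarith

end Pool.Agent.Lib.TB
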