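import Pool.Agent.Lib.TB.Asn

/-!
# TB: assembly at one point `y`, large `x`
-/

namespace Pool.Agent.Lib.TB

open Finset Filter Pool.Agent.Results.MP_00e23e_nt

/-- The bound of the bad sets: from the inequality of `Cnt_count` for large `x`. -/
theorem Asp_card {C₁ C₂ η U x V J k P N lN : ℝ} (hC₁ : 0 ≤ C₁) (hC₂ : 0 ≤ C₂) (hx : 16 ≤ x)
    (hlog : 1 ≤ Real.log x) (hk : 0 ≤ k)
    (hP0 : 0 ≤ P) (hP : P ≤ x) (hN : N ≤ 4 * x) (hN0 : 0 ≤ N) (hη0 : 0 ≤ 1 - η) (hη1 : 0 ≤ η)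
    (hlN0 : 0 ≤ lN) (hlN : lN ≤ 2 * Real.log x) (hJ1 : 1 ≤ J) (hJ : J ≤ 5 * Real.log x)
    (hV : V = x / (Real.log x) ^ U)
    (hbig : 1600 * C₁ * x ^ (1 - η) * (Real.log x) ^ (2 * U + 2) ≤ x)
    (h : k * (V / J) ^ 2 ≤ 2 * P * (C₂ * N * lN ^ 7 + k * (C₁ * N ^ (1 - η)))) :
    k ≤ 51200 * C₂ * (Real.log x) ^ (2 * U + 9) := by
  have hx0 : 0 < x := by linarith
  obtain ⟨L, hL⟩ : ∃ L, Real.log x = L := ⟨_, rfl⟩
  rw [hL] at hlog hlN hJ hV hbig ⊢
  have hL0 : 0 < L := by linarith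
  have hLU : 0 < L ^ U := Real.rpow_pos_of_pos hL0 U
  -- lower bound of the left side
  have h1 : x ^ 2 / (25 * L ^ (2 * U + 2)) ≤ (V / J) ^ 2 := by
    have e1 : L ^ (2 * U + 2) = (L ^ U) ^ 2 * L ^ 2 := by
      rw [Real.rpow_add hL0, mul_comm 2 U, Real.rpow_mul hL0.le]
      norm_cast
    rw [e1, hV]
    have e2 : x ^ 2 / (25 * ((L ^ U) ^ 2 * L ^ 2)) = (x / L ^ U / (5 * L)) ^ 2 := by
      field_simp
      ring
    rw [e2]
    apply pow_le_pow_left₀ (by positivity)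
    exact div_le_div_of_nonneg_left (by positivity) (by linarith) hJ
  -- upper bound of the right side
  have h2 : N ^ (1 - η) ≤ 4 * x ^ (1 - η) := by
    calc N ^ (1 - η) ≤ (4 * x) ^ (1 - η) := Real.rpow_le_rpow hN0 hN hη0
      _ = 4 ^ (1 - η) * x ^ (1 - η) := Real.mul_rpow (by norm_num) hx0.le
      _ ≤ 4 * x ^ (1 - η) := by
          apply mul_le_mul_of_nonneg_right _ (Real.rpow_nonneg hx0.le _)
          calc (4 : ℝ) ^ (1 - η) ≤ 4 ^ (1 : ℝ) :=
                Real.rpow_le_rpow_of_exponent_le (by norm_num) (by linarith)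
            _ = 4 := Real.rpow_one 4
  have h3 : lN ^ 7 ≤ 128 * L ^ 7 := by
    calc lN ^ 7 ≤ (2 * L) ^ 7 := pow_le_pow_left₀ hlN0 hlN 7
      _ = 128 * L ^ 7 := by ring
  have h4 : 0 ≤ C₂ * N * lN ^ 7 + k * (C₁ * N ^ (1 - η)) := by positivity
  have h5 : k * (x ^ 2 / (25 * L ^ (2 * U + 2))) ≤
      2 * x * (C₂ * (4 * x) * (128 * L ^ 7) + k * (C₁ * (4 * x ^ (1 - η)))) := by
    calc k * (x ^ 2 / (25 * L ^ (2 * U + 2))) ≤ k * (V / J) ^ 2 := mul_le_mul_of_nonneg_left h1 hk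
      _ ≤ 2 * P * (C₂ * N * lN ^ 7 + k * (C₁ * N ^ (1 - η))) := h
      _ ≤ 2 * x * (C₂ * N * lN ^ 7 + k * (C₁ * N ^ (1 - η))) := by
          apply mul_le_mul_of_nonneg_right _ h4
          linarith
      _ ≤ _ := by
          apply mul_le_mul_of_nonneg_left _ (by linarith)
          apply add_le_add
          · apply mul_le_mul _ h3 (by positivity) (by positivity)
            exact mul_le_mul_of_nonneg_left hN hC₂
          · apply mul_le_mul_of_nonneg_left _ hk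
            exact mul_le_mul_of_nonneg_left h2 hC₁
  -- the second term is at most half of the left side
  have hLp : 0 < L ^ (2 * U + 2) := Real.rpow_pos_of_pos hL0 _
  have h6 : 8 * x * (C₁ * x ^ (1 - η)) ≤ x ^ 2 / (200 * L ^ (2 * U + 2)) := by
    rw [le_div_iff₀ (by positivity)]
    nlinarith [hbig]
  have h7 : k * (x ^ 2 / (50 * L ^ (2 * U + 2))) ≤ 1024 * C₂ * x ^ 2 * L ^ 7 := by
    have e3 : x ^ 2 / (25 * L ^ (2 * U + 2)) =
        x ^ 2 / (50 * L ^ (2 * U + 2)) + x ^ 2 / (50 * L ^ (2 * U + 2)) := by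
      field_simp
      ring
    have e4 : x ^ 2 / (200 * L ^ (2 * U + 2)) ≤ x ^ 2 / (50 * L ^ (2 * U + 2)) := by
      apply div_le_div_of_nonneg_left (by positivity) (by positivity)
      linarith
    have e5 : k * (8 * x * (C₁ * x ^ (1 - η))) ≤ k * (x ^ 2 / (50 * L ^ (2 * U + 2))) :=
      mul_le_mul_of_nonneg_left (h6.trans e4) hk
    rw [e3, mul_add] at h5
    nlinarith [h5, e5]
  have h8 : k * (x ^ 2 / (50 * L ^ (2 * U + 2))) = k / (50 * L ^ (2 * U + 2)) * x ^ 2 := by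
    field_simp
  rw [h8] at h7
  have h9 : k / (50 * L ^ (2 * U + 2)) ≤ 1024 * C₂ * L ^ 7 := by
    have : k / (50 * L ^ (2 * U + 2)) * x ^ 2 ≤ (1024 * C₂ * L ^ 7) * x ^ 2 := by linarith
    exact le_of_mul_le_mul_right this (by positivity)
  rw [div_le_iff₀ (by positivity)] at h9
  have h10 : L ^ (2 * U + 9) = L ^ (2 * U + 2) * L ^ 7 := by
    rw [show 2 * U + 9 = (2 * U + 2) + 7 by ring, Real.rpow_add hL0]
    norm_cast
  rw [h10]
  linarith

/-- The terms of the Bombieri-Vinogradov bound. -/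
theorem Asp_bv {x R : ℝ} (hx : 16 ≤ x) (hlog : 1 ≤ Real.log x) (hR1 : 1 ≤ R)
    (hR : R ≤ 4 * x ^ ((498 : ℝ) / 1000)) :
    Real.sqrt x * R * (Real.log (16 + Real.sqrt x / (R * Real.log x)) *
      Real.log (Real.log (16 + Real.sqrt x / (R * Real.log x)))) ≤
      16 * x ^ ((998 : ℝ) / 1000) * (Real.log x) ^ 2 := by
  have hx0 : 0 < x := by linarith
  have hs : Real.sqrt x ≤ x := by
    rw [Real.sqrt_le_left hx0.le]
    nlinarith
  have hs0 : 0 ≤ Real.sqrt x := Real.sqrt_nonneg x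
  have hRL : 1 ≤ R * Real.log x := by nlinarith
  have h1 : Real.sqrt x / (R * Real.log x) ≤ x := (div_le_self hs0 hRL).trans hs
  have h1' : 0 ≤ Real.sqrt x / (R * Real.log x) := by positivity
  obtain ⟨K, hK⟩ : ∃ K, K = 16 + Real.sqrt x / (R * Real.log x) := ⟨_, rfl⟩
  rw [← hK]
  have hK16 : 16 ≤ K := by rw [hK]; linarith
  have hK2 : K ≤ x ^ 2 := by rw [hK]; nlinarith
  have h2 : Real.log K ≤ 2 * Real.log x := by
    calc Real.log K ≤ Real.log (x ^ 2) := Real.log_le_log (by linarith) hK2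
      _ = 2 * Real.log x := by rw [Real.log_pow]; push_cast; ring
  have h3 : 1 ≤ Real.log K := by
    rw [Real.le_log_iff_exp_le (by linarith)]
    have := Real.exp_one_lt_d9
    linarith
  have h4 : Real.log (Real.log K) ≤ 2 * Real.log x := by
    have := Real.log_le_sub_one_of_pos (show 0 < Real.log K by linarith)
    linarith
  have h5 : 0 ≤ Real.log (Real.log K) := Real.log_nonneg h3
  have h6 : Real.log K * Real.log (Real.log K) ≤ 4 * (Real.log x) ^ 2 := by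
    calc Real.log K * Real.log (Real.log K) ≤ (2 * Real.log x) * (2 * Real.log x) :=
          mul_le_mul h2 h4 h5 (by linarith)
      _ = 4 * (Real.log x) ^ 2 := by ring
  have h7 : Real.sqrt x * R ≤ 4 * x ^ ((998 : ℝ) / 1000) := by
    calc Real.sqrt x * R ≤ Real.sqrt x * (4 * x ^ ((498 : ℝ) / 1000)) :=
          mul_le_mul_of_nonneg_left hR hs0
      _ = 4 * (x ^ ((1 : ℝ) / 2) * x ^ ((498 : ℝ) / 1000)) := by
          rw [Real.sqrt_eq_rpow]; ring
      _ = 4 * x ^ ((998 : ℝ) / 1000) := by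
          rw [← Real.rpow_add hx0]; norm_num
  calc Real.sqrt x * R * (Real.log K * Real.log (Real.log K)) ≤
      (4 * x ^ ((998 : ℝ) / 1000)) * (4 * (Real.log x) ^ 2) := by
        apply mul_le_mul h7 h6 (mul_nonneg (by linarith) h5) (by positivity)
    _ = 16 * x ^ ((998 : ℝ) / 1000) * (Real.log x) ^ 2 := by ring

theorem Asp_nonneg {x R : ℝ} (hx : 16 ≤ x) (hlog : 1 ≤ Real.log x) (hR1 : 1 ≤ R) :
    0 ≤ Real.sqrt x * R * (Real.log (16 + Real.sqrt x / (R * Real.log x)) *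
      Real.log (Real.log (16 + Real.sqrt x / (R * Real.log x)))) := by
  have hx0 : 0 < x := by linarith
  have h1' : 0 ≤ Real.sqrt x / (R * Real.log x) := by positivity
  obtain ⟨K, hK⟩ : ∃ K, K = 16 + Real.sqrt x / (R * Real.log x) := ⟨_, rfl⟩
  rw [← hK]
  have hK16 : 16 ≤ K := by rw [hK]; linarith
  have h3 : 1 ≤ Real.log K := by
    rw [Real.le_log_iff_exp_le (by linarith)]
    have := Real.exp_one_lt_d9
    linarith
  have h5 : 0 ≤ Real.log (Real.log K) := Real.log_nonneg h3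
  positivity

end Pool.Agent.Lib.TB
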