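import Pool.Agent.Lib.TB.CntS
import Pool.Agent.Lib.TB.Asp

/-!
# TB: assembly with selectors, auxiliary inequalities
-/

namespace Pool.Agent.Lib.TB

open Finset Filter Pool.Agent.Results.MP_00e23e_nt

/-- The bound of the bad sets: from the inequality of `CntS_count` for large `x`. -/
theorem AspS_card {C₁ C₂ η U x V J k P N lN : ℝ} {m : ℕ} (hC₁ : 0 ≤ C₁) (hC₂ : 0 ≤ C₂) (hx : 16 ≤ x)
    (hlog : 1 ≤ Real.log x) (hk : 0 ≤ k)
    (hP : P ≤ x) (hN : N ≤ 4 * x) (hN0 : 0 ≤ N) (hη0 : 0 ≤ 1 - η) (hη1 : 0 ≤ η)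
    (hlN0 : 0 ≤ lN) (hlN : lN ≤ 2 * Real.log x) (hJ1 : 1 ≤ J) (hJ : J ≤ 5 * Real.log x)
    (hV : V = x / (Real.log x) ^ U)
    (hbig : 1600 * C₁ * x ^ (1 - η) * (Real.log x) ^ (2 * U + 2) ≤ x)
    (h : k * (V / J) ^ 2 ≤ 2 * P * (C₂ * N * lN ^ m + k * (C₁ * N ^ (1 - η)))) :
    k ≤ 400 * 2 ^ m * C₂ * (Real.log x) ^ (2 * U + 2 + m) := by
  have hx0 : 0 < x := by linarith
  obtain ⟨L, hL⟩ : ∃ L, Real.log x = L := ⟨_, rfl⟩
  rw [hL] at hlog hlN hJ hV hbig ⊢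
  have hL0 : 0 < L := by linarith
  have hLU : 0 < L ^ U := Real.rpow_pos_of_pos hL0 U
  have h1 : x ^ 2 / (25 * L ^ (2 * U + 2)) ≤ (V / J) ^ 2 := by
    have e1 : L ^ (2 * U + 2) = (L ^ U) ^ 2 * L ^ 2 := by
      rw [Real.rpow_add hL0, mul_comm 2 U, Real.rpow_mul hL0.le]
      norm_cast
    rw [e1, hV]
    have e2 : x ^ 2 / (25 * ((L ^ U) ^ 2 * L ^ 2)) = (x / L ^ U / (5 * L)) ^ 2 := by
      field_simp
      ring
    rw [e2]
    apply pow_le_pow_left₀ (by positivity)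
    exact div_le_div_of_nonneg_left (by positivity) (by linarith) hJ
  have h2 : N ^ (1 - η) ≤ 4 * x ^ (1 - η) := by
    calc N ^ (1 - η) ≤ (4 * x) ^ (1 - η) := Real.rpow_le_rpow hN0 hN hη0
      _ = 4 ^ (1 - η) * x ^ (1 - η) := Real.mul_rpow (by norm_num) hx0.le
      _ ≤ 4 * x ^ (1 - η) := by
          apply mul_le_mul_of_nonneg_right _ (Real.rpow_nonneg hx0.le _)
          calc (4 : ℝ) ^ (1 - η) ≤ 4 ^ (1 : ℝ) :=
                Real.rpow_le_rpow_of_exponent_le (by norm_num) (by linarith)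
            _ = 4 := Real.rpow_one 4
  have h3 : lN ^ m ≤ 2 ^ m * L ^ m := by
    calc lN ^ m ≤ (2 * L) ^ m := pow_le_pow_left₀ hlN0 hlN m
      _ = 2 ^ m * L ^ m := mul_pow 2 L m
  have h4 : 0 ≤ C₂ * N * lN ^ m + k * (C₁ * N ^ (1 - η)) := by positivity
  have h5 : k * (x ^ 2 / (25 * L ^ (2 * U + 2))) ≤
      2 * x * (C₂ * (4 * x) * (2 ^ m * L ^ m) + k * (C₁ * (4 * x ^ (1 - η)))) := by
    calc k * (x ^ 2 / (25 * L ^ (2 * U + 2))) ≤ k * (V / J) ^ 2 := mul_le_mul_of_nonneg_left h1 hk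
      _ ≤ 2 * P * (C₂ * N * lN ^ m + k * (C₁ * N ^ (1 - η))) := h
      _ ≤ 2 * x * (C₂ * N * lN ^ m + k * (C₁ * N ^ (1 - η))) := by
          apply mul_le_mul_of_nonneg_right _ h4
          linarith
      _ ≤ _ := by
          apply mul_le_mul_of_nonneg_left _ (by linarith)
          apply add_le_add
          · apply mul_le_mul _ h3 (by positivity) (by positivity)
            exact mul_le_mul_of_nonneg_left hN hC₂
          · apply mul_le_mul_of_nonneg_left _ hk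
            exact mul_le_mul_of_nonneg_left h2 hC₁
  have hLp : 0 < L ^ (2 * U + 2) := Real.rpow_pos_of_pos hL0 _
  have h6 : 8 * x * (C₁ * x ^ (1 - η)) ≤ x ^ 2 / (200 * L ^ (2 * U + 2)) := by
    rw [le_div_iff₀ (by positivity)]
    nlinarith [hbig]
  have h7 : k * (x ^ 2 / (50 * L ^ (2 * U + 2))) ≤ 8 * 2 ^ m * C₂ * x ^ 2 * L ^ m := by
    have e3 : x ^ 2 / (25 * L ^ (2 * U + 2)) =
        x ^ 2 / (50 * L ^ (2 * U + 2)) + x ^ 2 / (50 * L ^ (2 * U + 2)) := by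
      field_simp
      ring
    have e4 : x ^ 2 / (200 * L ^ (2 * U + 2)) ≤ x ^ 2 / (50 * L ^ (2 * U + 2)) := by
      apply div_le_div_of_nonneg_left (by positivity) (by positivity)
      linarith
    have e5 : k * (8 * x * (C₁ * x ^ (1 - η))) ≤ k * (x ^ 2 / (50 * L ^ (2 * U + 2))) :=
      mul_le_mul_of_nonneg_left (h6.trans e4) hk
    rw [e3, mul_add] at h5
    nlinarith [h5, e5]
  have h8 : k * (x ^ 2 / (50 * L ^ (2 * U + 2))) = k / (50 * L ^ (2 * U + 2)) * x ^ 2 := by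
    field_simp
  rw [h8] at h7
  have h9 : k / (50 * L ^ (2 * U + 2)) ≤ 8 * 2 ^ m * C₂ * L ^ m := by
    have : k / (50 * L ^ (2 * U + 2)) * x ^ 2 ≤ (8 * 2 ^ m * C₂ * L ^ m) * x ^ 2 := by linarith
    exact le_of_mul_le_mul_right this (by positivity)
  rw [div_le_iff₀ (by positivity)] at h9
  have h10 : L ^ (2 * U + 2 + m) = L ^ (2 * U + 2) * L ^ m := by
    rw [Real.rpow_add hL0, Real.rpow_natCast]
  rw [h10]
  linarith

/-- The low frequencies, with the Bombieri-Vinogradov theorem. -/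
theorem AspS_lp {C₃ C₄ U x y S : ℝ} {R : ℕ} (hC₃ : 0 ≤ C₃) (hC₄ : 0 ≤ C₄)
    (hx : 16 ≤ x) (hlog : 1 ≤ Real.log x) (hy3 : 2 ≤ y) (hyx : y ≤ x) (hR1 : 1 ≤ R)
    (hR : (R : ℝ) ≤ 4 * x ^ ((498 : ℝ) / 1000)) (hR2 : x ^ ((498 : ℝ) / 1000) ≤ 2 * (R : ℝ))
    (hLp : S ≤ C₃ * (Real.log x) ^ 3 * (∑ e ∈ Icc 1 R, maxErr y e + y / R))
    (hBV : ∑ e ∈ Icc 1 R, maxErr y e ≤ C₄ * (x / (Real.log x) ^ (U + 3) + Real.sqrt x * R *
      (Real.log (16 + Real.sqrt x / (R * Real.log x)) *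
        Real.log (Real.log (16 + Real.sqrt x / (R * Real.log x))))))
    (h1 : 16 * (C₃ * C₄) * x ^ ((998 : ℝ) / 1000) * (Real.log x) ^ (5 : ℝ) ≤ x / (Real.log x) ^ U)
    (h2 : 2 * C₃ * x ^ ((6 : ℝ) / 10) * (Real.log x) ^ (3 : ℝ) ≤ x / (Real.log x) ^ U) :
    S ≤ (C₃ * C₄ + 2) * (x / (Real.log x) ^ U) := by
  have hx0 : 0 < x := by linarith
  have hR1' : (1 : ℝ) ≤ R := by exact_mod_cast hR1
  have hR0 : (0 : ℝ) < R := by linarith
  obtain ⟨L, hL⟩ : ∃ L, Real.log x = L := ⟨_, rfl⟩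
  have hbv := Asp_bv hx hlog hR1' hR
  rw [hL] at hlog hBV h1 h2 hbv hLp ⊢
  have hL0 : 0 < L := by linarith
  have h4 : y / R ≤ 2 * x ^ ((6 : ℝ) / 10) := by
    rw [div_le_iff₀ hR0]
    have e1 : x = x ^ ((502 : ℝ) / 1000) * x ^ ((498 : ℝ) / 1000) := by
      rw [← Real.rpow_add hx0]; norm_num
    have e2 : x ^ ((502 : ℝ) / 1000) ≤ x ^ ((6 : ℝ) / 10) :=
      Real.rpow_le_rpow_of_exponent_le (by linarith) (by norm_num)
    calc y ≤ x ^ ((502 : ℝ) / 1000) * x ^ ((498 : ℝ) / 1000) := by rw [← e1]; exact hyx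
      _ ≤ x ^ ((6 : ℝ) / 10) * (2 * (R : ℝ)) :=
          mul_le_mul e2 hR2 (Real.rpow_nonneg hx0.le _) (Real.rpow_nonneg hx0.le _)
      _ = 2 * x ^ ((6 : ℝ) / 10) * R := by ring
  have h5 : 0 ≤ y / R := by positivity
  have h6 : ∑ e ∈ Icc 1 R, maxErr y e + y / R ≤
      C₄ * (x / L ^ (U + 3) + 16 * x ^ ((998 : ℝ) / 1000) * L ^ 2) + 2 * x ^ ((6 : ℝ) / 10) := by
    refine add_le_add (hBV.trans ?_) h4
    apply mul_le_mul_of_nonneg_left _ hC₄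
    exact add_le_add_right hbv _
  have h8 : L ^ 3 * (x / L ^ (U + 3)) = x / L ^ U := by
    rw [Real.rpow_add hL0]
    norm_cast
    have := (Real.rpow_pos_of_pos hL0 U).ne'
    field_simp
  have h9 : L ^ (5 : ℝ) = L ^ 3 * L ^ 2 := by norm_cast; ring
  have h10 : L ^ (3 : ℝ) = L ^ 3 := by norm_cast
  rw [h9] at h1
  rw [h10] at h2
  calc _ ≤ C₃ * L ^ 3 * (∑ e ∈ Icc 1 R, maxErr y e + y / R) := hLp
    _ ≤ C₃ * L ^ 3 * (C₄ * (x / L ^ (U + 3) + 16 * x ^ ((998 : ℝ) / 1000) * L ^ 2) +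
          2 * x ^ ((6 : ℝ) / 10)) := by
        apply mul_le_mul_of_nonneg_left h6
        positivity
    _ = C₃ * C₄ * (L ^ 3 * (x / L ^ (U + 3))) +
          16 * (C₃ * C₄) * x ^ ((998 : ℝ) / 1000) * (L ^ 3 * L ^ 2) +
          2 * C₃ * x ^ ((6 : ℝ) / 10) * L ^ 3 := by ring
    _ ≤ C₃ * C₄ * (x / L ^ U) + x / L ^ U + x / L ^ U := by
        rw [h8]
        linarith
    _ = _ := by ring

/-- The error of all moduli `d ≤ D`, with a selector. -/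
theorem AspS_all (R D : ℕ) (y : ℝ) (s : ℕ → ℤ) :
    ∑ d ∈ (Icc 1 D).filter (fun d : ℕ => IsCoprime (d : ℤ) (s d)),
        |(pcz y d (s d) : ℝ) - li y / (d.totient : ℝ)| ≤
      ∑ d ∈ (Icc 1 D).filter (fun d : ℕ => IsCoprime (d : ℤ) (s d)),
        |gg R ((Icc 1 ⌊y⌋₊).filter Nat.Prime) (s d) d| + D +
      ∑ d ∈ (Icc 1 D).filter (fun d : ℕ => IsCoprime (d : ℤ) (s d)),
        |∑ p ∈ (Icc 1 ⌊y⌋₊).filter Nat.Prime, ld R d ((p : ℤ) - s d) - li y / (d.totient : ℝ)| := by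
  classical
  have h1 : ∑ d ∈ (Icc 1 D).filter (fun d : ℕ => IsCoprime (d : ℤ) (s d)),
      |(pcz y d (s d) : ℝ) - li y / (d.totient : ℝ)| ≤
      ∑ d ∈ (Icc 1 D).filter (fun d : ℕ => IsCoprime (d : ℤ) (s d)),
        (|gg R ((Icc 1 ⌊y⌋₊).filter Nat.Prime) (s d) d| + 1 +
        |∑ p ∈ (Icc 1 ⌊y⌋₊).filter Nat.Prime, ld R d ((p : ℤ) - s d) - li y / (d.totient : ℝ)|) := by
    apply Finset.sum_le_sum
    intro d hd
    rw [Finset.mem_filter, Finset.mem_Icc] at hd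
    exact Asm_one R d hd.1.1 y (s d)
  refine h1.trans ?_
  rw [Finset.sum_add_distrib, Finset.sum_add_distrib]
  apply add_le_add_left
  apply add_le_add_right
  rw [Finset.sum_const, nsmul_eq_mul, mul_one]
  have h2 : ((Icc 1 D).filter (fun d : ℕ => IsCoprime (d : ℤ) (s d))).card ≤ D := by
    refine (Finset.card_filter_le _ _).trans ?_
    rw [Nat.card_Icc]
    omega
  exact_mod_cast h2

end Pool.Agent.Lib.TB
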