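import Pool.Agent.Lib.TB.Asp

/-!
# TB: the theorem at one point `y`, for large `x`
-/

namespace Pool.Agent.Lib.TB

open Finset Filter Pool.Agent.Results.MP_00e23e_nt

/-- The low frequencies, with the Bombieri-Vinogradov theorem. -/
theorem Asq_lp {C₃ C₄ U x y : ℝ} {R D : ℕ} {a : ℤ} (hC₃ : 0 ≤ C₃) (hC₄ : 0 ≤ C₄)
    (hx : 16 ≤ x) (hlog : 1 ≤ Real.log x) (hy3 : 3 ≤ y) (hyx : y ≤ x) (hR1 : 1 ≤ R)
    (hR : (R : ℝ) ≤ 4 * x ^ ((498 : ℝ) / 1000)) (hR2 : x ^ ((498 : ℝ) / 1000) ≤ 2 * (R : ℝ))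
    (hLp : ∑ d ∈ (Icc 1 D).filter (fun d : ℕ => IsCoprime (d : ℤ) a),
      |∑ p ∈ (Icc 1 ⌊y⌋₊).filter Nat.Prime, ld R d ((p : ℤ) - a) - li y / (d.totient : ℝ)| ≤
        C₃ * (Real.log y) ^ 3 * (∑ e ∈ Icc 1 R, maxErr y e + y / R))
    (hBV : ∑ e ∈ Icc 1 R, maxErr y e ≤ C₄ * (x / (Real.log x) ^ (U + 3) + Real.sqrt x * R *
      (Real.log (16 + Real.sqrt x / (R * Real.log x)) *
        Real.log (Real.log (16 + Real.sqrt x / (R * Real.log x))))))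
    (h1 : 16 * (C₃ * C₄) * x ^ ((998 : ℝ) / 1000) * (Real.log x) ^ (5 : ℝ) ≤ x / (Real.log x) ^ U)
    (h2 : 2 * C₃ * x ^ ((6 : ℝ) / 10) * (Real.log x) ^ (3 : ℝ) ≤ x / (Real.log x) ^ U) :
    ∑ d ∈ (Icc 1 D).filter (fun d : ℕ => IsCoprime (d : ℤ) a),
      |∑ p ∈ (Icc 1 ⌊y⌋₊).filter Nat.Prime, ld R d ((p : ℤ) - a) - li y / (d.totient : ℝ)| ≤
      (C₃ * C₄ + 2) * (x / (Real.log x) ^ U) := by
  have hx0 : 0 < x := by linarith
  have hR1' : (1 : ℝ) ≤ R := by exact_mod_cast hR1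
  have hR0 : (0 : ℝ) < R := by linarith
  obtain ⟨L, hL⟩ : ∃ L, Real.log x = L := ⟨_, rfl⟩
  have hbv := Asp_bv hx hlog hR1' hR
  rw [hL] at hlog hBV h1 h2 hbv ⊢
  have hL0 : 0 < L := by linarith
  have hly : Real.log y ≤ L := by rw [← hL]; exact Real.log_le_log (by linarith) hyx
  have hly0 : 0 ≤ Real.log y := Real.log_nonneg (by linarith)
  have h3 : (Real.log y) ^ 3 ≤ L ^ 3 := pow_le_pow_left₀ hly0 hly 3
  -- `y / R`
  have h4 : y / R ≤ 2 * x ^ ((6 : ℝ) / 10) := by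
    rw [div_le_iff₀ hR0]
    have e1 : x = x ^ ((502 : ℝ) / 1000) * x ^ ((498 : ℝ) / 1000) := by
      rw [← Real.rpow_add hx0]; norm_num
    have e2 : x ^ ((502 : ℝ) / 1000) ≤ x ^ ((6 : ℝ) / 10) :=
      Real.rpow_le_rpow_of_exponent_le (by linarith) (by norm_num)
    calc y ≤ x ^ ((502 : ℝ) / 1000) * x ^ ((498 : ℝ) / 1000) := by rw [← e1]; exact hyx
      _ ≤ x ^ ((6 : ℝ) / 10) * (2 * (R : ℝ)) :=
          mul_le_mul e2 hR2 (Real.rpow_nonneg hx0.le _) (Real.rpow_nonneg hx0.le _)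
      _ = 2 * x ^ ((6 : ℝ) / 10) * R := by ring
  have h5 : 0 ≤ y / R := by positivity
  have h6 : ∑ e ∈ Icc 1 R, maxErr y e + y / R ≤
      C₄ * (x / L ^ (U + 3) + 16 * x ^ ((998 : ℝ) / 1000) * L ^ 2) + 2 * x ^ ((6 : ℝ) / 10) := by
    refine add_le_add (hBV.trans ?_) h4
    apply mul_le_mul_of_nonneg_left _ hC₄
    exact add_le_add_right hbv _
  have h7 : 0 ≤ C₄ * (x / L ^ (U + 3) + 16 * x ^ ((998 : ℝ) / 1000) * L ^ 2) +
      2 * x ^ ((6 : ℝ) / 10) := by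
    have := Real.rpow_pos_of_pos hL0 (U + 3)
    positivity
  have h8 : L ^ 3 * (x / L ^ (U + 3)) = x / L ^ U := by
    rw [Real.rpow_add hL0]
    norm_cast
    have := (Real.rpow_pos_of_pos hL0 U).ne'
    field_simp
  have h9 : L ^ (5 : ℝ) = L ^ 3 * L ^ 2 := by norm_cast; ring
  have h10 : L ^ (3 : ℝ) = L ^ 3 := by norm_cast
  rw [h9] at h1
  rw [h10] at h2
  calc _ ≤ C₃ * (Real.log y) ^ 3 * (∑ e ∈ Icc 1 R, maxErr y e + y / R) := hLp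
    _ ≤ C₃ * (Real.log y) ^ 3 * (C₄ * (x / L ^ (U + 3) + 16 * x ^ ((998 : ℝ) / 1000) * L ^ 2) +
          2 * x ^ ((6 : ℝ) / 10)) := by
        apply mul_le_mul_of_nonneg_left h6
        positivity
    _ ≤ C₃ * L ^ 3 * (C₄ * (x / L ^ (U + 3) + 16 * x ^ ((998 : ℝ) / 1000) * L ^ 2) +
          2 * x ^ ((6 : ℝ) / 10)) := by
        apply mul_le_mul_of_nonneg_right _ h7
        exact mul_le_mul_of_nonneg_left h3 hC₃
    _ = C₃ * C₄ * (L ^ 3 * (x / L ^ (U + 3))) +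
          16 * (C₃ * C₄) * x ^ ((998 : ℝ) / 1000) * (L ^ 3 * L ^ 2) +
          2 * C₃ * x ^ ((6 : ℝ) / 10) * L ^ 3 := by ring
    _ ≤ C₃ * C₄ * (x / L ^ U) + x / L ^ U + x / L ^ U := by
        rw [h8]
        linarith
    _ = _ := by ring

/-- The theorem at one point `y ∈ [x / (log x)^K, x]`, for large `x`. -/
theorem Asq_at (hOff : OffStmt) (hDia : DiaStmt) (hLp : LpStmt) (hBV : Pool.Agent.Lib.BV.ExtStmt)
    (U K : ℝ) (hU : 0 < U) :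
    ∃ C : ℝ, 0 ≤ C ∧ ∀ᶠ x : ℝ in atTop, ∀ y : ℝ, x / (Real.log x) ^ K ≤ y → y ≤ x →
      ∃ A : Finset ℤ, (A.card : ℝ) ≤ C * (Real.log x) ^ (2 * U + 10) ∧
        ∀ a : ℤ, |(a : ℝ)| ≤ x → a ∉ A →
          ∑ d ∈ (Icc 1 ⌊x ^ ((1 : ℝ) / 2 + 1 / 1000)⌋₊).filter (fun d : ℕ => IsCoprime (d : ℤ) a),
            |(pcz y d a : ℝ) - li y / (d.totient : ℝ)| ≤ C * (x / (Real.log x) ^ U) := by
  obtain ⟨C₁', η', hη', hoff'⟩ := hOff
  obtain ⟨C₂', hdia'⟩ := hDia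
  obtain ⟨C₃', hlp'⟩ := hLp
  obtain ⟨C₄', hbv'⟩ := hBV (U + 3) (by linarith)
  -- non-negative constants, `η ≤ 1`
  obtain ⟨C₁, hC₁⟩ : ∃ C₁, C₁ = max C₁' 0 := ⟨_, rfl⟩
  obtain ⟨C₂, hC₂⟩ : ∃ C₂, C₂ = max C₂' 0 := ⟨_, rfl⟩
  obtain ⟨C₃, hC₃⟩ : ∃ C₃, C₃ = max C₃' 0 := ⟨_, rfl⟩
  obtain ⟨C₄, hC₄⟩ : ∃ C₄, C₄ = max C₄' 0 := ⟨_, rfl⟩
  obtain ⟨η, hη⟩ : ∃ η, η = min η' 1 := ⟨_, rfl⟩
  have hC₁0 : 0 ≤ C₁ := by rw [hC₁]; exact le_max_right _ _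
  have hC₂0 : 0 ≤ C₂ := by rw [hC₂]; exact le_max_right _ _
  have hC₃0 : 0 ≤ C₃ := by rw [hC₃]; exact le_max_right _ _
  have hC₄0 : 0 ≤ C₄ := by rw [hC₄]; exact le_max_right _ _
  have hη0 : 0 < η := by rw [hη]; exact lt_min hη' one_pos
  have hη1 : η ≤ 1 := by rw [hη]; exact min_le_right _ _
  have hoff : ∀ (N Q : ℕ) (c c' : ℕ → ℝ) (a b : ℤ), 1 ≤ N →
      RR N ≤ Q → (Q : ℝ) ≤ 2 * (N : ℝ) ^ ((1 : ℝ) / 2 + 1 / 1000) →
      (∀ d, |c d| ≤ 1) → (∀ d, |c' d| ≤ 1) → a ≠ b → |a| ≤ (N : ℤ) → |b| ≤ (N : ℤ) →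
      |∑ n ∈ Icc (-(N : ℤ)) N, tri N n * (FF (RR N) Q c (n - a) * FF (RR N) Q c' (n - b))| ≤
        C₁ * (N : ℝ) ^ (1 - η) := by
    intro N Q c c' a b h1 h2 h3 h4 h5 h6 h7 h8
    refine (hoff' N Q c c' a b h1 h2 h3 h4 h5 h6 h7 h8).trans ?_
    have hN1 : (1 : ℝ) ≤ N := by exact_mod_cast h1
    have e1 : (N : ℝ) ^ (1 - η') ≤ (N : ℝ) ^ (1 - η) :=
      Real.rpow_le_rpow_of_exponent_le hN1 (by rw [hη]; linarith [min_le_left η' 1])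
    have e2 : 0 ≤ (N : ℝ) ^ (1 - η') := Real.rpow_nonneg (by linarith) _
    calc C₁' * (N : ℝ) ^ (1 - η') ≤ C₁ * (N : ℝ) ^ (1 - η') :=
          mul_le_mul_of_nonneg_right (by rw [hC₁]; exact le_max_left _ _) e2
      _ ≤ _ := mul_le_mul_of_nonneg_left e1 hC₁0
  have hdia : ∀ (N R Q : ℕ) (c : ℕ → ℝ) (a : ℤ), 2 ≤ N → R ≤ N → Q ≤ N →
      (∀ d, |c d| ≤ 1) → |a| ≤ (N : ℤ) →
      ∑ n ∈ Icc (-(N : ℤ)) N, tri N n * (FF R Q c (n - a)) ^ 2 ≤ C₂ * (N : ℝ) * (Real.log N) ^ 7 := by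
    intro N R Q c a h1 h2 h3 h4 h5
    refine (hdia' N R Q c a h1 h2 h3 h4 h5).trans ?_
    have hN1 : (1 : ℝ) ≤ N := by exact_mod_cast (by omega : 1 ≤ N)
    have e2 : 0 ≤ (Real.log N) ^ 7 := pow_nonneg (Real.log_nonneg hN1) 7
    apply mul_le_mul_of_nonneg_right _ e2
    exact mul_le_mul_of_nonneg_right (by rw [hC₂]; exact le_max_left _ _) (by linarith)
  refine ⟨256000 * C₂ + C₃ * C₄ + 4, by positivity, ?_⟩
  filter_upwards [eventually_ge_atTop (16 : ℝ),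
    Asy_pow (1600 * C₁) (2 * U + 2) (1 - η) (by linarith),
    Asy_div 1 0 U (501 / 1000) (by norm_num),
    Asy_div 4 0 K (6 / 10) (by norm_num),
    Asy_div (16 * (C₃ * C₄)) 5 U (998 / 1000) (by norm_num),
    Asy_div (2 * C₃) 3 U (6 / 10) (by norm_num)] with x hx e1 e2 e3 e4 e5 y hy hyx
  have hx0 : 0 < x := by linarith
  have hx1 : 1 ≤ x := by linarith
  have hlog : 1 ≤ Real.log x := by
    rw [Real.le_log_iff_exp_le hx0]
    have := Real.exp_one_lt_d9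
    linarith
  rw [Real.rpow_zero, mul_one] at e2 e3
  have hy6 : 4 * x ^ ((6 : ℝ) / 10) ≤ y := e3.trans hy
  have hx6 : 1 ≤ x ^ ((6 : ℝ) / 10) := Real.one_le_rpow hx1 (by norm_num)
  obtain ⟨hN1, hN2, hN3, hN4⟩ := Asn_N hx
  obtain ⟨hR1, hR2, hR3⟩ := Asn_RR hx
  obtain ⟨hJ1, hJ2⟩ := Asn_J hx
  have hlN := Asn_log hx
  obtain ⟨N, hN⟩ : ∃ N, N = 2 * ⌈x⌉₊ := ⟨_, rfl⟩
  rw [← hN] at hN1 hN2 hN3 hN4 hR1 hR2 hR3 hJ1 hJ2 hlN
  obtain ⟨J, hJ⟩ : ∃ J, J = Nat.clog 2 N := ⟨_, rfl⟩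
  rw [← hJ] at hJ1 hJ2
  obtain ⟨D, hD⟩ : ∃ D, D = ⌊x ^ ((1 : ℝ) / 2 + 1 / 1000)⌋₊ := ⟨_, rfl⟩
  rw [← hD]
  have he : (1 : ℝ) / 2 + 1 / 1000 = 501 / 1000 := by norm_num
  have hD1 : (D : ℝ) ≤ x ^ ((501 : ℝ) / 1000) := by
    rw [hD, he]; exact Nat.floor_le (by positivity)
  have hx51 : x ^ ((501 : ℝ) / 1000) ≤ x ^ ((6 : ℝ) / 10) :=
    Real.rpow_le_rpow_of_exponent_le hx1 (by norm_num)
  have hx52 : x ^ ((501 : ℝ) / 1000) ≤ x := by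
    calc x ^ ((501 : ℝ) / 1000) ≤ x ^ (1 : ℝ) := Real.rpow_le_rpow_of_exponent_le hx1 (by norm_num)
      _ = x := Real.rpow_one x
  have hx49 : x ^ ((498 : ℝ) / 1000) ≤ x ^ ((6 : ℝ) / 10) :=
    Real.rpow_le_rpow_of_exponent_le hx1 (by norm_num)
  have hD2 : (D : ℝ) ≤ 2 * (N : ℝ) ^ ((1 : ℝ) / 2 + 1 / 1000) := by
    rw [he]
    have : x ^ ((501 : ℝ) / 1000) ≤ (N : ℝ) ^ ((501 : ℝ) / 1000) :=
      Real.rpow_le_rpow hx0.le hN1 (by norm_num)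
    have h0 : 0 ≤ (N : ℝ) ^ ((501 : ℝ) / 1000) := by positivity
    linarith
  have hDN : D ≤ N := by
    have : (D : ℝ) ≤ N := by linarith
    exact_mod_cast this
  have hDJ : D ≤ RR N * 2 ^ J := by
    have h1 : N ≤ 2 ^ J := by rw [hJ]; exact Nat.le_pow_clog (by norm_num) N
    calc D ≤ 1 * 2 ^ J := by omega
      _ ≤ RR N * 2 ^ J := Nat.mul_le_mul_right _ hR1
  have hL0 : 0 < Real.log x := by linarith
  have hV : 0 < x / (Real.log x) ^ U := div_pos hx0 (Real.rpow_pos_of_pos hL0 U)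
  obtain ⟨P, hP⟩ : ∃ P : Finset ℕ, P = (Icc 1 ⌊y⌋₊).filter Nat.Prime := ⟨_, rfl⟩
  have hyf : ⌊y⌋₊ ≤ ⌊x⌋₊ := Nat.floor_le_floor hyx
  obtain ⟨B, hB1, hB2⟩ := Cnt_count hoff hdia hC₁0 hC₂0 hN4 hD2 hDN hDJ hJ1 P (by
    intro p hp
    rw [hP, Finset.mem_filter, Finset.mem_Icc] at hp
    omega) hV
  have hPc : (P.card : ℝ) ≤ x := by
    have h1 : P.card ≤ ⌊x⌋₊ := by
      rw [hP]
      refine (Finset.card_filter_le _ _).trans ?_
      rw [Nat.card_Icc]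
      omega
    calc (P.card : ℝ) ≤ (⌊x⌋₊ : ℝ) := by exact_mod_cast h1
      _ ≤ x := Nat.floor_le hx0.le
  refine ⟨(range J).biUnion B, ?_, ?_⟩
  · have h1 : ∀ j ∈ range J, ((B j).card : ℝ) ≤ 51200 * C₂ * (Real.log x) ^ (2 * U + 9) := by
      intro j hj
      exact Asp_card hC₁0 hC₂0 hx hlog (Nat.cast_nonneg _) (Nat.cast_nonneg _) hPc hN2
        (Nat.cast_nonneg _) (by linarith) hη0.le (Real.log_nonneg (by linarith)) hlN
        (by exact_mod_cast hJ1) hJ2 rfl e1 (hB2 j (Finset.mem_range.1 hj))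
    have h2 : (((range J).biUnion B).card : ℝ) ≤ J * (51200 * C₂ * (Real.log x) ^ (2 * U + 9)) := by
      calc (((range J).biUnion B).card : ℝ) ≤ ((∑ j ∈ range J, (B j).card : ℕ) : ℝ) := by
            exact_mod_cast Finset.card_biUnion_le
        _ = ∑ j ∈ range J, ((B j).card : ℝ) := by push_cast; rfl
        _ ≤ ∑ j ∈ range J, (51200 * C₂ * (Real.log x) ^ (2 * U + 9)) := Finset.sum_le_sum h1
        _ = _ := by rw [Finset.sum_const, Finset.card_range, nsmul_eq_mul]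
    have h3 : (Real.log x) ^ (2 * U + 10) = (Real.log x) ^ (2 * U + 9) * Real.log x := by
      rw [show 2 * U + 10 = (2 * U + 9) + 1 by ring, Real.rpow_add hL0, Real.rpow_one]
    have h4 : 0 ≤ (Real.log x) ^ (2 * U + 9) := Real.rpow_nonneg hL0.le _
    have h5 : 0 ≤ 51200 * C₂ * (Real.log x) ^ (2 * U + 9) := by positivity
    calc (((range J).biUnion B).card : ℝ) ≤ J * (51200 * C₂ * (Real.log x) ^ (2 * U + 9)) := h2
      _ ≤ (5 * Real.log x) * (51200 * C₂ * (Real.log x) ^ (2 * U + 9)) :=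
          mul_le_mul_of_nonneg_right hJ2 h5
      _ = 256000 * C₂ * (Real.log x) ^ (2 * U + 10) := by rw [h3]; ring
      _ ≤ _ := by
          apply mul_le_mul_of_nonneg_right _ (Real.rpow_nonneg hL0.le _)
          have : 0 ≤ C₃ * C₄ := by positivity
          linarith
  · intro a ha haA
    have haN : |a| ≤ (N : ℤ) := by
      have h1 : ((|a| : ℤ) : ℝ) ≤ ((N : ℤ) : ℝ) := by
        push_cast
        linarith
      exact_mod_cast h1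
    have hgg := hB1 a haN (by
      intro j hj hmem
      exact haA (Finset.mem_biUnion.2 ⟨j, Finset.mem_range.2 hj, hmem⟩))
    have hlpa := Asq_lp (U := U) (a := a) (D := D) hC₃0 hC₄0 hx hlog (by linarith) hyx hR1 hR2 hR3 (by
      refine (hlp' y (RR N) D a (by linarith) hR1 (by linarith) (by linarith)).trans ?_
      have h1 : 0 ≤ (Real.log y) ^ 3 := pow_nonneg (Real.log_nonneg (by linarith)) 3
      have h2 : 0 ≤ ∑ e ∈ Icc 1 (RR N), maxErr y e + y / (RR N : ℝ) := by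
        have : 0 ≤ ∑ e ∈ Icc 1 (RR N), maxErr y e :=
          Finset.sum_nonneg fun e _ => Real.sSup_nonneg (by
            rintro z ⟨l, -, -, -, rfl⟩
            exact abs_nonneg _)
        have h3 : 0 ≤ y / (RR N : ℝ) := div_nonneg (by linarith) (Nat.cast_nonneg _)
        linarith
      apply mul_le_mul_of_nonneg_right _ h2
      exact mul_le_mul_of_nonneg_right (by rw [hC₃]; exact le_max_left _ _) h1) (by
      refine (hbv' x (RR N) (fun _ => y) hx hR1 (fun _ => ⟨by linarith, hyx⟩)).trans ?_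
      unfold Pool.Agent.Lib.BV.Kf
      have h0 := Asp_nonneg hx hlog (show (1 : ℝ) ≤ (RR N : ℝ) by exact_mod_cast hR1)
      have h1 : 0 ≤ x / (Real.log x) ^ (U + 3) := by
        have := Real.rpow_pos_of_pos hL0 (U + 3)
        positivity
      exact mul_le_mul_of_nonneg_right (by rw [hC₄]; exact le_max_left _ _) (by linarith)) e4 e5
    refine (Asm_all (RR N) D y a).trans ?_
    rw [← hP] at hlpa ⊢
    have h6 : 0 ≤ C₂ * (x / (Real.log x) ^ U) := by positivity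
    linarith

end Pool.Agent.Lib.TB
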