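import Pool.Agent.Lib.TB.StmS

/-!
# TB: the number of bad blocks of residues (duality), with selectors
-/

namespace Pool.Agent.Lib.TB

open Finset Pool.Agent.Results.MP_00e23e_nt

/-- The inner product of two sums of functions. -/
theorem CntS_cross {α ι κ : Type} (N : Finset α) (w : α → ℝ) (A : Finset ι) (B : Finset κ)
    (F : ι → α → ℝ) (G : κ → α → ℝ) {E : ℝ}
    (h : ∀ a ∈ A, ∀ b ∈ B, |∑ n ∈ N, w n * (F a n * G b n)| ≤ E) :
    |∑ n ∈ N, w n * ((∑ a ∈ A, F a n) * ∑ b ∈ B, G b n)| ≤ A.card * B.card * E := by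
  have h1 : ∑ n ∈ N, w n * ((∑ a ∈ A, F a n) * ∑ b ∈ B, G b n) =
      ∑ a ∈ A, ∑ b ∈ B, ∑ n ∈ N, w n * (F a n * G b n) := by
    have h2 : ∀ n ∈ N, w n * ((∑ a ∈ A, F a n) * ∑ b ∈ B, G b n) =
        ∑ a ∈ A, ∑ b ∈ B, w n * (F a n * G b n) := by
      intro n _
      rw [Finset.sum_mul_sum, Finset.mul_sum]
      apply Finset.sum_congr rfl
      intro a _
      rw [Finset.mul_sum]
    rw [Finset.sum_congr rfl h2, Finset.sum_comm]
    apply Finset.sum_congr rfl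
    intro a _
    rw [Finset.sum_comm]
  rw [h1]
  calc |∑ a ∈ A, ∑ b ∈ B, ∑ n ∈ N, w n * (F a n * G b n)|
      ≤ ∑ a ∈ A, |∑ b ∈ B, ∑ n ∈ N, w n * (F a n * G b n)| := Finset.abs_sum_le_sum_abs _ _
    _ ≤ ∑ a ∈ A, ∑ b ∈ B, |∑ n ∈ N, w n * (F a n * G b n)| :=
        Finset.sum_le_sum fun a _ => Finset.abs_sum_le_sum_abs _ _
    _ ≤ ∑ a ∈ A, ∑ b ∈ B, E := Finset.sum_le_sum fun a ha => Finset.sum_le_sum fun b hb => h a ha b hb
    _ = _ := by
        simp only [Finset.sum_const, nsmul_eq_mul]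
        ring

/-- The norm of a sum of almost orthogonal functions. -/
theorem CntS_diag {α ι : Type} [DecidableEq ι] (N : Finset α) (w : α → ℝ) (A : Finset ι)
    (F : ι → α → ℝ) {D E : ℝ} (hE : 0 ≤ E) (hD : ∑ a ∈ A, ∑ n ∈ N, w n * (F a n) ^ 2 ≤ D)
    (h : ∀ a ∈ A, ∀ b ∈ A, a ≠ b → |∑ n ∈ N, w n * (F a n * F b n)| ≤ E) :
    ∑ n ∈ N, w n * (∑ a ∈ A, F a n) ^ 2 ≤ D + A.card * A.card * E := by
  have h1 : ∑ n ∈ N, w n * (∑ a ∈ A, F a n) ^ 2 =
      ∑ a ∈ A, ∑ b ∈ A, ∑ n ∈ N, w n * (F a n * F b n) := by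
    have h2 : ∀ n ∈ N, w n * (∑ a ∈ A, F a n) ^ 2 = ∑ a ∈ A, ∑ b ∈ A, w n * (F a n * F b n) := by
      intro n _
      rw [sq, Finset.sum_mul_sum, Finset.mul_sum]
      apply Finset.sum_congr rfl
      intro a _
      rw [Finset.mul_sum]
    rw [Finset.sum_congr rfl h2, Finset.sum_comm]
    apply Finset.sum_congr rfl
    intro a _
    rw [Finset.sum_comm]
  rw [h1]
  have h3 : ∀ a ∈ A, ∑ b ∈ A, ∑ n ∈ N, w n * (F a n * F b n) ≤
      ∑ n ∈ N, w n * (F a n) ^ 2 + A.card * E := by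
    intro a ha
    rw [← Finset.add_sum_erase A _ ha]
    apply add_le_add
    · apply le_of_eq
      apply Finset.sum_congr rfl
      intro n _
      ring
    · calc ∑ b ∈ A.erase a, ∑ n ∈ N, w n * (F a n * F b n) ≤ ∑ b ∈ A.erase a, E := by
            apply Finset.sum_le_sum
            intro b hb
            rw [Finset.mem_erase] at hb
            exact (le_abs_self _).trans (h a ha b hb.2 (Ne.symm hb.1))
        _ = (A.erase a).card * E := by rw [Finset.sum_const, nsmul_eq_mul]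
        _ ≤ A.card * E := by
            apply mul_le_mul_of_nonneg_right _ hE
            exact_mod_cast Finset.card_le_card (Finset.erase_subset a A)
  calc ∑ a ∈ A, ∑ b ∈ A, ∑ n ∈ N, w n * (F a n * F b n)
      ≤ ∑ a ∈ A, (∑ n ∈ N, w n * (F a n) ^ 2 + A.card * E) := Finset.sum_le_sum h3
    _ = ∑ a ∈ A, ∑ n ∈ N, w n * (F a n) ^ 2 + A.card * (A.card * E) := by
        rw [Finset.sum_add_distrib, Finset.sum_const, nsmul_eq_mul]
    _ ≤ D + A.card * A.card * E := by linarith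

/-- Bessel's inequality for the functions `∑_{a ∈ A i} FF (RR N) Q (c i a) (n - a)`. -/
theorem CntS_bessel {C₁ C₂ η : ℝ} {k : ℕ}
    (hoff : ∀ (N Q : ℕ) (c c' : ℕ → ℝ) (a b : ℤ), 1 ≤ N →
      RR N ≤ Q → (Q : ℝ) ≤ 2 * (N : ℝ) ^ ((1 : ℝ) / 2 + 1 / 1000) →
      (∀ d, |c d| ≤ 1) → (∀ d, |c' d| ≤ 1) → a ≠ b → |a| ≤ (N : ℤ) → |b| ≤ (N : ℤ) →
      |∑ n ∈ Icc (-(N : ℤ)) N, tri N n * (FF (RR N) Q c (n - a) * FF (RR N) Q c' (n - b))| ≤
        C₁ * (N : ℝ) ^ (1 - η))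
    (hdia : ∀ (N R Q : ℕ) (c : ℤ → ℕ → ℝ) (A : Finset ℤ),
      2 ≤ N → R ≤ N → Q ≤ N → (∀ d, ∑ a ∈ A, |c a d| ≤ 1) → (∀ a ∈ A, |a| ≤ (N : ℤ)) →
      ∑ a ∈ A, ∑ n ∈ Icc (-(N : ℤ)) N, tri N n * (FF R Q (c a) (n - a)) ^ 2 ≤
        C₂ * (N : ℝ) * (Real.log N) ^ k)
    (hC₁ : 0 ≤ C₁) (hC₂ : 0 ≤ C₂)
    {N Q : ℕ} (hN : 2 ≤ N) (hQ : RR N ≤ Q) (hQ2 : (Q : ℝ) ≤ 2 * (N : ℝ) ^ ((1 : ℝ) / 2 + 1 / 1000))
    (hQN : Q ≤ N) {M : ℝ} (A : ℕ → Finset ℤ) (S : Finset ℕ)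
    (hdisj : ∀ i ∈ S, ∀ j ∈ S, i ≠ j → Disjoint (A i) (A j))
    (hAN : ∀ i ∈ S, ∀ a ∈ A i, |a| ≤ (N : ℤ)) (hAM : ∀ i ∈ S, ((A i).card : ℝ) ≤ M)
    (P : Finset ℕ) (hP : ∀ p ∈ P, 2 * p ≤ N)
    (c : ℕ → ℤ → ℕ → ℝ) (hc1 : ∀ i ∈ S, ∀ a d, |c i a d| ≤ 1)
    (hc : ∀ i ∈ S, ∀ d, ∑ a ∈ A i, |c i a d| ≤ 1) {T : ℝ} (hT : 0 ≤ T)
    (h : ∀ i ∈ S, T ≤ ∑ p ∈ P, ∑ a ∈ A i, FF (RR N) Q (c i a) ((p : ℤ) - a)) :
    S.card * T ^ 2 ≤ 2 * P.card * (C₂ * N * (Real.log N) ^ k + S.card *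
      (2 * (M ^ 2 * (C₁ * (N : ℝ) ^ (1 - η))))) := by
  classical
  have hN1 : (1 : ℝ) ≤ N := by exact_mod_cast (by omega : 1 ≤ N)
  have hlog : 0 ≤ Real.log N := Real.log_nonneg hN1
  have hRN : RR N ≤ N := hQ.trans hQN
  have hE0 : 0 ≤ C₁ * (N : ℝ) ^ (1 - η) := by positivity
  have hPc : (0 : ℝ) ≤ P.card := Nat.cast_nonneg _
  rcases Nat.eq_zero_or_pos S.card with h0 | hpos
  · rw [h0, Nat.cast_zero, zero_mul, zero_mul, add_zero]
    positivity
  have hS1 : (1 : ℝ) ≤ S.card := by exact_mod_cast hpos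
  have hcard : ∀ i ∈ S, ∀ j ∈ S, ((A i).card : ℝ) * ((A j).card : ℝ) ≤ M ^ 2 := by
    intro i hi j hj
    rw [sq]
    have h1 := hAM i hi
    have h2 := hAM j hj
    have h3 : (0 : ℝ) ≤ ((A i).card : ℝ) := Nat.cast_nonneg _
    have h4 : (0 : ℝ) ≤ ((A j).card : ℝ) := Nat.cast_nonneg _
    exact mul_le_mul h1 h2 h4 (h3.trans h1)
  have h1 := bessel S (Icc (-(N : ℤ)) N) (P.map Nat.castEmbedding) (tri N)
    (fun i n => ∑ a ∈ A i, FF (RR N) Q (c i a) (n - a))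
    (D := C₂ * N * (Real.log N) ^ k + M ^ 2 * (C₁ * (N : ℝ) ^ (1 - η)))
    (E := M ^ 2 * (C₁ * (N : ℝ) ^ (1 - η))) hT (by positivity) (by positivity) ?_ ?_ ?_ ?_ ?_ ?_
  · rw [Finset.card_map] at h1
    refine h1.trans ?_
    apply mul_le_mul_of_nonneg_left _ (by positivity)
    have h5 : 0 ≤ M ^ 2 * (C₁ * (N : ℝ) ^ (1 - η)) := by positivity
    nlinarith [mul_le_mul_of_nonneg_right hS1 h5]
  · intro n _
    exact le_max_left _ _
  · intro n hn
    obtain ⟨p, hp, rfl⟩ := Finset.mem_map.1 hn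
    have := hP p hp
    rw [Finset.mem_Icc]
    simp only [Nat.castEmbedding_apply]
    constructor <;> omega
  · intro n hn
    obtain ⟨p, hp, rfl⟩ := Finset.mem_map.1 hn
    have h2 : (2 * p : ℝ) ≤ N := by exact_mod_cast hP p hp
    refine le_trans ?_ (le_max_right _ _)
    simp only [Nat.castEmbedding_apply, Int.cast_natCast]
    rw [abs_of_nonneg (Nat.cast_nonneg p)]
    have h3 : (p : ℝ) / N ≤ 1 / 2 := by
      rw [div_le_div_iff₀ (by linarith) (by norm_num)]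
      linarith
    linarith
  · intro i hi
    rw [Finset.sum_map]
    exact h i hi
  · intro i hi
    refine (CntS_diag (Icc (-(N : ℤ)) N) (tri N) (A i) (fun a n => FF (RR N) Q (c i a) (n - a))
      hE0 (hdia N (RR N) Q (c i) (A i) hN hRN hQN (hc i hi) (hAN i hi)) ?_).trans ?_
    · intro a ha b hb hab
      exact hoff N Q (c i a) (c i b) a b (by omega) hQ hQ2 (hc1 i hi a) (hc1 i hi b) hab
        (hAN i hi a ha) (hAN i hi b hb)
    · apply add_le_add_right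
      exact mul_le_mul_of_nonneg_right (hcard i hi i hi) hE0
  · intro i hi j hj hij
    refine (CntS_cross (Icc (-(N : ℤ)) N) (tri N) (A i) (A j) (fun a n => FF (RR N) Q (c i a) (n - a))
      (fun b n => FF (RR N) Q (c j b) (n - b)) (E := C₁ * (N : ℝ) ^ (1 - η)) ?_).trans ?_
    · intro a ha b hb
      exact hoff N Q (c i a) (c j b) a b (by omega) hQ hQ2 (hc1 i hi a) (hc1 j hj b)
        (fun e => (Finset.disjoint_left.1 (hdisj i hi j hj hij)) ha (e ▸ hb))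
        (hAN i hi a ha) (hAN j hj b hb)
    · exact mul_le_mul_of_nonneg_right (hcard i hi j hj) hE0

/-- The sum over the block, with a selector. -/
noncomputable def gsS (R Q D : ℕ) (P : Finset ℕ) (s : ℕ → ℤ) : ℝ :=
  ∑ d ∈ (Ioc Q (2 * Q)).filter (fun d : ℕ => d ≤ D ∧ IsCoprime (d : ℤ) (s d)), |gg R P (s d) d|

/-- The sum over the block as a sum of `FF` over `P`. -/
theorem CntS_block (R Q D : ℕ) (P : Finset ℕ) (A : Finset ℤ) (s : ℕ → ℤ) (hs : ∀ d, s d ∈ A) :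
    ∃ c : ℤ → ℕ → ℝ, (∀ a d, |c a d| ≤ 1) ∧ (∀ d, ∑ a ∈ A, |c a d| ≤ 1) ∧
      gsS R Q D P s = ∑ p ∈ P, ∑ a ∈ A, FF R Q (c a) ((p : ℤ) - a) := by
  classical
  obtain ⟨e, he⟩ : ∃ e : ℕ → ℝ, e = fun d : ℕ => if d ≤ D ∧ IsCoprime (d : ℤ) (s d) then
      (if 0 ≤ gg R P (s d) d then 1 else -1) else 0 := ⟨_, rfl⟩
  have he1 : ∀ d, |e d| ≤ 1 := by
    intro d
    rw [he]
    simp only
    split_ifs <;> simp
  refine ⟨fun a d => if s d = a then e d else 0, ?_, ?_, ?_⟩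
  · intro a d
    simp only
    split_ifs
    · exact he1 d
    · simp
  · intro d
    rw [Finset.sum_eq_single (s d)]
    · simp only [if_true]
      exact he1 d
    · intro a _ ha
      beta_reduce
      rw [if_neg (Ne.symm ha), abs_zero]
    · intro h
      exact absurd (hs d) h
  · have h1 : ∀ p ∈ P, ∑ a ∈ A, FF R Q (fun d => if s d = a then e d else 0) ((p : ℤ) - a) =
        ∑ d ∈ Ioc Q (2 * Q), e d * (if (p : ℤ) - s d = 0 then 0 else dd R d ((p : ℤ) - s d)) := by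
      intro p _
      have h2 : ∀ a ∈ A, FF R Q (fun d => if s d = a then e d else 0) ((p : ℤ) - a) =
          ∑ d ∈ Ioc Q (2 * Q), (if s d = a then e d *
            (if (p : ℤ) - s d = 0 then 0 else dd R d ((p : ℤ) - s d)) else 0) := by
        intro a _
        unfold FF
        split_ifs with h3
        · symm
          apply Finset.sum_eq_zero
          intro d _
          split_ifs with h4 h5
          · ring
          · exact absurd (by rw [h4]; exact h3) h5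
          · rfl
        · apply Finset.sum_congr rfl
          intro d _
          beta_reduce
          split_ifs with h4 h5
          · exact absurd (by rw [← h4]; exact h5) h3
          · rw [h4]
          · rw [zero_mul]
      rw [Finset.sum_congr rfl h2, Finset.sum_comm]
      apply Finset.sum_congr rfl
      intro d _
      rw [Finset.sum_ite_eq A (s d), if_pos (hs d)]
    rw [Finset.sum_congr rfl h1, Finset.sum_comm]
    unfold gsS
    rw [Finset.sum_filter]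
    apply Finset.sum_congr rfl
    intro d _
    rw [← Finset.mul_sum]
    change _ = _ * gg R P (s d) d
    rw [he]
    simp only
    split_ifs with h2 h3
    · rw [abs_of_nonneg h3, one_mul]
    · rw [abs_of_neg (not_le.1 h3)]
      ring
    · ring

/-- The sum over all `d ≤ D` is at most the sum of the blocks. -/
theorem CntS_cover {R D J : ℕ} (hJ : D ≤ R * 2 ^ J) (P : Finset ℕ) (s : ℕ → ℤ) :
    ∑ d ∈ (Icc 1 D).filter (fun d : ℕ => IsCoprime (d : ℤ) (s d)), |gg R P (s d) d| ≤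
      ∑ j ∈ range J, gsS R (R * 2 ^ j) D P s := by
  classical
  calc ∑ d ∈ (Icc 1 D).filter (fun d : ℕ => IsCoprime (d : ℤ) (s d)), |gg R P (s d) d|
      ≤ ∑ d ∈ (Icc 1 D).filter (fun d : ℕ => IsCoprime (d : ℤ) (s d)), ∑ j ∈ range J,
          (if R * 2 ^ j < d ∧ d ≤ 2 * (R * 2 ^ j) then |gg R P (s d) d| else 0) := by
        apply Finset.sum_le_sum
        intro d hd
        rw [Finset.mem_filter, Finset.mem_Icc] at hd
        rcases le_or_gt d R with hdR | hdR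
        · have : gg R P (s d) d = 0 := by
            unfold gg
            apply Finset.sum_eq_zero
            intro p _
            split_ifs
            · rfl
            · exact Hf_dd_zero hd.1.1 hdR _
          rw [this, abs_zero]
          apply Finset.sum_nonneg
          intro j _
          split_ifs <;> exact le_rfl
        · obtain ⟨j, hj, h1⟩ := Cnt_exists_block hdR J (hd.1.2.trans hJ)
          refine le_trans (le_of_eq ?_) (Finset.single_le_sum (f := fun j =>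
            (if R * 2 ^ j < d ∧ d ≤ 2 * (R * 2 ^ j) then |gg R P (s d) d| else 0)) ?_
            (Finset.mem_range.2 hj))
          · rw [if_pos h1]
          · intro j _
            split_ifs
            · exact abs_nonneg _
            · exact le_rfl
    _ = ∑ j ∈ range J, ∑ d ∈ (Icc 1 D).filter (fun d : ℕ => IsCoprime (d : ℤ) (s d)),
          (if R * 2 ^ j < d ∧ d ≤ 2 * (R * 2 ^ j) then |gg R P (s d) d| else 0) := Finset.sum_comm
    _ ≤ _ := by
        apply Finset.sum_le_sum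
        intro j _
        rw [← Finset.sum_filter]
        unfold gsS
        apply Finset.sum_le_sum_of_subset_of_nonneg
        · intro d hd
          rw [Finset.mem_filter, Finset.mem_filter, Finset.mem_Icc] at hd
          rw [Finset.mem_filter, Finset.mem_Ioc]
          exact ⟨hd.2, hd.1.1.2, hd.1.2⟩
        · intro d _ _
          exact abs_nonneg _

/-- **Duality.** The indices `i` for which some selector in `A i` has a sum larger than `V` are in `J` sets whose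
cardinalities `k` satisfy `k (V/J)^2 ≤ 2 |P| (C₂ N (log N)^k + k (2 M^2 C₁ N^(1-η)))`. -/
theorem CntS_count {C₁ C₂ η : ℝ} {k : ℕ}
    (hoff : ∀ (N Q : ℕ) (c c' : ℕ → ℝ) (a b : ℤ), 1 ≤ N →
      RR N ≤ Q → (Q : ℝ) ≤ 2 * (N : ℝ) ^ ((1 : ℝ) / 2 + 1 / 1000) →
      (∀ d, |c d| ≤ 1) → (∀ d, |c' d| ≤ 1) → a ≠ b → |a| ≤ (N : ℤ) → |b| ≤ (N : ℤ) →
      |∑ n ∈ Icc (-(N : ℤ)) N, tri N n * (FF (RR N) Q c (n - a) * FF (RR N) Q c' (n - b))| ≤
        C₁ * (N : ℝ) ^ (1 - η))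
    (hdia : ∀ (N R Q : ℕ) (c : ℤ → ℕ → ℝ) (A : Finset ℤ),
      2 ≤ N → R ≤ N → Q ≤ N → (∀ d, ∑ a ∈ A, |c a d| ≤ 1) → (∀ a ∈ A, |a| ≤ (N : ℤ)) →
      ∑ a ∈ A, ∑ n ∈ Icc (-(N : ℤ)) N, tri N n * (FF R Q (c a) (n - a)) ^ 2 ≤
        C₂ * (N : ℝ) * (Real.log N) ^ k)
    (hC₁ : 0 ≤ C₁) (hC₂ : 0 ≤ C₂)
    {N D J : ℕ} (hN : 2 ≤ N) (hD : (D : ℝ) ≤ 2 * (N : ℝ) ^ ((1 : ℝ) / 2 + 1 / 1000)) (hDN : D ≤ N)
    (hJ : D ≤ RR N * 2 ^ J) (hJ1 : 1 ≤ J) {M : ℝ} (n : ℕ) (A : ℕ → Finset ℤ)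
    (hdisj : ∀ i < n, ∀ j < n, i ≠ j → Disjoint (A i) (A j))
    (hAN : ∀ i < n, ∀ a ∈ A i, |a| ≤ (N : ℤ)) (hAM : ∀ i < n, ((A i).card : ℝ) ≤ M)
    (P : Finset ℕ) (hP : ∀ p ∈ P, 2 * p ≤ N) {V : ℝ} (hV : 0 < V) :
    ∃ B : ℕ → Finset ℕ,
      (∀ i < n, (∀ j < J, i ∉ B j) → ∀ s : ℕ → ℤ, (∀ d, s d ∈ A i) →
        ∑ d ∈ (Icc 1 D).filter (fun d : ℕ => IsCoprime (d : ℤ) (s d)), |gg (RR N) P (s d) d| ≤ V) ∧
      ∀ j < J, ((B j).card : ℝ) * (V / J) ^ 2 ≤
        2 * P.card * (C₂ * N * (Real.log N) ^ k + (B j).card * (2 * (M ^ 2 * (C₁ * (N : ℝ) ^ (1 - η))))) := by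
  classical
  have hJ0 : (0 : ℝ) < J := by exact_mod_cast hJ1
  have hN1 : (1 : ℝ) ≤ N := by exact_mod_cast (by omega : 1 ≤ N)
  have hlog : 0 ≤ Real.log N := Real.log_nonneg hN1
  refine ⟨fun j => (range n).filter (fun i => ∃ s : ℕ → ℤ, (∀ d, s d ∈ A i) ∧
    V / J < gsS (RR N) (RR N * 2 ^ j) D P s), ?_, ?_⟩
  · intro i hi hB s hs
    have h1 : ∀ j ∈ range J, gsS (RR N) (RR N * 2 ^ j) D P s ≤ V / J := by
      intro j hj
      have h2 := hB j (Finset.mem_range.1 hj)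
      rw [Finset.mem_filter, Finset.mem_range] at h2
      by_contra h3
      exact h2 ⟨hi, s, hs, not_le.1 h3⟩
    refine (CntS_cover hJ P s).trans ((Finset.sum_le_sum h1).trans ?_)
    rw [Finset.sum_const, Finset.card_range, nsmul_eq_mul]
    apply le_of_eq
    field_simp
  · intro j hj
    have hVJ : 0 ≤ V / J := by positivity
    rcases le_or_gt D (RR N * 2 ^ j) with hQ | hQ
    · -- empty blocks
      have h0 : ((range n).filter (fun i => ∃ s : ℕ → ℤ, (∀ d, s d ∈ A i) ∧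
          V / J < gsS (RR N) (RR N * 2 ^ j) D P s)) = ∅ := by
        apply Finset.filter_false_of_mem
        rintro i _ ⟨s, -, hs⟩
        have h1 : gsS (RR N) (RR N * 2 ^ j) D P s = 0 := by
          unfold gsS
          rw [Finset.filter_false_of_mem, Finset.sum_empty]
          intro d hd
          rw [Finset.mem_Ioc] at hd
          rintro ⟨h2, -⟩
          omega
        rw [h1] at hs
        exact absurd hs (not_lt.2 hVJ)
      beta_reduce
      rw [h0]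
      simp only [Finset.card_empty, Nat.cast_zero, zero_mul, add_zero]
      positivity
    · -- the selectors and the coefficients
      have hex : ∀ i : ℕ, ∃ c : ℤ → ℕ → ℝ, i ∈ (range n).filter (fun i => ∃ s : ℕ → ℤ, (∀ d, s d ∈ A i) ∧
          V / J < gsS (RR N) (RR N * 2 ^ j) D P s) → (∀ a d, |c a d| ≤ 1) ∧
          (∀ d, ∑ a ∈ A i, |c a d| ≤ 1) ∧
          V / J ≤ ∑ p ∈ P, ∑ a ∈ A i, FF (RR N) (RR N * 2 ^ j) (c a) ((p : ℤ) - a) := by
        intro i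
        by_cases hi : i ∈ (range n).filter (fun i => ∃ s : ℕ → ℤ, (∀ d, s d ∈ A i) ∧
          V / J < gsS (RR N) (RR N * 2 ^ j) D P s)
        · obtain ⟨s, hs1, hs2⟩ := (Finset.mem_filter.1 hi).2
          obtain ⟨c, hc1, hc2, hc3⟩ := CntS_block (RR N) (RR N * 2 ^ j) D P (A i) s hs1
          exact ⟨c, fun _ => ⟨hc1, hc2, by rw [← hc3]; exact hs2.le⟩⟩
        · exact ⟨fun _ _ => 0, fun h => absurd h hi⟩
      choose c hc using hex
      have hlt : ∀ i ∈ (range n).filter (fun i => ∃ s : ℕ → ℤ, (∀ d, s d ∈ A i) ∧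
          V / J < gsS (RR N) (RR N * 2 ^ j) D P s), i < n := fun i hi =>
        Finset.mem_range.1 (Finset.mem_filter.1 hi).1
      refine CntS_bessel hoff hdia hC₁ hC₂ hN (Q := RR N * 2 ^ j) (Nat.le_mul_of_pos_right _ (by positivity))
        ?_ ?_ A _ (fun i hi i' hi' h => hdisj i (hlt i hi) i' (hlt i' hi') h)
        (fun i hi => hAN i (hlt i hi)) (fun i hi => hAM i (hlt i hi)) P hP c
        (fun i hi => (hc i hi).1) (fun i hi => (hc i hi).2.1) hVJ (fun i hi => (hc i hi).2.2)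
      · refine le_trans ?_ hD
        exact_mod_cast hQ.le
      · omega

end Pool.Agent.Lib.TB
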