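import Pool.Agent.Lib.TB.StmK
import Pool.Agent.Lib.TB.CntS

/-!
# TB: the number of bad functions of a family (duality)
-/

namespace Pool.Agent.Lib.TB

open Finset Pool.Agent.Results.MP_00e23e_nt

/-- The sign of the block sum at the modulus `d`. -/
noncomputable def CntK_e (R D : ℕ) (P : Finset ℕ) (s : ℕ → ℤ) (d : ℕ) : ℝ := by
  classical
  exact if d ∈ Icc 1 D ∧ IsCoprime (d : ℤ) (s d) then (if 0 ≤ gg R P (s d) d then 1 else -1) else 0

theorem CntK_e_le (R D : ℕ) (P : Finset ℕ) (s : ℕ → ℤ) (d : ℕ) : |CntK_e R D P s d| ≤ 1 := by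
  unfold CntK_e
  split_ifs <;> simp

theorem CntK_e_mem {R D : ℕ} {P : Finset ℕ} {s : ℕ → ℤ} {d : ℕ} (h : CntK_e R D P s d ≠ 0) :
    d ∈ Icc 1 D := by
  unfold CntK_e at h
  split_ifs at h with h1 h2
  · exact h1.1
  · exact h1.1
  · exact absurd rfl h

/-- The sum over the block as a sum of `FF` over `P`. -/
theorem CntK_block (R Q D : ℕ) (P : Finset ℕ) (A : Finset ℤ) (s : ℕ → ℤ) (hQ : 1 ≤ Q)
    (hs : ∀ d ∈ Icc 1 D, s d ∈ A) :
    gsS R Q D P s = ∑ p ∈ P, ∑ a ∈ A,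
      FF R Q (fun d => if s d = a then CntK_e R D P s d else 0) ((p : ℤ) - a) := by
  classical
  have h1 : ∀ p ∈ P, ∑ a ∈ A, FF R Q (fun d => if s d = a then CntK_e R D P s d else 0) ((p : ℤ) - a) =
      ∑ d ∈ Ioc Q (2 * Q), CntK_e R D P s d *
        (if (p : ℤ) - s d = 0 then 0 else dd R d ((p : ℤ) - s d)) := by
    intro p _
    have h2 : ∀ a ∈ A, FF R Q (fun d => if s d = a then CntK_e R D P s d else 0) ((p : ℤ) - a) =
        ∑ d ∈ Ioc Q (2 * Q), (if s d = a then CntK_e R D P s d *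
          (if (p : ℤ) - s d = 0 then 0 else dd R d ((p : ℤ) - s d)) else 0) := by
      intro a _
      unfold FF
      split_ifs with h3
      · symm
        apply Finset.sum_eq_zero
        intro d _
        split_ifs with h4 h5
        · ring
        · exact absurd (by rw [h4]; exact h3) h5
        · rfl
      · apply Finset.sum_congr rfl
        intro d _
        beta_reduce
        split_ifs with h4 h5
        · exact absurd (by rw [← h4]; exact h5) h3
        · rw [h4]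
        · rw [zero_mul]
    rw [Finset.sum_congr rfl h2, Finset.sum_comm]
    apply Finset.sum_congr rfl
    intro d _
    rw [Finset.sum_ite_eq A (s d)]
    split_ifs with h3 h4 h4
    · rfl
    · rfl
    · rw [mul_zero]
    · by_cases h5 : CntK_e R D P s d = 0
      · rw [h5, zero_mul]
      · exact absurd (hs d (CntK_e_mem h5)) h3
  rw [Finset.sum_congr rfl h1, Finset.sum_comm]
  unfold gsS
  rw [Finset.sum_filter]
  apply Finset.sum_congr rfl
  intro d hd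
  rw [Finset.mem_Ioc] at hd
  rw [← Finset.mul_sum]
  change _ = _ * gg R P (s d) d
  unfold CntK_e
  by_cases h2 : d ≤ D ∧ IsCoprime (d : ℤ) (s d)
  · rw [if_pos h2, if_pos ⟨Finset.mem_Icc.2 ⟨by omega, h2.1⟩, h2.2⟩]
    split_ifs with h3
    · rw [abs_of_nonneg h3, one_mul]
    · rw [abs_of_neg (not_le.1 h3)]
      ring
  · rw [if_neg h2, if_neg (fun h => h2 ⟨(Finset.mem_Icc.1 h.1).2, h.2⟩), zero_mul]

/-- The functional `FF` is additive in the coefficients. -/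
theorem CntK_FF_sum {ι : Type} (R Q : ℕ) (T : Finset ι) (c : ι → ℕ → ℝ) (m : ℤ) :
    FF R Q (fun d => ∑ i ∈ T, c i d) m = ∑ i ∈ T, FF R Q (c i) m := by
  unfold FF
  split_ifs with h
  · rw [Finset.sum_const_zero]
  · rw [Finset.sum_comm]
    apply Finset.sum_congr rfl
    intro d _
    rw [Finset.sum_mul]

/-- **Duality.** A family `T` of functions, pairwise distinct at every modulus, whose block sums are at
least `V`. -/
theorem CntK_bad {C₁ C₂ η : ℝ} {k : ℕ}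
    (hoff : ∀ (N Q : ℕ) (c c' : ℕ → ℝ) (a b : ℤ), 1 ≤ N →
      RR N ≤ Q → (Q : ℝ) ≤ 2 * (N : ℝ) ^ ((1 : ℝ) / 2 + 1 / 1000) →
      (∀ d, |c d| ≤ 1) → (∀ d, |c' d| ≤ 1) → a ≠ b → |a| ≤ (N : ℤ) → |b| ≤ (N : ℤ) →
      |∑ n ∈ Icc (-(N : ℤ)) N, tri N n * (FF (RR N) Q c (n - a) * FF (RR N) Q c' (n - b))| ≤
        C₁ * (N : ℝ) ^ (1 - η))
    (hdia : ∀ (N R Q : ℕ) (c : ℤ → ℕ → ℝ) (A : Finset ℤ) (K : ℝ),
      2 ≤ N → R ≤ N → Q ≤ N → (∀ a ∈ A, ∀ d, |c a d| ≤ 1) → (∀ d, ∑ a ∈ A, |c a d| ≤ K) →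
      (∀ a ∈ A, |a| ≤ (N : ℤ)) →
      ∑ a ∈ A, ∑ n ∈ Icc (-(N : ℤ)) N, tri N n * (FF R Q (c a) (n - a)) ^ 2 ≤
        C₂ * K * (N : ℝ) * (Real.log N) ^ k)
    (hC₁ : 0 ≤ C₁)
    {N Q D : ℕ} (hN : 2 ≤ N) (hQ : RR N ≤ Q) (hQ1 : 1 ≤ Q)
    (hQ2 : (Q : ℝ) ≤ 2 * (N : ℝ) ^ ((1 : ℝ) / 2 + 1 / 1000))
    (hQN : Q ≤ N) {M : ℝ} (T : Finset ℕ) (s : ℕ → ℕ → ℤ)
    (hsN : ∀ i ∈ T, ∀ d ∈ Icc 1 D, |s i d| ≤ (N : ℤ))
    (hsM : ∀ i ∈ T, (((Icc 1 D).image (s i)).card : ℝ) ≤ M)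
    (hne : ∀ i ∈ T, ∀ j ∈ T, i ≠ j → ∀ d ∈ Icc 1 D, s i d ≠ s j d)
    (P : Finset ℕ) (hP : ∀ p ∈ P, 2 * p ≤ N) {V : ℝ} (hV : 0 ≤ V)
    (h : ∀ i ∈ T, V ≤ gsS (RR N) Q D P (s i)) :
    T.card * V ^ 2 ≤ 2 * P.card * (C₂ * N * (Real.log N) ^ k + T.card *
      (M ^ 2 * (C₁ * (N : ℝ) ^ (1 - η)))) := by
  classical
  have hN1 : (1 : ℝ) ≤ N := by exact_mod_cast (by omega : 1 ≤ N)
  have hN0 : (0 : ℝ) < N := by linarith
  have hE0 : 0 ≤ C₁ * (N : ℝ) ^ (1 - η) := by positivity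
  rcases Nat.eq_zero_or_pos T.card with h0 | hpos
  · -- the empty family: the diagonal bound for the empty set of integers shows that the constant is fine
    have h1 := hdia N (RR N) Q (fun _ _ => 0) ∅ 1 hN (hQ.trans hQN) hQN (by simp) (by simp) (by simp)
    rw [Finset.sum_empty, mul_one] at h1
    rw [h0, Nat.cast_zero, zero_mul, zero_mul, add_zero]
    have hPc : (0 : ℝ) ≤ P.card := Nat.cast_nonneg _
    positivity
  have hT0 : (0 : ℝ) < T.card := by exact_mod_cast hpos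
  have hM0 : 0 ≤ M := by
    obtain ⟨i, hi⟩ := Finset.card_pos.1 hpos
    exact le_trans (Nat.cast_nonneg _) (hsM i hi)
  obtain ⟨A, hA⟩ : ∃ A : Finset ℤ, A = T.biUnion fun i => (Icc 1 D).image (s i) := ⟨_, rfl⟩
  have hsA : ∀ i ∈ T, ∀ d ∈ Icc 1 D, s i d ∈ A := by
    intro i hi d hd
    rw [hA]
    exact Finset.mem_biUnion.2 ⟨i, hi, Finset.mem_image_of_mem _ hd⟩
  have hAN : ∀ a ∈ A, |a| ≤ (N : ℤ) := by
    intro a ha
    rw [hA] at ha
    obtain ⟨i, hi, ha'⟩ := Finset.mem_biUnion.1 ha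
    obtain ⟨d, hd, rfl⟩ := Finset.mem_image.1 ha'
    exact hsN i hi d hd
  have hAc : (A.card : ℝ) ≤ T.card * M := by
    rw [hA]
    calc ((T.biUnion fun i => (Icc 1 D).image (s i)).card : ℝ) ≤
          ((∑ i ∈ T, ((Icc 1 D).image (s i)).card : ℕ) : ℝ) := by
          exact_mod_cast Finset.card_biUnion_le
      _ = ∑ i ∈ T, (((Icc 1 D).image (s i)).card : ℝ) := by push_cast; rfl
      _ ≤ ∑ i ∈ T, M := Finset.sum_le_sum hsM
      _ = _ := by rw [Finset.sum_const, nsmul_eq_mul]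
  -- the coefficients
  obtain ⟨c₀, hc₀⟩ : ∃ c₀ : ℕ → ℤ → ℕ → ℝ, c₀ = fun i a d =>
      if s i d = a then CntK_e (RR N) D P (s i) d else 0 := ⟨_, rfl⟩
  obtain ⟨c, hc⟩ : ∃ c : ℤ → ℕ → ℝ, c = fun a d => ∑ i ∈ T, c₀ i a d := ⟨_, rfl⟩
  have hc₀1 : ∀ i a d, |c₀ i a d| ≤ 1 := by
    intro i a d
    rw [hc₀]
    beta_reduce
    split_ifs
    · exact CntK_e_le _ _ _ _ _
    · simp
  have hc1 : ∀ a d, |c a d| ≤ 1 := by
    intro a d
    rw [hc]
    beta_reduce
    by_cases hex : ∃ i ∈ T, c₀ i a d ≠ 0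
    · obtain ⟨i, hi, hne0⟩ := hex
      rw [Finset.sum_eq_single i]
      · exact hc₀1 i a d
      · intro j hj hji
        by_contra hne1
        rw [hc₀] at hne0 hne1
        beta_reduce at hne0 hne1
        have e1 : s i d = a := by
          by_contra h3
          rw [if_neg h3] at hne0
          exact hne0 rfl
        have e2 : s j d = a := by
          by_contra h3
          rw [if_neg h3] at hne1
          exact hne1 rfl
        rw [if_pos e1] at hne0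
        exact hne i hi j hj (Ne.symm hji) d (CntK_e_mem hne0) (e1.trans e2.symm)
      · intro h3
        exact absurd hi h3
    · rw [Finset.sum_eq_zero]
      · simp
      · intro i hi
        by_contra h3
        exact hex ⟨i, hi, h3⟩
  have hcK : ∀ d, ∑ a ∈ A, |c a d| ≤ (T.card : ℝ) := by
    intro d
    calc ∑ a ∈ A, |c a d| ≤ ∑ a ∈ A, ∑ i ∈ T, |c₀ i a d| := by
          apply Finset.sum_le_sum
          intro a _
          rw [hc]
          exact Finset.abs_sum_le_sum_abs _ _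
      _ = ∑ i ∈ T, ∑ a ∈ A, |c₀ i a d| := Finset.sum_comm
      _ ≤ ∑ i ∈ T, (1 : ℝ) := by
          apply Finset.sum_le_sum
          intro i _
          by_cases hmem : s i d ∈ A
          · rw [Finset.sum_eq_single (s i d)]
            · exact hc₀1 i _ d
            · intro a _ ha
              rw [hc₀]
              beta_reduce
              rw [if_neg (Ne.symm ha), abs_zero]
            · intro h3
              exact absurd hmem h3
          · rw [Finset.sum_eq_zero]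
            · norm_num
            · intro a ha
              rw [hc₀]
              beta_reduce
              rw [if_neg (fun e : s i d = a => hmem (by rw [e]; exact ha)), abs_zero]
      _ = _ := by rw [Finset.sum_const, nsmul_eq_mul, mul_one]
  -- the sum of the block sums
  obtain ⟨G, hG⟩ : ∃ G : ℤ → ℝ, G = fun n => ∑ a ∈ A, FF (RR N) Q (c a) (n - a) := ⟨_, rfl⟩
  have hsum : ∑ i ∈ T, gsS (RR N) Q D P (s i) = ∑ p ∈ P, G p := by
    calc ∑ i ∈ T, gsS (RR N) Q D P (s i) =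
          ∑ i ∈ T, ∑ p ∈ P, ∑ a ∈ A, FF (RR N) Q (c₀ i a) ((p : ℤ) - a) := by
          apply Finset.sum_congr rfl
          intro i hi
          rw [CntK_block (RR N) Q D P A (s i) hQ1 (hsA i hi), hc₀]
      _ = ∑ p ∈ P, ∑ i ∈ T, ∑ a ∈ A, FF (RR N) Q (c₀ i a) ((p : ℤ) - a) := Finset.sum_comm
      _ = ∑ p ∈ P, G p := by
          apply Finset.sum_congr rfl
          intro p _
          rw [Finset.sum_comm, hG]
          apply Finset.sum_congr rfl
          intro a _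
          rw [hc]
          exact (CntK_FF_sum (RR N) Q T (fun i => c₀ i a) _).symm
  have hlow : (T.card : ℝ) * V ≤ ∑ p ∈ P, G p := by
    rw [← hsum]
    calc (T.card : ℝ) * V = ∑ i ∈ T, V := by rw [Finset.sum_const, nsmul_eq_mul]
      _ ≤ _ := Finset.sum_le_sum h
  -- Cauchy-Schwarz
  have hCS : (∑ p ∈ P, G p) ^ 2 ≤ P.card * ∑ p ∈ P, (G p) ^ 2 := sq_sum_le_card_mul_sum_sq
  have hmaj : ∑ p ∈ P, (G p) ^ 2 ≤ 2 * ∑ n ∈ Icc (-(N : ℤ)) N, tri N n * (G n) ^ 2 := by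
    rw [Finset.mul_sum]
    calc ∑ p ∈ P, (G p) ^ 2 = ∑ n ∈ P.map Nat.castEmbedding, (G n) ^ 2 := by
          rw [Finset.sum_map]
          rfl
      _ ≤ ∑ n ∈ P.map Nat.castEmbedding, 2 * (tri N n * (G n) ^ 2) := by
          apply Finset.sum_le_sum
          intro n hn
          obtain ⟨p, hp, rfl⟩ := Finset.mem_map.1 hn
          have h2 : (2 * p : ℝ) ≤ N := by exact_mod_cast hP p hp
          have h3 : 1 / 2 ≤ tri N ((Nat.castEmbedding p : ℤ)) := by
            refine le_trans ?_ (le_max_right _ _)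
            simp only [Nat.castEmbedding_apply, Int.cast_natCast]
            rw [abs_of_nonneg (Nat.cast_nonneg p)]
            have h3 : (p : ℝ) / N ≤ 1 / 2 := by
              rw [div_le_div_iff₀ (by linarith) (by norm_num)]
              linarith
            linarith
          have h4 := sq_nonneg (G ((Nat.castEmbedding p : ℤ)))
          nlinarith
      _ ≤ ∑ n ∈ Icc (-(N : ℤ)) N, 2 * (tri N n * (G n) ^ 2) := by
          apply Finset.sum_le_sum_of_subset_of_nonneg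
          · intro n hn
            obtain ⟨p, hp, rfl⟩ := Finset.mem_map.1 hn
            have := hP p hp
            rw [Finset.mem_Icc]
            simp only [Nat.castEmbedding_apply]
            constructor <;> omega
          · intro n _ _
            have : 0 ≤ tri N n := le_max_left _ _
            positivity
  have hdiag : ∑ n ∈ Icc (-(N : ℤ)) N, tri N n * (G n) ^ 2 ≤
      C₂ * T.card * N * (Real.log N) ^ k + A.card * A.card * (C₁ * (N : ℝ) ^ (1 - η)) := by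
    rw [hG]
    refine CntS_diag (Icc (-(N : ℤ)) N) (tri N) A (fun a n => FF (RR N) Q (c a) (n - a)) hE0
      (hdia N (RR N) Q c A T.card hN (hQ.trans hQN) hQN (fun a _ d => hc1 a d) hcK hAN) ?_
    intro a ha b hb hab
    exact hoff N Q (c a) (c b) a b (by omega) hQ hQ2 (hc1 a) (hc1 b) hab (hAN a ha) (hAN b hb)
  have hAA : (A.card : ℝ) * A.card * (C₁ * (N : ℝ) ^ (1 - η)) ≤
      (T.card * M) * (T.card * M) * (C₁ * (N : ℝ) ^ (1 - η)) := by
    apply mul_le_mul_of_nonneg_right _ hE0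
    exact mul_le_mul hAc hAc (Nat.cast_nonneg _) (by positivity)
  have hPc : (0 : ℝ) ≤ P.card := Nat.cast_nonneg _
  have hfin : (T.card * V) ^ 2 ≤ P.card * (2 * (C₂ * T.card * N * (Real.log N) ^ k +
      (T.card * M) * (T.card * M) * (C₁ * (N : ℝ) ^ (1 - η)))) := by
    calc (T.card * V) ^ 2 ≤ (∑ p ∈ P, G p) ^ 2 := pow_le_pow_left₀ (by positivity) hlow 2
      _ ≤ P.card * ∑ p ∈ P, (G p) ^ 2 := hCS
      _ ≤ _ := by
          apply mul_le_mul_of_nonneg_left _ hPc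
          linarith
  have e1 : (T.card * V) ^ 2 = T.card * (T.card * V ^ 2) := by ring
  have e2 : P.card * (2 * (C₂ * T.card * N * (Real.log N) ^ k +
      (T.card * M) * (T.card * M) * (C₁ * (N : ℝ) ^ (1 - η)))) =
      T.card * (2 * P.card * (C₂ * N * (Real.log N) ^ k + T.card *
      (M ^ 2 * (C₁ * (N : ℝ) ^ (1 - η))))) := by ring
  rw [e1, e2] at hfin
  exact le_of_mul_le_mul_left hfin hT0

/-- **Duality.** The functions of the family with a sum larger than `V` are in `J` sets whose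
cardinalities are bounded by `CntK_bad`. -/
theorem CntK_count {C₁ C₂ η : ℝ} {k : ℕ}
    (hoff : ∀ (N Q : ℕ) (c c' : ℕ → ℝ) (a b : ℤ), 1 ≤ N →
      RR N ≤ Q → (Q : ℝ) ≤ 2 * (N : ℝ) ^ ((1 : ℝ) / 2 + 1 / 1000) →
      (∀ d, |c d| ≤ 1) → (∀ d, |c' d| ≤ 1) → a ≠ b → |a| ≤ (N : ℤ) → |b| ≤ (N : ℤ) →
      |∑ n ∈ Icc (-(N : ℤ)) N, tri N n * (FF (RR N) Q c (n - a) * FF (RR N) Q c' (n - b))| ≤
        C₁ * (N : ℝ) ^ (1 - η))
    (hdia : ∀ (N R Q : ℕ) (c : ℤ → ℕ → ℝ) (A : Finset ℤ) (K : ℝ),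
      2 ≤ N → R ≤ N → Q ≤ N → (∀ a ∈ A, ∀ d, |c a d| ≤ 1) → (∀ d, ∑ a ∈ A, |c a d| ≤ K) →
      (∀ a ∈ A, |a| ≤ (N : ℤ)) →
      ∑ a ∈ A, ∑ n ∈ Icc (-(N : ℤ)) N, tri N n * (FF R Q (c a) (n - a)) ^ 2 ≤
        C₂ * K * (N : ℝ) * (Real.log N) ^ k)
    (hC₁ : 0 ≤ C₁) (hC₂ : 0 ≤ C₂)
    {N D J : ℕ} (hN : 2 ≤ N) (hR : 1 ≤ RR N)
    (hD : (D : ℝ) ≤ 2 * (N : ℝ) ^ ((1 : ℝ) / 2 + 1 / 1000)) (hDN : D ≤ N)
    (hJ : D ≤ RR N * 2 ^ J) (hJ1 : 1 ≤ J) {M : ℝ} (I : Finset ℕ) (s : ℕ → ℕ → ℤ)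
    (hsN : ∀ i ∈ I, ∀ d ∈ Icc 1 D, |s i d| ≤ (N : ℤ))
    (hsM : ∀ i ∈ I, (((Icc 1 D).image (s i)).card : ℝ) ≤ M)
    (hne : ∀ i ∈ I, ∀ j ∈ I, i ≠ j → ∀ d ∈ Icc 1 D, s i d ≠ s j d)
    (P : Finset ℕ) (hP : ∀ p ∈ P, 2 * p ≤ N) {V : ℝ} (hV : 0 < V) :
    ∃ B : ℕ → Finset ℕ, (∀ j, B j ⊆ I) ∧
      (∀ i ∈ I, (∀ j < J, i ∉ B j) →
        ∑ d ∈ (Icc 1 D).filter (fun d : ℕ => IsCoprime (d : ℤ) (s i d)),
          |gg (RR N) P (s i d) d| ≤ V) ∧
      ∀ j < J, ((B j).card : ℝ) * (V / J) ^ 2 ≤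
        2 * P.card * (C₂ * N * (Real.log N) ^ k + (B j).card * (M ^ 2 * (C₁ * (N : ℝ) ^ (1 - η)))) := by
  classical
  have hJ0 : (0 : ℝ) < J := by exact_mod_cast hJ1
  have hN1 : (1 : ℝ) ≤ N := by exact_mod_cast (by omega : 1 ≤ N)
  have hlog : 0 ≤ Real.log N := Real.log_nonneg hN1
  refine ⟨fun j => I.filter (fun i => V / J < gsS (RR N) (RR N * 2 ^ j) D P (s i)),
    fun j => Finset.filter_subset _ _, ?_, ?_⟩
  · intro i hi hB
    have h1 : ∀ j ∈ range J, gsS (RR N) (RR N * 2 ^ j) D P (s i) ≤ V / J := by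
      intro j hj
      have h2 := hB j (Finset.mem_range.1 hj)
      rw [Finset.mem_filter] at h2
      by_contra h3
      exact h2 ⟨hi, not_le.1 h3⟩
    refine (CntS_cover hJ P (s i)).trans ((Finset.sum_le_sum h1).trans ?_)
    rw [Finset.sum_const, Finset.card_range, nsmul_eq_mul]
    apply le_of_eq
    field_simp
  · intro j hj
    have hVJ : 0 ≤ V / J := by positivity
    rcases le_or_gt D (RR N * 2 ^ j) with hQ | hQ
    · -- empty blocks
      have h0 : (I.filter (fun i => V / J < gsS (RR N) (RR N * 2 ^ j) D P (s i))) = ∅ := by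
        apply Finset.filter_false_of_mem
        intro i _ hs
        have h1 : gsS (RR N) (RR N * 2 ^ j) D P (s i) = 0 := by
          unfold gsS
          rw [Finset.filter_false_of_mem, Finset.sum_empty]
          intro d hd
          rw [Finset.mem_Ioc] at hd
          rintro ⟨h2, -⟩
          omega
        rw [h1] at hs
        exact absurd hs (not_lt.2 hVJ)
      beta_reduce
      rw [h0]
      simp only [Finset.card_empty, Nat.cast_zero, zero_mul, add_zero]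
      positivity
    · have hmem : ∀ i ∈ I.filter (fun i => V / J < gsS (RR N) (RR N * 2 ^ j) D P (s i)), i ∈ I :=
        fun i hi => (Finset.mem_filter.1 hi).1
      have hpos : 1 ≤ 2 ^ j := Nat.one_le_two_pow
      refine CntK_bad hoff hdia hC₁ hN (Q := RR N * 2 ^ j) (Nat.le_mul_of_pos_right _ (by positivity))
        (Nat.mul_pos hR hpos) ?_ ?_ _ s (fun i hi => hsN i (hmem i hi)) (fun i hi => hsM i (hmem i hi))
        (fun i hi i' hi' => hne i (hmem i hi) i' (hmem i' hi')) P hP hVJ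
        (fun i hi => (Finset.mem_filter.1 hi).2.le)
      · refine le_trans ?_ hD
        exact_mod_cast hQ.le
      · omega

end Pool.Agent.Lib.TB
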