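import Mathlib

/-!
# Bessel's inequality for almost orthogonal functions
-/

set_option autoImplicit false

namespace Pool.Agent.Lib.TB

open Finset

/-- Bessel's inequality. The functions `f a`, `a ∈ A`, on the finite set `N` with the weight `w ≥ 0` have norm at most
`D`, and the absolute value of the inner product of two different ones is at most `E`; every `f a` has a sum of
at least `T ≥ 0` over the set `P ⊆ N`, on which `w ≥ 1/2`. Then `card A * T ^ 2 ≤ 2 * card P * (D + card A * E)`. -/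
theorem bessel {ι α : Type} [DecidableEq ι] (A : Finset ι) (N P : Finset α) (w : α → ℝ) (f : ι → α → ℝ)
    {T D E : ℝ} (hT : 0 ≤ T) (hD : 0 ≤ D) (hE : 0 ≤ E) (hw : ∀ n ∈ N, 0 ≤ w n) (hP : P ⊆ N)
    (hwP : ∀ n ∈ P, 1 / 2 ≤ w n)
    (h1 : ∀ a ∈ A, T ≤ ∑ n ∈ P, f a n)
    (h2 : ∀ a ∈ A, ∑ n ∈ N, w n * (f a n) ^ 2 ≤ D)
    (h3 : ∀ a ∈ A, ∀ b ∈ A, a ≠ b → |∑ n ∈ N, w n * (f a n * f b n)| ≤ E) :
    A.card * T ^ 2 ≤ 2 * P.card * (D + A.card * E) := by
  rcases Nat.eq_zero_or_pos A.card with h0 | hpos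
  · rw [h0, Nat.cast_zero, zero_mul, zero_mul, add_zero]
    positivity
  have hA : (0 : ℝ) < A.card := by exact_mod_cast hpos
  -- the sum of all functions
  have e1 : (A.card : ℝ) * T ≤ ∑ n ∈ P, ∑ a ∈ A, f a n := by
    rw [Finset.sum_comm]
    calc (A.card : ℝ) * T = ∑ a ∈ A, T := by rw [Finset.sum_const, nsmul_eq_mul]
      _ ≤ _ := Finset.sum_le_sum h1
  have e2 : (∑ n ∈ P, ∑ a ∈ A, f a n) ^ 2 ≤ P.card * ∑ n ∈ P, (∑ a ∈ A, f a n) ^ 2 :=
    sq_sum_le_card_mul_sum_sq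
  have e3 : ∑ n ∈ P, (∑ a ∈ A, f a n) ^ 2 ≤ 2 * ∑ n ∈ N, w n * (∑ a ∈ A, f a n) ^ 2 := by
    calc ∑ n ∈ P, (∑ a ∈ A, f a n) ^ 2 ≤ ∑ n ∈ P, 2 * (w n * (∑ a ∈ A, f a n) ^ 2) := by
          apply Finset.sum_le_sum
          intro n hn
          have := hwP n hn
          nlinarith [sq_nonneg (∑ a ∈ A, f a n)]
      _ ≤ ∑ n ∈ N, 2 * (w n * (∑ a ∈ A, f a n) ^ 2) := by
          apply Finset.sum_le_sum_of_subset_of_nonneg hP
          intro n hn _
          have := hw n hn
          positivity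
      _ = _ := by rw [← Finset.mul_sum]
  have e4 : ∑ n ∈ N, w n * (∑ a ∈ A, f a n) ^ 2 ≤ A.card * D + A.card * (A.card * E) := by
    have e5 : ∑ n ∈ N, w n * (∑ a ∈ A, f a n) ^ 2 =
        ∑ a ∈ A, ∑ b ∈ A, ∑ n ∈ N, w n * (f a n * f b n) := by
      have : ∀ n ∈ N, w n * (∑ a ∈ A, f a n) ^ 2 = ∑ a ∈ A, ∑ b ∈ A, w n * (f a n * f b n) := by
        intro n _
        rw [sq, Finset.sum_mul_sum, Finset.mul_sum]
        apply Finset.sum_congr rfl
        intro a _
        rw [Finset.mul_sum]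
      rw [Finset.sum_congr rfl this, Finset.sum_comm]
      apply Finset.sum_congr rfl
      intro a _
      rw [Finset.sum_comm]
    rw [e5]
    have e6 : ∀ a ∈ A, ∑ b ∈ A, ∑ n ∈ N, w n * (f a n * f b n) ≤ D + A.card * E := by
      intro a ha
      rw [← Finset.add_sum_erase A _ ha]
      apply add_le_add
      · refine le_trans (le_of_eq ?_) (h2 a ha)
        apply Finset.sum_congr rfl
        intro n _
        ring
      · calc ∑ b ∈ A.erase a, ∑ n ∈ N, w n * (f a n * f b n) ≤ ∑ b ∈ A.erase a, E := by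
              apply Finset.sum_le_sum
              intro b hb
              rw [Finset.mem_erase] at hb
              exact (le_abs_self _).trans (h3 a ha b hb.2 (Ne.symm hb.1))
          _ = (A.erase a).card * E := by rw [Finset.sum_const, nsmul_eq_mul]
          _ ≤ A.card * E := by
              apply mul_le_mul_of_nonneg_right _ hE
              exact_mod_cast Finset.card_le_card (Finset.erase_subset a A)
    calc ∑ a ∈ A, ∑ b ∈ A, ∑ n ∈ N, w n * (f a n * f b n) ≤ ∑ a ∈ A, (D + A.card * E) :=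
          Finset.sum_le_sum e6
      _ = _ := by rw [Finset.sum_const, nsmul_eq_mul]; ring
  have e7 : ((A.card : ℝ) * T) ^ 2 ≤ (∑ n ∈ P, ∑ a ∈ A, f a n) ^ 2 :=
    pow_le_pow_left₀ (by positivity) e1 2
  have e8 : (A.card : ℝ) * (A.card * T ^ 2) ≤ A.card * (2 * P.card * (D + A.card * E)) := by
    have hPc : (0 : ℝ) ≤ P.card := Nat.cast_nonneg _
    calc (A.card : ℝ) * (A.card * T ^ 2) = ((A.card : ℝ) * T) ^ 2 := by ring
      _ ≤ P.card * ∑ n ∈ P, (∑ a ∈ A, f a n) ^ 2 := e7.trans e2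
      _ ≤ P.card * (2 * (A.card * D + A.card * (A.card * E))) := by
          apply mul_le_mul_of_nonneg_left _ hPc
          linarith [e3, e4]
      _ = _ := by ring
  exact le_of_mul_le_mul_left e8 hA

end Pool.Agent.Lib.TB
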