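import Pool.Agent.Lib.TB.Hf
import Pool.Agent.Lib.TB.Bes

/-!
# TB: the number of bad residues (duality)
-/

namespace Pool.Agent.Lib.TB

open Finset Pool.Agent.Results.MP_00e23e_nt

/-- Bessel's inequality for the functions `FF (RR N) Q (c a) (n - a)`. -/
theorem Cnt_bessel {C₁ C₂ η : ℝ}
    (hoff : ∀ (N Q : ℕ) (c c' : ℕ → ℝ) (a b : ℤ), 1 ≤ N →
      RR N ≤ Q → (Q : ℝ) ≤ 2 * (N : ℝ) ^ ((1 : ℝ) / 2 + 1 / 1000) →
      (∀ d, |c d| ≤ 1) → (∀ d, |c' d| ≤ 1) → a ≠ b → |a| ≤ (N : ℤ) → |b| ≤ (N : ℤ) →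
      |∑ n ∈ Icc (-(N : ℤ)) N, tri N n * (FF (RR N) Q c (n - a) * FF (RR N) Q c' (n - b))| ≤
        C₁ * (N : ℝ) ^ (1 - η))
    (hdia : ∀ (N R Q : ℕ) (c : ℕ → ℝ) (a : ℤ), 2 ≤ N → R ≤ N → Q ≤ N →
      (∀ d, |c d| ≤ 1) → |a| ≤ (N : ℤ) →
      ∑ n ∈ Icc (-(N : ℤ)) N, tri N n * (FF R Q c (n - a)) ^ 2 ≤ C₂ * (N : ℝ) * (Real.log N) ^ 7)
    (hC₁ : 0 ≤ C₁) (hC₂ : 0 ≤ C₂)
    {N Q : ℕ} (hN : 2 ≤ N) (hQ : RR N ≤ Q) (hQ2 : (Q : ℝ) ≤ 2 * (N : ℝ) ^ ((1 : ℝ) / 2 + 1 / 1000))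
    (hQN : Q ≤ N) (A : Finset ℤ) (hA : ∀ a ∈ A, |a| ≤ (N : ℤ)) (P : Finset ℕ) (hP : ∀ p ∈ P, 2 * p ≤ N)
    (c : ℤ → ℕ → ℝ) (hc : ∀ a d, |c a d| ≤ 1) {T : ℝ} (hT : 0 ≤ T)
    (h : ∀ a ∈ A, T ≤ ∑ p ∈ P, FF (RR N) Q (c a) ((p : ℤ) - a)) :
    A.card * T ^ 2 ≤ 2 * P.card * (C₂ * N * (Real.log N) ^ 7 + A.card * (C₁ * (N : ℝ) ^ (1 - η))) := by
  have hN1 : (1 : ℝ) ≤ N := by exact_mod_cast (by omega : 1 ≤ N)
  have hlog : 0 ≤ Real.log N := Real.log_nonneg hN1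
  have hRN : RR N ≤ N := hQ.trans hQN
  have h1 := bessel A (Icc (-(N : ℤ)) N) (P.map Nat.castEmbedding) (tri N)
    (fun a n => FF (RR N) Q (c a) (n - a)) (D := C₂ * N * (Real.log N) ^ 7)
    (E := C₁ * (N : ℝ) ^ (1 - η)) hT (by positivity) (by positivity) ?_ ?_ ?_ ?_ ?_ ?_
  · rwa [Finset.card_map] at h1
  · intro n _
    exact le_max_left _ _
  · intro n hn
    obtain ⟨p, hp, rfl⟩ := Finset.mem_map.1 hn
    have := hP p hp
    rw [Finset.mem_Icc]
    simp only [Nat.castEmbedding_apply]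
    constructor <;> omega
  · intro n hn
    obtain ⟨p, hp, rfl⟩ := Finset.mem_map.1 hn
    have h2 : (2 * p : ℝ) ≤ N := by exact_mod_cast hP p hp
    refine le_trans ?_ (le_max_right _ _)
    simp only [Nat.castEmbedding_apply, Int.cast_natCast]
    rw [abs_of_nonneg (Nat.cast_nonneg p)]
    have h3 : (p : ℝ) / N ≤ 1 / 2 := by
      rw [div_le_div_iff₀ (by linarith) (by norm_num)]
      linarith
    linarith
  · intro a ha
    rw [Finset.sum_map]
    exact h a ha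
  · intro a ha
    exact hdia N (RR N) Q (c a) a hN hRN hQN (hc a) (hA a ha)
  · intro a ha b hb hab
    exact hoff N Q (c a) (c b) a b (by omega) hQ hQ2 (hc a) (hc b) hab (hA a ha) (hA b hb)

/-- `∑_{p ∈ P} dd R d (p - a)` without the term `p = a`. -/
noncomputable def gg (R : ℕ) (P : Finset ℕ) (a : ℤ) (d : ℕ) : ℝ :=
  ∑ p ∈ P, if (p : ℤ) - a = 0 then 0 else dd R d ((p : ℤ) - a)

/-- The sum over the block. -/
noncomputable def gs (R Q D : ℕ) (P : Finset ℕ) (a : ℤ) : ℝ :=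
  ∑ d ∈ (Ioc Q (2 * Q)).filter (fun d : ℕ => d ≤ D ∧ IsCoprime (d : ℤ) a), |gg R P a d|

/-- The sum over the block as a sum of `FF` over `P`. -/
theorem Cnt_block (R Q D : ℕ) (P : Finset ℕ) (a : ℤ) :
    ∃ c : ℕ → ℝ, (∀ d, |c d| ≤ 1) ∧ gs R Q D P a = ∑ p ∈ P, FF R Q c ((p : ℤ) - a) := by
  classical
  refine ⟨fun d => if d ≤ D ∧ IsCoprime (d : ℤ) a then (if 0 ≤ gg R P a d then 1 else -1) else 0, ?_, ?_⟩
  · intro d
    simp only
    split_ifs <;> simp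
  · have h1 : ∀ p ∈ P, FF R Q (fun d => if d ≤ D ∧ IsCoprime (d : ℤ) a then
        (if 0 ≤ gg R P a d then 1 else -1) else 0) ((p : ℤ) - a) =
        ∑ d ∈ Ioc Q (2 * Q), (if d ≤ D ∧ IsCoprime (d : ℤ) a then
        (if 0 ≤ gg R P a d then (1 : ℝ) else -1) else 0) *
          (if (p : ℤ) - a = 0 then 0 else dd R d ((p : ℤ) - a)) := by
      intro p _
      unfold FF
      split_ifs with h
      · simp
      · rfl
    rw [Finset.sum_congr rfl h1, Finset.sum_comm]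
    unfold gs
    rw [Finset.sum_filter]
    apply Finset.sum_congr rfl
    intro d _
    rw [← Finset.mul_sum]
    change _ = _ * gg R P a d
    split_ifs with h2 h3
    · rw [abs_of_nonneg h3, one_mul]
    · rw [abs_of_neg (not_le.1 h3)]
      ring
    · ring

/-- Every `d` in `(R, R 2 ^ J]` is in a dyadic block. -/
theorem Cnt_exists_block {R d : ℕ} (hd : R < d) : ∀ J : ℕ, d ≤ R * 2 ^ J →
    ∃ j < J, R * 2 ^ j < d ∧ d ≤ 2 * (R * 2 ^ j) := by
  intro J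
  induction J with
  | zero =>
    intro h
    rw [pow_zero, mul_one] at h
    omega
  | succ J ih =>
    intro h
    rcases le_or_gt d (R * 2 ^ J) with h1 | h1
    · obtain ⟨j, hj, h2⟩ := ih h1
      exact ⟨j, by omega, h2⟩
    · refine ⟨J, by omega, h1, ?_⟩
      rw [pow_succ] at h
      linarith

/-- The sum over all `d ≤ D` is at most the sum of the blocks. -/
theorem Cnt_cover {R D J : ℕ} (hJ : D ≤ R * 2 ^ J) (P : Finset ℕ) (a : ℤ) :
    ∑ d ∈ (Icc 1 D).filter (fun d : ℕ => IsCoprime (d : ℤ) a), |gg R P a d| ≤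
      ∑ j ∈ range J, gs R (R * 2 ^ j) D P a := by
  classical
  calc ∑ d ∈ (Icc 1 D).filter (fun d : ℕ => IsCoprime (d : ℤ) a), |gg R P a d|
      ≤ ∑ d ∈ (Icc 1 D).filter (fun d : ℕ => IsCoprime (d : ℤ) a), ∑ j ∈ range J,
          (if R * 2 ^ j < d ∧ d ≤ 2 * (R * 2 ^ j) then |gg R P a d| else 0) := by
        apply Finset.sum_le_sum
        intro d hd
        rw [Finset.mem_filter, Finset.mem_Icc] at hd
        rcases le_or_gt d R with hdR | hdR
        · have : gg R P a d = 0 := by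
            unfold gg
            apply Finset.sum_eq_zero
            intro p _
            split_ifs
            · rfl
            · exact Hf_dd_zero hd.1.1 hdR _
          rw [this, abs_zero]
          apply Finset.sum_nonneg
          intro j _
          split_ifs <;> exact le_rfl
        · obtain ⟨j, hj, h1⟩ := Cnt_exists_block hdR J (hd.1.2.trans hJ)
          refine le_trans (le_of_eq ?_) (Finset.single_le_sum (f := fun j =>
            (if R * 2 ^ j < d ∧ d ≤ 2 * (R * 2 ^ j) then |gg R P a d| else 0)) ?_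
            (Finset.mem_range.2 hj))
          · rw [if_pos h1]
          · intro j _
            split_ifs
            · exact abs_nonneg _
            · exact le_rfl
    _ = ∑ j ∈ range J, ∑ d ∈ (Icc 1 D).filter (fun d : ℕ => IsCoprime (d : ℤ) a),
          (if R * 2 ^ j < d ∧ d ≤ 2 * (R * 2 ^ j) then |gg R P a d| else 0) := Finset.sum_comm
    _ ≤ _ := by
        apply Finset.sum_le_sum
        intro j _
        rw [← Finset.sum_filter]
        unfold gs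
        apply Finset.sum_le_sum_of_subset_of_nonneg
        · intro d hd
          rw [Finset.mem_filter, Finset.mem_filter, Finset.mem_Icc] at hd
          rw [Finset.mem_filter, Finset.mem_Ioc]
          exact ⟨hd.2, hd.1.1.2, hd.1.2⟩
        · intro d _ _
          exact abs_nonneg _

theorem gs_nonneg (R Q D : ℕ) (P : Finset ℕ) (a : ℤ) : 0 ≤ gs R Q D P a :=
  Finset.sum_nonneg fun _ _ => abs_nonneg _

/-- **Duality.** The number of the `a` for which the sum over all `d ≤ D` is larger than `V`: the set of the bad `a` is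
the union of `J` sets whose cardinalities `k` satisfy
`k (V/J)^2 ≤ 2 |P| (C₂ N (log N)^7 + k C₁ N^(1-η))`. -/
theorem Cnt_count {C₁ C₂ η : ℝ}
    (hoff : ∀ (N Q : ℕ) (c c' : ℕ → ℝ) (a b : ℤ), 1 ≤ N →
      RR N ≤ Q → (Q : ℝ) ≤ 2 * (N : ℝ) ^ ((1 : ℝ) / 2 + 1 / 1000) →
      (∀ d, |c d| ≤ 1) → (∀ d, |c' d| ≤ 1) → a ≠ b → |a| ≤ (N : ℤ) → |b| ≤ (N : ℤ) →
      |∑ n ∈ Icc (-(N : ℤ)) N, tri N n * (FF (RR N) Q c (n - a) * FF (RR N) Q c' (n - b))| ≤
        C₁ * (N : ℝ) ^ (1 - η))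
    (hdia : ∀ (N R Q : ℕ) (c : ℕ → ℝ) (a : ℤ), 2 ≤ N → R ≤ N → Q ≤ N →
      (∀ d, |c d| ≤ 1) → |a| ≤ (N : ℤ) →
      ∑ n ∈ Icc (-(N : ℤ)) N, tri N n * (FF R Q c (n - a)) ^ 2 ≤ C₂ * (N : ℝ) * (Real.log N) ^ 7)
    (hC₁ : 0 ≤ C₁) (hC₂ : 0 ≤ C₂)
    {N D J : ℕ} (hN : 2 ≤ N) (hD : (D : ℝ) ≤ 2 * (N : ℝ) ^ ((1 : ℝ) / 2 + 1 / 1000)) (hDN : D ≤ N)
    (hJ : D ≤ RR N * 2 ^ J) (hJ1 : 1 ≤ J) (P : Finset ℕ) (hP : ∀ p ∈ P, 2 * p ≤ N) {V : ℝ} (hV : 0 < V) :
    ∃ B : ℕ → Finset ℤ,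
      (∀ a : ℤ, |a| ≤ (N : ℤ) → (∀ j < J, a ∉ B j) →
        ∑ d ∈ (Icc 1 D).filter (fun d : ℕ => IsCoprime (d : ℤ) a), |gg (RR N) P a d| ≤ V) ∧
      ∀ j < J, ((B j).card : ℝ) * (V / J) ^ 2 ≤
        2 * P.card * (C₂ * N * (Real.log N) ^ 7 + (B j).card * (C₁ * (N : ℝ) ^ (1 - η))) := by
  classical
  have hJ0 : (0 : ℝ) < J := by exact_mod_cast hJ1
  have hN1 : (1 : ℝ) ≤ N := by exact_mod_cast (by omega : 1 ≤ N)
  have hlog : 0 ≤ Real.log N := Real.log_nonneg hN1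
  refine ⟨fun j => (Icc (-(N : ℤ)) N).filter (fun a => V / J < gs (RR N) (RR N * 2 ^ j) D P a), ?_, ?_⟩
  · intro a ha hB
    have h1 : ∀ j ∈ range J, gs (RR N) (RR N * 2 ^ j) D P a ≤ V / J := by
      intro j hj
      have h2 := hB j (Finset.mem_range.1 hj)
      rw [Finset.mem_filter, Finset.mem_Icc] at h2
      by_contra h3
      exact h2 ⟨abs_le.1 ha, not_le.1 h3⟩
    refine (Cnt_cover hJ P a).trans ((Finset.sum_le_sum h1).trans ?_)
    rw [Finset.sum_const, Finset.card_range, nsmul_eq_mul]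
    apply le_of_eq
    field_simp
  · intro j hj
    have hVJ : 0 ≤ V / J := by positivity
    rcases le_or_gt D (RR N * 2 ^ j) with hQ | hQ
    · -- empty blocks
      have h0 : ((Icc (-(N : ℤ)) N).filter (fun a => V / J < gs (RR N) (RR N * 2 ^ j) D P a)) = ∅ := by
        apply Finset.filter_false_of_mem
        intro a _
        have h1 : gs (RR N) (RR N * 2 ^ j) D P a = 0 := by
          unfold gs
          rw [Finset.filter_false_of_mem, Finset.sum_empty]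
          intro d hd
          rw [Finset.mem_Ioc] at hd
          rintro ⟨h2, -⟩
          omega
        rw [h1]
        exact not_lt.2 hVJ
      beta_reduce
      rw [h0]
      simp only [Finset.card_empty, Nat.cast_zero, zero_mul, add_zero]
      positivity
    · choose c hc1 hc2 using fun a : ℤ => Cnt_block (RR N) (RR N * 2 ^ j) D P a
      refine Cnt_bessel hoff hdia hC₁ hC₂ hN (Q := RR N * 2 ^ j) (Nat.le_mul_of_pos_right _ (by positivity))
        ?_ ?_ _ ?_ P hP c hc1 hVJ ?_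
      · refine le_trans ?_ hD
        exact_mod_cast hQ.le
      · omega
      · intro a ha
        rw [Finset.mem_filter, Finset.mem_Icc] at ha
        exact abs_le.2 ha.1
      · intro a ha
        rw [Finset.mem_filter] at ha
        rw [← hc2 a]
        exact ha.2.le

end Pool.Agent.Lib.TB
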