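import Pool.Agent.Lib.EH3.LS1

/-!
MP_00e23e_nt, directory Lib/TB (plan: note 2171; bilinear forms in Kloosterman fractions, notes 2171, 2212):
definitions.
-/

namespace Pool.Agent.Lib.TB

open Finset Pool.Agent.Lib.EH3

/-- an inverse of a modulo n (as a natural number), 0 if a is not coprime to n -/
noncomputable def iv (a n : ℕ) : ℕ := (((a : ZMod n))⁻¹).val

/-- the complementary divisor n with k n = l1 m1 - l2 m2 -/
def nn (k l1 l2 m1 m2 : ℕ) : ℕ := (l1 * m1 - l2 * m2) / k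

/-- the phase of the pair (m1, m2) for the triple (k, l1, l2): it is 0 unless l1 m1 - l2 m2 = k n with
Q < n ≤ 2Q and n coprime to l1 m1 (equivalently to l2 m2) -/
noncomputable def ph (θ : ℤ) (ϑ : ℝ) (Q k l1 l2 m1 m2 : ℕ) : ℂ :=
  if l2 * m2 < l1 * m1 ∧ k ∣ l1 * m1 - l2 * m2 ∧ Q < nn k l1 l2 m1 m2 ∧ nn k l1 l2 m1 m2 ≤ 2 * Q ∧
      (nn k l1 l2 m1 m2).Coprime (l1 * m1) then
    ee ((θ : ℝ) * ((l1 : ℝ) - l2) * (iv (l1 * m1) (nn k l1 l2 m1 m2) : ℝ) / (nn k l1 l2 m1 m2 : ℝ)) *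
      ee (ϑ / (nn k l1 l2 m1 m2 : ℝ) * (1 / (m1 : ℝ) - 1 / (m2 : ℝ)))
  else 0

/-- the determinant of two triples -/
def Dt (k l1 l2 k' l1' l2' : ℕ) : ℤ :=
  ((l1 : ℤ) - l2) * k * l1' * l2' - ((l1' : ℤ) - l2') * k' * l1 * l2

end Pool.Agent.Lib.TB
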