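import Pool.Agent.Lib.TB.Defs

/-!
MP_00e23e_nt, directory Lib/TB: definitions for the main terms (weight, Ramanujan sums, the
differences 1_{d | m} - l_d(m)).
-/

namespace Pool.Agent.Lib.TB

open Finset Pool.Agent.Lib.EH3

/-- the triangular weight of half width N -/
noncomputable def tri (N : ℕ) (n : ℤ) : ℝ := max 0 (1 - |(n : ℝ)| / (N : ℝ))

/-- the Ramanujan sum c_r(m) = ∑_{e | (r, m)} e μ(r/e) -/
noncomputable def rs (r : ℕ) (m : ℤ) : ℝ :=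
  ∑ e ∈ r.divisors, if (e : ℤ) ∣ m then (e : ℝ) * ((ArithmeticFunction.moebius (r / e) : ℤ) : ℝ) else 0

/-- l_d(m) = (1/d) ∑_{r | d, r ≤ R} c_r(m), the part of the Ramanujan expansion of 1_{d | m} with
small frequencies -/
noncomputable def ld (R d : ℕ) (m : ℤ) : ℝ :=
  (1 / (d : ℝ)) * ∑ r ∈ d.divisors.filter (fun r => r ≤ R), rs r m

/-- 1_{d | m} - l_d(m) -/
noncomputable def dd (R d : ℕ) (m : ℤ) : ℝ := (if (d : ℤ) ∣ m then 1 else 0) - ld R d m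

/-- the function F(m) = ∑_{Q < d ≤ 2Q} c_d (1_{d | m} - l_d(m)) for m ≠ 0 and F(0) = 0 -/
noncomputable def FF (R Q : ℕ) (c : ℕ → ℝ) (m : ℤ) : ℝ :=
  if m = 0 then 0 else ∑ d ∈ Ioc Q (2 * Q), c d * dd R d m

/-- the cut N^(1/2 - 1/500) -/
noncomputable def RR (N : ℕ) : ℕ := ⌊(N : ℝ) ^ ((1 : ℝ) / 2 - 1 / 500)⌋₊

/-- the modulus count with the weight: ∑_{|n| ≤ N} tri(n) 1[u | n - a] 1[w | n - b] -/
noncomputable def SS (N u w : ℕ) (a b : ℤ) : ℝ :=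
  ∑ n ∈ Icc (-(N : ℤ)) N, tri N n * (if (u : ℤ) ∣ n - a ∧ (w : ℤ) ∣ n - b then 1 else 0)

/-- its main term N (u,w)/(u w) if (u,w) | a - b, and 0 otherwise -/
noncomputable def MM (N u w : ℕ) (a b : ℤ) : ℝ :=
  if ((Nat.gcd u w : ℕ) : ℤ) ∣ a - b then (N : ℝ) * (Nat.gcd u w : ℝ) / ((u : ℝ) * w) else 0

end Pool.Agent.Lib.TB
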