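import Pool.Agent.Lib.TB.GrdS

/-!
# TB: theorem T** from its inputs
-/

namespace Pool.Agent.Lib.TB

open Finset Filter Pool.Agent.Results.MP_00e23e_nt

/-- Disjoint finite sets of integers of absolute value at most `x`: at most `2 x + 1` are non-empty. -/
theorem FinS_card {x : ℝ} (hx : 0 ≤ x) {n : ℕ} {A : ℕ → Finset ℤ}
    (hdis : ∀ i < n, ∀ j < n, i ≠ j → Disjoint (A i) (A j))
    (hA : ∀ i < n, ∀ a ∈ A i, |(a : ℝ)| ≤ x) :
    ((((range n).filter fun i => (A i).Nonempty).card : ℕ) : ℝ) ≤ 2 * x + 1 := by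
  classical
  obtain ⟨T, hT⟩ : ∃ T, T = (range n).filter fun i => (A i).Nonempty := ⟨_, rfl⟩
  rw [← hT]
  have h1 : ∀ i ∈ T, i < n ∧ (A i).Nonempty := by
    intro i hi
    rw [hT, Finset.mem_filter, Finset.mem_range] at hi
    exact hi
  have h2 : T.card ≤ (T.biUnion A).card := by
    rw [Finset.card_biUnion (fun i hi j hj hij => hdis i (h1 i hi).1 j (h1 j hj).1 hij)]
    calc T.card = ∑ i ∈ T, 1 := by simp
      _ ≤ ∑ i ∈ T, (A i).card := Finset.sum_le_sum fun i hi => Finset.card_pos.2 (h1 i hi).2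
  have h3 : T.biUnion A ⊆ Icc (-(⌊x⌋₊ : ℤ)) ⌊x⌋₊ := by
    intro a ha
    obtain ⟨i, hi, hai⟩ := Finset.mem_biUnion.1 ha
    have h4 := hA i (h1 i hi).1 a hai
    have h5 : (a.natAbs : ℝ) ≤ x := by
      rw [Nat.cast_natAbs, Int.cast_abs]
      exact h4
    have h6 : a.natAbs ≤ ⌊x⌋₊ := Nat.le_floor h5
    rw [Finset.mem_Icc]
    omega
  have h4 := (h2.trans (Finset.card_le_card h3))
  rw [Int.card_Icc] at h4
  have h5 : T.card ≤ 2 * ⌊x⌋₊ + 1 := by omega
  have h6 := Nat.floor_le hx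
  calc (T.card : ℝ) ≤ ((2 * ⌊x⌋₊ + 1 : ℕ) : ℝ) := by exact_mod_cast h5
    _ = 2 * (⌊x⌋₊ : ℝ) + 1 := by push_cast; ring
    _ ≤ _ := by linarith

/-- T** from (OFF), (DIA'), (LP') and the extended Bombieri-Vinogradov theorem. -/
theorem tTSS_of (hOff : OffStmt) (hDia : DiaSStmt) (hLp : LpSStmt) (hBV : Pool.Agent.Lib.BV.ExtStmt) :
    TSSStmt := by
  classical
  obtain ⟨η, hη, k, hat⟩ := AsqS_at hOff hDia hLp hBV
  refine ⟨η, hη, fun U hU => ?_⟩
  obtain ⟨C, hC0, hev⟩ := hat (2 * U + 4) (U + 4) (by linarith)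
  have hlog1 : ∀ᶠ x : ℝ in atTop, 2 ≤ Real.log x :=
    Real.tendsto_log_atTop.eventually_ge_atTop 2
  have hlog2 : ∀ᶠ x : ℝ in atTop, (Real.log x) ^ (U + 3) ≤ 1 / 4 * x := by
    have h := (isLittleO_log_rpow_rpow_atTop (U + 3) (show (0 : ℝ) < 1 by norm_num)).bound
      (show (0 : ℝ) < 1 / 4 by norm_num)
    filter_upwards [h, hlog1, eventually_gt_atTop 0] with x hx h1 h0
    rw [Real.norm_of_nonneg (Real.rpow_nonneg (by linarith) _), Real.rpow_one,
      Real.norm_of_nonneg h0.le] at hx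
    exact hx
  obtain ⟨x₀, hx₀⟩ := Filter.eventually_atTop.1 ((hev.and hlog1).and hlog2)
  obtain ⟨C', hC'⟩ : ∃ C', C' = 2 * C + 12 + (2 * |x₀| + 1) := ⟨_, rfl⟩
  refine ⟨5 * U + 14 + k, C', fun x hx n A hdis hAx hAc => ?_⟩
  have hx0 : 0 < x := by linarith
  have hL1 : 1 ≤ Real.log x := by
    rw [Real.le_log_iff_exp_le hx0]
    have := Real.exp_one_lt_d9
    linarith
  have hL0 : 0 < Real.log x := by linarith
  have hk0 : (0 : ℝ) ≤ (k : ℝ) := Nat.cast_nonneg _
  rcases lt_or_ge x x₀ with hlt | hge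
  · -- small `x`
    refine ⟨(range n).filter fun i => (A i).Nonempty, ?_, ?_⟩
    · have h1 := FinS_card hx0.le hdis hAx
      have h2 : (1 : ℝ) ≤ (Real.log x) ^ (5 * U + 14 + (k : ℝ)) :=
        Real.one_le_rpow hL1 (by linarith)
      have h3 : x ≤ |x₀| := hlt.le.trans (le_abs_self _)
      have h4 : 0 ≤ C' := by
        rw [hC']
        have := abs_nonneg x₀
        linarith
      calc ((((range n).filter fun i => (A i).Nonempty).card : ℕ) : ℝ) ≤ 2 * x + 1 := h1
        _ ≤ C' * 1 := by rw [hC']; linarith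
        _ ≤ _ := mul_le_mul_of_nonneg_left h2 h4
    · intro i hi hiS y s _ hs
      exact absurd (Finset.mem_filter.2 ⟨Finset.mem_range.2 hi, ⟨s 0, hs 0⟩⟩) hiS
  · -- large `x`
    obtain ⟨⟨hmain, hL2⟩, hxL⟩ := hx₀ x hge
    obtain ⟨G, hG⟩ : ∃ G, G = ⌈(Real.log x) ^ (U + 3)⌉₊ := ⟨_, rfl⟩
    have hLU : 1 ≤ (Real.log x) ^ (U + 3) := Real.one_le_rpow hL1 (by linarith)
    have hG1 : (Real.log x) ^ (U + 3) ≤ G := by rw [hG]; exact Nat.le_ceil _
    have hG2 : (G : ℝ) ≤ 2 * (Real.log x) ^ (U + 3) := by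
      have := (Nat.ceil_lt_add_one (show 0 ≤ (Real.log x) ^ (U + 3) by linarith)).le
      rw [← hG] at this
      linarith
    have hG1' : (1 : ℝ) ≤ G := hLU.trans hG1
    have hGnat : 1 ≤ G := by exact_mod_cast hG1'
    have hG0 : (0 : ℝ) < G := by linarith
    have hxG : 2 ≤ x / G := by
      rw [le_div_iff₀ hG0]
      linarith
    have hxK : x / (Real.log x) ^ (U + 4) ≤ x / G := by
      apply div_le_div_of_nonneg_left hx0.le hG0
      rw [show U + 4 = (U + 3) + 1 by ring, Real.rpow_add hL0, Real.rpow_one]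
      nlinarith
    have hDx : ((⌊x ^ ((1 : ℝ) / 2 + 1 / 1000)⌋₊ : ℕ) : ℝ) ≤ x := by
      refine (Nat.floor_le (Real.rpow_nonneg hx0.le _)).trans ?_
      conv_rhs => rw [← Real.rpow_one x]
      exact Real.rpow_le_rpow_of_exponent_le (by linarith) (by norm_num)
    -- the exceptional set at every grid point
    have hex : ∀ m : ℕ, ∃ S : Finset ℕ, m ∈ Icc 1 G →
        (S.card : ℝ) ≤ C * (Real.log x) ^ (2 * (2 * U + 4) + 3 + (k : ℝ)) ∧ ∀ i < n, i ∉ S →
        ∀ s : ℕ → ℤ, (∀ d, s d ∈ A i) →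
          ∑ d ∈ (Icc 1 ⌊x ^ ((1 : ℝ) / 2 + 1 / 1000)⌋₊).filter (fun d : ℕ => IsCoprime (d : ℤ) (s d)),
            |(pcz (x / G * m) d (s d) : ℝ) - li (x / G * m) / (d.totient : ℝ)| ≤
              C * (x / (Real.log x) ^ (2 * U + 4)) := by
      intro m
      by_cases hm : m ∈ Icc 1 G
      · rw [Finset.mem_Icc] at hm
        have hm1 : (1 : ℝ) ≤ m := by exact_mod_cast hm.1
        have hm2 : (m : ℝ) ≤ G := by exact_mod_cast hm.2
        have hy1 : x / (Real.log x) ^ (U + 4) ≤ x / G * m := by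
          refine hxK.trans ?_
          have : 0 ≤ x / G := by linarith
          nlinarith
        have hy2 : x / G * m ≤ x := by
          rw [div_mul_eq_mul_div, div_le_iff₀ hG0]
          exact mul_le_mul_of_nonneg_left hm2 hx0.le
        obtain ⟨S, hS⟩ := hmain (x / G * m) hy1 hy2 n A hdis hAx hAc
        exact ⟨S, fun _ => hS⟩
      · exact ⟨∅, fun h => absurd h hm⟩
    choose S hS using hex
    refine ⟨(Icc 1 G).biUnion S, ?_, ?_⟩
    · have h1 : (((Icc 1 G).biUnion S).card : ℝ) ≤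
          G * (C * (Real.log x) ^ (2 * (2 * U + 4) + 3 + (k : ℝ))) := by
        calc (((Icc 1 G).biUnion S).card : ℝ) ≤ ((∑ m ∈ Icc 1 G, (S m).card : ℕ) : ℝ) := by
              exact_mod_cast Finset.card_biUnion_le
          _ = ∑ m ∈ Icc 1 G, ((S m).card : ℝ) := by push_cast; rfl
          _ ≤ ∑ m ∈ Icc 1 G, (C * (Real.log x) ^ (2 * (2 * U + 4) + 3 + (k : ℝ))) :=
              Finset.sum_le_sum fun m hm => (hS m hm).1
          _ = _ := by rw [Finset.sum_const, Nat.card_Icc, nsmul_eq_mul]; simp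
      have h2 : (Real.log x) ^ (5 * U + 14 + (k : ℝ)) =
          (Real.log x) ^ (U + 3) * (Real.log x) ^ (2 * (2 * U + 4) + 3 + (k : ℝ)) := by
        rw [← Real.rpow_add hL0]
        congr 1
        ring
      have h3 : 0 ≤ (Real.log x) ^ (2 * (2 * U + 4) + 3 + (k : ℝ)) := Real.rpow_nonneg hL0.le _
      have h4 : 0 ≤ C * (Real.log x) ^ (2 * (2 * U + 4) + 3 + (k : ℝ)) := mul_nonneg hC0 h3
      have h5 : 0 ≤ (Real.log x) ^ (5 * U + 14 + (k : ℝ)) := Real.rpow_nonneg hL0.le _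
      calc (((Icc 1 G).biUnion S).card : ℝ) ≤
            G * (C * (Real.log x) ^ (2 * (2 * U + 4) + 3 + (k : ℝ))) := h1
        _ ≤ (2 * (Real.log x) ^ (U + 3)) * (C * (Real.log x) ^ (2 * (2 * U + 4) + 3 + (k : ℝ))) :=
            mul_le_mul_of_nonneg_right hG2 h4
        _ = 2 * C * (Real.log x) ^ (5 * U + 14 + (k : ℝ)) := by rw [h2]; ring
        _ ≤ _ := by
            apply mul_le_mul_of_nonneg_right _ h5
            rw [hC']
            have := abs_nonneg x₀
            linarith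
    · intro i hi hiS y s hy hs
      have hV : ∀ m ∈ Icc 1 G, ∑ d ∈ (Icc 1 ⌊x ^ ((1 : ℝ) / 2 + 1 / 1000)⌋₊).filter
          (fun d : ℕ => IsCoprime (d : ℤ) (s d)),
            |(pcz (x / G * m) d (s d) : ℝ) - li (x / G * m) / (d.totient : ℝ)| ≤
              C * (x / (Real.log x) ^ (2 * U + 4)) := by
        intro m hm
        exact (hS m hm).2 i hi (fun h => hiS (Finset.mem_biUnion.2 ⟨m, hm, h⟩)) s hs
      refine (GrdS_sum hx0 hL1 hGnat hxG hDx y s hy hV).trans ?_
      obtain ⟨P, hP⟩ : ∃ P, P = (Real.log x) ^ U := ⟨_, rfl⟩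
      have hP0 : 0 < P := by rw [hP]; exact Real.rpow_pos_of_pos hL0 _
      have e1 : (Real.log x) ^ (U + 3) = P * (Real.log x) ^ 3 := by
        rw [Real.rpow_add hL0, hP]
        norm_num
      have e2 : (Real.log x) ^ (2 * U + 4) = P * (P * (Real.log x) ^ 4) := by
        rw [show 2 * U + 4 = U + (U + 4) by ring, Real.rpow_add hL0, Real.rpow_add hL0, hP]
        congr 2
        exact_mod_cast Real.rpow_natCast (Real.log x) 4
      rw [e1] at hG1 hG2
      rw [e2]
      have hL3 : 0 < (Real.log x) ^ 3 := pow_pos hL0 3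
      have hL4 : 0 < (Real.log x) ^ 4 := pow_pos hL0 4
      have hxP : 0 ≤ x / P := by positivity
      have t1 : G * (C * (x / (P * (P * (Real.log x) ^ 4)))) ≤ 2 * C * (x / P) := by
        have h0 : 0 ≤ C * (x / (P * (P * (Real.log x) ^ 4))) := by positivity
        calc G * (C * (x / (P * (P * (Real.log x) ^ 4)))) ≤
              (2 * (P * (Real.log x) ^ 3)) * (C * (x / (P * (P * (Real.log x) ^ 4)))) :=
              mul_le_mul_of_nonneg_right hG2 h0
          _ = 2 * C * (x / P) * (1 / Real.log x) := by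
              field_simp
          _ ≤ 2 * C * (x / P) * 1 := by
              apply mul_le_mul_of_nonneg_left _ (by positivity)
              rw [div_le_one hL0]
              exact hL1
          _ = _ := by ring
      have t2 : 12 * (x / G) * (Real.log x) ^ 2 ≤ 12 * (x / P) := by
        have h0 : x / G ≤ x / (P * (Real.log x) ^ 3) :=
          div_le_div_of_nonneg_left hx0.le (by positivity) hG1
        calc 12 * (x / G) * (Real.log x) ^ 2 ≤ 12 * (x / (P * (Real.log x) ^ 3)) * (Real.log x) ^ 2 := by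
              apply mul_le_mul_of_nonneg_right _ (by positivity)
              linarith
          _ = 12 * (x / P) * (1 / Real.log x) := by field_simp
          _ ≤ 12 * (x / P) * 1 := by
              apply mul_le_mul_of_nonneg_left _ (by positivity)
              rw [div_le_one hL0]
              exact hL1
          _ = _ := by ring
      have t3 : 0 ≤ (2 * |x₀| + 1) * (x / P) := by positivity
      rw [← hP, hC']
      linarith

end Pool.Agent.Lib.TB
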