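import Pool.Agent.Lib.TB.Stmts

/-!
# Bilinear forms in Kloosterman fractions, part A: amplification

All variables `m`, `n` are in `(Q, 2 Q]`. Every module proves one of the propositions `SAx` below: file
`TB/Ax.lean` (import this file) with `theorem tAx : SAx` (or `theorem tAx (h : SAy) .. : SAx` if the
docstring says: uses `SAy`). The complete proofs are in the docstrings.
-/

namespace Pool.Agent.Lib.TB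

open Finset ComplexConjugate Pool.Agent.Lib.EH3

/-- The phase of the bilinear form. -/
noncomputable def e1 (θ : ℤ) (vt : ℝ) (m n : ℕ) : ℂ :=
  ee ((θ : ℝ) * (iv m n : ℝ) / (n : ℝ) + vt / ((m : ℝ) * n))

/-- The inner sum. -/
noncomputable def An (θ : ℤ) (vt : ℝ) (α : ℕ → ℂ) (Q n : ℕ) : ℂ :=
  ∑ m ∈ (Ioc Q (2 * Q)).filter (fun m => m.Coprime n), α m * e1 θ vt m n

/-- The bilinear form. -/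
noncomputable def BF (θ : ℤ) (vt : ℝ) (α β : ℕ → ℂ) (Q : ℕ) : ℂ :=
  ∑ n ∈ Ioc Q (2 * Q), β n * An θ vt α Q n

/-- The phase of a pair of pairs. -/
noncomputable def e2 (θ : ℤ) (vt : ℝ) (l1 l2 m1 m2 n : ℕ) : ℂ :=
  ee ((θ : ℝ) * ((l1 : ℝ) - l2) * (iv (l1 * m1) n : ℝ) / (n : ℝ)) *
    ee (vt / (n : ℝ) * (1 / (m1 : ℝ) - 1 / (m2 : ℝ)))

/-- The amplified sum for one `n`. -/
noncomputable def Tn (θ : ℤ) (vt : ℝ) (α : ℕ → ℂ) (Q : ℕ) (Ls : Finset ℕ) (n : ℕ) : ℂ :=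
  ∑ l1 ∈ Ls, ∑ l2 ∈ Ls, ∑ m1 ∈ Ioc Q (2 * Q), ∑ m2 ∈ Ioc Q (2 * Q),
    if m1.Coprime n ∧ m2.Coprime n ∧ ((l1 * m1 : ℕ) : ZMod n) = ((l2 * m2 : ℕ) : ZMod n) then
      α m1 * conj (α m2) * e2 θ vt l1 l2 m1 m2 n else 0

/-- The part `l1 m1 > l2 m2`, with the complementary divisor `k`. -/
noncomputable def Tp (θ : ℤ) (vt : ℝ) (α : ℕ → ℂ) (Q L : ℕ) (Ls : Finset ℕ) : ℂ :=
  ∑ k ∈ Ico 1 (8 * L), ∑ l1 ∈ Ls, ∑ l2 ∈ Ls, ∑ m1 ∈ Ioc Q (2 * Q), ∑ m2 ∈ Ioc Q (2 * Q),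
    α m1 * conj (α m2) * ph θ vt Q k l1 l2 m1 m2

/-- The triples `(k, l1, l2)` with `l1 ≠ l2` and `l1`, `l2` not dividing `k`. -/
def Ks (L : ℕ) (Ls : Finset ℕ) : Finset (ℕ × ℕ × ℕ) :=
  (Ico 1 (8 * L) ×ˢ Ls ×ˢ Ls).filter fun κ => κ.2.1 ≠ κ.2.2 ∧ ¬ κ.2.1 ∣ κ.1 ∧ ¬ κ.2.2 ∣ κ.1

/-- The sum over the triples in `Ks`. -/
noncomputable def Tq (θ : ℤ) (vt : ℝ) (α : ℕ → ℂ) (Q L : ℕ) (Ls : Finset ℕ) : ℂ :=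
  ∑ m1 ∈ Ioc Q (2 * Q), ∑ m2 ∈ Ioc Q (2 * Q), α m1 * conj (α m2) *
    ∑ κ ∈ Ks L Ls, ph θ vt Q κ.1 κ.2.1 κ.2.2 m1 m2

/-- Primes in `(L, 4 L]`. -/
def PrL (L : ℕ) (Ls : Finset ℕ) : Prop := ∀ l ∈ Ls, l.Prime ∧ L < l ∧ l ≤ 4 * L

/-- **A0** (the additive character; 30 lines; `ee_add` etc. are in EH3/LS1.lean).

Proof. `Complex.norm_exp_ofReal_mul_I`, `Complex.exp_int_mul_two_pi_mul_I`, `Complex.exp_conj`.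
Third claim: `n ∣ a - b`, so `a / n = b / n + integer`. -/
def SA0 : Prop :=
  (∀ t : ℝ, ‖ee t‖ = 1) ∧ (∀ s t : ℝ, ee (s + t) = ee s * ee t) ∧
  (∀ (a b : ℤ) (n : ℕ), 0 < n → (a : ZMod n) = (b : ZMod n) →
    ee ((a : ℝ) / (n : ℝ)) = ee ((b : ℝ) / (n : ℝ))) ∧
  (∀ t : ℝ, conj (ee t) = ee (-t)) ∧ ee 0 = 1

/-- **A1** (Cauchy's inequality over `n`; 25 lines).

Proof. `‖∑ β n A n‖ ≤ ∑ ‖A n‖`, and `(∑ 1 * ‖A n‖) ^ 2 ≤ Q * ∑ ‖A n‖ ^ 2`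
(`Finset.sum_mul_sq_le_sq_mul_sq` or `inner_mul_le_norm_mul_norm`; `Ioc Q (2 Q)` has `Q` elements). -/
def SA1 : Prop :=
  ∀ (θ : ℤ) (vt : ℝ) (α β : ℕ → ℂ) (Q : ℕ) (_ : ∀ n, ‖β n‖ ≤ 1),
    ‖BF θ vt α β Q‖ ^ 2 ≤ Q * ∑ n ∈ Ioc Q (2 * Q), ‖An θ vt α Q n‖ ^ 2

/-- **A2** (amplification; 150 lines; uses `SA0`).

Proof. Let `NeZero n`. For `c : ZMod n` let
`g c = ∑ l ∈ Ls, ∑ m, if m.Coprime n ∧ ((l * m : ℕ) : ZMod n) = c then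
α m * (ee (θ * l * (c⁻¹).val / n) * ee (vt / (m n))) else 0`. (1) `∑ c, g c = |Ls| * An n`: exchange
the sums; for `l`, `m` only `c = l m` contributes, and
`θ * l * iv (l m) n ≡ θ * iv m n` in `ZMod n` (`l`, `m` are units, `iv a n = ((a : ZMod n)⁻¹).val`,
`ZMod.natCast_zmod_val`, `ZMod.coe_mul_inv_eq_one`), so the phase is `e1 θ vt m n` (third claim of `SA0`). (2) Cauchy:
`‖∑ c, g c‖ ^ 2 ≤ n * ∑ c, ‖g c‖ ^ 2`. (3) `∑ c, ‖g c‖ ^ 2 = Tn` as complex numbers: expand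
`g c * conj (g c)` and exchange the sums; for given `l1, l2, m1, m2` the sum over `c` of the product of
the two indicators is the indicator of `l1 m1 = l2 m2` in `ZMod n`, with `c = l1 m1`, and the phases
multiply to `e2`: `θ l1 c' / n - θ l2 c' / n = θ (l1 - l2) c' / n`, `c' = iv (l1 m1) n`, and
`vt / (m1 n) - vt / (m2 n) = vt / n * (1 / m1 - 1 / m2)`. -/
def SA2 : Prop :=
  ∀ (θ : ℤ) (vt : ℝ) (α : ℕ → ℂ) (Q n : ℕ) (Ls : Finset ℕ) (_ : 0 < n)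
    (_ : ∀ l ∈ Ls, l.Coprime n),
    (Ls.card : ℝ) ^ 2 * ‖An θ vt α Q n‖ ^ 2 ≤ n * (Tn θ vt α Q Ls n).re ∧
      0 ≤ (Tn θ vt α Q Ls n).re

/-- **A3** (the diagonal; 80 lines).

Proof. For `l1 = l2` the condition is `m1 = m2`: `|Ls| * Q` solutions. For `l1 ≠ l2` (primes) `l2 ∣ m1`
(`l2 ∣ l1 m1`), and `m2` is determined by `m1`; the number of the multiples of `l2` in `(Q, 2 Q]` is
at most `Q / l2 + 1 ≤ 2 Q / L` (`L < l2`, `L ≤ Q`). So there are at most `|Ls| ^ 2 * (2 Q / L)` such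
solutions, and `|Ls| ≤ 3 L` (`Ls ⊆ Ioc L (4 L)`). Total: at most `7 |Ls| Q`. -/
def SA3 : Prop :=
  ∀ (Q L : ℕ) (Ls : Finset ℕ) (_ : PrL L Ls) (_ : 1 ≤ L) (_ : L ≤ Q),
    ((Ls ×ˢ Ls ×ˢ Ioc Q (2 * Q) ×ˢ Ioc Q (2 * Q)).filter fun x =>
      x.1 * x.2.2.1 = x.2.1 * x.2.2.2).card ≤ 7 * Ls.card * Q

/-- **A4** (from `n` to the complementary divisor `k`; 200 lines; uses `SA0`).

Proof. Let `Ln = Ls.filter (¬ · ∣ n)`. In `∑_n Tn` split the terms into `l1 m1 = l2 m2`,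
`l1 m1 > l2 m2` and `l1 m1 < l2 m2`. The first ones have norm at most `1` (`‖α‖ ≤ 1`, `SA0`), and for
every `n` there are at most as many as elements in the finset of `SA3`. The second ones: the
condition `(l1 m1 : ZMod n) = (l2 m2 : ZMod n)` says `n ∣ l1 m1 - l2 m2`; let `k` be the quotient,
`k n = l1 m1 - l2 m2`, `1 ≤ k < 8 L` because `k n ≤ l1 m1 ≤ 8 L Q` and `n > Q`. For fixed
`l1, l2, m1, m2` with `l1 m1 > l2 m2` the maps `n ↦ (l1 m1 - l2 m2) / n`, `k ↦ (l1 m1 - l2 m2) / k` are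
inverse bijections between the `n ∈ (Q, 2 Q]` which divide `l1 m1 - l2 m2` and the `k ∈ [1, 8 L)`
dividing it with `(l1 m1 - l2 m2) / k ∈ (Q, 2 Q]`. The conditions `l1 ∤ n`, `l2 ∤ n`, `m1`, `m2` prime to
`n` are equivalent to `n.Coprime (l1 * m1)` (if `n` is prime to `l1 m1`, it is prime to
`l2 m2 = l1 m1 - k n`; `l1`, `l2` are primes), and the summand is `α m1 * conj (α m2) * ph`. So these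
terms sum to `Tp` (sum over `n` first). The third ones are the complex conjugates of the second
ones with `(l1, m1)` and `(l2, m2)` exchanged: `conj (e2 l1 l2 m1 m2 n) = e2 l2 l1 m2 m1 n` if
`l1 m1 = l2 m2` in `ZMod n` (`SA0`). So their sum is `conj Tp`. -/
def SA4 : Prop :=
  ∀ (θ : ℤ) (vt : ℝ) (α : ℕ → ℂ) (Q L : ℕ) (Ls : Finset ℕ) (_ : ∀ m, ‖α m‖ ≤ 1)
    (_ : PrL L Ls) (_ : 1 ≤ L) (_ : L ≤ Q),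
    (∑ n ∈ Ioc Q (2 * Q), Tn θ vt α Q (Ls.filter fun l => ¬ l ∣ n) n).re ≤
      Q * (((Ls ×ˢ Ls ×ˢ Ioc Q (2 * Q) ×ˢ Ioc Q (2 * Q)).filter fun x =>
        x.1 * x.2.2.1 = x.2.1 * x.2.2.2).card : ℝ) + 2 * ‖Tp θ vt α Q L Ls‖

/-- **A5** (the terms with `l1 ∣ k` or `l2 ∣ k`; 150 lines; uses `SA0`).

Proof. `‖ph‖ ≤ 1`. `Tp - Tq` is the sum over the `(k, l1, l2, m1, m2)` with `l1 = l2`, `l1 ∣ k` or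
`l2 ∣ k`. If `l1 = l2 = l` then `ph = 0`: otherwise `k n = l (m1 - m2)`, `n` prime to `l`, so
`n ∣ m1 - m2`, `0 < m1 - m2 < Q < n`. Let `l1 ≠ l2`, `l1 ∣ k` and `ph ≠ 0`: `l1 m1 = l2 m2 + k n`, so
`l1 ∣ l2 m2`, `l1 ∣ m2`, and `m1` is determined by `k, l1, l2, m2, n`. There are at most `7` multiples
`k` of `l1` in `[1, 8 L)` (`l1 > L`), `|Ls| ^ 2` pairs `l1, l2`, at most `2 Q / L` multiples `m2` of `l1`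
(see `SA3`), and `Q` values of `n`: at most `7 * |Ls| ^ 2 * (2 Q / L) * Q ≤ 42 * |Ls| * Q ^ 2` terms. The
case `l2 ∣ k` (then `l2 ∣ m1`, and `m2` is determined by `k, l1, l2, m1, n`) is the same. -/
def SA5 : Prop :=
  ∀ (θ : ℤ) (vt : ℝ) (α : ℕ → ℂ) (Q L : ℕ) (Ls : Finset ℕ) (_ : ∀ m, ‖α m‖ ≤ 1)
    (_ : PrL L Ls) (_ : 1 ≤ L) (_ : L ≤ Q),
    ‖Tp θ vt α Q L Ls‖ ≤ 84 * Ls.card * (Q : ℝ) ^ 2 + ‖Tq θ vt α Q L Ls‖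

/-- **A6** (Cauchy's inequality over `m1`, `m2`; 60 lines).

Proof. `‖Tq‖ ≤ ∑_{m1, m2} ‖∑ κ, ph‖`, there are `Q ^ 2` pairs, so
`‖Tq‖ ^ 2 ≤ Q ^ 2 ∑_{m1, m2} ‖∑ κ, ph‖ ^ 2`, and `‖∑ κ, ph κ‖ ^ 2 = ∑_{κ, κ'} ph κ * conj (ph κ')`.
Separate `κ = κ'`, and for `κ ≠ κ'` take the sum over `m2` inside. -/
def SA6 : Prop :=
  ∀ (θ : ℤ) (vt : ℝ) (α : ℕ → ℂ) (Q L : ℕ) (Ls : Finset ℕ) (_ : ∀ m, ‖α m‖ ≤ 1),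
    ‖Tq θ vt α Q L Ls‖ ^ 2 ≤ (Q : ℝ) ^ 2 *
      (∑ κ ∈ Ks L Ls, ∑ m1 ∈ Ioc Q (2 * Q), ∑ m2 ∈ Ioc Q (2 * Q),
          ‖ph θ vt Q κ.1 κ.2.1 κ.2.2 m1 m2‖ ^ 2 +
        ∑ κ ∈ Ks L Ls, ∑ κ' ∈ (Ks L Ls).erase κ, ∑ m1 ∈ Ioc Q (2 * Q),
          ‖∑ m2 ∈ Ioc Q (2 * Q), ph θ vt Q κ.1 κ.2.1 κ.2.2 m1 m2 *
            conj (ph θ vt Q κ'.1 κ'.2.1 κ'.2.2 m1 m2)‖)

/-- **A7** (the determinant; 80 lines).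

Proof. Let `Dt = 0`: `(l1 - l2) k l1' l2' = (l1' - l2') k' l1 l2`. The prime `l1` divides the left
side, and not `k`, and not `l1 - l2` (otherwise `l1 ∣ l2`), so `l1 ∣ l1' l2'`, `l1 ∈ {l1', l2'}`; the
same for `l2`. As `l1 ≠ l2`, `{l1, l2} = {l1', l2'}`. If `l1 = l1'`, `l2 = l2'`, then `k = k'`. If
`l1 = l2'`, `l2 = l1'`, then `(l1 - l2) k = (l2 - l1) k'`, so `k = - k'`, a contradiction. -/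
def SA7 : Prop :=
  ∀ (L : ℕ) (Ls : Finset ℕ) (_ : PrL L Ls) (κ κ' : ℕ × ℕ × ℕ) (_ : κ ∈ Ks L Ls)
    (_ : κ' ∈ Ks L Ls) (_ : κ ≠ κ'), Dt κ.1 κ.2.1 κ.2.2 κ'.1 κ'.2.1 κ'.2.2 ≠ 0

/-- **A8** (the terms `κ = κ'`; 80 lines; uses `SA0`).

Proof. `‖ph‖ ≤ 1`, and `ph ≠ 0` implies `l1 m1 = l2 m2 + k n` with `n ∈ (Q, 2 Q]`. For fixed
`k, l1, l2, n` the number of the pairs `(m1, m2)` with this property is at most `Q / l2 + 1 ≤ 2 Q / L`: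
`l1 m1 ≡ k n` modulo `l2`, `l2` is prime and does not divide `l1`, so `m1` is in one residue class
modulo `l2`, and `m2` is determined by `m1`. So the sum is at most
`8 L * |Ls| ^ 2 * Q * (2 Q / L) = 16 |Ls| ^ 2 Q ^ 2`. -/
def SA8 : Prop :=
  ∀ (θ : ℤ) (vt : ℝ) (Q L : ℕ) (Ls : Finset ℕ) (_ : PrL L Ls) (_ : 1 ≤ L) (_ : L ≤ Q),
    ∑ κ ∈ Ks L Ls, ∑ m1 ∈ Ioc Q (2 * Q), ∑ m2 ∈ Ioc Q (2 * Q),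
      ‖ph θ vt Q κ.1 κ.2.1 κ.2.2 m1 m2‖ ^ 2 ≤ 16 * (Ls.card : ℝ) ^ 2 * (Q : ℝ) ^ 2

/-- The estimate of part K. -/
def StK : Prop :=
  ∀ ε : ℝ, 0 < ε → ∃ C : ℝ, 0 < C ∧ ∀ (Q k l1 l2 k' l1' l2' : ℕ) (θ : ℤ) (vt : ℝ), 1 ≤ Q →
    1 ≤ k → 1 ≤ l1 → 1 ≤ l2 → 1 ≤ k' → 1 ≤ l1' → 1 ≤ l2' → l2 ≤ 4 * l1 → l2' ≤ 4 * l1' →
    θ ≠ 0 → Dt k l1 l2 k' l1' l2' ≠ 0 →
    ∑ m1 ∈ Ioc Q (2 * Q), ‖∑ m2 ∈ Ioc Q (2 * Q), ph θ vt Q k l1 l2 m1 m2 *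
      conj (ph θ vt Q k' l1' l2' m1 m2)‖ ≤
      C * ((k : ℝ) * k' * l1 * l1') * (|(θ : ℝ)| * (k * k' * l1 * l2 * l1' * l2' : ℝ) * Q) ^ ε *
        (Q : ℝ) ^ (7 / 4 : ℝ) * (1 + (|(θ : ℝ)| + |vt|) / (Q : ℝ) ^ 2)

/-- **A9** (the bound for `Tq`; 100 lines; uses `SA6`, `SA7`, `SA8`, `StK`).

Proof. In `SA6` the first sum is bounded by `SA8`. In the second one there are at most
`(8 L |Ls| ^ 2) ^ 2` pairs, `Dt ≠ 0` by `SA7`, and `StK` bounds every inner sum, with `k, k' ≤ 8 L`,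
`l ≤ 4 L`: `k k' l1 l1' ≤ 2 ^ 10 L ^ 4`, `k k' l1 l2 l1' l2' ≤ 2 ^ 14 L ^ 6`. -/
def SA9 : Prop :=
  ∀ ε : ℝ, 0 < ε → ∃ C : ℝ, 0 < C ∧ ∀ (θ : ℤ) (vt : ℝ) (α : ℕ → ℂ) (Q L : ℕ) (Ls : Finset ℕ)
    (_ : ∀ m, ‖α m‖ ≤ 1) (_ : PrL L Ls) (_ : 1 ≤ L) (_ : L ≤ Q) (_ : θ ≠ 0),
    ‖Tq θ vt α Q L Ls‖ ^ 2 ≤ (Q : ℝ) ^ 2 * (16 * (Ls.card : ℝ) ^ 2 * (Q : ℝ) ^ 2 +
      C * (L : ℝ) ^ 6 * (Ls.card : ℝ) ^ 4 * (|(θ : ℝ)| * (L : ℝ) ^ 6 * Q) ^ ε *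
        (Q : ℝ) ^ (7 / 4 : ℝ) * (1 + (|(θ : ℝ)| + |vt|) / (Q : ℝ) ^ 2))

/-- **A10** (the amplified inequality; 100 lines; uses `SA1`, `SA2`, `SA3`, `SA4`, `SA5`).

Proof. Let `N = |Ls|`, `Ln = Ls.filter (¬ · ∣ n)`, `2 |Ln| ≥ N`. `SA2` for `Ln` (a prime not dividing `n`
is prime to `n`): `‖An‖ ^ 2 ≤ n / |Ln| ^ 2 * (Tn Ln n).re ≤ 8 Q / N ^ 2 * (Tn Ln n).re`. Sum over `n`, use
`SA1`, `SA4`, `SA3`, `SA5`: `‖BF‖ ^ 2 ≤ Q * 8 Q / N ^ 2 * (7 N Q ^ 2 + 2 (84 N Q ^ 2 + ‖Tq‖))`. -/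
def SA10 : Prop :=
  ∀ (θ : ℤ) (vt : ℝ) (α β : ℕ → ℂ) (Q L : ℕ) (Ls : Finset ℕ) (_ : ∀ m, ‖α m‖ ≤ 1)
    (_ : ∀ n, ‖β n‖ ≤ 1) (_ : PrL L Ls) (_ : 1 ≤ L) (_ : L ≤ Q) (_ : 0 < Ls.card)
    (_ : ∀ n ∈ Ioc Q (2 * Q), Ls.card ≤ 2 * (Ls.filter fun l => ¬ l ∣ n).card),
    (Ls.card : ℝ) ^ 2 * ‖BF θ vt α β Q‖ ^ 2 ≤
      8 * (Q : ℝ) ^ 2 * (175 * Ls.card * (Q : ℝ) ^ 2 + 2 * ‖Tq θ vt α Q L Ls‖)

/-- **A11** (many primes; 80 lines).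

Proof. Let `Ls` be the set of the primes in `(L, 4 L]`. `θ (4 L) - θ (L) ≤ |Ls| * log (4 L)`, and
`θ (4 L) ≥ 4 L log 2 - log (4 L + 1) - 2 √(4 L) log (4 L)` (`Chebyshev.theta_ge`),
`θ (L) ≤ L log 4` (`Chebyshev.theta_le_log4_mul_x`). So
`|Ls| * log (4 L) ≥ 2 L log 2 - o(L) ≥ L` for `L ≥ L₀`, and `log (4 L) ≤ c L ^ ε`. -/
def SA11 : Prop :=
  ∀ ε : ℝ, 0 < ε → ∃ L₀ : ℕ, ∀ L : ℕ, L₀ ≤ L → ∃ Ls : Finset ℕ, PrL L Ls ∧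
    (L : ℝ) ^ (1 - ε) ≤ Ls.card

/-- **A12** (few primes divide `n`; 50 lines).

Proof. Let `R` be the set of the `l ∈ Ls` which divide `n`. The product of the elements of `R`
divides `n` (different primes), and it is at least `L ^ |R|`. So `L ^ |R| ≤ 2 Q < L ^ 34`, and
`|R| ≤ 33`. So `|Ls| - 33 ≥ |Ls| / 2`. -/
def SA12 : Prop :=
  ∀ (Q L : ℕ) (Ls : Finset ℕ) (_ : PrL L Ls) (_ : 2 ≤ L) (_ : 2 * Q < L ^ 34)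
    (_ : 66 ≤ Ls.card), ∀ n ∈ Ioc Q (2 * Q),
      Ls.card ≤ 2 * (Ls.filter fun l => ¬ l ∣ n).card

/-- The bound for the bilinear form. -/
def StB : Prop :=
  ∀ ε : ℝ, 0 < ε → ∃ C : ℝ, 0 < C ∧ ∀ (θ : ℤ) (vt : ℝ) (α β : ℕ → ℂ) (Q : ℕ), 1 ≤ Q →
    (∀ m, ‖α m‖ ≤ 1) → (∀ n, ‖β n‖ ≤ 1) → θ ≠ 0 →
    ‖BF θ vt α β Q‖ ≤ C * |(θ : ℝ)| ^ ε * (Q : ℝ) ^ (2 - 1 / 65 : ℝ) *
      (1 + (|(θ : ℝ)| + |vt|) / (Q : ℝ) ^ 2) ^ (1 / 4 : ℝ)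

/-- **A13** (the choice of `L`; 200 lines; uses `SA9`, `SA10`, `SA11`, `SA12`).

Proof. `V = 1 + (|θ| + |vt|) / Q ^ 2 ≥ 1`, `|θ| ≥ 1`. We may assume `ε ≤ 1 / 10 ^ 5` (for `ε ≤ ε'`:
`|θ| ^ ε ≤ |θ| ^ ε'`). For `Q ≤ Q₀` the trivial bound `‖BF‖ ≤ Q ^ 2` is enough. For large `Q` let `L` be
the integer with `L ≤ Q ^ (1 / 32) < L + 1`, so `Q ^ (1 / 32) ≤ 2 L`, and `2 Q < L ^ 34` for large `Q`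
(`Q ≤ (2 L) ^ 32`). Let `Ls` be given by `SA11`, `L ^ (1 - ε) ≤ N ≤ 3 L`, `N = |Ls| ≥ 66`. By `SA9`,
`‖Tq‖ ≤ Q * (4 N Q + √C L ^ 3 N ^ 2 (|θ| L ^ 6 Q) ^ (ε / 2) Q ^ (7 / 8) √V)`
(`√(a + b) ≤ √a + √b`). `SA10`: `‖BF‖ ^ 2 ≤ 8 Q ^ 4 * (175 / N + 8 / N + 2 √C L ^ 3
(|θ| L ^ 6 Q) ^ (ε / 2) Q ^ (- 1 / 8) √V)`. Here `1 / N ≤ L ^ (ε - 1) ≤ 2 Q ^ ((ε - 1) / 32)`,
`L ^ 3 Q ^ (- 1 / 8) ≤ Q ^ (3 / 32 - 4 / 32) = Q ^ (- 1 / 32)`,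
`(L ^ 6 Q) ^ (ε / 2) ≤ Q ^ ε`. So `‖BF‖ ^ 2 ≤ C' Q ^ 4 Q ^ (- 1 / 32 + ε) |θ| ^ ε √V`, and
`- 1 / 32 + ε ≤ - 2 / 65`. Take square roots. -/
def SA13 : Prop := StB

/-- **A14** (the final form; 20 lines; uses `StB`).

Proof. Exchange the sums (`Finset.sum_comm'` or write the conditions as `if`), definitions. -/
def SA14 : Prop := StB → BilStmt

end Pool.Agent.Lib.TB
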