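import Pool.Agent.Lib.TB.SpecK
import Pool.Agent.Lib.TB.SpecA

/-!
MP_00e23e_nt, Lib/TB, module GlueK: the statement of part K in the form used in part A.
-/

namespace Pool.Agent.Lib.TB

open Finset Pool.Agent.Lib.EH3

theorem tStK (h : KStmt) : StK := by
  intro ε hε
  obtain ⟨C, hC0, hC⟩ := h ε hε
  refine ⟨C, hC0, ?_⟩
  intro Q k l1 l2 k' l1' l2' θ vt hQ hk hl1 hl2 hk' hl1' hl2' h1 h2 hθ hD
  have h3 := hC θ vt Q k l1 l2 k' l1' l2' hθ hQ hk hl1 hl2 hk' hl1' hl2' h1 h2 hD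
  have h4 : ((k : ℝ) * k' * l1 * l2 * l1' * l2') = ((k : ℝ) * l1 * l2 * k' * l1' * l2') := by ring
  rw [h4]
  exact h3

end Pool.Agent.Lib.TB
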