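import Pool.Agent.Lib.TB.Stmts
import Pool.Agent.Lib.EH.Basic

/-!
MP_00e23e_nt, directory Lib/TB: elementary divisor sums for DIA (Dia.lean) and LP (Lp.lean).
-/

namespace Pool.Agent.Lib.TB

open Finset Pool.Agent.Lib.EH3 Pool.Agent.Results.MP_00e23e_nt

lemma LdB_harm (n : ℕ) : ∑ a ∈ Icc 1 n, 1 / (a : ℝ) ≤ 1 + Real.log n := by
  have h1 := harmonic_le_one_add_log n
  rw [harmonic_eq_sum_Icc] at h1
  push_cast at h1
  simpa only [one_div] using h1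

lemma LdB_harm0 (n : ℕ) : 0 ≤ ∑ a ∈ Icc 1 n, 1 / (a : ℝ) :=
  Finset.sum_nonneg fun a _ => by positivity

lemma LdB_harm_mono {m n : ℕ} (h : m ≤ n) : ∑ a ∈ Icc 1 m, 1 / (a : ℝ) ≤ ∑ a ∈ Icc 1 n, 1 / (a : ℝ) :=
  Finset.sum_le_sum_of_subset_of_nonneg (Finset.Icc_subset_Icc_right h) fun a _ _ => by positivity

/-- sums over the pairs (a, b) with a b ≤ n -/
lemma LdB_hyp (n : ℕ) (f g : ℕ → ℝ) (hf : ∀ a, 0 ≤ f a) (hg : ∀ a, 0 ≤ g a) :
    ∑ r ∈ Icc 1 n, ∑ q ∈ r.divisorsAntidiagonal, f q.1 * g q.2 ≤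
      ∑ a ∈ Icc 1 n, f a * ∑ b ∈ Icc 1 (n / a), g b := by
  have hR : ∑ a ∈ Icc 1 n, f a * ∑ b ∈ Icc 1 (n / a), g b =
      ∑ q ∈ (Icc 1 n ×ˢ Icc 1 n).filter (fun q => q.1 * q.2 ≤ n), f q.1 * g q.2 := by
    rw [Finset.sum_filter, Finset.sum_product]
    refine Finset.sum_congr rfl fun a ha => ?_
    rw [mem_Icc] at ha
    rw [Finset.mul_sum, ← Finset.sum_filter]
    refine Finset.sum_congr ?_ fun _ _ => rfl
    ext b
    simp only [mem_Icc, mem_filter]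
    constructor
    · rintro ⟨h1, h2⟩
      have h3 : a * b ≤ n := by
        rw [mul_comm]
        exact (Nat.le_div_iff_mul_le (by omega)).1 h2
      exact ⟨⟨h1, le_trans (Nat.le_mul_of_pos_left _ (by omega)) h3⟩, h3⟩
    · rintro ⟨⟨h1, _⟩, h3⟩
      refine ⟨h1, (Nat.le_div_iff_mul_le (by omega)).2 ?_⟩
      rw [mul_comm]
      exact h3
  rw [hR, ← Finset.sum_biUnion]
  · refine Finset.sum_le_sum_of_subset_of_nonneg ?_ fun q _ _ => mul_nonneg (hf _) (hg _)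
    intro q hq
    rw [mem_biUnion] at hq
    obtain ⟨r, hr, hq⟩ := hq
    rw [Nat.mem_divisorsAntidiagonal] at hq
    rw [mem_Icc] at hr
    rw [mem_filter, mem_product, mem_Icc, mem_Icc]
    have h1 : q.1 ≠ 0 := fun h => hq.2 (by rw [← hq.1, h, zero_mul])
    have h2 : q.2 ≠ 0 := fun h => hq.2 (by rw [← hq.1, h, mul_zero])
    have h3 : q.1 ≤ r := by
      rw [← hq.1]
      exact Nat.le_mul_of_pos_right _ (Nat.pos_of_ne_zero h2)
    have h4 : q.2 ≤ r := by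
      rw [← hq.1]
      exact Nat.le_mul_of_pos_left _ (Nat.pos_of_ne_zero h1)
    exact ⟨⟨⟨by omega, by omega⟩, ⟨by omega, by omega⟩⟩, by rw [hq.1]; exact hr.2⟩
  · intro r _ s _ hrs
    show Disjoint r.divisorsAntidiagonal s.divisorsAntidiagonal
    rw [Finset.disjoint_left]
    intro q h1 h2
    rw [Nat.mem_divisorsAntidiagonal] at h1 h2
    exact hrs (h1.1.symm.trans h2.1)

/-- the same with the full product -/
lemma LdB_conv (n : ℕ) (f g : ℕ → ℝ) (hf : ∀ a, 0 ≤ f a) (hg : ∀ a, 0 ≤ g a) :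
    ∑ r ∈ Icc 1 n, ∑ q ∈ r.divisorsAntidiagonal, f q.1 * g q.2 ≤
      (∑ a ∈ Icc 1 n, f a) * ∑ b ∈ Icc 1 n, g b := by
  refine (LdB_hyp n f g hf hg).trans ?_
  rw [Finset.sum_mul]
  refine Finset.sum_le_sum fun a _ => mul_le_mul_of_nonneg_left ?_ (hf a)
  exact Finset.sum_le_sum_of_subset_of_nonneg (Finset.Icc_subset_Icc_right (Nat.div_le_self n a))
    fun b _ _ => hg b

/-- ∑_{d ≤ D} (1/d) ∑_{r | d} g(r) ≤ H(D) ∑_{r ≤ D} g(r)/r -/
lemma LdB_swap (D : ℕ) (g : ℕ → ℝ) (hg : ∀ r, 0 ≤ g r) :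
    ∑ d ∈ Icc 1 D, (1 / (d : ℝ)) * ∑ r ∈ d.divisors, g r ≤
      (∑ k ∈ Icc 1 D, 1 / (k : ℝ)) * ∑ r ∈ Icc 1 D, g r / r := by
  rw [mul_comm]
  refine le_trans (le_of_eq ?_) (LdB_conv D (fun r => g r / r) (fun k => 1 / (k : ℝ))
    (fun r => div_nonneg (hg r) (by positivity)) (fun k => by positivity))
  refine Finset.sum_congr rfl fun d hd => ?_
  rw [mem_Icc] at hd
  have h1 := Nat.sum_divisorsAntidiagonal (n := d) (f := fun r k => g r / (r : ℝ) * (1 / (k : ℝ)))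
  rw [h1, Finset.mul_sum]
  refine Finset.sum_congr rfl fun r hr => ?_
  obtain ⟨k, hk⟩ := Nat.dvd_of_mem_divisors hr
  have hr0 : r ≠ 0 := fun h => by
    rw [h, zero_mul] at hk
    omega
  have hk0 : k ≠ 0 := fun h => by
    rw [h, mul_zero] at hk
    omega
  have h2 : d / r = k := by
    rw [hk, Nat.mul_div_cancel_left _ (Nat.pos_of_ne_zero hr0)]
  have hr0' : (r : ℝ) ≠ 0 := by exact_mod_cast hr0
  have hk0' : (k : ℝ) ≠ 0 := by exact_mod_cast hk0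
  rw [h2, hk]
  push_cast
  field_simp

/-- ∑_{d ≤ D} (1/d) ∑_{r | d, r ≤ R} ∑_{e | r} e h(e) ≤ H(D) H(R) ∑_{e ≤ R} h(e) -/
lemma LdB_two (R D : ℕ) (h : ℕ → ℝ) (hh : ∀ e, 0 ≤ h e) :
    ∑ d ∈ Icc 1 D, (1 / (d : ℝ)) * ∑ r ∈ d.divisors.filter (fun r => r ≤ R),
        ∑ e ∈ r.divisors, (e : ℝ) * h e ≤
      (∑ k ∈ Icc 1 D, 1 / (k : ℝ)) * ((∑ k ∈ Icc 1 R, 1 / (k : ℝ)) * ∑ e ∈ Icc 1 R, h e) := by
  have hG : ∀ r : ℕ, 0 ≤ ∑ e ∈ r.divisors, (e : ℝ) * h e := fun r =>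
    Finset.sum_nonneg fun e _ => mul_nonneg (by positivity) (hh e)
  have h1 := LdB_swap D (fun r => if r ≤ R then ∑ e ∈ r.divisors, (e : ℝ) * h e else 0)
    (fun r => by
      split_ifs
      · exact hG r
      · exact le_rfl)
  have h2 : ∑ d ∈ Icc 1 D, (1 / (d : ℝ)) * ∑ r ∈ d.divisors.filter (fun r => r ≤ R),
        ∑ e ∈ r.divisors, (e : ℝ) * h e = ∑ d ∈ Icc 1 D, (1 / (d : ℝ)) * ∑ r ∈ d.divisors,
        (if r ≤ R then ∑ e ∈ r.divisors, (e : ℝ) * h e else 0) := by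
    refine Finset.sum_congr rfl fun d _ => ?_
    rw [Finset.sum_filter]
  rw [h2]
  refine h1.trans (mul_le_mul_of_nonneg_left ?_ (LdB_harm0 D))
  have h3 : ∑ r ∈ Icc 1 D, (if r ≤ R then ∑ e ∈ r.divisors, (e : ℝ) * h e else 0) / (r : ℝ) ≤
      ∑ r ∈ Icc 1 R, (1 / (r : ℝ)) * ∑ e ∈ r.divisors, (e : ℝ) * h e := by
    have h4 : ∀ r ∈ Icc 1 D, (if r ≤ R then ∑ e ∈ r.divisors, (e : ℝ) * h e else 0) / (r : ℝ) =
        if r ≤ R then (1 / (r : ℝ)) * ∑ e ∈ r.divisors, (e : ℝ) * h e else 0 := by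
      intro r _
      split_ifs
      · ring
      · simp
    rw [Finset.sum_congr rfl h4, ← Finset.sum_filter]
    refine Finset.sum_le_sum_of_subset_of_nonneg ?_ fun r _ _ => mul_nonneg (by positivity) (hG r)
    intro r hr
    rw [mem_filter, mem_Icc] at hr
    rw [mem_Icc]
    exact ⟨hr.1.1, hr.2⟩
  refine h3.trans ((LdB_swap R (fun e => (e : ℝ) * h e)
    (fun e => mul_nonneg (by positivity) (hh e))).trans ?_)
  refine mul_le_mul_of_nonneg_left (le_of_eq ?_) (LdB_harm0 R)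
  refine Finset.sum_congr rfl fun e he => ?_
  rw [mem_Icc] at he
  have he0 : (e : ℝ) ≠ 0 := by
    have : e ≠ 0 := by omega
    exact_mod_cast this
  field_simp

lemma LdB_card_anti (r : ℕ) : r.divisorsAntidiagonal.card = r.divisors.card := by
  have h := Nat.sum_divisorsAntidiagonal (n := r) (f := fun _ _ => (1 : ℕ))
  simpa using h

lemma LdB_sub (u v : ℕ) : (u * v).divisors.card ≤ u.divisors.card * v.divisors.card := by
  open Pointwise in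
  rw [Nat.divisors_mul]
  exact Finset.card_mul_le

/-- ∑_{m ≤ n} τ(m) ≤ n H(n) -/
lemma LdB_tau (n : ℕ) : ∑ m ∈ Icc 1 n, (m.divisors.card : ℝ) ≤ n * ∑ a ∈ Icc 1 n, 1 / (a : ℝ) := by
  have h1 := LdB_hyp n (fun _ => 1) (fun _ => 1) (fun _ => zero_le_one) (fun _ => zero_le_one)
  have h2 : ∑ m ∈ Icc 1 n, (m.divisors.card : ℝ) =
      ∑ r ∈ Icc 1 n, ∑ _q ∈ r.divisorsAntidiagonal, (1 : ℝ) * 1 := by
    refine Finset.sum_congr rfl fun r _ => ?_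
    rw [Finset.sum_const, nsmul_eq_mul, LdB_card_anti]
    ring
  rw [h2]
  refine h1.trans ?_
  rw [Finset.mul_sum]
  refine Finset.sum_le_sum fun a ha => ?_
  rw [Finset.sum_const, nsmul_eq_mul, Nat.card_Icc, Nat.add_sub_cancel, one_mul, mul_one, mul_one_div]
  exact Nat.cast_div_le

/-- ∑_{m ≤ n} τ(m)/m ≤ H(n)² -/
lemma LdB_tau1 (n : ℕ) : ∑ r ∈ Icc 1 n, (r.divisors.card : ℝ) / r ≤
    (∑ a ∈ Icc 1 n, 1 / (a : ℝ)) ^ 2 := by
  rw [sq]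
  refine le_trans (le_of_eq ?_) (LdB_conv n (fun a => 1 / (a : ℝ)) (fun a => 1 / (a : ℝ))
    (fun a => by positivity) (fun a => by positivity))
  refine Finset.sum_congr rfl fun r hr => ?_
  have h1 : ∀ q ∈ r.divisorsAntidiagonal, 1 / (q.1 : ℝ) * (1 / (q.2 : ℝ)) = 1 / (r : ℝ) := by
    intro q hq
    rw [Nat.mem_divisorsAntidiagonal] at hq
    rw [← hq.1]
    push_cast
    rw [one_div_mul_one_div]
  rw [Finset.sum_congr rfl h1, Finset.sum_const, nsmul_eq_mul, LdB_card_anti, mul_one_div]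

/-- ∑_{m ≤ n} τ(m)² ≤ n H(n)³ -/
lemma LdB_tau2 (n : ℕ) : ∑ m ∈ Icc 1 n, (m.divisors.card : ℝ) ^ 2 ≤
    n * (∑ a ∈ Icc 1 n, 1 / (a : ℝ)) ^ 3 := by
  have h1 := LdB_hyp n (fun a => (a.divisors.card : ℝ)) (fun a => (a.divisors.card : ℝ))
    (fun _ => by positivity) (fun _ => by positivity)
  have h2 : ∑ m ∈ Icc 1 n, (m.divisors.card : ℝ) ^ 2 ≤
      ∑ r ∈ Icc 1 n, ∑ q ∈ r.divisorsAntidiagonal, (q.1.divisors.card : ℝ) * (q.2.divisors.card : ℝ) := by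
    refine Finset.sum_le_sum fun m _ => ?_
    have h3 : (m.divisors.card : ℝ) ^ 2 = ∑ _q ∈ m.divisorsAntidiagonal, (m.divisors.card : ℝ) := by
      rw [Finset.sum_const, nsmul_eq_mul, LdB_card_anti]
      ring
    rw [h3]
    refine Finset.sum_le_sum fun q hq => ?_
    rw [Nat.mem_divisorsAntidiagonal] at hq
    rw [← hq.1]
    exact_mod_cast LdB_sub q.1 q.2
  refine h2.trans (h1.trans ?_)
  have h4 : ∀ a ∈ Icc 1 n, (a.divisors.card : ℝ) * ∑ b ∈ Icc 1 (n / a), (b.divisors.card : ℝ) ≤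
      (n * ∑ k ∈ Icc 1 n, 1 / (k : ℝ)) * ((a.divisors.card : ℝ) / a) := by
    intro a ha
    rw [mem_Icc] at ha
    have ha0 : (0 : ℝ) < a := by exact_mod_cast (by omega : 0 < a)
    have h5 : ∑ b ∈ Icc 1 (n / a), (b.divisors.card : ℝ) ≤ (n : ℝ) / a * ∑ k ∈ Icc 1 n, 1 / (k : ℝ) := by
      refine (LdB_tau (n / a)).trans ?_
      exact mul_le_mul Nat.cast_div_le (LdB_harm_mono (Nat.div_le_self n a)) (LdB_harm0 _)
        (by positivity)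
    calc (a.divisors.card : ℝ) * ∑ b ∈ Icc 1 (n / a), (b.divisors.card : ℝ) ≤
        (a.divisors.card : ℝ) * ((n : ℝ) / a * ∑ k ∈ Icc 1 n, 1 / (k : ℝ)) :=
          mul_le_mul_of_nonneg_left h5 (by positivity)
      _ = _ := by ring
  refine (Finset.sum_le_sum h4).trans ?_
  rw [← Finset.mul_sum]
  calc (n * ∑ k ∈ Icc 1 n, 1 / (k : ℝ)) * ∑ a ∈ Icc 1 n, (a.divisors.card : ℝ) / a ≤
      (n * ∑ k ∈ Icc 1 n, 1 / (k : ℝ)) * (∑ k ∈ Icc 1 n, 1 / (k : ℝ)) ^ 2 :=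
        mul_le_mul_of_nonneg_left (LdB_tau1 n) (mul_nonneg (by positivity) (LdB_harm0 n))
    _ = _ := by ring

end Pool.Agent.Lib.TB
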