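import Pool.Agent.Lib.TB.AsqS
import Pool.Agent.Lib.EH.Basic
import Pool.Agent.Lib.TB.LdB

/-!
# TB: from a grid of points `y` to all points
-/

namespace Pool.Agent.Lib.TB

open Finset Filter Pool.Agent.Results.MP_00e23e_nt Pool.Agent.Lib.EH

/-- The logarithmic integral is increasing with slope at most `2`. -/
theorem GrdS_li {u v : ℝ} (hu : 2 ≤ u) (huv : u ≤ v) : 0 ≤ li v - li u ∧ li v - li u ≤ 2 * (v - u) := by
  have hint : ∀ a b : ℝ, 2 ≤ a → 2 ≤ b →
      IntervalIntegrable (fun t => (Real.log t)⁻¹) MeasureTheory.volume a b := by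
    intro a b ha hb
    apply ContinuousOn.intervalIntegrable
    intro t ht
    have ht2 : 2 ≤ t := by
      rcases Set.mem_uIcc.1 ht with h | h
      · linarith [h.1]
      · linarith [h.1]
    apply ContinuousAt.continuousWithinAt
    apply ContinuousAt.inv₀
    · exact Real.continuousAt_log (by linarith)
    · exact (Real.log_pos (by linarith)).ne'
  have h1 : li v - li u = ∫ t in u..v, (Real.log t)⁻¹ := by
    unfold li
    rw [sub_eq_iff_eq_add, add_comm]
    exact (intervalIntegral.integral_add_adjacent_intervals (hint 2 u le_rfl hu)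
      (hint u v hu (hu.trans huv))).symm
  rw [h1]
  constructor
  · apply intervalIntegral.integral_nonneg huv
    intro t ht
    have : 0 ≤ Real.log t := Real.log_nonneg (by linarith [ht.1])
    positivity
  · have h := intervalIntegral.norm_integral_le_of_norm_le_const (a := u) (b := v)
      (f := fun t => (Real.log t)⁻¹) (C := 2) (by
        intro t ht
        rw [Set.uIoc_of_le huv] at ht
        have h1 : Real.log 2 ≤ Real.log t := Real.log_le_log (by norm_num) (by linarith [ht.1])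
        have h2 : (0.5 : ℝ) < Real.log 2 := by
          have := Real.log_two_gt_d9
          linarith
        rw [Real.norm_eq_abs, abs_of_nonneg (inv_nonneg.mpr (by linarith))]
        rw [show (2 : ℝ) = (0.5)⁻¹ by norm_num]
        exact inv_anti₀ (by norm_num) (by linarith))
    rw [abs_of_nonneg (by linarith)] at h
    exact le_trans (le_abs_self _) h

theorem GrdS_pcz {u v : ℝ} (huv : u ≤ v) (d : ℕ) (a : ℤ) : (pcz u d a : ℝ) ≤ pcz v d a := by
  unfold pcz
  exact_mod_cast Finset.card_le_card (Finset.filter_subset_filter _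
    (Finset.Icc_subset_Icc le_rfl (Nat.floor_le_floor huv)))

/-- The error at `y` in terms of the errors at the points `x m / G`. -/
theorem GrdS_one {x y : ℝ} {G : ℕ} (hx : 0 < x) (hG : 1 ≤ G) (hxG : 2 ≤ x / G) (hy2 : 2 ≤ y)
    (hyx : y ≤ x) (d : ℕ) (hd : 1 ≤ d) (a : ℤ) :
    |(pcz y d a : ℝ) - li y / (d.totient : ℝ)| ≤
      ∑ m ∈ Icc 1 G, |(pcz (x / G * m) d a : ℝ) - li (x / G * m) / (d.totient : ℝ)| +
        2 * (x / G) / (d.totient : ℝ) := by
  have hG0 : (0 : ℝ) < G := by exact_mod_cast hG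
  have hφ : (0 : ℝ) < (d.totient : ℝ) := by exact_mod_cast Nat.totient_pos.2 hd
  obtain ⟨h, hh⟩ : ∃ h, h = x / G := ⟨_, rfl⟩
  rw [← hh] at hxG ⊢
  have hh0 : 0 < h := by linarith
  have hxh : x = h * G := by rw [hh]; field_simp
  obtain ⟨m, hm⟩ : ∃ m, m = ⌈y / h⌉₊ := ⟨_, rfl⟩
  have hm1 : y ≤ h * m := by
    have := Nat.le_ceil (y / h)
    rw [← hm, div_le_iff₀ hh0] at this
    linarith
  have hm2 : h * m < y + h := by
    have := Nat.ceil_lt_add_one (show 0 ≤ y / h by positivity)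
    rw [← hm] at this
    calc h * m < h * (y / h + 1) := mul_lt_mul_of_pos_left this hh0
      _ = y + h := by field_simp
  have hm0 : 1 ≤ m := by
    rw [hm]
    exact Nat.one_le_ceil_iff.2 (by positivity)
  have hmG : m ≤ G := by
    rw [hm]
    apply Nat.ceil_le.2
    rw [div_le_iff₀ hh0]
    linarith
  obtain ⟨e, he⟩ : ∃ e : ℕ → ℝ, e = fun m : ℕ => |(pcz (h * m) d a : ℝ) - li (h * m) / (d.totient : ℝ)| :=
    ⟨_, rfl⟩
  have he0 : ∀ m, 0 ≤ e m := fun m => by rw [he]; exact abs_nonneg _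
  have hsum : ∀ j, 1 ≤ j → j ≤ G → e j ≤
      ∑ m ∈ Icc 1 G, |(pcz (h * m) d a : ℝ) - li (h * m) / (d.totient : ℝ)| := by
    intro j hj1 hj2
    have := Finset.single_le_sum (f := e) (fun m _ => he0 m) (Finset.mem_Icc.2 ⟨hj1, hj2⟩)
    rw [he] at this ⊢
    exact this
  have hS0 : 0 ≤ ∑ m ∈ Icc 1 G, |(pcz (h * m) d a : ℝ) - li (h * m) / (d.totient : ℝ)| :=
    Finset.sum_nonneg fun m _ => abs_nonneg _
  have hm1' : (1 : ℝ) ≤ m := by exact_mod_cast hm0
  have hhm : 2 ≤ h * m := by nlinarith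
  rw [abs_le]
  constructor
  · -- lower bound
    rcases Nat.lt_or_ge 1 m with h1 | h1
    · have hp1 : (1 : ℝ) ≤ ((m - 1 : ℕ) : ℝ) := by exact_mod_cast (by omega : 1 ≤ m - 1)
      have hp2 : ((m - 1 : ℕ) : ℝ) = m - 1 := by
        rw [Nat.cast_sub hm0, Nat.cast_one]
      have h3 : h * ((m - 1 : ℕ) : ℝ) ≤ y := by rw [hp2]; linarith
      have h4 : 2 ≤ h * ((m - 1 : ℕ) : ℝ) := by nlinarith
      have h5 := GrdS_pcz h3 d a
      have h6 := (GrdS_li h4 h3).2
      have h7 := hsum (m - 1) (by omega) (by omega)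
      have h8 : -e (m - 1) ≤ (pcz (h * ((m - 1 : ℕ) : ℝ)) d a : ℝ) -
          li (h * ((m - 1 : ℕ) : ℝ)) / (d.totient : ℝ) := by
        rw [he]
        exact neg_abs_le _
      have h9 : (li y - li (h * ((m - 1 : ℕ) : ℝ))) / (d.totient : ℝ) ≤ 2 * h / (d.totient : ℝ) := by
        apply div_le_div_of_nonneg_right _ hφ.le
        rw [hp2] at h6 ⊢
        linarith
      rw [sub_div] at h9
      linarith
    · have hm' : m = 1 := by omega
      rw [hm', Nat.cast_one, mul_one] at hm1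
      have h3 := (GrdS_li hy2 hm1).1
      have h4 := li_le (x := h) (by linarith)
      have h5 : li y / (d.totient : ℝ) ≤ 2 * h / (d.totient : ℝ) :=
        div_le_div_of_nonneg_right (by linarith) hφ.le
      have h6 : (0 : ℝ) ≤ (pcz y d a : ℝ) := Nat.cast_nonneg _
      linarith
  · -- upper bound
    have h5 := GrdS_pcz hm1 d a
    have h6 := (GrdS_li hy2 hm1).2
    have h7 := hsum m hm0 hmG
    have h8 : (pcz (h * m) d a : ℝ) - li (h * m) / (d.totient : ℝ) ≤ e m := by
      rw [he]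
      exact le_abs_self _
    have h9 : (li (h * m) - li y) / (d.totient : ℝ) ≤ 2 * h / (d.totient : ℝ) := by
      apply div_le_div_of_nonneg_right _ hφ.le
      linarith
    rw [sub_div] at h9
    linarith

/-- The sum of `1/φ(d)`. -/
theorem GrdS_phi {x : ℝ} {D : ℕ} (hlog : 1 ≤ Real.log x) (hx : 0 < x) (hD : (D : ℝ) ≤ x) :
    ∑ d ∈ Icc 1 D, 1 / (d.totient : ℝ) ≤ 6 * (Real.log x) ^ 2 := by
  obtain ⟨L, hL⟩ : ∃ L, Real.log x = L := ⟨_, rfl⟩
  rw [hL] at hlog ⊢
  have h1 : ∀ d ∈ Icc 1 D, 1 / (d.totient : ℝ) ≤ 3 * L * (1 / (d : ℝ)) := by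
    intro d hd
    rw [Finset.mem_Icc] at hd
    have hd0 : (0 : ℝ) < d := by exact_mod_cast hd.1
    have hφ : (0 : ℝ) < (d.totient : ℝ) := by exact_mod_cast Nat.totient_pos.2 hd.1
    have h2 := le_totient d
    have h3 := card_primeFactors_le hd.1
    have h4 : Real.log d ≤ L := by
      rw [← hL]
      exact Real.log_le_log hd0 (le_trans (by exact_mod_cast hd.2) hD)
    rw [mul_one_div, div_le_div_iff₀ hφ hd0]
    nlinarith
  have h5 : Real.log D ≤ L := by
    rcases Nat.eq_zero_or_pos D with h | h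
    · subst h
      simp
      linarith
    · rw [← hL]
      exact Real.log_le_log (by exact_mod_cast h) hD
  have h6 := LdB_harm D
  calc ∑ d ∈ Icc 1 D, 1 / (d.totient : ℝ) ≤ ∑ d ∈ Icc 1 D, 3 * L * (1 / (d : ℝ)) :=
        Finset.sum_le_sum h1
    _ = 3 * L * ∑ d ∈ Icc 1 D, 1 / (d : ℝ) := by rw [← Finset.mul_sum]
    _ ≤ 3 * L * (2 * L) := by
        apply mul_le_mul_of_nonneg_left _ (by linarith)
        linarith
    _ = 6 * L ^ 2 := by ring

/-- The sum over the moduli with points `y d`. -/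
theorem GrdS_sum {x V : ℝ} {G D : ℕ} (hx : 0 < x) (hlog : 1 ≤ Real.log x) (hG : 1 ≤ G) (hxG : 2 ≤ x / G)
    (hD : (D : ℝ) ≤ x) (y : ℕ → ℝ) (s : ℕ → ℤ) (hy : ∀ d, 2 ≤ y d ∧ y d ≤ x)
    (hV : ∀ m ∈ Icc 1 G, ∑ d ∈ (Icc 1 D).filter (fun d : ℕ => IsCoprime (d : ℤ) (s d)),
      |(pcz (x / G * m) d (s d) : ℝ) - li (x / G * m) / (d.totient : ℝ)| ≤ V) :
    ∑ d ∈ (Icc 1 D).filter (fun d : ℕ => IsCoprime (d : ℤ) (s d)),
      |(pcz (y d) d (s d) : ℝ) - li (y d) / (d.totient : ℝ)| ≤
        G * V + 12 * (x / G) * (Real.log x) ^ 2 := by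
  classical
  have hG0 : (0 : ℝ) < G := by exact_mod_cast hG
  have hxG0 : 0 ≤ x / G := by positivity
  calc ∑ d ∈ (Icc 1 D).filter (fun d : ℕ => IsCoprime (d : ℤ) (s d)),
        |(pcz (y d) d (s d) : ℝ) - li (y d) / (d.totient : ℝ)|
      ≤ ∑ d ∈ (Icc 1 D).filter (fun d : ℕ => IsCoprime (d : ℤ) (s d)),
        (∑ m ∈ Icc 1 G, |(pcz (x / G * m) d (s d) : ℝ) - li (x / G * m) / (d.totient : ℝ)| +
          2 * (x / G) / (d.totient : ℝ)) := by
        apply Finset.sum_le_sum
        intro d hd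
        rw [Finset.mem_filter, Finset.mem_Icc] at hd
        exact GrdS_one hx hG hxG (hy d).1 (hy d).2 d hd.1.1 (s d)
    _ = ∑ m ∈ Icc 1 G, ∑ d ∈ (Icc 1 D).filter (fun d : ℕ => IsCoprime (d : ℤ) (s d)),
          |(pcz (x / G * m) d (s d) : ℝ) - li (x / G * m) / (d.totient : ℝ)| +
        ∑ d ∈ (Icc 1 D).filter (fun d : ℕ => IsCoprime (d : ℤ) (s d)),
          2 * (x / G) / (d.totient : ℝ) := by
        rw [Finset.sum_add_distrib, Finset.sum_comm]
    _ ≤ G * V + 12 * (x / G) * (Real.log x) ^ 2 := by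
        apply add_le_add
        · calc _ ≤ ∑ m ∈ Icc 1 G, V := Finset.sum_le_sum hV
            _ = G * V := by
                rw [Finset.sum_const, nsmul_eq_mul, Nat.card_Icc]
                simp
        · calc ∑ d ∈ (Icc 1 D).filter (fun d : ℕ => IsCoprime (d : ℤ) (s d)),
                2 * (x / G) / (d.totient : ℝ) ≤ ∑ d ∈ Icc 1 D, 2 * (x / G) / (d.totient : ℝ) := by
                apply Finset.sum_le_sum_of_subset_of_nonneg (Finset.filter_subset _ _)
                intro d _ _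
                positivity
            _ = 2 * (x / G) * ∑ d ∈ Icc 1 D, 1 / (d.totient : ℝ) := by
                rw [Finset.mul_sum]
                apply Finset.sum_congr rfl
                intro d _
                rw [mul_one_div]
            _ ≤ 2 * (x / G) * (6 * (Real.log x) ^ 2) :=
                mul_le_mul_of_nonneg_left (GrdS_phi hlog hx hD) (by positivity)
            _ = _ := by ring

end Pool.Agent.Lib.TB
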