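import Pool.Agent.Lib.TB.Stmts

/-!
# TB: elementary properties of `rs`, `ld`, `dd`
-/

namespace Pool.Agent.Lib.TB

open Finset Pool.Agent.Results.MP_00e23e_nt

/-- Moebius inversion in the form used for `rs`. -/
theorem Hf_inv (f g : ℕ → ℝ) (h : ∀ n > 0, ∑ i ∈ n.divisors, f i = g n) (r : ℕ) (hr : 0 < r) :
    ∑ e ∈ r.divisors, g e * ((ArithmeticFunction.moebius (r / e) : ℤ) : ℝ) = f r := by
  have h2 := (ArithmeticFunction.sum_eq_iff_sum_mul_moebius_eq (R := ℝ) (f := f) (g := g)).1 h r hr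
  rw [← h2, Nat.sum_divisorsAntidiagonal' (fun u v => ((ArithmeticFunction.moebius u : ℤ) : ℝ) * g v)]
  apply Finset.sum_congr rfl
  intro e _
  ring

/-- The sum of the Ramanujan sums over the divisors of `d`. -/
theorem Hf_sum_rs (d : ℕ) (hd : 0 < d) (m : ℤ) :
    ∑ r ∈ d.divisors, rs r m = if (d : ℤ) ∣ m then (d : ℝ) else 0 := by
  refine (ArithmeticFunction.sum_eq_iff_sum_mul_moebius_eq (R := ℝ) (f := fun r => rs r m)
    (g := fun n => if (n : ℤ) ∣ m then (n : ℝ) else 0)).2 ?_ d hd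
  intro n hn
  rw [Nat.sum_divisorsAntidiagonal' (fun u v => ((ArithmeticFunction.moebius u : ℤ) : ℝ) *
    (if (v : ℤ) ∣ m then (v : ℝ) else 0))]
  unfold rs
  apply Finset.sum_congr rfl
  intro e _
  split_ifs <;> ring

/-- `dd R d = 0` for `d ≤ R`. -/
theorem Hf_dd_zero {R d : ℕ} (hd : 0 < d) (hR : d ≤ R) (m : ℤ) : dd R d m = 0 := by
  unfold dd ld
  have h1 : d.divisors.filter (fun r => r ≤ R) = d.divisors := by
    apply Finset.filter_true_of_mem
    intro r hr
    exact (Nat.divisor_le hr).trans hR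
  rw [h1, Hf_sum_rs d hd m]
  have hd' : (d : ℝ) ≠ 0 := by exact_mod_cast hd.ne'
  split_ifs
  · field_simp
    ring
  · ring

/-- The Ramanujan sum at `0`. -/
theorem Hf_rs_zero (r : ℕ) (hr : 0 < r) : rs r 0 = (r.totient : ℝ) := by
  have h1 := Hf_inv (fun n => (n.totient : ℝ)) (fun n => (n : ℝ)) (by
    intro n _
    rw [← Nat.cast_sum, Nat.sum_totient]) r hr
  rw [← h1]
  unfold rs
  apply Finset.sum_congr rfl
  intro e _
  rw [if_pos (dvd_zero _)]

/-- `0 ≤ ld R d 0 ≤ 1`. -/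
theorem Hf_ld_zero (R d : ℕ) (hd : 0 < d) : 0 ≤ ld R d 0 ∧ ld R d 0 ≤ 1 := by
  have hd' : (0 : ℝ) < d := by exact_mod_cast hd
  have h1 : ∑ r ∈ d.divisors.filter (fun r => r ≤ R), rs r 0 =
      ∑ r ∈ d.divisors.filter (fun r => r ≤ R), (r.totient : ℝ) := by
    apply Finset.sum_congr rfl
    intro r hr
    exact Hf_rs_zero r (Nat.pos_of_mem_divisors (Finset.mem_of_mem_filter r hr))
  unfold ld
  rw [h1]
  constructor
  · exact mul_nonneg (by positivity) (Finset.sum_nonneg fun r _ => Nat.cast_nonneg _)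
  · have h2 : ∑ r ∈ d.divisors.filter (fun r => r ≤ R), (r.totient : ℝ) ≤ d := by
      calc ∑ r ∈ d.divisors.filter (fun r => r ≤ R), (r.totient : ℝ) ≤
          ∑ r ∈ d.divisors, (r.totient : ℝ) :=
            Finset.sum_le_sum_of_subset_of_nonneg (Finset.filter_subset _ _)
              (fun r _ _ => Nat.cast_nonneg _)
        _ = d := by rw [← Nat.cast_sum, Nat.sum_totient]
    rw [one_div, inv_mul_le_iff₀ hd']
    linarith

/-- `|dd R d 0| ≤ 1`. -/
theorem Hf_dd_at_zero (R d : ℕ) (hd : 0 < d) : |dd R d 0| ≤ 1 := by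
  have h := Hf_ld_zero R d hd
  unfold dd
  rw [if_pos (dvd_zero _), abs_le]
  constructor <;> linarith [h.1, h.2]

end Pool.Agent.Lib.TB
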