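import Pool.Agent.Lib.TB.SpecM

/-!
Fourier transform of the triangular weight.
-/

namespace Pool.Agent.Lib.TB

open Finset Pool.Agent.Lib.EH3

private lemma Mft_card (N : ℕ) (n : ℤ) :
    ((range N ×ˢ range N).filter (fun p : ℕ × ℕ => (p.1 : ℤ) - (p.2 : ℤ) = n)).card =
      N - n.natAbs := by
  rcases Int.natAbs_eq n with h | h
  · have e : (range N ×ˢ range N).filter (fun p : ℕ × ℕ => (p.1 : ℤ) - (p.2 : ℤ) = n) =
        (range (N - n.natAbs)).image (fun j => (j + n.natAbs, j)) := by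
      ext ⟨a, b⟩
      simp only [mem_filter, mem_product, mem_range, mem_image, Prod.mk.injEq]
      constructor
      · rintro ⟨⟨ha, hb⟩, hab⟩
        exact ⟨b, by omega, by omega, rfl⟩
      · rintro ⟨j, hj, h1, h2⟩
        omega
    rw [e, card_image_of_injective _ (fun a b hab => (Prod.mk.injEq _ _ _ _ ▸ hab).2), card_range]
  · have e : (range N ×ˢ range N).filter (fun p : ℕ × ℕ => (p.1 : ℤ) - (p.2 : ℤ) = n) =
        (range (N - n.natAbs)).image (fun j => (j, j + n.natAbs)) := by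
      ext ⟨a, b⟩
      simp only [mem_filter, mem_product, mem_range, mem_image, Prod.mk.injEq]
      constructor
      · rintro ⟨⟨ha, hb⟩, hab⟩
        exact ⟨a, by omega, rfl, by omega⟩
      · rintro ⟨j, hj, h1, h2⟩
        omega
    rw [e, card_image_of_injective _ (fun a b hab => (Prod.mk.injEq _ _ _ _ ▸ hab).1), card_range]

private lemma Mft_double (N : ℕ) (F : ℤ → ℂ) :
    ∑ i ∈ range N, ∑ j ∈ range N, F ((i : ℤ) - (j : ℤ)) =
      ∑ n ∈ Icc (-(N : ℤ)) N, ((N - n.natAbs : ℕ) : ℂ) * F n := by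
  rw [← sum_product']
  rw [← sum_fiberwise_of_maps_to (s := range N ×ˢ range N) (t := Icc (-(N : ℤ)) N)
    (g := fun p : ℕ × ℕ => (p.1 : ℤ) - (p.2 : ℤ))
    (by
      intro p hp
      rw [mem_product, mem_range, mem_range] at hp
      rw [mem_Icc]
      omega)]
  refine sum_congr rfl fun n _ => ?_
  rw [sum_congr rfl (g := fun _ => F n) (fun p hp => by rw [(mem_filter.1 hp).2]), sum_const,
    Mft_card, nsmul_eq_mul]

theorem tMft : MftStmt := by
  intro N t hN
  have hN0 : (N : ℂ) ≠ 0 := by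
    rw [Nat.cast_ne_zero]
    omega
  have h1 : ((‖GG N t‖ : ℂ)) ^ 2 = ∑ i ∈ range N, ∑ j ∈ range N,
      (fun n : ℤ => ee ((n : ℝ) * t)) ((i : ℤ) - (j : ℤ)) := by
    rw [← Complex.mul_conj', GG, map_sum, sum_mul_sum]
    refine sum_congr rfl fun i _ => sum_congr rfl fun j _ => ?_
    rw [conj_ee, ← ee_add]
    congr 1
    push_cast
    ring
  rw [Mft_double N (fun n : ℤ => ee ((n : ℝ) * t))] at h1
  push_cast
  rw [h1, mul_sum]
  refine sum_congr rfl fun n hn => ?_
  rw [mem_Icc] at hn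
  have h2 : n.natAbs ≤ N := by omega
  have h3 : (tri N n : ℝ) = (((N - n.natAbs : ℕ) : ℝ)) / N := by
    have hNr : (0 : ℝ) < N := by exact_mod_cast hN
    have h4 : |(n : ℝ)| = (n.natAbs : ℝ) := by
      rw [Nat.cast_natAbs, Int.cast_abs]
    have h5 : (n.natAbs : ℝ) / N ≤ 1 := by
      rw [div_le_one hNr]
      exact_mod_cast h2
    rw [tri, h4, max_eq_right (by linarith), Nat.cast_sub h2]
    field_simp
  rw [h3]
  push_cast
  ring

end Pool.Agent.Lib.TB
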