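import Pool.Agent.Lib.TB.SpecK

/-!
MP_00e23e_nt, Lib/TB, part K, module Row: the sum over m2 for fixed m1.
-/

namespace Pool.Agent.Lib.TB

open Finset Pool.Agent.Lib.EH3

private lemma Row_split (f : ℕ → ℂ) (Q q : ℕ) (B : ℝ) (hq : 1 ≤ q)
    (h : ∀ r, r < q → ‖∑ m2 ∈ (Ioc Q (2 * Q)).filter (fun m2 => m2 ≡ r [MOD q]), f m2‖ ≤ B) :
    ‖∑ m2 ∈ Ioc Q (2 * Q), f m2‖ ≤ q * B := by
  have hm : ∀ m ∈ Ioc Q (2 * Q), m % q ∈ range q :=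
    fun m _ => mem_range.mpr (Nat.mod_lt _ (by omega))
  rw [← sum_fiberwise_of_maps_to hm]
  calc ‖∑ r ∈ range q, ∑ m ∈ (Ioc Q (2 * Q)).filter (fun m => m % q = r), f m‖
      ≤ ∑ r ∈ range q, ‖∑ m ∈ (Ioc Q (2 * Q)).filter (fun m => m % q = r), f m‖ :=
        norm_sum_le _ _
    _ ≤ ∑ r ∈ range q, B := by
      refine sum_le_sum fun r hr => ?_
      have hr' : r < q := mem_range.mp hr
      have : (Ioc Q (2 * Q)).filter (fun m => m % q = r) =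
          (Ioc Q (2 * Q)).filter (fun m2 => m2 ≡ r [MOD q]) := by
        refine filter_congr fun m _ => ?_
        unfold Nat.ModEq
        rw [Nat.mod_eq_of_lt hr']
      rw [this]
      exact h r hr'
    _ = q * B := by simp

private lemma Row_pow (a b Q : ℕ) (ha : 1 ≤ a) (hb : 1 ≤ b) (h : a * b ≤ 2 * Q) :
    (a : ℝ) * (b : ℝ) ^ (3 / 4 : ℝ) ≤ 2 * ((a : ℝ) ^ (1 / 4 : ℝ) * (Q : ℝ) ^ (3 / 4 : ℝ)) := by
  have ha0 : (0 : ℝ) < a := by exact_mod_cast ha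
  have hb0 : (0 : ℝ) < b := by exact_mod_cast hb
  have h1 : (a : ℝ) = (a : ℝ) ^ (1 / 4 : ℝ) * (a : ℝ) ^ (3 / 4 : ℝ) := by
    rw [← Real.rpow_add ha0]
    norm_num
  have h2 : (a : ℝ) ^ (3 / 4 : ℝ) * (b : ℝ) ^ (3 / 4 : ℝ) = ((a : ℝ) * b) ^ (3 / 4 : ℝ) :=
    (Real.mul_rpow ha0.le hb0.le).symm
  have h3 : ((a : ℝ) * b) ^ (3 / 4 : ℝ) ≤ ((2 : ℝ) * Q) ^ (3 / 4 : ℝ) := by
    refine Real.rpow_le_rpow (by positivity) ?_ (by norm_num)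
    exact_mod_cast h
  have h4 : ((2 : ℝ) * Q) ^ (3 / 4 : ℝ) = (2 : ℝ) ^ (3 / 4 : ℝ) * (Q : ℝ) ^ (3 / 4 : ℝ) :=
    Real.mul_rpow (by norm_num) (by positivity)
  have h5 : (2 : ℝ) ^ (3 / 4 : ℝ) ≤ 2 := by
    calc (2 : ℝ) ^ (3 / 4 : ℝ) ≤ (2 : ℝ) ^ (1 : ℝ) :=
          Real.rpow_le_rpow_of_exponent_le (by norm_num) (by norm_num)
      _ = 2 := Real.rpow_one _
  have hQ0 : (0 : ℝ) ≤ (Q : ℝ) ^ (3 / 4 : ℝ) := by positivity
  have ha4 : (0 : ℝ) ≤ (a : ℝ) ^ (1 / 4 : ℝ) := by positivity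
  calc (a : ℝ) * (b : ℝ) ^ (3 / 4 : ℝ)
      = (a : ℝ) ^ (1 / 4 : ℝ) * ((a : ℝ) ^ (3 / 4 : ℝ) * (b : ℝ) ^ (3 / 4 : ℝ)) := by
        rw [← mul_assoc, ← h1]
    _ ≤ (a : ℝ) ^ (1 / 4 : ℝ) * (2 * (Q : ℝ) ^ (3 / 4 : ℝ)) := by
        rw [h2]
        refine mul_le_mul_of_nonneg_left ?_ ha4
        calc ((a : ℝ) * b) ^ (3 / 4 : ℝ) ≤ (2 : ℝ) ^ (3 / 4 : ℝ) * (Q : ℝ) ^ (3 / 4 : ℝ) := by
              rw [← h4]; exact h3
          _ ≤ 2 * (Q : ℝ) ^ (3 / 4 : ℝ) := mul_le_mul_of_nonneg_right h5 hQ0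
    _ = 2 * ((a : ℝ) ^ (1 / 4 : ℝ) * (Q : ℝ) ^ (3 / 4 : ℝ)) := by ring

private lemma Row_num (V K A A4 G g T t L l Q3 b3 : ℝ) (hV : 0 ≤ V) (hK : 0 ≤ K)
    (hG : 0 ≤ G) (hg : 0 ≤ g) (hT : 0 ≤ T) (ht : 0 ≤ t) (hl : 0 ≤ l) (hL : 0 ≤ L)
    (hA4 : 0 ≤ A4) (hQ3 : 0 ≤ Q3)
    (hgG : g ≤ G) (htT : t ≤ T) (hlL : l ≤ L) (hA : A * b3 ≤ 2 * (A4 * Q3)) :
    (K * A) * ((2 * t * g * b3) * l * (84 * V)) ≤ 400 * V * K * A4 * G * T * L * Q3 := by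
  have h1 : t * g * l ≤ T * G * L :=
    mul_le_mul (mul_le_mul htT hgG hg hT) hlL hl (mul_nonneg hT hG)
  have h0 : 0 ≤ t * g * l := mul_nonneg (mul_nonneg ht hg) hl
  calc (K * A) * ((2 * t * g * b3) * l * (84 * V))
      = 168 * (V * K) * ((t * g * l) * (A * b3)) := by ring
    _ ≤ 168 * (V * K) * ((T * G * L) * (2 * (A4 * Q3))) := by
        refine mul_le_mul_of_nonneg_left ?_ (by positivity)
        calc (t * g * l) * (A * b3) ≤ (t * g * l) * (2 * (A4 * Q3)) :=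
              mul_le_mul_of_nonneg_left hA h0
          _ ≤ (T * G * L) * (2 * (A4 * Q3)) :=
              mul_le_mul_of_nonneg_right h1 (by positivity)
    _ = 336 * (V * K * A4 * G * T * L * Q3) := by ring
    _ ≤ 400 * (V * K * A4 * G * T * L * Q3) := by
        refine mul_le_mul_of_nonneg_right (by norm_num) (by positivity)
    _ = 400 * V * K * A4 * G * T * L * Q3 := by ring

private lemma Row_main (h1 : CinStmt) (θ : ℤ) (ϑ : ℝ) (Q k l1 l2 k' l1' l2' a b : ℕ)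
    (hQ : 1 ≤ Q) (hk : 1 ≤ k) (hl1 : 1 ≤ l1) (hl2 : 1 ≤ l2) (hk' : 1 ≤ k') (hl1' : 1 ≤ l1')
    (hl2' : 1 ≤ l2') (h4 : l2 ≤ 4 * l1) (h4' : l2' ≤ 4 * l1') (ha : 1 ≤ a) (hb : 1 ≤ b)
    (hc : b.Coprime (k * l1 * l2 * k' * l1' * l2')) (hca : b.Coprime a) (hQm : Q < a * b)
    (hm2 : a * b ≤ 2 * Q) :
    ‖∑ m2 ∈ Ioc Q (2 * Q),
      ph θ ϑ Q k l1 l2 (a * b) m2 * (starRingEnd ℂ) (ph θ ϑ Q k' l1' l2' (a * b) m2)‖ ≤
      400 * (1 + (|(θ : ℝ)| + |ϑ|) / (Q : ℝ) ^ 2) * ((k : ℝ) * k' * l1 * l1') *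
        (a : ℝ) ^ (1 / 4 : ℝ) *
        (Int.gcd (θ * Dt k l1 l2 k' l1' l2') (a * b : ℕ) : ℝ) ^ (1 / 4 : ℝ) *
        ((a * b).divisors.card : ℝ) ^ (1 / 2 : ℝ) * (3 + Real.log (2 * Q)) *
        (Q : ℝ) ^ (3 / 4 : ℝ) := by
  have hq : 1 ≤ k * k' * l1 * l1' * a :=
    Nat.mul_pos (Nat.mul_pos (Nat.mul_pos (Nat.mul_pos hk hk') hl1) hl1') ha
  have hc1 : b.Coprime (k * l1 * l2 * a) := by
    refine Nat.Coprime.mul_right (Nat.Coprime.coprime_dvd_right ?_ hc) hca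
    exact ⟨k' * l1' * l2', by ring⟩
  have hc2 : b.Coprime (k' * l1' * l2' * a) := by
    refine Nat.Coprime.mul_right (Nat.Coprime.coprime_dvd_right ?_ hc) hca
    exact ⟨k * l1 * l2, by ring⟩
  have hab : 1 ≤ a * b := Nat.mul_pos ha hb
  have hsp := Row_split (fun m2 => ph θ ϑ Q k l1 l2 (a * b) m2 *
    (starRingEnd ℂ) (ph θ ϑ Q k' l1' l2' (a * b) m2)) Q (k * k' * l1 * l1' * a)
    (Kb (θ * Dt k l1 l2 k' l1' l2') b * (3 + Real.log b) *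
      (84 * (1 + (|(θ : ℝ)| + |ϑ|) / (Q : ℝ) ^ 2))) hq
    (fun r hr => h1 θ ϑ Q k l1 l2 k' l1' l2' a b r hQ hk hl1 hl2 hk' hl1' hl2' ha hb h4 h4'
      hc1 hc2 hQm hr)
  refine hsp.trans ?_
  have hcast : ((k * k' * l1 * l1' * a : ℕ) : ℝ) = ((k : ℝ) * k' * l1 * l1') * a := by
    push_cast; ring
  rw [hcast]
  unfold Kb
  have hQ0 : (1 : ℝ) ≤ Q := by exact_mod_cast hQ
  have hb0 : (1 : ℝ) ≤ b := by exact_mod_cast hb
  have hV : (0 : ℝ) ≤ 1 + (|(θ : ℝ)| + |ϑ|) / (Q : ℝ) ^ 2 := by positivity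
  have hlb : 0 ≤ Real.log b := Real.log_nonneg hb0
  have hb2 : (b : ℝ) ≤ 2 * Q := by
    have : b ≤ 2 * Q := (Nat.le_mul_of_pos_left b ha).trans hm2
    exact_mod_cast this
  have hlog : Real.log b ≤ Real.log (2 * Q) := Real.log_le_log (by linarith) hb2
  have hτ : ((b.divisors.card : ℕ) : ℝ) ^ (1 / 2 : ℝ) ≤
      (((a * b).divisors.card : ℕ) : ℝ) ^ (1 / 2 : ℝ) := by
    refine Real.rpow_le_rpow (by positivity) ?_ (by norm_num)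
    have : b.divisors ⊆ (a * b).divisors :=
      Nat.divisors_subset_of_dvd (by omega) (Dvd.intro_left a rfl)
    exact_mod_cast card_le_card this
  have hg : (Int.gcd (θ * Dt k l1 l2 k' l1' l2') b : ℝ) ^ (1 / 4 : ℝ) ≤
      (Int.gcd (θ * Dt k l1 l2 k' l1' l2') (a * b : ℕ) : ℝ) ^ (1 / 4 : ℝ) := by
    refine Real.rpow_le_rpow (by positivity) ?_ (by norm_num)
    have h5 : Int.gcd (θ * Dt k l1 l2 k' l1' l2') b ∣
        Int.gcd (θ * Dt k l1 l2 k' l1' l2') (a * b : ℕ) := by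
      refine Int.dvd_gcd (Int.gcd_dvd_left _ _) ?_
      refine (Int.gcd_dvd_right _ _).trans ?_
      push_cast
      exact Dvd.intro_left (a : ℤ) rfl
    have h6 : 0 < Int.gcd (θ * Dt k l1 l2 k' l1' l2') (a * b : ℕ) := by
      refine Int.gcd_pos_of_ne_zero_right _ ?_
      exact_mod_cast (by omega : a * b ≠ 0)
    exact_mod_cast Nat.le_of_dvd h6 h5
  exact Row_num _ _ _ _ _ _ _ _ _ _ _ _ hV (by positivity) (by positivity) (by positivity)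
    (by positivity) (by positivity) (by linarith) (by linarith) (by positivity) (by positivity)
    hg hτ (by linarith) (Row_pow a b Q ha hb hm2)

/-- Module Row: the sum over m2 for fixed m1. -/
theorem tRow (h1 : CinStmt) (h2 : PadStmt) : RowStmt := by
  intro θ ϑ Q k l1 l2 k' l1' l2' m1 hQ hk hl1 hl2 hk' hl1' hl2' h4 h4' hm hm2
  have hP1 : 1 ≤ k * l1 * l2 * k' * l1' * l2' :=
    Nat.mul_pos (Nat.mul_pos (Nat.mul_pos (Nat.mul_pos (Nat.mul_pos hk hl1) hl2) hk') hl1') hl2'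
  obtain ⟨ha1, hdvd, hcop, hcopa, -⟩ := h2 (k * l1 * l2 * k' * l1' * l2') m1 hP1 (by omega)
  obtain ⟨a, ha⟩ : ∃ a, a = pa (k * l1 * l2 * k' * l1' * l2') m1 := ⟨_, rfl⟩
  rw [← ha] at ha1 hdvd hcop hcopa ⊢
  obtain ⟨b, hb⟩ := hdvd
  have hbq : m1 / a = b := by rw [hb]; exact Nat.mul_div_cancel_left _ ha1
  rw [hbq] at hcop hcopa
  have hb1 : 1 ≤ b := by
    rcases Nat.eq_zero_or_pos b with h0 | h0
    · subst h0
      omega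
    · exact h0
  have := Row_main h1 θ ϑ Q k l1 l2 k' l1' l2' a b hQ hk hl1 hl2 hk' hl1' hl2' h4 h4' ha1 hb1
    hcop hcopa (by omega) (by omega)
  rw [← hb] at this
  exact this

end Pool.Agent.Lib.TB
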