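import Pool.Agent.Lib.TB.Stm2

/-!
MP_00e23e_nt, directory Lib/TB, part G: from the bilinear form (BilStmt) and the truncated Fourier
expansion (TruncStmt) to the sum of the error terms (EEStmt).

Every module proves ONE of the propositions SG1, .., SG8 (file TB/Gx.lean, imports this file, namespace
Pool.Agent.Lib.TB, theorem tGx). What a module may use is said in its docstring; then it is an argument
of the theorem (for example theorem tG5 (h2 : SG2) .. : SG5).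

Exponents: delta = 1/1000, eta = 1/4000, G = N^(1/1000 + eta) = N^(1/800), H = N^(4/1000 + eta) = N^(17/4000).
-/

namespace Pool.Agent.Lib.TB

open Finset Pool.Agent.Lib.EH3

/-- the sum over the pairs d = g m, d' = g n with (m, n) = 1 and Q < d, d' ≤ 2 Q -/
noncomputable def pg (Q g : ℕ) (f : ℕ → ℕ → ℂ) : ℂ :=
  ∑ m ∈ Ioc (Q / g) (2 * Q / g), ∑ n ∈ (Ioc (Q / g) (2 * Q / g)).filter (fun n => m.Coprime n), f m n

/-- the error term of the pair (g m, g n) with its coefficients -/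
noncomputable def fE (N g : ℕ) (c c' : ℕ → ℝ) (a b : ℤ) (m n : ℕ) : ℂ :=
  ((c (g * m) * c' (g * n) * (SS N (g * m) (g * n) a b - MM N (g * m) (g * n) a b) : ℝ) : ℂ)

/-- the term of BilStmt with the integer th and the real number vt -/
noncomputable def eB (th : ℤ) (vt : ℝ) (m n : ℕ) : ℂ :=
  ee ((th : ℝ) * (iv m n : ℝ) / (n : ℝ) + vt / ((m : ℝ) * n))

/-- **G1** (60 lines). Decomposition by the greatest common divisor.
Proof. Fiberwise over g = gcd(d, d') in Icc 1 (2Q) (Finset.sum_fiberwise_of_maps_to on the product; d > Q ≥ 0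
so gcd ≥ 1, and gcd ≤ d ≤ 2Q). For fixed g ≥ 1 the map (m, n) -> (g m, g n) is a bijection from the pairs with
m, n in Ioc (Q/g) (2Q/g), (m, n) = 1 onto the pairs (d, d') in (Ioc Q (2Q))^2 with gcd = g:
Q < g m iff Q/g < m (Nat.div_lt_iff_lt_mul), g m ≤ 2Q iff m ≤ 2Q/g (Nat.le_div_iff_mul_le), gcd(g m, g n) =
g gcd(m, n) (Nat.gcd_mul_left). -/
def SG1 : Prop := ∀ (Q : ℕ) (f : ℕ → ℕ → ℂ),
  ∑ d ∈ Ioc Q (2 * Q), ∑ d' ∈ Ioc Q (2 * Q), f d d' =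
    ∑ g ∈ Icc 1 (2 * Q), pg Q g (fun m n => f (g * m) (g * n))

/-- **G2** (60 lines; uses SsbdStmt). Trivial bound for one g.
Proof. The number of m (and of n) is at most 2Q/g as a real number (card Ioc ≤ 2Q/g, Nat.cast_div_le), so there
are at most 4Q^2/g^2 pairs. For m, n ≥ 1 coprime, lcm(g m, g n) = g m n, and g m > Q, g n > Q (Q/g < m), so
lcm = (g m)(g n)/g ≥ Q^2/g. SsbdStmt (second part) gives |SS - MM| ≤ 4N/lcm + 1 ≤ 4 N g/Q^2 + 1.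
The coefficients are at most 1. Total: (4Q^2/g^2)(4Ng/Q^2 + 1) = 16 N/g + 4 Q^2/g^2. -/
def SG2 : Prop := ∀ (N Q g : ℕ) (c c' : ℕ → ℝ) (a b : ℤ), 1 ≤ N → 1 ≤ Q → 1 ≤ g →
  (∀ d, |c d| ≤ 1) → (∀ d, |c' d| ≤ 1) →
  ‖pg Q g (fE N g c c' a b)‖ ≤ 16 * (N : ℝ) / g + 4 * (Q : ℝ) ^ 2 / (g : ℝ) ^ 2

/-- **G3** (30 lines; uses SszeStmt). No contribution if g does not divide b - a.
Proof. For (m, n) = 1: gcd(g m, g n) = g does not divide a - b, so SS = MM = 0 by SszeStmt. -/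
def SG3 : Prop := ∀ (N Q g : ℕ) (c c' : ℕ → ℝ) (a b : ℤ), ¬ ((g : ℤ) ∣ b - a) →
  pg Q g (fE N g c c' a b) = 0

/-- **G4** (100 lines; uses TruncStmt, SsclStmt; iv_dvd is in TB/Basic.lean). The error term of one pair.
Proof. Let K1 = (b - a)/g (exact), nu = a + g m K1 iv(m, n). Then g m | nu - a, and nu - b = g (m K1 iv - K1)
= g K1 (m iv - 1) is divisible by g n (iv_dvd). lcm(g m, g n) = g m n =: q (m, n coprime: Nat.lcm_mul_left,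
Nat.Coprime.lcm_eq_mul). SsclStmt: SS - MM = cl N q nu - N/q. TruncStmt with H (2H < q) and b := nu; the phase is
h (t - nu)/q = h (t - a)/(g m n) - h K1 iv/n, which is the argument of eB for th = -(h K1), vt = h (t - a)/g, and
-h (t - nu)/q is the argument of eB for th = h K1, vt = -(h (t - a)/g). -/
def SG4 : Prop := ∀ (N H g m n : ℕ) (a b : ℤ), 1 ≤ N → 1 ≤ H → 1 ≤ g → 1 ≤ m → 1 ≤ n → m.Coprime n →
  (g : ℤ) ∣ b - a → 2 * H < g * m * n →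
  ‖((SS N (g * m) (g * n) a b - MM N (g * m) (g * n) a b : ℝ) : ℂ) -
      (1 / ((g : ℂ) * m * n)) * ∑ h ∈ Icc 1 H, ∑ t ∈ Icc (-(N : ℤ)) N, ((tri N t : ℝ) : ℂ) *
        (eB (-((h : ℤ) * ((b - a) / g))) ((h : ℝ) * ((t : ℝ) - a) / g) m n +
          eB ((h : ℤ) * ((b - a) / g)) (-((h : ℝ) * ((t : ℝ) - a) / g)) m n)‖ ≤
    (g : ℝ) * m * n / ((N : ℝ) * H)

/-- **G5** (120 lines; uses BilStmt). The bilinear form with weights 1/(m n), for the blocks (Q/g, 2Q/g].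
Proof. Put P = Q/g (floor), P ≥ 1 as g ≤ Q, and 2Q/g is 2P or 2P + 1. Let alpha m = c(g m) P/m for m > P, 0
otherwise, and beta n the same with c'; both are at most 1 in absolute value. The part of the sum with m, n ≤ 2P is
(1/P^2) times the sum of BilStmt for (P, alpha, beta, th, vt), so at most C |th|^eps P^(-1/65) (..)^(1/4)
(use Int |th|, P^(2 - 1/65) = P^2 P^(-1/65), Real.rpow_add; take max C 0). The remaining terms
(m = 2P + 1 or n = 2P + 1) number at most 2 (P + 1), each is at most 1/((2P + 1)(P + 1)) in absolute value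
(norm of ee is 1): total at most 2/(2P + 1) ≤ 4/P. -/
def SG5 : Prop := ∀ ε : ℝ, 0 < ε → ∃ C : ℝ, 0 ≤ C ∧ ∀ (Q g : ℕ) (c c' : ℕ → ℝ) (th : ℤ) (vt : ℝ),
  1 ≤ g → g ≤ Q → (∀ d, |c d| ≤ 1) → (∀ d, |c' d| ≤ 1) → th ≠ 0 →
  ‖pg Q g (fun m n => ((c (g * m) * c' (g * n) : ℝ) : ℂ) * (1 / ((m : ℂ) * n)) * eB th vt m n)‖ ≤
    C * |(th : ℝ)| ^ ε * ((Q / g : ℕ) : ℝ) ^ (-((1 : ℝ) / 65)) *
      (1 + (|(th : ℝ)| + |vt|) / ((Q / g : ℕ) : ℝ) ^ 2) ^ ((1 : ℝ) / 4) + 4 / ((Q / g : ℕ) : ℝ)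

/-- **G6** (120 lines; uses SG4, SG5). One g dividing b - a.
Proof. For every pair m, n of pg: g m > Q, g n > Q, so g m n = (g m)(g n)/g > Q^2/g, and 2 H g ≤ Q^2 gives
2 H < g m n; also g m n ≤ 4Q^2/g ≤ 4 Q^2. By SG4 (multiply by c c', norm at most 1) the value fE is the main part
plus an error at most 4Q^2/(N H); there are at most (2Q)^2 pairs: total error 16 Q^4/(N H). The main part:
exchange the sums; for every h, t and each of the two signs the sum over the pairs is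
(1/g) pg Q g (c c'/(m n) eB th vt) with th = -+ h K1 (K1 = (b - a)/g, not 0), vt = +- h (t - a)/g. Now
|th| ≤ H |b - a| ≤ 2 H N, |vt| ≤ H (|t| + |a|) ≤ 2 H N, so SG5 (monotone in |th|, |vt|) bounds it by the bracket
B = C (2HN)^eps P^(-1/65) (1 + 4HN/P^2)^(1/4) + 4/P, P = Q/g; and 1/g ≤ 1, 0 ≤ tri ≤ 1, the number of t
is 2N + 1 ≤ 3N, two signs: 2 * H * 3N * B. -/
def SG6 : Prop := ∀ ε : ℝ, 0 < ε → ∃ C : ℝ, 0 ≤ C ∧ ∀ (N Q H g : ℕ) (c c' : ℕ → ℝ) (a b : ℤ),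
  1 ≤ N → 1 ≤ H → 1 ≤ g → g ≤ Q → 2 * H * g ≤ Q ^ 2 → (∀ d, |c d| ≤ 1) → (∀ d, |c' d| ≤ 1) → a ≠ b →
  |a| ≤ (N : ℤ) → |b| ≤ (N : ℤ) → (g : ℤ) ∣ b - a →
  ‖pg Q g (fE N g c c' a b)‖ ≤ 16 * (Q : ℝ) ^ 4 / ((N : ℝ) * H) +
    6 * (H : ℝ) * N * (C * (2 * (H : ℝ) * N) ^ ε * ((Q / g : ℕ) : ℝ) ^ (-((1 : ℝ) / 65)) *
      (1 + 4 * (H : ℝ) * N / ((Q / g : ℕ) : ℝ) ^ 2) ^ ((1 : ℝ) / 4) + 4 / ((Q / g : ℕ) : ℝ))

/-- **G7** (150 lines). The exponents.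
Proof. Let N0 be large, G = N^(1/800), H = floor(N^(17/4000)) + 1, so N^(17/4000) ≤ H ≤ 2 N^(17/4000).
RR N = floor(N^(1/2 - 1/500)) ≥ N^(1/2 - 1/500)/2, so Q ≥ N^(1/2 - 1/500)/2, Q ≤ 2 N^(1/2 + 1/1000).
(1) For 1 ≤ g ≤ G: g ≤ Q and 2 H g ≤ 4 N^(22/4000) ≤ Q^2 (Q^2 ≥ N^(996/1000)/4) for large N.
(2) 16 Q^4/(N H) ≤ 256 N^(2 + 4/1000)/(N N^(17/4000)) = 256 N^(1 - 1/4000).
(3) P = floor(Q/g) ≥ Q/g - 1 ≥ Q/(2g) (as Q ≥ 2g) ≥ N^(1/2 - 1/500 - 1/800)/4 (here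
1/2 - 1/500 - 1/800 = 1987/4000), so P ≥ N^(1987/4000)/4.
(4) 4 H N/P^2 ≤ 4 * 2 N^(1 + 17/4000) * 16 N^(-3974/4000) = 128 N^(43/4000); (1 + 128 N^(43/4000))^(1/4) ≤
(129 N^(43/4000))^(1/4) ≤ 4 N^(43/16000).
(5) (2 H N)^(1/10000) ≤ (4 N^(1 + 17/4000))^(1/10000) ≤ 2 N^(11/100000).
(6) P^(-1/65) ≤ 4 N^(-1987/260000).
(7) 6 H N ≤ 12 N^(1 + 17/4000). Product of all: 12 * C * 2 * 4 * 4 * N^(1 + 0.00425 + 0.00011 + 0.0026875 -
0.0076423) = 384 C N^(1 - 0.0005948) (exact: 17/4000 + 11/100000 + 43/16000 - 1987/260000 < -1/2000), so at most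
384 C N^(1 - 1/4000). The term 6 H N 4/P ≤ 48 N^(1 + 17/4000) 4 N^(-1987/4000) ≤ 192 N^(1 - 1/4000).
Sum: (256 + 384 C + 192) N^(1 - 1/4000). -/
def SG7 : Prop := ∀ C : ℝ, 0 ≤ C → ∃ C1 : ℝ, ∃ N0 : ℕ, 0 ≤ C1 ∧ ∀ N Q : ℕ, N0 ≤ N → 1 ≤ N → RR N ≤ Q →
  (Q : ℝ) ≤ 2 * (N : ℝ) ^ ((1 : ℝ) / 2 + 1 / 1000) →
  1 ≤ Q ∧ ∃ H : ℕ, 1 ≤ H ∧ ∀ g : ℕ, 1 ≤ g → (g : ℝ) ≤ (N : ℝ) ^ ((1 : ℝ) / 800) →
    g ≤ Q ∧ 2 * H * g ≤ Q ^ 2 ∧
    16 * (Q : ℝ) ^ 4 / ((N : ℝ) * H) +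
      6 * (H : ℝ) * N * (C * (2 * (H : ℝ) * N) ^ ((1 : ℝ) / 10000) * ((Q / g : ℕ) : ℝ) ^ (-((1 : ℝ) / 65)) *
        (1 + 4 * (H : ℝ) * N / ((Q / g : ℕ) : ℝ) ^ 2) ^ ((1 : ℝ) / 4) + 4 / ((Q / g : ℕ) : ℝ)) ≤
      C1 * (N : ℝ) ^ ((1 : ℝ) - 1 / 4000)

/-- **G8** (100 lines; uses SG1, SG2, SG3, SG6, SG7, TauStmt). The result.
Proof. C from SG6 with eps = 1/10000, C1 and N0 from SG7, Ct from TauStmt with eps = 1/10000. The real sum is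
the norm of its cast to the complex numbers; SG1 with f d d' = cast of c d * c' d' * (SS - MM) (then
fun m n => f (g m) (g n) is fE N g c c' a b by rfl) and norm_sum_le. By SG3 only the g with
(g : Z) | b - a contribute; they are divisors of k = (b - a).natAbs, 1 ≤ k ≤ 2N, so there are at most
card (divisors k) ≤ Ct k^(1/10000) ≤ Ct (2N)^(1/10000) of them. For every such g in Icc 1 (2Q): if g ≤ N^(1/800):
SG6 and SG7: at most C1 N^(1 - 1/4000). If g > N^(1/800): SG2: 16 N/g ≤ 16 N^(1 - 1/800) ≤ 16 N^(1 - 1/4000) and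
4 Q^2/g^2 ≤ 16 N^(1 + 2/1000 - 2/800) = 16 N^(1 - 1/2000) ≤ 16 N^(1 - 1/4000). So the total is at most
Ct 2 N^(1/10000) (C1 + 32) N^(1 - 1/4000) ≤ 2 Ct (C1 + 32) N^(1 - 1/10000), eta = 1/10000. -/
def SG8 : Prop := EEStmt

end Pool.Agent.Lib.TB
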