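import Pool.Agent.Lib.TB.Stm2

/-!
MP_00e23e_nt, directory Lib/TB, part M (helper81): from the sum of the error terms (EEStmt of Stm2,
helper95) to the estimate (OFF) of Stmts; weight, finite Fourier expansion, Ramanujan sums, main terms,
cross terms. First lines of every module of this part: `import Pool.Agent.Lib.TB.SpecM`, then
`namespace Pool.Agent.Lib.TB`, `open Finset Pool.Agent.Lib.EH3`. Private lemmas start with the name of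
the module. Final theorem of module Xyz: `theorem tXyz (h1 : AStmt) ... : XyzStmt`.
-/

namespace Pool.Agent.Lib.TB

open Finset Pool.Agent.Lib.EH3

/-- the coefficient of 1_{e | m} in l_d(m) -/
noncomputable def lam (R d e : ℕ) : ℝ :=
  ((e : ℝ) / d) * ∑ r ∈ d.divisors.filter (fun r => r ≤ R ∧ e ∣ r),
    ((ArithmeticFunction.moebius (r / e) : ℤ) : ℝ)

/-- the coefficient of 1_{e | m} in 1_{d | m} - l_d(m) -/
noncomputable def kap (R d e : ℕ) : ℝ := (if e = d then 1 else 0) - lam R d e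

/-- Module Mft (theorem tMft; Fourier transform of the triangle). Uses: nothing.
Proof. ‖GG N t‖² = GG N t · conj (GG N t) = ∑_{i,j < N} ee ((i - j) t) (conj_ee, ee_add of EH3.LS1), grouped by
n = i - j ∈ [-N, N]: the number of pairs (i, j) ∈ range N × range N with i - j = n is N - |n| for |n| ≤ N, which is
N · tri N n. -/
def MftStmt : Prop := ∀ (N : ℕ) (t : ℝ), 1 ≤ N →
  ∑ n ∈ Icc (-(N : ℤ)) N, ((tri N n : ℝ) : ℂ) * ee ((n : ℝ) * t) =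
    (((1 / (N : ℝ)) * ‖GG N t‖ ^ 2 : ℝ) : ℂ)

/-- Module Mex (theorem tMex; exact Fourier expansion of cl). Uses: Mft.
Proof. 1_{q | m} = (1/q) ∑_{h < q} ee (h m/q) (geometric sum: if q ∤ m then z = ee (m/q) ≠ 1, z^q = 1). Insert
m = n - b, exchange the sums, and use Mft with t = h/q. -/
def MexStmt : Prop := ∀ (N q : ℕ) (b : ℤ), 1 ≤ N → 1 ≤ q →
  ((cl N q b : ℝ) : ℂ) = (1 / (q : ℂ)) * ∑ h ∈ range q,
    ee (-((h : ℝ) * (b : ℝ) / (q : ℝ))) * (((1 / (N : ℝ)) * ‖GG N ((h : ℝ) / (q : ℝ))‖ ^ 2 : ℝ) : ℂ)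

/-- Module Msm (theorem tMsm; sums of the kernel). Uses: nothing.
Proof. For 0 < h < q and t = h/q: |t - round t| = min(h, q - h)/q (abs_sub_round_eq_min, Int.fract t = t), so by
norm_GG_sq_le (EH3.LS1) ‖GG N t‖² ≤ q²/(4 min(h,q-h)²) ≤ q²/(4h²) + q²/(4(q-h)²). Sum over h; reflection h ↦ q - h;
∑_{H < h < q} 1/h² ≤ 1/H (telescoping 1/h² ≤ 1/(h-1) - 1/h) and ∑_{1 ≤ h < q} 1/h² ≤ 2. -/
def MsmStmt : Prop := ∀ (N q : ℕ), 1 ≤ N → 1 ≤ q →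
  (∀ H : ℕ, 1 ≤ H → 2 * H < q →
    ∑ h ∈ Ioo H (q - H), ‖GG N ((h : ℝ) / (q : ℝ))‖ ^ 2 ≤ (q : ℝ) ^ 2 / (2 * (H : ℝ))) ∧
  ∑ h ∈ Ico 1 q, ‖GG N ((h : ℝ) / (q : ℝ))‖ ^ 2 ≤ (q : ℝ) ^ 2

/-- Module Mtr (theorem tMtr : MftStmt → MexStmt → MsmStmt → TruncStmt). Uses: Mft, Mex, Msm.
Proof. In Mex split range q = {0} ∪ Icc 1 H ∪ Ioo H (q-H) ∪ {q - h : h ∈ Icc 1 H} (2H < q). h = 0: GG N 0 = N gives
(1/q) N. The middle part has norm ≤ (1/q)(1/N) q²/(2H). For 1 ≤ h ≤ H the term ee(-(h b/q)) · (1/N)‖GG N (h/q)‖² is by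
Mft ∑_t tri(t) ee (h (t-b)/q); for q - h: ee(-((q-h) b/q)) = ee(h b/q) (b is an integer, ee_int) and by Mft
(t = (q-h)/q) (1/N)‖GG N ((q-h)/q)‖² = ∑_t tri(t) ee(t (q-h)/q) = ∑_t tri(t) ee(-(t h/q)); product
∑_t tri(t) ee(-(h (t-b)/q)). -/
def MtrStmt : Prop := TruncStmt

/-- Module Mcb (theorem tMcb; the count cl with error q/N). Uses: Mex, Msm.
Proof. Mex: the term h = 0 is N/q, the others sum to at most (1/q)(1/N) q² (second part of Msm). -/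
def McbStmt : Prop := ∀ (N q : ℕ) (b : ℤ), 1 ≤ N → 1 ≤ q → |cl N q b - (N : ℝ) / q| ≤ (q : ℝ) / N

/-- Module Msc (theorem tMsc : SsclStmt ∧ SszeStmt). Uses: nothing.
Proof. If u | ν - a, w | ν - b then (u | n - a and w | n - b) iff u | n - ν and w | n - ν iff lcm u w | n - ν (as
integers; Int.natCast_dvd, Nat.lcm_dvd_iff), and gcd u w | a - b, (gcd u w)/(u w) = 1/lcm u w. If gcd u w ∤ a - b there
is no n with u | n - a and w | n - b, since then gcd u w | (n - b) - (n - a). -/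
def MscStmt : Prop := SsclStmt ∧ SszeStmt

/-- Module Msb (theorem tMsb : SsclStmt → SszeStmt → McbStmt → SsbdStmt).
Proof. If gcd u w ∤ a - b both terms vanish. Otherwise there is ν with u | ν - a, w | ν - b (Int.gcd or
Nat.chineseRemainder-like: a - b = u r + w s, ν = a - u r = b + w s), so SS - MM = cl N q ν - N/q, q = lcm u w: first
bound by Mcb. Second bound: 0 ≤ tri ≤ 1 and the number of n ∈ [-N, N] with n = ν mod q is ≤ 2N/q + 1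
(Int.Ico_filter_modEq_card or injectivity), so |SS - MM| ≤ 2N/q + 1 + N/q. -/
def MsbStmt : Prop := SsbdStmt

/-- Module Mta (theorem tMta : TauMStmt). Uses: nothing.
Proof. τ(n)/n^ε = ∏_{p^a ‖ n} (a+1)/p^(aε). For p ≥ 2^(1/ε): (a+1)/p^(aε) ≤ (a+1)/2^a ≤ 1. For every p ≥ 2:
(a+1)/p^(aε) ≤ (a+1)/2^(aε) ≤ K := 1 + 1/(ε log 2) · e... (bounded in a: a + 1 ≤ K 2^(aε), e.g. 2^(aε) = e^(aε log 2) ≥
1 + aε log 2 and K = max(1, 1/(ε log 2)) works: K (1 + aε log 2) ≥ 1 + a). Hence C = K^(number of p < 2^(1/ε)).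
Lean: induction Nat.recOnPosPrimePosCoprime or ArithmeticFunction/Nat.factorization product; or any other proof, for
example from an existing library lemma of the team (grep divisors.card). -/
def MtaStmt : Prop := TauMStmt

/-- Module Mrs (theorem tMrs; sum of Ramanujan sums). Uses: nothing.
Proof. ∑_{s | g} ∑_{e | s} [e | m] e μ(s/e) = ∑_{e | g} [e | m] e ∑_{k | g/e} μ(k), and the inner sum is [e = g]. -/
def MrsStmt : Prop := ∀ (g : ℕ) (m : ℤ), 1 ≤ g →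
  ∑ s ∈ g.divisors, rs s m = if (g : ℤ) ∣ m then (g : ℝ) else 0

/-- Module Mka (theorem tMka; coefficients). Uses: nothing.
Proof. (1) exchange of the sums over r and e in the definition of ld. (2) s | d: ∑_{u | d, s | u} [u = d]/u = 1/d and
∑_{u | d, s | u} lam/u = (1/d) ∑_{r | d, r ≤ R, s | r} ∑_{u : s | u | r} μ(r/u) = (1/d) ∑_r [r = s]
(u = s v, r/u = (r/s)/v, ∑_{v | r/s} μ((r/s)/v) = [r/s = 1]). (3) R < d: no r ≤ R is divisible by d, so lam R d d = 0;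
|lam R d e| ≤ (e/d) τ(d); no r ≤ R is divisible by e > R. -/
def MkaStmt : Prop :=
  (∀ (R d : ℕ) (m : ℤ), 1 ≤ d →
    dd R d m = ∑ e ∈ d.divisors, kap R d e * (if (e : ℤ) ∣ m then 1 else 0)) ∧
  (∀ R d s : ℕ, 1 ≤ d → s ∣ d →
    ∑ u ∈ d.divisors.filter (fun u => s ∣ u), kap R d u / (u : ℝ) = if R < s then 1 / (d : ℝ) else 0) ∧
  (∀ R d : ℕ, R < d → kap R d d = 1) ∧
  (∀ R d e : ℕ, R < d → e ∣ d → e ≠ d → |kap R d e| ≤ ((e : ℝ) / d) * (d.divisors.card : ℝ)) ∧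
  (∀ R d e : ℕ, R < d → e ∣ d → e ≠ d → R < e → kap R d e = 0)

/-- Module Mmi (theorem tMmi; the main terms). Uses: Mrs, Mka.
Proof. By Mrs MM N u w a b = N/(u w) ∑_{s | gcd u w} rs s (a-b) (gcd ≥ 1); s | gcd u w iff s | u and s | w; exchange: for
each s | gcd d d' the factor is (∑_{u | d, s | u} kap R d u/u)(∑_{w | d', s | w} kap R d' w/w) = [R < s]/(d d'). -/
def MmiStmt : Prop := ∀ (N R d d' : ℕ) (a b : ℤ), 1 ≤ d → 1 ≤ d' →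
  ∑ u ∈ d.divisors, ∑ w ∈ d'.divisors, kap R d u * kap R d' w * MM N u w a b =
    ((N : ℝ) / ((d : ℝ) * d')) * ∑ s ∈ (Nat.gcd d d').divisors.filter (fun s => R < s), rs s (a - b)

/-- Module Mdy (theorem tMdy; reciprocals of multiples in a dyadic block). Uses: nothing.
Proof. For s > 2Q the sum is empty. For Q < s ≤ 2Q the only multiple in (Q, 2Q] is s. For s ≤ Q there are at most
Q/s + 1 ≤ 2Q/s multiples, each with 1/d ≤ 1/Q. -/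
def MdyStmt : Prop := ∀ Q s : ℕ, 1 ≤ s →
  ∑ d ∈ (Ioc Q (2 * Q)).filter (fun d => s ∣ d), 1 / (d : ℝ) ≤ 2 / (s : ℝ)

/-- Module Mmb (theorem tMmb; bound of the main terms). Uses: Mdy.
Proof. The left side is ≤ N ∑_{R < s ≤ 2Q} |rs s m| (∑_{d ∈ (Q,2Q], s | d} 1/d)² ≤ 4N ∑_{R < s ≤ 2Q} |rs s m|/s², and
|rs s m| ≤ ∑_{e | s, e | m} e. With s = e k: ≤ 4N ∑_{e | m} (1/e) ∑_{k > R/e} 1/k² ≤ 4N ∑_{e | m} (1/e) (2e/R) = 8 N τ(m)/R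
(∑_{k > y} 1/k² ≤ 2/y for y > 0: for y ≥ 1 it is ≤ 1/⌊y⌋ ≤ 2/y, for y < 1 it is ≤ 2). -/
def MmbStmt : Prop := ∀ (N R Q : ℕ) (m : ℤ), 1 ≤ R → m ≠ 0 →
  ∑ d ∈ Ioc Q (2 * Q), ∑ d' ∈ Ioc Q (2 * Q), |((N : ℝ) / ((d : ℝ) * d')) *
      ∑ s ∈ (Nat.gcd d d').divisors.filter (fun s => R < s), rs s m| ≤
    18 * (N : ℝ) * (m.natAbs.divisors.card : ℝ) / R

/-- Module Mcr (theorem tMcr; the cross terms). Uses: Mka, SsbdStmt.
Proof. kap R d d = 1, kap R d u = 0 for R < u < d (d > Q ≥ R), |kap R d u| ≤ (u/d) τ(d), |SS - MM| ≤ lcm(u,w)/N ≤ u w/N.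
Pairs (d, w), w ≠ d', w ≤ R: each ≤ (w/d') τ(d') d w/N ≤ 2 R² τ(d')/N (d ≤ 2Q < 2d'), τ(d') values of w. Pairs (u, d')
similarly. Pairs u ≠ d, w ≠ d', u, w ≤ R: each ≤ τ(d) τ(d') u² w²/(d d' N) ≤ τ(d) τ(d') R²/N since R² ≤ d d'. Total
≤ (2 + 2 + 1) R² τ(d)² τ(d')²/N. -/
def McrStmt : Prop := ∀ (N R Q d d' : ℕ) (a b : ℤ), 1 ≤ N → 1 ≤ R → R ≤ Q → d ∈ Ioc Q (2 * Q) →
  d' ∈ Ioc Q (2 * Q) →
  |∑ u ∈ d.divisors, ∑ w ∈ d'.divisors, kap R d u * kap R d' w * (SS N u w a b - MM N u w a b) -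
      (SS N d d' a b - MM N d d' a b)| ≤
    5 * (R : ℝ) ^ 2 / N * ((d.divisors.card : ℝ) ^ 2 * (d'.divisors.card : ℝ) ^ 2)

/-- Module Mfu (theorem tMfu; expansion of the full sum). Uses: Mka (first part).
Proof. Insert dd R d m = ∑_{e | d} kap R d e [e | m], multiply out, exchange, [u | n-a][w | n-b] = [both]. -/
def MfuStmt : Prop := ∀ (N R Q : ℕ) (c c' : ℕ → ℝ) (a b : ℤ),
  ∑ n ∈ Icc (-(N : ℤ)) N, tri N n * ((∑ d ∈ Ioc Q (2 * Q), c d * dd R d (n - a)) *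
      (∑ d' ∈ Ioc Q (2 * Q), c' d' * dd R d' (n - b))) =
    ∑ d ∈ Ioc Q (2 * Q), ∑ d' ∈ Ioc Q (2 * Q), c d * c' d' *
      ∑ u ∈ d.divisors, ∑ w ∈ d'.divisors, kap R d u * kap R d' w * SS N u w a b

/-- Module Mab (theorem tMab; bounds of dd). Uses: Mdy.
Proof. (1) m ≠ 0: ∑_{d} [d | m] ≤ τ(|m|); ∑_{d ∈ (Q,2Q]} |ld R d m| ≤ ∑_{r ≤ R} |rs r m| ∑_{d ∈ (Q,2Q], r | d} 1/d ≤
∑_{r ≤ R} |rs r m| 2/r ≤ 2 ∑_{e | m} ∑_{k ≤ R/e} 1/k ≤ 2 τ(|m|)(1 + log R) (|rs r m| ≤ ∑_{e | r, e | m} e, r = e k).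
Total ≤ τ(|m|)(3 + 2 log R). (2) rs r 0 = ∑_{e | r} e μ(r/e) = φ(r) (Mathlib: moebius and totient; or
∑_{s | g} rs s 0 = g by Moebius inversion and Nat.sum_totient) is ≥ 0 and ∑_{r | d} φ(r) = d, so
0 ≤ ld R d 0 ≤ 1 and 0 ≤ dd R d 0 ≤ 1. -/
def MabStmt : Prop :=
  (∀ (R Q : ℕ) (m : ℤ), 1 ≤ R → m ≠ 0 →
    ∑ d ∈ Ioc Q (2 * Q), |dd R d m| ≤ (m.natAbs.divisors.card : ℝ) * (4 + 3 * Real.log R)) ∧
  (∀ R d : ℕ, 1 ≤ d → |dd R d 0| ≤ 1)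

/-- Module Mxc (theorem tMxc; the points n = a and n = b). Uses: Mab.
Proof. The two sums over n differ only at n = a and n = b (FF is the full sum for nonzero arguments and 0 at 0). At
n = a: tri ≤ 1, |∑_d c_d dd R d 0| ≤ Q, |∑_d' c'_d' dd R d' (a-b)| ≤ τ(|a-b|)(4 + 3 log R); the same at n = b (with b - a,
same natAbs). -/
def MxcStmt : Prop := ∀ (N R Q : ℕ) (c c' : ℕ → ℝ) (a b : ℤ), 1 ≤ R → (∀ d, |c d| ≤ 1) →
  (∀ d, |c' d| ≤ 1) → a ≠ b →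
  |∑ n ∈ Icc (-(N : ℤ)) N, tri N n * (FF R Q c (n - a) * FF R Q c' (n - b)) -
    ∑ n ∈ Icc (-(N : ℤ)) N, tri N n * ((∑ d ∈ Ioc Q (2 * Q), c d * dd R d (n - a)) *
      (∑ d' ∈ Ioc Q (2 * Q), c' d' * dd R d' (n - b)))| ≤
    2 * (Q : ℝ) * (((a - b).natAbs.divisors.card : ℝ) * (4 + 3 * Real.log R))

/-- Module Mbg (theorem tMbg (h1 : EEStmt) (h2 : TauMStmt) (h3 : MmiStmt) (h4 : MmbStmt) (h5 : McrStmt)
(h6 : MfuStmt) (h7 : MxcStmt) : MbgStmt; large N).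
Proof. R = RR N ≥ 1, R ≤ N^(1/2-1/500), R ≥ N^(1/2-1/500)/2, |a - b| ≤ 2N, a - b ≠ 0. By Mxc and Mfu the sum is, up to
2Q τ(|a-b|)(4 + 3 log R), equal to ∑_{d,d'} c_d c'_d' ∑_{u,w} kap kap' SS, SS = MM + (SS - MM).
(i) MM: by Mmi, Mmb at most 18 N τ(|a-b|)/R. (ii) (SS - MM) of (d,d'): EEStmt, ≤ C N^(1-η). (iii) the rest by Mcr:
≤ ∑_{d,d'} 5 (R²/N) τ(d)² τ(d')² ≤ 5 Q² (R²/N) C_ε⁴ (2Q)^(4ε) (number of d is Q), with ε = 1/8000: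
Q² R²/N ≤ 4 N^(1 + 2/1000 - 2/500), (2Q)^(4ε) ≤ 4 N^(1/1000) [2Q ≤ 4 N^(0.501) ≤ 4N]: total ≤ C N^(1 - 1/1000).
(i) ≤ C N^(1/2 + 1/500 + ε); the exclusion term ≤ C N^(0.501 + 2ε). Final η' = min(η, 1/1000), N0 as in EEStmt. -/
def MbgStmt : Prop := ∃ C η : ℝ, ∃ N0 : ℕ, 0 < η ∧ ∀ (N Q : ℕ) (c c' : ℕ → ℝ) (a b : ℤ), N0 ≤ N → 1 ≤ N →
  RR N ≤ Q → (Q : ℝ) ≤ 2 * (N : ℝ) ^ ((1 : ℝ) / 2 + 1 / 1000) →
  (∀ d, |c d| ≤ 1) → (∀ d, |c' d| ≤ 1) → a ≠ b → |a| ≤ (N : ℤ) → |b| ≤ (N : ℤ) →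
  |∑ n ∈ Icc (-(N : ℤ)) N, tri N n * (FF (RR N) Q c (n - a) * FF (RR N) Q c' (n - b))| ≤
    C * (N : ℝ) ^ (1 - η)

/-- Module Mof (theorem tMof (h1 : MabStmt) (h2 : MbgStmt) : OffStmt).
Proof. For N ≥ N0 this is Mbg (with η replaced by min(η, 1/2) if one likes; C by max(C, ...)). For 1 ≤ N < N0: |FF (m)| ≤
τ(|m|)(4 + 3 log R) ≤ |m| (4 + 3R) ≤ 2N (4 + 3N) for m ≠ 0, |m| ≤ 2N (R ≤ N), FF 0 = 0, so the sum is at most
(2N + 1)(2N (4 + 3N))² ≤ (2N0 + 1)(2N0 (4 + 3N0))² =: C1, and N^(1-η) ≥ 1 if η ≤ 1 (N ≥ 1). -/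
def MofStmt : Prop := OffStmt

end Pool.Agent.Lib.TB
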