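import Pool.Agent.Lib.TB.Stmts

/-!
MP_00e23e_nt, directory Lib/TB: interfaces inside the proof of (OFF) from (B').
-/

namespace Pool.Agent.Lib.TB

open Finset Pool.Agent.Lib.EH3

/-- the weighted number of n congruent to b modulo q -/
noncomputable def cl (N q : ℕ) (b : ℤ) : ℝ :=
  ∑ n ∈ Icc (-(N : ℤ)) N, tri N n * (if (q : ℤ) ∣ n - b then 1 else 0)

/-- truncated Fourier expansion of cl -/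
def TruncStmt : Prop := ∀ (N q H : ℕ) (b : ℤ), 1 ≤ N → 1 ≤ q → 1 ≤ H → 2 * H < q →
  ‖((cl N q b : ℝ) : ℂ) - (N : ℂ) / (q : ℂ) - (1 / (q : ℂ)) * ∑ h ∈ Icc 1 H,
      ∑ t ∈ Icc (-(N : ℤ)) N, ((tri N t : ℝ) : ℂ) *
        (ee ((h : ℝ) * ((t : ℝ) - (b : ℝ)) / (q : ℝ)) + ee (-((h : ℝ) * ((t : ℝ) - (b : ℝ)) / (q : ℝ))))‖ ≤
    (q : ℝ) / ((N : ℝ) * H)

/-- two congruences are one congruence modulo the least common multiple -/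
def SsclStmt : Prop := ∀ (N u w : ℕ) (a b ν : ℤ), 1 ≤ u → 1 ≤ w → (u : ℤ) ∣ ν - a → (w : ℤ) ∣ ν - b →
  SS N u w a b = cl N (Nat.lcm u w) ν ∧ MM N u w a b = (N : ℝ) / (Nat.lcm u w : ℝ)

/-- no solution if (u, w) does not divide a - b -/
def SszeStmt : Prop := ∀ (N u w : ℕ) (a b : ℤ), ¬ (((Nat.gcd u w : ℕ) : ℤ) ∣ a - b) →
  SS N u w a b = 0 ∧ MM N u w a b = 0

/-- trivial bounds -/
def SsbdStmt : Prop := ∀ (N u w : ℕ) (a b : ℤ), 1 ≤ N → 1 ≤ u → 1 ≤ w →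
  |SS N u w a b - MM N u w a b| ≤ (Nat.lcm u w : ℝ) / N ∧
  |SS N u w a b - MM N u w a b| ≤ 4 * (N : ℝ) / (Nat.lcm u w : ℝ) + 1

/-- the divisor bound -/
def TauMStmt : Prop := ∀ ε : ℝ, 0 < ε → ∃ C : ℝ, 0 < C ∧ ∀ n : ℕ, 1 ≤ n →
  (n.divisors.card : ℝ) ≤ C * (n : ℝ) ^ ε

/-- the sum of the error terms of the pairs (d, d') -/
def EEStmt : Prop := ∃ C η : ℝ, ∃ N0 : ℕ, 0 < η ∧ ∀ (N Q : ℕ) (c c' : ℕ → ℝ) (a b : ℤ), N0 ≤ N → 1 ≤ N →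
  RR N ≤ Q → (Q : ℝ) ≤ 2 * (N : ℝ) ^ ((1 : ℝ) / 2 + 1 / 1000) →
  (∀ d, |c d| ≤ 1) → (∀ d, |c' d| ≤ 1) → a ≠ b → |a| ≤ (N : ℤ) → |b| ≤ (N : ℤ) →
  |∑ d ∈ Ioc Q (2 * Q), ∑ d' ∈ Ioc Q (2 * Q), c d * c' d' * (SS N d d' a b - MM N d d' a b)| ≤
    C * (N : ℝ) ^ (1 - η)

end Pool.Agent.Lib.TB
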