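import Pool.Agent.Lib.TB.StmS
import Pool.Agent.Lib.KF.Defs

/-!
MP_00e23e_nt, directory Lib/TB: interfaces for the theorem with a family of selectors (T#): functions
s_i of the modulus with few values, pairwise distinct at every modulus.
-/

namespace Pool.Agent.Lib.TB

open Finset Pool.Agent.Results.MP_00e23e_nt

/-- (DIA#) the diagonal moment for coefficients c_a(d), a ∈ A, with |c_a(d)| ≤ 1 and ∑_a |c_a(d)| ≤ K for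
every d: linear in K.
PROOF. As tDiaS: |FF(c_a, m)| ≤ C L^2 tau(m) by |c_a(d)| ≤ 1, and |FF(c_a, m)| ≤ ∑_d |c_a(d)| g(d, m) with
g(d, m) = 1_{d | m} + |ld R d m|; the product is summed over a first, ∑_a |c_a(d)| ≤ K. -/
def DiaKStmt : Prop := ∃ (C : ℝ) (k : ℕ), ∀ (N R Q : ℕ) (c : ℤ → ℕ → ℝ) (A : Finset ℤ) (K : ℝ),
  2 ≤ N → R ≤ N → Q ≤ N → (∀ a ∈ A, ∀ d, |c a d| ≤ 1) → (∀ d, ∑ a ∈ A, |c a d| ≤ K) →
  (∀ a ∈ A, |a| ≤ (N : ℤ)) →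
  ∑ a ∈ A, ∑ n ∈ Icc (-(N : ℤ)) N, tri N n * (FF R Q (c a) (n - a)) ^ 2 ≤
    C * K * (N : ℝ) * (Real.log N) ^ k

/-- **T#**. There are η > 0 and k such that for every U > 0 there is C: for all x ≥ 3 and all families of
functions s_i, i ∈ J, from the moduli d ≤ D = x^(1/2+1/1000) to the integers in [-x, x], each with at most
x^η values, with s_i(d) ≠ s_j(d) for all i ≠ j and all d: for all i ∈ J with at most C (log x)^(5U+k)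
exceptions, for all choices of points y(d) ∈ [2, x]
∑_{d ≤ D, (d, s_i(d)) = 1} |π(y(d); d, s_i(d)) - li y(d)/φ(d)| ≤ C x/(log x)^U. -/
def TKStmt : Prop := ∃ η : ℝ, 0 < η ∧ ∃ k : ℝ, ∀ U : ℝ, 0 < U → ∃ C : ℝ,
  ∀ (x : ℝ) (J : Finset ℕ) (s : ℕ → ℕ → ℤ), 3 ≤ x →
  (∀ i ∈ J, ∀ d ∈ Icc 1 ⌊x ^ ((1 : ℝ) / 2 + 1 / 1000)⌋₊, |(s i d : ℝ)| ≤ x) →
  (∀ i ∈ J, (((Icc 1 ⌊x ^ ((1 : ℝ) / 2 + 1 / 1000)⌋₊).image (s i)).card : ℝ) ≤ x ^ η) →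
  (∀ i ∈ J, ∀ j ∈ J, i ≠ j → ∀ d ∈ Icc 1 ⌊x ^ ((1 : ℝ) / 2 + 1 / 1000)⌋₊, s i d ≠ s j d) →
  ∃ S ⊆ J, (S.card : ℝ) ≤ C * (Real.log x) ^ (5 * U + k) ∧ ∀ i ∈ J, i ∉ S →
    ∀ y : ℕ → ℝ, (∀ d, 2 ≤ y d ∧ y d ≤ x) →
      ∑ d ∈ (Icc 1 ⌊x ^ ((1 : ℝ) / 2 + 1 / 1000)⌋₊).filter (fun d : ℕ => Int.gcd (s i d) d = 1),
        |resErr (y d) d (s i d)| ≤ C * (x / (Real.log x) ^ U)

end Pool.Agent.Lib.TB
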