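import Pool.Agent.Lib.TB.Asm

/-!
MP_00e23e_nt, directory Lib/TB: interfaces for the theorem with a maximum over blocks of residues
(helper19's T**): selectors s (the residue may depend on the modulus), disjoint supports.
-/

namespace Pool.Agent.Lib.TB

open Finset Pool.Agent.Results.MP_00e23e_nt

/-- (DIA') the diagonal moment for coefficients c_a(d), a ∈ A, with ∑_a |c_a(d)| ≤ 1 for every d.
PROOF. |FF(c_a, m)| ≤ S1 + S2, S1 = ∑_{d | m} |c_a(d)| ≤ tau(m), S2 = ∑_d |c_a(d)| |ld R d m| ≤ H(2Q) H(R) tau(m) (Dia_ld).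
S1^2 ≤ tau(m) S1; ∑_{0 < |m| ≤ 2N, d | m} tau(m) ≤ 2 tau(d) (2N/d) (1 + log 2N); with 1/d ≤ 1/Q and the sum over a:
≤ (4N/Q)(1 + log 2N) ∑_{d ≤ 2Q} tau(d). S2^2 ≤ S2 H(2Q) H(R) tau(m); |ld R d m| ≤ (1/d) ∑_{r | d} ∑_{e | r, e | m} e;
∑_m tau(m) |ld R d m| ≤ (1/d) ∑_{r | d} ∑_{e | r} e (4 N tau(e)/e)(1 + log 2N). -/
def DiaSStmt : Prop := ∃ (C : ℝ) (k : ℕ), ∀ (N R Q : ℕ) (c : ℤ → ℕ → ℝ) (A : Finset ℤ),
  2 ≤ N → R ≤ N → Q ≤ N → (∀ d, ∑ a ∈ A, |c a d| ≤ 1) → (∀ a ∈ A, |a| ≤ (N : ℤ)) →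
  ∑ a ∈ A, ∑ n ∈ Icc (-(N : ℤ)) N, tri N n * (FF R Q (c a) (n - a)) ^ 2 ≤
    C * (N : ℝ) * (Real.log N) ^ k

/-- (LP') the low frequencies, with a residue s(d) which may depend on the modulus d
(proof of tLpGen with `a` replaced by `s d`: Lp_one is a bound for one modulus). -/
def LpSStmt : Prop := ∃ C : ℝ, ∀ (x y : ℝ) (R D : ℕ) (s : ℕ → ℤ), 3 ≤ x → 2 ≤ y → 1 ≤ R →
  (R : ℝ) ≤ x → (D : ℝ) ≤ x →
  ∑ d ∈ (Icc 1 D).filter (fun d : ℕ => IsCoprime (d : ℤ) (s d)),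
    |∑ p ∈ (Icc 1 ⌊y⌋₊).filter Nat.Prime, ld R d ((p : ℤ) - s d) - li y / (d.totient : ℝ)| ≤
      C * (Real.log x) ^ 3 * (∑ e ∈ Icc 1 R, maxErr y e + y / R)

/-- **T\*\***. There is η > 0 such that for every U there are B, C: for all x ≥ 3 and all pairwise disjoint
sets A_i, i < n, of integers in [-x, x] with at most x^η elements, for all i < n with at most
C (log x)^B exceptions: for all choices of points y(d) ∈ [2, x] and residues s(d) ∈ A_i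
∑_{d ≤ x^(1/2+1/1000), (d, s(d)) = 1} |π(y(d); d, s(d)) - li y(d)/φ(d)| ≤ C x/(log x)^U. -/
def TSSStmt : Prop := ∃ η : ℝ, 0 < η ∧ ∀ U : ℝ, 0 < U → ∃ B C : ℝ, ∀ x : ℝ, 3 ≤ x →
  ∀ (n : ℕ) (A : ℕ → Finset ℤ), (∀ i < n, ∀ j < n, i ≠ j → Disjoint (A i) (A j)) →
    (∀ i < n, ∀ a ∈ A i, |(a : ℝ)| ≤ x) → (∀ i < n, ((A i).card : ℝ) ≤ x ^ η) →
    ∃ S : Finset ℕ, (S.card : ℝ) ≤ C * (Real.log x) ^ B ∧ ∀ i < n, i ∉ S →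
      ∀ (y : ℕ → ℝ) (s : ℕ → ℤ), (∀ d, 2 ≤ y d ∧ y d ≤ x) → (∀ d, s d ∈ A i) →
        ∑ d ∈ (Icc 1 ⌊x ^ ((1 : ℝ) / 2 + 1 / 1000)⌋₊).filter (fun d : ℕ => IsCoprime (d : ℤ) (s d)),
          |(pcz (y d) d (s d) : ℝ) - li (y d) / (d.totient : ℝ)| ≤ C * (x / (Real.log x) ^ U)

end Pool.Agent.Lib.TB
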