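import Pool.Agent.Lib.TB.DefsM
import Pool.Agent.Lib.EH.Defs

/-!
MP_00e23e_nt, directory Lib/TB: the interfaces between the parts of the proof, as propositions.
-/

namespace Pool.Agent.Lib.TB

open Finset Pool.Agent.Lib.EH3 Pool.Agent.Results.MP_00e23e_nt

/-- (B') bilinear forms in Kloosterman fractions with arbitrary coefficients -/
def BilStmt : Prop := ∀ ε : ℝ, 0 < ε → ∃ C : ℝ, ∀ (Q : ℕ) (α β : ℕ → ℂ) (θ : ℤ) (ϑ : ℝ),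
  1 ≤ Q → (∀ m, ‖α m‖ ≤ 1) → (∀ n, ‖β n‖ ≤ 1) → θ ≠ 0 →
  ‖∑ m ∈ Ioc Q (2 * Q), ∑ n ∈ (Ioc Q (2 * Q)).filter (fun n => m.Coprime n),
      α m * β n * ee ((θ : ℝ) * (iv m n : ℝ) / (n : ℝ) + ϑ / ((m : ℝ) * n))‖ ≤
    C * |(θ : ℝ)| ^ ε * (Q : ℝ) ^ ((2 : ℝ) - 1 / 65) *
      (1 + (|(θ : ℝ)| + |ϑ|) / (Q : ℝ) ^ 2) ^ ((1 : ℝ) / 4)

/-- (OFF) almost orthogonality for different integers a and b -/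
def OffStmt : Prop := ∃ C η : ℝ, 0 < η ∧ ∀ (N Q : ℕ) (c c' : ℕ → ℝ) (a b : ℤ), 1 ≤ N →
  RR N ≤ Q → (Q : ℝ) ≤ 2 * (N : ℝ) ^ ((1 : ℝ) / 2 + 1 / 1000) →
  (∀ d, |c d| ≤ 1) → (∀ d, |c' d| ≤ 1) → a ≠ b → |a| ≤ (N : ℤ) → |b| ≤ (N : ℤ) →
  |∑ n ∈ Icc (-(N : ℤ)) N, tri N n * (FF (RR N) Q c (n - a) * FF (RR N) Q c' (n - b))| ≤
    C * (N : ℝ) ^ (1 - η)

/-- (DIA) the diagonal moment -/
def DiaStmt : Prop := ∃ C : ℝ, ∀ (N R Q : ℕ) (c : ℕ → ℝ) (a : ℤ), 2 ≤ N → R ≤ N → Q ≤ N →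
  (∀ d, |c d| ≤ 1) → |a| ≤ (N : ℤ) →
  ∑ n ∈ Icc (-(N : ℤ)) N, tri N n * (FF R Q c (n - a)) ^ 2 ≤ C * (N : ℝ) * (Real.log N) ^ 7

/-- (LP) the sum of l_d(p - a) over the primes p ≤ x is li x / φ(d) on average over d -/
def LpStmt : Prop := ∃ C : ℝ, ∀ (x : ℝ) (R D : ℕ) (a : ℤ), 3 ≤ x → 1 ≤ R → (R : ℝ) ≤ x →
  (D : ℝ) ≤ x →
  ∑ d ∈ (Icc 1 D).filter (fun d : ℕ => IsCoprime (d : ℤ) a),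
    |∑ p ∈ (Icc 1 ⌊x⌋₊).filter Nat.Prime, ld R d ((p : ℤ) - a) - li x / (d.totient : ℝ)| ≤
      C * (Real.log x) ^ 3 * (∑ e ∈ Icc 1 R, maxErr x e + x / R)

end Pool.Agent.Lib.TB
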